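import Pool.Agent.Lib.MP_4a1962_an.PotA

/-!
# PotH: `PotData` for the law of an analytic function on a circle

* `circMeas_noatom`: `{θ ∈ Ioc 0 (2π) | H (circleMap 0 r θ) = w}` is countable: identity theorem
  (`H` analytic on the ball, not constant because `H 0 = 0` and `H z ≠ 0` somewhere; the zero set of
  `H - w` is discrete in the ball, finite on the circle); `Set.Countable.preimage_circleMap`.
* `measurable_circN`: `w ↦ ∫ θ, lg (H (circleMap 0 r θ) - w)` is measurable
  (`StronglyMeasurable.integral_prod_right`), `Measurable.ite` (`measurableSet_singleton`).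
* `potData_circ`: `M = 1 + sup ‖H‖` on `closedBall 0 r` (compact); `zero`: `M ≤ |w.re|` implies
  `w ∉ H '' closedBall 0 r`, `circN_eq_zero`. `mean`: `circMeas_integral` with `f = re` and the mean value
  property of `H`. `int`: `MeromorphicOn.circleIntegrable_log_norm` and `integrable_map_measure`.
  `eq`: `circMeas_integral` with `f a = lg (a - w)` and the definition of `circleAverage`.
-/

set_option autoImplicit false

open MeasureTheory Set Filter Topology
open scoped Real ENNReal NNReal

namespace MP4a1962

variable {H : ℂ → ℂ} {r : ℝ}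

private theorem poth_finite (hH : DifferentiableOn ℂ H (Metric.ball 0 1)) (h0 : H 0 = 0)
    (hne : ∃ z ∈ Metric.ball (0 : ℂ) 1, H z ≠ 0) (hr1 : r < 1) (w : ℂ) :
    {z : ℂ | z ∈ Metric.closedBall (0 : ℂ) r ∧ H z = w}.Finite := by
  by_contra hinf
  obtain ⟨x, hx, hacc⟩ := Set.Infinite.exists_accPt_of_subset_isCompact hinf
    (isCompact_closedBall (0 : ℂ) r) (fun z hz => hz.1)
  rw [accPt_iff_frequently_nhdsNE] at hacc
  have han : AnalyticOnNhd ℂ (fun z => H z - w) (Metric.ball (0 : ℂ) 1) :=
    (hH.sub_const w).analyticOnNhd Metric.isOpen_ball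
  have hfr : ∃ᶠ z in 𝓝[≠] x, (fun z => H z - w) z = 0 := by
    refine hacc.mono fun z hz => ?_
    simp only
    rw [hz.2, sub_self]
  have hall := han.eqOn_zero_of_preconnected_of_frequently_eq_zero
    (convex_ball (0 : ℂ) 1).isPreconnected (Metric.closedBall_subset_ball hr1 hx) hfr
  have hw0 : w = 0 := by
    have h1 := hall (Metric.mem_ball_self one_pos)
    simp only [h0, zero_sub, Pi.zero_apply, neg_eq_zero] at h1
    exact h1
  obtain ⟨z, hz, hz0⟩ := hne
  have h1 := hall hz
  simp only [hw0, sub_zero, Pi.zero_apply] at h1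
  exact hz0 h1

theorem circMeas_noatom (hH : DifferentiableOn ℂ H (Metric.ball 0 1)) (h0 : H 0 = 0)
    (hne : ∃ z ∈ Metric.ball (0 : ℂ) 1, H z ≠ 0) (hr0 : 0 < r) (hr1 : r < 1) (w : ℂ) :
    circMeas H r {w} = 0 := by
  have hm := (continuous_circ hH hr0 hr1).measurable
  rw [circMeas, Measure.map_apply hm (measurableSet_singleton w), Measure.smul_apply]
  have h1 : volume.restrict (Ioc 0 (2 * π)) ((fun θ : ℝ => H (circleMap 0 r θ)) ⁻¹' {w}) = 0 := by
    refine nonpos_iff_eq_zero.1 ((Measure.restrict_apply_le _ _).trans ?_)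
    have h2 : ((fun θ : ℝ => H (circleMap 0 r θ)) ⁻¹' {w}) ⊆
        circleMap 0 r ⁻¹' {z : ℂ | z ∈ Metric.closedBall (0 : ℂ) r ∧ H z = w} := by
      intro θ hθ
      exact ⟨circleMap_mem_closedBall 0 hr0.le θ, hθ⟩
    refine (measure_mono h2).trans (le_of_eq ?_)
    exact ((poth_finite hH h0 hne hr1 w).countable.preimage_circleMap 0 hr0.ne').measure_zero _
  rw [h1, smul_zero]

theorem measurable_circN (hH : DifferentiableOn ℂ H (Metric.ball 0 1))
    (hr0 : 0 < r) (hr1 : r < 1) : Measurable (circN H r) := by
  unfold circN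
  refine Measurable.ite (measurableSet_singleton (0 : ℂ)) measurable_const ?_
  refine Measurable.sub ?_ measurable_lg
  have hm := (continuous_circ hH hr0 hr1).measurable
  have h1 : Measurable (fun q : ℂ × ℝ => lg (H (circleMap 0 r q.2) - q.1)) :=
    measurable_lg.comp ((hm.comp measurable_snd).sub measurable_fst)
  have h2 : StronglyMeasurable (fun w : ℂ => ∫ θ in Ioc (0 : ℝ) (2 * π),
      lg (H (circleMap 0 r θ) - w)) :=
    StronglyMeasurable.integral_prod_right' (f := fun q : ℂ × ℝ => lg (H (circleMap 0 r q.2) - q.1))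
      h1.stronglyMeasurable
  have h3 : (fun w : ℂ => Real.circleAverage (fun z => lg (H z - w)) 0 r) =
      fun w : ℂ => (2 * π)⁻¹ * ∫ θ in Ioc (0 : ℝ) (2 * π), lg (H (circleMap 0 r θ) - w) := by
    funext w
    rw [Real.circleAverage_def, smul_eq_mul, intervalIntegral.integral_of_le Real.two_pi_pos.le]
  rw [h3]
  exact h2.measurable.const_mul _

private theorem poth_int (hH : DifferentiableOn ℂ H (Metric.ball 0 1)) (hr0 : 0 < r) (hr1 : r < 1)
    (w : ℂ) : Integrable (fun a => lg (a - w)) (circMeas H r) := by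
  have hm := (continuous_circ hH hr0 hr1).measurable
  have hmer : MeromorphicOn (fun z => H z - w) (Metric.sphere (0 : ℂ) |r|) := by
    intro z hz
    exact (analyticOnNhd_sub hH hr0 hr1 w z (Metric.sphere_subset_closedBall hz)).meromorphicAt
  have h1 := hmer.circleIntegrable_log_norm
  rw [CircleIntegrable, intervalIntegrable_iff_integrableOn_Ioc_of_le Real.two_pi_pos.le] at h1
  have hml : Measurable (fun a : ℂ => lg (a - w)) :=
    measurable_lg.comp (measurable_id.sub measurable_const)
  rw [circMeas]
  refine (integrable_map_measure hml.aestronglyMeasurable hm.aemeasurable).2 ?_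
  refine Integrable.smul_measure h1 ?_
  rw [ENNReal.inv_ne_top]
  exact (ENNReal.ofReal_pos.2 Real.two_pi_pos).ne'

theorem potData_circ (hH : DifferentiableOn ℂ H (Metric.ball 0 1)) (h0 : H 0 = 0)
    (hne : ∃ z ∈ Metric.ball (0 : ℂ) 1, H z ≠ 0) (hr0 : 0 < r) (hr1 : r < 1) :
    ∃ M : ℝ, PotData (circMeas H r) (circN H r) M := by
  obtain ⟨B, hB⟩ := (isCompact_closedBall (0 : ℂ) r).exists_bound_of_continuousOn
    (hH.continuousOn.mono (Metric.closedBall_subset_ball hr1))
  have hB0 : 0 ≤ B := (norm_nonneg _).trans (hB 0 (Metric.mem_closedBall_self hr0.le))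
  have hm := (continuous_circ hH hr0 hr1).measurable
  refine ⟨1 + B, ?_⟩
  refine
    { prob := circMeas_prob hH hr0 hr1
      Mpos := by linarith
      supp := ?_
      mean := ?_
      int := poth_int hH hr0 hr1
      noatom := circMeas_noatom hH h0 hne hr0 hr1
      nonneg := circN_nonneg hH h0 hr0 hr1
      eq := ?_
      zero := ?_
      meas := measurable_circN hH hr0 hr1 }
  · rw [circMeas, ae_map_iff hm.aemeasurable
      (measurableSet_le measurable_norm measurable_const)]
    refine Filter.Eventually.of_forall fun θ => ?_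
    have := hB _ (circleMap_mem_closedBall 0 hr0.le θ)
    linarith
  · rw [circMeas_integral hH hr0 hr1 Complex.measurable_re]
    have hd : DiffContOnCl ℂ H (Metric.ball (0 : ℂ) |r|) := by
      rw [abs_of_pos hr0]
      refine DifferentiableOn.diffContOnCl_ball (U := Metric.ball (0 : ℂ) 1) hH ?_
      exact Metric.closedBall_subset_ball hr1
    have h1 := hd.circleAverage
    rw [h0, Real.circleAverage_def] at h1
    have h2 := congrArg Complex.re h1
    rw [Complex.smul_re, smul_eq_mul, Complex.zero_re] at h2
    have h3 : (∫ θ in (0 : ℝ)..(2 * π), H (circleMap 0 r θ)).re =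
        ∫ θ in (0 : ℝ)..(2 * π), (H (circleMap 0 r θ)).re := by
      rw [intervalIntegral.integral_of_le Real.two_pi_pos.le,
        intervalIntegral.integral_of_le Real.two_pi_pos.le]
      have h4 : IntervalIntegrable (fun θ : ℝ => H (circleMap 0 r θ)) volume 0 (2 * π) :=
        (continuous_circ hH hr0 hr1).intervalIntegrable _ _
      rw [intervalIntegrable_iff_integrableOn_Ioc_of_le Real.two_pi_pos.le] at h4
      exact (integral_re h4).symm
    rw [h3] at h2
    exact h2
  · intro w hw
    rw [circMeas_integral hH hr0 hr1 (f := fun a => lg (a - w))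
      (measurable_lg.comp (measurable_id.sub measurable_const))]
    unfold circN
    rw [if_neg hw, Real.circleAverage_def, smul_eq_mul]
  · intro w hw
    refine circN_eq_zero hH h0 hr0 hr1 fun z hz hzw => ?_
    have h1 := hB z hz
    rw [hzw] at h1
    have h2 := Complex.abs_re_le_norm w
    linarith

end MP4a1962
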