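import Pool.Agent.Lib.MP_4a1962_an.StarThm
import Pool.Agent.Lib.MP_4a1962_an.PotH

/-!
# AppIneq: the majorisation inequality for `HCls`

For `h` in `HCls`, `0 < r < 1`, every real `u`:
`∫_{-π}^{π} |Re h(r e^{iθ}) - u| dθ ≤ 2 π |u| + 2 S0 (pt u π)`.

Proof. If `h = 0` on the disc: the left side is `2 π |u|` and `S0 ≥ 0`. Otherwise for `0 < c < 1` let
`H = c • h`. `potData_circ` applies. `{v | 0 < circN H r (pt u v)} ⊆ {v | ∃ z ∈ ball, c * h z = pt u v}
= c • {v' | ∃ z ∈ ball, h z = pt (u/c) v'}` has measure `≤ c * 2π < 2π` (`Real.volume` scaling,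
`Measure.addHaar_smul`). `star_ineq_top` with `l = 2 π c` and `circMeas_integral`:
`π ((2π)⁻¹ ∫_0^{2π} |c Re h(r e^{iθ}) - u| dθ - |u|) ≤ S0 (pt u π)`. Let `c → 1`
(`| |c x - u| - |x - u| | ≤ (1 - c) |x|`, `x` bounded on the circle). The interval `(0, 2π)` is
replaced by `(-π, π)` by periodicity (`Function.Periodic.intervalIntegral_add_eq`).
-/

set_option autoImplicit false

open MeasureTheory Set Filter Topology
open scoped Real ENNReal NNReal

namespace MP4a1962

private theorem appi_mem {r : ℝ} (hr0 : 0 < r) (hr1 : r < 1) (θ : ℝ) :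
    circleMap 0 r θ ∈ Metric.ball (0 : ℂ) 1 := by
  rw [mem_ball_zero_iff, norm_circleMap_zero, abs_of_pos hr0]
  exact hr1

private theorem appi_sec {h : ℂ → ℂ} (hh : HCls h) {c : ℝ} (hc0 : 0 < c) (u : ℝ) :
    volume {v : ℝ | ∃ z ∈ Metric.ball (0 : ℂ) 1, (c : ℂ) * h z = pt u v} ≤
      ENNReal.ofReal (2 * π * c) := by
  have h1 : {v : ℝ | ∃ z ∈ Metric.ball (0 : ℂ) 1, (c : ℂ) * h z = pt u v} ⊆
      (fun v : ℝ => c⁻¹ * v) ⁻¹' {v : ℝ | ∃ z ∈ Metric.ball (0 : ℂ) 1, h z = pt (c⁻¹ * u) v} := by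
    rintro v ⟨z, hz, hzv⟩
    refine ⟨z, hz, ?_⟩
    have hre : c * (h z).re = u := by
      have := congrArg Complex.re hzv
      simpa using this
    have him : c * (h z).im = v := by
      have := congrArg Complex.im hzv
      simpa using this
    apply Complex.ext
    · rw [pt_re, ← hre]
      field_simp
    · rw [pt_im, ← him]
      field_simp
  refine (measure_mono h1).trans ?_
  rw [Real.volume_preimage_mul_left (inv_ne_zero hc0.ne'), inv_inv, abs_of_pos hc0]
  refine (mul_le_mul_right (hh.sec _) _).trans ?_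
  rw [← ENNReal.ofReal_mul hc0.le]
  apply ENNReal.ofReal_le_ofReal
  linarith

private theorem appi_c {h : ℂ → ℂ} (hh : HCls h) (hne : ∃ z ∈ Metric.ball (0 : ℂ) 1, h z ≠ 0)
    {r : ℝ} (hr0 : 0 < r) (hr1 : r < 1) (u : ℝ) {c : ℝ} (hc0 : 0 < c) (hc1 : c < 1) :
    ∫ θ in (0 : ℝ)..(2 * π), |c * (h (circleMap 0 r θ)).re - u| ≤
      2 * π * |u| + 2 * S0 (pt u π) := by
  have hH : DifferentiableOn ℂ (fun z => (c : ℂ) * h z) (Metric.ball 0 1) := hh.diff.const_mul _
  have hH0 : (fun z => (c : ℂ) * h z) 0 = 0 := by simp [hh.zero]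
  have hHne : ∃ z ∈ Metric.ball (0 : ℂ) 1, (fun z => (c : ℂ) * h z) z ≠ 0 := by
    obtain ⟨z, hz, hz0⟩ := hne
    exact ⟨z, hz, mul_ne_zero (by exact_mod_cast hc0.ne') hz0⟩
  obtain ⟨M, hM⟩ := potData_circ hH hH0 hHne hr0 hr1
  have hπ := Real.pi_pos
  have hl0 : 0 ≤ 2 * π * c := by positivity
  have hl : 2 * π * c < 2 * π := by nlinarith
  have hsec : ∀ u' : ℝ, volume {v : ℝ | 0 < circN (fun z => (c : ℂ) * h z) r (pt u' v)} ≤
      ENNReal.ofReal (2 * π * c) := by
    intro u'
    refine (measure_mono ?_).trans (appi_sec hh hc0 u')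
    intro v hv
    exact circN_pos hH hH0 hr0 hr1 hv
  have h1 := star_ineq_top hM hl0 hl hsec u
  rw [circMeas_integral hH hr0 hr1 (f := fun a => |a.re - u|) (by fun_prop)] at h1
  have h2 : ∀ θ : ℝ, |((c : ℂ) * h (circleMap 0 r θ)).re - u| =
      |c * (h (circleMap 0 r θ)).re - u| := by
    intro θ
    rw [Complex.re_ofReal_mul]
  simp only [h2] at h1
  set J := ∫ θ in (0 : ℝ)..(2 * π), |c * (h (circleMap 0 r θ)).re - u| with hJ
  have h3 : π * ((2 * π)⁻¹ * J - |u|) = J / 2 - π * |u| := by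
    field_simp
  rw [h3] at h1
  linarith

theorem app_ineq {h : ℂ → ℂ} (hh : HCls h) {r : ℝ} (hr0 : 0 < r) (hr1 : r < 1) (u : ℝ) :
    ∫ θ in (-π)..π, |(h (circleMap 0 r θ)).re - u| ≤ 2 * π * |u| + 2 * S0 (pt u π) := by
  have hπ := Real.pi_pos
  by_cases hne : ∃ z ∈ Metric.ball (0 : ℂ) 1, h z ≠ 0
  · have hcont : Continuous (fun θ : ℝ => (h (circleMap 0 r θ)).re) := by
      refine Complex.continuous_re.comp ?_
      exact hh.diff.continuousOn.comp_continuous (continuous_circleMap 0 r) (appi_mem hr0 hr1)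
    have hper : Function.Periodic (fun θ : ℝ => |(h (circleMap 0 r θ)).re - u|) (2 * π) := by
      intro θ
      simp only
      rw [periodic_circleMap 0 r θ]
    have hshift : ∫ θ in (-π)..π, |(h (circleMap 0 r θ)).re - u| =
        ∫ θ in (0 : ℝ)..(2 * π), |(h (circleMap 0 r θ)).re - u| := by
      have := hper.intervalIntegral_add_eq (-π) 0
      rw [zero_add] at this
      rw [← this]
      congr 1
      ring
    rw [hshift]
    obtain ⟨B, hB⟩ := (isCompact_closedBall (0 : ℂ) r).exists_bound_of_continuousOn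
      (hh.diff.continuousOn.mono (Metric.closedBall_subset_ball hr1))
    have hB' : ∀ θ : ℝ, |(h (circleMap 0 r θ)).re| ≤ B := fun θ =>
      (Complex.abs_re_le_norm _).trans (hB _ (circleMap_mem_closedBall 0 hr0.le θ))
    have hB0 : 0 ≤ B := (abs_nonneg _).trans (hB' 0)
    refine le_of_forall_pos_le_add fun ε hε => ?_
    set η := min (1 / 2) (ε / (2 * π * B + 1)) with hη
    have hη0 : 0 < η := lt_min (by norm_num) (by positivity)
    have hη1 : η ≤ 1 / 2 := min_le_left _ _
    have hη2 : η * (2 * π * B) ≤ ε := by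
      have h5 : η ≤ ε / (2 * π * B + 1) := min_le_right _ _
      rw [le_div_iff₀ (by positivity)] at h5
      nlinarith
    have h1 := appi_c hh hne hr0 hr1 u (c := 1 - η) (by linarith) (by linarith)
    have h2 : ∫ θ in (0 : ℝ)..(2 * π), |(h (circleMap 0 r θ)).re - u| ≤
        ∫ θ in (0 : ℝ)..(2 * π), (|(1 - η) * (h (circleMap 0 r θ)).re - u| + η * B) := by
      refine intervalIntegral.integral_mono_on (by positivity)
        (Continuous.intervalIntegrable (by fun_prop) _ _)
        (Continuous.intervalIntegrable (by fun_prop) _ _) fun θ _ => ?_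
      have h3 : (h (circleMap 0 r θ)).re - u =
          ((1 - η) * (h (circleMap 0 r θ)).re - u) + η * (h (circleMap 0 r θ)).re := by ring
      rw [h3]
      refine (abs_add_le _ _).trans ?_
      rw [abs_mul, abs_of_pos hη0]
      linarith [mul_le_mul_of_nonneg_left (hB' θ) hη0.le]
    rw [intervalIntegral.integral_add (Continuous.intervalIntegrable (by fun_prop) _ _)
      (Continuous.intervalIntegrable (by fun_prop) _ _), intervalIntegral.integral_const,
      sub_zero, smul_eq_mul] at h2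
    have h4 : 2 * π * (η * B) = η * (2 * π * B) := by ring
    linarith
  · push Not at hne
    have h1 : ∀ θ : ℝ, |(h (circleMap 0 r θ)).re - u| = |u| := by
      intro θ
      rw [hne _ (appi_mem hr0 hr1 θ)]
      simp
    simp only [h1]
    rw [intervalIntegral.integral_const, smul_eq_mul]
    have h2 := S0_nonneg (w := pt u π) (by simpa using hπ.le) (by simp)
    linarith

end MP4a1962
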