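import Pool.Agent.Lib.MP_4a1962_an.Defs

/-!
# StarBasic: elementary properties of the star function `starB g m = ∫_0^∞ min (|{g > t}|) m dt`

Throughout `g` is measurable, nonnegative, integrable on the real line, `m ≥ 0`.

Tools: `MeasureTheory.Integrable.integral_eq_integral_meas_lt` (layer cake) gives
`∫ g = ∫ t in Ioi 0, volume.real {v | t < g v}`; integrability of `t ↦ volume.real {v | t < g v}` on
`Ioi 0` from `lintegral_eq_lintegral_meas_lt` (the function is antitone, hence measurable).
For `t > 0`, `volume {v | t < g v} < ∞` (Markov, `Integrable.measure_gt_lt_top` or similar).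
* `starB_integrableOn`: dominated by `volume.real {t < g}`.
* `starB_mono`: pointwise.
* `starB_eq_integral`: if `volume {0 < g} ≤ m` then the minimum is `volume.real {t < g}` for `t > 0`.
* `starB_continuousOn`: `continuousOn_of_dominated` (bound `volume.real {t < g}`), or the sequential
  form; for `m, m' ≥ 0` one has `|min a m - min a m'| ≤ |m - m'|`.
-/

set_option autoImplicit false

open MeasureTheory Set Filter Topology
open scoped Real ENNReal NNReal

namespace MP4a1962

variable {g : ℝ → ℝ}

theorem meas_gt_lt_top (h0 : ∀ v, 0 ≤ g v) (hi : Integrable g) {t : ℝ} (ht : 0 < t) :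
    volume {v : ℝ | t < g v} < ∞ :=
  hi.measure_gt_lt_top ht

/-- the distribution function is integrable on `(0, ∞)` -/
theorem distr_integrableOn (hg : Measurable g) (h0 : ∀ v, 0 ≤ g v) (hi : Integrable g) :
    IntegrableOn (fun t : ℝ => volume.real {v : ℝ | t < g v}) (Ioi (0 : ℝ)) := by
  have hanti : Antitone fun t : ℝ => volume {v : ℝ | t < g v} := fun a b hab =>
    measure_mono fun v (hv : b < g v) => hab.trans_lt hv
  refine integrable_toReal_of_lintegral_ne_top hanti.measurable.aemeasurable ?_
  rw [← lintegral_eq_lintegral_meas_lt volume (Eventually.of_forall h0) hg.aemeasurable]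
  exact ((hasFiniteIntegral_iff_ofReal (Eventually.of_forall h0)).1 hi.2).ne

theorem starB_integrableOn (hg : Measurable g) (h0 : ∀ v, 0 ≤ g v) (hi : Integrable g)
    {m : ℝ} (hm : 0 ≤ m) :
    IntegrableOn (fun t : ℝ => min (volume.real {v : ℝ | t < g v}) m) (Ioi (0 : ℝ)) := by
  have h1 := distr_integrableOn hg h0 hi
  refine Integrable.mono h1 (h1.1.inf aestronglyMeasurable_const) (Eventually.of_forall fun t => ?_)
  rw [Real.norm_of_nonneg (le_min measureReal_nonneg hm), Real.norm_of_nonneg measureReal_nonneg]
  exact min_le_left _ _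

theorem starB_zero (g : ℝ → ℝ) : starB g 0 = 0 := by
  unfold starB
  refine setIntegral_eq_zero_of_forall_eq_zero fun t _ => ?_
  exact min_eq_right measureReal_nonneg

theorem starB_fun_zero {m : ℝ} (hm : 0 ≤ m) : starB (fun _ => (0 : ℝ)) m = 0 := by
  unfold starB
  refine setIntegral_eq_zero_of_forall_eq_zero fun t ht => ?_
  have h1 : {v : ℝ | t < (0 : ℝ)} = ∅ := by
    ext v
    simp only [mem_ofPred_eq, mem_empty_iff_false, iff_false, not_lt]
    exact (mem_Ioi.1 ht).le
  rw [h1, measureReal_empty]
  exact min_eq_left hm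

theorem starB_nonneg (g : ℝ → ℝ) {m : ℝ} (hm : 0 ≤ m) : 0 ≤ starB g m := by
  unfold starB
  exact setIntegral_nonneg measurableSet_Ioi fun t _ => le_min measureReal_nonneg hm

theorem starB_mono (hg : Measurable g) (h0 : ∀ v, 0 ≤ g v) (hi : Integrable g)
    {m m' : ℝ} (hm : 0 ≤ m) (hmm : m ≤ m') : starB g m ≤ starB g m' := by
  unfold starB
  exact setIntegral_mono_on (starB_integrableOn hg h0 hi hm)
    (starB_integrableOn hg h0 hi (hm.trans hmm)) measurableSet_Ioi
    fun t _ => min_le_min_left _ hmm

theorem starB_eq_integral (hg : Measurable g) (h0 : ∀ v, 0 ≤ g v) (hi : Integrable g)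
    {m : ℝ} (hm : 0 ≤ m) (hv : volume {v : ℝ | 0 < g v} ≤ ENNReal.ofReal m) :
    starB g m = ∫ v, g v := by
  rw [hi.integral_eq_integral_meas_lt (Eventually.of_forall h0)]
  unfold starB
  refine setIntegral_congr_fun measurableSet_Ioi fun t ht => ?_
  have ht0 : (0 : ℝ) < t := ht
  refine min_eq_left ?_
  have h1 : volume {v : ℝ | t < g v} ≤ ENNReal.ofReal m :=
    (measure_mono fun v (hv' : t < g v) => ht0.trans hv').trans hv
  exact (ENNReal.toReal_mono ENNReal.ofReal_ne_top h1).trans_eq (ENNReal.toReal_ofReal hm)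

theorem starB_continuousOn (hg : Measurable g) (h0 : ∀ v, 0 ≤ g v) (hi : Integrable g) :
    ContinuousOn (starB g) (Ici (0 : ℝ)) := by
  unfold starB
  refine continuousOn_of_dominated (bound := fun t => volume.real {v : ℝ | t < g v})
    (fun m hm => (starB_integrableOn hg h0 hi hm).1) (fun m hm => Eventually.of_forall fun t => ?_)
    (distr_integrableOn hg h0 hi) (Eventually.of_forall fun t => ?_)
  · have hm' : (0 : ℝ) ≤ m := hm
    rw [Real.norm_of_nonneg (le_min measureReal_nonneg hm')]
    exact min_le_left _ _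
  · exact (continuous_const.min continuous_id).continuousOn

end MP4a1962
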