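import Pool.Agent.Lib.MP_4a1962_an.Defs
import Pool.Agent.Lib.MP_4a1962_an.StarBasic

/-!
# Bathtub: an optimal profile exists

Proof. Let `G t = volume.real {t < g}` (finite for `t > 0`, antitone, right continuous) and suppose
first that `G t ≤ m` for all `t > 0`. Take `k = indicator {0 < g} 1` : mass `≤ m` because
`{0 < g}` is the increasing union of `{1/n < g}`; `k g = g`; and `starB g m = ∫ t in Ioi 0, G t = ∫ g`
by layer cake (`Integrable.integral_eq_integral_meas_lt`).
Otherwise let `T = {t > 0 | G t ≤ m}`; it is nonempty (as `G → 0` by integrability, or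
`t G t ≤ ∫ g`; if `m = 0` use `k = 0` separately, `starB g 0 = 0`), let `τ = sInf T > 0`.
Then `G τ ≤ m` (right continuity: `{τ < g} = ⋃ {τ + 1/n < g}`), and `m < G t` for `0 < t < τ`, so
`m ≤ volume.real {τ ≤ g}` (continuity from above, finite measures). Let `e = volume.real {g = τ}`,
so `G τ ≤ m ≤ G τ + e`. Let `c = (m - G τ)/e` if `e > 0`, `c = 0` otherwise; `0 ≤ c ≤ 1`,
`G τ + c e = m`. Put `k = indicator {τ < g} 1 + c • indicator {g = τ} 1`. Mass `= m`.
`∫ k g = ∫ t in Ioi 0, (∫ v in {t < g}, k v)` (Tonelli, as in StarLe), and the inner integral is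
`G t = min (G t) m` for `t ≥ τ`, and `m = min (G t) m` for `0 < t < τ` (then `{τ ≤ g} ⊆ {t < g}`).
Alternatively: `∫ k g = ∫ (g - τ)^+ + τ m` and `starB g m = ∫_0^τ m + ∫_τ^∞ G = τ m + ∫ (g - τ)^+`
(layer cake for `(g - τ)^+`). This second form avoids Tonelli.
-/

set_option autoImplicit false

open MeasureTheory Set Filter Topology
open scoped Real ENNReal NNReal

namespace MP4a1962

variable {g : ℝ → ℝ}

/-- the case of a positive threshold -/
private theorem bt_pos (hg : Measurable g) (h0 : ∀ v, 0 ≤ g v) (hi : Integrable g)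
    {m τ : ℝ} (hm : 0 ≤ m) (hτ : 0 < τ)
    (h1 : volume {v | τ < g v} ≤ ENNReal.ofReal m)
    (h2 : ∀ t, 0 < t → t < τ → ENNReal.ofReal m < volume {v | t < g v}) :
    ∃ k : ℝ → ℝ, Prof k m ∧ ∫ v, k v * g v = starB g m := by
  have hfin : ∀ t : ℝ, 0 < t → volume {v | t < g v} ≠ ∞ := fun t ht =>
    (meas_gt_lt_top h0 hi ht).ne
  -- the measure of `{τ ≤ g}`
  have h3 : ENNReal.ofReal m ≤ volume {v | τ ≤ g v} := by
    have e1 : {v | τ ≤ g v} = ⋂ n : ℕ, {v | τ - τ / (n + 2) < g v} := by
      ext v
      simp only [mem_ofPred_eq, mem_iInter]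
      constructor
      · intro hv n
        have : 0 < τ / ((n : ℝ) + 2) := by positivity
        linarith
      · intro hv
        have hlim : Tendsto (fun n : ℕ => τ - τ / ((n : ℝ) + 2)) atTop (𝓝 (τ - 0)) := by
          refine tendsto_const_nhds.sub ?_
          refine Tendsto.div_atTop tendsto_const_nhds ?_
          exact tendsto_atTop_add_const_right _ _ tendsto_natCast_atTop_atTop
        rw [sub_zero] at hlim
        exact le_of_tendsto' hlim fun n => (hv n).le
    have e2 : Antitone fun n : ℕ => {v | τ - τ / ((n : ℝ) + 2) < g v} := by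
      intro a b hab v hv
      simp only [mem_ofPred_eq] at hv ⊢
      have : τ / ((b : ℝ) + 2) ≤ τ / ((a : ℝ) + 2) := by
        have hab' : (a : ℝ) ≤ b := by exact_mod_cast hab
        gcongr
      linarith
    have hpos : ∀ n : ℕ, 0 < τ - τ / ((n : ℝ) + 2) := by
      intro n
      have : τ / ((n : ℝ) + 2) < τ := by
        rw [div_lt_iff₀ (by positivity)]
        nlinarith [(Nat.cast_nonneg n : (0 : ℝ) ≤ n)]
      linarith
    rw [e1, e2.measure_iInter (fun n => (measurableSet_lt measurable_const hg).nullMeasurableSet)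
      ⟨0, hfin _ (hpos 0)⟩]
    refine le_iInf fun n => (h2 _ (hpos n) ?_).le
    have : 0 < τ / ((n : ℝ) + 2) := by positivity
    linarith
  set a : ℝ := volume.real {v | τ < g v} with ha
  set e : ℝ := volume.real {v | g v = τ} with he
  have hm1 : MeasurableSet {v | τ < g v} := measurableSet_lt measurable_const hg
  have hm2 : MeasurableSet {v | g v = τ} := hg (measurableSet_singleton τ)
  have hf1 : volume {v | τ < g v} ≠ ∞ := hfin τ hτ
  have hf3 : volume {v | τ ≤ g v} ≠ ∞ := by
    refine ((measure_mono ?_).trans_lt (meas_gt_lt_top h0 hi (half_pos hτ))).ne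
    intro v hv
    simp only [mem_ofPred_eq] at hv ⊢
    linarith
  have hf2 : volume {v | g v = τ} ≠ ∞ := by
    refine ((measure_mono ?_).trans_lt (lt_top_iff_ne_top.2 hf3)).ne
    intro v hv
    simp only [mem_ofPred_eq] at hv ⊢
    linarith
  have ham : a ≤ m := ENNReal.toReal_le_of_le_ofReal hm h1
  have hme : m ≤ a + e := by
    have e1 : {v | τ ≤ g v} = {v | τ < g v} ∪ {v | g v = τ} := by
      ext v
      simp only [mem_ofPred_eq, mem_union]
      constructor
      · intro h
        rcases h.lt_or_eq with h | h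
        · exact Or.inl h
        · exact Or.inr h.symm
      · rintro (h | h)
        · exact h.le
        · exact h.ge
    have e2 : volume.real {v | τ ≤ g v} = a + e := by
      rw [e1, measureReal_union _ hm2 hf1 hf2]
      rw [Set.disjoint_left]
      intro v hv hv'
      simp only [mem_ofPred_eq] at hv hv'
      linarith
    rw [← e2]
    exact (ENNReal.ofReal_le_iff_le_toReal hf3).1 h3
  have he0 : 0 ≤ e := measureReal_nonneg
  obtain ⟨c, hc0, hc1, hc⟩ : ∃ c : ℝ, 0 ≤ c ∧ c ≤ 1 ∧ a + c * e = m := by
    rcases he0.eq_or_lt with h | h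
    · exact ⟨0, le_rfl, zero_le_one, by linarith⟩
    · refine ⟨(m - a) / e, div_nonneg (by linarith) he0, ?_, ?_⟩
      · rw [div_le_one h]
        linarith
      · rw [div_mul_cancel₀ _ h.ne']
        ring
  set k : ℝ → ℝ := fun v => {v | τ < g v}.indicator (fun _ => (1 : ℝ)) v +
    {v | g v = τ}.indicator (fun _ => c) v with hk
  have hk1 : ∀ v, τ < g v → k v = 1 := by
    intro v hv
    have n1 : v ∈ {v | τ < g v} := hv
    have n2 : v ∉ {v | g v = τ} := fun h => by
      simp only [mem_ofPred_eq] at h
      linarith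
    simp only [hk]
    rw [indicator_of_mem n1, indicator_of_notMem n2, add_zero]
  have hk2 : ∀ v, g v = τ → k v = c := by
    intro v hv
    have n1 : v ∉ {v | τ < g v} := fun h => by
      simp only [mem_ofPred_eq] at h
      linarith
    have n2 : v ∈ {v | g v = τ} := hv
    simp only [hk]
    rw [indicator_of_notMem n1, indicator_of_mem n2, zero_add]
  have hk3 : ∀ v, g v < τ → k v = 0 := by
    intro v hv
    have n1 : v ∉ {v | τ < g v} := fun h => by
      simp only [mem_ofPred_eq] at h
      linarith
    have n2 : v ∉ {v | g v = τ} := fun h => by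
      simp only [mem_ofPred_eq] at h
      linarith
    simp only [hk]
    rw [indicator_of_notMem n1, indicator_of_notMem n2, zero_add]
  have i1 : Integrable ({v | τ < g v}.indicator (fun _ => (1 : ℝ))) :=
    (integrable_indicator_iff hm1).2 (integrableOn_const hf1)
  have i2 : Integrable ({v | g v = τ}.indicator (fun _ => c)) :=
    (integrable_indicator_iff hm2).2 (integrableOn_const hf2)
  have hki : Integrable k := i1.add i2
  have hkm : ∫ v, k v = m := by
    rw [hk, integral_add i1 i2, integral_indicator_const _ hm1, integral_indicator_const _ hm2,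
      ← hc]
    simp [ha, he]
    ring
  have hprof : Prof k m := by
    refine ⟨?_, ?_, ?_, hki, hkm.le⟩
    · exact (measurable_const.indicator hm1).add (measurable_const.indicator hm2)
    · intro v
      rcases lt_trichotomy (g v) τ with h | h | h
      · rw [hk3 v h]
      · rw [hk2 v h]; exact hc0
      · rw [hk1 v h]; exact zero_le_one
    · intro v
      rcases lt_trichotomy (g v) τ with h | h | h
      · rw [hk3 v h]; exact zero_le_one
      · rw [hk2 v h]; exact hc1
      · rw [hk1 v h]
  refine ⟨k, hprof, ?_⟩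
  set q : ℝ → ℝ := fun v => max (g v - τ) 0 with hq
  have hqm : Measurable q := (hg.sub measurable_const).max measurable_const
  have hqi : Integrable q := by
    refine hi.mono' hqm.aestronglyMeasurable (Eventually.of_forall fun v => ?_)
    rw [Real.norm_eq_abs, abs_of_nonneg (le_max_right _ _)]
    exact max_le (by linarith) (h0 v)
  have e1 : ∀ v, k v * g v = q v + τ * k v := by
    intro v
    simp only [hq]
    rcases lt_trichotomy (g v) τ with h | h | h
    · rw [hk3 v h, max_eq_right (by linarith)]
      ring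
    · rw [hk2 v h, h, sub_self, max_self]
      ring
    · rw [hk1 v h, max_eq_left (by linarith)]
      ring
  have e2 : ∫ v, k v * g v = (∫ v, q v) + τ * m := by
    simp_rw [e1]
    rw [integral_add hqi (hki.const_mul τ), integral_const_mul, hkm]
  -- the star function
  have j0 := starB_integrableOn hg h0 hi hm
  have e3 : starB g m = (∫ t in Ioc 0 τ, min (volume.real {v : ℝ | t < g v}) m) +
      ∫ t in Ioi τ, min (volume.real {v : ℝ | t < g v}) m := by
    unfold starB
    rw [← Ioc_union_Ioi_eq_Ioi hτ.le,
      setIntegral_union (Ioc_disjoint_Ioi le_rfl) measurableSet_Ioi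
        (j0.mono_set Ioc_subset_Ioi_self) (j0.mono_set (Ioi_subset_Ioi hτ.le))]
  have e4 : (∫ t in Ioc 0 τ, min (volume.real {v : ℝ | t < g v}) m) = τ * m := by
    rw [integral_Ioc_eq_integral_Ioo]
    have : ∀ t ∈ Ioo 0 τ, min (volume.real {v : ℝ | t < g v}) m = m := by
      intro t ht
      refine min_eq_right ?_
      exact (ENNReal.ofReal_le_iff_le_toReal (hfin t ht.1)).1 (h2 t ht.1 ht.2).le
    rw [setIntegral_congr_fun measurableSet_Ioo this, setIntegral_const, Real.volume_real_Ioo_of_le hτ.le]
    simp
  have e5 : (∫ t in Ioi τ, min (volume.real {v : ℝ | t < g v}) m) =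
      ∫ t in Ioi τ, volume.real {v : ℝ | t < g v} := by
    refine setIntegral_congr_fun measurableSet_Ioi fun t ht => ?_
    refine min_eq_left ?_
    refine ENNReal.toReal_le_of_le_ofReal hm ((measure_mono ?_).trans h1)
    intro v hv
    simp only [mem_ofPred_eq, mem_Ioi] at hv ht ⊢
    linarith
  have e6 : ∫ t in Ioi τ, volume.real {v : ℝ | t < g v} =
      ∫ t in Ioi (0 : ℝ), volume.real {v : ℝ | t + τ < g v} := by
    have := (measurePreserving_add_right volume τ).setIntegral_preimage_emb
      (measurableEmbedding_addRight τ) (fun t => volume.real {v : ℝ | t < g v}) (Ioi τ)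
    rw [← this]
    congr 2
    ext t
    simp
  have e7 : ∫ v, q v = ∫ t in Ioi (0 : ℝ), volume.real {v : ℝ | t + τ < g v} := by
    rw [hqi.integral_eq_integral_meas_lt (Eventually.of_forall fun v => le_max_right _ _)]
    refine setIntegral_congr_fun measurableSet_Ioi fun t ht => ?_
    have ht0 : 0 < t := ht
    have : {v | t < q v} = {v : ℝ | t + τ < g v} := by
      ext v
      simp only [hq, mem_ofPred_eq, lt_max_iff]
      constructor
      · rintro (h | h)
        · linarith
        · linarith
      · intro h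
        left
        linarith
    simp only [this]
  rw [e2, e3, e4, e5, e6, ← e7]
  ring

theorem exists_prof (hg : Measurable g) (h0 : ∀ v, 0 ≤ g v) (hi : Integrable g)
    {m : ℝ} (hm : 0 ≤ m) :
    ∃ k : ℝ → ℝ, Prof k m ∧ ∫ v, k v * g v = starB g m := by
  rcases hm.eq_or_lt with rfl | hm0
  · exact ⟨fun _ => 0, ⟨measurable_const, fun _ => le_rfl, fun _ => zero_le_one,
      integrable_zero _ _ _, by simp⟩, by simp [starB_zero]⟩
  set T : Set ℝ := {t | 0 ≤ t ∧ volume {v | t < g v} ≤ ENNReal.ofReal m} with hT
  have hTne : T.Nonempty := by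
    have hI : 0 ≤ ∫ v, g v := integral_nonneg h0
    set t : ℝ := (∫ v, g v) / m + 1 with ht
    have ht0 : 0 < t := by positivity
    refine ⟨t, ht0.le, ?_⟩
    have h1 := mul_meas_ge_le_integral_of_nonneg (Eventually.of_forall h0) hi t
    have h2 : volume.real {v | t < g v} ≤ volume.real {v | t ≤ g v} := by
      refine measureReal_mono (fun v (hv : t < g v) => (le_of_lt hv : t ≤ g v)) ?_
      refine ((measure_mono ?_).trans_lt (meas_gt_lt_top h0 hi (half_pos ht0))).ne
      intro v hv
      simp only [mem_ofPred_eq] at hv ⊢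
      linarith
    have h3 : t * volume.real {v | t < g v} ≤ t * m := by
      refine (mul_le_mul_of_nonneg_left h2 ht0.le).trans (h1.trans ?_)
      rw [ht, add_mul, div_mul_cancel₀ _ hm0.ne']
      linarith
    have h4 : volume.real {v | t < g v} ≤ m := le_of_mul_le_mul_left h3 ht0
    rw [← ofReal_measureReal (meas_gt_lt_top h0 hi ht0).ne]
    exact ENNReal.ofReal_le_ofReal h4
  have hTb : BddBelow T := ⟨0, fun t ht => ht.1⟩
  set τ := sInf T with hτ
  have hτ0 : 0 ≤ τ := le_csInf hTne fun t ht => ht.1
  have h1 : volume {v | τ < g v} ≤ ENNReal.ofReal m := by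
    have e1 : {v | τ < g v} = ⋃ n : ℕ, {v | τ + 1 / ((n : ℝ) + 1) < g v} := by
      ext v
      simp only [mem_ofPred_eq, mem_iUnion]
      constructor
      · intro hv
        obtain ⟨n, hn⟩ := exists_nat_one_div_lt (sub_pos.2 hv)
        exact ⟨n, by linarith⟩
      · rintro ⟨n, hn⟩
        have : 0 < 1 / ((n : ℝ) + 1) := by positivity
        linarith
    have e2 : Monotone fun n : ℕ => {v | τ + 1 / ((n : ℝ) + 1) < g v} := by
      intro a b hab v hv
      simp only [mem_ofPred_eq] at hv ⊢
      have : 1 / ((b : ℝ) + 1) ≤ 1 / ((a : ℝ) + 1) := by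
        have hab' : (a : ℝ) ≤ b := by exact_mod_cast hab
        gcongr
      linarith
    rw [e1, e2.measure_iUnion]
    refine iSup_le fun n => ?_
    have : sInf T < τ + 1 / ((n : ℝ) + 1) := by
      have : 0 < 1 / ((n : ℝ) + 1) := by positivity
      linarith
    obtain ⟨t', ht', hlt⟩ := exists_lt_of_csInf_lt hTne this
    refine (measure_mono ?_).trans ht'.2
    intro v hv
    simp only [mem_ofPred_eq] at hv ⊢
    linarith
  rcases hτ0.eq_or_lt with h | h
  · -- threshold zero
    rw [← h] at h1
    have hm1 : MeasurableSet {v | 0 < g v} := measurableSet_lt measurable_const hg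
    have hf1 : volume {v | 0 < g v} ≠ ∞ := (h1.trans_lt ENNReal.ofReal_lt_top).ne
    refine ⟨{v | 0 < g v}.indicator (fun _ => (1 : ℝ)), ⟨measurable_const.indicator hm1, ?_, ?_,
      (integrable_indicator_iff hm1).2 (integrableOn_const hf1), ?_⟩, ?_⟩
    · intro v
      exact indicator_nonneg (fun _ _ => zero_le_one) v
    · intro v
      by_cases hv : v ∈ {v | 0 < g v}
      · rw [indicator_of_mem hv]
      · rw [indicator_of_notMem hv]
        exact zero_le_one
    · rw [integral_indicator_const _ hm1]
      simp only [smul_eq_mul, mul_one]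
      exact ENNReal.toReal_le_of_le_ofReal hm h1
    · rw [starB_eq_integral hg h0 hi hm h1]
      refine integral_congr_ae (Eventually.of_forall fun v => ?_)
      by_cases hv : v ∈ {v | 0 < g v}
      · simp only [indicator_of_mem hv, one_mul]
      · simp only [indicator_of_notMem hv, zero_mul]
        simp only [mem_ofPred_eq, not_lt] at hv
        exact le_antisymm (h0 v) hv
  · refine bt_pos hg h0 hi hm h h1 fun t ht htτ => ?_
    by_contra hcon
    push Not at hcon
    have : t ∈ T := ⟨ht.le, hcon⟩
    exact absurd (csInf_le hTb this) (not_le.2 htτ)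

end MP4a1962
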