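import Pool.Agent.Lib.MP_4a1962_an.Defs

/-!
# CDefs: definitions for the Moebius shifted base point and the extremal function

* `h0f z = 2 log ((1+z)/(1-z))`, extremal map.
* `shiftf h a ζ = h ((ζ + a)/(1 + conj a ζ)) - h a`.
-/

set_option autoImplicit false

open MeasureTheory Set Filter Topology
open scoped Real ENNReal NNReal

namespace MP4a1962

/-- extremal map of the disc onto the strip `|Im| < π` -/
noncomputable def h0f (z : ℂ) : ℂ := 2 * Complex.log ((1 + z) / (1 - z))

/-- change of the base point -/
noncomputable def shiftf (h : ℂ → ℂ) (a : ℂ) (ζ : ℂ) : ℂ :=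
  h ((ζ + a) / (1 + (starRingEnd ℂ) a * ζ)) - h a

end MP4a1962
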