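import Pool.Agent.Lib.MP_4a1962_an.CDefs

/-!
# CDefs2: definitions for the saddle point part

`r` is the radius (saddle point), `n = 4 p (kap r)`.
-/

set_option autoImplicit false

open MeasureTheory Set Filter Topology
open scoped Real ENNReal NNReal

namespace MP4a1962

noncomputable section

/-- `κ = r / (1 - r²)` -/
def kap (r : ℝ) : ℝ := r / (1 - r ^ 2)

/-- `X = 2 κ |sin (θ/2)|` -/
def Xr (r θ : ℝ) : ℝ := 2 * kap r * |Real.sin (θ / 2)|

/-- `β = (1+r)² / r` -/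
def bet (r : ℝ) : ℝ := (1 + r) ^ 2 / r

/-- maximum of `Re h0f` on the circle of radius `r` -/
def Mr (r : ℝ) : ℝ := 2 * Real.log ((1 + r) / (1 - r))

/-- the point of the circle in the coordinate of the base point `r` -/
def ztr (r θ : ℝ) : ℂ := (circleMap 0 r θ - r) / (1 - r * circleMap 0 r θ)

/-- normalised extremal integrand `exp (p (h0f z - Mr)) e^{-inθ}`, `z = r e^{iθ}` -/
def G0 (p r : ℝ) (n : ℕ) (θ : ℝ) : ℂ :=
  Complex.exp (p * (h0f (circleMap 0 r θ) - Mr r) - n * θ * Complex.I)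

/-- the normalisation `∫ G0 = 2 π C_n r^n e^{-p Mr}` -/
def Z0 (p r : ℝ) (n : ℕ) : ℝ := (∫ θ in (-π)..π, G0 p r n θ).re

/-- coefficients of the difference at the base point -/
structure ESeq (e : ℕ → ℂ) (ε : ℝ) : Prop where
  e0 : e 0 = 0
  e1 : e 1 = (ε : ℂ)
  nn : 0 ≤ ε
  re : ∀ k, 1 ≤ k → |(e k).re| ≤ (k : ℝ) ^ 2 * ε
  im : ∀ k, 1 ≤ k → |(e k).im| ≤ 17 / 5 * k * √ε

/-- the difference `E = Σ e_k ζ^k` on the circle -/
def Ek (e : ℕ → ℂ) (r θ : ℝ) : ℂ := ∑' k : ℕ, e k * ztr r θ ^ k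

end

end MP4a1962
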