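import Pool.Agent.Lib.MP_4a1962_an.CTf

/-!
# CX: elementary facts on `kap`, `Xr`, `Tf`

* `Xr_le`: `|sin x| ≤ |x|`.
* `Xr_ge`: `|sin x| ≥ (2/π)|x|` for `|x| ≤ π/2` (`Real.mul_le_sin`).
* `Xr_mono`: `sin` is monotone on `[0, π/2]`.
* `kap_ge`: `kap` is increasing on `(0,1)` and `kap (1/33) = 33/1088 < 1/32`.
* `exists_kap`: `r = (√(1+4κ²) - 1)/(2κ)`, or the intermediate value theorem.
* `exists_Tf`: intermediate value theorem on `[0, π]`, `Tf r 0 = 1`, `Tf r π = 1 + 4κ²`. If `4 T₁ < 1 + 4κ²`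
  then `sin (θ₁/2)² = (T₁-1)/(4κ²) < 1/4`, so `θ₁ < π/3`.
* `Tf_le`: `|sin| ≤ 1`.
-/

set_option autoImplicit false

open MeasureTheory Set Filter Topology
open scoped Real ENNReal NNReal

namespace MP4a1962

theorem Xr_le {r : ℝ} (hr0 : 0 < r) (hr1 : r < 1) (θ : ℝ) : Xr r θ ≤ kap r * |θ| := by
  have hk := kap_pos hr0 hr1
  have h1 : |Real.sin (θ / 2)| ≤ |θ / 2| := Real.abs_sin_le_abs
  rw [abs_div, abs_two] at h1
  unfold Xr
  nlinarith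

private theorem abs_sin_half {θ : ℝ} (hθ : |θ| ≤ π) : |Real.sin (θ / 2)| = Real.sin (|θ| / 2) := by
  rcases abs_cases θ with ⟨h, h'⟩ | ⟨h, h'⟩
  · rw [h] at hθ ⊢
    exact abs_of_nonneg (Real.sin_nonneg_of_nonneg_of_le_pi (by linarith) (by linarith))
  · rw [h] at hθ ⊢
    rw [neg_div, Real.sin_neg]
    exact abs_of_nonpos (Real.sin_nonpos_of_nonpos_of_neg_pi_le (by linarith) (by linarith))

theorem Xr_ge {r : ℝ} (hr0 : 0 < r) (hr1 : r < 1) {θ : ℝ} (hθ : |θ| ≤ π) :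
    2 / π * kap r * |θ| ≤ Xr r θ := by
  have hk := kap_pos hr0 hr1
  have h1 := Real.mul_le_sin (x := |θ| / 2) (by positivity) (by linarith)
  unfold Xr
  rw [abs_sin_half hθ]
  calc 2 / π * kap r * |θ| = 2 * kap r * (2 / π * (|θ| / 2)) := by ring
    _ ≤ 2 * kap r * Real.sin (|θ| / 2) := by gcongr

theorem Xr_mono {r : ℝ} (hr0 : 0 < r) (hr1 : r < 1) {θ θ' : ℝ} (h : |θ| ≤ |θ'|) (hθ' : |θ'| ≤ π) :
    Xr r θ ≤ Xr r θ' := by
  have hk := kap_pos hr0 hr1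
  unfold Xr
  rw [abs_sin_half hθ', abs_sin_half (h.trans hθ')]
  have h0 := abs_nonneg θ
  have := Real.sin_le_sin_of_le_of_le_pi_div_two (x := |θ| / 2) (y := |θ'| / 2)
    (by linarith [Real.pi_pos]) (by linarith) (by linarith)
  gcongr

theorem Tf_lt_imp {r : ℝ} (hr0 : 0 < r) (hr1 : r < 1) {θ θ' : ℝ} (h : Tf r θ < Tf r θ')
    (hθ : |θ| ≤ π) : |θ| < |θ'| := by
  by_contra hne
  push Not at hne
  have h1 := Xr_mono hr0 hr1 hne hθ
  have h2 := Xr_nonneg hr0 hr1 θ'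
  unfold Tf at h
  nlinarith

theorem Tf_le {r : ℝ} (hr0 : 0 < r) (hr1 : r < 1) (θ : ℝ) : Tf r θ ≤ 1 + 4 * kap r ^ 2 := by
  have hk := kap_pos hr0 hr1
  unfold Tf Xr
  rw [mul_pow, sq_abs]
  have := Real.sin_sq_le_one (θ / 2)
  nlinarith [mul_nonneg (sq_nonneg (kap r)) (sub_nonneg.mpr this)]

theorem kap_ge {r : ℝ} (hr0 : 0 < r) (hr1 : r < 1) (h : 1 / 32 ≤ kap r) : 1 / 33 ≤ r := by
  unfold kap at h
  have h2 : 0 < 1 - r ^ 2 := by nlinarith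
  rw [div_le_div_iff₀ (by norm_num) h2] at h
  by_contra hne
  push Not at hne
  nlinarith

theorem exists_kap {κ : ℝ} (hκ : 0 < κ) : ∃ r : ℝ, 0 < r ∧ r < 1 ∧ kap r = κ := by
  have hs : √(1 + 4 * κ ^ 2) ^ 2 = 1 + 4 * κ ^ 2 := Real.sq_sqrt (by positivity)
  have hs0 : 0 ≤ √(1 + 4 * κ ^ 2) := Real.sqrt_nonneg _
  set s := √(1 + 4 * κ ^ 2) with hsd
  have h1 : 1 < s := by nlinarith [sq_nonneg κ, mul_pos hκ hκ]
  have h2 : s < 1 + 2 * κ := by nlinarith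
  refine ⟨(s - 1) / (2 * κ), div_pos (by linarith) (by linarith), ?_, ?_⟩
  · rw [div_lt_one (by linarith)]
    linarith
  · have h3 : 1 - ((s - 1) / (2 * κ)) ^ 2 = (s - 1) / (2 * κ ^ 2) := by
      field_simp
      nlinarith
    unfold kap
    rw [h3]
    have : s - 1 ≠ 0 := by linarith
    field_simp

theorem exists_Tf {r : ℝ} (hr0 : 0 < r) (hr1 : r < 1) {T₁ : ℝ} (h1 : 1 < T₁)
    (h4 : 4 * T₁ < 1 + 4 * kap r ^ 2) : ∃ θ₁ : ℝ, 0 < θ₁ ∧ θ₁ ≤ π / 3 ∧ Tf r θ₁ = T₁ := by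
  have hk := kap_pos hr0 hr1
  have e3 : Tf r (π / 3) = 1 + kap r ^ 2 := by
    unfold Tf Xr
    have : π / 3 / 2 = π / 6 := by ring
    rw [this, Real.sin_pi_div_six, abs_of_pos (by norm_num : (0 : ℝ) < 1 / 2)]
    ring
  have e0 : Tf r 0 = 1 := by
    unfold Tf Xr
    simp
  have hmem : T₁ ∈ Icc (Tf r 0) (Tf r (π / 3)) := by
    rw [e0, e3]
    constructor
    · exact h1.le
    · linarith
  obtain ⟨θ, hθ, hT⟩ := intermediate_value_Icc (by positivity : (0 : ℝ) ≤ π / 3)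
    (continuous_Tf r).continuousOn hmem
  refine ⟨θ, ?_, hθ.2, hT⟩
  rcases hθ.1.eq_or_lt with h | h
  · rw [← h, e0] at hT
    linarith
  · exact h

end MP4a1962
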