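import Pool.Agent.Lib.MP_4a1962_an.EBound
import Pool.Agent.Lib.MP_4a1962_an.CX

/-!
# CDev: the mean deviation near the saddle point (odd cancellation)

`Re (h0f z - h z) = d + Re Ek e r θ` (`E_hasSum`), `Re (e_k ζ^k) = Re e_k Re ζ^k - Im e_k Im ζ^k`, and
`Im ζ(θ)^k` is odd in `θ` (`ztr_neg`), so the imaginary parts `Im e_k` do not contribute to the integral
over `[-θ₁, θ₁]`: `∫ Re Ek = ½ ∫ (Re Ek θ + Re Ek (-θ)) = ∫ Σ Re e_k Re ζ^k ≤ ∫ 16 ε X T³` (`re_sum_le`).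
-/

set_option autoImplicit false

open MeasureTheory Set Filter Topology
open scoped Real ENNReal NNReal

namespace MP4a1962

private theorem cdev_h0f {r : ℝ} (hr0 : 0 < r) (hr1 : r < 1) : h0f (r : ℂ) = (Mr r : ℂ) := by
  unfold h0f Mr
  have h1 : 0 ≤ (1 + r) / (1 - r) := by
    have : 0 < 1 - r := by linarith
    positivity
  have h2 : ((1 + (r : ℂ)) / (1 - r)) = (((1 + r) / (1 - r) : ℝ) : ℂ) := by push_cast; ring
  rw [h2, ← Complex.ofReal_log h1]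
  push_cast
  ring

private theorem cdev_Ek {h : ℂ → ℂ} (hh : HCls h) {r : ℝ} (hr0 : 0 < r) (hr1 : r < 1) (θ : ℝ) :
    Ek (fun k => (h0c k : ℂ) - tc (shiftf h r) k) r θ =
      h0f (circleMap 0 r θ) - h (circleMap 0 r θ) - ((Mr r : ℂ) - h r) := by
  have hz : ‖circleMap 0 r θ‖ < 1 := by
    rw [norm_circleMap_zero, abs_of_pos hr0]; exact hr1
  have h1 := (E_hasSum hh hr0 hr1 hz).tsum_eq
  rw [← cdev_h0f hr0 hr1, ← h1]
  rfl

/-- the imaginary parts of the coefficients cancel in the even part -/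
private theorem cdev_even {e : ℕ → ℂ} {ε : ℝ} (he : ESeq e ε) {r : ℝ} (hr0 : 0 < r) (hr1 : r < 1)
    (θ : ℝ) : (Ek e r θ).re + (Ek e r (-θ)).re ≤ 32 * ε * Xr r θ * Tf r θ ^ 3 := by
  have s1 := Ek_summable he hr0 hr1 θ
  have s2 := Ek_summable he hr0 hr1 (-θ)
  obtain ⟨h1, h2⟩ := re_sum_le he hr0 hr1 θ
  have e1 : (Ek e r θ).re = ∑' k : ℕ, (e k * ztr r θ ^ k).re := by
    unfold Ek
    exact Complex.re_tsum s1
  have e2 : (Ek e r (-θ)).re = ∑' k : ℕ, (e k * ztr r (-θ) ^ k).re := by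
    unfold Ek
    exact Complex.re_tsum s2
  have s1' : Summable fun k : ℕ => (e k * ztr r θ ^ k).re :=
    (Complex.hasSum_re s1.hasSum).summable
  have s2' : Summable fun k : ℕ => (e k * ztr r (-θ) ^ k).re :=
    (Complex.hasSum_re s2.hasSum).summable
  rw [e1, e2, ← s1'.tsum_add s2']
  have hk : ∀ k : ℕ, (e k * ztr r θ ^ k).re + (e k * ztr r (-θ) ^ k).re ≤
      2 * (|(e k).re| * ‖ztr r θ‖ ^ k) := by
    intro k
    have h3 : ztr r (-θ) ^ k = (starRingEnd ℂ) (ztr r θ ^ k) := by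
      rw [ztr_neg hr0 hr1 θ, map_pow]
    rw [h3]
    set w : ℂ := ztr r θ ^ k with hw
    have h4 : (e k * w).re + (e k * (starRingEnd ℂ) w).re = 2 * ((e k).re * w.re) := by
      simp only [Complex.mul_re, Complex.conj_re, Complex.conj_im]
      ring
    rw [h4]
    have h5 : (e k).re * w.re ≤ |(e k).re| * ‖w‖ := by
      calc (e k).re * w.re ≤ |(e k).re * w.re| := le_abs_self _
        _ = |(e k).re| * |w.re| := abs_mul _ _
        _ ≤ |(e k).re| * ‖w‖ := mul_le_mul_of_nonneg_left (Complex.abs_re_le_norm w) (abs_nonneg _)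
    have h6 : ‖w‖ = ‖ztr r θ‖ ^ k := by rw [hw, norm_pow]
    rw [h6] at h5
    linarith
  calc ∑' k : ℕ, ((e k * ztr r θ ^ k).re + (e k * ztr r (-θ) ^ k).re)
      ≤ ∑' k : ℕ, 2 * (|(e k).re| * ‖ztr r θ‖ ^ k) :=
        (s1'.add s2').tsum_le_tsum hk (h1.mul_left 2)
    _ = 2 * ∑' k : ℕ, |(e k).re| * ‖ztr r θ‖ ^ k := tsum_mul_left
    _ ≤ 2 * (16 * ε * Xr r θ * (1 + Xr r θ ^ 2) ^ 3) := by linarith
    _ = 32 * ε * Xr r θ * Tf r θ ^ 3 := by unfold Tf; ring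

theorem dev_int {h : ℂ → ℂ} (hh : HCls h) {r ε : ℝ} (hr0 : 0 < r) (hr1 : r < 1)
    (he : ESeq (fun k => (h0c k : ℂ) - tc (shiftf h r) k) ε) {θ₁ : ℝ} (h0 : 0 < θ₁) (hπ : θ₁ ≤ π) :
    ∫ θ in (-θ₁)..θ₁, ((h0f (circleMap 0 r θ)).re - (h (circleMap 0 r θ)).re) ≤
      2 * θ₁ * (Mr r - (h r).re + 16 * ε * Xr r θ₁ * Tf r θ₁ ^ 3) := by
  set e : ℕ → ℂ := fun k => (h0c k : ℂ) - tc (shiftf h r) k with hedef
  set F : ℝ → ℝ := fun θ => (Ek e r θ).re with hF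
  have hFc : Continuous F := Complex.continuous_re.comp (continuous_Ek he hr0 hr1)
  have hpt : ∀ θ : ℝ, (h0f (circleMap 0 r θ)).re - (h (circleMap 0 r θ)).re =
      F θ + (Mr r - (h r).re) := by
    intro θ
    have h1 := congrArg Complex.re (cdev_Ek hh hr0 hr1 θ)
    simp only [Complex.sub_re, Complex.ofReal_re] at h1
    rw [hF]
    simp only [hedef]
    linarith
  have hint : ∀ a b : ℝ, IntervalIntegrable F volume a b := fun a b => hFc.intervalIntegrable a b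
  have hFn : Continuous fun θ => F (-θ) := hFc.comp continuous_neg
  have e1 : ∫ θ in (-θ₁)..θ₁, F (-θ) = ∫ θ in (-θ₁)..θ₁, F θ := by
    rw [intervalIntegral.integral_comp_neg (fun θ => F θ), neg_neg]
  have e2 : ∫ θ in (-θ₁)..θ₁, (F θ + F (-θ)) = 2 * ∫ θ in (-θ₁)..θ₁, F θ := by
    rw [intervalIntegral.integral_add (hint _ _) (hFn.intervalIntegrable _ _), e1]
    ring
  have hle : ∀ θ ∈ Icc (-θ₁) θ₁, F θ + F (-θ) ≤ 32 * ε * Xr r θ₁ * Tf r θ₁ ^ 3 := by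
    intro θ hθ
    have h1 := cdev_even he hr0 hr1 θ
    have habs : |θ| ≤ |θ₁| := by
      rw [abs_of_pos h0]
      exact abs_le.2 ⟨hθ.1, hθ.2⟩
    have hθ1 : |θ₁| ≤ π := by rw [abs_of_pos h0]; exact hπ
    have hX := Xr_mono hr0 hr1 habs hθ1
    have hX0 := Xr_nonneg hr0 hr1 θ
    have hT : Tf r θ ≤ Tf r θ₁ := by
      unfold Tf
      gcongr
    have hT0 := (Tf_pos r θ).le
    have hε := he.nn
    have hX1 := Xr_nonneg hr0 hr1 θ₁
    calc F θ + F (-θ) ≤ 32 * ε * Xr r θ * Tf r θ ^ 3 := h1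
      _ ≤ 32 * ε * Xr r θ₁ * Tf r θ₁ ^ 3 := by gcongr
  have hI : ∫ θ in (-θ₁)..θ₁, (F θ + F (-θ)) ≤ 2 * θ₁ * (32 * ε * Xr r θ₁ * Tf r θ₁ ^ 3) := by
    calc ∫ θ in (-θ₁)..θ₁, (F θ + F (-θ))
        ≤ ∫ _θ in (-θ₁)..θ₁, 32 * ε * Xr r θ₁ * Tf r θ₁ ^ 3 :=
          intervalIntegral.integral_mono_on (by linarith) ((hFc.add hFn).intervalIntegrable _ _)
            (by simp) hle
      _ = 2 * θ₁ * (32 * ε * Xr r θ₁ * Tf r θ₁ ^ 3) := by
          rw [intervalIntegral.integral_const]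
          simp only [smul_eq_mul]
          ring
  have e3 : ∫ θ in (-θ₁)..θ₁, ((h0f (circleMap 0 r θ)).re - (h (circleMap 0 r θ)).re) =
      (∫ θ in (-θ₁)..θ₁, F θ) + 2 * θ₁ * (Mr r - (h r).re) := by
    simp only [hpt]
    rw [intervalIntegral.integral_add (hint _ _) (by simp), intervalIntegral.integral_const]
    simp only [smul_eq_mul]
    ring
  rw [e3]
  linarith

end MP4a1962
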