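import Pool.Agent.Lib.MP_4a1962_an.CGeoH

/-!
# CG0: the normalised integrand, symmetry, continuity

* `norm_G0_eq`: `‖exp w‖ = exp (Re w)`, `h0f_real`.
* `norm_G0_le_T`: `re_h0f_le_T`, `exp (-p log T) = T^(-p)` (`Real.rpow_def_of_pos`).
* `G0_neg`: `circleMap_neg_conj`, `h0f_conj`, `Complex.exp_conj`.
* continuity: `h0f` and `h` are differentiable on the ball (`h0_diff`, `HCls.diff`) and `circleMap 0 r θ` is in
  the closed ball of radius `r < 1`.
* `int_real`: for continuous `g` with `g (-θ) = conj (g θ)` the integral over `(-π, π)` is real: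
  `∫ g θ = ∫ g (-θ) = ∫ conj (g θ) = conj ∫ g θ`.
-/

set_option autoImplicit false

open MeasureTheory Set Filter Topology
open scoped Real ENNReal NNReal

namespace MP4a1962

private theorem cg0_mem {r : ℝ} (hr0 : 0 < r) (hr1 : r < 1) (θ : ℝ) :
    circleMap 0 r θ ∈ Metric.ball (0 : ℂ) 1 := by
  rw [mem_ball_zero_iff, norm_circleMap_zero, abs_of_pos hr0]
  exact hr1

private theorem cg0_cont {g : ℂ → ℂ} (hg : DifferentiableOn ℂ g (Metric.ball 0 1)) {r : ℝ}
    (hr0 : 0 < r) (hr1 : r < 1) : Continuous (fun θ : ℝ => g (circleMap 0 r θ)) :=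
  hg.continuousOn.comp_continuous (continuous_circleMap 0 r) (cg0_mem hr0 hr1)

theorem norm_G0_eq (p : ℝ) {r : ℝ} (_hr0 : 0 < r) (_hr1 : r < 1) (n : ℕ) (θ : ℝ) :
    ‖G0 p r n θ‖ = Real.exp (p * ((h0f (circleMap 0 r θ)).re - Mr r)) := by
  unfold G0
  rw [Complex.norm_exp]
  congr 1
  simp only [Complex.sub_re, Complex.mul_re, Complex.mul_im, Complex.ofReal_re, Complex.ofReal_im,
    Complex.natCast_re, Complex.natCast_im, Complex.I_re, Complex.I_im]
  ring

theorem norm_G0_le_T {p : ℝ} (hp : 0 ≤ p) {r : ℝ} (hr0 : 0 < r) (hr1 : r < 1) (n : ℕ) (θ : ℝ) :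
    ‖G0 p r n θ‖ ≤ Tf r θ ^ (-p) := by
  rw [norm_G0_eq p hr0 hr1, Real.rpow_def_of_pos (Tf_pos r θ), Real.exp_le_exp]
  have h1 := re_h0f_le_T hr0 hr1 θ
  have h2 : (h0f (circleMap 0 r θ)).re - Mr r ≤ - Real.log (Tf r θ) := by linarith
  have := mul_le_mul_of_nonneg_left h2 hp
  linarith

theorem G0_neg (p : ℝ) {r : ℝ} (hr0 : 0 < r) (hr1 : r < 1) (n : ℕ) (θ : ℝ) :
    G0 p r n (-θ) = (starRingEnd ℂ) (G0 p r n θ) := by
  have hz : ‖circleMap 0 r θ‖ < 1 := by
    have := cg0_mem hr0 hr1 θ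
    rwa [mem_ball_zero_iff] at this
  unfold G0
  rw [← Complex.exp_conj, circleMap_neg_conj, h0f_conj hz]
  congr 1
  simp only [map_sub, map_mul, Complex.conj_ofReal, Complex.conj_I, Complex.ofReal_neg,
    map_natCast]
  ring

theorem continuous_h0f_circ {r : ℝ} (hr0 : 0 < r) (hr1 : r < 1) :
    Continuous (fun θ : ℝ => h0f (circleMap 0 r θ)) :=
  cg0_cont h0_diff hr0 hr1

theorem continuous_G0 (p : ℝ) {r : ℝ} (hr0 : 0 < r) (hr1 : r < 1) (n : ℕ) :
    Continuous (G0 p r n) := by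
  unfold G0
  have h1 := continuous_h0f_circ hr0 hr1
  exact Complex.continuous_exp.comp ((continuous_const.mul (h1.sub continuous_const)).sub
    ((continuous_const.mul Complex.continuous_ofReal).mul continuous_const))

theorem continuous_h_circ {h : ℂ → ℂ} (hh : HCls h) {r : ℝ} (hr0 : 0 < r) (hr1 : r < 1) :
    Continuous (fun θ : ℝ => h (circleMap 0 r θ)) :=
  cg0_cont hh.diff hr0 hr1

theorem int_real {g : ℝ → ℂ} (_hg : Continuous g) (hs : ∀ θ, g (-θ) = (starRingEnd ℂ) (g θ)) :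
    (∫ θ in (-π)..π, g θ).im = 0 := by
  have h1 : ∫ θ in (-π)..π, g (-θ) = ∫ θ in (-π)..π, g θ := by
    rw [intervalIntegral.integral_comp_neg (fun θ => g θ), neg_neg]
  have h2 : ∫ θ in (-π)..π, g (-θ) = (starRingEnd ℂ) (∫ θ in (-π)..π, g θ) := by
    simp only [hs]
    rw [intervalIntegral.integral_of_le (by linarith [Real.pi_pos]),
      intervalIntegral.integral_of_le (by linarith [Real.pi_pos])]
    exact integral_conj
  rw [h1] at h2
  exact Complex.conj_eq_iff_im.1 h2.symm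

end MP4a1962
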