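import Pool.Agent.Lib.MP_4a1962_an.Defs

/-!
# SeqIm: bound of the imaginary parts

Data: `c : ℕ → ℂ` with `‖c k‖ ≤ 4`, `|h0c k - Re (e^{ikφ} c k)| ≤ k² (4 - Re (e^{iφ} c 1))` for `k ≥ 1`
and all `φ`, and `c 1 = 4 - δ` real, `0 ≤ δ ≤ 4`.
Claims: `|h0c k - Re (c k)| ≤ k² δ` (`φ = 0`) and `|Im (c k)| ≤ (17/5) k √δ`.

Proof of the second. `Re (e^{-ikφ} c) - Re (e^{ikφ} c) = 2 sin (kφ) Im c`; use the inequality at `φ` and at
`-φ`: `|2 sin (kφ) Im (c k)| ≤ 2 k² (4 - (4-δ) cos φ)` and `4 - (4 - δ) cos φ = 4 (1 - cos φ) + δ cos φ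
≤ 2 φ² + δ` (`Real.one_sub_sq_div_two_le_cos`). If `δ > 0` take `φ = √(δ/2)`: right side `2 k² · 2 δ`.
If `k φ ≤ 1`: `sin (kφ) ≥ (5/6) k φ` (`Real.sin_gt_sub_cube` or `sin x ≥ x - x³/4`... use
`Real.sin_gt_sub_cube`: `x - x^3/4 < sin x` for `0 < x ≤ 1` gives only `3/4`; use `Real.sin_bound` or
`x - x³/6 ≤ sin x` (`Real.sub_cube_div_six...` ) instead), so
`|Im c| ≤ 2 k² δ / ((5/6) k φ) = (12/5) √2 k √δ ≤ (17/5) k √δ` (`√2 < 17/12`).
If `k φ > 1`: `k √δ > √2`, `|Im c| ≤ 4 ≤ (4/√2) k √δ ≤ (17/5) k √δ`.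
If `δ = 0`: for every small `φ > 0`, `|sin (kφ) Im c| ≤ 2 k² φ²`, so `|Im c| ≤ (12/5) k φ → 0`.
-/

set_option autoImplicit false

open MeasureTheory Set Filter Topology
open scoped Real ENNReal NNReal

namespace MP4a1962

/-- coefficient data of the class, rotated so that `c 1` is real -/
structure CSeq (c : ℕ → ℂ) (δ : ℝ) : Prop where
  le4 : ∀ k, 1 ≤ k → ‖c k‖ ≤ 4
  c1 : c 1 = ((4 - δ : ℝ) : ℂ)
  d0 : 0 ≤ δ
  d4 : δ ≤ 4
  ineq : ∀ k : ℕ, 1 ≤ k → ∀ φ : ℝ, |h0c k - (Complex.exp (k * φ * Complex.I) * c k).re| ≤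
    (k : ℝ) ^ 2 * (4 - (Complex.exp (φ * Complex.I) * c 1).re)

theorem CSeq.re_le {c : ℕ → ℂ} {δ : ℝ} (hc : CSeq c δ) {k : ℕ} (hk : 1 ≤ k) :
    |(c k).re - h0c k| ≤ (k : ℝ) ^ 2 * δ := by
  have h := hc.ineq k hk 0
  rw [hc.c1] at h
  simp only [Complex.ofReal_zero, mul_zero, zero_mul, Complex.exp_zero, one_mul,
    Complex.ofReal_re] at h
  rw [abs_sub_comm]
  calc |h0c k - (c k).re| ≤ (k : ℝ) ^ 2 * (4 - (4 - δ)) := h
    _ = (k : ℝ) ^ 2 * δ := by ring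

private theorem seqim_re (x : ℝ) (w : ℂ) :
    (Complex.exp (x * Complex.I) * w).re = Real.cos x * w.re - Real.sin x * w.im := by
  rw [Complex.mul_re, Complex.exp_ofReal_mul_I_re, Complex.exp_ofReal_mul_I_im]

private theorem seqim_key {c : ℕ → ℂ} {δ : ℝ} (hc : CSeq c δ) {k : ℕ} (hk : 1 ≤ k) (φ : ℝ) :
    |Real.sin (k * φ)| * |(c k).im| ≤ (k : ℝ) ^ 2 * (2 * φ ^ 2 + δ) := by
  have h1 := hc.ineq k hk φ
  have h2 := hc.ineq k hk (-φ)
  have e1 : ((k : ℂ) * (φ : ℂ) * Complex.I) = ((k * φ : ℝ) : ℂ) * Complex.I := by push_cast; ring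
  have e2 : ((k : ℂ) * ((-φ : ℝ) : ℂ) * Complex.I) = ((-(k * φ) : ℝ) : ℂ) * Complex.I := by
    push_cast; ring
  rw [e1, hc.c1, seqim_re, seqim_re, Complex.ofReal_re, Complex.ofReal_im] at h1
  rw [e2, hc.c1, seqim_re, seqim_re, Complex.ofReal_re, Complex.ofReal_im, Real.cos_neg,
    Real.sin_neg, Real.cos_neg] at h2
  have h3 : 4 - (Real.cos φ * (4 - δ) - Real.sin φ * 0) ≤ 2 * φ ^ 2 + δ := by
    have hcos := Real.one_sub_sq_div_two_le_cos (x := φ)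
    have hcos1 := Real.cos_le_one φ
    have hd := hc.d0
    have hd4 := hc.d4
    nlinarith
  have hk2 : (0 : ℝ) ≤ (k : ℝ) ^ 2 := by positivity
  have h4 : (k : ℝ) ^ 2 * (4 - (Real.cos φ * (4 - δ) - Real.sin φ * 0)) ≤
      (k : ℝ) ^ 2 * (2 * φ ^ 2 + δ) := mul_le_mul_of_nonneg_left h3 hk2
  have h2' : (k : ℝ) ^ 2 * (4 - (Real.cos φ * (4 - δ) - Real.sin (-φ) * 0)) ≤
      (k : ℝ) ^ 2 * (2 * φ ^ 2 + δ) := by
    simpa using h4
  rw [← abs_mul]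
  rw [abs_le] at h1 h2 ⊢
  constructor
  · nlinarith [h1.1, h1.2, h2.1, h2.2]
  · nlinarith [h1.1, h1.2, h2.1, h2.2]

private theorem seqim_small {c : ℕ → ℂ} {δ : ℝ} (hc : CSeq c δ) {k : ℕ} (hk : 1 ≤ k) {φ : ℝ}
    (hφ : 0 < φ) (h1 : k * φ ≤ 1) :
    5 / 6 * φ * |(c k).im| ≤ k * (2 * φ ^ 2 + δ) := by
  have hk0 : (0 : ℝ) < k := by exact_mod_cast hk
  have hx : 0 < k * φ := mul_pos hk0 hφ
  have hs := (Real.sin_gt_sub_cube hx).le
  have hs2 : 5 / 6 * (k * φ) ≤ Real.sin (k * φ) := by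
    have h5 : (k * φ) ^ 3 ≤ k * φ := by
      have h6 : (k * φ) ^ 2 ≤ 1 := by nlinarith
      calc (k * φ) ^ 3 = (k * φ) ^ 2 * (k * φ) := by ring
        _ ≤ 1 * (k * φ) := mul_le_mul_of_nonneg_right h6 hx.le
        _ = k * φ := one_mul _
    linarith
  have hs0 : 0 ≤ Real.sin (k * φ) := le_trans (by positivity) hs2
  have hkey := seqim_key hc hk φ
  rw [abs_of_nonneg hs0] at hkey
  have h7 : 5 / 6 * (k * φ) * |(c k).im| ≤ (k : ℝ) ^ 2 * (2 * φ ^ 2 + δ) :=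
    (mul_le_mul_of_nonneg_right hs2 (abs_nonneg _)).trans hkey
  have h8 : (k : ℝ) * (5 / 6 * φ * |(c k).im|) ≤ k * (k * (2 * φ ^ 2 + δ)) := by
    calc (k : ℝ) * (5 / 6 * φ * |(c k).im|) = 5 / 6 * (k * φ) * |(c k).im| := by ring
      _ ≤ (k : ℝ) ^ 2 * (2 * φ ^ 2 + δ) := h7
      _ = k * (k * (2 * φ ^ 2 + δ)) := by ring
  exact le_of_mul_le_mul_left h8 hk0

theorem CSeq.im_le {c : ℕ → ℂ} {δ : ℝ} (hc : CSeq c δ) {k : ℕ} (hk : 1 ≤ k) :
    |(c k).im| ≤ 17 / 5 * k * √δ := by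
  have hk0 : (0 : ℝ) < k := by exact_mod_cast hk
  have hk1 : (1 : ℝ) ≤ k := by exact_mod_cast hk
  rcases hc.d0.eq_or_lt with hd | hd
  · rw [← hd, Real.sqrt_zero, mul_zero]
    by_contra hne
    push Not at hne
    set m := |(c k).im| with hm
    have hm0 : 0 < m := hne
    have hφ : 0 < min (1 / (k : ℝ)) (m / (5 * k)) := lt_min (by positivity) (by positivity)
    have h1 : k * min (1 / (k : ℝ)) (m / (5 * k)) ≤ 1 := by
      calc k * min (1 / (k : ℝ)) (m / (5 * k)) ≤ k * (1 / (k : ℝ)) :=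
            mul_le_mul_of_nonneg_left (min_le_left _ _) hk0.le
        _ = 1 := by field_simp
    have h2 := seqim_small hc hk hφ h1
    rw [← hd, add_zero, ← hm] at h2
    set φ := min (1 / (k : ℝ)) (m / (5 * k)) with hφd
    have h3 : φ ≤ m / (5 * k) := min_le_right _ _
    have h4 : k * φ ≤ m / 5 := by
      calc k * φ ≤ k * (m / (5 * k)) := mul_le_mul_of_nonneg_left h3 hk0.le
        _ = m / 5 := by field_simp
    have h5 : φ * (5 / 6 * m) ≤ φ * (2 * (k * φ)) := by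
      calc φ * (5 / 6 * m) = 5 / 6 * φ * m := by ring
        _ ≤ k * (2 * φ ^ 2) := h2
        _ = φ * (2 * (k * φ)) := by ring
    have h6 := le_of_mul_le_mul_left h5 hφ
    linarith
  · set s := √δ with hs
    have hs0 : 0 < s := Real.sqrt_pos.2 hd
    have hss : s ^ 2 = δ := Real.sq_sqrt hc.d0
    set φ := √(δ / 2) with hφd
    have hφ0 : 0 < φ := Real.sqrt_pos.2 (by linarith)
    have hφ2 : φ ^ 2 = δ / 2 := Real.sq_sqrt (by linarith)
    rcases le_or_gt (k * φ) 1 with h1 | h1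
    · have h2 := seqim_small hc hk hφ0 h1
      have h3 : 2 * φ ^ 2 + δ = 4 * φ ^ 2 := by rw [hφ2]; ring
      rw [h3] at h2
      have h4 : φ * |(c k).im| ≤ φ * (24 / 5 * (k * φ)) := by
        have : φ * (24 / 5 * (k * φ)) = 6 / 5 * (k * (4 * φ ^ 2)) := by ring
        rw [this]
        linarith
      have h5 := le_of_mul_le_mul_left h4 hφ0
      have h6 : 24 * φ ≤ 17 * s := by
        refine abs_le_of_sq_le_sq' ?_ (by positivity) |>.2
        rw [mul_pow, mul_pow, hφ2, hss]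
        linarith
      calc |(c k).im| ≤ 24 / 5 * (k * φ) := h5
        _ = 1 / 5 * k * (24 * φ) := by ring
        _ ≤ 1 / 5 * k * (17 * s) := mul_le_mul_of_nonneg_left h6 (by positivity)
        _ = 17 / 5 * k * s := by ring
    · have h2 : |(c k).im| ≤ 4 := (Complex.abs_im_le_norm _).trans (hc.le4 k hk)
      have h3 : (1 : ℝ) < (k * φ) ^ 2 := by nlinarith
      have h4 : (k * s) ^ 2 = 2 * (k * φ) ^ 2 := by
        rw [mul_pow, mul_pow, hφ2, hss]; ring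
      have h5 : 20 / 17 ≤ k * s := by
        refine abs_le_of_sq_le_sq' ?_ (by positivity) |>.2
        rw [h4]
        nlinarith
      nlinarith

end MP4a1962
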