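import Pool.Agent.Lib.MP_4a1962_an.SIneq

/-!
# TcLe: `‖tc h k‖ ≤ 4` for `h` in `HCls`, `k ≥ 1`

For `U` in `ULow` and `k ≥ 1` let `V θ = (1/k) Σ_{j<k} U ((θ + 2πj)/k)`. Then `V` is `ULow`:
continuous; `V (θ + 2π)` shifts the index `j` (periodicity of `U`); for every continuous `2π`-periodic `G`:
`∫_{-π}^{π} (1/k) Σ_j G ((θ + 2πj)/k) dθ = ∫_{-π}^{π} G` (change of variables on each branch, the intervals
`((-π+2πj)/k, (π+2πj)/k)` tile a period); mean: `G = U`; maj: `|V - u| ≤ (1/k) Σ_j |U (..) - u|`, `G = |U - u|`.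
With `G x = U (φ + x) cos (k x)`: `∫_{-π}^{π} V (kφ + θ) cos θ dθ = ∫_{-π}^{π} U (φ + x) cos (k x) dx`
(`cos (k ((θ + 2πj)/k)) = cos θ`).
`test_ineq` for `V` with `k = 1`, `a = 1`, `σ = 0` (right side `4 π`): `∫ U (φ + x) cos (k x) dx ≤ 4 π`.
For `U θ = Re h(r e^{iθ})` and `circle_fourier`: `r^k Re (e^{ikφ} c_k) ≤ 4`; choose `φ` with
`e^{ikφ} c_k = ‖c_k‖` (`φ = - arg c_k / k`), `r → 1`.
-/

set_option autoImplicit false

open MeasureTheory Set Filter Topology
open scoped Real ENNReal NNReal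

namespace MP4a1962

/-- average over the `k` branches -/
private noncomputable def br (k : ℕ) (G : ℝ → ℝ) (θ : ℝ) : ℝ :=
  (1 / k) * ∑ j ∈ Finset.range k, G ((θ + 2 * π * j) / k)

private theorem br_cont (k : ℕ) {G : ℝ → ℝ} (hG : Continuous G) : Continuous (br k G) := by
  unfold br
  refine continuous_const.mul (continuous_finset_sum _ fun j _ => hG.comp (by fun_prop))

private theorem br_int {k : ℕ} (hk : 1 ≤ k) {G : ℝ → ℝ} (hG : Continuous G)
    (hper : Function.Periodic G (2 * π)) :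
    ∫ θ in (-π)..π, br k G θ = ∫ θ in (-π)..π, G θ := by
  have hk0 : (0 : ℝ) < k := by exact_mod_cast hk
  have h1 : ∫ θ in (-π)..π, br k G θ =
      ∑ j ∈ Finset.range k, ∫ x in ((-π + 2 * π * j) / k)..((-π + 2 * π * (j + 1 : ℕ)) / k), G x := by
    unfold br
    rw [intervalIntegral.integral_const_mul, intervalIntegral.integral_finset_sum,
      Finset.mul_sum]
    · refine Finset.sum_congr rfl fun j _ => ?_
      have e : ∀ θ : ℝ, (θ + 2 * π * j) / k = θ / k + 2 * π * j / k := fun θ => by ring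
      simp_rw [e]
      rw [intervalIntegral.integral_comp_div_add (fun x => G x) hk0.ne' (2 * π * j / k),
        smul_eq_mul, ← mul_assoc, one_div, inv_mul_cancel₀ hk0.ne', one_mul]
      have e1 : -π / k + 2 * π * j / k = (-π + 2 * π * j) / k := by ring
      have e2 : π / k + 2 * π * j / k = (-π + 2 * π * (j + 1 : ℕ)) / k := by push_cast; ring
      rw [e1, e2]
    · intro j _
      apply Continuous.intervalIntegrable
      exact hG.comp (by fun_prop)
  have h2 := intervalIntegral.sum_integral_adjacent_intervals (f := G) (μ := volume) (n := k)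
    (a := fun j : ℕ => (-π + 2 * π * j) / k) (fun j _ => hG.intervalIntegrable _ _)
  rw [h1]
  rw [h2]
  have e3 : (-π + 2 * π * (k : ℝ)) / k = (-π + 2 * π * ((0 : ℕ) : ℝ)) / k + 2 * π := by
    field_simp
    ring
  rw [e3, hper.intervalIntegral_add_eq _ (-π)]
  congr 1
  ring

private theorem br_per {k : ℕ} (hk : 1 ≤ k) {G : ℝ → ℝ} (hper : Function.Periodic G (2 * π))
    (θ : ℝ) : br k G (θ + 2 * π) = br k G θ := by
  have hk0 : (0 : ℝ) < k := by exact_mod_cast hk
  unfold br
  congr 1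
  have e : ∀ j : ℕ, G ((θ + 2 * π + 2 * π * j) / k) = G ((θ + 2 * π * (j + 1 : ℕ)) / k) := by
    intro j
    congr 1
    push_cast
    ring
  simp_rw [e]
  have h1 := Finset.sum_range_succ' (fun j : ℕ => G ((θ + 2 * π * j) / k)) k
  have h2 := Finset.sum_range_succ (fun j : ℕ => G ((θ + 2 * π * j) / k)) k
  have h3 : G ((θ + 2 * π * (k : ℕ)) / k) = G ((θ + 2 * π * ((0 : ℕ) : ℝ)) / k) := by
    have e4 : (θ + 2 * π * (k : ℕ)) / k = (θ + 2 * π * ((0 : ℕ) : ℝ)) / k + 2 * π := by
      field_simp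
      simp
    rw [e4]
    exact hper _
  rw [h1] at h2
  linarith

private theorem br_ulow {U : ℝ → ℝ} (hU : ULow U) {k : ℕ} (hk : 1 ≤ k) : ULow (br k U) := by
  have hk0 : (0 : ℝ) < k := by exact_mod_cast hk
  have hper : Function.Periodic U (2 * π) := hU.per
  refine ⟨br_cont k hU.cont, br_per hk hper, ?_, fun u => ?_⟩
  · rw [br_int hk hU.cont hper]
    exact hU.mean
  · have hGc : Continuous (fun x => |U x - u|) := (hU.cont.sub continuous_const).abs
    have hGp : Function.Periodic (fun x => |U x - u|) (2 * π) := by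
      intro x
      simp only
      rw [hper x]
    have hle : ∫ θ in (-π)..π, |br k U θ - u| ≤ ∫ θ in (-π)..π, br k (fun x => |U x - u|) θ := by
      apply intervalIntegral.integral_mono_on (by linarith [Real.pi_pos])
      · apply Continuous.intervalIntegrable
        exact ((br_cont k hU.cont).sub continuous_const).abs
      · exact (br_cont k hGc).intervalIntegrable _ _
      · intro θ _
        have e : br k U θ - u =
            (1 / k) * ∑ j ∈ Finset.range k, (U ((θ + 2 * π * j) / k) - u) := by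
          unfold br
          rw [Finset.sum_sub_distrib, Finset.sum_const, Finset.card_range, nsmul_eq_mul]
          field_simp
        rw [e, abs_mul, abs_of_nonneg (by positivity : (0 : ℝ) ≤ 1 / k)]
        unfold br
        exact mul_le_mul_of_nonneg_left (Finset.abs_sum_le_sum_abs _ _) (by positivity)
    refine hle.trans ?_
    rw [br_int hk hGc hGp]
    exact hU.maj u

theorem ulow_cos {U : ℝ → ℝ} (hU : ULow U) {k : ℕ} (hk : 1 ≤ k) (φ : ℝ) :
    ∫ θ in (-π)..π, U (φ + θ) * Real.cos (k * θ) ≤ 4 * π := by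
  have hk0 : (0 : ℝ) < k := by exact_mod_cast hk
  have hper : Function.Periodic U (2 * π) := hU.per
  have hGc : Continuous (fun x => U (φ + x) * Real.cos (k * x)) :=
    (hU.cont.comp (by fun_prop)).mul (by fun_prop)
  have hGp : Function.Periodic (fun x => U (φ + x) * Real.cos (k * x)) (2 * π) := by
    intro x
    simp only
    have e1 : φ + (x + 2 * π) = (φ + x) + 2 * π := by ring
    have e2 : (k : ℝ) * (x + 2 * π) = k * x + k * (2 * π) := by ring
    rw [e1, hper, e2, Real.cos_add_nat_mul_two_pi]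
  rw [← br_int hk hGc hGp]
  have hfun : ∀ θ : ℝ, br k (fun x => U (φ + x) * Real.cos (k * x)) θ =
      br k U (k * φ + θ) * (1 * Real.cos θ + 0 * Real.cos ((1 : ℕ) * θ)) := by
    intro θ
    unfold br
    rw [one_mul, zero_mul, add_zero, mul_assoc, Finset.sum_mul]
    congr 1
    refine Finset.sum_congr rfl fun j _ => ?_
    have e1 : φ + (θ + 2 * π * j) / k = (k * φ + θ + 2 * π * j) / k := by
      field_simp
      ring
    have e2 : (k : ℝ) * ((θ + 2 * π * j) / k) = θ + j * (2 * π) := by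
      field_simp
    change U (φ + (θ + 2 * π * j) / k) * Real.cos (k * ((θ + 2 * π * j) / k)) = _
    rw [e1, e2, Real.cos_add_nat_mul_two_pi]
  have ht := test_ineq (br_ulow hU hk) (le_refl 1) (a := 1) (σ := 0) (by simp) (k * φ)
  simp_rw [hfun]
  refine ht.trans (le_of_eq ?_)
  ring

theorem tc_le {h : ℂ → ℂ} (hh : HCls h) {k : ℕ} (hk : 1 ≤ k) : ‖tc h k‖ ≤ 4 := by
  have hk0 : (0 : ℝ) < k := by exact_mod_cast hk
  set φ : ℝ := -(tc h k).arg / k with hφ
  have hexp : Complex.exp (k * φ * Complex.I) * tc h k = (‖tc h k‖ : ℂ) := by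
    have h1 := Complex.norm_mul_exp_arg_mul_I (tc h k)
    have e : (k : ℂ) * φ * Complex.I = -((tc h k).arg * Complex.I) := by
      have : (k : ℂ) * φ = -((tc h k).arg : ℂ) := by
        rw [hφ]
        have hkC : (k : ℂ) ≠ 0 := by exact_mod_cast hk0.ne'
        push_cast
        field_simp
      rw [this]
      ring
    rw [e]
    conv_lhs => rw [← h1]
    rw [mul_comm, mul_assoc, ← Complex.exp_add]
    simp
  have hr : ∀ r : ℝ, 0 < r → r < 1 → r ^ k * ‖tc h k‖ ≤ 4 := by
    intro r hr0 hr1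
    have h1 := ulow_cos (hh.uLow hr0 hr1) hk φ
    have h2 := circle_fourier hh.diff hr0 hr1 hk φ
    rw [h2, hexp, Complex.ofReal_re] at h1
    have h3 : π * (r ^ k * ‖tc h k‖) ≤ π * 4 := by linarith
    exact le_of_mul_le_mul_left h3 Real.pi_pos
  have hlim : Tendsto (fun r : ℝ => r ^ k * ‖tc h k‖) (𝓝[<] 1) (𝓝 (1 ^ k * ‖tc h k‖)) := by
    apply tendsto_nhdsWithin_of_tendsto_nhds
    apply Continuous.tendsto
    fun_prop
  rw [one_pow, one_mul] at hlim
  refine le_of_tendsto hlim ?_
  have h1 : ∀ᶠ r : ℝ in 𝓝[<] 1, 0 < r :=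
    nhdsWithin_le_nhds (lt_mem_nhds (by norm_num : (0 : ℝ) < 1))
  filter_upwards [h1, self_mem_nhdsWithin] with r hr0 hr1
  exact hr r hr0 hr1

end MP4a1962
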