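import Pool.Agent.Lib.MP_4a1962_an.CDefs
import Pool.Agent.Lib.MP_4a1962_an.TcLe
import Pool.Agent.Lib.MP_4a1962_an.SeqIm

/-!
# Shift: rotation and Moebius invariance of `HCls`

* `HCls.rot`: `z ↦ e^{iφ} z` is a bijection of the ball.
* `HCls.shift`: `m ζ = (ζ + a)/(1 + conj a ζ)` maps the ball into the ball (`‖a‖ < 1`), analytic, `m 0 = a`;
  the image of `shiftf h a` is contained in `h(ball) - h a`, so the vertical sections are contained in
  translates of those of `h`.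
* `tc_shift_one`: `tc (shiftf h a) 1 = (1 - ‖a‖²) h'(a)` (chain rule; `tc f 1 = deriv f 0`).
* `HCls.deriv_le`: `tc_le` with `k = 1` for `shiftf h a`.
* `HCls.growth`: `x ↦ 2 log ((1+x)/(1-x)) - Re h(x)` has derivative `4/(1-x²) - Re h'(x) ≥ 0` and vanishes
  at `0`.
* `h0f_shift`: `(1+z)/(1-z)` at `z = (ζ+r)/(1+rζ)` is `((1+r)/(1-r)) ((1+ζ)/(1-ζ))`; `Complex.log` of a
  positive real times a number is additive (`Complex.log_ofReal_mul`).
* `HCls.cseq`: `s_ineq`, `tc_le`.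
-/

set_option autoImplicit false

open MeasureTheory Set Filter Topology
open scoped Real ENNReal NNReal

namespace MP4a1962

theorem HCls.rot {h : ℂ → ℂ} (hh : HCls h) (φ : ℝ) :
    HCls (fun z => h (Complex.exp (φ * Complex.I) * z)) := by
  have hn : ‖Complex.exp (φ * Complex.I)‖ = 1 := Complex.norm_exp_ofReal_mul_I φ
  have hmaps : ∀ z ∈ Metric.ball (0 : ℂ) 1,
      Complex.exp (φ * Complex.I) * z ∈ Metric.ball (0 : ℂ) 1 := by
    intro z hz
    rw [Metric.mem_ball, dist_zero_right] at hz ⊢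
    rwa [norm_mul, hn, one_mul]
  refine ⟨?_, ?_, fun u => ?_⟩
  · exact hh.diff.comp ((differentiableOn_const _).mul differentiableOn_id) hmaps
  · simp [hh.zero]
  · refine (measure_mono ?_).trans (hh.sec u)
    rintro v ⟨z, hz, hzv⟩
    exact ⟨_, hmaps z hz, hzv⟩

private theorem sh_norm {a ζ : ℂ} (ha : ‖a‖ < 1) (hζ : ‖ζ‖ < 1) :
    ‖(starRingEnd ℂ) a * ζ‖ < 1 := by
  rw [norm_mul, RCLike.norm_conj]
  have h0 := norm_nonneg a
  have h1 := norm_nonneg ζ
  nlinarith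

private theorem sh_ne {a ζ : ℂ} (ha : ‖a‖ < 1) (hζ : ‖ζ‖ < 1) :
    1 + (starRingEnd ℂ) a * ζ ≠ 0 := by
  intro h
  have h1 := sh_norm ha hζ
  have h2 : (starRingEnd ℂ) a * ζ = -1 := by linear_combination h
  rw [h2, norm_neg, norm_one] at h1
  exact lt_irrefl _ h1

private theorem sh_lt {a ζ : ℂ} (ha : ‖a‖ < 1) (hζ : ‖ζ‖ < 1) :
    ‖(ζ + a) / (1 + (starRingEnd ℂ) a * ζ)‖ < 1 := by
  have hne := sh_ne ha hζ
  rw [norm_div, div_lt_one (norm_pos_iff.2 hne)]
  refine lt_of_pow_lt_pow_left₀ 2 (norm_nonneg _) ?_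
  have ha2 : ‖a‖ ^ 2 < 1 := by nlinarith [norm_nonneg a]
  have hζ2 : ‖ζ‖ ^ 2 < 1 := by nlinarith [norm_nonneg ζ]
  rw [Complex.sq_norm, Complex.normSq_apply] at ha2 hζ2
  rw [Complex.sq_norm, Complex.sq_norm, Complex.normSq_apply, Complex.normSq_apply]
  simp only [Complex.add_re, Complex.add_im, Complex.one_re, Complex.one_im, Complex.mul_re,
    Complex.mul_im, Complex.conj_re, Complex.conj_im]
  nlinarith [mul_pos (sub_pos.2 ha2) (sub_pos.2 hζ2)]

theorem HCls.shift {h : ℂ → ℂ} (hh : HCls h) {a : ℂ} (ha : ‖a‖ < 1) : HCls (shiftf h a) := by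
  have hmaps : ∀ z ∈ Metric.ball (0 : ℂ) 1,
      (z + a) / (1 + (starRingEnd ℂ) a * z) ∈ Metric.ball (0 : ℂ) 1 := by
    intro z hz
    rw [Metric.mem_ball, dist_zero_right] at hz ⊢
    exact sh_lt ha hz
  refine ⟨?_, ?_, fun u => ?_⟩
  · refine DifferentiableOn.sub ?_ (differentiableOn_const _)
    refine hh.diff.comp ?_ hmaps
    refine DifferentiableOn.div (differentiableOn_id.add (differentiableOn_const _))
      ((differentiableOn_const _).add ((differentiableOn_const _).mul differentiableOn_id))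
      fun z hz => ?_
    rw [Metric.mem_ball, dist_zero_right] at hz
    exact sh_ne ha hz
  · simp [shiftf]
  · have hsub : {v : ℝ | ∃ z ∈ Metric.ball (0 : ℂ) 1, shiftf h a z = pt u v} ⊆
        (fun v => v + (h a).im) ⁻¹'
          {v : ℝ | ∃ z ∈ Metric.ball (0 : ℂ) 1, h z = pt (u + (h a).re) v} := by
      rintro v ⟨z, hz, hzv⟩
      refine ⟨_, hmaps z hz, ?_⟩
      have h1 : h ((z + a) / (1 + (starRingEnd ℂ) a * z)) = pt u v + h a := by
        rw [← hzv, shiftf, sub_add_cancel]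
      rw [h1]
      apply Complex.ext <;> simp
    refine (measure_mono hsub).trans ?_
    rw [measure_preimage_add_right]
    exact hh.sec _

private theorem sh_deriv {h : ℂ → ℂ} (hh : DifferentiableOn ℂ h (Metric.ball 0 1)) {a : ℂ}
    (ha : ‖a‖ < 1) : HasDerivAt (shiftf h a) (((1 - ‖a‖ ^ 2 : ℝ) : ℂ) * deriv h a) 0 := by
  have ha' : a ∈ Metric.ball (0 : ℂ) 1 := by rwa [Metric.mem_ball, dist_zero_right]
  have h1 : HasDerivAt h (deriv h a) a :=
    ((hh a ha').differentiableAt (Metric.isOpen_ball.mem_nhds ha')).hasDerivAt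
  have h2 : HasDerivAt (fun ζ : ℂ => ζ + a) 1 0 := (hasDerivAt_id (0 : ℂ)).add_const a
  have h3 : HasDerivAt (fun ζ : ℂ => 1 + (starRingEnd ℂ) a * ζ) ((starRingEnd ℂ) a) 0 := by
    simpa using ((hasDerivAt_id (0 : ℂ)).const_mul ((starRingEnd ℂ) a)).const_add 1
  have h4 := h2.div h3 (by simp)
  have h5 : (0 + a) / (1 + (starRingEnd ℂ) a * 0) = a := by simp
  have h1' : HasDerivAt h (deriv h a) ((fun ζ : ℂ => ζ + a) 0 /
      (fun ζ : ℂ => 1 + (starRingEnd ℂ) a * ζ) 0) := by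
    simp only
    rw [h5]
    exact h1
  have h6 := (h1'.comp (0 : ℂ) h4).sub_const (h a)
  have h7 : deriv h a * ((1 * (1 + (starRingEnd ℂ) a * 0) - (0 + a) * (starRingEnd ℂ) a) /
      (1 + (starRingEnd ℂ) a * 0) ^ 2) = ((1 - ‖a‖ ^ 2 : ℝ) : ℂ) * deriv h a := by
    have h8 : a * (starRingEnd ℂ) a = ((‖a‖ ^ 2 : ℝ) : ℂ) := by
      rw [Complex.mul_conj, Complex.normSq_eq_norm_sq]
    simp only [mul_zero, add_zero, one_pow, div_one, one_mul, zero_add, h8]
    push_cast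
    ring
  rw [← h7]
  exact h6

theorem tc_shift_one {h : ℂ → ℂ} (hh : DifferentiableOn ℂ h (Metric.ball 0 1)) {a : ℂ}
    (ha : ‖a‖ < 1) : tc (shiftf h a) 1 = ((1 - ‖a‖ ^ 2 : ℝ) : ℂ) * deriv h a := by
  have h1 := (sh_deriv hh ha).deriv
  rw [tc, iteratedDeriv_one, h1, Nat.factorial_one, Nat.cast_one, div_one]

theorem HCls.deriv_le {h : ℂ → ℂ} (hh : HCls h) {a : ℂ} (ha : ‖a‖ < 1) :
    (1 - ‖a‖ ^ 2) * ‖deriv h a‖ ≤ 4 := by
  have h1 := tc_le (hh.shift ha) (le_refl 1)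
  rw [tc_shift_one hh.diff ha, norm_mul, Complex.norm_real, Real.norm_eq_abs] at h1
  exact (mul_le_mul_of_nonneg_right (le_abs_self _) (norm_nonneg _)).trans h1

theorem HCls.growth {h : ℂ → ℂ} (hh : HCls h) {x : ℝ} (hx0 : 0 ≤ x) (hx1 : x < 1) :
    (h x).re ≤ 2 * Real.log ((1 + x) / (1 - x)) := by
  have hmem : ∀ y : ℝ, 0 ≤ y → y < 1 → ‖(y : ℂ)‖ < 1 := by
    intro y h0 h1
    rwa [Complex.norm_real, Real.norm_eq_abs, abs_of_nonneg h0]
  have hd : ∀ y : ℝ, 0 ≤ y → y < 1 → HasDerivAt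
      (fun t : ℝ => 2 * (Real.log (1 + t) - Real.log (1 - t)) - (h t).re)
      (2 * (1 / (1 + y) - (-1) / (1 - y)) - (deriv h y).re) y := by
    intro y h0 h1
    have hy' : (y : ℂ) ∈ Metric.ball (0 : ℂ) 1 := by
      rw [Metric.mem_ball, dist_zero_right]
      exact hmem y h0 h1
    have e1 : HasDerivAt h (deriv h y) (y : ℂ) :=
      ((hh.diff y hy').differentiableAt (Metric.isOpen_ball.mem_nhds hy')).hasDerivAt
    have e2 : HasDerivAt (fun t : ℝ => (h t).re) (deriv h y).re y := e1.real_of_complex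
    have e3 : HasDerivAt (fun t : ℝ => Real.log (1 + t)) (1 / (1 + y)) y :=
      ((hasDerivAt_id y).const_add 1).log (by simp only [id]; linarith)
    have e4 : HasDerivAt (fun t : ℝ => Real.log (1 - t)) ((-1) / (1 - y)) y :=
      ((hasDerivAt_id y).const_sub 1).log (by simp only [id]; linarith)
    exact ((e3.sub e4).const_mul 2).sub e2
  have hmono : MonotoneOn (fun t : ℝ => 2 * (Real.log (1 + t) - Real.log (1 - t)) - (h t).re)
      (Ico 0 1) := by
    apply monotoneOn_of_deriv_nonneg (convex_Ico 0 1)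
    · exact fun y hy => (hd y hy.1 hy.2).continuousAt.continuousWithinAt
    · intro y hy
      rw [interior_Ico] at hy
      exact (hd y hy.1.le hy.2).differentiableAt.differentiableWithinAt
    · intro y hy
      rw [interior_Ico] at hy
      rw [(hd y hy.1.le hy.2).deriv]
      have h1 := hh.deriv_le (hmem y hy.1.le hy.2)
      rw [Complex.norm_real, Real.norm_eq_abs, sq_abs] at h1
      have h2 : (deriv h y).re ≤ ‖deriv h y‖ := Complex.re_le_norm _
      have h3 : 0 < 1 - y ^ 2 := by nlinarith [hy.1, hy.2]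
      have h4 : ‖deriv h y‖ ≤ 4 / (1 - y ^ 2) := by
        rw [le_div_iff₀ h3]
        linarith
      have h5 : 2 * (1 / (1 + y) - (-1) / (1 - y)) = 4 / (1 - y ^ 2) := by
        have h6 : (1 + y) ≠ 0 := by linarith [hy.1]
        have h7 : (1 - y) ≠ 0 := by linarith [hy.2]
        have h8 : 1 - y ^ 2 = (1 + y) * (1 - y) := by ring
        rw [h8]
        field_simp
        ring
      linarith
  have h1 := hmono (left_mem_Ico.2 one_pos) (⟨hx0, hx1⟩ : x ∈ Ico (0 : ℝ) 1) hx0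
  simp only [add_zero, sub_zero, Real.log_one, Complex.ofReal_zero, hh.zero, Complex.zero_re,
    mul_zero, sub_self] at h1
  rw [Real.log_div (by linarith) (by linarith)]
  linarith

theorem h0f_shift {r : ℝ} (hr0 : 0 ≤ r) (hr1 : r < 1) {ζ : ℂ} (hζ : ‖ζ‖ < 1) :
    h0f ((ζ + r) / (1 + r * ζ)) - h0f r = h0f ζ := by
  have hrn : ‖(r : ℂ)‖ < 1 := by
    rwa [Complex.norm_real, Real.norm_eq_abs, abs_of_nonneg hr0]
  have hne : 1 + (r : ℂ) * ζ ≠ 0 := by
    have := sh_ne hrn hζ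
    rwa [Complex.conj_ofReal] at this
  have h1 : (1 : ℂ) - ζ ≠ 0 := by
    intro h
    have h2 : ζ = 1 := by linear_combination -h
    rw [h2, norm_one] at hζ
    exact lt_irrefl _ hζ
  have h2 : (1 : ℂ) + ζ ≠ 0 := by
    intro h
    have h2 : ζ = -1 := by linear_combination h
    rw [h2, norm_neg, norm_one] at hζ
    exact lt_irrefl _ hζ
  have h3 : (1 : ℂ) - (r : ℂ) ≠ 0 := by
    have : (1 : ℝ) - r ≠ 0 := by linarith
    exact_mod_cast this
  have hpos : 0 < (1 + r) / (1 - r) := div_pos (by linarith) (by linarith)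
  have e1 : (1 + (ζ + r) / (1 + r * ζ)) / (1 - (ζ + r) / (1 + r * ζ)) =
      (((1 + r) / (1 - r) : ℝ) : ℂ) * ((1 + ζ) / (1 - ζ)) := by
    have e2 : 1 + (ζ + r) / (1 + r * ζ) = (1 + r) * (1 + ζ) / (1 + r * ζ) := by
      rw [eq_div_iff hne, add_mul, div_mul_cancel₀ _ hne]
      ring
    have e3 : 1 - (ζ + r) / (1 + r * ζ) = (1 - r) * (1 - ζ) / (1 + r * ζ) := by
      rw [eq_div_iff hne, sub_mul, div_mul_cancel₀ _ hne]
      ring
    rw [e2, e3]
    push_cast
    field_simp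
  have e4 : (1 + (r : ℂ)) / (1 - r) = (((1 + r) / (1 - r) : ℝ) : ℂ) := by push_cast; ring
  unfold h0f
  rw [e1, e4, Complex.log_ofReal_mul hpos (div_ne_zero h2 h1), Complex.ofReal_log hpos.le]
  ring

theorem HCls.cseq {h : ℂ → ℂ} (hh : HCls h) {δ : ℝ} (h1 : tc h 1 = ((4 - δ : ℝ) : ℂ))
    (h0 : 0 ≤ δ) (h4 : δ ≤ 4) : CSeq (tc h) δ :=
  ⟨fun _ hk => tc_le hh hk, h1, h0, h4, fun _ hk φ => s_ineq hh hk φ⟩

end MP4a1962
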