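import Pool.Agent.Lib.MP_4a1962_an.CTf
import Pool.Agent.Lib.MP_4a1962_an.Shift

/-!
# CLip: Lipschitz bound on the circle

`U θ = Re h (r e^{iθ})` has derivative `Re (i r e^{iθ} h'(r e^{iθ}))` (`HasDerivAt.comp`, `hasDerivAt_circleMap`),
absolute value `≤ r |h'| ≤ 4 r/(1-r²) = 4 κ` (`HCls.deriv_le`). Mean value inequality
(`Convex.norm_image_sub_le_of_norm_hasDerivWithin_le` or `norm_image_sub_le_of_norm_deriv_le...`).
-/

set_option autoImplicit false

open MeasureTheory Set Filter Topology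
open scoped Real ENNReal NNReal

namespace MP4a1962

theorem lip_circ {h : ℂ → ℂ} (hh : HCls h) {r : ℝ} (hr0 : 0 < r) (hr1 : r < 1) (a b : ℝ) :
    |(h (circleMap 0 r a)).re - (h (circleMap 0 r b)).re| ≤ 4 * kap r * |a - b| := by
  have hn : ∀ θ : ℝ, ‖circleMap 0 r θ‖ = r := by
    intro θ
    rw [norm_circleMap_zero, abs_of_pos hr0]
  have hd : ∀ θ : ℝ, HasDerivAt (fun θ : ℝ => h (circleMap 0 r θ))
      (deriv h (circleMap 0 r θ) * (circleMap 0 r θ * Complex.I)) θ := by
    intro θ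
    have hz : circleMap 0 r θ ∈ Metric.ball (0 : ℂ) 1 := by
      rw [mem_ball_zero_iff, hn]
      exact hr1
    have h1 : HasDerivAt h (deriv h (circleMap 0 r θ)) (circleMap 0 r θ) :=
      ((hh.diff _ hz).differentiableAt (Metric.isOpen_ball.mem_nhds hz)).hasDerivAt
    have h2 := hasDerivAt_circleMap 0 r θ
    exact HasDerivAt.scomp_of_eq θ h1 h2 rfl |>.congr_deriv (by simp [mul_comm])
  have hb : ∀ θ : ℝ, ‖deriv h (circleMap 0 r θ) * (circleMap 0 r θ * Complex.I)‖ ≤ 4 * kap r := by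
    intro θ
    rw [norm_mul, norm_mul, Complex.norm_I, mul_one, hn]
    have h3 := hh.deriv_le (a := circleMap 0 r θ) (by rw [hn]; exact hr1)
    rw [hn] at h3
    have h4 : 0 < 1 - r ^ 2 := by nlinarith
    unfold kap
    rw [mul_div_assoc', le_div_iff₀ h4]
    nlinarith [mul_le_mul_of_nonneg_left h3 hr0.le]
  have h5 := Convex.norm_image_sub_le_of_norm_hasDerivWithin_le (s := univ)
    (fun x _ => (hd x).hasDerivWithinAt) (fun x _ => hb x) convex_univ (mem_univ b) (mem_univ a)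
  rw [Real.norm_eq_abs] at h5
  refine le_trans ?_ h5
  rw [← Complex.sub_re]
  exact Complex.abs_re_le_norm _

end MP4a1962
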