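import Pool.Agent.Lib.MP_4a1962_an.Defs

/-!
# CircF: Fourier coefficients of an analytic function on a circle

* `circle_fourier`: `∫_{-π}^{π} Re h(r e^{i(φ+θ)}) cos (kθ) dθ = π r^k Re (e^{ikφ} tc h k)` (`k ≥ 1`):
  Taylor series of `h` on the disc (uniformly convergent on the circle) and orthogonality; or from the
  Cauchy formula for `iteratedDeriv` (`circleIntegral`) and `∫ h(r e^{iθ}) e^{ikθ} dθ = 0` for `k ≥ 1`.
* `circle_mean`: mean value property.
-/

set_option autoImplicit false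

open MeasureTheory Set Filter Topology
open scoped Real ENNReal NNReal

namespace MP4a1962

private theorem diff_closed {h : ℂ → ℂ} (hh : DifferentiableOn ℂ h (Metric.ball 0 1)) {r : ℝ}
    (hr1 : r < 1) : DifferentiableOn ℂ h (Metric.closedBall 0 r) :=
  hh.mono (Metric.closedBall_subset_ball hr1)

private theorem circle_cont {h : ℂ → ℂ} (hh : DifferentiableOn ℂ h (Metric.ball 0 1)) {r : ℝ}
    (hr0 : 0 < r) (hr1 : r < 1) : Continuous (fun θ : ℝ => h (circleMap 0 r θ)) := by
  have h1 : ContinuousOn h (Metric.closedBall 0 r) := (diff_closed hh hr1).continuousOn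
  exact h1.comp_continuous (continuous_circleMap 0 r)
    (fun θ => circleMap_mem_closedBall 0 hr0.le θ)

private theorem circleMap_eq (r θ : ℝ) :
    circleMap 0 r θ = (r : ℂ) * Complex.exp (θ * Complex.I) := by
  simp [circleMap]

/-- the Fourier coefficients of index `-k`, `k ≥ 0` -/
private theorem neg_coeff {h : ℂ → ℂ} (hh : DifferentiableOn ℂ h (Metric.ball 0 1)) {r : ℝ}
    (hr0 : 0 < r) (hr1 : r < 1) (k : ℕ) :
    ∫ θ in (0 : ℝ)..(2 * π), h (circleMap 0 r θ) * Complex.exp (-(k * θ * Complex.I)) =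
      2 * π * (r : ℂ) ^ k * tc h k := by
  have hC := DifferentiableOn.circleIntegral_one_div_sub_center_pow_smul hr0 k
    (diff_closed hh hr1)
  rw [circleIntegral] at hC
  have hr0' : (r : ℂ) ≠ 0 := by exact_mod_cast hr0.ne'
  have e : ∀ θ : ℝ, deriv (circleMap 0 r) θ •
      ((1 / (circleMap 0 r θ - 0) ^ (k + 1)) • h (circleMap 0 r θ)) =
      (Complex.I * ((r : ℂ) ^ k)⁻¹) *
        (h (circleMap 0 r θ) * Complex.exp (-(k * θ * Complex.I))) := by
    intro θ
    rw [deriv_circleMap, sub_zero, smul_eq_mul, smul_eq_mul, circleMap_eq]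
    have h1 : Complex.exp (-(k * θ * Complex.I)) = (Complex.exp (θ * Complex.I) ^ k)⁻¹ := by
      rw [← Complex.exp_nat_mul, ← Complex.exp_neg]
      congr 1
      ring
    have h2 : Complex.exp (θ * Complex.I) ≠ 0 := Complex.exp_ne_zero _
    rw [h1, mul_pow, pow_succ, pow_succ]
    field_simp
  simp_rw [e] at hC
  rw [intervalIntegral.integral_const_mul, smul_eq_mul] at hC
  have h3 : (Complex.I * ((r : ℂ) ^ k)⁻¹) ≠ 0 :=
    mul_ne_zero Complex.I_ne_zero (inv_ne_zero (pow_ne_zero _ hr0'))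
  apply mul_left_cancel₀ h3
  rw [hC, tc]
  have h4 : (r : ℂ) ^ k ≠ 0 := pow_ne_zero _ hr0'
  field_simp

/-- the Fourier coefficients of index `k`, `k ≥ 1` -/
private theorem pos_coeff {h : ℂ → ℂ} (hh : DifferentiableOn ℂ h (Metric.ball 0 1)) {r : ℝ}
    (hr0 : 0 < r) (hr1 : r < 1) {k : ℕ} (hk : 1 ≤ k) :
    ∫ θ in (0 : ℝ)..(2 * π), h (circleMap 0 r θ) * Complex.exp (k * θ * Complex.I) = 0 := by
  obtain ⟨m, rfl⟩ : ∃ m, k = m + 1 := ⟨k - 1, by omega⟩
  have hd : DifferentiableOn ℂ (fun z => z ^ m * h z) (Metric.closedBall 0 r) :=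
    (differentiableOn_id.pow m).mul (diff_closed hh hr1)
  have hC := (hd.mono Metric.closure_ball_subset_closedBall).diffContOnCl.circleIntegral_eq_zero
    hr0.le
  rw [circleIntegral] at hC
  have hr0' : (r : ℂ) ≠ 0 := by exact_mod_cast hr0.ne'
  have e : ∀ θ : ℝ, deriv (circleMap 0 r) θ • ((circleMap 0 r θ) ^ m * h (circleMap 0 r θ)) =
      (Complex.I * (r : ℂ) ^ (m + 1)) *
        (h (circleMap 0 r θ) * Complex.exp ((m + 1 : ℕ) * θ * Complex.I)) := by
    intro θ
    rw [deriv_circleMap, smul_eq_mul, circleMap_eq]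
    have h1 : Complex.exp ((m + 1 : ℕ) * θ * Complex.I) = Complex.exp (θ * Complex.I) ^ (m + 1) := by
      rw [← Complex.exp_nat_mul]
      congr 1
      ring
    rw [h1]
    ring
  simp_rw [e] at hC
  rw [intervalIntegral.integral_const_mul] at hC
  have h3 : (Complex.I * (r : ℂ) ^ (m + 1)) ≠ 0 :=
    mul_ne_zero Complex.I_ne_zero (pow_ne_zero _ hr0')
  exact (mul_eq_zero.1 hC).resolve_left h3

private theorem shift {G : ℝ → ℂ} (hG : Function.Periodic G (2 * π)) (φ : ℝ) :
    ∫ θ in (-π)..π, G (φ + θ) = ∫ θ in (0 : ℝ)..(2 * π), G θ := by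
  rw [intervalIntegral.integral_comp_add_left G φ]
  have h := hG.intervalIntegral_add_eq (φ + -π) 0
  rw [zero_add] at h
  rw [← h]
  congr 1
  ring

private theorem per_aux (h : ℂ → ℂ) (r : ℝ) (m : ℤ) : Function.Periodic
    (fun θ : ℝ => h (circleMap 0 r θ) * Complex.exp (m * θ * Complex.I)) (2 * π) := by
  intro θ
  simp only
  rw [periodic_circleMap 0 r θ]
  congr 1
  rw [Complex.exp_eq_exp_iff_exists_int]
  refine ⟨m, ?_⟩
  push_cast
  ring

private theorem shifted {h : ℂ → ℂ} {r : ℝ} (m : ℤ) (φ : ℝ) :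
    ∫ θ in (-π)..π, h (circleMap 0 r (φ + θ)) * Complex.exp (m * θ * Complex.I) =
      Complex.exp (-(m * φ * Complex.I)) *
        ∫ θ in (0 : ℝ)..(2 * π), h (circleMap 0 r θ) * Complex.exp (m * θ * Complex.I) := by
  rw [← shift (per_aux h r m) φ, ← intervalIntegral.integral_const_mul]
  congr 1
  funext θ
  have e : Complex.exp (m * θ * Complex.I) =
      Complex.exp (-(m * φ * Complex.I)) * Complex.exp (m * ((φ + θ : ℝ) : ℂ) * Complex.I) := by
    rw [← Complex.exp_add]
    congr 1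
    push_cast
    ring
  rw [e]
  ring

theorem circle_fourier {h : ℂ → ℂ} (hh : DifferentiableOn ℂ h (Metric.ball 0 1)) {r : ℝ}
    (hr0 : 0 < r) (hr1 : r < 1) {k : ℕ} (hk : 1 ≤ k) (φ : ℝ) :
    ∫ θ in (-π)..π, (h (circleMap 0 r (φ + θ))).re * Real.cos (k * θ) =
      π * r ^ k * (Complex.exp (k * φ * Complex.I) * tc h k).re := by
  have hcont : Continuous (fun θ : ℝ => h (circleMap 0 r (φ + θ))) :=
    (circle_cont hh hr0 hr1).comp (by fun_prop)
  have h1 := shifted (h := h) (r := r) (k : ℤ) φ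
  have h2 := shifted (h := h) (r := r) (-(k : ℤ)) φ
  have h3 := pos_coeff hh hr0 hr1 hk
  have h4 := neg_coeff hh hr0 hr1 k
  push_cast at h1 h2
  rw [h3, mul_zero] at h1
  have e4 : ∀ θ : ℝ, Complex.exp (-(k : ℂ) * θ * Complex.I) = Complex.exp (-(k * θ * Complex.I)) := by
    intro θ
    congr 1
    ring
  simp_rw [e4] at h2
  rw [h4] at h2
  have e5 : Complex.exp (-(-(k : ℂ) * φ * Complex.I)) = Complex.exp (k * φ * Complex.I) := by
    congr 1
    ring
  rw [e5] at h2
  -- the complex integral against the cosine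
  have hcos : ∫ θ in (-π)..π, h (circleMap 0 r (φ + θ)) * (Real.cos (k * θ) : ℂ) =
      π * (r : ℂ) ^ k * (Complex.exp (k * φ * Complex.I) * tc h k) := by
    have e6 : ∀ θ : ℝ, h (circleMap 0 r (φ + θ)) * (Real.cos (k * θ) : ℂ) =
        (1 / 2 : ℂ) * (h (circleMap 0 r (φ + θ)) * Complex.exp (k * θ * Complex.I) +
          h (circleMap 0 r (φ + θ)) * Complex.exp (-(k * θ * Complex.I))) := by
      intro θ
      rw [Complex.ofReal_cos, Complex.cos]
      push_cast
      ring_nf
    simp_rw [e6]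
    rw [intervalIntegral.integral_const_mul, intervalIntegral.integral_add, h1, h2]
    · ring
    · apply Continuous.intervalIntegrable
      exact hcont.mul (by fun_prop)
    · apply Continuous.intervalIntegrable
      exact hcont.mul (by fun_prop)
  have hre : ∫ θ in (-π)..π, (h (circleMap 0 r (φ + θ))).re * Real.cos (k * θ) =
      (∫ θ in (-π)..π, h (circleMap 0 r (φ + θ)) * (Real.cos (k * θ) : ℂ)).re := by
    have hint : IntervalIntegrable
        (fun θ : ℝ => h (circleMap 0 r (φ + θ)) * (Real.cos (k * θ) : ℂ)) volume (-π) π := by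
      apply Continuous.intervalIntegrable
      exact hcont.mul (Complex.continuous_ofReal.comp (by fun_prop))
    have h7 := Complex.reCLM.intervalIntegral_comp_comm hint
    simp only [Complex.reCLM_apply] at h7
    rw [← h7]
    congr 1
    funext θ
    rw [Complex.re_mul_ofReal]
  rw [hre, hcos]
  have e8 : (π : ℂ) * (r : ℂ) ^ k * (Complex.exp (k * φ * Complex.I) * tc h k) =
      ((π * r ^ k : ℝ) : ℂ) * (Complex.exp (k * φ * Complex.I) * tc h k) := by
    push_cast
    ring
  rw [e8, Complex.re_ofReal_mul]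

theorem circle_mean {h : ℂ → ℂ} (hh : DifferentiableOn ℂ h (Metric.ball 0 1)) {r : ℝ}
    (hr0 : 0 < r) (hr1 : r < 1) : ∫ θ in (-π)..π, (h (circleMap 0 r θ)).re = 2 * π * (h 0).re := by
  have h4 := neg_coeff hh hr0 hr1 0
  have h2 := shifted (h := h) (r := r) 0 0
  simp only [Nat.cast_zero, zero_mul, neg_zero, Complex.exp_zero, mul_one, pow_zero, Int.cast_zero,
    zero_add, one_mul] at h4 h2
  rw [h4] at h2
  have ht : tc h 0 = h 0 := by simp [tc]
  rw [ht] at h2
  have hint : IntervalIntegrable (fun θ : ℝ => h (circleMap 0 r θ)) volume (-π) π :=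
    (circle_cont hh hr0 hr1).intervalIntegrable _ _
  have h7 := Complex.reCLM.intervalIntegral_comp_comm hint
  simp only [Complex.reCLM_apply] at h7
  rw [h7, h2]
  have e8 : 2 * (π : ℂ) * h 0 = ((2 * π : ℝ) : ℂ) * h 0 := by push_cast; ring
  rw [e8, Complex.re_ofReal_mul]

end MP4a1962
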