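import Pool.Agent.Lib.MP_4a1962_an.SameR
import Pool.Agent.Lib.MP_4a1962_an.CircF

/-!
# ExpMean: positive parts and exponential means

`pos_mean`: `max 0 (x - u) = (|x - u| + (x - u))/2`, and both `Re h`, `Re h0f` have mean zero on the
circle (`circle_mean`), so the claim is `same_r`.
`exp_mean`: for `|x| ≤ B`: `e^{qx} = e^{-qB} + q e^{-qB} (x + B) + ∫ u in (-B)..B, q² e^{qu} max 0 (x - u)`
(Taylor formula with integral remainder at `-B`); choose `B` bounding both `Re h` and `Re h0f` on the
circle of radius `r` (compactness), integrate over `θ`, Fubini (continuous integrands), `pos_mean`, and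
mean zero for the linear term.
-/

set_option autoImplicit false

open MeasureTheory Set Filter Topology
open scoped Real ENNReal NNReal

namespace MP4a1962

private theorem em_cont {h : ℂ → ℂ} (hh : DifferentiableOn ℂ h (Metric.ball 0 1)) {r : ℝ}
    (hr0 : 0 < r) (hr1 : r < 1) : Continuous (fun θ : ℝ => (h (circleMap 0 r θ)).re) := by
  refine Complex.continuous_re.comp ?_
  refine hh.continuousOn.comp_continuous (continuous_circleMap 0 r) fun θ => ?_
  rw [mem_ball_zero_iff, norm_circleMap_zero, abs_of_pos hr0]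
  exact hr1

private theorem em_h0_diff : DifferentiableOn ℂ h0f (Metric.ball 0 1) := h0_diff

private theorem em_h0_zero : h0f 0 = 0 := by simp [h0f]

private theorem em_max (x u : ℝ) : max 0 (x - u) = (|x - u| + (x - u)) / 2 := by
  rcases le_total 0 (x - u) with h | h
  · rw [max_eq_right h, abs_of_nonneg h]; ring
  · rw [max_eq_left h, abs_of_nonpos h]; ring

private theorem em_pos {f : ℝ → ℝ} (hf : Continuous f) (h0 : ∫ θ in (-π)..π, f θ = 0) (u : ℝ) :
    ∫ θ in (-π)..π, max 0 (f θ - u) = ((∫ θ in (-π)..π, |f θ - u|) - 2 * π * u) / 2 := by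
  have e : ∀ θ, max 0 (f θ - u) = (1 / 2) * |f θ - u| + (1 / 2) * (f θ) - (1 / 2) * u := by
    intro θ
    rw [em_max]; ring
  simp_rw [e]
  have i1 : IntervalIntegrable (fun θ => (1 / 2) * |f θ - u|) volume (-π) π :=
    Continuous.intervalIntegrable (by fun_prop) _ _
  have i2 : IntervalIntegrable (fun θ => (1 / 2) * f θ) volume (-π) π :=
    Continuous.intervalIntegrable (by fun_prop) _ _
  rw [intervalIntegral.integral_sub (i1.add i2) intervalIntegrable_const,
    intervalIntegral.integral_add i1 i2, intervalIntegral.integral_const_mul,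
    intervalIntegral.integral_const_mul, h0, intervalIntegral.integral_const, smul_eq_mul]
  ring

theorem pos_mean {h : ℂ → ℂ} (hh : HCls h) {r : ℝ} (hr0 : 0 < r) (hr1 : r < 1) (u : ℝ) :
    ∫ θ in (-π)..π, max 0 ((h (circleMap 0 r θ)).re - u) ≤
      ∫ θ in (-π)..π, max 0 ((h0f (circleMap 0 r θ)).re - u) := by
  have h1 : ∫ θ in (-π)..π, (h (circleMap 0 r θ)).re = 0 := by
    rw [circle_mean hh.diff hr0 hr1, hh.zero]; simp
  have h2 : ∫ θ in (-π)..π, (h0f (circleMap 0 r θ)).re = 0 := by
    rw [circle_mean em_h0_diff hr0 hr1, em_h0_zero]; simp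
  rw [em_pos (em_cont hh.diff hr0 hr1) h1 u, em_pos (em_cont em_h0_diff hr0 hr1) h2 u]
  have := same_r hh hr0 hr1 u
  linarith

private theorem em_taylor {q x B : ℝ} (h1 : -B ≤ x) (h2 : x ≤ B) :
    Real.exp (q * x) = Real.exp (-(q * B)) + q * Real.exp (-(q * B)) * (x + B) +
      ∫ u in (-B)..B, q ^ 2 * Real.exp (q * u) * max 0 (x - u) := by
  have c1 : Continuous (fun u : ℝ => q ^ 2 * Real.exp (q * u) * max 0 (x - u)) := by fun_prop
  rw [← intervalIntegral.integral_add_adjacent_intervals (c1.intervalIntegrable (-B) x)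
    (c1.intervalIntegrable x B)]
  have e2 : ∫ u in x..B, q ^ 2 * Real.exp (q * u) * max 0 (x - u) = 0 := by
    rw [intervalIntegral.integral_congr (g := fun _ => (0 : ℝ))]
    · simp
    · intro u hu
      rw [uIcc_of_le h2] at hu
      simp only
      rw [max_eq_left (by linarith [hu.1]), mul_zero]
  have e1 : ∫ u in (-B)..x, q ^ 2 * Real.exp (q * u) * max 0 (x - u) =
      ∫ u in (-B)..x, q ^ 2 * Real.exp (q * u) * (x - u) := by
    apply intervalIntegral.integral_congr
    intro u hu
    rw [uIcc_of_le h1] at hu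
    simp only
    rw [max_eq_right (by linarith [hu.2])]
  have e3 : ∫ u in (-B)..x, q ^ 2 * Real.exp (q * u) * (x - u) =
      (q * Real.exp (q * x) * (x - x) + Real.exp (q * x)) -
        (q * Real.exp (q * (-B)) * (x - (-B)) + Real.exp (q * (-B))) := by
    have hd : ∀ u ∈ uIcc (-B) x, HasDerivAt
        (fun u : ℝ => q * Real.exp (q * u) * (x - u) + Real.exp (q * u))
        (q ^ 2 * Real.exp (q * u) * (x - u)) u := by
      intro u _
      have d1 : HasDerivAt (fun u : ℝ => Real.exp (q * u)) (Real.exp (q * u) * q) u := by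
        have := (hasDerivAt_id u).const_mul q
        simpa using this.exp
      have d2 : HasDerivAt (fun u : ℝ => x - u) (-1) u := by
        simpa using (hasDerivAt_id u).const_sub x
      have d3 := ((d1.const_mul q).mul d2).add d1
      refine d3.congr_deriv ?_
      ring
    rw [intervalIntegral.integral_eq_sub_of_hasDerivAt hd]
    exact Continuous.intervalIntegrable (by fun_prop) _ _
  rw [e1, e2, e3]
  have e4 : q * (-B) = -(q * B) := by ring
  rw [e4]
  ring

private theorem em_int {f : ℝ → ℝ} (hf : Continuous f) (h0 : ∫ θ in (-π)..π, f θ = 0) {q B : ℝ}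
    (hB : ∀ θ, |f θ| ≤ B) :
    ∫ θ in (-π)..π, Real.exp (q * f θ) =
      2 * π * (Real.exp (-(q * B)) + q * Real.exp (-(q * B)) * B) +
      ∫ u in (-B)..B, q ^ 2 * Real.exp (q * u) * ∫ θ in (-π)..π, max 0 (f θ - u) := by
  have e : ∀ θ, Real.exp (q * f θ) = (q * Real.exp (-(q * B))) * f θ +
      (Real.exp (-(q * B)) + q * Real.exp (-(q * B)) * B) +
      ∫ u in (-B)..B, q ^ 2 * Real.exp (q * u) * max 0 (f θ - u) := by
    intro θ
    have := abs_le.1 (hB θ)
    rw [em_taylor (q := q) this.1 this.2]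
    ring
  simp_rw [e]
  have c0 : Continuous (fun p : ℝ × ℝ => q ^ 2 * Real.exp (q * p.2) * max 0 (f p.1 - p.2)) := by
    fun_prop
  have c1 : Continuous (fun θ => ∫ u in (-B)..B, q ^ 2 * Real.exp (q * u) * max 0 (f θ - u)) :=
    intervalIntegral.continuous_parametric_intervalIntegral_of_continuous' (by exact c0) _ _
  have i1 : IntervalIntegrable (fun θ => (q * Real.exp (-(q * B))) * f θ) volume (-π) π :=
    Continuous.intervalIntegrable (by fun_prop) _ _
  rw [intervalIntegral.integral_add (i1.add intervalIntegrable_const) (c1.intervalIntegrable _ _),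
    intervalIntegral.integral_add i1 intervalIntegrable_const,
    intervalIntegral.integral_const_mul, h0, intervalIntegral.integral_const, smul_eq_mul,
    intervalIntegral_intervalIntegral_swap]
  · simp_rw [intervalIntegral.integral_const_mul]
    ring
  · have hc : IsCompact (uIcc (-π) π ×ˢ uIcc (-B) B) := isCompact_uIcc.prod isCompact_uIcc
    exact (c0.continuousOn.integrableOn_compact hc).mono_set
      (Set.prod_mono uIoc_subset_uIcc uIoc_subset_uIcc)

private theorem em_bdd {h : ℂ → ℂ} (hh : DifferentiableOn ℂ h (Metric.ball 0 1)) {r : ℝ}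
    (hr0 : 0 < r) (hr1 : r < 1) : ∃ B : ℝ, ∀ θ : ℝ, |(h (circleMap 0 r θ)).re| ≤ B := by
  have h1 : ContinuousOn h (Metric.closedBall 0 r) :=
    (hh.mono (Metric.closedBall_subset_ball hr1)).continuousOn
  obtain ⟨B, hB⟩ := (isCompact_closedBall (0 : ℂ) r).exists_bound_of_continuousOn h1
  exact ⟨B, fun θ => (Complex.abs_re_le_norm _).trans
    (hB _ (circleMap_mem_closedBall 0 hr0.le θ))⟩

theorem exp_mean {h : ℂ → ℂ} (hh : HCls h) {r : ℝ} (hr0 : 0 < r) (hr1 : r < 1) {q : ℝ}
    (hq : 0 ≤ q) :
    ∫ θ in (-π)..π, Real.exp (q * (h (circleMap 0 r θ)).re) ≤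
      ∫ θ in (-π)..π, Real.exp (q * (h0f (circleMap 0 r θ)).re) := by
  have h1 : ∫ θ in (-π)..π, (h (circleMap 0 r θ)).re = 0 := by
    rw [circle_mean hh.diff hr0 hr1, hh.zero]; simp
  have h2 : ∫ θ in (-π)..π, (h0f (circleMap 0 r θ)).re = 0 := by
    rw [circle_mean em_h0_diff hr0 hr1, em_h0_zero]; simp
  obtain ⟨B1, hB1⟩ := em_bdd hh.diff hr0 hr1
  obtain ⟨B2, hB2⟩ := em_bdd em_h0_diff hr0 hr1
  set B := max B1 B2 with hBdef
  have hB1' : ∀ θ : ℝ, |(h (circleMap 0 r θ)).re| ≤ B := fun θ => (hB1 θ).trans (le_max_left _ _)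
  have hB2' : ∀ θ : ℝ, |(h0f (circleMap 0 r θ)).re| ≤ B :=
    fun θ => (hB2 θ).trans (le_max_right _ _)
  have hB0 : 0 ≤ B := (abs_nonneg _).trans (hB1' 0)
  have k1 := em_cont hh.diff hr0 hr1
  have k2 := em_cont em_h0_diff hr0 hr1
  rw [em_int k1 h1 (q := q) hB1', em_int k2 h2 (q := q) hB2']
  have c1 : Continuous (fun u => ∫ θ in (-π)..π, max 0 ((h (circleMap 0 r θ)).re - u)) :=
    intervalIntegral.continuous_parametric_intervalIntegral_of_continuous'
      (f := fun u θ => max 0 ((h (circleMap 0 r θ)).re - u))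
      (by
        have : Continuous (fun p : ℝ × ℝ => (h (circleMap 0 r p.2)).re) := k1.comp continuous_snd
        exact continuous_const.max (this.sub continuous_fst)) _ _
  have c2 : Continuous (fun u => ∫ θ in (-π)..π, max 0 ((h0f (circleMap 0 r θ)).re - u)) :=
    intervalIntegral.continuous_parametric_intervalIntegral_of_continuous'
      (f := fun u θ => max 0 ((h0f (circleMap 0 r θ)).re - u))
      (by
        have : Continuous (fun p : ℝ × ℝ => (h0f (circleMap 0 r p.2)).re) :=
          k2.comp continuous_snd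
        exact continuous_const.max (this.sub continuous_fst)) _ _
  have e1 : Continuous (fun u : ℝ => q ^ 2 * Real.exp (q * u)) := by fun_prop
  have := intervalIntegral.integral_mono_on (μ := volume) (a := -B) (b := B) (by linarith)
    ((e1.mul c1).intervalIntegrable _ _) ((e1.mul c2).intervalIntegrable _ _) (fun u _ =>
      mul_le_mul_of_nonneg_left (pos_mean hh hr0 hr1 u) (by positivity))
  simp only [Pi.mul_apply] at this
  linarith

end MP4a1962
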