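import Pool.Agent.Lib.MP_4a1962_an.CFarPure
import Pool.Agent.Lib.MP_4a1962_an.CLip
import Pool.Agent.Lib.MP_4a1962_an.CX
import Pool.Agent.Lib.MP_4a1962_an.CG0
import Pool.Agent.Lib.MP_4a1962_an.ExpMean

/-!
# CFar: pointwise bound far from the saddle point

`exists_Tf` gives `θ₁ ∈ (0, π/3]` with `Tf r θ₁ = T₁`. Apply `far_pure` with `U θ = Re h z`, `U₀ θ = Re h0f z`,
`c = U₀ θ₁ ≤ Mr - log T₁` (`re_h0f_le_T`), `κ = kap r` (`κ² > 3/4`), `hm` = `pos_mean`, `hL` = `lip_circ`,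
`hin'`, `hout` = `re_h0f_anti` with `Xr_mono`, `hin` = `hI θ₁` with
`D = 2 θ₁ (d + 16 ε X₁ T₁³)`, `X₁ = Xr r θ₁ = √(T₁-1) ≤ √T₁`.
`16 κ D < 1`: `κ θ₁ ≤ (π/2) X₁ ≤ (π/2) √T₁` (`Xr_ge`), so `16 κ D = 32 κ θ₁ (d + 16 ε X₁ T₁³)
≤ 51 √T₁ (d + 640 d √T₁ T₁³) ≤ 51 · 641 d T₁⁴ < 1` (`T₁ ≥ 1`, `d T₁⁴ ≤ 10⁻⁸`).
For `T₁ < Tf r θ`, `|θ| ≤ π`: `θ₁ ≤ |θ|` (`Tf_lt_imp`).
-/

set_option autoImplicit false

open MeasureTheory Set Filter Topology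
open scoped Real ENNReal NNReal

namespace MP4a1962

theorem far_sup {h : ℂ → ℂ} {r ε d T₁ : ℝ} (hh : HCls h) (hr0 : 0 < r) (hr1 : r < 1)
    (he : 0 ≤ ε) (hed : ε ≤ 40 * d)
    (hI : ∀ θ₁ : ℝ, 0 < θ₁ → θ₁ ≤ π → ∫ θ in (-θ₁)..θ₁,
      ((h0f (circleMap 0 r θ)).re - (h (circleMap 0 r θ)).re) ≤
        2 * θ₁ * (d + 16 * ε * Xr r θ₁ * Tf r θ₁ ^ 3))
    (h1 : 1 < T₁) (h4 : 4 * T₁ < 1 + 4 * kap r ^ 2) (hd : d * T₁ ^ 4 ≤ 1 / 10 ^ 8) {θ : ℝ}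
    (hθ : |θ| ≤ π) (hT : T₁ < Tf r θ) :
    (h (circleMap 0 r θ)).re ≤ Mr r - Real.log T₁ + 1 := by
  obtain ⟨θ₁, hθ₁, hθ₁', hT₁⟩ := exists_Tf hr0 hr1 h1 h4
  have hπ : 0 < π := Real.pi_pos
  have hπ4 : π < 3.15 := Real.pi_lt_d2
  have hκ : 0 < kap r := kap_pos hr0 hr1
  have habs : |θ₁| = θ₁ := abs_of_pos hθ₁
  have hθ₁π : θ₁ ≤ π := by linarith
  have hκ2 : 1 / 2 ≤ kap r := by nlinarith
  have hd0 : 0 ≤ d := by linarith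
  have hX0 : 0 ≤ Xr r θ₁ := Xr_nonneg hr0 hr1 θ₁
  have hX2 : Xr r θ₁ ^ 2 = T₁ - 1 := by
    unfold Tf at hT₁
    linarith
  have hXT : Xr r θ₁ ≤ T₁ := by nlinarith
  have hXge := Xr_ge hr0 hr1 (θ := θ₁) (by rw [habs]; exact hθ₁π)
  rw [habs] at hXge
  have hκθ : kap r * θ₁ ≤ π / 2 * Xr r θ₁ := by
    have e : kap r * θ₁ = π / 2 * (2 / π * kap r * θ₁) := by field_simp
    rw [e]
    exact mul_le_mul_of_nonneg_left hXge (by positivity)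
  have hlt : θ₁ < |θ| := by
    have := Tf_lt_imp hr0 hr1 (θ := θ₁) (θ' := θ) (by rw [hT₁]; exact hT)
      (by rw [habs]; exact hθ₁π)
    rwa [habs] at this
  have hD : 16 * kap r * (2 * θ₁ * (d + 16 * ε * Xr r θ₁ * Tf r θ₁ ^ 3)) < 1 := by
    rw [hT₁]
    have h5 : d + 16 * ε * Xr r θ₁ * T₁ ^ 3 ≤ d * (1 + 640 * Xr r θ₁ * T₁ ^ 3) := by
      have h6 : 0 ≤ Xr r θ₁ * T₁ ^ 3 := by positivity
      nlinarith
    have h7 : 0 ≤ d * (1 + 640 * Xr r θ₁ * T₁ ^ 3) := by positivity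
    have h8 : 0 ≤ kap r * θ₁ := by positivity
    calc 16 * kap r * (2 * θ₁ * (d + 16 * ε * Xr r θ₁ * T₁ ^ 3))
        = 32 * (kap r * θ₁) * (d + 16 * ε * Xr r θ₁ * T₁ ^ 3) := by ring
      _ ≤ 32 * (kap r * θ₁) * (d * (1 + 640 * Xr r θ₁ * T₁ ^ 3)) := by gcongr
      _ ≤ 32 * (π / 2 * Xr r θ₁) * (d * (1 + 640 * Xr r θ₁ * T₁ ^ 3)) := by gcongr
      _ = 16 * π * (d * (Xr r θ₁ + 640 * (Xr r θ₁ ^ 2) * T₁ ^ 3)) := by ring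
      _ ≤ 16 * π * (641 * (d * T₁ ^ 4)) := by
          have h9 : Xr r θ₁ + 640 * (Xr r θ₁ ^ 2) * T₁ ^ 3 ≤ 641 * T₁ ^ 4 := by
            rw [hX2]
            have h10 : T₁ ≤ T₁ ^ 4 := by
              nlinarith [mul_pos (by linarith : (0:ℝ) < T₁) (by linarith : (0:ℝ) < T₁),
                pow_pos (by linarith : (0:ℝ) < T₁) 3, sq_nonneg (T₁ - 1),
                mul_nonneg (by linarith : (0:ℝ) ≤ T₁) (sq_nonneg (T₁ - 1)),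
                mul_nonneg (sq_nonneg T₁) (sq_nonneg (T₁ - 1)),
                mul_nonneg (by linarith : (0:ℝ) ≤ T₁ - 1) (sq_nonneg T₁),
                mul_nonneg (by linarith : (0:ℝ) ≤ T₁ - 1) (by positivity : (0:ℝ) ≤ T₁ ^ 3)]
            have h11 : 0 ≤ T₁ ^ 3 := by positivity
            nlinarith
          have h12 : d * (Xr r θ₁ + 640 * (Xr r θ₁ ^ 2) * T₁ ^ 3) ≤ d * (641 * T₁ ^ 4) :=
            mul_le_mul_of_nonneg_left h9 hd0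
          have h13 : d * (641 * T₁ ^ 4) = 641 * (d * T₁ ^ 4) := by ring
          rw [h13] at h12
          exact mul_le_mul_of_nonneg_left h12 (by positivity)
      _ ≤ 16 * 3.15 * (641 * (1 / 10 ^ 8)) := by
          have h14 : 0 ≤ d * T₁ ^ 4 := by positivity
          gcongr
      _ < 1 := by norm_num
  have hfar := far_pure (U := fun θ => (h (circleMap 0 r θ)).re)
    (U₀ := fun θ => (h0f (circleMap 0 r θ)).re)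
    (Complex.continuous_re.comp (continuous_h_circ hh hr0 hr1))
    (Complex.continuous_re.comp (continuous_h0f_circ hr0 hr1)) (θ₁ := θ₁)
    (c := (h0f (circleMap 0 r θ₁)).re)
    (D := 2 * θ₁ * (d + 16 * ε * Xr r θ₁ * Tf r θ₁ ^ 3)) (κ := kap r) hθ₁ hθ₁' hκ2
    (pos_mean hh hr0 hr1 _) (hI θ₁ hθ₁ hθ₁π)
    (fun φ hφ => re_h0f_anti hr0 hr1 (Xr_mono hr0 hr1 (by rwa [habs]) (by rw [habs]; exact hθ₁π)))
    (fun φ hφ hφ' => re_h0f_anti hr0 hr1 (Xr_mono hr0 hr1 (by rwa [habs]) hφ'))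
    (lip_circ hh hr0 hr1) hD θ hlt.le hθ
  have hc := re_h0f_le_T hr0 hr1 θ₁
  rw [hT₁] at hc
  linarith

end MP4a1962
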