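import Mathlib

/-!
# CTSmall: the far error for `T₁ = d^(-1/4)/100`

`x = d^(1/4)`, `e/T₁ = 100 e x ≤ 300 x`, `(300 x)^(p/2) = ((300 x)^8)^(p/16) = (300^8 d²)^(p/16)`. Let
`m = min 1 c`, `p ≥ A 300^8/m`: `300^8 d ≤ m`, so this is `≤ (m d)^(p/16) ≤ (m d)² ≤ c d²` for `p ≥ 32`.
-/

set_option autoImplicit false

open MeasureTheory Set Filter Topology
open scoped Real ENNReal NNReal

namespace MP4a1962

theorem t1_small2 {A c : ℝ} (hA : 0 < A) (hc : 0 < c) :
    ∃ P : ℝ, 1 ≤ P ∧ ∀ p d : ℝ, P ≤ p → 0 < d → p * d ≤ A →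
      1 < d ^ (-(1 / 4) : ℝ) / 100 ∧
      (Real.exp 1 / (d ^ (-(1 / 4) : ℝ) / 100)) ^ (p / 2) ≤ c * d ^ 2 := by
  set m : ℝ := min 1 c with hm
  have hm0 : 0 < m := lt_min one_pos hc
  have hm1 : m ≤ 1 := min_le_left _ _
  have hmc : m ≤ c := min_le_right _ _
  refine ⟨max 32 (A * 300 ^ 8 / m), le_trans (by norm_num) (le_max_left _ _), ?_⟩
  intro p d hp hd hpd
  have hp32 : 32 ≤ p := le_trans (le_max_left _ _) hp
  have hpA : A * 300 ^ 8 / m ≤ p := le_trans (le_max_right _ _) hp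
  have hp0 : 0 < p := by linarith
  have hd1 : 300 ^ 8 * d ≤ m := by
    rw [div_le_iff₀ hm0] at hpA
    have h1 : A * 300 ^ 8 * d ≤ p * m * d := mul_le_mul_of_nonneg_right hpA hd.le
    have h2 : p * d * m ≤ A * m := mul_le_mul_of_nonneg_right hpd hm0.le
    have h3 : A * (300 ^ 8 * d) ≤ A * m := by
      calc A * (300 ^ 8 * d) = A * 300 ^ 8 * d := by ring
        _ ≤ p * m * d := h1
        _ = p * d * m := by ring
        _ ≤ A * m := h2
    exact le_of_mul_le_mul_left h3 hA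
  have hd2 : (300 : ℝ) ^ 8 * d ≤ 1 := hd1.trans hm1
  have hdlt : d < 1 := by nlinarith
  set x : ℝ := d ^ (1 / 4 : ℝ) with hx
  have hx0 : 0 < x := Real.rpow_pos_of_pos hd _
  have hx4 : x ^ 4 = d := by
    rw [hx, ← Real.rpow_natCast, ← Real.rpow_mul hd.le]
    norm_num
  have hxinv : d ^ (-(1 / 4) : ℝ) = x⁻¹ := by
    rw [Real.rpow_neg hd.le]
  have hxlt : 100 * x < 1 := by
    by_contra hcon
    push Not at hcon
    have h1 : (1 : ℝ) ≤ (100 * x) ^ 4 := one_le_pow₀ hcon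
    rw [mul_pow, hx4] at h1
    nlinarith
  have hmain1 : 1 < d ^ (-(1 / 4) : ℝ) / 100 := by
    rw [hxinv, lt_div_iff₀ (by norm_num : (0 : ℝ) < 100), one_mul]
    have h1 : 100 * x * x⁻¹ < 1 * x⁻¹ := mul_lt_mul_of_pos_right hxlt (inv_pos.2 hx0)
    rwa [mul_assoc, mul_inv_cancel₀ hx0.ne', mul_one, one_mul] at h1
  refine ⟨hmain1, ?_⟩
  have hbase : Real.exp 1 / (d ^ (-(1 / 4) : ℝ) / 100) = 100 * Real.exp 1 * x := by
    rw [hxinv]
    field_simp
  have hb : 100 * Real.exp 1 * x ≤ 300 * x := by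
    have h1 : Real.exp 1 ≤ 3 := by
      have := Real.exp_one_lt_d9
      linarith
    nlinarith
  have hmd0 : 0 < m * d := mul_pos hm0 hd
  have hmd1 : m * d ≤ 1 := by nlinarith
  have h8 : (300 * x) ^ 8 ≤ m * d := by
    calc (300 * x) ^ 8 = 300 ^ 8 * (x ^ 4) ^ 2 := by ring
      _ = (300 ^ 8 * d) * d := by rw [hx4]; ring
      _ ≤ m * d := mul_le_mul_of_nonneg_right hd1 hd.le
  rw [hbase]
  calc (100 * Real.exp 1 * x) ^ (p / 2) ≤ (300 * x) ^ (p / 2) :=
        Real.rpow_le_rpow (by positivity) hb (by positivity)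
    _ = ((300 * x) ^ 8) ^ (p / 16) := by
        rw [← Real.rpow_natCast (300 * x) 8, ← Real.rpow_mul (by positivity)]
        congr 1
        push_cast
        ring
    _ ≤ (m * d) ^ (p / 16) := Real.rpow_le_rpow (by positivity) h8 (by positivity)
    _ ≤ (m * d) ^ (2 : ℝ) :=
        Real.rpow_le_rpow_of_exponent_ge hmd0 hmd1 (by linarith)
    _ = (m * d) ^ 2 := by
        rw [← Real.rpow_natCast]
        norm_num
    _ = m * m * d ^ 2 := by ring
    _ ≤ c * d ^ 2 := by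
        have h1 : m * m ≤ c := by nlinarith
        exact mul_le_mul_of_nonneg_right h1 (sq_nonneg d)

end MP4a1962
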