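import Pool.Agent.Lib.MP_4a1962_an.Defs

/-!
# ESum: two power series bounds

`sum_sq`, `sum_lin`: `Σ_{k≥1} k² x^k = x (1+x)/(1-x)³ ≤ 16 x T³`, `Σ_{k≥2} k x^k = x² (2-x)/(1-x)² ≤ 8 x² T²`,
`T = 1/(1-x²)`, `1/(1-x) = (1+x) T ≤ 2 T` (`hasSum_coe_mul_geometric_of_norm_lt_one` and its square
version `hasSum_choose_mul_geometric_of_norm_lt_one`, `k² = 2 choose (k+1) 2 - k`).
-/

set_option autoImplicit false

open MeasureTheory Set Filter Topology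
open scoped Real ENNReal NNReal

namespace MP4a1962

private theorem esum_base {x : ℝ} (hx0 : 0 ≤ x) (hx1 : x < 1) :
    HasSum (fun k : ℕ => x ^ k) (1 / (1 - x)) ∧
    HasSum (fun k : ℕ => ((k : ℝ) + 1) * x ^ k) (1 / (1 - x) ^ 2) ∧
    HasSum (fun k : ℕ => ((k : ℝ) + 2) * ((k : ℝ) + 1) / 2 * x ^ k) (1 / (1 - x) ^ 3) := by
  have hn : ‖x‖ < 1 := by rwa [Real.norm_of_nonneg hx0]
  have h0 := hasSum_choose_mul_geometric_of_norm_lt_one 0 hn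
  have h1 := hasSum_choose_mul_geometric_of_norm_lt_one 1 hn
  have h2 := hasSum_choose_mul_geometric_of_norm_lt_one 2 hn
  refine ⟨?_, ?_, ?_⟩
  · simpa using h0
  · simpa using h1
  · have e : (fun k : ℕ => ((k : ℝ) + 2) * ((k : ℝ) + 1) / 2 * x ^ k) =
        fun n : ℕ => (((n + 2).choose 2 : ℕ) : ℝ) * x ^ n := by
      funext k
      rw [Nat.cast_choose_two]
      push_cast
      ring
    rw [e]
    exact h2

theorem sum_sq {x : ℝ} (hx0 : 0 ≤ x) (hx1 : x < 1) :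
    Summable (fun k : ℕ => (k : ℝ) ^ 2 * x ^ k) ∧
    ∑' k : ℕ, (k : ℝ) ^ 2 * x ^ k = x * (1 + x) / (1 - x) ^ 3 ∧
    ∑' k : ℕ, (k : ℝ) ^ 2 * x ^ k ≤ 16 * x * (1 / (1 - x ^ 2)) ^ 3 := by
  obtain ⟨h0, h1, h2⟩ := esum_base hx0 hx1
  have h3 := ((h2.mul_left 2).sub (h1.mul_left 3)).add h0
  have hp : 0 < 1 - x := by linarith
  have e1 : (fun k : ℕ => 2 * (((k : ℝ) + 2) * ((k : ℝ) + 1) / 2 * x ^ k) -
      3 * (((k : ℝ) + 1) * x ^ k) + x ^ k) = fun k : ℕ => (k : ℝ) ^ 2 * x ^ k := by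
    funext k
    ring
  have e2 : 2 * (1 / (1 - x) ^ 3) - 3 * (1 / (1 - x) ^ 2) + 1 / (1 - x) =
      x * (1 + x) / (1 - x) ^ 3 := by
    field_simp
    ring
  rw [e1, e2] at h3
  refine ⟨h3.summable, h3.tsum_eq, ?_⟩
  rw [h3.tsum_eq]
  have e3 : 16 * x * (1 / (1 - x ^ 2)) ^ 3 = x * (16 / (1 + x) ^ 3) / (1 - x) ^ 3 := by
    have hq : 0 < 1 + x := by linarith
    have : 1 - x ^ 2 = (1 - x) * (1 + x) := by ring
    rw [this]
    field_simp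
  rw [e3]
  have hq : 0 < 1 + x := by linarith
  have h4 : 1 + x ≤ 16 / (1 + x) ^ 3 := by
    rw [le_div_iff₀ (by positivity)]
    have h5 : (1 + x) ^ 4 ≤ 2 ^ 4 := pow_le_pow_left₀ hq.le (by linarith) 4
    calc (1 + x) * (1 + x) ^ 3 = (1 + x) ^ 4 := by ring
      _ ≤ 2 ^ 4 := h5
      _ = 16 := by norm_num
  have hp3 : 0 < (1 - x) ^ 3 := by positivity
  exact div_le_div_of_nonneg_right (mul_le_mul_of_nonneg_left h4 hx0) hp3.le

theorem sum_lin {x : ℝ} (hx0 : 0 ≤ x) (hx1 : x < 1) :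
    Summable (fun k : ℕ => ((k : ℝ) + 2) * x ^ (k + 2)) ∧
    ∑' k : ℕ, ((k : ℝ) + 2) * x ^ (k + 2) ≤ 8 * x ^ 2 * (1 / (1 - x ^ 2)) ^ 2 := by
  obtain ⟨h0, h1, _⟩ := esum_base hx0 hx1
  have h3 := (h1.add h0).mul_left (x ^ 2)
  have hp : 0 < 1 - x := by linarith
  have hq : 0 < 1 + x := by linarith
  have e1 : (fun k : ℕ => x ^ 2 * (((k : ℝ) + 1) * x ^ k + x ^ k)) =
      fun k : ℕ => ((k : ℝ) + 2) * x ^ (k + 2) := by
    funext k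
    ring
  have e2 : x ^ 2 * (1 / (1 - x) ^ 2 + 1 / (1 - x)) = x ^ 2 * (2 - x) / (1 - x) ^ 2 := by
    field_simp
    ring
  rw [e1, e2] at h3
  refine ⟨h3.summable, ?_⟩
  rw [h3.tsum_eq]
  have e3 : 8 * x ^ 2 * (1 / (1 - x ^ 2)) ^ 2 = x ^ 2 * (8 / (1 + x) ^ 2) / (1 - x) ^ 2 := by
    have : 1 - x ^ 2 = (1 - x) * (1 + x) := by ring
    rw [this]
    field_simp
  rw [e3]
  have h4 : 2 - x ≤ 8 / (1 + x) ^ 2 := by
    rw [le_div_iff₀ (by positivity)]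
    nlinarith [mul_nonneg hx0 hx0, mul_nonneg hx0 hp.le]
  have hp2 : 0 < (1 - x) ^ 2 := by positivity
  exact div_le_div_of_nonneg_right (mul_le_mul_of_nonneg_left h4 (sq_nonneg x)) hp2.le

end MP4a1962
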