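import Pool.Agent.Lib.MP_4a1962_an.ESer
import Pool.Agent.Lib.MP_4a1962_an.ESum

/-!
# DEps: the loss at the saddle point dominates `ε`

`d_eps`: let `tc (shiftf h r) 1 = 4 - ε` real, `0 ≤ ε ≤ 4`, `1/33 ≤ r < 1`, `d = 2 log ((1+r)/(1-r)) - Re h(r)`. Then
`ε ≤ 40 d`. Proof: `t = 1/33`, `x₀ = (r-t)/(1-rt) ∈ [0,1)`; by `E_hasSum` at `z = x₀` (`ζ = -t`) and
`HCls.growth` at `x₀` (`Re h0f x = 2 log ((1+x)/(1-x))` for real `x`): `d ≥ d - Re (h0f - h)(x₀)
= - Σ Re (h0c k - tc H k) (-t)^k ≥ ε t - Σ_{k≥2} k² ε t^k` (`CSeq.re_le`, `HCls.cseq` for `H = shiftf h r`)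
`= ε (2 t - t (1+t)/(1-t)³) ≥ ε/40` (`sum_sq`; at `t = 1/33` the bracket is `0.02636`).
-/

set_option autoImplicit false

open MeasureTheory Set Filter Topology
open scoped Real ENNReal NNReal

namespace MP4a1962

private lemma h0f_re {x : ℝ} (hx0 : 0 ≤ x) (hx1 : x < 1) :
    (h0f (x : ℂ)).re = 2 * Real.log ((1 + x) / (1 - x)) := by
  have h1 : (0 : ℝ) < 1 - x := by linarith
  have h2 : (0 : ℝ) ≤ (1 + x) / (1 - x) := by positivity
  have h3 : h0f (x : ℂ) = ((2 * Real.log ((1 + x) / (1 - x)) : ℝ) : ℂ) := by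
    unfold h0f
    rw [Complex.ofReal_mul, Complex.ofReal_log h2]
    push_cast
    rfl
  rw [h3, Complex.ofReal_re]

theorem d_eps {h : ℂ → ℂ} (hh : HCls h) {r ε : ℝ} (hr0 : 1 / 33 ≤ r) (hr1 : r < 1)
    (h1 : tc (shiftf h r) 1 = ((4 - ε : ℝ) : ℂ)) (h0 : 0 ≤ ε) (h4 : ε ≤ 4) :
    ε ≤ 40 * (2 * Real.log ((1 + r) / (1 - r)) - (h r).re) := by
  have hrp : 0 < r := by linarith
  have hrn : ‖(r : ℂ)‖ < 1 := by
    rw [Complex.norm_real, Real.norm_eq_abs, abs_of_pos hrp]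
    exact hr1
  have hH : HCls (shiftf h r) := hh.shift hrn
  have hc : CSeq (tc (shiftf h r)) ε := hH.cseq h1 h0 h4
  -- the point `x`
  obtain ⟨x, hx⟩ : ∃ x : ℝ, x = (r - 1 / 33) / (1 - r * (1 / 33)) := ⟨_, rfl⟩
  have hden : 0 < 1 - r * (1 / 33) := by nlinarith
  have hx0 : 0 ≤ x := by
    rw [hx]
    exact div_nonneg (by linarith) hden.le
  have hx1 : x < 1 := by
    rw [hx, div_lt_one hden]
    linarith
  have hxn : ‖(x : ℂ)‖ < 1 := by
    rw [Complex.norm_real, Real.norm_eq_abs, abs_of_nonneg hx0]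
    exact hx1
  have hζ : (((x : ℂ) - r) / (1 - r * (x : ℂ))) = (((-(1 / 33) : ℝ)) : ℂ) := by
    have h5 : (x - r) / (1 - r * x) = -(1 / 33) := by
      have h6 : 1 - r * x ≠ 0 := by
        have : r * x < 1 := by nlinarith
        linarith
      have h7 : x * (1 - r * (1 / 33)) = r - 1 / 33 := by
        rw [hx, div_mul_cancel₀ _ hden.ne']
      rw [div_eq_iff h6]
      linear_combination h7
    rw [← h5]
    push_cast
    rfl
  have hS := E_hasSum hh hrp hr1 hxn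
  rw [hζ] at hS
  have hSr := Complex.hasSum_re hS
  have hg := hh.growth hx0 hx1
  have e1 := h0f_re hx0 hx1
  have e2 := h0f_re hrp.le hr1
  -- the comparison series
  have hsq := sum_sq (x := 1 / 33) (by norm_num) (by norm_num)
  have hG : HasSum (fun k : ℕ => ε * ((k : ℝ) ^ 2 * (1 / 33) ^ k) -
      (if k = 1 then 2 * ε * (1 / 33) else 0))
      (ε * ((1 / 33) * (1 + 1 / 33) / (1 - 1 / 33) ^ 3) - 2 * ε * (1 / 33)) := by
    have h7 : HasSum (fun k : ℕ => (k : ℝ) ^ 2 * (1 / 33) ^ k)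
        ((1 / 33) * (1 + 1 / 33) / (1 - 1 / 33) ^ 3) := by
      rw [← hsq.2.1]
      exact hsq.1.hasSum
    exact (h7.mul_left ε).sub (hasSum_ite_eq 1 (2 * ε * (1 / 33)))
  have hle := hasSum_le (fun k : ℕ => ?_) hSr hG
  · simp only [Complex.sub_re] at hle
    rw [e1, e2] at hle
    have h8 : ε * ((1 / 33) * (1 + 1 / 33) / (1 - 1 / 33) ^ 3) - 2 * ε * (1 / 33) ≤ -(ε / 40) := by
      have h9 : ((1 / 33 : ℝ) * (1 + 1 / 33) / (1 - 1 / 33) ^ 3) - 2 * (1 / 33) ≤ -(1 / 40) := by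
        norm_num
      nlinarith
    linarith
  · -- termwise
    have hpow : ((((-(1 / 33) : ℝ)) : ℂ)) ^ k = (((-(1 / 33) : ℝ) ^ k : ℝ) : ℂ) := by
      rw [Complex.ofReal_pow]
    have hre : ((((h0c k : ℂ) - tc (shiftf h r) k) * ((((-(1 / 33) : ℝ)) : ℂ)) ^ k)).re =
        (h0c k - (tc (shiftf h r) k).re) * (-(1 / 33) : ℝ) ^ k := by
      rw [hpow, Complex.re_mul_ofReal, Complex.sub_re, Complex.ofReal_re]
    rw [hre]
    rcases Nat.eq_zero_or_pos k with hk | hk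
    · subst hk
      have h5 : tc (shiftf h r) 0 = 0 := by
        unfold tc
        rw [iteratedDeriv_zero, hH.zero, zero_div]
      rw [h5]
      simp [h0c]
    · rcases Nat.eq_or_lt_of_le hk with hk1 | hk2
      · have hk1' : k = 1 := hk1.symm
        subst hk1'
        rw [h1, Complex.ofReal_re]
        have h5 : h0c 1 = 4 := by
          unfold h0c
          rw [if_pos (by decide)]
          norm_num
        rw [h5, if_pos rfl]
        norm_num
        linarith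
      · rw [if_neg (by omega), sub_zero]
        have h5 := hc.re_le hk
        have h6 : |(h0c k - (tc (shiftf h r) k).re) * (-(1 / 33) : ℝ) ^ k| ≤
            (k : ℝ) ^ 2 * ε * (1 / 33) ^ k := by
          rw [abs_mul, abs_pow, abs_neg, abs_of_pos (by norm_num : (0 : ℝ) < 1 / 33), abs_sub_comm]
          exact mul_le_mul_of_nonneg_right h5 (by positivity)
        calc (h0c k - (tc (shiftf h r) k).re) * (-(1 / 33) : ℝ) ^ k
            ≤ (k : ℝ) ^ 2 * ε * (1 / 33) ^ k := (le_abs_self _).trans h6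
          _ = ε * ((k : ℝ) ^ 2 * (1 / 33) ^ k) := by ring

end MP4a1962
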