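import Pool.Agent.Lib.MP_4a1962_an.Shift
import Pool.Agent.Lib.MP_4a1962_an.CDefs2

/-!
# MaxPt: the maximum point of `Re h` on a circle

If `Re h` on `|z| = r` is maximal at `z = r`, then `(1 - r²) h'(r)` is real, in `[0, 4]`.
Proof. `tc_shift_one` (with `a = r`): `tc (shiftf h r) 1 = (1 - r²) h'(r)`. The derivative at `θ = 0` of
`θ ↦ Re h(r e^{iθ})` is `Re (i r h'(r)) = - r Im h'(r)`, and it is `0` at a maximum. Radial direction: for
`0 ≤ x < r`, `Re h(x) ≤ max_{|z|=r} Re h = Re h(r)` (maximum modulus principle for `exp h` on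
`closedBall 0 r`, `Complex.norm_le_of_forall_mem_frontier_norm_le`), so `Re h'(r) ≥ 0`. `≤ 4`: `HCls.deriv_le`.
`eseq_of`: `e k = h0c k - tc (shiftf h r) k` is an `ESeq` with `ε = 4 - (1-r²) h'(r)`: `HCls.shift`, `HCls.cseq`,
`CSeq.re_le`, `CSeq.im_le`, `h0c 0 = 0`, `h0c 1 = 4`, `tc (shiftf h r) 0 = 0`.
-/

set_option autoImplicit false

open MeasureTheory Set Filter Topology
open scoped Real ENNReal NNReal

namespace MP4a1962

private theorem mp_deriv {h : ℂ → ℂ} (hh : HCls h) {x : ℝ} (hx0 : 0 ≤ x) (hx1 : x < 1) :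
    HasDerivAt h (deriv h x) (x : ℂ) := by
  have hx' : (x : ℂ) ∈ Metric.ball (0 : ℂ) 1 := by
    rw [Metric.mem_ball, dist_zero_right, Complex.norm_real, Real.norm_eq_abs, abs_of_nonneg hx0]
    exact hx1
  exact ((hh.diff x hx').differentiableAt (Metric.isOpen_ball.mem_nhds hx')).hasDerivAt

/-- the derivative at a maximum point is real -/
private theorem mp_im {h : ℂ → ℂ} (hh : HCls h) {r : ℝ} (hr0 : 0 < r) (hr1 : r < 1)
    (hmax : ∀ θ : ℝ, (h (circleMap 0 r θ)).re ≤ (h r).re) : (deriv h r).im = 0 := by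
  have hc0 : circleMap 0 r 0 = (r : ℂ) := by simp [circleMap]
  have h1 : HasDerivAt (circleMap 0 r) (circleMap 0 r 0 * Complex.I) 0 := hasDerivAt_circleMap 0 r 0
  have h2 : HasDerivAt h (deriv h r) (circleMap 0 r 0) := by
    rw [hc0]
    exact mp_deriv hh hr0.le hr1
  have h3 : HasDerivAt (fun θ : ℝ => h (circleMap 0 r θ))
      (deriv h r * (circleMap 0 r 0 * Complex.I)) 0 := h2.comp (0 : ℝ) h1
  have h4 : HasDerivAt (fun θ : ℝ => (h (circleMap 0 r θ)).re)
      (deriv h r * (circleMap 0 r 0 * Complex.I)).re 0 :=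
    Complex.reCLM.hasFDerivAt.comp_hasDerivAt (0 : ℝ) h3
  have h5 : IsLocalMax (fun θ : ℝ => (h (circleMap 0 r θ)).re) 0 := by
    refine Eventually.of_forall fun θ => ?_
    simp only [hc0]
    exact hmax θ
  have h6 := h5.hasDerivAt_eq_zero h4
  rw [hc0] at h6
  have h7 : (deriv h r * ((r : ℂ) * Complex.I)).re = -(r * (deriv h r).im) := by
    simp [Complex.mul_re]
    ring
  rw [h7, neg_eq_zero] at h6
  exact (mul_eq_zero.1 h6).resolve_left hr0.ne'

/-- maximum principle for the real part -/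
private theorem mp_le {h : ℂ → ℂ} (hh : HCls h) {r : ℝ} (hr0 : 0 < r) (hr1 : r < 1)
    (hmax : ∀ θ : ℝ, (h (circleMap 0 r θ)).re ≤ (h r).re) {x : ℝ} (hx0 : 0 ≤ x) (hx : x ≤ r) :
    (h x).re ≤ (h r).re := by
  have hd : DiffContOnCl ℂ (fun z => Complex.exp (h z)) (Metric.ball (0 : ℂ) r) := by
    refine DifferentiableOn.diffContOnCl ?_
    refine DifferentiableOn.cexp (hh.diff.mono ?_)
    exact Metric.closure_ball_subset_closedBall.trans (Metric.closedBall_subset_ball hr1)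
  have hC : ∀ z ∈ frontier (Metric.ball (0 : ℂ) r), ‖Complex.exp (h z)‖ ≤ Real.exp (h r).re := by
    intro z hz
    rw [frontier_ball (0 : ℂ) hr0.ne'] at hz
    have h1 : z ∈ Set.range (circleMap 0 r) := by
      rw [range_circleMap, abs_of_pos hr0]
      exact hz
    obtain ⟨θ, rfl⟩ := h1
    rw [Complex.norm_exp]
    exact Real.exp_le_exp.2 (hmax θ)
  have hz : (x : ℂ) ∈ closure (Metric.ball (0 : ℂ) r) := by
    rw [closure_ball (0 : ℂ) hr0.ne', Metric.mem_closedBall, dist_zero_right, Complex.norm_real,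
      Real.norm_eq_abs, abs_of_nonneg hx0]
    exact hx
  have h2 := Complex.norm_le_of_forall_mem_frontier_norm_le Metric.isBounded_ball hd hC hz
  rw [Complex.norm_exp] at h2
  exact Real.exp_le_exp.1 h2

private theorem mp_re {h : ℂ → ℂ} (hh : HCls h) {r : ℝ} (hr0 : 0 < r) (hr1 : r < 1)
    (hmax : ∀ θ : ℝ, (h (circleMap 0 r θ)).re ≤ (h r).re) : 0 ≤ (deriv h r).re := by
  have h1 : HasDerivAt (fun t : ℝ => (h t).re) (deriv h r).re r :=
    (mp_deriv hh hr0.le hr1).real_of_complex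
  have h2 := (hasDerivWithinAt_iff_tendsto_slope' (s := Iio r) (by simp)).1 h1.hasDerivWithinAt
  refine ge_of_tendsto h2 ?_
  have h3 : ∀ᶠ x : ℝ in 𝓝[<] r, 0 ≤ x := nhdsWithin_le_nhds (Ici_mem_nhds hr0)
  filter_upwards [h3, self_mem_nhdsWithin] with x hx0 hxr
  have hxr' : x < r := hxr
  rw [slope_def_field]
  have h4 := mp_le hh hr0 hr1 hmax hx0 hxr'.le
  exact div_nonneg_of_nonpos (by linarith) (by linarith)

theorem max_pt {h : ℂ → ℂ} (hh : HCls h) {r : ℝ} (hr0 : 0 < r) (hr1 : r < 1)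
    (hmax : ∀ θ : ℝ, (h (circleMap 0 r θ)).re ≤ (h r).re) :
    ∃ ε : ℝ, 0 ≤ ε ∧ ε ≤ 4 ∧ tc (shiftf h r) 1 = ((4 - ε : ℝ) : ℂ) := by
  have hn : ‖(r : ℂ)‖ = r := by
    rw [Complex.norm_real, Real.norm_eq_abs, abs_of_pos hr0]
  have hn1 : ‖(r : ℂ)‖ < 1 := by rw [hn]; exact hr1
  have him := mp_im hh hr0 hr1 hmax
  have hre := mp_re hh hr0 hr1 hmax
  have hle := hh.deriv_le hn1
  rw [hn] at hle
  have hr2 : 0 < 1 - r ^ 2 := by nlinarith
  have h1 : (deriv h r).re ≤ ‖deriv h r‖ := Complex.re_le_norm _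
  have h2 : (1 - r ^ 2) * (deriv h r).re ≤ (1 - r ^ 2) * ‖deriv h r‖ :=
    mul_le_mul_of_nonneg_left h1 hr2.le
  have h3 : 0 ≤ (1 - r ^ 2) * (deriv h r).re := mul_nonneg hr2.le hre
  refine ⟨4 - (1 - r ^ 2) * (deriv h r).re, by linarith, by linarith, ?_⟩
  rw [tc_shift_one hh.diff hn1, hn, sub_sub_cancel]
  have h4 : deriv h r = (((deriv h r).re : ℝ) : ℂ) := by
    apply Complex.ext
    · simp
    · simpa using him
  rw [h4]
  simp only [Complex.ofReal_re]
  push_cast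
  ring

theorem eseq_of {h : ℂ → ℂ} (hh : HCls h) {r ε : ℝ} (hr0 : 0 < r) (hr1 : r < 1)
    (h1 : tc (shiftf h r) 1 = ((4 - ε : ℝ) : ℂ)) (h0 : 0 ≤ ε) (h4 : ε ≤ 4) :
    ESeq (fun k => (h0c k : ℂ) - tc (shiftf h r) k) ε := by
  have hn1 : ‖(r : ℂ)‖ < 1 := by
    rw [Complex.norm_real, Real.norm_eq_abs, abs_of_pos hr0]
    exact hr1
  have hc := (hh.shift hn1).cseq h1 h0 h4
  refine ⟨?_, ?_, h0, fun k hk => ?_, fun k hk => ?_⟩
  · have e1 : tc (shiftf h r) 0 = 0 := by simp [tc, shiftf]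
    have e2 : h0c 0 = 0 := by simp [h0c]
    simp only [e1, e2]
    simp
  · have e2 : h0c 1 = 4 := by simp [h0c]
    simp only [h1, e2]
    push_cast
    ring
  · have h5 := hc.re_le hk
    rw [Complex.sub_re, Complex.ofReal_re, abs_sub_comm]
    exact h5
  · have h5 := hc.im_le hk
    rw [Complex.sub_im, Complex.ofReal_im, zero_sub, abs_neg]
    exact h5

end MP4a1962
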