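import Pool.Agent.Lib.MP_4a1962_an.CRegI
import Pool.Agent.Lib.MP_4a1962_an.CFar
import Pool.Agent.Lib.MP_4a1962_an.CDev
import Pool.Agent.Lib.MP_4a1962_an.CTSmall
import Pool.Agent.Lib.MP_4a1962_an.MaxPt
import Pool.Agent.Lib.MP_4a1962_an.DEps

/-!
# CFarInt: the far region
-/

set_option autoImplicit false

open MeasureTheory Set Filter Topology
open scoped Real ENNReal NNReal

namespace MP4a1962

theorem c_far_int (A : ℝ) (hA : 0 < A) : ∃ C P : ℝ, 0 < C ∧ 1 ≤ P ∧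
    ∀ (p r d : ℝ) (n : ℕ) (h : ℂ → ℂ), P ≤ p → 1 / 33 ≤ r → r < 1 → (n : ℝ) = 4 * p * kap r →
    HCls h → (∀ θ : ℝ, (h (circleMap 0 r θ)).re ≤ (h r).re) → d = Mr r - (h r).re → 0 < d →
    p * d ≤ A → 4 * (d ^ (-(1 / 4) : ℝ) / 100) < 1 + 4 * kap r ^ 2 →
    ∫ θ in {θ : ℝ | θ ∈ Icc (-π) π ∧ d ^ (-(1 / 4) : ℝ) / 100 < 1 + Xr r θ ^ 2},
      Real.exp (p * ((h (circleMap 0 r θ)).re - Mr r)) ≤ C * d ^ 2 * Z0 p r n := by
  obtain ⟨C, P₁, hC, hP₁, hint⟩ := half_int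
  obtain ⟨c, P₂, hc, hP₂, hlow⟩ := c_low
  obtain ⟨P₃, hP₃, hsmall⟩ := t1_small2 hA one_pos
  refine ⟨C / c, max P₁ (max P₂ P₃), by positivity, hP₁.trans (le_max_left _ _), ?_⟩
  intro p r d n h hp hr33 hr1 hn hh hmax hd hd0 hpd h4
  have hp1 : P₁ ≤ p := (le_max_left _ _).trans hp
  have hp2 : P₂ ≤ p := (le_max_left _ _).trans ((le_max_right _ _).trans hp)
  have hp3 : P₃ ≤ p := (le_max_right _ _).trans ((le_max_right _ _).trans hp)
  have hp0 : 0 < p := by linarith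
  have hr0 : 0 < r := by linarith
  have hk := kap_pos hr0 hr1
  have hsp : 0 < √p := Real.sqrt_pos.2 hp0
  obtain ⟨hT1, hTs⟩ := hsmall p d hp3 hd0 hpd
  set T₁ : ℝ := d ^ (-(1 / 4) : ℝ) / 100 with hT₁
  have hT0 : 0 < T₁ := by linarith
  -- `d T₁⁴ = 10⁻⁸`
  have hdT : d * T₁ ^ 4 ≤ 1 / 10 ^ 8 := by
    have h1 : (d ^ (-(1 / 4) : ℝ)) ^ 4 = d⁻¹ := by
      rw [← Real.rpow_natCast, ← Real.rpow_mul hd0.le]
      norm_num
      exact Real.rpow_neg_one d
    rw [hT₁, div_pow, h1]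
    have : d * (d⁻¹ / 100 ^ 4) = 1 / 10 ^ 8 := by
      field_simp
      norm_num
    rw [this]
  obtain ⟨ε, hε0, hε4, h1ε⟩ := max_pt hh hr0 hr1 hmax
  have hεd : ε ≤ 40 * d := by
    rw [hd]
    exact d_eps hh hr33 hr1 h1ε hε0 hε4
  have he := eseq_of hh hr0 hr1 h1ε hε0 hε4
  have hI : ∀ θ₁ : ℝ, 0 < θ₁ → θ₁ ≤ π → ∫ θ in (-θ₁)..θ₁,
      ((h0f (circleMap 0 r θ)).re - (h (circleMap 0 r θ)).re) ≤
        2 * θ₁ * (d + 16 * ε * Xr r θ₁ * Tf r θ₁ ^ 3) := by
    intro θ₁ h0 hπ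
    rw [hd]
    exact dev_int hh hr0 hr1 he h0 hπ
  have hfar : ∀ θ : ℝ, |θ| ≤ π → T₁ < Tf r θ →
      (h (circleMap 0 r θ)).re ≤ Mr r - Real.log T₁ + 1 := fun θ hθ hT =>
    far_sup hh hr0 hr1 hε0 hεd hI hT1 h4 hdT hθ hT
  have hcont : Continuous (fun θ : ℝ => h (circleMap 0 r θ)) := continuous_h_circ hh hr0 hr1
  have hre : Continuous (fun θ : ℝ => (h (circleMap 0 r θ)).re) := Complex.continuous_re.comp hcont
  have hc1 : Continuous (fun θ : ℝ => Real.exp (p * ((h (circleMap 0 r θ)).re - Mr r))) :=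
    Real.continuous_exp.comp (continuous_const.mul (hre.sub continuous_const))
  have hc2 : Continuous (fun θ : ℝ => (Real.exp 1 / T₁) ^ (p / 2) *
      Real.exp (p / 2 * ((h (circleMap 0 r θ)).re - Mr r))) :=
    continuous_const.mul (Real.continuous_exp.comp (continuous_const.mul (hre.sub continuous_const)))
  set S : Set ℝ := {θ : ℝ | θ ∈ Icc (-π) π ∧ T₁ < 1 + Xr r θ ^ 2} with hS
  have hmX : Measurable (fun θ => 1 + Xr r θ ^ 2) :=
    (continuous_const.add ((continuous_Xr r).pow 2)).measurable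
  have hSm : MeasurableSet S :=
    measurableSet_Icc.inter (measurableSet_lt measurable_const hmX)
  have hSsub : S ⊆ Icc (-π) π := fun θ hθ => hθ.1
  have hi1 : IntegrableOn (fun θ : ℝ => Real.exp (p * ((h (circleMap 0 r θ)).re - Mr r)))
      (Icc (-π) π) := hc1.continuousOn.integrableOn_Icc
  have hi2 : IntegrableOn (fun θ : ℝ => (Real.exp 1 / T₁) ^ (p / 2) *
      Real.exp (p / 2 * ((h (circleMap 0 r θ)).re - Mr r))) (Icc (-π) π) :=
    hc2.continuousOn.integrableOn_Icc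
  calc ∫ θ in S, Real.exp (p * ((h (circleMap 0 r θ)).re - Mr r))
      ≤ ∫ θ in S, (Real.exp 1 / T₁) ^ (p / 2) *
          Real.exp (p / 2 * ((h (circleMap 0 r θ)).re - Mr r)) := by
        apply setIntegral_mono_on (hi1.mono_set hSsub) (hi2.mono_set hSsub) hSm
        intro θ hθ
        have h5 := hfar θ (abs_le.2 hθ.1) hθ.2
        rw [Real.rpow_def_of_pos (by positivity), ← Real.exp_add, Real.exp_le_exp,
          Real.log_div (Real.exp_pos 1).ne' hT0.ne', Real.log_exp]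
        nlinarith
    _ ≤ ∫ θ in Icc (-π) π, (Real.exp 1 / T₁) ^ (p / 2) *
          Real.exp (p / 2 * ((h (circleMap 0 r θ)).re - Mr r)) := by
        apply setIntegral_mono_set hi2
        · exact Filter.Eventually.of_forall fun θ => by positivity
        · exact (Filter.Eventually.of_forall hSsub)
    _ = (Real.exp 1 / T₁) ^ (p / 2) *
          ∫ θ in (-π)..π, Real.exp (p / 2 * ((h (circleMap 0 r θ)).re - Mr r)) := by
        rw [integral_Icc_eq_integral_Ioc, ← intervalIntegral.integral_of_le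
          (by linarith [Real.pi_pos]), intervalIntegral.integral_const_mul]
    _ ≤ (1 * d ^ 2) * (C / (kap r * √p)) := by
        have h6 := hint p r h hp1 hr33 hr1 hh
        have h7 : 0 ≤ ∫ θ in (-π)..π, Real.exp (p / 2 * ((h (circleMap 0 r θ)).re - Mr r)) :=
          intervalIntegral.integral_nonneg (by linarith [Real.pi_pos])
            fun θ _ => (Real.exp_pos _).le
        gcongr
    _ = C / c * d ^ 2 * (c / (kap r * √p)) := by
        field_simp
    _ ≤ C / c * d ^ 2 * Z0 p r n := by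
        gcongr
        exact hlow p r n hp2 hr33 hr1 hn

end MP4a1962
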