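import Mathlib

/-!
# CFarPure: a mean inequality and a Lipschitz bound give a pointwise bound

Suppose `c + 1 < U θ₂` with `θ₁ ≤ |θ₂| ≤ π`. Let `δ = 1/(8κ) ≤ 1/4`. As `π - θ₁ ≥ 2π/3 > 2δ`, one of the
intervals `[θ₂ - δ, θ₂]`, `[θ₂, θ₂ + δ]` is contained in `[θ₁, π]` (case `θ₂ > 0`) or in `[-π, -θ₁]`
(case `θ₂ < 0`); on it `U ≥ U θ₂ - 4κδ > c + 1/2`. So
`∫_{θ₁}^{π} (U-c)⁺ + ∫_{-π}^{-θ₁} (U-c)⁺ ≥ δ/2 = 1/(16κ)`. On the other hand
`∫_{-π}^{π} (U-c)⁺ ≤ ∫_{-π}^{π} (U₀-c)⁺ = ∫_{-θ₁}^{θ₁} (U₀ - c)` (`U₀ ≤ c` outside, `U₀ ≥ c` inside)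
`= ∫_{-θ₁}^{θ₁} (U - c) + ∫_{-θ₁}^{θ₁} (U₀ - U) ≤ ∫_{-θ₁}^{θ₁} (U-c)⁺ + D`. So `1/(16κ) ≤ D`,
against `16 κ D < 1`. (It suffices to show the bound on `[θ₁, π]`; for `[-π, -θ₁]` apply this to
`U (-θ)`, `U₀ (-θ)`, all hypotheses are symmetric.)
-/

set_option autoImplicit false

open MeasureTheory Set Filter Topology
open scoped Real ENNReal NNReal

namespace MP4a1962

private theorem cfp_core {U U₀ : ℝ → ℝ} (hU : Continuous U) (hU₀ : Continuous U₀) {θ₁ c D κ : ℝ}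
    (hθ₁ : 0 < θ₁) (hθ₁' : θ₁ ≤ π / 3) (hκ : 1 / 2 ≤ κ)
    (hm : ∫ θ in (-π)..π, max 0 (U θ - c) ≤ ∫ θ in (-π)..π, max 0 (U₀ θ - c))
    (hin : ∫ θ in (-θ₁)..θ₁, (U₀ θ - U θ) ≤ D) (hin' : ∀ θ, |θ| ≤ θ₁ → c ≤ U₀ θ)
    (hout : ∀ θ, θ₁ ≤ |θ| → |θ| ≤ π → U₀ θ ≤ c)
    (hL : ∀ a b, |U a - U b| ≤ 4 * κ * |a - b|) (hD : 16 * κ * D < 1) :
    ∀ θ, θ₁ ≤ θ → θ ≤ π → U θ ≤ c + 1 := by
  intro θ₂ h1 h2
  by_contra hcon
  rw [not_le] at hcon
  have hπ3 : 3 < π := Real.pi_gt_three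
  have hκ0 : 0 < κ := by linarith
  set δ : ℝ := 1 / (8 * κ) with hδ
  have hδ0 : 0 < δ := by positivity
  have hδ1 : δ ≤ 1 / 4 := by
    rw [hδ, div_le_div_iff₀ (by positivity) (by norm_num)]
    linarith
  have hκδ : 4 * κ * δ = 1 / 2 := by
    rw [hδ]
    field_simp
    norm_num
  -- the interval
  obtain ⟨a, ha1, ha2, ha3⟩ : ∃ a : ℝ, θ₁ ≤ a ∧ a + δ ≤ π ∧
      ∀ θ, a ≤ θ → θ ≤ a + δ → |θ₂ - θ| ≤ δ := by
    by_cases hc : θ₁ ≤ θ₂ - δ
    · refine ⟨θ₂ - δ, hc, by linarith, fun θ h3 h4 => ?_⟩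
      rw [abs_le]
      constructor <;> linarith
    · rw [not_le] at hc
      refine ⟨θ₂, h1, by linarith, fun θ h3 h4 => ?_⟩
      rw [abs_le]
      constructor <;> linarith
  have hbig : ∀ θ, a ≤ θ → θ ≤ a + δ → 1 / 2 ≤ U θ - c := by
    intro θ h3 h4
    have h5 := hL θ₂ θ
    have h6 : 4 * κ * |θ₂ - θ| ≤ 1 / 2 := by
      rw [← hκδ]
      exact mul_le_mul_of_nonneg_left (ha3 θ h3 h4) (by positivity)
    have h7 := (le_abs_self _).trans (h5.trans h6)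
    linarith
  set P : ℝ → ℝ := fun θ => max 0 (U θ - c) with hP
  set P₀ : ℝ → ℝ := fun θ => max 0 (U₀ θ - c) with hP₀
  have hPc : Continuous P := continuous_const.max (hU.sub continuous_const)
  have hP₀c : Continuous P₀ := continuous_const.max (hU₀.sub continuous_const)
  have hP0 : ∀ θ, 0 ≤ P θ := fun θ => le_max_left _ _
  have hPi : ∀ x y : ℝ, IntervalIntegrable P volume x y := fun x y => hPc.intervalIntegrable x y
  have hP₀i : ∀ x y : ℝ, IntervalIntegrable P₀ volume x y := fun x y => hP₀c.intervalIntegrable x y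
  -- splitting
  have hs1 : (∫ θ in (-π)..π, P θ) = (∫ θ in (-π)..(-θ₁), P θ) + (∫ θ in (-θ₁)..θ₁, P θ) +
      (∫ θ in θ₁..π, P θ) := by
    rw [intervalIntegral.integral_add_adjacent_intervals (hPi _ _) (hPi _ _),
      intervalIntegral.integral_add_adjacent_intervals (hPi _ _) (hPi _ _)]
  have hs2 : (∫ θ in (-π)..π, P₀ θ) = (∫ θ in (-π)..(-θ₁), P₀ θ) + (∫ θ in (-θ₁)..θ₁, P₀ θ) +
      (∫ θ in θ₁..π, P₀ θ) := by
    rw [intervalIntegral.integral_add_adjacent_intervals (hP₀i _ _) (hP₀i _ _),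
      intervalIntegral.integral_add_adjacent_intervals (hP₀i _ _) (hP₀i _ _)]
  have hs3 : (∫ θ in θ₁..π, P θ) = (∫ θ in θ₁..a, P θ) + (∫ θ in a..(a + δ), P θ) +
      (∫ θ in (a + δ)..π, P θ) := by
    rw [intervalIntegral.integral_add_adjacent_intervals (hPi _ _) (hPi _ _),
      intervalIntegral.integral_add_adjacent_intervals (hPi _ _) (hPi _ _)]
  have hn1 : 0 ≤ ∫ θ in (-π)..(-θ₁), P θ :=
    intervalIntegral.integral_nonneg (by linarith) fun θ _ => hP0 θ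
  have hn2 : 0 ≤ ∫ θ in θ₁..a, P θ :=
    intervalIntegral.integral_nonneg ha1 fun θ _ => hP0 θ
  have hn3 : 0 ≤ ∫ θ in (a + δ)..π, P θ :=
    intervalIntegral.integral_nonneg ha2 fun θ _ => hP0 θ
  have hn4 : δ / 2 ≤ ∫ θ in a..(a + δ), P θ := by
    have h3 : (∫ _ in a..(a + δ), (1 / 2 : ℝ)) ≤ ∫ θ in a..(a + δ), P θ := by
      refine intervalIntegral.integral_mono_on (by linarith)
        (continuous_const.intervalIntegrable _ _) (hPi _ _) fun θ hθ => ?_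
      exact (hbig θ hθ.1 hθ.2).trans (le_max_right _ _)
    rw [intervalIntegral.integral_const] at h3
    have e : (a + δ - a) • (1 / 2 : ℝ) = δ / 2 := by
      rw [smul_eq_mul]
      ring
    rw [e] at h3
    exact h3
  have hn5 : (∫ θ in (-θ₁)..θ₁, (U θ - c)) ≤ ∫ θ in (-θ₁)..θ₁, P θ := by
    refine intervalIntegral.integral_mono_on (by linarith)
      ((hU.sub continuous_const).intervalIntegrable _ _) (hPi _ _) fun θ _ => ?_
    exact le_max_right _ _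
  have hz1 : (∫ θ in (-π)..(-θ₁), P₀ θ) = 0 := by
    have e : (∫ θ in (-π)..(-θ₁), P₀ θ) = ∫ _ in (-π)..(-θ₁), (0 : ℝ) := by
      refine intervalIntegral.integral_congr fun θ hθ => ?_
      rw [Set.uIcc_of_le (by linarith)] at hθ
      have hneg : θ < 0 := by linarith [hθ.2]
      have h3 := hout θ (by rw [abs_of_neg hneg]; linarith [hθ.2])
        (by rw [abs_of_neg hneg]; linarith [hθ.1])
      exact max_eq_left (by linarith)
    rw [e, intervalIntegral.integral_zero]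
  have hz2 : (∫ θ in θ₁..π, P₀ θ) = 0 := by
    have e : (∫ θ in θ₁..π, P₀ θ) = ∫ _ in θ₁..π, (0 : ℝ) := by
      refine intervalIntegral.integral_congr fun θ hθ => ?_
      rw [Set.uIcc_of_le (by linarith)] at hθ
      have hpos : 0 < θ := by linarith [hθ.1]
      have h3 := hout θ (by rw [abs_of_pos hpos]; exact hθ.1)
        (by rw [abs_of_pos hpos]; exact hθ.2)
      exact max_eq_left (by linarith)
    rw [e, intervalIntegral.integral_zero]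
  have hz3 : (∫ θ in (-θ₁)..θ₁, P₀ θ) = ∫ θ in (-θ₁)..θ₁, (U₀ θ - c) := by
    refine intervalIntegral.integral_congr fun θ hθ => ?_
    rw [Set.uIcc_of_le (by linarith)] at hθ
    have h3 := hin' θ (abs_le.2 ⟨hθ.1, hθ.2⟩)
    exact max_eq_right (by linarith)
  have hfin : (∫ θ in (-θ₁)..θ₁, (U₀ θ - c)) - (∫ θ in (-θ₁)..θ₁, (U θ - c)) =
      ∫ θ in (-θ₁)..θ₁, (U₀ θ - U θ) := by
    have i1 : IntervalIntegrable (fun θ => U₀ θ - c) volume (-θ₁) θ₁ :=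
      (hU₀.sub continuous_const).intervalIntegrable _ _
    have i2 : IntervalIntegrable (fun θ => U θ - c) volume (-θ₁) θ₁ :=
      (hU.sub continuous_const).intervalIntegrable _ _
    rw [← intervalIntegral.integral_sub i1 i2]
    refine intervalIntegral.integral_congr fun θ _ => ?_
    ring
  have hδD : δ / 2 ≤ D := by linarith
  have h16 : 16 * κ * (δ / 2) = 1 := by
    rw [hδ]
    field_simp
    norm_num
  have h17 : 16 * κ * (δ / 2) ≤ 16 * κ * D := mul_le_mul_of_nonneg_left hδD (by positivity)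
  linarith

theorem far_pure {U U₀ : ℝ → ℝ} (hU : Continuous U) (hU₀ : Continuous U₀) {θ₁ c D κ : ℝ}
    (hθ₁ : 0 < θ₁) (hθ₁' : θ₁ ≤ π / 3) (hκ : 1 / 2 ≤ κ)
    (hm : ∫ θ in (-π)..π, max 0 (U θ - c) ≤ ∫ θ in (-π)..π, max 0 (U₀ θ - c))
    (hin : ∫ θ in (-θ₁)..θ₁, (U₀ θ - U θ) ≤ D) (hin' : ∀ θ, |θ| ≤ θ₁ → c ≤ U₀ θ)
    (hout : ∀ θ, θ₁ ≤ |θ| → |θ| ≤ π → U₀ θ ≤ c)
    (hL : ∀ a b, |U a - U b| ≤ 4 * κ * |a - b|) (hD : 16 * κ * D < 1) :
    ∀ θ, θ₁ ≤ |θ| → |θ| ≤ π → U θ ≤ c + 1 := by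
  intro θ h1 h2
  rcases le_total 0 θ with h0 | h0
  · rw [abs_of_nonneg h0] at h1 h2
    exact cfp_core hU hU₀ hθ₁ hθ₁' hκ hm hin hin' hout hL hD θ h1 h2
  · rw [abs_of_nonpos h0] at h1 h2
    have hneg : ∀ (f : ℝ → ℝ) (x : ℝ), (∫ θ in (-x)..x, f (-θ)) = ∫ θ in (-x)..x, f θ := by
      intro f x
      rw [intervalIntegral.integral_comp_neg, neg_neg]
    have h := cfp_core (U := fun x => U (-x)) (U₀ := fun x => U₀ (-x)) (θ₁ := θ₁) (c := c) (D := D)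
      (κ := κ) (hU.comp continuous_neg) (hU₀.comp continuous_neg) hθ₁ hθ₁' hκ
      (by
        rw [hneg (fun x => max 0 (U x - c)) π, hneg (fun x => max 0 (U₀ x - c)) π]
        exact hm)
      (by
        rw [hneg (fun x => U₀ x - U x) θ₁]
        exact hin)
      (fun x hx => hin' (-x) (by rw [abs_neg]; exact hx))
      (fun x hx hx' => hout (-x) (by rw [abs_neg]; exact hx) (by rw [abs_neg]; exact hx'))
      (fun a b => by
        have h3 := hL (-a) (-b)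
        have e : |(-a) - (-b)| = |a - b| := by
          rw [← abs_neg]
          congr 1
          ring
        rw [e] at h3
        exact h3) hD (-θ) h1 h2
    simpa using h

end MP4a1962
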