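import Pool.Agent.Lib.MP_4a1962_an.Defs

/-!
# RecH0: the extremal function

* `tc_h0`: `h0 z = 2 log ((1+z)/(1-z))` (principal branch; `(1+z)/(1-z)` has positive real part in the
  disc) has derivative `4/(1-z²)`, so `tc h0 k = 4/k` for odd `k`, `0` for even `k` (`k ≥ 1`).
  (Mathlib: `Complex.hasSum_log_sub_log_of_norm_lt_one`-type lemma: `log (1+z) - log (1-z)` series.)
* `F0_eq`: `((1+z)/(1-z))^(2p) = exp (p h0 z)` on the disc (`Complex.cpow_def_of_ne_zero`).
-/

set_option autoImplicit false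

open MeasureTheory Set Filter Topology
open scoped Real ENNReal NNReal

namespace MP4a1962

private theorem re_pos_add {z : ℂ} (hz : ‖z‖ < 1) : 0 < (1 + z).re := by
  have h := Complex.abs_re_le_norm z
  have h2 := abs_le.mp h
  simp only [Complex.add_re, Complex.one_re]
  linarith [h2.1]

private theorem re_pos_sub {z : ℂ} (hz : ‖z‖ < 1) : 0 < (1 - z).re := by
  have h := Complex.abs_re_le_norm z
  have h2 := abs_le.mp h
  simp only [Complex.sub_re, Complex.one_re]
  linarith [h2.2]

private theorem ne_add {z : ℂ} (hz : ‖z‖ < 1) : (1 + z) ≠ 0 := by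
  intro h
  have := re_pos_add hz
  rw [h] at this
  simp at this

private theorem ne_sub {z : ℂ} (hz : ‖z‖ < 1) : (1 - z) ≠ 0 := by
  intro h
  have := re_pos_sub hz
  rw [h] at this
  simp at this

private theorem log_div_eq {z : ℂ} (hz : ‖z‖ < 1) :
    Complex.log ((1 + z) / (1 - z)) = Complex.log (1 + z) - Complex.log (1 - z) := by
  have h1 := ne_add hz
  have h2 := ne_sub hz
  have e : (1 + z) / (1 - z) = Complex.exp (Complex.log (1 + z) - Complex.log (1 - z)) := by
    rw [Complex.exp_sub, Complex.exp_log h1, Complex.exp_log h2]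
  have a1 : |(1 + z).arg| < π / 2 := Complex.abs_arg_lt_pi_div_two_iff.mpr (Or.inl (re_pos_add hz))
  have a2 : |(1 - z).arg| < π / 2 := Complex.abs_arg_lt_pi_div_two_iff.mpr (Or.inl (re_pos_sub hz))
  have b1 := abs_lt.mp a1
  have b2 := abs_lt.mp a2
  rw [e, Complex.log_exp]
  · simp only [Complex.sub_im, Complex.log_im]
    linarith [b1.1, b2.2]
  · simp only [Complex.sub_im, Complex.log_im]
    linarith [b1.2, b2.1]

private theorem hasSum_h0 {z : ℂ} (hz : ‖z‖ < 1) :
    HasSum (fun n : ℕ => z ^ n • (2 * ((-1) ^ (n + 1) + 1) / (n : ℂ)))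
      (2 * Complex.log ((1 + z) / (1 - z))) := by
  have h1 := Complex.hasSum_taylorSeries_log hz
  have h2 := Complex.hasSum_taylorSeries_neg_log hz
  have h3 := (h1.add h2).mul_left 2
  rw [log_div_eq hz, sub_eq_add_neg]
  have h4 : (fun n : ℕ => z ^ n • (2 * ((-1) ^ (n + 1) + 1) / (n : ℂ))) =
      fun n : ℕ => 2 * ((-1) ^ (n + 1) * z ^ n / (n : ℂ) + z ^ n / (n : ℂ)) := by
    funext n
    simp only [smul_eq_mul]
    ring
  rw [h4]
  exact h3

private theorem hfps_h0 : HasFPowerSeriesAt (fun z : ℂ => 2 * Complex.log ((1 + z) / (1 - z)))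
    (FormalMultilinearSeries.ofScalars ℂ (fun n : ℕ => (2 * ((-1) ^ (n + 1) + 1) / (n : ℂ)))) 0 := by
  rw [hasFPowerSeriesAt_iff]
  filter_upwards [Metric.ball_mem_nhds (0 : ℂ) one_pos] with z hz
  simp only [FormalMultilinearSeries.coeff_ofScalars, zero_add]
  exact hasSum_h0 (by simpa using hz)

theorem tc_h0 {k : ℕ} (hk : 1 ≤ k) :
    tc (fun z : ℂ => 2 * Complex.log ((1 + z) / (1 - z))) k = (h0c k : ℂ) := by
  have h1 := hfps_h0
  have h2 := h1.analyticAt.hasFPowerSeriesAt
  have h3 := h1.eq_formalMultilinearSeries h2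
  rw [FormalMultilinearSeries.ofScalars_series_eq_iff] at h3
  have h4 := congrFun h3 k
  have hk0 : (k : ℂ) ≠ 0 := by
    exact_mod_cast (by omega : k ≠ 0)
  unfold tc
  rw [← h4]
  unfold h0c
  split_ifs with ho
  · have : (-1 : ℂ) ^ (k + 1) = 1 := Even.neg_one_pow (Odd.add_one ho)
    rw [this]
    push_cast
    ring
  · have : (-1 : ℂ) ^ (k + 1) = -1 := Odd.neg_one_pow (Even.add_one (Nat.not_odd_iff_even.mp ho))
    rw [this]
    simp

theorem h0_diff : DifferentiableOn ℂ (fun z : ℂ => 2 * Complex.log ((1 + z) / (1 - z)))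
    (Metric.ball (0 : ℂ) 1) := by
  have h : DifferentiableOn ℂ (fun z : ℂ => 2 * (Complex.log (1 + z) - Complex.log (1 - z)))
      (Metric.ball (0 : ℂ) 1) := by
    intro z hz
    have hz' : ‖z‖ < 1 := by simpa using hz
    apply DifferentiableAt.differentiableWithinAt
    have d1 : DifferentiableAt ℂ (fun z : ℂ => Complex.log (1 + z)) z :=
      DifferentiableAt.clog (by fun_prop) (Or.inl (re_pos_add hz'))
    have d2 : DifferentiableAt ℂ (fun z : ℂ => Complex.log (1 - z)) z :=
      DifferentiableAt.clog (by fun_prop) (Or.inl (re_pos_sub hz'))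
    exact (d1.sub d2).const_mul 2
  refine h.congr ?_
  intro z hz
  have hz' : ‖z‖ < 1 := by simpa using hz
  simp only [log_div_eq hz']

theorem F0_eq (p : ℝ) : ∀ z ∈ Metric.ball (0 : ℂ) 1,
    ((1 + z) / (1 - z)) ^ ((2 * p : ℝ) : ℂ) =
      Complex.exp (p * (2 * Complex.log ((1 + z) / (1 - z)))) := by
  intro z hz
  have hz' : ‖z‖ < 1 := by simpa using hz
  rw [Complex.cpow_def_of_ne_zero (div_ne_zero (ne_add hz') (ne_sub hz'))]
  congr 1
  push_cast
  ring

end MP4a1962
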