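import Pool.Agent.Lib.MP_4a1962_an.Shift
import Pool.Agent.Lib.MP_4a1962_an.RecH0

/-!
# ESer: the difference `h0f - h` at a shifted base point

`E_hasSum`: `0 < r < 1`, `z` in the ball, `ζ = (z - r)/(1 - r z)`, `H = shiftf h r`:
`h0f z - h z - (h0f r - h r) = Σ_k (h0c k - tc H k) ζ^k`. Proof: `z = (ζ + r)/(1 + r ζ)`, `‖ζ‖ < 1`,
`h0f z - h0f r = h0f ζ` (`h0f_shift`), `h z - h r = H ζ`; Taylor series of `h0f` and `H` on the unit ball
(`Complex.hasSum_taylorSeries_on_ball`), `tc_h0` (and `tc h0f 0 = 0 = h0c 0`).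
`norm_zeta`: for `z` on the circle `‖z‖ = r`, `z = r e^{iθ}`: `‖1 - r z‖² = (1 - r²)² + 4 r² sin²(θ/2)`,
`‖z - r‖² = 4 r² sin²(θ/2)`; with `κ = r/(1-r²)`, `X = 2 κ |sin (θ/2)|`: `‖ζ‖² = X²/(1+X²)`.
-/

set_option autoImplicit false

open MeasureTheory Set Filter Topology
open scoped Real ENNReal NNReal

namespace MP4a1962

private theorem eser_normSq (z : ℂ) (r : ℝ) :
    Complex.normSq (1 - r * z) = Complex.normSq (z - r) +
      (1 - Complex.normSq z) * (1 - r ^ 2) := by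
  simp only [Complex.normSq_apply, Complex.sub_re, Complex.sub_im, Complex.mul_re, Complex.mul_im,
    Complex.ofReal_re, Complex.ofReal_im, Complex.one_re, Complex.one_im]
  ring

private theorem eser_taylor {f : ℂ → ℂ} (hf : DifferentiableOn ℂ f (Metric.ball 0 1)) {ζ : ℂ}
    (hζ : ‖ζ‖ < 1) : HasSum (fun k : ℕ => tc f k * ζ ^ k) (f ζ) := by
  have h := Complex.hasSum_taylorSeries_on_ball (c := 0) (r := 1) hf (z := ζ) (by simpa using hζ)
  refine h.congr_fun ?_
  intro k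
  unfold tc
  simp only [smul_eq_mul, sub_zero]
  ring

private theorem eser_tc_h0f (k : ℕ) : tc h0f k = (h0c k : ℂ) := by
  rcases Nat.eq_zero_or_pos k with hk | hk
  · subst hk
    simp [tc, h0f, h0c]
  · exact tc_h0 hk

theorem E_hasSum {h : ℂ → ℂ} (hh : HCls h) {r : ℝ} (hr0 : 0 < r) (hr1 : r < 1) {z : ℂ}
    (hz : ‖z‖ < 1) :
    HasSum (fun k : ℕ => ((h0c k : ℂ) - tc (shiftf h r) k) * ((z - r) / (1 - r * z)) ^ k)
      (h0f z - h z - (h0f r - h r)) := by
  have hr : ‖(r : ℂ)‖ < 1 := by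
    rw [Complex.norm_real, Real.norm_eq_abs, abs_of_pos hr0]
    exact hr1
  have hz2 : Complex.normSq z < 1 := by
    rw [Complex.normSq_eq_norm_sq]
    have := norm_nonneg z
    nlinarith
  have hr2 : r ^ 2 < 1 := by nlinarith
  have hpos : 0 < (1 - Complex.normSq z) * (1 - r ^ 2) :=
    mul_pos (by linarith) (by linarith)
  have hN := eser_normSq z r
  have hne : (1 : ℂ) - r * z ≠ 0 := by
    intro h0
    rw [h0, map_zero] at hN
    have := Complex.normSq_nonneg (z - r)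
    linarith
  set ζ : ℂ := (z - r) / (1 - r * z) with hζdef
  have hζ : ‖ζ‖ < 1 := by
    have h1 : Complex.normSq ζ < 1 := by
      rw [hζdef, map_div₀, div_lt_one (Complex.normSq_pos.mpr hne)]
      linarith
    rw [Complex.normSq_eq_norm_sq] at h1
    have := norm_nonneg ζ
    nlinarith
  have hr2c : (1 : ℂ) - (r : ℂ) ^ 2 ≠ 0 := by
    intro h0
    have h1 : (1 - r ^ 2 : ℝ) = 0 := by exact_mod_cast h0
    linarith
  have hmul : ζ * (1 - r * z) = z - r := by
    rw [hζdef]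
    exact div_mul_cancel₀ _ hne
  have hden : (1 : ℂ) + r * ζ ≠ 0 := by
    intro h0
    apply hr2c
    have h1 : ((1 : ℂ) + r * ζ) * (1 - r * z) = 1 - (r : ℂ) ^ 2 := by
      linear_combination (r : ℂ) * hmul
    rw [← h1, h0, zero_mul]
  have hzz : (ζ + r) / (1 + r * ζ) = z := by
    rw [div_eq_iff hden]
    linear_combination hmul
  have hH : shiftf h r ζ = h z - h r := by
    unfold shiftf
    rw [Complex.conj_ofReal, hzz]
  have h0 : h0f z - h0f r = h0f ζ := by
    have := h0f_shift hr0.le hr1 hζ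
    rwa [hzz] at this
  have t1 := eser_taylor (f := h0f) h0_diff hζ
  have t2 := eser_taylor (hh.shift hr).diff hζ
  have t3 := t1.sub t2
  have e : h0f z - h z - (h0f r - h r) = h0f ζ - shiftf h r ζ := by
    rw [hH, ← h0]
    ring
  rw [e]
  refine t3.congr_fun ?_
  intro k
  rw [eser_tc_h0f]
  ring

theorem norm_zeta {r : ℝ} (hr0 : 0 < r) (hr1 : r < 1) (θ : ℝ) :
    ‖(circleMap 0 r θ - r) / (1 - r * circleMap 0 r θ)‖ ^ 2 =
      (2 * (r / (1 - r ^ 2)) * Real.sin (θ / 2)) ^ 2 /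
        (1 + (2 * (r / (1 - r ^ 2)) * Real.sin (θ / 2)) ^ 2) := by
  have hr2 : 0 < 1 - r ^ 2 := by nlinarith
  have hN := eser_normSq (circleMap 0 r θ) r
  have hz : Complex.normSq (circleMap 0 r θ) = r ^ 2 := by
    rw [Complex.normSq_eq_norm_sq, norm_circleMap_zero, sq_abs]
  have hre : (circleMap 0 r θ).re = r * Real.cos θ := by
    simp [circleMap, Complex.exp_mul_I, ← Complex.ofReal_cos, ← Complex.ofReal_sin]
  have him : (circleMap 0 r θ).im = r * Real.sin θ := by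
    simp [circleMap, Complex.exp_mul_I, ← Complex.ofReal_cos, ← Complex.ofReal_sin]
  have hcos : Real.cos θ = 1 - 2 * Real.sin (θ / 2) ^ 2 := by
    have h1 := Real.cos_two_mul (θ / 2)
    have h2 := Real.sin_sq_add_cos_sq (θ / 2)
    rw [mul_div_cancel₀ θ (two_ne_zero)] at h1
    linarith
  have hA : Complex.normSq (circleMap 0 r θ - r) = 4 * r ^ 2 * Real.sin (θ / 2) ^ 2 := by
    rw [Complex.normSq_apply, Complex.sub_re, Complex.sub_im, Complex.ofReal_re, Complex.ofReal_im,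
      hre, him]
    have h2 := Real.sin_sq_add_cos_sq θ
    rw [hcos] at h2 ⊢
    linear_combination r ^ 2 * h2
  rw [norm_div, div_pow, ← Complex.normSq_eq_norm_sq, ← Complex.normSq_eq_norm_sq, hN, hz, hA]
  have h3 : (4 * r ^ 2 * Real.sin (θ / 2) ^ 2 + (1 - r ^ 2) * (1 - r ^ 2)) ≠ 0 := by
    have : 0 < (1 - r ^ 2) * (1 - r ^ 2) := mul_pos hr2 hr2
    positivity
  have h4 : (1 + (2 * (r / (1 - r ^ 2)) * Real.sin (θ / 2)) ^ 2) ≠ 0 := by positivity
  rw [div_eq_div_iff h3 h4]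
  field_simp
  ring

end MP4a1962
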