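import Pool.Agent.Lib.MP_4a1962_an.CG0
import Pool.Agent.Lib.MP_4a1962_an.CX
import Pool.Agent.Lib.MP_4a1962_an.ESer

/-!
# CGeo: geometry of the circle `|z| = r`

`kap_pos`, `Xr_nonneg`, `continuous_Xr` are in CTf, `continuous_G0`, `G0_neg`, `norm_G0_eq` in CG0.
-/

set_option autoImplicit false

open MeasureTheory Set Filter Topology
open scoped Real ENNReal NNReal

namespace MP4a1962

theorem bet_ge {r : ℝ} (hr0 : 0 < r) (hr1 : r < 1) : 4 ≤ bet r := by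
  unfold bet
  rw [le_div_iff₀ hr0]
  nlinarith [sq_nonneg (1 - r)]

theorem ztr_norm_sq {r : ℝ} (hr0 : 0 < r) (hr1 : r < 1) (θ : ℝ) :
    ‖ztr r θ‖ ^ 2 = Xr r θ ^ 2 / (1 + Xr r θ ^ 2) := by
  have h := norm_zeta hr0 hr1 θ
  have e : Xr r θ ^ 2 = (2 * (r / (1 - r ^ 2)) * Real.sin (θ / 2)) ^ 2 := by
    unfold Xr kap
    rw [mul_pow, sq_abs, ← mul_pow]
  unfold ztr
  rw [h, e]

theorem ztr_denom {r : ℝ} (hr0 : 0 < r) (hr1 : r < 1) (θ : ℝ) :
    1 - (r : ℂ) * circleMap 0 r θ ≠ 0 := by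
  intro h
  have h1 : (r : ℂ) * circleMap 0 r θ = 1 := by
    rw [sub_eq_zero] at h
    exact h.symm
  have h2 : ‖(r : ℂ) * circleMap 0 r θ‖ = 1 := by rw [h1, norm_one]
  rw [norm_mul, norm_circleMap_zero, Complex.norm_real, Real.norm_eq_abs, abs_of_pos hr0] at h2
  nlinarith

theorem continuous_ztr {r : ℝ} (hr0 : 0 < r) (hr1 : r < 1) : Continuous (ztr r) := by
  unfold ztr
  exact ((continuous_circleMap 0 r).sub continuous_const).div
    (continuous_const.sub (continuous_const.mul (continuous_circleMap 0 r)))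
    (ztr_denom hr0 hr1)

theorem ztr_neg {r : ℝ} (_hr0 : 0 < r) (_hr1 : r < 1) (θ : ℝ) :
    ztr r (-θ) = (starRingEnd ℂ) (ztr r θ) := by
  unfold ztr
  rw [circleMap_neg_conj]
  simp only [map_div₀, map_sub, map_mul, map_one, Complex.conj_ofReal]

/-- `Re h0f z - Mr ≤ - log (1 + β X²)` -/
theorem re_h0f_le {r : ℝ} (hr0 : 0 < r) (hr1 : r < 1) (θ : ℝ) :
    (h0f (circleMap 0 r θ)).re - Mr r ≤ - Real.log (1 + bet r * Xr r θ ^ 2) := by
  rw [re_h0f_circle hr0 hr1]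
  have h1 := arg_pos_circle hr0 hr1 θ
  have h2 : Real.log (1 - (1 - r) ^ 2 / r * Xr r θ ^ 2) ≤ 0 := by
    apply Real.log_nonpos h1.le
    have : 0 ≤ (1 - r) ^ 2 / r * Xr r θ ^ 2 := by positivity
    linarith
  unfold bet
  linarith

theorem norm_G0_le {p : ℝ} (hp : 0 ≤ p) {r : ℝ} (hr0 : 0 < r) (hr1 : r < 1) (n : ℕ) (θ : ℝ) :
    ‖G0 p r n θ‖ ≤ (1 + bet r * Xr r θ ^ 2) ^ (-p) := by
  have hb := bet_ge hr0 hr1
  have hpos : 0 < 1 + bet r * Xr r θ ^ 2 := by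
    have := sq_nonneg (Xr r θ)
    nlinarith
  rw [norm_G0_eq p hr0 hr1, Real.rpow_def_of_pos hpos, Real.exp_le_exp]
  have := mul_le_mul_of_nonneg_left (re_h0f_le hr0 hr1 θ) hp
  linarith

end MP4a1962
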