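import Pool.Agent.Lib.MP_4a1962_an.CTf

/-!
# CGeoH: the extremal map on the circle of radius `r`

Let `z = r e^{iθ}`, `s = sin (θ/2)`, `X = Xr r θ`, so `X² = 4 r² s²/(1-r²)²`.

* `1 ± z ≠ 0` have positive real part, `(1+z)/(1-z) = (1 - r² + 2 i r sin θ)/|1-z|²` has positive real part.
* `|1+z|² = (1+r)² - 4 r s²`, `|1-z|² = (1-r)² + 4 r s²`. So
  `|(1+z)/(1-z)|² = ((1+r)/(1-r))² (1 - 4 r s²/(1+r)²)/(1 + 4 r s²/(1-r)²)`, and
  `4 r s²/(1+r)² = ((1-r)²/r) X²`, `4 r s²/(1-r)² = ((1+r)²/r) X²`.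
  `Re h0f z = 2 log |(1+z)/(1-z)| = log |(1+z)/(1-z)|²` (`re_h0f_circle`).
* `Im h0f z = 2 arg ((1+z)/(1-z)) = 2 arctan (2 r sin θ/(1-r²))` (`im_h0f_circle`;
  `Complex.arg` of a number with positive real part is `arctan (im/re)`: `Complex.arg_of_re_nonneg`,
  `Real.arctan_eq_arcsin`, or `Complex.tan_arg`-type lemmas).
* `re_h0f_le_T`: `log (1 - ...) ≤ 0` and `(1+r)²/r ≥ 4 ≥ 1`.
* `re_h0f_ge`: `(1-r)²/r ≤ 33`, `(1+r)²/r ≤ 36` for `r ≥ 1/33`; `log (1-y) ≥ -2y` for `0 ≤ y ≤ 1/2`,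
  `log (1+x) ≤ x`.
* `re_h0f_anti`: the formula of `re_h0f_circle` is decreasing in `X²`.
* `h0f_conj`: `(1+z)/(1-z)` is not a negative real number, `Complex.log_conj`.
-/

set_option autoImplicit false

open MeasureTheory Set Filter Topology
open scoped Real ENNReal NNReal

namespace MP4a1962

private theorem cgh_ne_sub {z : ℂ} (hz : ‖z‖ < 1) : (1 - z) ≠ 0 := by
  intro h
  have h2 : z = 1 := (sub_eq_zero.1 h).symm
  rw [h2, norm_one] at hz
  exact lt_irrefl _ hz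

private theorem cgh_ne_add {z : ℂ} (hz : ‖z‖ < 1) : (1 + z) ≠ 0 := by
  intro h
  have h2 : z = -1 := by linear_combination h
  rw [h2, norm_neg, norm_one] at hz
  exact lt_irrefl _ hz

private theorem cgh_re_pos {z : ℂ} (hz : ‖z‖ < 1) : 0 < ((1 + z) / (1 - z)).re := by
  have h1 := cgh_ne_sub hz
  have h3 : 0 < Complex.normSq (1 - z) := Complex.normSq_pos.2 h1
  rw [Complex.div_re, ← add_div]
  apply div_pos _ h3
  have h4 : z.re ^ 2 + z.im ^ 2 < 1 := by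
    have h5 := Complex.sq_norm z
    rw [Complex.normSq_apply] at h5
    nlinarith [norm_nonneg z]
  simp only [Complex.add_re, Complex.one_re, Complex.sub_re, Complex.add_im, Complex.one_im,
    Complex.sub_im]
  nlinarith

private theorem cgh_re (r θ : ℝ) : (circleMap 0 r θ).re = r * Real.cos θ := by
  simp [circleMap, Complex.exp_ofReal_mul_I_re]

private theorem cgh_im (r θ : ℝ) : (circleMap 0 r θ).im = r * Real.sin θ := by
  simp [circleMap, Complex.exp_ofReal_mul_I_im]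

private theorem cgh_norm {r : ℝ} (hr0 : 0 < r) (hr1 : r < 1) (θ : ℝ) :
    ‖circleMap 0 r θ‖ < 1 := by
  rw [norm_circleMap_zero, abs_of_pos hr0]
  exact hr1

private theorem cgh_cos (θ : ℝ) : Real.cos θ = 1 - 2 * Real.sin (θ / 2) ^ 2 := by
  have h1 := Real.cos_two_mul (θ / 2)
  have h2 := Real.sin_sq_add_cos_sq (θ / 2)
  rw [mul_div_cancel₀ θ two_ne_zero] at h1
  linarith

private theorem cgh_Xsq (r θ : ℝ) :
    Xr r θ ^ 2 = 4 * kap r ^ 2 * Real.sin (θ / 2) ^ 2 := by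
  unfold Xr
  rw [mul_pow, mul_pow, sq_abs]
  ring

private theorem cgh_A {r : ℝ} (hr0 : 0 < r) (hr1 : r < 1) (θ : ℝ) :
    (1 - (1 - r) ^ 2 / r * Xr r θ ^ 2) * (1 + r) ^ 2 =
      Complex.normSq (1 + circleMap 0 r θ) := by
  rw [Complex.normSq_apply, Complex.add_re, Complex.add_im, cgh_re, cgh_im, cgh_Xsq]
  simp only [Complex.one_re, Complex.one_im, zero_add]
  have h1 : (1 - r ^ 2) = (1 - r) * (1 + r) := by ring
  have h2 : (1 - r) ≠ 0 := by linarith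
  have h3 : (1 + r) ≠ 0 := by linarith
  have h4 : (1 + r * Real.cos θ) * (1 + r * Real.cos θ) + r * Real.sin θ * (r * Real.sin θ) =
      1 + 2 * r * Real.cos θ + r ^ 2 * (Real.sin θ ^ 2 + Real.cos θ ^ 2) := by ring
  rw [h4, Real.sin_sq_add_cos_sq, cgh_cos θ]
  unfold kap
  rw [h1]
  field_simp
  ring

private theorem cgh_B {r : ℝ} (hr0 : 0 < r) (hr1 : r < 1) (θ : ℝ) :
    (1 + (1 + r) ^ 2 / r * Xr r θ ^ 2) * (1 - r) ^ 2 =
      Complex.normSq (1 - circleMap 0 r θ) := by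
  rw [Complex.normSq_apply, Complex.sub_re, Complex.sub_im, cgh_re, cgh_im, cgh_Xsq]
  simp only [Complex.one_re, Complex.one_im, zero_sub]
  have h1 : (1 - r ^ 2) = (1 - r) * (1 + r) := by ring
  have h2 : (1 - r) ≠ 0 := by linarith
  have h3 : (1 + r) ≠ 0 := by linarith
  have h4 : (1 - r * Real.cos θ) * (1 - r * Real.cos θ) + -(r * Real.sin θ) * -(r * Real.sin θ) =
      1 - 2 * r * Real.cos θ + r ^ 2 * (Real.sin θ ^ 2 + Real.cos θ ^ 2) := by ring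
  rw [h4, Real.sin_sq_add_cos_sq, cgh_cos θ]
  unfold kap
  rw [h1]
  field_simp
  ring

theorem h0f_real {r : ℝ} (hr0 : 0 ≤ r) (hr1 : r < 1) : h0f r = ((Mr r : ℝ) : ℂ) := by
  unfold h0f Mr
  have h1 : (0 : ℝ) ≤ (1 + r) / (1 - r) := div_nonneg (by linarith) (by linarith)
  rw [Complex.ofReal_mul, Complex.ofReal_log h1]
  push_cast
  rfl

theorem arg_pos_circle {r : ℝ} (hr0 : 0 < r) (hr1 : r < 1) (θ : ℝ) :
    0 < 1 - (1 - r) ^ 2 / r * Xr r θ ^ 2 := by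
  have h1 := cgh_A hr0 hr1 θ
  have h2 : 0 < Complex.normSq (1 + circleMap 0 r θ) :=
    Complex.normSq_pos.2 (cgh_ne_add (cgh_norm hr0 hr1 θ))
  rw [← h1] at h2
  exact pos_of_mul_pos_left h2 (sq_nonneg _)

private theorem cgh_B_pos {r : ℝ} (hr0 : 0 < r) (θ : ℝ) :
    1 ≤ 1 + (1 + r) ^ 2 / r * Xr r θ ^ 2 := by
  have : 0 ≤ (1 + r) ^ 2 / r * Xr r θ ^ 2 := by positivity
  linarith

theorem re_h0f_circle {r : ℝ} (hr0 : 0 < r) (hr1 : r < 1) (θ : ℝ) :
    (h0f (circleMap 0 r θ)).re = Mr r + Real.log (1 - (1 - r) ^ 2 / r * Xr r θ ^ 2) -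
      Real.log (1 + (1 + r) ^ 2 / r * Xr r θ ^ 2) := by
  have hz := cgh_norm hr0 hr1 θ
  have hA := arg_pos_circle hr0 hr1 θ
  have hB : 0 < 1 + (1 + r) ^ 2 / r * Xr r θ ^ 2 := lt_of_lt_of_le one_pos (cgh_B_pos hr0 θ)
  have h1 : (h0f (circleMap 0 r θ)).re =
      Real.log (Complex.normSq (1 + circleMap 0 r θ)) -
        Real.log (Complex.normSq (1 - circleMap 0 r θ)) := by
    unfold h0f
    rw [Complex.mul_re, Complex.log_re, norm_div,
      Real.log_div (norm_ne_zero_iff.2 (cgh_ne_add hz)) (norm_ne_zero_iff.2 (cgh_ne_sub hz)),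
      ← Complex.sq_norm, ← Complex.sq_norm, Real.log_pow, Real.log_pow]
    simp only [Complex.re_ofNat, Complex.im_ofNat, zero_mul, sub_zero, Nat.cast_ofNat]
    ring
  have h2 : (1 + r) ≠ 0 := by linarith
  have h3 : (1 - r) ≠ 0 := by linarith
  rw [h1, ← cgh_A hr0 hr1, ← cgh_B hr0 hr1, Real.log_mul hA.ne' (pow_ne_zero 2 h2),
    Real.log_mul hB.ne' (pow_ne_zero 2 h3), Real.log_pow, Real.log_pow]
  unfold Mr
  rw [Real.log_div h2 h3]
  push_cast
  ring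

theorem im_h0f_circle {r : ℝ} (hr0 : 0 < r) (hr1 : r < 1) (θ : ℝ) :
    (h0f (circleMap 0 r θ)).im = 2 * Real.arctan (2 * kap r * Real.sin θ) := by
  have hz := cgh_norm hr0 hr1 θ
  set w := (1 + circleMap 0 r θ) / (1 - circleMap 0 r θ) with hw
  have hre : 0 < w.re := cgh_re_pos hz
  have h1 : (h0f (circleMap 0 r θ)).im = 2 * w.arg := by
    unfold h0f
    rw [Complex.mul_im, Complex.log_im]
    simp [hw]
  have h2 := abs_lt.1 (Complex.abs_arg_lt_pi_div_two_iff.mpr (Or.inl hre))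
  have h3 : w.arg = Real.arctan (w.im / w.re) := by
    rw [← Complex.tan_arg, Real.arctan_tan h2.1 h2.2]
  have hN : Complex.normSq (1 - circleMap 0 r θ) ≠ 0 :=
    (Complex.normSq_pos.2 (cgh_ne_sub hz)).ne'
  have h4 : w.im / w.re = 2 * kap r * Real.sin θ := by
    have h5 : w.re * Complex.normSq (1 - circleMap 0 r θ) = 1 - r ^ 2 := by
      rw [hw, Complex.div_re, ← add_div, div_mul_cancel₀ _ hN]
      simp only [Complex.add_re, Complex.one_re, Complex.sub_re, Complex.add_im, Complex.one_im,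
        Complex.sub_im, cgh_re, cgh_im]
      have h6 := Real.sin_sq_add_cos_sq θ
      linear_combination (-r ^ 2) * h6
    have h7 : w.im * Complex.normSq (1 - circleMap 0 r θ) = 2 * r * Real.sin θ := by
      rw [hw, Complex.div_im, ← sub_div, div_mul_cancel₀ _ hN]
      simp only [Complex.add_re, Complex.one_re, Complex.sub_re, Complex.add_im, Complex.one_im,
        Complex.sub_im, cgh_re, cgh_im]
      ring
    have h8 : (1 - r ^ 2) ≠ 0 := by nlinarith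
    rw [← mul_div_mul_right _ _ hN, h5, h7]
    unfold kap
    field_simp
  rw [h1, h3, h4]

theorem re_h0f_le_T {r : ℝ} (hr0 : 0 < r) (hr1 : r < 1) (θ : ℝ) :
    (h0f (circleMap 0 r θ)).re ≤ Mr r - Real.log (Tf r θ) := by
  rw [re_h0f_circle hr0 hr1]
  have hA := arg_pos_circle hr0 hr1 θ
  have h1 : Real.log (1 - (1 - r) ^ 2 / r * Xr r θ ^ 2) ≤ 0 := by
    apply Real.log_nonpos hA.le
    have : 0 ≤ (1 - r) ^ 2 / r * Xr r θ ^ 2 := by positivity
    linarith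
  have h2 : Real.log (Tf r θ) ≤ Real.log (1 + (1 + r) ^ 2 / r * Xr r θ ^ 2) := by
    apply Real.log_le_log (Tf_pos r θ)
    unfold Tf
    have h3 : 1 ≤ (1 + r) ^ 2 / r := by
      rw [le_div_iff₀ hr0]
      nlinarith
    nlinarith [sq_nonneg (Xr r θ)]
  linarith

theorem re_h0f_ge {r : ℝ} (hr0 : 1 / 33 ≤ r) (hr1 : r < 1) {θ : ℝ} (hX : Xr r θ ^ 2 ≤ 1 / 66) :
    Mr r - 102 * Xr r θ ^ 2 ≤ (h0f (circleMap 0 r θ)).re := by
  have hr : 0 < r := by linarith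
  rw [re_h0f_circle hr hr1]
  have hX0 : 0 ≤ Xr r θ ^ 2 := sq_nonneg _
  have h1 : (1 - r) ^ 2 / r ≤ 33 := by
    rw [div_le_iff₀ hr]
    nlinarith
  have h2 : (1 + r) ^ 2 / r ≤ 36 := by
    rw [div_le_iff₀ hr]
    nlinarith [mul_nonneg (sub_nonneg.2 hr0) (sub_nonneg.2 hr1.le)]
  have h1' : 0 ≤ (1 - r) ^ 2 / r := by positivity
  have h2' : 0 ≤ (1 + r) ^ 2 / r := by positivity
  set y := (1 - r) ^ 2 / r * Xr r θ ^ 2 with hy
  have hy0 : 0 ≤ y := mul_nonneg h1' hX0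
  have hy1 : y ≤ 33 * Xr r θ ^ 2 := mul_le_mul_of_nonneg_right h1 hX0
  have hy2 : y ≤ 1 / 2 := by linarith
  have h3 : -(2 * y) ≤ Real.log (1 - y) := by
    have h4 := Real.one_sub_inv_le_log_of_pos (show 0 < 1 - y by linarith)
    refine le_trans ?_ h4
    have h5 : (1 - y)⁻¹ ≤ 1 + 2 * y := by
      rw [inv_le_comm₀ (by linarith) (by linarith), inv_le_iff_one_le_mul₀ (by linarith)]
      nlinarith
    linarith
  have h6 : Real.log (1 + (1 + r) ^ 2 / r * Xr r θ ^ 2) ≤ 36 * Xr r θ ^ 2 := by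
    have h7 := Real.log_le_sub_one_of_pos (lt_of_lt_of_le one_pos (cgh_B_pos hr θ))
    have h8 : (1 + r) ^ 2 / r * Xr r θ ^ 2 ≤ 36 * Xr r θ ^ 2 :=
      mul_le_mul_of_nonneg_right h2 hX0
    linarith
  linarith

theorem re_h0f_anti {r : ℝ} (hr0 : 0 < r) (hr1 : r < 1) {θ θ' : ℝ} (h : Xr r θ ≤ Xr r θ') :
    (h0f (circleMap 0 r θ')).re ≤ (h0f (circleMap 0 r θ)).re := by
  rw [re_h0f_circle hr0 hr1, re_h0f_circle hr0 hr1]
  have h1 : Xr r θ ^ 2 ≤ Xr r θ' ^ 2 := pow_le_pow_left₀ (Xr_nonneg hr0 hr1 θ) h 2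
  have h2 : 0 ≤ (1 - r) ^ 2 / r := by positivity
  have h3 : 0 ≤ (1 + r) ^ 2 / r := by positivity
  have h4 : Real.log (1 - (1 - r) ^ 2 / r * Xr r θ' ^ 2) ≤
      Real.log (1 - (1 - r) ^ 2 / r * Xr r θ ^ 2) := by
    apply Real.log_le_log (arg_pos_circle hr0 hr1 θ')
    linarith [mul_le_mul_of_nonneg_left h1 h2]
  have h5 : Real.log (1 + (1 + r) ^ 2 / r * Xr r θ ^ 2) ≤
      Real.log (1 + (1 + r) ^ 2 / r * Xr r θ' ^ 2) := by
    apply Real.log_le_log (lt_of_lt_of_le one_pos (cgh_B_pos hr0 θ))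
    linarith [mul_le_mul_of_nonneg_left h1 h3]
  linarith

theorem h0f_conj {z : ℂ} (hz : ‖z‖ < 1) : h0f ((starRingEnd ℂ) z) = (starRingEnd ℂ) (h0f z) := by
  have h1 : ((1 + z) / (1 - z)).arg ≠ π := by
    have h2 := abs_lt.1 (Complex.abs_arg_lt_pi_div_two_iff.mpr (Or.inl (cgh_re_pos hz)))
    have := Real.pi_pos
    intro h
    linarith [h2.2]
  unfold h0f
  have h3 : (1 + (starRingEnd ℂ) z) / (1 - (starRingEnd ℂ) z) =
      (starRingEnd ℂ) ((1 + z) / (1 - z)) := by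
    rw [map_div₀, map_add, map_sub, map_one]
  rw [h3, Complex.log_conj _ h1, map_mul, map_ofNat]

end MP4a1962
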