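import Pool.Agent.Lib.MP_4a1962_an.CG0
import Pool.Agent.Lib.MP_4a1962_an.ExpMean

/-!
# CHalf: half exponents

`∫ exp ((p/2)(Re h z - Mr)) ≤ ∫ exp ((p/2)(Re h0f z - Mr)) ≤ ∫ T^(-p/2)`: `exp_mean` with `q = p/2` (the constant
factor `exp (-(p/2) Mr)` is taken out), `re_h0f_le_T`, `exp (-(p/2) log T) = T^(-(p/2))`; all integrands are
continuous.
-/

set_option autoImplicit false

open MeasureTheory Set Filter Topology
open scoped Real ENNReal NNReal

namespace MP4a1962

theorem half_mean {h : ℂ → ℂ} (hh : HCls h) {r : ℝ} (hr0 : 0 < r) (hr1 : r < 1) {p : ℝ}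
    (hp : 0 ≤ p) :
    ∫ θ in (-π)..π, Real.exp (p / 2 * ((h (circleMap 0 r θ)).re - Mr r)) ≤
      ∫ θ in (-π)..π, Tf r θ ^ (-(p / 2)) := by
  have e1 : ∀ (f : ℂ → ℂ) (θ : ℝ), Real.exp (p / 2 * ((f (circleMap 0 r θ)).re - Mr r)) =
      Real.exp (-(p / 2 * Mr r)) * Real.exp (p / 2 * (f (circleMap 0 r θ)).re) := by
    intro f θ
    rw [← Real.exp_add]
    congr 1
    ring
  have c0 : Continuous (fun θ : ℝ => (h0f (circleMap 0 r θ)).re) :=
    Complex.continuous_re.comp (continuous_h0f_circ hr0 hr1)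
  have hp2 : 0 ≤ p / 2 := by positivity
  calc ∫ θ in (-π)..π, Real.exp (p / 2 * ((h (circleMap 0 r θ)).re - Mr r))
      = Real.exp (-(p / 2 * Mr r)) *
          ∫ θ in (-π)..π, Real.exp (p / 2 * (h (circleMap 0 r θ)).re) := by
        simp_rw [e1]
        rw [intervalIntegral.integral_const_mul]
    _ ≤ Real.exp (-(p / 2 * Mr r)) *
          ∫ θ in (-π)..π, Real.exp (p / 2 * (h0f (circleMap 0 r θ)).re) :=
        mul_le_mul_of_nonneg_left (exp_mean hh hr0 hr1 hp2) (Real.exp_pos _).le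
    _ = ∫ θ in (-π)..π, Real.exp (p / 2 * ((h0f (circleMap 0 r θ)).re - Mr r)) := by
        simp_rw [e1]
        rw [intervalIntegral.integral_const_mul]
    _ ≤ ∫ θ in (-π)..π, Tf r θ ^ (-(p / 2)) := by
        refine intervalIntegral.integral_mono_on (by linarith [Real.pi_pos])
          (Continuous.intervalIntegrable (by fun_prop) _ _)
          (Continuous.intervalIntegrable ((continuous_Tf r).rpow_const
            fun θ => Or.inl (Tf_pos r θ).ne') _ _) fun θ _ => ?_
        rw [Real.rpow_def_of_pos (Tf_pos r θ)]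
        refine Real.exp_le_exp.2 ?_
        have h1 := re_h0f_le_T hr0 hr1 θ
        nlinarith

end MP4a1962
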