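import Pool.Agent.Lib.MP_4a1962_an.CX

/-!
# CMom: moments

`∫ X^k T^m T^(-p/2) ≤ C/(κ √p^(k+1))`, `C` and the threshold `P` depend on `k`, `m` only.

Proof. Let `j = (k+2)/2` (real number), `q = p/2 - m`. For `p ≥ P := 4 m + 2 k + 4` we have `q ≥ p/4` and `q ≥ j`
(`p/2 - m ≥ (k+2)/2` and `p/2 - m ≥ p/4`).
Let `a = q/j ≥ p/(4j) = p/(2(k+2)) > 0`. Bernoulli (`one_add_mul_self_le_rpow_one_add`, exponent
`q/j ≥ 1`): `(1+X²)^(q/j) ≥ 1 + a X²`, so `T^(-q) ≤ (1+aX²)^(-j)` (`Real.rpow_mul`, antitone).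
`X^k ≤ a^(-k/2) (1+aX²)^(k/2)` since `aX² ≤ 1 + aX²`. So `X^k T^(-q) ≤ a^(-k/2) (1+aX²)^(-1)`, and by `Xr_ge`
`aX² ≥ (b θ)²`, `b = (2/π) κ √a`. `∫_{-π}^{π} (1 + b²θ²)⁻¹ = (2/b) arctan (bπ) ≤ π/b`. Total:
`≤ a^(-k/2) π²/(2 κ √a) = (π²/2) (1/√a)^(k+1)/κ ≤ (π²/2) (√(2k+4))^(k+1)/(κ √p^(k+1))`.
-/

set_option autoImplicit false

open MeasureTheory Set Filter Topology
open scoped Real ENNReal NNReal

namespace MP4a1962

theorem moment_pt (k m : ℕ) {p X : ℝ} (hp : 4 * (m : ℝ) + 2 * k + 4 ≤ p) (hX : 0 ≤ X) :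
    X ^ k * (1 + X ^ 2) ^ m * (1 + X ^ 2) ^ (-(p / 2)) ≤
      (√(2 * k + 4) / √p) ^ k * (1 + p / (2 * k + 4) * X ^ 2)⁻¹ := by
  have hk0 : (0 : ℝ) ≤ k := Nat.cast_nonneg k
  have hm0 : (0 : ℝ) ≤ m := Nat.cast_nonneg m
  have hp0 : 0 < p := by linarith
  set T : ℝ := 1 + X ^ 2 with hT
  have hT1 : 1 ≤ T := by
    rw [hT]
    nlinarith [sq_nonneg X]
  have hT0 : 0 < T := by linarith
  set a : ℝ := p / (2 * k + 4) with ha
  have ha0 : 0 < a := by positivity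
  set W : ℝ := 1 + a * X ^ 2 with hW
  have hW1 : 1 ≤ W := by
    rw [hW]
    have : 0 ≤ a * X ^ 2 := by positivity
    linarith
  have hW0 : 0 < W := by linarith
  set w : ℝ := √W with hw
  have hw0 : 0 < w := Real.sqrt_pos.2 hW0
  have hw2 : w ^ 2 = W := Real.sq_sqrt hW0.le
  set j : ℝ := ((k : ℝ) + 2) / 2 with hj
  have hj0 : 0 < j := by positivity
  set q : ℝ := p / 2 - m with hq
  have hqj : 1 ≤ q / j := by
    rw [le_div_iff₀ hj0, hq, hj]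
    linarith
  have haq : a ≤ q / j := by
    rw [ha, hq, hj, div_le_div_iff₀ (by positivity) (by positivity)]
    nlinarith
  -- `w ^ (k + 2) ≤ T ^ q`
  have h1 : w ^ (k + 2) ≤ T ^ q := by
    have e1 : w ^ (k + 2) = W ^ j := by
      rw [hw, Real.sqrt_eq_rpow, ← Real.rpow_natCast, ← Real.rpow_mul hW0.le]
      congr 1
      rw [hj]
      push_cast
      ring
    have e2 : T ^ q = (T ^ (q / j)) ^ j := by
      rw [← Real.rpow_mul hT0.le, div_mul_cancel₀ _ hj0.ne']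
    rw [e1, e2]
    refine Real.rpow_le_rpow hW0.le ?_ hj0.le
    have h2 := one_add_mul_self_le_rpow_one_add (s := X ^ 2) (p := q / j)
      (by nlinarith [sq_nonneg X]) hqj
    refine le_trans ?_ h2
    rw [hW]
    have : a * X ^ 2 ≤ q / j * X ^ 2 := mul_le_mul_of_nonneg_right haq (sq_nonneg X)
    linarith
  have hTq : 0 < T ^ q := Real.rpow_pos_of_pos hT0 _
  have e3 : T ^ m * T ^ (-(p / 2)) = (T ^ q)⁻¹ := by
    rw [← Real.rpow_neg hT0.le, ← Real.rpow_natCast, ← Real.rpow_add hT0]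
    congr 1
    rw [hq]
    ring
  have hsa : √(2 * (k : ℝ) + 4) / √p = (√a)⁻¹ := by
    rw [ha, Real.sqrt_div hp0.le, inv_div]
  have hsa0 : 0 < √a := Real.sqrt_pos.2 ha0
  have hXw : X ≤ w * (√a)⁻¹ := by
    rw [← div_eq_mul_inv, le_div_iff₀ hsa0]
    refine Real.le_sqrt_of_sq_le ?_
    rw [mul_pow, Real.sq_sqrt ha0.le, hW]
    linarith [mul_comm (X ^ 2) a]
  rw [mul_assoc, e3, hsa]
  calc X ^ k * (T ^ q)⁻¹ ≤ (w * (√a)⁻¹) ^ k * (w ^ (k + 2))⁻¹ :=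
        mul_le_mul (pow_le_pow_left₀ hX hXw k) (inv_anti₀ (by positivity) h1)
          (inv_nonneg.2 hTq.le) (by positivity)
    _ = (√a)⁻¹ ^ k * W⁻¹ := by
        rw [mul_pow, pow_add, hw2, mul_inv]
        field_simp

theorem int_cauchy {b : ℝ} (hb : 0 < b) : ∫ θ in (-π)..π, (1 + (b * θ) ^ 2)⁻¹ ≤ π / b := by
  have h1 := intervalIntegral.integral_comp_mul_left (a := -π) (b := π)
    (fun x : ℝ => (1 + x ^ 2)⁻¹) hb.ne'
  rw [h1, integral_inv_one_add_sq, smul_eq_mul, mul_neg, Real.arctan_neg]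
  have h2 := Real.arctan_lt_pi_div_two (b * π)
  have h3 : Real.arctan (b * π) - -Real.arctan (b * π) ≤ π := by linarith
  rw [div_eq_inv_mul]
  exact mul_le_mul_of_nonneg_left h3 (inv_nonneg.2 hb.le)

theorem moment (k m : ℕ) : ∃ C P : ℝ, 0 < C ∧ 1 ≤ P ∧ ∀ p : ℝ, P ≤ p → ∀ r : ℝ, 0 < r → r < 1 →
    ∫ θ in (-π)..π, Xr r θ ^ k * Tf r θ ^ m * Tf r θ ^ (-(p / 2)) ≤
      C / (kap r * √p ^ (k + 1)) := by
  have hk0 : (0 : ℝ) ≤ k := Nat.cast_nonneg k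
  have hm0 : (0 : ℝ) ≤ m := Nat.cast_nonneg m
  have hπ : 0 < π := Real.pi_pos
  refine ⟨π ^ 2 / 2 * √(2 * (k : ℝ) + 4) ^ (k + 1), 4 * (m : ℝ) + 2 * k + 4, by positivity,
    by linarith, ?_⟩
  intro p hp r hr0 hr1
  have hp0 : 0 < p := by linarith
  have hκ := kap_pos hr0 hr1
  set s : ℝ := √(2 * (k : ℝ) + 4) with hs
  have hs0 : 0 < s := Real.sqrt_pos.2 (by positivity)
  have hs2 : s ^ 2 = 2 * (k : ℝ) + 4 := Real.sq_sqrt (by positivity)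
  set u : ℝ := √p with hu
  have hu0 : 0 < u := Real.sqrt_pos.2 hp0
  have hu2 : u ^ 2 = p := Real.sq_sqrt hp0.le
  set b : ℝ := 2 / π * kap r * (u / s) with hb
  have hb0 : 0 < b := by positivity
  have hcT : Continuous (Tf r) := continuous_Tf r
  have hcX : Continuous (Xr r) := continuous_Xr r
  have hc1 : Continuous fun θ => Xr r θ ^ k * Tf r θ ^ m * Tf r θ ^ (-(p / 2)) :=
    ((hcX.pow k).mul (hcT.pow m)).mul
      (hcT.rpow_const fun θ => Or.inl (Tf_pos r θ).ne')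
  have hc2 : Continuous fun θ : ℝ => (s / u) ^ k * (1 + (b * θ) ^ 2)⁻¹ := by
    refine continuous_const.mul (Continuous.inv₀ (by fun_prop) fun θ => ?_)
    positivity
  have hle : ∀ θ ∈ Set.Icc (-π) π, Xr r θ ^ k * Tf r θ ^ m * Tf r θ ^ (-(p / 2)) ≤
      (s / u) ^ k * (1 + (b * θ) ^ 2)⁻¹ := by
    intro θ hθ
    have h1 := moment_pt k m hp (Xr_nonneg hr0 hr1 θ)
    have h2 := Xr_ge hr0 hr1 (abs_le.2 ⟨hθ.1, hθ.2⟩)
    have h3 : (b * θ) ^ 2 ≤ p / (2 * (k : ℝ) + 4) * Xr r θ ^ 2 := by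
      have e : (b * θ) ^ 2 = p / (2 * (k : ℝ) + 4) * (2 / π * kap r * |θ|) ^ 2 := by
        rw [hb, ← hs2, ← hu2, mul_pow, mul_pow (2 / π * kap r) |θ|, sq_abs]
        field_simp
      rw [e]
      refine mul_le_mul_of_nonneg_left ?_ (by positivity)
      exact pow_le_pow_left₀ (by positivity) h2 2
    have h4 : (1 + p / (2 * (k : ℝ) + 4) * Xr r θ ^ 2)⁻¹ ≤ (1 + (b * θ) ^ 2)⁻¹ :=
      inv_anti₀ (by positivity) (by linarith)
    exact h1.trans (mul_le_mul_of_nonneg_left h4 (by positivity))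
  calc ∫ θ in (-π)..π, Xr r θ ^ k * Tf r θ ^ m * Tf r θ ^ (-(p / 2))
      ≤ ∫ θ in (-π)..π, (s / u) ^ k * (1 + (b * θ) ^ 2)⁻¹ :=
        intervalIntegral.integral_mono_on (by linarith) (hc1.intervalIntegrable _ _)
          (hc2.intervalIntegrable _ _) hle
    _ = (s / u) ^ k * ∫ θ in (-π)..π, (1 + (b * θ) ^ 2)⁻¹ := by
        rw [intervalIntegral.integral_const_mul]
    _ ≤ (s / u) ^ k * (π / b) := mul_le_mul_of_nonneg_left (int_cauchy hb0) (by positivity)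
    _ = π ^ 2 / 2 * s ^ (k + 1) / (kap r * u ^ (k + 1)) := by
        rw [hb, div_pow]
        field_simp
        ring

end MP4a1962
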