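import Pool.Agent.Lib.MP_4a1962_an.CGeo
import Pool.Agent.Lib.MP_4a1962_an.CMom

/-!
# CInt: moments
-/

set_option autoImplicit false

open MeasureTheory Set Filter Topology
open scoped Real ENNReal NNReal

namespace MP4a1962

theorem c_int (a m : ℕ) : ∃ C P : ℝ, 0 < C ∧ 1 ≤ P ∧ ∀ p r : ℝ, P ≤ p → 1 / 33 ≤ r → r < 1 →
    ∫ θ in (-π)..π, Xr r θ ^ a * (1 + Xr r θ ^ 2) ^ m * (1 + bet r * Xr r θ ^ 2) ^ (-p / 2) ≤
      C / (kap r * √p ^ (a + 1)) := by
  obtain ⟨C, P, hC, hP, h⟩ := moment a m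
  refine ⟨C, P, hC, hP, fun p r hp hr0 hr1 => ?_⟩
  have hr0' : 0 < r := by linarith
  have hb := bet_ge hr0' hr1
  refine le_trans ?_ (h p hp r hr0' hr1)
  have hX := continuous_Xr r
  have hT : ∀ θ, 0 < 1 + Xr r θ ^ 2 := fun θ => by positivity
  have hB : ∀ θ, 0 < 1 + bet r * Xr r θ ^ 2 := fun θ => by
    have := sq_nonneg (Xr r θ)
    nlinarith
  apply intervalIntegral.integral_mono_on (by linarith [Real.pi_pos])
  · apply Continuous.intervalIntegrable
    refine ((hX.pow a).mul ((continuous_const.add (hX.pow 2)).pow m)).mul ?_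
    exact (continuous_const.add (continuous_const.mul (hX.pow 2))).rpow_const
      (fun θ => Or.inl (hB θ).ne')
  · apply Continuous.intervalIntegrable
    refine ((hX.pow a).mul ((continuous_Tf r).pow m)).mul ?_
    exact (continuous_Tf r).rpow_const (fun θ => Or.inl (Tf_pos r θ).ne')
  · intro θ _
    have h1 : (1 + bet r * Xr r θ ^ 2) ^ (-p / 2) ≤ Tf r θ ^ (-(p / 2)) := by
      have e : -p / 2 = -(p / 2) := by ring
      rw [e]
      apply Real.rpow_le_rpow_of_nonpos (Tf_pos r θ)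
      · unfold Tf
        have := sq_nonneg (Xr r θ)
        nlinarith
      · linarith
    have h2 := Xr_nonneg hr0' hr1 θ
    unfold Tf at h1 ⊢
    gcongr

end MP4a1962
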