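import Pool.Agent.Lib.MP_4a1962_an.CLowPt
import Pool.Agent.Lib.MP_4a1962_an.CMom

/-!
# CLowI: lower bound for the extremal coefficient

`(∫ G0).re = ∫ Re G0 ≥ ∫ (low_pt)`. With `σ = 1/(κ√p)`, `t = 32 exp 102`:
`∫_{-π}^{π} (if |θ| ≤ σ then e^(-102)/2 else 0) = σ e^(-102)` (`σ ≤ π` because `κ√p ≥ √p/33 ≥ 1`), and
`∫_{-π}^{π} (π²/2) σ²/(θ² + t²σ²) ≤ (π²/2) σ² π/(tσ) = (π³/2) σ/t ≤ σ e^(-102)/2` (`int_cauchy` with
`b = 1/(tσ)`, `π³ < 32`). So `c = exp (-102)/2`, and `P` such that `√p ≥ 732 t³`, `p ≥ 1089`.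
(`kap r ≥ 33/1088 ≥ 1/33` for `r ≥ 1/33`.)
-/

set_option autoImplicit false

open MeasureTheory Set Filter Topology
open scoped Real ENNReal NNReal

namespace MP4a1962

theorem low_int : ∃ c P : ℝ, 0 < c ∧ 1 ≤ P ∧ ∀ p : ℝ, P ≤ p → ∀ (r : ℝ) (n : ℕ), 1 / 33 ≤ r → r < 1 →
    (n : ℝ) = 4 * p * kap r →
    c / (kap r * √p) ≤ (∫ θ in (-π)..π, G0 p r n θ).re := by
  set E : ℝ := Real.exp (-102) with hE
  have hE0 : 0 < E := Real.exp_pos _
  have hE1 : E ≤ 1 := by
    rw [hE]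
    exact Real.exp_le_one_iff.2 (by norm_num)
  set t : ℝ := 32 / E with ht
  have ht1 : 1 ≤ t := by
    rw [ht, le_div_iff₀ hE0]
    linarith
  have ht3 : 1 ≤ t ^ 3 := one_le_pow₀ ht1
  refine ⟨E / 2, (732 * t ^ 3) ^ 2, by positivity, ?_, ?_⟩
  · nlinarith
  intro p hp r n hr0 hr1 hn
  have hr0' : 0 < r := by linarith
  have hk := kap_pos hr0' hr1
  have hk33 : 1 / 33 ≤ kap r := by
    unfold kap
    have h1 : 0 < 1 - r ^ 2 := by nlinarith
    rw [le_div_iff₀ h1]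
    nlinarith
  have hsp : 732 * t ^ 3 ≤ √p := Real.le_sqrt_of_sq_le hp
  have hsp0 : 0 < √p := by linarith
  have hp66 : 66 ≤ p := by nlinarith
  have hp0 : 0 < p := by linarith
  set σ : ℝ := 1 / (kap r * √p) with hσ
  have hσ0 : 0 < σ := by positivity
  have hσ1 : σ ≤ 1 := by
    rw [hσ, div_le_one (by positivity)]
    nlinarith
  have hπ : 0 < π := Real.pi_pos
  have hσπ : σ ≤ π := by linarith [Real.pi_gt_three]
  have hcG : Continuous fun θ => (G0 p r n θ).re :=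
    Complex.continuous_re.comp (continuous_G0 p hr0' hr1 n)
  have hre : (∫ θ in (-π)..π, G0 p r n θ).re = ∫ θ in (-π)..π, (G0 p r n θ).re :=
    (Complex.reCLM.intervalIntegral_comp_comm
      ((continuous_G0 p hr0' hr1 n).intervalIntegrable (-π) π)).symm
  have hts : 0 < t * σ := by positivity
  set K : ℝ → ℝ := fun θ => π ^ 2 / 2 * σ ^ 2 / (θ ^ 2 + (t * σ) ^ 2) with hK
  have hden : ∀ θ : ℝ, 0 < θ ^ 2 + (t * σ) ^ 2 := fun θ => by positivity
  have hcK : Continuous K := by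
    refine Continuous.div continuous_const (by fun_prop) fun θ => (hden θ).ne'
  have hKi : ∫ θ in (-π)..π, K θ ≤ σ * (E / 2) := by
    have e : ∀ θ, K θ = π ^ 2 / (2 * t ^ 2) * (1 + (1 / (t * σ) * θ) ^ 2)⁻¹ := by
      intro θ
      have h1 := (hden θ).ne'
      have h2 : 1 + (1 / (t * σ) * θ) ^ 2 = (θ ^ 2 + (t * σ) ^ 2) / (t * σ) ^ 2 := by
        field_simp
        ring
      rw [h2, inv_div]
      simp only [hK]
      field_simp
    simp_rw [e]
    rw [intervalIntegral.integral_const_mul]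
    have h1 := int_cauchy (b := 1 / (t * σ)) (by positivity)
    calc π ^ 2 / (2 * t ^ 2) * ∫ θ in (-π)..π, (1 + (1 / (t * σ) * θ) ^ 2)⁻¹
        ≤ π ^ 2 / (2 * t ^ 2) * (π / (1 / (t * σ))) :=
          mul_le_mul_of_nonneg_left h1 (by positivity)
      _ = σ * (π ^ 3 / (2 * t)) := by
          field_simp
      _ ≤ σ * (E / 2) := by
          refine mul_le_mul_of_nonneg_left ?_ hσ0.le
          have h3 : π ^ 3 ≤ 32 := by
            have h4 := Real.pi_lt_d2
            have h5 : π ^ 3 ≤ 3.15 ^ 3 := pow_le_pow_left₀ hπ.le h4.le 3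
            refine h5.trans (by norm_num)
          rw [ht, div_le_div_iff₀ (by positivity) (by positivity)]
          have h6 : E * (2 * (32 / E)) = 64 := by
            field_simp
            norm_num
          rw [h6]
          linarith
  have hlow := fun θ (hθ : |θ| ≤ π) => low_pt (t := t) hr0 hr1 hk33 hn ht1 hp66 hsp hθ
  have hf0 : ∀ θ ∈ Set.Icc (-π) π, 0 ≤ (G0 p r n θ).re + K θ := by
    intro θ hθ
    have h1 := hlow θ (abs_le.2 ⟨hθ.1, hθ.2⟩)
    have h2 : (0 : ℝ) ≤ if |θ| ≤ 1 / (kap r * √p) then E / 2 else 0 := by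
      split_ifs <;> positivity
    simp only [hK]
    linarith
  have hf1 : ∀ θ ∈ Set.Icc (-σ) σ, E / 2 ≤ (G0 p r n θ).re + K θ := by
    intro θ hθ
    have h0 : |θ| ≤ σ := abs_le.2 ⟨hθ.1, hθ.2⟩
    have h1 := hlow θ (h0.trans hσπ)
    rw [if_pos h0] at h1
    simp only [hK]
    linarith
  have hcf : Continuous fun θ => (G0 p r n θ).re + K θ := hcG.add hcK
  have hA : 2 * σ * (E / 2) ≤ ∫ θ in (-π)..π, ((G0 p r n θ).re + K θ) := by
    have h1 : ∫ θ in (-σ)..σ, ((G0 p r n θ).re + K θ) ≤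
        ∫ θ in (-π)..π, ((G0 p r n θ).re + K θ) := by
      refine intervalIntegral.integral_mono_interval (by linarith) (by linarith) hσπ ?_
        (hcf.intervalIntegrable _ _)
      refine (ae_restrict_iff' measurableSet_Ioc).2 (Filter.Eventually.of_forall fun θ hθ => ?_)
      exact hf0 θ ⟨hθ.1.le, hθ.2⟩
    refine le_trans ?_ h1
    have h2 : ∫ _ in (-σ)..σ, (E / 2 : ℝ) = 2 * σ * (E / 2) := by
      rw [intervalIntegral.integral_const, smul_eq_mul]
      ring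
    rw [← h2]
    exact intervalIntegral.integral_mono_on (by linarith) (by simp)
      (hcf.intervalIntegrable _ _) hf1
  rw [intervalIntegral.integral_add (hcG.intervalIntegrable _ _) (hcK.intervalIntegrable _ _)]
    at hA
  rw [hre]
  have e2 : E / 2 / (kap r * √p) = σ * (E / 2) := by
    rw [hσ]
    ring
  rw [e2]
  linarith

end MP4a1962
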