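import Pool.Agent.Lib.MP_4a1962_an.CInt
import Pool.Agent.Lib.MP_4a1962_an.CLowI

/-!
# CLow: lower bound of the normalisation
-/

set_option autoImplicit false

open MeasureTheory Set Filter Topology
open scoped Real ENNReal NNReal

namespace MP4a1962

theorem c_low : ∃ c P : ℝ, 0 < c ∧ 1 ≤ P ∧ ∀ (p r : ℝ) (n : ℕ), P ≤ p → 1 / 33 ≤ r → r < 1 →
    (n : ℝ) = 4 * p * kap r → c / (kap r * √p) ≤ Z0 p r n := by
  obtain ⟨c, P, hc, hP, h⟩ := low_int
  exact ⟨c, P, hc, hP, fun p r n hp hr0 hr1 hn => h p hp r n hr0 hr1 hn⟩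

end MP4a1962
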