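import Pool.Agent.Lib.MP_4a1962_an.CPhase
import Pool.Agent.Lib.MP_4a1962_an.CX
import Pool.Agent.Lib.MP_4a1962_an.CG0

/-!
# CLowPt: pointwise lower bound for `Re G0`

`G0_re`: `G0 = exp (p (h0f z - Mr) - inθ)`, real part of the exponential.

Let `κ = kap r`, `σ = 1/(κ √p)`, `n = 4pκ`, so the phase is `φ = p (2 arctan (2κ sin θ) - 4κθ)`,
`|φ| ≤ 732 p (κ|θ|)³` (`im_h0f_circle`, `phase_le`); for `|θ| ≤ tσ`: `|φ| ≤ 732 t³/√p ≤ 1`, `cos φ ≥ 1/2`.

`low_pt`. (a) `|θ| ≤ σ`: `X ≤ κ|θ| ≤ 1/√p` (`Xr_le`), `X² ≤ 1/p ≤ 1/66`, `re_h0f_ge`: modulus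
`≥ exp (-102 p X²) ≥ exp (-102)`; so `Re G0 ≥ exp(-102)/2`. (b) `σ < |θ| ≤ tσ`: `Re G0 ≥ 0`.
(c) `|θ| > tσ`: `Re G0 ≥ -‖G0‖ ≥ -T^(-p) ≥ -1/(1+pX²)` (Bernoulli, `p ≥ 1`), `X ≥ (2/π)κ|θ|` (`Xr_ge`), so
`1/(1+pX²) ≤ π²/(4 p κ² θ²) = (π²/4) σ²/θ² ≤ (π²/2) σ²/(θ² + t²σ²)`.
-/

set_option autoImplicit false

open MeasureTheory Set Filter Topology
open scoped Real ENNReal NNReal

namespace MP4a1962

theorem G0_re {r : ℝ} (hr0 : 0 < r) (hr1 : r < 1) (p : ℝ) (n : ℕ) (θ : ℝ) :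
    (G0 p r n θ).re = Real.exp (p * ((h0f (circleMap 0 r θ)).re - Mr r)) *
      Real.cos (p * (h0f (circleMap 0 r θ)).im - n * θ) := by
  have _ := hr0
  have _ := hr1
  unfold G0
  rw [Complex.exp_re]
  congr 2
  · simp
  · simp

theorem low_pt {p r t : ℝ} {n : ℕ} (hr0 : 1 / 33 ≤ r) (hr1 : r < 1) (hk : 1 / 33 ≤ kap r)
    (hn : (n : ℝ) = 4 * p * kap r) (ht : 1 ≤ t) (hp : 66 ≤ p) (hpt : 732 * t ^ 3 ≤ √p) {θ : ℝ}
    (hθ : |θ| ≤ π) :
    (if |θ| ≤ 1 / (kap r * √p) then Real.exp (-102) / 2 else 0) -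
      π ^ 2 / 2 * (1 / (kap r * √p)) ^ 2 / (θ ^ 2 + (t * (1 / (kap r * √p))) ^ 2) ≤
      (G0 p r n θ).re := by
  have hr0' : 0 < r := by linarith
  have hκ : 0 < kap r := kap_pos hr0' hr1
  have hp0 : 0 < p := by linarith
  have hsp : 0 < √p := Real.sqrt_pos.2 hp0
  have hsp2 : √p * √p = p := Real.mul_self_sqrt hp0.le
  set κ := kap r with hκd
  set σ : ℝ := 1 / (κ * √p) with hσ
  have hσ0 : 0 < σ := by positivity
  have hσκ : κ * σ = 1 / √p := by
    rw [hσ]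
    field_simp
  have hpσ : p * κ ^ 2 * σ ^ 2 = 1 := by
    rw [hσ, div_pow, mul_pow, Real.sq_sqrt hp0.le]
    field_simp
  have hden : 0 < t ^ 2 * σ ^ 2 := by positivity
  have hnn : 0 ≤ π ^ 2 / 2 * σ ^ 2 / (θ ^ 2 + (t * σ) ^ 2) := by positivity
  have hre := G0_re hr0' hr1 p n θ
  have hph : p * (h0f (circleMap 0 r θ)).im - n * θ =
      p * (2 * Real.arctan (2 * κ * Real.sin θ) - 4 * κ * θ) := by
    rw [im_h0f_circle hr0' hr1, hn]
    ring
  have hcos : |θ| ≤ t * σ → 1 / 2 ≤ Real.cos (p * (h0f (circleMap 0 r θ)).im - n * θ) := by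
    intro h
    rw [hph]
    have h1 := phase_le hk θ
    have h2 : κ * |θ| ≤ t / √p := by
      calc κ * |θ| ≤ κ * (t * σ) := by gcongr
        _ = t * (κ * σ) := by ring
        _ = t / √p := by rw [hσκ]; ring
    have h3 : (κ * |θ|) ^ 3 ≤ (t / √p) ^ 3 := pow_le_pow_left₀ (by positivity) h2 3
    have h4 : p * (t / √p) ^ 3 = t ^ 3 / √p := by
      have e : p = √p ^ 2 := by rw [sq, hsp2]
      rw [div_pow]
      nth_rewrite 1 [e]
      field_simp
    have h5 : |p * (2 * Real.arctan (2 * κ * Real.sin θ) - 4 * κ * θ)| ≤ 1 := by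
      rw [abs_mul, abs_of_pos hp0]
      calc p * |2 * Real.arctan (2 * κ * Real.sin θ) - 4 * κ * θ|
          ≤ p * (732 * (κ * |θ|) ^ 3) := by gcongr
        _ ≤ p * (732 * (t / √p) ^ 3) := by gcongr
        _ = 732 * (p * (t / √p) ^ 3) := by ring
        _ = 732 * t ^ 3 / √p := by rw [h4]; ring
        _ ≤ 1 := by
            rw [div_le_one hsp]
            exact hpt
    have h6 := Real.one_sub_sq_div_two_le_cos
      (x := p * (2 * Real.arctan (2 * κ * Real.sin θ) - 4 * κ * θ))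
    have h7 : (p * (2 * Real.arctan (2 * κ * Real.sin θ) - 4 * κ * θ)) ^ 2 ≤ 1 := by
      rw [← sq_abs]
      have := abs_nonneg (p * (2 * Real.arctan (2 * κ * Real.sin θ) - 4 * κ * θ))
      nlinarith
    linarith
  by_cases hcase : |θ| ≤ t * σ
  · have hc := hcos hcase
    by_cases h1 : |θ| ≤ σ
    · rw [if_pos h1]
      have hX := Xr_le hr0' hr1 θ
      have hX0 := Xr_nonneg hr0' hr1 θ
      have hX1 : Xr r θ ≤ 1 / √p := by
        refine hX.trans ?_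
        rw [← hσκ]
        exact mul_le_mul_of_nonneg_left h1 hκ.le
      have hX2 : Xr r θ ^ 2 ≤ 1 / p := by
        have h2 := pow_le_pow_left₀ hX0 hX1 2
        rwa [div_pow, one_pow, Real.sq_sqrt hp0.le] at h2
      have hX3 : Xr r θ ^ 2 ≤ 1 / 66 := by
        refine hX2.trans ?_
        exact one_div_le_one_div_of_le (by norm_num) hp
      have h2 := re_h0f_ge hr0 hr1 hX3
      have h3 : -102 ≤ p * ((h0f (circleMap 0 r θ)).re - Mr r) := by
        have h4 : p * (Xr r θ ^ 2) ≤ 1 := by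
          calc p * (Xr r θ ^ 2) ≤ p * (1 / p) := by gcongr
            _ = 1 := by field_simp
        nlinarith
      have h4 : Real.exp (-102) ≤ Real.exp (p * ((h0f (circleMap 0 r θ)).re - Mr r)) :=
        Real.exp_le_exp.2 h3
      have h5 : Real.exp (-102) * (1 / 2) ≤ (G0 p r n θ).re := by
        rw [hre]
        exact mul_le_mul h4 hc (by norm_num) (Real.exp_pos _).le
      linarith
    · rw [if_neg h1]
      have h5 : 0 ≤ (G0 p r n θ).re := by
        rw [hre]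
        exact mul_nonneg (Real.exp_pos _).le (by linarith)
      linarith
  · push Not at hcase
    have h1 : ¬ |θ| ≤ σ := by
      push Not
      refine lt_of_le_of_lt ?_ hcase
      nlinarith
    rw [if_neg h1]
    have hθ0 : 0 < |θ| := lt_of_le_of_lt (by positivity) hcase
    have hX := Xr_ge hr0' hr1 hθ
    have hX0 : 0 < 2 / π * κ * |θ| := by
      have := Real.pi_pos
      positivity
    have hXp : 0 < Xr r θ := lt_of_lt_of_le hX0 hX
    have h2 : ‖G0 p r n θ‖ ≤ Tf r θ ^ (-p) := norm_G0_le_T hp0.le hr0' hr1 n θ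
    have h3 : 1 + p * Xr r θ ^ 2 ≤ Tf r θ ^ p := by
      unfold Tf
      exact one_add_mul_self_le_rpow_one_add (by nlinarith [sq_nonneg (Xr r θ)]) (by linarith)
    have h4 : Tf r θ ^ (-p) ≤ 1 / (p * Xr r θ ^ 2) := by
      rw [Real.rpow_neg (Tf_pos r θ).le, ← one_div]
      refine one_div_le_one_div_of_le (by positivity) ?_
      linarith
    have h5 : (2 / π * κ * |θ|) ^ 2 ≤ Xr r θ ^ 2 := pow_le_pow_left₀ hX0.le hX 2
    have h6 : 1 / (p * Xr r θ ^ 2) ≤ 1 / (p * (2 / π * κ * |θ|) ^ 2) := by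
      refine one_div_le_one_div_of_le (by positivity) ?_
      exact mul_le_mul_of_nonneg_left h5 hp0.le
    have hθ2 : 0 < θ ^ 2 := by
      rw [← sq_abs]
      positivity
    have h7 : 1 / (p * (2 / π * κ * |θ|) ^ 2) = π ^ 2 / 2 * σ ^ 2 / (2 * θ ^ 2) := by
      have hπ := Real.pi_pos
      rw [mul_pow, mul_pow, sq_abs, div_pow, hσ, div_pow, mul_pow, Real.sq_sqrt hp0.le]
      have : θ ^ 2 ≠ 0 := hθ2.ne'
      have hθne : θ ≠ 0 := by
        rintro rfl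
        simp at hθ0
      field_simp
    have h8 : π ^ 2 / 2 * σ ^ 2 / (2 * θ ^ 2) ≤ π ^ 2 / 2 * σ ^ 2 / (θ ^ 2 + (t * σ) ^ 2) := by
      refine div_le_div_of_nonneg_left (by positivity) (by positivity) ?_
      have h9 : (t * σ) ^ 2 ≤ θ ^ 2 := by
        rw [← sq_abs θ]
        exact pow_le_pow_left₀ (by positivity) hcase.le 2
      linarith
    have h10 : -‖G0 p r n θ‖ ≤ (G0 p r n θ).re := by
      have := Complex.abs_re_le_norm (G0 p r n θ)
      exact (abs_le.1 this).1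
    linarith

end MP4a1962
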