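import Pool.Agent.Lib.MP_4a1962_an.CLow
import Pool.Agent.Lib.MP_4a1962_an.CHalf

/-!
# CRegI: the regime `p d ≥ A`

`‖exp (p (h z - Mr) - inθ)‖ = exp (p (Re h z - Mr)) ≤ exp (-pd/2) exp ((p/2)(Re h z - Mr))` because
`Re h z - Mr ≤ Re h r - Mr = -d`. Integrate: `half_mean`, `moment 0 0`, `c_low`.
-/

set_option autoImplicit false

open MeasureTheory Set Filter Topology
open scoped Real ENNReal NNReal

namespace MP4a1962

theorem half_int : ∃ C P : ℝ, 0 < C ∧ 1 ≤ P ∧ ∀ (p r : ℝ) (h : ℂ → ℂ), P ≤ p → 1 / 33 ≤ r → r < 1 →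
    HCls h → ∫ θ in (-π)..π, Real.exp (p / 2 * ((h (circleMap 0 r θ)).re - Mr r)) ≤
      C / (kap r * √p) := by
  obtain ⟨C, P, hC, hP, h0⟩ := moment 0 0
  refine ⟨C, P, hC, hP, fun p r h hp hr0 hr1 hh => ?_⟩
  have hr0' : 0 < r := by linarith
  have h1 := half_mean hh hr0' hr1 (p := p) (by linarith)
  have h2 := h0 p hp r hr0' hr1
  simp only [pow_zero, one_mul, zero_add, pow_one] at h2
  exact h1.trans h2

theorem c_reg_I : ∃ A P : ℝ, 0 < A ∧ 1 ≤ P ∧ ∀ (p r : ℝ) (n : ℕ) (h : ℂ → ℂ),
    P ≤ p → 1 / 33 ≤ r → r < 1 → (n : ℝ) = 4 * p * kap r → HCls h →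
    (∀ θ : ℝ, (h (circleMap 0 r θ)).re ≤ (h r).re) → A ≤ p * (Mr r - (h r).re) →
    ‖∫ θ in (-π)..π, Complex.exp (p * (h (circleMap 0 r θ) - Mr r) - n * θ * Complex.I)‖ ≤
      Z0 p r n := by
  obtain ⟨C, P₁, hC, hP₁, hint⟩ := half_int
  obtain ⟨c, P₂, hc, hP₂, hlow⟩ := c_low
  -- `exp (-A/2) C ≤ c`
  set A : ℝ := max 1 (2 * Real.log (C / c)) with hA
  have hA1 : 1 ≤ A := le_max_left _ _
  have hAc : Real.exp (-(A / 2)) * C ≤ c := by
    have h1 : Real.log (C / c) ≤ A / 2 := by
      have := le_max_right (1 : ℝ) (2 * Real.log (C / c))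
      rw [← hA] at this
      linarith
    have h2 : C / c ≤ Real.exp (A / 2) := by
      rw [← Real.log_le_iff_le_exp (by positivity)]
      exact h1
    rw [Real.exp_neg, inv_mul_le_iff₀ (Real.exp_pos _)]
    rw [div_le_iff₀ hc] at h2
    exact h2
  refine ⟨A, max P₁ P₂, by linarith, hP₁.trans (le_max_left _ _), ?_⟩
  intro p r n h hp hr33 hr1 hn hh hmax hd
  have hp1 : P₁ ≤ p := (le_max_left _ _).trans hp
  have hp2 : P₂ ≤ p := (le_max_right _ _).trans hp
  have hp0 : 0 < p := by linarith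
  have hr0 : 0 < r := by linarith
  have hk := kap_pos hr0 hr1
  have hsp : 0 < √p := Real.sqrt_pos.2 hp0
  have hcont : Continuous (fun θ : ℝ => h (circleMap 0 r θ)) := continuous_h_circ hh hr0 hr1
  have hre : Continuous (fun θ : ℝ => (h (circleMap 0 r θ)).re) := Complex.continuous_re.comp hcont
  calc ‖∫ θ in (-π)..π, Complex.exp (p * (h (circleMap 0 r θ) - Mr r) - n * θ * Complex.I)‖
      ≤ ∫ θ in (-π)..π,
          ‖Complex.exp (p * (h (circleMap 0 r θ) - Mr r) - n * θ * Complex.I)‖ :=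
        intervalIntegral.norm_integral_le_integral_norm (by linarith [Real.pi_pos])
    _ ≤ ∫ θ in (-π)..π, Real.exp (-(A / 2)) *
          Real.exp (p / 2 * ((h (circleMap 0 r θ)).re - Mr r)) := by
        apply intervalIntegral.integral_mono_on (by linarith [Real.pi_pos])
        · apply Continuous.intervalIntegrable
          exact (Complex.continuous_exp.comp ((continuous_const.mul (hcont.sub continuous_const)).sub
            ((continuous_const.mul Complex.continuous_ofReal).mul continuous_const))).norm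
        · apply Continuous.intervalIntegrable
          exact continuous_const.mul (Real.continuous_exp.comp
            (continuous_const.mul (hre.sub continuous_const)))
        · intro θ _
          rw [Complex.norm_exp, ← Real.exp_add, Real.exp_le_exp]
          have e1 : ((p : ℂ) * (h (circleMap 0 r θ) - Mr r) - n * θ * Complex.I).re =
              p * ((h (circleMap 0 r θ)).re - Mr r) := by
            simp [Complex.mul_re]
          rw [e1]
          have h3 := hmax θ
          have h4 : p / 2 * ((h (circleMap 0 r θ)).re - Mr r) ≤ p / 2 * ((h r).re - Mr r) := by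
            gcongr
          nlinarith
    _ = Real.exp (-(A / 2)) *
          ∫ θ in (-π)..π, Real.exp (p / 2 * ((h (circleMap 0 r θ)).re - Mr r)) := by
        rw [intervalIntegral.integral_const_mul]
    _ ≤ Real.exp (-(A / 2)) * (C / (kap r * √p)) := by
        gcongr
        exact hint p r h hp1 hr33 hr1 hh
    _ = (Real.exp (-(A / 2)) * C) / (kap r * √p) := by ring
    _ ≤ c / (kap r * √p) := by gcongr
    _ ≤ Z0 p r n := hlow p r n hp2 hr33 hr1 hn

end MP4a1962
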