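import Pool.Agent.Lib.MP_4a1962_an.SecPt
import Pool.Agent.Lib.MP_4a1962_an.CLow

/-!
# SecondOrd: the second order remainder in the near region

Integrate `sec_pt` over the near set; extend the integral of the (nonnegative) right side to `(-π, π)`;
`c_int 2 6` and `c_int 4 2`: `≤ e^{128A} p² (512 ε² C/(kap p^{3/2}) + 1568 ε C/(kap p^{5/2}))
= C' (p ε² + ε)/(kap √p) ≤ C' (A + 1) ε /(kap √p) ≤ C'' ε Z0` by `c_low`.
-/

set_option autoImplicit false

open MeasureTheory Set Filter Topology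
open scoped Real ENNReal NNReal

namespace MP4a1962

private theorem cont_mom {r : ℝ} (hr0 : 0 < r) (hr1 : r < 1) (a m : ℕ) (q : ℝ) :
    Continuous (fun θ => Xr r θ ^ a * (1 + Xr r θ ^ 2) ^ m * (1 + bet r * Xr r θ ^ 2) ^ q) := by
  have hX := continuous_Xr r
  have hb := bet_ge hr0 hr1
  have h1 : Continuous (fun θ => 1 + bet r * Xr r θ ^ 2) :=
    continuous_const.add (continuous_const.mul (hX.pow 2))
  have h2 : Continuous (fun θ => (1 + bet r * Xr r θ ^ 2) ^ q) := by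
    apply h1.rpow_const
    intro θ
    left
    have : 0 ≤ bet r * Xr r θ ^ 2 := by positivity
    linarith
  exact ((hX.pow a).mul ((continuous_const.add (hX.pow 2)).pow m)).mul h2

theorem second_order (A : ℝ) (hA : 0 < A) : ∃ C P : ℝ, 0 < C ∧ 1 ≤ P ∧
    ∀ (p r : ℝ) (n : ℕ) (e : ℕ → ℂ) (ε T2 : ℝ),
    P ≤ p → 1 / 33 ≤ r → r < 1 → (n : ℝ) = 4 * p * kap r → ESeq e ε → p * ε ≤ A →
    √ε ≤ 1 / 100 → 1 ≤ T2 → √ε * T2 ^ 2 ≤ 1 / 50 →
    ∫ θ in {θ : ℝ | θ ∈ Icc (-π) π ∧ 1 + Xr r θ ^ 2 ≤ T2},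
      ‖G0 p r n θ‖ * ‖Complex.exp (-(p * Ek e r θ)) - 1 + p * Ek e r θ‖ ≤ C * ε * Z0 p r n := by
  obtain ⟨Ca, Pa, hCa, hPa, hca⟩ := c_int 2 6
  obtain ⟨Cb, Pb, hCb, hPb, hcb⟩ := c_int 4 2
  obtain ⟨c, Pc, hc, hPc, hlow⟩ := c_low
  refine ⟨Real.exp (128 * A) * (512 * Ca * A + 1568 * Cb) / c, Pa + Pb + Pc, by positivity,
    by linarith, ?_⟩
  intro p r n e ε T2 hp hr33 hr1 hn he hpe h100 hT2 hsT
  have hr0 : 0 < r := by linarith
  have hp0 : 0 < p := by linarith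
  have hK := kap_pos hr0 hr1
  have hb := bet_ge hr0 hr1
  have hs : 0 < √p := Real.sqrt_pos.2 hp0
  have hss : √p * √p = p := Real.mul_self_sqrt hp0.le
  have hε := he.nn
  have hpi : -π ≤ π := by linarith [Real.pi_pos]
  have h1 := hca p r (by linarith) hr33 hr1
  have h2 := hcb p r (by linarith) hr33 hr1
  have h3 := hlow p r n (by linarith) hr33 hr1 hn
  have hcG := continuous_G0 p hr0 hr1 n
  have hcE := continuous_Ek he hr0 hr1
  have hcR : Continuous (fun θ => ‖G0 p r n θ‖ *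
      ‖Complex.exp (-(p * Ek e r θ)) - 1 + p * Ek e r θ‖) := by
    have h1 : Continuous (fun θ => (p : ℂ) * Ek e r θ) := continuous_const.mul hcE
    exact hcG.norm.mul (((Complex.continuous_exp.comp h1.neg).sub continuous_const).add h1).norm
  set w1 : ℝ → ℝ := fun θ => Xr r θ ^ 2 * (1 + Xr r θ ^ 2) ^ 6 *
    (1 + bet r * Xr r θ ^ 2) ^ (-p / 2) with hw1
  set w2 : ℝ → ℝ := fun θ => Xr r θ ^ 4 * (1 + Xr r θ ^ 2) ^ 2 *
    (1 + bet r * Xr r θ ^ 2) ^ (-p / 2) with hw2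
  have hcw1 : Continuous w1 := cont_mom hr0 hr1 2 6 _
  have hcw2 : Continuous w2 := cont_mom hr0 hr1 4 2 _
  set S : ℝ → ℝ := fun θ => Real.exp (128 * A) * p ^ 2 * (512 * ε ^ 2 * w1 θ + 1568 * ε * w2 θ)
    with hS
  have hcS : Continuous S :=
    continuous_const.mul ((continuous_const.mul hcw1).add (continuous_const.mul hcw2))
  have hw1n : ∀ θ, 0 ≤ w1 θ := by
    intro θ
    have : 0 ≤ bet r * Xr r θ ^ 2 := by positivity
    simp only [hw1]
    positivity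
  have hw2n : ∀ θ, 0 ≤ w2 θ := by
    intro θ
    have : 0 ≤ bet r * Xr r θ ^ 2 := by positivity
    simp only [hw2]
    positivity
  have hSn : ∀ θ, 0 ≤ S θ := by
    intro θ
    have h5 := hw1n θ
    have h6 := hw2n θ
    simp only [hS]
    positivity
  have hio : ∀ {f : ℝ → ℝ}, Continuous f → ∀ {s : Set ℝ}, s ⊆ Icc (-π) π →
      IntegrableOn f s volume := by
    intro f hf s hs
    exact (hf.continuousOn.integrableOn_compact isCompact_Icc).mono_set hs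
  have hmX : Measurable (fun θ => 1 + Xr r θ ^ 2) :=
    (continuous_const.add ((continuous_Xr r).pow 2)).measurable
  have hm1 : MeasurableSet {θ : ℝ | θ ∈ Icc (-π) π ∧ 1 + Xr r θ ^ 2 ≤ T2} :=
    measurableSet_Icc.inter (measurableSet_le hmX measurable_const)
  have hsub1 : {θ : ℝ | θ ∈ Icc (-π) π ∧ 1 + Xr r θ ^ 2 ≤ T2} ⊆ Icc (-π) π :=
    fun θ hθ => hθ.1
  have hstep1 : ∫ θ in {θ : ℝ | θ ∈ Icc (-π) π ∧ 1 + Xr r θ ^ 2 ≤ T2},
      ‖G0 p r n θ‖ * ‖Complex.exp (-(p * Ek e r θ)) - 1 + p * Ek e r θ‖ ≤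
      ∫ θ in {θ : ℝ | θ ∈ Icc (-π) π ∧ 1 + Xr r θ ^ 2 ≤ T2}, S θ := by
    refine setIntegral_mono_on (hio hcR hsub1) (hio hcS hsub1) hm1 ?_
    intro θ hθ
    have hT : √ε * (1 + Xr r θ ^ 2) ^ 2 ≤ 1 / 50 := by
      refine le_trans ?_ hsT
      apply mul_le_mul_of_nonneg_left _ (Real.sqrt_nonneg _)
      exact pow_le_pow_left₀ (by positivity) hθ.2 2
    refine (sec_pt he hp0 hr0 hr1 hpe h100 n θ hT).trans (le_of_eq ?_)
    simp only [hS, hw1, hw2]
    ring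
  have hstep2 : ∫ θ in {θ : ℝ | θ ∈ Icc (-π) π ∧ 1 + Xr r θ ^ 2 ≤ T2}, S θ ≤
      ∫ θ in Icc (-π) π, S θ :=
    setIntegral_mono_set (hio hcS subset_rfl) (Eventually.of_forall hSn) (HasSubset.Subset.eventuallyLE hsub1)
  have hstep3 : ∫ θ in Icc (-π) π, S θ = Real.exp (128 * A) * p ^ 2 *
      (512 * ε ^ 2 * (∫ θ in (-π)..π, w1 θ) + 1568 * ε * ∫ θ in (-π)..π, w2 θ) := by
    rw [integral_Icc_eq_integral_Ioc, ← intervalIntegral.integral_of_le hpi]
    simp only [hS]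
    rw [intervalIntegral.integral_const_mul, intervalIntegral.integral_add,
      intervalIntegral.integral_const_mul, intervalIntegral.integral_const_mul]
    · exact (continuous_const.mul hcw1).intervalIntegrable _ _
    · exact (continuous_const.mul hcw2).intervalIntegrable _ _
  have hI1 : ∫ θ in (-π)..π, w1 θ ≤ Ca / (kap r * √p ^ (2 + 1)) := h1
  have hI2 : ∫ θ in (-π)..π, w2 θ ≤ Cb / (kap r * √p ^ (4 + 1)) := h2
  have hZ : 1 / (kap r * √p) ≤ Z0 p r n / c := by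
    rw [le_div_iff₀ hc]
    calc 1 / (kap r * √p) * c = c / (kap r * √p) := by ring
      _ ≤ Z0 p r n := h3
  have hu : 0 < 1 / (kap r * √p) := by positivity
  have hp2 : p ^ 2 = √p ^ 4 := by
    calc p ^ 2 = (√p * √p) ^ 2 := by rw [hss]
      _ = √p ^ 4 := by ring
  have e1 : p ^ 2 * (Ca / (kap r * √p ^ (2 + 1))) = Ca * p * (1 / (kap r * √p)) := by
    rw [hp2]
    have : p = √p * √p := hss.symm
    rw [this]
    rw [Real.sqrt_mul_self (Real.sqrt_nonneg _)]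
    field_simp
  have e2 : p ^ 2 * (Cb / (kap r * √p ^ (4 + 1))) = Cb * (1 / (kap r * √p)) := by
    rw [hp2]
    field_simp
  have hfin : Real.exp (128 * A) * p ^ 2 *
      (512 * ε ^ 2 * (∫ θ in (-π)..π, w1 θ) + 1568 * ε * ∫ θ in (-π)..π, w2 θ) ≤
      Real.exp (128 * A) * ((512 * Ca * A + 1568 * Cb) * ε * (1 / (kap r * √p))) := by
    calc Real.exp (128 * A) * p ^ 2 *
        (512 * ε ^ 2 * (∫ θ in (-π)..π, w1 θ) + 1568 * ε * ∫ θ in (-π)..π, w2 θ)
        ≤ Real.exp (128 * A) * p ^ 2 * (512 * ε ^ 2 * (Ca / (kap r * √p ^ (2 + 1))) +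
          1568 * ε * (Cb / (kap r * √p ^ (4 + 1)))) := by gcongr
      _ = Real.exp (128 * A) * (512 * ε ^ 2 * (p ^ 2 * (Ca / (kap r * √p ^ (2 + 1)))) +
          1568 * ε * (p ^ 2 * (Cb / (kap r * √p ^ (4 + 1))))) := by ring
      _ = Real.exp (128 * A) * ((512 * Ca * (p * ε) + 1568 * Cb) * ε * (1 / (kap r * √p))) := by
          rw [e1, e2]; ring
      _ ≤ _ := by gcongr
  calc _ ≤ ∫ θ in Icc (-π) π, S θ := hstep1.trans hstep2
    _ ≤ Real.exp (128 * A) * ((512 * Ca * A + 1568 * Cb) * ε * (1 / (kap r * √p))) := by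
        rw [hstep3]; exact hfin
    _ ≤ Real.exp (128 * A) * ((512 * Ca * A + 1568 * Cb) * ε * (Z0 p r n / c)) := by gcongr
    _ = _ := by ring

end MP4a1962
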