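import Pool.Agent.Lib.MP_4a1962_an.EBound
import Pool.Agent.Lib.MP_4a1962_an.CLow

/-!
# TailOrd: tail of the extremal measure

For `T = 1 + X² ≥ T1 ≥ 2`, `ε ≤ 1`: `1 + p ‖Ek‖ ≤ 1 + 44 p T⁴ ≤ 45 p T⁴`,
`‖G0‖ ≤ (1+βX²)^{-p} ≤ T^{-p/2} (1+βX²)^{-p/2}` (`T ≤ 1 + β X²`), and for `p ≥ 100`:
`45 p T⁴ T^{-p/2} ≤ 45 p T^{-(p/2 - 20)} T^{-16} ≤ (45 p 2^{-(p/2-20)}) T1^{-16} ≤ C T1^{-16}`
(`p 2^{-(p/2-20)}` is bounded). Then `c_int 0 0` and `c_low`.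
-/

set_option autoImplicit false

open MeasureTheory Set Filter Topology
open scoped Real ENNReal NNReal

namespace MP4a1962

private theorem exp_fac {p : ℝ} (hp : 0 < p) : p * (2 : ℝ) ^ (20 - p / 2) ≤ 3 * 2 ^ 20 := by
  have h1 : p / 3 ≤ (2 : ℝ) ^ (p / 2) := by
    rw [Real.rpow_def_of_pos (by norm_num)]
    have h2 := Real.add_one_le_exp (Real.log 2 * (p / 2))
    have h3 := Real.log_two_gt_d9
    nlinarith
  have h2 : (2 : ℝ) ^ (20 - p / 2) = 2 ^ 20 / (2 : ℝ) ^ (p / 2) := by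
    rw [Real.rpow_sub (by norm_num)]
    norm_num
  rw [h2]
  have h3 : 0 < (2 : ℝ) ^ (p / 2) := Real.rpow_pos_of_pos (by norm_num) _
  rw [mul_div_assoc', div_le_iff₀ h3]
  nlinarith

private theorem pt_tail {ε p X b E T1 : ℝ} (hε0 : 0 ≤ ε) (hε1 : ε ≤ 1) (hp : 40 ≤ p) (hX : 0 ≤ X)
    (hb : 4 ≤ b) (hE : E ≤ 16 * ε * X * (1 + X ^ 2) ^ 3 + 28 * √ε * X ^ 2 * (1 + X ^ 2))
    (hT1 : 2 ≤ T1) (hT : T1 ≤ 1 + X ^ 2) :
    (1 + b * X ^ 2) ^ (-p) * (1 + p * E) ≤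
      135 * 2 ^ 20 * (1 / T1) ^ 16 * (1 + b * X ^ 2) ^ (-p / 2) := by
  have hX2 : 0 ≤ X ^ 2 := sq_nonneg X
  have hT2 : 2 ≤ 1 + X ^ 2 := by linarith
  have hXT : X ≤ 1 + X ^ 2 := by nlinarith
  have hsq : √ε ≤ 1 := by
    rw [Real.sqrt_le_left (by norm_num)]
    linarith
  have hs0 : 0 ≤ √ε := Real.sqrt_nonneg _
  have hbase : 0 < 1 + b * X ^ 2 := by positivity
  have hTb : 1 + X ^ 2 ≤ 1 + b * X ^ 2 := by nlinarith
  have hTpos : 0 < 1 + X ^ 2 := by positivity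
  -- bound of E
  have e1 : 16 * ε * X * (1 + X ^ 2) ^ 3 ≤ 16 * (1 + X ^ 2) ^ 4 := by
    have : ε * X ≤ 1 * (1 + X ^ 2) := mul_le_mul hε1 hXT hX (by norm_num)
    calc 16 * ε * X * (1 + X ^ 2) ^ 3 = 16 * (ε * X) * (1 + X ^ 2) ^ 3 := by ring
      _ ≤ 16 * (1 * (1 + X ^ 2)) * (1 + X ^ 2) ^ 3 := by gcongr
      _ = _ := by ring
  have e2 : 28 * √ε * X ^ 2 * (1 + X ^ 2) ≤ 28 * (1 + X ^ 2) ^ 4 := by
    have h5 : X ^ 2 ≤ 1 + X ^ 2 := by linarith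
    have h6 : (1 : ℝ) ≤ (1 + X ^ 2) ^ 2 := by nlinarith
    calc 28 * √ε * X ^ 2 * (1 + X ^ 2) ≤ 28 * 1 * (1 + X ^ 2) * (1 + X ^ 2) := by gcongr
      _ = 28 * (1 + X ^ 2) ^ 2 * 1 := by ring
      _ ≤ 28 * (1 + X ^ 2) ^ 2 * (1 + X ^ 2) ^ 2 := by gcongr
      _ = _ := by ring
  have e3 : 1 + p * E ≤ 45 * p * (1 + X ^ 2) ^ 4 := by
    have h7 : E ≤ 44 * (1 + X ^ 2) ^ 4 := by linarith
    have h8 : (1 : ℝ) ≤ (1 + X ^ 2) ^ 4 := one_le_pow₀ (by linarith)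
    have h9 : p * E ≤ p * (44 * (1 + X ^ 2) ^ 4) := mul_le_mul_of_nonneg_left h7 (by linarith)
    nlinarith
  have e4 : (1 + b * X ^ 2) ^ (-p) = (1 + b * X ^ 2) ^ (-p / 2) * (1 + b * X ^ 2) ^ (-p / 2) := by
    rw [← Real.rpow_add hbase]
    congr 1
    ring
  have e5 : (1 + b * X ^ 2) ^ (-p / 2) ≤ (1 + X ^ 2) ^ (-p / 2) :=
    Real.rpow_le_rpow_of_nonpos hTpos hTb (by linarith)
  have e6 : (1 + X ^ 2) ^ (-p / 2) * (1 + X ^ 2) ^ 4 =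
      (1 / (1 + X ^ 2)) ^ 16 * (1 + X ^ 2) ^ (20 - p / 2) := by
    have h1 : (1 + X ^ 2 : ℝ) ^ 4 = (1 + X ^ 2) ^ (4 : ℝ) := by norm_cast
    have h2 : (1 / (1 + X ^ 2) : ℝ) ^ 16 = (1 + X ^ 2) ^ (-16 : ℝ) := by
      rw [Real.rpow_neg hTpos.le, one_div, inv_pow]
      norm_cast
    rw [h1, h2, ← Real.rpow_add hTpos, ← Real.rpow_add hTpos]
    congr 1
    ring
  have e7 : (1 / (1 + X ^ 2)) ^ 16 ≤ (1 / T1) ^ 16 := by
    have : 1 / (1 + X ^ 2) ≤ 1 / T1 := one_div_le_one_div_of_le (by linarith) hT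
    exact pow_le_pow_left₀ (by positivity) this 16
  have e8 : (1 + X ^ 2) ^ (20 - p / 2) ≤ (2 : ℝ) ^ (20 - p / 2) :=
    Real.rpow_le_rpow_of_nonpos (by norm_num) hT2 (by linarith)
  have e9 := exp_fac (show 0 < p by linarith)
  have hw : 0 ≤ (1 + b * X ^ 2) ^ (-p / 2) := Real.rpow_nonneg hbase.le _
  have hT1' : 0 ≤ (1 / T1) ^ 16 := by positivity
  calc (1 + b * X ^ 2) ^ (-p) * (1 + p * E)
      ≤ (1 + b * X ^ 2) ^ (-p) * (45 * p * (1 + X ^ 2) ^ 4) :=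
        mul_le_mul_of_nonneg_left e3 (Real.rpow_nonneg hbase.le _)
    _ = 45 * p * ((1 + b * X ^ 2) ^ (-p / 2) * (1 + X ^ 2) ^ 4) * (1 + b * X ^ 2) ^ (-p / 2) := by
        rw [e4]; ring
    _ ≤ 45 * p * ((1 + X ^ 2) ^ (-p / 2) * (1 + X ^ 2) ^ 4) * (1 + b * X ^ 2) ^ (-p / 2) := by
        gcongr
    _ = 45 * p * ((1 / (1 + X ^ 2)) ^ 16 * (1 + X ^ 2) ^ (20 - p / 2)) *
        (1 + b * X ^ 2) ^ (-p / 2) := by rw [e6]
    _ ≤ 45 * p * ((1 / T1) ^ 16 * (2 : ℝ) ^ (20 - p / 2)) * (1 + b * X ^ 2) ^ (-p / 2) := by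
        gcongr
    _ = 45 * (p * (2 : ℝ) ^ (20 - p / 2)) * (1 / T1) ^ 16 * (1 + b * X ^ 2) ^ (-p / 2) := by ring
    _ ≤ 45 * (3 * 2 ^ 20) * (1 / T1) ^ 16 * (1 + b * X ^ 2) ^ (-p / 2) := by gcongr
    _ = _ := by ring

theorem tail_order : ∃ C P : ℝ, 0 < C ∧ 1 ≤ P ∧
    ∀ (p r : ℝ) (n : ℕ) (e : ℕ → ℂ) (ε T1 : ℝ),
    P ≤ p → 1 / 33 ≤ r → r < 1 → (n : ℝ) = 4 * p * kap r → ESeq e ε → ε ≤ 1 → 2 ≤ T1 →
    ∫ θ in {θ : ℝ | θ ∈ Icc (-π) π ∧ T1 < 1 + Xr r θ ^ 2},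
      ‖G0 p r n θ‖ * (1 + p * ‖Ek e r θ‖) ≤ C * (1 / T1) ^ 16 * Z0 p r n := by
  obtain ⟨Ca, Pa, hCa, hPa, hca⟩ := c_int 0 0
  obtain ⟨c, Pc, hc, hPc, hlow⟩ := c_low
  refine ⟨135 * 2 ^ 20 * Ca / c, Pa + Pc + 40, by positivity, by linarith, ?_⟩
  intro p r n e ε T1 hp hr33 hr1 hn he hε1 hT1
  have hr0 : 0 < r := by linarith
  have hp0 : 0 < p := by linarith
  have hK := kap_pos hr0 hr1
  have hb := bet_ge hr0 hr1
  have hs : 0 < √p := Real.sqrt_pos.2 hp0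
  have hpi : -π ≤ π := by linarith [Real.pi_pos]
  have h1 := hca p r (by linarith) hr33 hr1
  have h3 := hlow p r n (by linarith) hr33 hr1 hn
  have hcG := continuous_G0 p hr0 hr1 n
  have hcE := continuous_Ek he hr0 hr1
  have hX := continuous_Xr r
  have hct : Continuous (fun θ => ‖G0 p r n θ‖ * (1 + p * ‖Ek e r θ‖)) :=
    hcG.norm.mul (continuous_const.add (continuous_const.mul hcE.norm))
  set w : ℝ → ℝ := fun θ => (1 + bet r * Xr r θ ^ 2) ^ (-p / 2) with hw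
  have hbase : ∀ θ, 0 < 1 + bet r * Xr r θ ^ 2 := by
    intro θ
    have : 0 ≤ bet r * Xr r θ ^ 2 := by positivity
    linarith
  have hcw : Continuous w := by
    have h1 : Continuous (fun θ => 1 + bet r * Xr r θ ^ 2) :=
      continuous_const.add (continuous_const.mul (hX.pow 2))
    exact h1.rpow_const (fun θ => Or.inl (hbase θ).ne')
  have hwn : ∀ θ, 0 ≤ w θ := fun θ => Real.rpow_nonneg (hbase θ).le _
  have hio : ∀ {f : ℝ → ℝ}, Continuous f → ∀ {s : Set ℝ}, s ⊆ Icc (-π) π →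
      IntegrableOn f s volume := by
    intro f hf s hs
    exact (hf.continuousOn.integrableOn_compact isCompact_Icc).mono_set hs
  have hmX : Measurable (fun θ => 1 + Xr r θ ^ 2) :=
    (continuous_const.add (hX.pow 2)).measurable
  have hm2 : MeasurableSet {θ : ℝ | θ ∈ Icc (-π) π ∧ T1 < 1 + Xr r θ ^ 2} :=
    measurableSet_Icc.inter (measurableSet_lt measurable_const hmX)
  have hsub2 : {θ : ℝ | θ ∈ Icc (-π) π ∧ T1 < 1 + Xr r θ ^ 2} ⊆ Icc (-π) π :=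
    fun θ hθ => hθ.1
  have hcS : Continuous (fun θ => 135 * 2 ^ 20 * (1 / T1) ^ 16 * w θ) :=
    continuous_const.mul hcw
  have hstep1 : ∫ θ in {θ : ℝ | θ ∈ Icc (-π) π ∧ T1 < 1 + Xr r θ ^ 2},
      ‖G0 p r n θ‖ * (1 + p * ‖Ek e r θ‖) ≤
      ∫ θ in {θ : ℝ | θ ∈ Icc (-π) π ∧ T1 < 1 + Xr r θ ^ 2},
        135 * 2 ^ 20 * (1 / T1) ^ 16 * w θ := by
    refine setIntegral_mono_on (hio hct hsub2) (hio hcS hsub2) hm2 ?_
    intro θ hθ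
    have h5 := norm_G0_le hp0.le hr0 hr1 n θ
    have h6 := Ek_norm_le he hr0 hr1 θ
    have h7 := pt_tail he.nn hε1 (by linarith : (40 : ℝ) ≤ p) (Xr_nonneg hr0 hr1 θ) hb h6 hT1
      hθ.2.le
    refine le_trans (mul_le_mul_of_nonneg_right h5 ?_) h7
    have := norm_nonneg (Ek e r θ)
    positivity
  have hstep2 : ∫ θ in {θ : ℝ | θ ∈ Icc (-π) π ∧ T1 < 1 + Xr r θ ^ 2},
        135 * 2 ^ 20 * (1 / T1) ^ 16 * w θ ≤
      ∫ θ in Icc (-π) π, 135 * 2 ^ 20 * (1 / T1) ^ 16 * w θ :=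
    setIntegral_mono_set (hio hcS subset_rfl)
      (Eventually.of_forall (fun θ => by have := hwn θ; positivity))
      (HasSubset.Subset.eventuallyLE hsub2)
  have hstep3 : ∫ θ in Icc (-π) π, 135 * 2 ^ 20 * (1 / T1) ^ 16 * w θ =
      135 * 2 ^ 20 * (1 / T1) ^ 16 * ∫ θ in (-π)..π, w θ := by
    rw [integral_Icc_eq_integral_Ioc, ← intervalIntegral.integral_of_le hpi,
      intervalIntegral.integral_const_mul]
  have hI1 : ∫ θ in (-π)..π, w θ ≤ Ca / (kap r * √p) := by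
    simpa using h1
  have hZ : 1 / (kap r * √p) ≤ Z0 p r n / c := by
    rw [le_div_iff₀ hc]
    calc 1 / (kap r * √p) * c = c / (kap r * √p) := by ring
      _ ≤ Z0 p r n := h3
  calc _ ≤ 135 * 2 ^ 20 * (1 / T1) ^ 16 * ∫ θ in (-π)..π, w θ :=
        (hstep1.trans hstep2).trans (le_of_eq hstep3)
    _ ≤ 135 * 2 ^ 20 * (1 / T1) ^ 16 * (Ca / (kap r * √p)) := by gcongr
    _ = 135 * 2 ^ 20 * Ca * (1 / T1) ^ 16 * (1 / (kap r * √p)) := by ring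
    _ ≤ 135 * 2 ^ 20 * Ca * (1 / T1) ^ 16 * (Z0 p r n / c) := by gcongr
    _ = _ := by ring

end MP4a1962
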