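import Pool.Agent.Lib.MP_4a1962_an.FirstOrd
import Pool.Agent.Lib.MP_4a1962_an.SecondOrd
import Pool.Agent.Lib.MP_4a1962_an.TailOrd
import Pool.Agent.Lib.MP_4a1962_an.CFarInt
import Pool.Agent.Lib.MP_4a1962_an.CRegI

/-!
# CNear: assembly for one function with maximum at `θ = 0`

Let `A, P` from `c_reg_I`, `d = Mr r - Re h(r) ≥ 0` (`HCls.growth`). If `p d ≥ A`: `c_reg_I`. Let `p d < A`,
`ε` from `max_pt`, `ε ≤ 40 d` (`d_eps`), `e k = h0c k - tc (shiftf h r) k` (`eseq_of`). By `E_hasSum`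
`Ek e r θ = h0f z - h z - (Mr r - h r)`, so the integrand is
`exp (-p (d - i Im h(r))) G0 exp (-p Ek)` and `‖G0 exp (-p Ek)‖ = e^{pd} exp (p (Re h z - Mr r))`.
If `d = 0`: `ε = 0`, `e = 0`, `Ek = 0`, the integral is `exp(i..) ∫ G0`, norm `Z0` (`G0_integral`).
If `d > 0`: `T1 = d^{-1/4}/100`. `‖∫ G0 exp (-p Ek)‖ ≤ ‖∫ G0 (1 - p Ek)‖ + ∫ ‖G0‖ ‖exp (-p Ek) - 1 + p Ek‖`.
 (a) `1 + 4 kap² ≤ 4 T1`: every `θ` has `T ≤ T2 := 4 T1` (`X ≤ 2 kap`), `second_order (40 A)` with `T2`:
 `√ε T2² ≤ √(40 d) 16 d^{-1/2}/10⁴ ≤ 1/50` (`√40 < 6.33`).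
 (b) otherwise split at `T1` : `second_order (40 A)` with `T2 = T1` for `T ≤ T1`; for `T > T1`:
 `‖G0‖ ‖exp (-p Ek) - 1 + p Ek‖ ≤ e^{pd} exp (p (Re h - Mr)) + ‖G0‖ (1 + p ‖Ek‖)`, `c_far_int A`, `tail_order`
 (`(1/T1)^16 = 100^16 d⁴`).
 Total: `≤ Z0 (1 + C √p ε + C ε + C 100^16 d⁴ + e^A C d²) ≤ Z0 (1 + p d) ≤ Z0 e^{pd}` for `p ≥ P'`
 (`ε ≤ 40 d`, `d ≤ A/p`).
-/

set_option autoImplicit false

open MeasureTheory Set Filter Topology
open scoped Real ENNReal NNReal

namespace MP4a1962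

private noncomputable def ee (h : ℂ → ℂ) (r : ℝ) : ℕ → ℂ := fun k => (h0c k : ℂ) - tc (shiftf h r) k

private theorem cnear_h0f_real {r : ℝ} (hr0 : 0 < r) (hr1 : r < 1) : h0f (r : ℂ) = (Mr r : ℂ) := by
  unfold h0f Mr
  rw [Complex.ofReal_mul, Complex.ofReal_log (by
    apply div_nonneg <;> linarith)]
  push_cast
  rfl

private theorem Ek_eq {h : ℂ → ℂ} (hh : HCls h) {r : ℝ} (hr0 : 0 < r) (hr1 : r < 1) (θ : ℝ) :
    Ek (ee h r) r θ = h0f (circleMap 0 r θ) - h (circleMap 0 r θ) - ((Mr r : ℂ) - h r) := by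
  have hz : ‖circleMap 0 r θ‖ < 1 := by
    rw [norm_circleMap_zero, abs_of_pos hr0]; exact hr1
  have h1 := (E_hasSum hh hr0 hr1 hz).tsum_eq
  rw [← cnear_h0f_real hr0 hr1, ← h1]
  rfl

private theorem integrand_eq {h : ℂ → ℂ} (hh : HCls h) {r : ℝ} (hr0 : 0 < r) (hr1 : r < 1)
    (p : ℝ) (n : ℕ) (θ : ℝ) :
    Complex.exp (p * (h (circleMap 0 r θ) - Mr r) - n * θ * Complex.I) =
      Complex.exp (-(p * ((Mr r : ℂ) - h r))) *
        (G0 p r n θ * Complex.exp (-(p * Ek (ee h r) r θ))) := by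
  rw [Ek_eq hh hr0 hr1, G0, ← Complex.exp_add, ← Complex.exp_add]
  congr 1
  ring

private theorem norm_pref (h : ℂ → ℂ) (p r : ℝ) :
    ‖Complex.exp (-(p * ((Mr r : ℂ) - h r)))‖ = Real.exp (-(p * (Mr r - (h r).re))) := by
  rw [Complex.norm_exp]
  congr 1
  simp

private theorem norm_int {h : ℂ → ℂ} (hh : HCls h) {r : ℝ} (hr0 : 0 < r) (hr1 : r < 1)
    (p : ℝ) (n : ℕ) (θ : ℝ) :
    ‖G0 p r n θ * Complex.exp (-(p * Ek (ee h r) r θ))‖ =
      Real.exp (p * (Mr r - (h r).re)) *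
        Real.exp (p * ((h (circleMap 0 r θ)).re - Mr r)) := by
  have h1 := congrArg norm (integrand_eq hh hr0 hr1 p n θ)
  rw [norm_mul, norm_pref, Complex.norm_exp] at h1
  have h2 : (p * (h (circleMap 0 r θ) - Mr r) - n * θ * Complex.I : ℂ).re =
      p * ((h (circleMap 0 r θ)).re - Mr r) := by
    simp
  rw [h2] at h1
  rw [h1, ← mul_assoc, ← Real.exp_add]
  have h3 : p * (Mr r - (h r).re) + -(p * (Mr r - (h r).re)) = 0 := by ring
  rw [h3, Real.exp_zero, one_mul]

/-- bookkeeping of the constants -/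
private theorem book {A C1 C2 C3 C4 p d ε : ℝ} (hA : 0 < A) (h1 : 0 < C1) (h2 : 0 < C2)
    (h3 : 0 < C3) (h4 : 0 < C4) (hd : 0 < d) (hpd : p * d ≤ A) (hε0 : 0 ≤ ε) (hε : ε ≤ 40 * d)
    (hp1 : 1 ≤ p) (hpA : A ≤ p)
    (hp : (160 * C1) ^ 2 + 4 * (40 * C2 + 100 ^ 16 * C3 + Real.exp A * C4) ≤ p) :
    1 + C1 * √p * ε + (C2 * ε + (C3 * (100 ^ 16 * d ^ 4) + Real.exp A * (C4 * d ^ 2))) ≤
      1 + p * d := by
  have hd1 : d ≤ 1 := by
    by_contra hcon
    have : p * 1 < p * d := by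
      apply mul_lt_mul_of_pos_left (by linarith) (by linarith)
    linarith
  have hs : 160 * C1 ≤ √p := by
    apply Real.le_sqrt_of_sq_le
    have : 0 < 4 * (40 * C2 + 100 ^ 16 * C3 + Real.exp A * C4) := by positivity
    linarith
  have hsq : √p * √p = p := Real.mul_self_sqrt (by linarith)
  have hs0 : 0 ≤ √p := Real.sqrt_nonneg p
  have e1 : C1 * √p * ε ≤ p * d / 4 := by
    have : C1 * √p * ε ≤ C1 * √p * (40 * d) :=
      mul_le_mul_of_nonneg_left hε (by positivity)
    have h5 : (160 * C1) * √p ≤ p := by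
      calc (160 * C1) * √p ≤ √p * √p := mul_le_mul_of_nonneg_right hs hs0
        _ = p := hsq
    nlinarith
  have e2 : C2 * ε ≤ 40 * C2 * d := by nlinarith
  have e3 : C3 * (100 ^ 16 * d ^ 4) ≤ 100 ^ 16 * C3 * d := by
    have : d ^ 4 ≤ d := by
      calc d ^ 4 = d * d ^ 3 := by ring
        _ ≤ d * 1 := mul_le_mul_of_nonneg_left (pow_le_one₀ hd.le hd1) hd.le
        _ = d := mul_one d
    nlinarith
  have e4 : Real.exp A * (C4 * d ^ 2) ≤ Real.exp A * C4 * d := by
    have h6 : d ^ 2 ≤ d := by nlinarith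
    have h7 : 0 < Real.exp A * C4 := by positivity
    nlinarith
  have e5 : (40 * C2 + 100 ^ 16 * C3 + Real.exp A * C4) * d ≤ p / 4 * d := by
    apply mul_le_mul_of_nonneg_right _ hd.le
    have : 0 ≤ (160 * C1) ^ 2 := sq_nonneg _
    linarith
  nlinarith

theorem c_near : ∃ P : ℝ, 1 ≤ P ∧ ∀ (p r : ℝ) (n : ℕ) (h : ℂ → ℂ),
    P ≤ p → 1 / 33 ≤ r → r < 1 → (n : ℝ) = 4 * p * kap r → HCls h →
    (∀ θ : ℝ, (h (circleMap 0 r θ)).re ≤ (h r).re) →
    ‖∫ θ in (-π)..π, Complex.exp (p * (h (circleMap 0 r θ) - Mr r) - n * θ * Complex.I)‖ ≤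
      Z0 p r n := by
  obtain ⟨A, P0, hA, hP0, hreg⟩ := c_reg_I
  obtain ⟨C1, P1, hC1, hP1, hfirst⟩ := first_order
  obtain ⟨C2, P2, hC2, hP2, hsecond⟩ := second_order (40 * A) (by positivity)
  obtain ⟨C3, P3, hC3, hP3, htail⟩ := tail_order
  obtain ⟨C4, P4, hC4, hP4, hfar⟩ := c_far_int A hA
  obtain ⟨c, P5, hc, hP5, hlow⟩ := c_low
  refine ⟨P0 + P1 + P2 + P3 + P4 + P5 + A + 1600000000 * A + 400000 * A +
    ((160 * C1) ^ 2 + 4 * (40 * C2 + 100 ^ 16 * C3 + Real.exp A * C4)), ?_, ?_⟩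
  · have : 0 < (160 * C1) ^ 2 + 4 * (40 * C2 + 100 ^ 16 * C3 + Real.exp A * C4) := by positivity
    linarith
  intro p r n h hp hr33 hr1 hn hh hmax
  have hbig : 0 < (160 * C1) ^ 2 + 4 * (40 * C2 + 100 ^ 16 * C3 + Real.exp A * C4) := by positivity
  have hp0 : P0 ≤ p := by linarith
  have hp1 : P1 ≤ p := by linarith
  have hp2 : P2 ≤ p := by linarith
  have hp3 : P3 ≤ p := by linarith
  have hp4 : P4 ≤ p := by linarith
  have hp5 : P5 ≤ p := by linarith
  have hpA : A ≤ p := by linarith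
  have hp1' : 1 ≤ p := by linarith
  have hppos : 0 < p := by linarith
  have hr0 : 0 < r := by linarith
  have hkap := kap_pos hr0 hr1
  by_cases hcase : A ≤ p * (Mr r - (h r).re)
  · exact hreg p r n h hp0 hr33 hr1 hn hh hmax hcase
  push Not at hcase
  set d : ℝ := Mr r - (h r).re with hd
  have hpd : p * d ≤ A := hcase.le
  have hd0 : 0 ≤ d := by
    have := hh.growth hr0.le hr1
    rw [hd, Mr]; linarith
  obtain ⟨ε, hε0, hε4, hε⟩ := max_pt hh hr0 hr1 hmax
  have hεd : ε ≤ 40 * d := by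
    have := d_eps hh hr33 hr1 hε hε0 hε4
    rw [hd, Mr]; exact this
  have he : ESeq (ee h r) ε := eseq_of hh hr0 hr1 hε hε0 hε4
  have hZ : 0 < Z0 p r n := lt_of_lt_of_le (by positivity) (hlow p r n hp5 hr33 hr1 hn)
  have hcG := continuous_G0 p hr0 hr1 n
  have hcE := continuous_Ek he hr0 hr1
  have hpull : ∫ θ in (-π)..π, Complex.exp (p * (h (circleMap 0 r θ) - Mr r) - n * θ * Complex.I) =
      Complex.exp (-(p * ((Mr r : ℂ) - h r))) *
        ∫ θ in (-π)..π, G0 p r n θ * Complex.exp (-(p * Ek (ee h r) r θ)) := by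
    rw [← intervalIntegral.integral_const_mul]
    exact intervalIntegral.integral_congr (fun θ _ => integrand_eq hh hr0 hr1 p n θ)
  rw [hpull, norm_mul, norm_pref]
  -- it suffices to bound the remaining integral by `(1 + p d) Z0`
  suffices hmain : ‖∫ θ in (-π)..π, G0 p r n θ * Complex.exp (-(p * Ek (ee h r) r θ))‖ ≤
      (1 + p * d) * Z0 p r n by
    have h1 : 1 + p * d ≤ Real.exp (p * d) := by
      have := Real.add_one_le_exp (p * d); linarith
    calc Real.exp (-(p * (Mr r - (h r).re))) * _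
        ≤ Real.exp (-(p * d)) * ((1 + p * d) * Z0 p r n) :=
          mul_le_mul_of_nonneg_left hmain (Real.exp_pos _).le
      _ ≤ Real.exp (-(p * d)) * (Real.exp (p * d) * Z0 p r n) := by
          apply mul_le_mul_of_nonneg_left _ (Real.exp_pos _).le
          exact mul_le_mul_of_nonneg_right h1 hZ.le
      _ = Z0 p r n := by
          rw [← mul_assoc, ← Real.exp_add, neg_add_cancel, Real.exp_zero, one_mul]
  rcases hd0.eq_or_lt with hdz | hdpos
  · -- d = 0
    have hε00 : ε = 0 := le_antisymm (by rw [← hdz] at hεd; simpa using hεd) hε0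
    have hek : ∀ k, ee h r k = 0 := by
      intro k
      rcases Nat.eq_zero_or_pos k with hk | hk
      · rw [hk]; exact he.e0
      · have h1 := he.re k hk
        have h2 := he.im k hk
        rw [hε00] at h1 h2
        simp only [mul_zero, Real.sqrt_zero] at h1 h2
        exact Complex.ext (abs_nonpos_iff.1 h1) (abs_nonpos_iff.1 h2)
    have hE : ∀ θ, Ek (ee h r) r θ = 0 := by
      intro θ
      unfold Ek
      simp [hek]
    simp only [hE, mul_zero, neg_zero, Complex.exp_zero, mul_one]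
    rw [G0_integral hr0 hr1, Complex.norm_real, Real.norm_eq_abs, abs_of_pos hZ, ← hdz]
    linarith
  · -- d > 0
    have hdsm : d * 1600000000 ≤ 1 := by
      have h1 : 1600000000 * A ≤ p := by linarith
      by_contra hcon
      push Not at hcon
      have h2 : p * (d * 1600000000) ≤ 1600000000 * A := by linarith
      have h3 : p * 1 < p * (d * 1600000000) := mul_lt_mul_of_pos_left hcon hppos
      linarith
    have hε1 : ε ≤ 1 := by linarith
    have hpε : p * ε ≤ 40 * A := by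
      calc p * ε ≤ p * (40 * d) := mul_le_mul_of_nonneg_left hεd hppos.le
        _ = 40 * (p * d) := by ring
        _ ≤ 40 * A := by linarith
    have hsε : √ε ≤ 1 / 100 := by
      rw [Real.sqrt_le_left (by norm_num)]
      linarith
    -- the threshold
    set T1 : ℝ := d ^ (-(1 / 4) : ℝ) / 100 with hT1
    have hdq : 0 < d ^ (1 / 4 : ℝ) := Real.rpow_pos_of_pos hdpos _
    have hdq4 : (d ^ (1 / 4 : ℝ)) ^ 4 = d := by
      rw [← Real.rpow_natCast, ← Real.rpow_mul hdpos.le]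
      norm_num
    have hT1' : T1 = 1 / (100 * d ^ (1 / 4 : ℝ)) := by
      rw [hT1, Real.rpow_neg hdpos.le]
      field_simp
    have hT1pos : 0 < T1 := by rw [hT1']; positivity
    have hqs : d ^ (1 / 4 : ℝ) ≤ 1 / 200 := by
      by_contra hcon
      push Not at hcon
      have h1 : (1 / 200 : ℝ) ^ 4 < (d ^ (1 / 4 : ℝ)) ^ 4 :=
        pow_lt_pow_left₀ hcon (by norm_num) (by norm_num)
      rw [hdq4] at h1
      norm_num at h1
      linarith
    have hT12 : 2 ≤ T1 := by
      rw [hT1', le_div_iff₀ (by positivity)]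
      nlinarith
    have hinv : (1 / T1) ^ 16 = 100 ^ 16 * d ^ 4 := by
      rw [hT1', one_div_one_div, mul_pow]
      congr 1
      calc (d ^ (1 / 4 : ℝ)) ^ 16 = ((d ^ (1 / 4 : ℝ)) ^ 4) ^ 4 := by ring
        _ = d ^ 4 := by rw [hdq4]
    -- T1^2 √ε bound
    have hsT : √ε * T1 ^ 2 ≤ 7 / 10000 := by
      have h1 : √ε ≤ 7 * (d ^ (1 / 4 : ℝ)) ^ 2 := by
        rw [Real.sqrt_le_left (by positivity)]
        have : (7 * (d ^ (1 / 4 : ℝ)) ^ 2) ^ 2 = 49 * d := by
          calc (7 * (d ^ (1 / 4 : ℝ)) ^ 2) ^ 2 = 49 * (d ^ (1 / 4 : ℝ)) ^ 4 := by ring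
            _ = 49 * d := by rw [hdq4]
        rw [this]; linarith
      have h2 : T1 ^ 2 = 1 / (10000 * (d ^ (1 / 4 : ℝ)) ^ 2) := by
        rw [hT1']
        field_simp
        norm_num
      rw [h2]
      calc √ε * (1 / (10000 * (d ^ (1 / 4 : ℝ)) ^ 2))
          ≤ 7 * (d ^ (1 / 4 : ℝ)) ^ 2 * (1 / (10000 * (d ^ (1 / 4 : ℝ)) ^ 2)) :=
            mul_le_mul_of_nonneg_right h1 (by positivity)
        _ = 7 / 10000 := by field_simp
    -- the functions
    have hcR : Continuous (fun θ => ‖G0 p r n θ‖ *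
        ‖Complex.exp (-(p * Ek (ee h r) r θ)) - 1 + p * Ek (ee h r) r θ‖) := by
      have h1 : Continuous (fun θ => (p : ℂ) * Ek (ee h r) r θ) := continuous_const.mul hcE
      exact hcG.norm.mul (((Complex.continuous_exp.comp h1.neg).sub continuous_const).add h1).norm
    have hsplit : ‖∫ θ in (-π)..π, G0 p r n θ * Complex.exp (-(p * Ek (ee h r) r θ))‖ ≤
        (1 + C1 * √p * ε) * Z0 p r n + ∫ θ in (-π)..π, ‖G0 p r n θ‖ *
        ‖Complex.exp (-(p * Ek (ee h r) r θ)) - 1 + p * Ek (ee h r) r θ‖ := by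
      have h1 : Continuous (fun θ => (p : ℂ) * Ek (ee h r) r θ) := continuous_const.mul hcE
      have h2 : ∫ θ in (-π)..π, G0 p r n θ * Complex.exp (-(p * Ek (ee h r) r θ)) =
          (∫ θ in (-π)..π, G0 p r n θ * (1 - p * Ek (ee h r) r θ)) +
          ∫ θ in (-π)..π, G0 p r n θ *
            (Complex.exp (-(p * Ek (ee h r) r θ)) - 1 + p * Ek (ee h r) r θ) := by
        rw [← intervalIntegral.integral_add]
        · refine intervalIntegral.integral_congr (fun θ _ => ?_)
          ring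
        · exact (hcG.mul (continuous_const.sub h1)).intervalIntegrable _ _
        · exact (hcG.mul (((Complex.continuous_exp.comp h1.neg).sub
            continuous_const).add h1)).intervalIntegrable _ _
      rw [h2]
      refine (norm_add_le _ _).trans (add_le_add
        (hfirst p r n (ee h r) ε hp1 hr33 hr1 hn he hε1) ?_)
      refine (intervalIntegral.norm_integral_le_integral_norm
        (by linarith [Real.pi_pos])).trans (le_of_eq ?_)
      refine intervalIntegral.integral_congr (fun θ _ => ?_)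
      exact norm_mul _ _
    have hrem : ∫ θ in (-π)..π, ‖G0 p r n θ‖ *
        ‖Complex.exp (-(p * Ek (ee h r) r θ)) - 1 + p * Ek (ee h r) r θ‖ ≤
        (C2 * ε + (C3 * (100 ^ 16 * d ^ 4) + Real.exp A * (C4 * d ^ 2))) * Z0 p r n := by
      have hIcc : ∫ θ in (-π)..π, ‖G0 p r n θ‖ *
          ‖Complex.exp (-(p * Ek (ee h r) r θ)) - 1 + p * Ek (ee h r) r θ‖ =
          ∫ θ in Icc (-π) π, ‖G0 p r n θ‖ *
          ‖Complex.exp (-(p * Ek (ee h r) r θ)) - 1 + p * Ek (ee h r) r θ‖ := by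
        rw [intervalIntegral.integral_of_le (by linarith [Real.pi_pos]),
          integral_Icc_eq_integral_Ioc]
      rw [hIcc]
      have hXle : ∀ θ, Xr r θ ^ 2 ≤ 4 * kap r ^ 2 := by
        intro θ
        unfold Xr
        have h1 : |Real.sin (θ / 2)| ≤ 1 := Real.abs_sin_le_one _
        have h2 : 0 ≤ |Real.sin (θ / 2)| := abs_nonneg _
        have h3 : |Real.sin (θ / 2)| ^ 2 ≤ 1 := pow_le_one₀ h2 h1
        calc (2 * kap r * |Real.sin (θ / 2)|) ^ 2 = 4 * kap r ^ 2 * |Real.sin (θ / 2)| ^ 2 := by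
              ring
          _ ≤ 4 * kap r ^ 2 * 1 := mul_le_mul_of_nonneg_left h3 (by positivity)
          _ = 4 * kap r ^ 2 := mul_one _
      have hpos34 : 0 ≤ (C3 * (100 ^ 16 * d ^ 4) + Real.exp A * (C4 * d ^ 2)) * Z0 p r n := by
        positivity
      by_cases hk : 1 + 4 * kap r ^ 2 ≤ 4 * T1
      · -- no far region
        have hset : Icc (-π) π = {θ : ℝ | θ ∈ Icc (-π) π ∧ 1 + Xr r θ ^ 2 ≤ 4 * T1} := by
          ext θ
          constructor
          · intro hθ
            exact ⟨hθ, by have := hXle θ; linarith⟩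
          · intro hθ
            exact hθ.1
        rw [hset]
        have h1 := hsecond p r n (ee h r) ε (4 * T1) hp2 hr33 hr1 hn he hpε hsε (by linarith)
          (by
            have : √ε * (4 * T1) ^ 2 = 16 * (√ε * T1 ^ 2) := by ring
            rw [this]; linarith)
        refine h1.trans ?_
        rw [add_mul]
        linarith
      · push Not at hk
        have hset : Icc (-π) π = {θ : ℝ | θ ∈ Icc (-π) π ∧ 1 + Xr r θ ^ 2 ≤ T1} ∪
            {θ : ℝ | θ ∈ Icc (-π) π ∧ T1 < 1 + Xr r θ ^ 2} := by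
          ext θ
          constructor
          · intro hθ
            rcases le_or_gt (1 + Xr r θ ^ 2) T1 with h1 | h1
            · exact Or.inl ⟨hθ, h1⟩
            · exact Or.inr ⟨hθ, h1⟩
          · rintro (hθ | hθ)
            · exact hθ.1
            · exact hθ.1
        have hmX : Measurable (fun θ => 1 + Xr r θ ^ 2) :=
          (continuous_const.add ((continuous_Xr r).pow 2)).measurable
        have hm1 : MeasurableSet {θ : ℝ | θ ∈ Icc (-π) π ∧ 1 + Xr r θ ^ 2 ≤ T1} :=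
          measurableSet_Icc.inter (measurableSet_le hmX measurable_const)
        have hm2 : MeasurableSet {θ : ℝ | θ ∈ Icc (-π) π ∧ T1 < 1 + Xr r θ ^ 2} :=
          measurableSet_Icc.inter (measurableSet_lt measurable_const hmX)
        have hsub1 : {θ : ℝ | θ ∈ Icc (-π) π ∧ 1 + Xr r θ ^ 2 ≤ T1} ⊆ Icc (-π) π :=
          fun θ hθ => hθ.1
        have hsub2 : {θ : ℝ | θ ∈ Icc (-π) π ∧ T1 < 1 + Xr r θ ^ 2} ⊆ Icc (-π) π :=
          fun θ hθ => hθ.1
        have hio : ∀ {f : ℝ → ℝ}, Continuous f → ∀ {s : Set ℝ}, s ⊆ Icc (-π) π →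
            IntegrableOn f s volume := by
          intro f hf s hs
          exact (hf.continuousOn.integrableOn_compact isCompact_Icc).mono_set hs
        have hdisj : Disjoint {θ : ℝ | θ ∈ Icc (-π) π ∧ 1 + Xr r θ ^ 2 ≤ T1}
            {θ : ℝ | θ ∈ Icc (-π) π ∧ T1 < 1 + Xr r θ ^ 2} := by
          rw [Set.disjoint_left]
          intro θ h1 h2
          exact absurd h1.2 (not_le.2 h2.2)
        rw [hset, setIntegral_union hdisj hm2 (hio hcR hsub1) (hio hcR hsub2)]
        have h1 := hsecond p r n (ee h r) ε T1 hp2 hr33 hr1 hn he hpε hsε (by linarith)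
          (by linarith)
        have h2 := htail p r n (ee h r) ε T1 hp3 hr33 hr1 hn he hε1 hT12
        have h3 := hfar p r d n h hp4 hr33 hr1 hn hh hmax hd hdpos hpd hk
        have hch : Continuous (fun θ => Real.exp (p * ((h (circleMap 0 r θ)).re - Mr r))) := by
          have hz : ∀ θ : ℝ, circleMap 0 r θ ∈ Metric.ball (0 : ℂ) 1 := by
            intro θ
            rw [Metric.mem_ball, dist_zero_right, norm_circleMap_zero, abs_of_pos hr0]
            exact hr1
          have h5 : Continuous (fun θ => h (circleMap 0 r θ)) :=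
            hh.diff.continuousOn.comp_continuous (continuous_circleMap 0 r) hz
          exact Real.continuous_exp.comp
            (continuous_const.mul ((Complex.continuous_re.comp h5).sub continuous_const))
        have hct : Continuous (fun θ => ‖G0 p r n θ‖ * (1 + p * ‖Ek (ee h r) r θ‖)) :=
          hcG.norm.mul (continuous_const.add (continuous_const.mul hcE.norm))
        have h4 : ∫ θ in {θ : ℝ | θ ∈ Icc (-π) π ∧ T1 < 1 + Xr r θ ^ 2}, ‖G0 p r n θ‖ *
            ‖Complex.exp (-(p * Ek (ee h r) r θ)) - 1 + p * Ek (ee h r) r θ‖ ≤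
            ∫ θ in {θ : ℝ | θ ∈ Icc (-π) π ∧ T1 < 1 + Xr r θ ^ 2},
              (Real.exp A * Real.exp (p * ((h (circleMap 0 r θ)).re - Mr r)) +
                ‖G0 p r n θ‖ * (1 + p * ‖Ek (ee h r) r θ‖)) := by
          refine setIntegral_mono_on (hio hcR hsub2) ?_ hm2 ?_
          · exact hio ((continuous_const.mul hch).add hct) hsub2
          · intro θ _
            have e1 : ‖Complex.exp (-(p * Ek (ee h r) r θ)) - 1 + p * Ek (ee h r) r θ‖ ≤
                ‖Complex.exp (-(p * Ek (ee h r) r θ))‖ + (1 + p * ‖Ek (ee h r) r θ‖) := by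
              calc ‖Complex.exp (-(p * Ek (ee h r) r θ)) - 1 + p * Ek (ee h r) r θ‖
                  ≤ ‖Complex.exp (-(p * Ek (ee h r) r θ)) - 1‖ + ‖(p : ℂ) * Ek (ee h r) r θ‖ :=
                    norm_add_le _ _
                _ ≤ (‖Complex.exp (-(p * Ek (ee h r) r θ))‖ + ‖(1 : ℂ)‖) +
                    ‖(p : ℂ) * Ek (ee h r) r θ‖ := by
                    gcongr
                    exact norm_sub_le _ _
                _ = _ := by
                    rw [norm_one, norm_mul, Complex.norm_real, Real.norm_eq_abs,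
                      abs_of_pos hppos, add_assoc]
            have e2 := norm_int hh hr0 hr1 p n θ
            rw [norm_mul] at e2
            calc ‖G0 p r n θ‖ *
                ‖Complex.exp (-(p * Ek (ee h r) r θ)) - 1 + p * Ek (ee h r) r θ‖
                ≤ ‖G0 p r n θ‖ * (‖Complex.exp (-(p * Ek (ee h r) r θ))‖ +
                  (1 + p * ‖Ek (ee h r) r θ‖)) := mul_le_mul_of_nonneg_left e1 (norm_nonneg _)
              _ = ‖G0 p r n θ‖ * ‖Complex.exp (-(p * Ek (ee h r) r θ))‖ +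
                  ‖G0 p r n θ‖ * (1 + p * ‖Ek (ee h r) r θ‖) := by ring
              _ ≤ Real.exp A * Real.exp (p * ((h (circleMap 0 r θ)).re - Mr r)) +
                  ‖G0 p r n θ‖ * (1 + p * ‖Ek (ee h r) r θ‖) := by
                  rw [e2]
                  gcongr
        have h5 : ∫ θ in {θ : ℝ | θ ∈ Icc (-π) π ∧ T1 < 1 + Xr r θ ^ 2},
              (Real.exp A * Real.exp (p * ((h (circleMap 0 r θ)).re - Mr r)) +
                ‖G0 p r n θ‖ * (1 + p * ‖Ek (ee h r) r θ‖)) =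
            Real.exp A * (∫ θ in {θ : ℝ | θ ∈ Icc (-π) π ∧ T1 < 1 + Xr r θ ^ 2},
              Real.exp (p * ((h (circleMap 0 r θ)).re - Mr r))) +
            ∫ θ in {θ : ℝ | θ ∈ Icc (-π) π ∧ T1 < 1 + Xr r θ ^ 2},
                ‖G0 p r n θ‖ * (1 + p * ‖Ek (ee h r) r θ‖) := by
          have i1 : IntegrableOn (fun θ => Real.exp A *
              Real.exp (p * ((h (circleMap 0 r θ)).re - Mr r)))
              {θ : ℝ | θ ∈ Icc (-π) π ∧ T1 < 1 + Xr r θ ^ 2} volume :=
            hio (continuous_const.mul hch) hsub2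
          rw [integral_add i1 (hio hct hsub2), integral_const_mul]
        rw [h5] at h4
        rw [hinv] at h2
        have h6 : Real.exp A * (∫ θ in {θ : ℝ | θ ∈ Icc (-π) π ∧ T1 < 1 + Xr r θ ^ 2},
              Real.exp (p * ((h (circleMap 0 r θ)).re - Mr r))) ≤
            Real.exp A * (C4 * d ^ 2 * Z0 p r n) :=
          mul_le_mul_of_nonneg_left h3 (Real.exp_pos _).le
        calc _ ≤ C2 * ε * Z0 p r n + (Real.exp A * (C4 * d ^ 2 * Z0 p r n) +
              C3 * (100 ^ 16 * d ^ 4) * Z0 p r n) := by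
              refine add_le_add h1 (h4.trans (add_le_add h6 h2))
          _ = _ := by ring
    have hbook := book hA hC1 hC2 hC3 hC4 hdpos hpd hε0 hεd hp1' hpA
      (by linarith)
    calc _ ≤ (1 + C1 * √p * ε) * Z0 p r n +
        (C2 * ε + (C3 * (100 ^ 16 * d ^ 4) + Real.exp A * (C4 * d ^ 2))) * Z0 p r n :=
          hsplit.trans (by linarith [hrem])
      _ = (1 + C1 * √p * ε + (C2 * ε + (C3 * (100 ^ 16 * d ^ 4) +
          Real.exp A * (C4 * d ^ 2)))) * Z0 p r n := by ring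
      _ ≤ (1 + p * d) * Z0 p r n := mul_le_mul_of_nonneg_right hbook hZ.le

end MP4a1962
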