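import Pool.Agent.Lib.MP_4a1962_an.CTf

/-!
# CPhase: the phase near the saddle point

`|arctan y - y| ≤ |y|³/3`: `y - arctan y` has derivative `y²/(1+y²) ∈ [0, y²]`; odd.
`|sin θ - θ| ≤ |θ|³/6` (`Real.sin_gt_sub_cube`-type lemmas, `Real.abs_sin_sub...`; or the derivative again).
`|arctan (2κ sin θ) - 2κθ| ≤ (2κ|θ|)³/3 + 2κ|θ|³/6 ≤ (8κ³+κ)|θ|³/3 ≤ 366 κ³|θ|³` since `κ ≤ 1089 κ³`.
Multiply by `2`.
-/

set_option autoImplicit false

open MeasureTheory Set Filter Topology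
open scoped Real ENNReal NNReal

namespace MP4a1962

private theorem cphase_arctan_nonneg {y : ℝ} (hy : 0 ≤ y) :
    0 ≤ y - Real.arctan y ∧ y - Real.arctan y ≤ y ^ 3 / 3 := by
  constructor
  · have hmono : MonotoneOn (fun x : ℝ => x - Real.arctan x) (Set.Ici 0) := by
      refine monotoneOn_of_deriv_nonneg (convex_Ici 0) (by fun_prop)
        (differentiable_id.sub Real.differentiable_arctan).differentiableOn ?_
      intro x _
      have h1 : HasDerivAt (fun x : ℝ => x - Real.arctan x) (1 - 1 / (1 + x ^ 2)) x :=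
        (hasDerivAt_id x).sub (Real.hasDerivAt_arctan x)
      rw [h1.deriv]
      have h2 : 1 / (1 + x ^ 2) ≤ 1 := by
        rw [div_le_one (by positivity)]
        nlinarith [sq_nonneg x]
      linarith
    have h := hmono (Set.mem_Ici.2 le_rfl) (Set.mem_Ici.2 hy) hy
    simpa using h
  · have hmono : MonotoneOn (fun x : ℝ => Real.arctan x - x + x ^ 3 / 3) (Set.Ici 0) := by
      refine monotoneOn_of_deriv_nonneg (convex_Ici 0) (by fun_prop)
        (((Real.differentiable_arctan.sub differentiable_id).add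
          ((differentiable_pow 3).div_const 3)).differentiableOn) ?_
      intro x _
      have h1 : HasDerivAt (fun x : ℝ => Real.arctan x - x + x ^ 3 / 3)
          (1 / (1 + x ^ 2) - 1 + (3 : ℕ) * x ^ (3 - 1) / 3) x :=
        ((Real.hasDerivAt_arctan x).sub (hasDerivAt_id x)).add ((hasDerivAt_pow 3 x).div_const 3)
      rw [h1.deriv]
      have e : 1 / (1 + x ^ 2) - 1 + ((3 : ℕ) : ℝ) * x ^ (3 - 1) / 3 = x ^ 4 / (1 + x ^ 2) := by
        have : (1 : ℝ) + x ^ 2 ≠ 0 := by positivity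
        field_simp
        norm_num
        ring
      rw [e]
      positivity
    have h := hmono (Set.mem_Ici.2 le_rfl) (Set.mem_Ici.2 hy) hy
    simp only [Real.arctan_zero] at h
    norm_num at h
    linarith

theorem arctan_sub_le (y : ℝ) : |Real.arctan y - y| ≤ |y| ^ 3 / 3 := by
  rcases le_total 0 y with hy | hy
  · obtain ⟨h1, h2⟩ := cphase_arctan_nonneg hy
    rw [abs_of_nonneg hy, abs_sub_comm, abs_of_nonneg h1]
    exact h2
  · obtain ⟨h1, h2⟩ := cphase_arctan_nonneg (neg_nonneg.2 hy)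
    rw [Real.arctan_neg] at h1 h2
    rw [abs_of_nonpos hy, abs_of_nonneg (by linarith)]
    linarith

private theorem cphase_sin_nonneg {y : ℝ} (hy : 0 ≤ y) :
    0 ≤ y - Real.sin y ∧ y - Real.sin y ≤ y ^ 3 / 6 := by
  constructor
  · have := Real.sin_le hy
    linarith
  · have hmono : MonotoneOn (fun x : ℝ => Real.sin x - x + x ^ 3 / 6) (Set.Ici 0) := by
      refine monotoneOn_of_deriv_nonneg (convex_Ici 0) (by fun_prop) (by fun_prop) ?_
      intro x _
      have h1 : HasDerivAt (fun x : ℝ => Real.sin x - x + x ^ 3 / 6)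
          (Real.cos x - 1 + (3 : ℕ) * x ^ (3 - 1) / 6) x :=
        ((Real.hasDerivAt_sin x).sub (hasDerivAt_id x)).add ((hasDerivAt_pow 3 x).div_const 6)
      rw [h1.deriv]
      have h2 := Real.one_sub_sq_div_two_le_cos (x := x)
      have e : ((3 : ℕ) : ℝ) * x ^ (3 - 1) / 6 = x ^ 2 / 2 := by
        norm_num
        ring
      rw [e]
      linarith
    have h := hmono (Set.mem_Ici.2 le_rfl) (Set.mem_Ici.2 hy) hy
    simp only [Real.sin_zero] at h
    norm_num at h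
    linarith

theorem sin_sub_le (y : ℝ) : |Real.sin y - y| ≤ |y| ^ 3 / 6 := by
  rcases le_total 0 y with hy | hy
  · obtain ⟨h1, h2⟩ := cphase_sin_nonneg hy
    rw [abs_of_nonneg hy, abs_sub_comm, abs_of_nonneg h1]
    exact h2
  · obtain ⟨h1, h2⟩ := cphase_sin_nonneg (neg_nonneg.2 hy)
    rw [Real.sin_neg] at h1 h2
    rw [abs_of_nonpos hy, abs_of_nonneg (by linarith)]
    linarith

theorem phase_le {κ : ℝ} (hκ : 1 / 33 ≤ κ) (θ : ℝ) :
    |2 * Real.arctan (2 * κ * Real.sin θ) - 4 * κ * θ| ≤ 732 * (κ * |θ|) ^ 3 := by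
  have hκ0 : 0 < κ := by linarith
  have e : 2 * Real.arctan (2 * κ * Real.sin θ) - 4 * κ * θ =
      2 * (Real.arctan (2 * κ * Real.sin θ) - 2 * κ * Real.sin θ) +
        4 * κ * (Real.sin θ - θ) := by ring
  have h1 := arctan_sub_le (2 * κ * Real.sin θ)
  have h2 := sin_sub_le θ
  have hs : |Real.sin θ| ≤ |θ| := Real.abs_sin_le_abs
  have h3 : |2 * κ * Real.sin θ| ^ 3 ≤ (2 * κ * |θ|) ^ 3 := by
    refine pow_le_pow_left₀ (abs_nonneg _) ?_ 3
    rw [abs_mul, abs_of_pos (by positivity : (0 : ℝ) < 2 * κ)]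
    exact mul_le_mul_of_nonneg_left hs (by positivity)
  have h4 : κ ≤ 1089 * κ ^ 3 := by
    have h5 : (1 : ℝ) / 1089 ≤ κ ^ 2 := by nlinarith
    nlinarith
  rw [e]
  refine (abs_add_le _ _).trans ?_
  rw [abs_mul, abs_mul, abs_of_pos (by norm_num : (0 : ℝ) < 2),
    abs_of_pos (by positivity : (0 : ℝ) < 4 * κ)]
  have h6 : 0 ≤ |θ| ^ 3 := by positivity
  have h7 : 4 * κ * |Real.sin θ - θ| ≤ 4 * κ * (|θ| ^ 3 / 6) :=
    mul_le_mul_of_nonneg_left h2 (by positivity)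
  have h8 : κ * |θ| ^ 3 ≤ 1089 * κ ^ 3 * |θ| ^ 3 := mul_le_mul_of_nonneg_right h4 h6
  calc 2 * |Real.arctan (2 * κ * Real.sin θ) - 2 * κ * Real.sin θ| + 4 * κ * |Real.sin θ - θ|
      ≤ 2 * ((2 * κ * |θ|) ^ 3 / 3) + 4 * κ * (|θ| ^ 3 / 6) := by linarith
    _ = 16 / 3 * (κ ^ 3 * |θ| ^ 3) + 2 / 3 * (κ * |θ| ^ 3) := by ring
    _ ≤ 732 * (κ * |θ|) ^ 3 := by
        have e2 : 732 * (κ * |θ|) ^ 3 = 732 * (κ ^ 3 * |θ| ^ 3) := by ring
        rw [e2]
        have h9 : 0 ≤ κ ^ 3 * |θ| ^ 3 := by positivity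
        linarith

end MP4a1962
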