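import Mathlib

/-!
# CPure: elementary inequalities

* `exp_rem`: `‖exp (-w) - (1 - w)‖ ≤ ‖w‖²/2 exp ‖w‖` (Mathlib: `Complex.norm_exp_sub_sum_le_norm_mul_exp` or
  `Complex.norm_exp_sub_sum_le_exp_norm_sub_sum` with two terms).
* `norm_ab`: `a > 0`: `‖a - i b‖ = √(a²+b²) ≤ a + b²/(2a)`.
* `near_pt`: with `T = 1 + X²`: `(p/2) log T ≥ (p/2) X²/T` (`log T ≥ 1 - 1/T`). It suffices
  `16 p ε X T³ ≤ (p/4) X²/T + 1` and `28 p √ε X² T² ≤ (p/4) X²/T`. The second: `112 √ε T³ ≤ 1`, from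
  `12544 ε T⁶ ≤ 501760 d T₁⁸ ≤ 1`. The first: by `x + y ≥ 2 √(xy)` it suffices `(16 p ε X T³)² ≤ p X²/T`, i.e.
  `256 p ε² T⁷ ≤ 1`, and `256 p ε² T⁷ ≤ 256·1600 (p d) d T₁⁸ ≤ 409600 A d T₁⁸ ≤ 1`.
* `t1_small`: `T₁⁸ = η/d ≥ η p/A ≥ exp 32` for `p ≥ A exp 32/η`. Then
  `(e/T₁)^(p/2) T₁⁸ = exp (p/2 + (8 - p/2) log T₁) ≤ exp (p/2 + 4 (8 - p/2)) = exp (32 - 3p/2)` for `p ≥ 16`, and
  this is `≤ c η` for `p` large; `d = η/T₁⁸`.
-/

set_option autoImplicit false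

open MeasureTheory Set Filter Topology
open scoped Real ENNReal NNReal

namespace MP4a1962

private theorem cpure_exp_aux {t : ℝ} (ht : 0 ≤ t) : Real.exp t - (1 + t) ≤ t ^ 2 / 2 * Real.exp t := by
  have hmono : MonotoneOn (fun x : ℝ => (1 + x) * Real.exp (-x) + x ^ 2 / 2) (Set.Ici 0) := by
    refine monotoneOn_of_deriv_nonneg (convex_Ici 0) (by fun_prop) (by fun_prop) ?_
    intro x hx
    rw [interior_Ici] at hx
    have hx0 : 0 < x := hx
    have h1 : HasDerivAt (fun x : ℝ => (1 + x) * Real.exp (-x) + x ^ 2 / 2)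
        (1 * Real.exp (-x) + (1 + x) * (Real.exp (-x) * (-1)) + (2 : ℕ) * x ^ (2 - 1) / 2) x := by
      have h2 : HasDerivAt (fun x : ℝ => Real.exp (-x)) (Real.exp (-x) * (-1)) x :=
        (hasDerivAt_neg x).exp
      have h3 : HasDerivAt (fun x : ℝ => 1 + x) 1 x := (hasDerivAt_id x).const_add 1
      exact (h3.mul h2).add ((hasDerivAt_pow 2 x).div_const 2)
    rw [h1.deriv]
    have h4 : Real.exp (-x) ≤ 1 := Real.exp_le_one_iff.2 (by linarith)
    have h5 : x * (1 - Real.exp (-x)) ≥ 0 := mul_nonneg hx0.le (by linarith)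
    have e : 1 * Real.exp (-x) + (1 + x) * (Real.exp (-x) * (-1)) + ((2 : ℕ) : ℝ) * x ^ (2 - 1) / 2 =
        x * (1 - Real.exp (-x)) := by
      norm_num
      ring
    rw [e]
    exact h5
  have h := hmono (Set.mem_Ici.2 le_rfl) (Set.mem_Ici.2 ht) ht
  simp only [add_zero, neg_zero, Real.exp_zero, mul_one] at h
  norm_num at h
  have he : 0 < Real.exp t := Real.exp_pos t
  have h2 : Real.exp (-t) * Real.exp t = 1 := by
    rw [← Real.exp_add]
    simp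
  have h3 := mul_le_mul_of_nonneg_right h he.le
  nlinarith

theorem exp_rem (w : ℂ) :
    ‖Complex.exp (-w) - (1 - w)‖ ≤ ‖w‖ ^ 2 / 2 * Real.exp ‖w‖ := by
  have h := Complex.norm_exp_sub_sum_le_exp_norm_sub_sum (-w) 2
  simp only [Finset.sum_range_succ, Finset.sum_range_zero, pow_zero, Nat.factorial_zero,
    Nat.cast_one, div_one, zero_add, pow_one, Nat.factorial_one, norm_neg] at h
  have e : (1 : ℂ) + -w = 1 - w := by ring
  rw [e] at h
  exact h.trans (cpure_exp_aux (norm_nonneg w))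

theorem norm_ab {a b : ℝ} (ha : 0 < a) : ‖(a : ℂ) - Complex.I * b‖ ≤ a + b ^ 2 / (2 * a) := by
  have h0 : 0 ≤ a + b ^ 2 / (2 * a) := by positivity
  refine le_of_sq_le_sq ?_ h0
  have e1 : ‖(a : ℂ) - Complex.I * b‖ ^ 2 = a ^ 2 + b ^ 2 := by
    rw [← Complex.normSq_eq_norm_sq, Complex.normSq_apply]
    simp
    ring
  rw [e1]
  have e2 : (a + b ^ 2 / (2 * a)) ^ 2 = a ^ 2 + b ^ 2 + (b ^ 2 / (2 * a)) ^ 2 := by
    field_simp
    ring
  rw [e2]
  nlinarith [sq_nonneg (b ^ 2 / (2 * a))]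

theorem near_pt {p ε d A T₁ X : ℝ} (hp : 0 < p) (he0 : 0 ≤ ε) (hed : ε ≤ 40 * d)
    (hA : p * d ≤ A) (hX : 0 ≤ X) (hT : 1 + X ^ 2 ≤ T₁)
    (hd : d * T₁ ^ 8 ≤ 1 / 501760) (hdA : A * (d * T₁ ^ 8) ≤ 1 / 409600) :
    p * (16 * ε * X * (1 + X ^ 2) ^ 3 + 28 * √ε * X ^ 2 * (1 + X ^ 2) ^ 2) ≤
      p / 2 * Real.log (1 + X ^ 2) + 1 := by
  set T : ℝ := 1 + X ^ 2 with hTdef
  have hT1 : 1 ≤ T := by
    rw [hTdef]
    nlinarith [sq_nonneg X]
  have hT0 : 0 < T := by linarith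
  have hd0 : 0 ≤ d := by linarith
  have hX2 : X ^ 2 = T - 1 := by
    rw [hTdef]
    ring
  have hlog : X ^ 2 / T ≤ Real.log T := by
    have h := Real.one_sub_inv_le_log_of_pos hT0
    have e : X ^ 2 / T = 1 - T⁻¹ := by
      rw [hX2]
      field_simp
    rw [e]
    exact h
  have hT6 : T ^ 6 ≤ T₁ ^ 8 :=
    (pow_le_pow_right₀ hT1 (by norm_num)).trans (pow_le_pow_left₀ hT0.le hT 8)
  have hT7 : T ^ 7 ≤ T₁ ^ 8 :=
    (pow_le_pow_right₀ hT1 (by norm_num)).trans (pow_le_pow_left₀ hT0.le hT 8)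
  -- the second term
  have hs : 112 * √ε * T ^ 3 ≤ 1 := by
    refine le_of_sq_le_sq ?_ zero_le_one
    have e : (112 * √ε * T ^ 3) ^ 2 = 12544 * (√ε) ^ 2 * T ^ 6 := by ring
    rw [e, Real.sq_sqrt he0, one_pow]
    have h1 : 12544 * ε * T ^ 6 ≤ 12544 * (40 * d) * T ^ 6 := by
      refine mul_le_mul_of_nonneg_right ?_ (by positivity)
      linarith
    have h2 : d * T ^ 6 ≤ d * T₁ ^ 8 := mul_le_mul_of_nonneg_left hT6 hd0
    nlinarith
  have h2nd : p * (28 * √ε * X ^ 2 * T ^ 2) ≤ p / 4 * (X ^ 2 / T) := by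
    have e : p * (28 * √ε * X ^ 2 * T ^ 2) = p / 4 * (X ^ 2 / T) * (112 * √ε * T ^ 3) := by
      field_simp
      ring
    rw [e]
    exact mul_le_of_le_one_right (by positivity) hs
  -- the first term
  have hf : 256 * p * ε ^ 2 * T ^ 7 ≤ 1 := by
    have h1 : ε ^ 2 ≤ (40 * d) ^ 2 := pow_le_pow_left₀ he0 hed 2
    have h2 : 256 * p * ε ^ 2 * T ^ 7 ≤ 256 * p * (40 * d) ^ 2 * T ^ 7 := by
      refine mul_le_mul_of_nonneg_right ?_ (by positivity)
      exact mul_le_mul_of_nonneg_left h1 (by positivity)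
    have h3 : 256 * p * (40 * d) ^ 2 * T ^ 7 = 409600 * ((p * d) * (d * T ^ 7)) := by ring
    have h4 : d * T ^ 7 ≤ d * T₁ ^ 8 := mul_le_mul_of_nonneg_left hT7 hd0
    have h5 : (p * d) * (d * T ^ 7) ≤ A * (d * T₁ ^ 8) :=
      mul_le_mul hA h4 (by positivity) ((mul_nonneg hp.le hd0).trans hA)
    linarith
  have h1st : p * (16 * ε * X * T ^ 3) ≤ p / 4 * (X ^ 2 / T) + 1 := by
    set u : ℝ := p * (16 * ε * X * T ^ 3) with hu
    set x : ℝ := p / 4 * (X ^ 2 / T) with hx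
    have hx0 : 0 ≤ x := by positivity
    have h1 : u ^ 2 ≤ 4 * x := by
      have e : u ^ 2 = 4 * x * (256 * p * ε ^ 2 * T ^ 7) := by
        rw [hu, hx]
        field_simp
        ring
      rw [e]
      exact mul_le_of_le_one_right (by positivity) hf
    nlinarith [sq_nonneg (x - 1), sq_nonneg (u - x - 1)]
  have hfin : p / 2 * (X ^ 2 / T) ≤ p / 2 * Real.log T :=
    mul_le_mul_of_nonneg_left hlog (by positivity)
  calc p * (16 * ε * X * T ^ 3 + 28 * √ε * X ^ 2 * T ^ 2)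
      = p * (16 * ε * X * T ^ 3) + p * (28 * √ε * X ^ 2 * T ^ 2) := by ring
    _ ≤ (p / 4 * (X ^ 2 / T) + 1) + p / 4 * (X ^ 2 / T) := add_le_add h1st h2nd
    _ = p / 2 * (X ^ 2 / T) + 1 := by ring
    _ ≤ p / 2 * Real.log T + 1 := by linarith

theorem t1_small {A η c : ℝ} (hA : 0 < A) (hη : 0 < η) (hc : 0 < c) :
    ∃ P : ℝ, 1 ≤ P ∧ ∀ p d T₁ : ℝ, P ≤ p → 0 < d → p * d ≤ A → 0 < T₁ → d * T₁ ^ 8 = η →
      Real.exp 4 ≤ T₁ ∧ (Real.exp 1 / T₁) ^ (p / 2) ≤ c * d := by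
  refine ⟨max 16 (max (A * Real.exp 32 / η) ((64 - 2 * Real.log (c * η)) / 3)), ?_, ?_⟩
  · exact le_trans (by norm_num) (le_max_left _ _)
  intro p d T₁ hP hd hpd hT₁ hdT
  have hp16 : 16 ≤ p := (le_max_left _ _).trans hP
  have hp2 : A * Real.exp 32 / η ≤ p := ((le_max_left _ _).trans (le_max_right _ _)).trans hP
  have hp3 : (64 - 2 * Real.log (c * η)) / 3 ≤ p :=
    ((le_max_right _ _).trans (le_max_right _ _)).trans hP
  have hp0 : 0 < p := by linarith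
  have hexp : Real.exp 32 ≤ T₁ ^ 8 := by
    have h1 : A * Real.exp 32 ≤ p * η := (div_le_iff₀ hη).1 hp2
    have h2 : A * Real.exp 32 ≤ A * T₁ ^ 8 := by
      calc A * Real.exp 32 ≤ p * η := h1
        _ = (p * d) * T₁ ^ 8 := by
            rw [← hdT]
            ring
        _ ≤ A * T₁ ^ 8 := mul_le_mul_of_nonneg_right hpd (by positivity)
    exact le_of_mul_le_mul_left h2 hA
  have h4 : Real.exp 4 ≤ T₁ := by
    have e : Real.exp 32 = (Real.exp 4) ^ 8 := by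
      rw [← Real.exp_nat_mul]
      norm_num
    rw [e] at hexp
    exact le_of_pow_le_pow_left₀ (by norm_num) hT₁.le hexp
  refine ⟨h4, ?_⟩
  have hlog4 : 4 ≤ Real.log T₁ := by
    rw [Real.le_log_iff_exp_le hT₁]
    exact h4
  have hdpos : d = η / T₁ ^ 8 := by
    rw [← hdT]
    field_simp
  have hcη : 0 < c * η := mul_pos hc hη
  have key : (Real.exp 1 / T₁) ^ (p / 2) * T₁ ^ 8 ≤ c * η := by
    have e1 : (Real.exp 1 / T₁) ^ (p / 2) * T₁ ^ 8 =
        Real.exp (p / 2 * (1 - Real.log T₁) + 8 * Real.log T₁) := by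
      rw [Real.exp_add, Real.rpow_def_of_pos (div_pos (Real.exp_pos 1) hT₁),
        Real.log_div (Real.exp_pos 1).ne' hT₁.ne', Real.log_exp]
      congr 1
      · congr 1
        ring
      · have : (8 : ℝ) * Real.log T₁ = Real.log (T₁ ^ 8) := by
          rw [Real.log_pow]
          norm_num
        rw [this, Real.exp_log (by positivity)]
    rw [e1]
    have h5 : p / 2 * (1 - Real.log T₁) + 8 * Real.log T₁ ≤ 32 - 3 * p / 2 := by
      nlinarith
    have h6 : 32 - 3 * p / 2 ≤ Real.log (c * η) := by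
      rw [div_le_iff₀ (by norm_num)] at hp3
      linarith
    calc Real.exp (p / 2 * (1 - Real.log T₁) + 8 * Real.log T₁) ≤ Real.exp (Real.log (c * η)) :=
          Real.exp_le_exp.2 (h5.trans h6)
      _ = c * η := Real.exp_log hcη
  rw [hdpos]
  rw [mul_div_assoc', le_div_iff₀ (by positivity)]
  exact key

end MP4a1962
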