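import Pool.Agent.Lib.MP_4a1962_an.CDefs2
import Pool.Agent.Lib.MP_4a1962_an.RecH0

/-!
# CTf: `Tf r θ = 1 + X²` and basic facts
-/

set_option autoImplicit false

open MeasureTheory Set Filter Topology
open scoped Real ENNReal NNReal

namespace MP4a1962

noncomputable section

/-- `1 + X²` -/
def Tf (r θ : ℝ) : ℝ := 1 + Xr r θ ^ 2

theorem kap_pos {r : ℝ} (hr0 : 0 < r) (hr1 : r < 1) : 0 < kap r := by
  unfold kap
  have : 0 < 1 - r ^ 2 := by nlinarith
  positivity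

theorem Xr_nonneg {r : ℝ} (hr0 : 0 < r) (hr1 : r < 1) (θ : ℝ) : 0 ≤ Xr r θ := by
  unfold Xr
  have := kap_pos hr0 hr1
  positivity

theorem one_le_Tf (r θ : ℝ) : 1 ≤ Tf r θ := by
  unfold Tf
  nlinarith [sq_nonneg (Xr r θ)]

theorem Tf_pos (r θ : ℝ) : 0 < Tf r θ := lt_of_lt_of_le one_pos (one_le_Tf r θ)

theorem continuous_Xr (r : ℝ) : Continuous (Xr r) := by
  unfold Xr
  fun_prop

theorem continuous_Tf (r : ℝ) : Continuous (Tf r) := by
  unfold Tf
  have := continuous_Xr r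
  fun_prop

theorem Xr_neg (r θ : ℝ) : Xr r (-θ) = Xr r θ := by
  unfold Xr
  rw [neg_div, Real.sin_neg, abs_neg]

theorem Tf_neg (r θ : ℝ) : Tf r (-θ) = Tf r θ := by
  unfold Tf
  rw [Xr_neg]

theorem circleMap_neg_conj (r θ : ℝ) :
    circleMap 0 r (-θ) = (starRingEnd ℂ) (circleMap 0 r θ) := by
  simp only [circleMap, zero_add, map_mul, Complex.conj_ofReal, ← Complex.exp_conj, Complex.conj_I,
    Complex.ofReal_neg]
  congr 2
  ring

end

end MP4a1962
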