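import Pool.Agent.Lib.MP_4a1962_an.LogDisc

/-!
# N0Basic: the Green function `N0 w = log ‖cosh (w/4)‖ - log ‖sinh (w/4)‖` of the strip

* `‖cosh (a + i b)‖² = sinh² a + cos² b`, `‖sinh (a + i b)‖² = sinh² a + sin² b`; for
  `|w.im| ≤ π`: `|b| ≤ π/4`, `sin² b ≤ cos² b`. At `w = 0` both logs are `0` in Lean.
* `N0_decomp`: on the strip `|im| < 2 π` write `N0 w = R w - lg w` for `w ≠ 0`, with
  `R w = lg (cosh (w/4)) - lg (q w)`, `q = dslope (fun z => sinh (z/4)) 0` (so `q z = sinh (z/4) / z`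
  for `z ≠ 0`, `q 0 = 1/4`), `q` is differentiable on `ℂ` (`Complex.differentiableOn_dslope`), and
  `q z ≠ 0`, `cosh (z/4) ≠ 0` for `|z.im| < 2 π`. So `R` is continuous on the strip and its circle
  averages over circles in the strip equal its value at the centre
  (`AnalyticOnNhd.circleAverage_log_norm_of_ne_zero`).
* `N0_disc`: for `w ≠ 0`, `|w.im| + ρ < 2 π`:
  `dInt ρ N0 w = dInt ρ R w - dInt ρ lg w = π ρ² R w - dInt ρ lg w = π ρ² (N0 w + lg w) - dInt ρ lg w
  = π ρ² N0 w - Jcor ρ w` (`dInt_eq_of_circle`, `Jcor_eq`; `N0 = R - lg` a.e.).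
* line integrability: `R` continuous, `lg_line_int`.
-/

set_option autoImplicit false

open MeasureTheory Set Filter Topology
open scoped Real ENNReal NNReal

namespace MP4a1962

private lemma lg_normSq (z : ℂ) : lg z = Real.log (Complex.normSq z) / 2 := by
  unfold lg
  rw [Complex.norm_def, Real.log_sqrt (Complex.normSq_nonneg z)]

private lemma quarter_eq (w : ℂ) : w / 4 = ((w.re / 4 : ℝ) : ℂ) + ((w.im / 4 : ℝ) : ℂ) * Complex.I := by
  apply Complex.ext <;> simp

private lemma normSq_cosh (w : ℂ) : Complex.normSq (Complex.cosh (w / 4)) =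
    Real.sinh (w.re / 4) ^ 2 + Real.cos (w.im / 4) ^ 2 := by
  rw [quarter_eq, Complex.cosh_add, Complex.cosh_mul_I, Complex.sinh_mul_I, ← Complex.ofReal_cosh,
    ← Complex.ofReal_sinh, ← Complex.ofReal_cos, ← Complex.ofReal_sin, Complex.normSq_apply]
  simp only [Complex.add_re, Complex.add_im, Complex.mul_re, Complex.mul_im, Complex.ofReal_re,
    Complex.ofReal_im, Complex.I_re, Complex.I_im]
  have h1 := Real.cosh_sq (w.re / 4)
  have h2 := Real.sin_sq_add_cos_sq (w.im / 4)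
  linear_combination (Real.cos (w.im / 4)) ^ 2 * h1 + (Real.sinh (w.re / 4)) ^ 2 * h2

private lemma normSq_sinh (w : ℂ) : Complex.normSq (Complex.sinh (w / 4)) =
    Real.sinh (w.re / 4) ^ 2 + Real.sin (w.im / 4) ^ 2 := by
  rw [quarter_eq, Complex.sinh_add, Complex.cosh_mul_I, Complex.sinh_mul_I, ← Complex.ofReal_cosh,
    ← Complex.ofReal_sinh, ← Complex.ofReal_cos, ← Complex.ofReal_sin, Complex.normSq_apply]
  simp only [Complex.add_re, Complex.add_im, Complex.mul_re, Complex.mul_im, Complex.ofReal_re,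
    Complex.ofReal_im, Complex.I_re, Complex.I_im]
  have h1 := Real.cosh_sq (w.re / 4)
  have h2 := Real.sin_sq_add_cos_sq (w.im / 4)
  linear_combination (Real.sin (w.im / 4)) ^ 2 * h1 + (Real.sinh (w.re / 4)) ^ 2 * h2

private lemma N0_eq (w : ℂ) : N0 w =
    Real.log (Real.sinh (w.re / 4) ^ 2 + Real.cos (w.im / 4) ^ 2) / 2 -
      Real.log (Real.sinh (w.re / 4) ^ 2 + Real.sin (w.im / 4) ^ 2) / 2 := by
  unfold N0
  rw [lg_normSq, lg_normSq, normSq_cosh, normSq_sinh]

theorem N0_nonneg {w : ℂ} (hw : |w.im| ≤ π) : 0 ≤ N0 w := by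
  rw [N0_eq]
  rw [abs_le] at hw
  have h1 : 0 ≤ Real.cos (2 * (w.im / 4)) :=
    Real.cos_nonneg_of_mem_Icc ⟨by linarith [hw.1], by linarith [hw.2]⟩
  rw [Real.cos_two_mul'] at h1
  rcases eq_or_lt_of_le (add_nonneg (sq_nonneg (Real.sinh (w.re / 4)))
    (sq_nonneg (Real.sin (w.im / 4)))) with h0 | h0
  · have h2 : Real.sinh (w.re / 4) ^ 2 = 0 := by
      have := sq_nonneg (Real.sinh (w.re / 4))
      have := sq_nonneg (Real.sin (w.im / 4))
      linarith
    have h3 : Real.sin (w.im / 4) ^ 2 = 0 := by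
      have := sq_nonneg (Real.sin (w.im / 4))
      linarith
    have h4 := Real.sin_sq_add_cos_sq (w.im / 4)
    rw [h3, zero_add] at h4
    rw [← h0, h2, h4]
    simp
  · have h2 : Real.log (Real.sinh (w.re / 4) ^ 2 + Real.sin (w.im / 4) ^ 2) ≤
        Real.log (Real.sinh (w.re / 4) ^ 2 + Real.cos (w.im / 4) ^ 2) :=
      Real.log_le_log h0 (by linarith)
    linarith

theorem N0_neg_im (u v : ℝ) : N0 (pt u (-v)) = N0 (pt u v) := by
  rw [N0_eq, N0_eq]
  simp only [pt_re, pt_im, neg_div, Real.cos_neg, Real.sin_neg, neg_sq]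

theorem N0_neg_re (u v : ℝ) : N0 (pt (-u) v) = N0 (pt u v) := by
  rw [N0_eq, N0_eq]
  simp only [pt_re, pt_im, neg_div, Real.sinh_neg, neg_sq]

theorem measurable_N0 : Measurable N0 := by
  unfold N0
  have h1 : Measurable (fun w : ℂ => Complex.cosh (w / 4)) :=
    (Complex.continuous_cosh.comp (continuous_id.div_const 4)).measurable
  have h2 : Measurable (fun w : ℂ => Complex.sinh (w / 4)) :=
    (Complex.continuous_sinh.comp (continuous_id.div_const 4)).measurable
  exact (measurable_lg.comp h1).sub (measurable_lg.comp h2)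

private noncomputable def sh (z : ℂ) : ℂ := Complex.sinh (z / 4)

private noncomputable def qf : ℂ → ℂ := dslope sh 0

private lemma sh_deriv (z : ℂ) : HasDerivAt sh (Complex.cosh (z / 4) * (1 / 4)) z := by
  have h1 : HasDerivAt (fun z : ℂ => z / 4) (1 / 4) z := (hasDerivAt_id z).div_const 4
  exact (Complex.hasDerivAt_sinh (z / 4)).comp z h1

private lemma qf_diff : Differentiable ℂ qf := by
  have h1 : DifferentiableOn ℂ sh univ := fun z _ => (sh_deriv z).differentiableAt.differentiableWithinAt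
  have h2 := (Complex.differentiableOn_dslope (c := (0 : ℂ)) univ_mem).mpr h1
  exact differentiableOn_univ.mp h2

private lemma qf_zero : qf 0 = 1 / 4 := by
  unfold qf
  rw [dslope_same, (sh_deriv 0).deriv]
  simp

private lemma qf_ne {w : ℂ} (hw : w ≠ 0) : qf w = Complex.sinh (w / 4) / w := by
  unfold qf
  rw [dslope_of_ne _ hw, slope_def_field]
  simp [sh]

private lemma sinh_ne {w : ℂ} (hw : w ≠ 0) (h : |w.im| < 2 * π) : Complex.sinh (w / 4) ≠ 0 := by
  intro h0
  have h1 := normSq_sinh w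
  rw [h0, map_zero] at h1
  have h2 : Real.sinh (w.re / 4) ^ 2 = 0 := by
    have := sq_nonneg (Real.sinh (w.re / 4))
    have := sq_nonneg (Real.sin (w.im / 4))
    linarith
  have h3 : Real.sin (w.im / 4) ^ 2 = 0 := by
    have := sq_nonneg (Real.sin (w.im / 4))
    linarith
  rw [sq_eq_zero_iff, Real.sinh_eq_zero] at h2
  rw [sq_eq_zero_iff] at h3
  rw [abs_lt] at h
  have h4 := (Real.sin_eq_zero_iff_of_lt_of_lt (by linarith [h.1, Real.pi_pos])
    (by linarith [h.2, Real.pi_pos])).mp h3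
  apply hw
  apply Complex.ext
  · rw [Complex.zero_re]
    linarith
  · rw [Complex.zero_im]
    linarith

private lemma cosh_ne {w : ℂ} (h : |w.im| < 2 * π) : Complex.cosh (w / 4) ≠ 0 := by
  intro h0
  have h1 := normSq_cosh w
  rw [h0, map_zero] at h1
  rw [abs_lt] at h
  have h3 : 0 < Real.cos (w.im / 4) :=
    Real.cos_pos_of_mem_Ioo ⟨by linarith [h.1], by linarith [h.2]⟩
  have := sq_nonneg (Real.sinh (w.re / 4))
  have : 0 < Real.cos (w.im / 4) ^ 2 := by positivity
  linarith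

private lemma qf_ne_zero {w : ℂ} (h : |w.im| < 2 * π) : qf w ≠ 0 := by
  rcases eq_or_ne w 0 with h0 | h0
  · rw [h0, qf_zero]
    norm_num
  · rw [qf_ne h0]
    exact div_ne_zero (sinh_ne h0 h) h0

private noncomputable def Gf (w : ℂ) : ℂ := Complex.cosh (w / 4) / qf w

private lemma open_strip : IsOpen {w : ℂ | |w.im| < 2 * π} :=
  isOpen_lt (continuous_abs.comp Complex.continuous_im) continuous_const

private lemma Gf_diff : DifferentiableOn ℂ Gf {w : ℂ | |w.im| < 2 * π} := by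
  have h1 : Differentiable ℂ (fun w : ℂ => Complex.cosh (w / 4)) :=
    fun z => Complex.differentiable_cosh.differentiableAt.comp z
      (differentiableAt_id.div_const 4)
  exact h1.differentiableOn.div qf_diff.differentiableOn (fun z hz => qf_ne_zero hz)

private lemma Gf_ne_zero {w : ℂ} (h : |w.im| < 2 * π) : Gf w ≠ 0 :=
  div_ne_zero (cosh_ne h) (qf_ne_zero h)

theorem N0_decomp : ∃ R : ℂ → ℝ, ContinuousOn R {w : ℂ | |w.im| < 2 * π} ∧
    (∀ w : ℂ, w ≠ 0 → |w.im| < 2 * π → N0 w = R w - lg w) ∧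
    (∀ (w : ℂ) (r : ℝ), 0 < r → |w.im| + r < 2 * π → Real.circleAverage R w r = R w) := by
  refine ⟨fun w => Real.log ‖Gf w‖, ?_, ?_, ?_⟩
  · apply ContinuousOn.log Gf_diff.continuousOn.norm
    intro w hw
    exact norm_ne_zero_iff.mpr (Gf_ne_zero hw)
  · intro w hw h
    have h1 : Complex.sinh (w / 4) ≠ 0 := sinh_ne hw h
    have h2 := cosh_ne h
    unfold N0 lg Gf
    beta_reduce
    rw [qf_ne hw, norm_div, norm_div, Real.log_div (norm_ne_zero_iff.mpr h2)
      (div_ne_zero (norm_ne_zero_iff.mpr h1) (norm_ne_zero_iff.mpr hw)),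
      Real.log_div (norm_ne_zero_iff.mpr h1) (norm_ne_zero_iff.mpr hw)]
    ring
  · intro w r hr h
    have hsub : Metric.closedBall w |r| ⊆ {w : ℂ | |w.im| < 2 * π} := by
      intro z hz
      rw [Metric.mem_closedBall, dist_eq_norm, abs_of_pos hr] at hz
      have h1 := (Complex.abs_im_le_norm (z - w)).trans hz
      rw [Complex.sub_im] at h1
      have h2 : |z.im| ≤ |z.im - w.im| + |w.im| := by
        have := abs_add_le (z.im - w.im) w.im
        rwa [sub_add_cancel] at this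
      change |z.im| < 2 * π
      linarith
    exact AnalyticOnNhd.circleAverage_log_norm_of_ne_zero
      ((Gf_diff.analyticOnNhd open_strip).mono hsub) (fun z hz => Gf_ne_zero (hsub hz))

private lemma ae_ne (a : ℝ) : ∀ᵐ v : ℝ, v ≠ a := by
  rw [ae_iff]
  simp

theorem N0_line_int (u : ℝ) {s : ℝ} (hs : |s| < 2 * π) (s' : ℝ) (hs' : |s'| < 2 * π) :
    IntervalIntegrable (fun v => N0 (pt u v)) volume s s' := by
  obtain ⟨R, hR1, hR2, -⟩ := N0_decomp
  have hin : ∀ v ∈ uIcc s s', |v| < 2 * π := by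
    intro v hv
    rw [abs_lt] at hs hs' ⊢
    rw [mem_uIcc] at hv
    rcases hv with hv | hv
    · exact ⟨by linarith [hv.1], by linarith [hv.2]⟩
    · exact ⟨by linarith [hv.1], by linarith [hv.2]⟩
  have h1 : IntervalIntegrable (fun v => R (pt u v)) volume s s' := by
    apply ContinuousOn.intervalIntegrable
    exact hR1.comp (continuous_pt_right u).continuousOn (fun v hv => hin v hv)
  refine (h1.sub (lg_line_int u s s')).congr_ae ?_
  have h2 : ∀ᵐ v ∂(volume.restrict (uIoc s s')), v ≠ 0 := ae_restrict_of_ae (ae_ne 0)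
  filter_upwards [h2, self_mem_ae_restrict measurableSet_uIoc] with v hv hv'
  have h3 : pt u v ≠ 0 := by
    intro h
    exact hv (Complex.ext_iff.mp h).2
  exact (hR2 _ h3 (hin v (uIoc_subset_uIcc hv'))).symm

private lemma ball_in {w : ℂ} {ρ : ℝ} (hs : |w.im| + ρ < 2 * π) :
    ∀ ζ ∈ Metric.closedBall (0 : ℂ) ρ, |(w + ζ).im| < 2 * π := by
  intro ζ hζ
  rw [Metric.mem_closedBall, dist_zero_right] at hζ
  have h1 := (Complex.abs_im_le_norm ζ).trans hζ
  have h2 := abs_add_le w.im ζ.im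
  rw [Complex.add_im]
  linarith

private lemma R_int {R : ℂ → ℝ} (hR : ContinuousOn R {w : ℂ | |w.im| < 2 * π})
    {w : ℂ} {ρ : ℝ} (hs : |w.im| + ρ < 2 * π) :
    IntegrableOn (fun ζ => R (w + ζ)) (Metric.ball (0 : ℂ) ρ) := by
  have hc : ContinuousOn (fun ζ => R (w + ζ)) (Metric.closedBall (0 : ℂ) ρ) :=
    hR.comp (continuous_const.add continuous_id).continuousOn (ball_in hs)
  exact (hc.integrableOn_compact (isCompact_closedBall 0 ρ)).mono_set
    Metric.ball_subset_closedBall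

private lemma N0_ae {R : ℂ → ℝ} (hR2 : ∀ w : ℂ, w ≠ 0 → |w.im| < 2 * π → N0 w = R w - lg w)
    {w : ℂ} {ρ : ℝ} (hs : |w.im| + ρ < 2 * π) :
    (fun ζ => R (w + ζ) - lg (w + ζ)) =ᵐ[volume.restrict (Metric.ball (0 : ℂ) ρ)]
      fun ζ => N0 (w + ζ) := by
  have h2 : ∀ᵐ ζ : ℂ, ζ ≠ -w := by
    rw [ae_iff]
    simp
  filter_upwards [ae_restrict_of_ae h2, self_mem_ae_restrict measurableSet_ball] with ζ hζ hζ'
  have h3 : w + ζ ≠ 0 := by
    intro h
    exact hζ (eq_neg_of_add_eq_zero_right h)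
  exact (hR2 _ h3 (ball_in hs ζ (Metric.ball_subset_closedBall hζ'))).symm

theorem N0_ball_int {w : ℂ} {ρ : ℝ} (hρ : 0 < ρ) (hs : |w.im| + ρ < 2 * π) :
    IntegrableOn (fun ζ => N0 (w + ζ)) (Metric.ball (0 : ℂ) ρ) := by
  obtain ⟨R, hR1, hR2, -⟩ := N0_decomp
  exact Integrable.congr ((R_int hR1 hs).sub (lg_ball_int w ρ)) (N0_ae hR2 hs)

theorem N0_disc {w : ℂ} (hw : w ≠ 0) {ρ : ℝ} (hρ : 0 < ρ) (hs : |w.im| + ρ < 2 * π) :
    π * ρ ^ 2 * N0 w = dInt ρ N0 w + Jcor ρ w := by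
  obtain ⟨R, hR1, hR2, hR3⟩ := N0_decomp
  have h1 : dInt ρ N0 w = dInt ρ R w - dInt ρ lg w := by
    unfold dInt
    rw [← integral_sub (R_int hR1 hs) (lg_ball_int w ρ)]
    exact (integral_congr_ae (N0_ae hR2 hs)).symm
  have h2 : dInt ρ R w = π * ρ ^ 2 * R w :=
    dInt_eq_of_circle hρ.le (R_int hR1 hs) (fun r hr => hR3 w r hr.1 (by linarith [hr.2]))
  have h3 : N0 w = R w - lg w := hR2 w hw (by linarith)
  rw [Jcor_eq hρ, h1, h2, h3]
  ring

end MP4a1962
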