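import Pool.Agent.Lib.MP_4a1962_an.PotA
import Pool.Agent.Lib.MP_4a1962_an.N0Basic
import Pool.Agent.Lib.MP_4a1962_an.CDefs
import Pool.Agent.Lib.MP_4a1962_an.RecH0

/-!
# CircH0: the counting function of the extremal map

`h0f z = 2 log ((1+z)/(1-z))` maps the disc bijectively onto `|Im| < π` with inverse `w ↦ tanh (w/4)`:
`h0f z = w` iff `(1+z)/(1-z) = e^{w/2}` (principal log; `|Im (w/2)| < π/2`) iff
`z = (e^{w/2} - 1)/(e^{w/2} + 1) = sinh (w/4) / cosh (w/4)`. So `lg z = - N0 w`.
For `0 < |w|`, `|w.im| < π`: if `‖z_w‖ ≤ r` (`z_w = tanh (w/4)`) then `h0f z - w = (z - z_w) g z` with `g`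
analytic (`dslope`) without zeros on `closedBall 0 r`; `circleAverage (log ‖· - z_w‖) 0 r = log r`
(`circleAverage_log_norm_sub_const_of_mem_closedBall`) and `circleAverage (log ‖g ·‖) 0 r = log ‖g 0‖ =
log ‖w‖ - log ‖z_w‖`, so `circN h0f r w = log r - log ‖z_w‖ = N0 w + log r ≥ 0`. If `‖z_w‖ > r` then
`circN h0f r w = 0` (`circN_eq_zero`) and `N0 w + log r < 0`. At `w = 0` both sides are `0`.
For `|w.im| ≥ π`: `w` is not in the image.
-/

set_option autoImplicit false

open MeasureTheory Set Filter Topology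
open scoped Real ENNReal NNReal

namespace MP4a1962

private theorem ch_re_pos {z : ℂ} (hz : ‖z‖ < 1) : 0 < ((1 + z) / (1 - z)).re := by
  have h1 : (1 - z) ≠ 0 := by
    intro h
    have h2 : z = 1 := (sub_eq_zero.1 h).symm
    rw [h2, norm_one] at hz
    exact lt_irrefl _ hz
  have h3 : 0 < Complex.normSq (1 - z) := Complex.normSq_pos.2 h1
  rw [Complex.div_re, ← add_div]
  apply div_pos _ h3
  have h4 : z.re ^ 2 + z.im ^ 2 < 1 := by
    have h5 := Complex.sq_norm z
    rw [Complex.normSq_apply] at h5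
    nlinarith [norm_nonneg z]
  simp only [Complex.add_re, Complex.one_re, Complex.sub_re, Complex.add_im, Complex.one_im,
    Complex.sub_im]
  nlinarith

private theorem ch_ne_sub {z : ℂ} (hz : ‖z‖ < 1) : (1 - z) ≠ 0 := by
  intro h
  have h2 : z = 1 := (sub_eq_zero.1 h).symm
  rw [h2, norm_one] at hz
  exact lt_irrefl _ hz

private theorem ch_ne_add {z : ℂ} (hz : ‖z‖ < 1) : (1 + z) ≠ 0 := by
  intro h
  have h2 : z = -1 := by linear_combination h
  rw [h2, norm_neg, norm_one] at hz
  exact lt_irrefl _ hz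

private theorem ch_im_lt {z : ℂ} (hz : ‖z‖ < 1) : |(h0f z).im| < π := by
  have h1 : |((1 + z) / (1 - z)).arg| < π / 2 :=
    Complex.abs_arg_lt_pi_div_two_iff.mpr (Or.inl (ch_re_pos hz))
  have h2 : (h0f z).im = 2 * ((1 + z) / (1 - z)).arg := by
    unfold h0f
    rw [Complex.mul_im, Complex.log_im]
    simp
  rw [h2, abs_mul, abs_two]
  linarith

private theorem ch_zero : h0f 0 = 0 := by
  unfold h0f
  simp

private theorem ch_diff : DifferentiableOn ℂ h0f (Metric.ball 0 1) := h0_diff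

private theorem ch_cosh {w : ℂ} (hw : |w.im| < π) : Complex.cosh (w / 4) ≠ 0 := by
  rw [abs_lt] at hw
  intro h0
  have h1 : (Complex.cosh (w / 4)).re = Real.cosh (w.re / 4) * Real.cos (w.im / 4) := by
    have h2 : w / 4 = ((w.re / 4 : ℝ) : ℂ) + ((w.im / 4 : ℝ) : ℂ) * Complex.I := by
      apply Complex.ext <;> simp
    rw [h2, Complex.cosh_add, Complex.cosh_mul_I, Complex.sinh_mul_I, ← Complex.ofReal_cosh,
      ← Complex.ofReal_sinh, ← Complex.ofReal_cos, ← Complex.ofReal_sin]
    simp only [Complex.add_re, Complex.mul_re, Complex.mul_im, Complex.ofReal_re,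
      Complex.ofReal_im, Complex.I_re, Complex.I_im]
    ring
  rw [h0, Complex.zero_re] at h1
  have h3 : 0 < Real.cos (w.im / 4) :=
    Real.cos_pos_of_mem_Ioo ⟨by linarith [hw.1, Real.pi_pos], by linarith [hw.2, Real.pi_pos]⟩
  have h4 := Real.cosh_pos (w.re / 4)
  have h5 := mul_pos h4 h3
  linarith

/-- the inverse map -/
private noncomputable def zw (w : ℂ) : ℂ := Complex.sinh (w / 4) / Complex.cosh (w / 4)

private theorem ch_exp {w : ℂ} (hw : |w.im| < π) :
    (1 + zw w) = Complex.exp (w / 2) * (1 - zw w) := by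
  have hc := ch_cosh hw
  have h1 : Complex.exp (w / 2) = Complex.exp (w / 4) * Complex.exp (w / 4) := by
    rw [← Complex.exp_add]
    congr 1
    ring
  have h2 : Complex.cosh (w / 4) + Complex.sinh (w / 4) = Complex.exp (w / 4) :=
    Complex.cosh_add_sinh _
  have h3 : Complex.cosh (w / 4) - Complex.sinh (w / 4) = Complex.exp (-(w / 4)) :=
    Complex.cosh_sub_sinh _
  have h4 : Complex.exp (w / 4) * Complex.exp (-(w / 4)) = 1 := by
    rw [← Complex.exp_add, add_neg_cancel, Complex.exp_zero]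
  have e1 : (1 + zw w) * Complex.cosh (w / 4) = Complex.exp (w / 4) := by
    unfold zw
    field_simp
    exact h2
  have e2 : (1 - zw w) * Complex.cosh (w / 4) = Complex.exp (-(w / 4)) := by
    unfold zw
    field_simp
    exact h3
  apply mul_right_cancel₀ hc
  rw [e1, mul_assoc, e2, h1, mul_assoc, h4, mul_one]

private theorem ch_eq_zw {z w : ℂ} (hz : ‖z‖ < 1) (hw : |w.im| < π) (h : h0f z = w) :
    z = zw w := by
  have h1 : (1 + z) / (1 - z) = Complex.exp (w / 2) := by
    rw [← h]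
    unfold h0f
    rw [mul_div_cancel_left₀ _ (by norm_num : (2 : ℂ) ≠ 0), Complex.exp_log]
    exact div_ne_zero (ch_ne_add hz) (ch_ne_sub hz)
  have h2 : 1 + z = Complex.exp (w / 2) * (1 - z) := by
    rw [← h1, div_mul_cancel₀ _ (ch_ne_sub hz)]
  have h3 := ch_exp hw
  have h4 : (z - zw w) * (1 + Complex.exp (w / 2)) = 0 := by
    linear_combination h2 - h3
  rcases mul_eq_zero.1 h4 with h5 | h5
  · exact sub_eq_zero.1 h5
  · exfalso
    have h6 : (2 : ℂ) = 0 := by
      linear_combination h2 + (1 - z) * h5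
    norm_num at h6

private theorem ch_h0f_zw {w : ℂ} (hw : |w.im| < π) (hz : ‖zw w‖ < 1) : h0f (zw w) = w := by
  unfold h0f
  have h1 : (1 + zw w) / (1 - zw w) = Complex.exp (w / 2) := by
    rw [div_eq_iff (ch_ne_sub hz)]
    exact ch_exp hw
  rw [abs_lt] at hw
  have h2 : (w / 2).im = w.im / 2 := by simp
  rw [h1, Complex.log_exp]
  · ring
  · rw [h2]
    linarith [hw.1, Real.pi_pos]
  · rw [h2]
    linarith [hw.2, Real.pi_pos]

private theorem ch_sinh_ne {w : ℂ} (hw : |w.im| < π) (h0 : w ≠ 0) :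
    Complex.sinh (w / 4) ≠ 0 := by
  intro h
  have h1 : zw w = 0 := by unfold zw; rw [h, zero_div]
  have h2 := ch_h0f_zw hw (by rw [h1, norm_zero]; exact one_pos)
  rw [h1, ch_zero] at h2
  exact h0 h2.symm

private theorem ch_lg_zw {w : ℂ} (hw : |w.im| < π) (h0 : w ≠ 0) :
    Real.log ‖zw w‖ = -N0 w := by
  unfold zw N0 lg
  rw [norm_div, Real.log_div (norm_ne_zero_iff.2 (ch_sinh_ne hw h0))
    (norm_ne_zero_iff.2 (ch_cosh hw))]
  ring

private theorem ch_deriv {z : ℂ} (hz : ‖z‖ < 1) : deriv h0f z ≠ 0 := by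
  have h1 : HasDerivAt (fun z : ℂ => (1 + z) / (1 - z))
      ((1 * (1 - z) - (1 + z) * (-1)) / (1 - z) ^ 2) z := by
    have ha : HasDerivAt (fun z : ℂ => 1 + z) 1 z := (hasDerivAt_id z).const_add 1
    have hb : HasDerivAt (fun z : ℂ => 1 - z) (-1) z := (hasDerivAt_id z).const_sub 1
    exact ha.div hb (ch_ne_sub hz)
  have h2 := (h1.clog (Or.inl (ch_re_pos hz))).const_mul (2 : ℂ)
  have h3 : deriv h0f z = 2 * ((1 * (1 - z) - (1 + z) * (-1)) / (1 - z) ^ 2 /
      ((1 + z) / (1 - z))) := h2.deriv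
  rw [h3]
  have h4 : (1 * (1 - z) - (1 + z) * (-1)) = 2 := by ring
  rw [h4]
  exact mul_ne_zero two_ne_zero (div_ne_zero (div_ne_zero two_ne_zero
    (pow_ne_zero _ (ch_ne_sub hz))) (div_ne_zero (ch_ne_add hz) (ch_ne_sub hz)))

private theorem ch_avg {r : ℝ} (hr0 : 0 < r) (hr1 : r < 1) {w : ℂ} (hw : |w.im| < π)
    (h0 : w ≠ 0) (hz : ‖zw w‖ ≤ r) :
    Real.circleAverage (fun z => lg (h0f z - w)) 0 r = Real.log r + lg w + N0 w := by
  have hzw1 : ‖zw w‖ < 1 := lt_of_le_of_lt hz hr1
  have hzwm : zw w ∈ Metric.ball (0 : ℂ) 1 := by simpa using hzw1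
  have hval := ch_h0f_zw hw hzw1
  have hzw0 : zw w ≠ 0 := by
    intro h
    rw [h, ch_zero] at hval
    exact h0 hval.symm
  set g : ℂ → ℂ := dslope h0f (zw w) with hg
  have hgd : DifferentiableOn ℂ g (Metric.ball 0 1) := by
    rw [hg]
    exact (Complex.differentiableOn_dslope (Metric.isOpen_ball.mem_nhds hzwm)).mpr ch_diff
  have hga : AnalyticOnNhd ℂ g (Metric.closedBall (0 : ℂ) |r|) :=
    (hgd.analyticOnNhd Metric.isOpen_ball).mono
      (Metric.closedBall_subset_ball (by rwa [abs_of_pos hr0]))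
  have hfac : ∀ z, h0f z - w = (z - zw w) * g z := by
    intro z
    rw [hg]
    have h1 := sub_smul_dslope h0f (zw w) z
    rw [smul_eq_mul, hval] at h1
    exact h1.symm
  have hgne : ∀ u ∈ Metric.closedBall (0 : ℂ) |r|, g u ≠ 0 := by
    intro u hu
    rw [abs_of_pos hr0, Metric.mem_closedBall, dist_zero_right] at hu
    have hu1 : ‖u‖ < 1 := lt_of_le_of_lt hu hr1
    by_cases h : u = zw w
    · rw [h, hg, dslope_same]
      exact ch_deriv hzw1
    · intro h2
      have h3 := hfac u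
      rw [h2, mul_zero] at h3
      exact h (ch_eq_zw hu1 hw (sub_eq_zero.1 h3))
  have hr' : r ≠ 0 := hr0.ne'
  have e1 : Real.circleAverage (fun z => lg (h0f z - w)) 0 r =
      Real.circleAverage ((fun z => Real.log ‖z - zw w‖) + fun z => Real.log ‖g z‖) 0 r := by
    apply Real.circleAverage_congr_codiscreteWithin _ hr'
    have hcod : {z : ℂ | z ≠ zw w} ∈ codiscreteWithin (Metric.sphere (0 : ℂ) |r|) := by
      apply codiscreteWithin_iff_locallyFiniteComplementWithin.2
      intro z _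
      refine ⟨Set.univ, Filter.univ_mem, ?_⟩
      apply Set.Subsingleton.finite
      intro z₁ hz₁ z₂ hz₂
      have ha : z₁ = zw w := by
        by_contra hcon
        exact hz₁.2.2 hcon
      have hb : z₂ = zw w := by
        by_contra hcon
        exact hz₂.2.2 hcon
      rw [ha, hb]
    filter_upwards [hcod, self_mem_codiscreteWithin (Metric.sphere (0 : ℂ) |r|)] with z hz1 hz2
    have hz3 : z ∈ Metric.closedBall (0 : ℂ) |r| := Metric.sphere_subset_closedBall hz2
    show lg (h0f z - w) = Real.log ‖z - zw w‖ + Real.log ‖g z‖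
    unfold lg
    rw [hfac z, norm_mul, Real.log_mul (norm_ne_zero_iff.2 (sub_ne_zero.2 hz1))
      (norm_ne_zero_iff.2 (hgne z hz3))]
  rw [e1, Real.circleAverage_add]
  · have e2 : Real.circleAverage (fun z => Real.log ‖z - zw w‖) 0 r = Real.log r := by
      apply circleAverage_log_norm_sub_const_of_mem_closedBall
      rw [abs_of_pos hr0, Metric.mem_closedBall, dist_zero_right]
      exact hz
    have e3 : Real.circleAverage (fun z => Real.log ‖g z‖) 0 r = Real.log ‖g 0‖ :=
      AnalyticOnNhd.circleAverage_log_norm_of_ne_zero hga hgne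
    have e4 : g 0 = w / zw w := by
      have h1 := hfac 0
      rw [ch_zero, zero_sub, zero_sub] at h1
      rw [eq_div_iff hzw0]
      linear_combination h1
    rw [e2, e3, e4, norm_div, Real.log_div (norm_ne_zero_iff.2 h0) (norm_ne_zero_iff.2 hzw0),
      ch_lg_zw hw h0]
    unfold lg
    ring
  · exact MeromorphicOn.circleIntegrable_log_norm (fun _ _ => by fun_prop)
  · refine MeromorphicOn.circleIntegrable_log_norm (fun z hz => ?_)
    exact (hga z (Metric.sphere_subset_closedBall hz)).meromorphicAt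

theorem circN_h0f {r : ℝ} (hr0 : 0 < r) (hr1 : r < 1) {w : ℂ} (hw : |w.im| < π) :
    circN h0f r w = max 0 (N0 w + Real.log r) := by
  have hlr : Real.log r < 0 := Real.log_neg hr0 hr1
  by_cases h0 : w = 0
  · subst h0
    have h1 : circN h0f r 0 = 0 := by unfold circN; rw [if_pos rfl]
    have h2 : N0 0 = 0 := by
      unfold N0
      simp [lg]
    rw [h1, h2, zero_add, max_eq_left hlr.le]
  · have hzw0 : zw w ≠ 0 := by
      unfold zw
      exact div_ne_zero (ch_sinh_ne hw h0) (ch_cosh hw)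
    have hlz := ch_lg_zw hw h0
    by_cases hz : ‖zw w‖ ≤ r
    · have h1 : circN h0f r w = Real.log r + N0 w := by
        unfold circN
        rw [if_neg h0, ch_avg hr0 hr1 hw h0 hz]
        ring
      have h2 : Real.log ‖zw w‖ ≤ Real.log r := Real.log_le_log (norm_pos_iff.2 hzw0) hz
      rw [h1, max_eq_right (by linarith)]
      ring
    · push Not at hz
      have h1 : circN h0f r w = 0 := by
        apply circN_eq_zero ch_diff ch_zero hr0 hr1
        intro z hzb hzw
        rw [Metric.mem_closedBall, dist_zero_right] at hzb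
        have h2 := ch_eq_zw (lt_of_le_of_lt hzb hr1) hw hzw
        rw [h2] at hzb
        exact absurd hzb (not_le.2 hz)
      have h3 : Real.log r < Real.log ‖zw w‖ := Real.log_lt_log hr0 hz
      rw [h1, max_eq_left (by linarith)]

theorem circN_h0f_zero {r : ℝ} (hr0 : 0 < r) (hr1 : r < 1) {w : ℂ} (hw : π ≤ |w.im|) :
    circN h0f r w = 0 := by
  apply circN_eq_zero ch_diff ch_zero hr0 hr1
  intro z hzb hzw
  rw [Metric.mem_closedBall, dist_zero_right] at hzb
  have h1 := ch_im_lt (lt_of_le_of_lt hzb hr1)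
  rw [hzw] at h1
  linarith

end MP4a1962
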