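import Pool.Agent.Lib.MP_4a1962_an.PotA

/-!
# CircMono: the counting function and the radius

`circN H r w ≤ max 0 (circN H r' w - log (r'/r))` for `0 < r < r' < 1`, `w ≠ 0`.

Proof. If `w ∉ H '' closedBall 0 r` the left side is `0` (`circN_eq_zero`). Otherwise let
`z₁ ∈ closedBall 0 r`, `H z₁ = w`, `z₁ ≠ 0`. Jensen (`AnalyticOnNhd.circleAverage_log_norm`) for
`f = H - w` on both discs: `circN H ρ w = Σᶠ u, D_ρ u * log (ρ ‖u‖⁻¹)`, `D_ρ = divisor f (closedBall 0 ρ) ≥ 0`,
`D_{r'} u = D_r u` for `u ∈ closedBall 0 r` (both are the order of `f` at `u`: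
`AnalyticOnNhd.divisor_apply` or `MeromorphicOn.divisor_apply`), `D_r u = 0` outside. So
`circN H r' w - circN H r w ≥ D_r z₁ * (log (r' ‖z₁‖⁻¹) - log (r ‖z₁‖⁻¹)) ≥ log (r'/r)`
(all other terms of the difference are `≥ 0`; `D_r z₁ ≥ 1` because `f z₁ = 0` and `f` is not locally
zero: `f 0 = -w ≠ 0`).
-/

set_option autoImplicit false

open MeasureTheory Set Filter Topology
open scoped Real ENNReal NNReal

namespace MP4a1962

variable {H : ℂ → ℂ} {r r' : ℝ}

/-- the divisor of `H - w` on the closed disc of radius `r` -/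
private noncomputable def cmD (H : ℂ → ℂ) (w : ℂ) (r : ℝ) (u : ℂ) : ℤ :=
  MeromorphicOn.divisor (fun z => H z - w) (Metric.closedBall (0 : ℂ) |r|) u

private lemma cmD_fin (H : ℂ → ℂ) (w : ℂ) (r : ℝ) : (Function.support (cmD H w r)).Finite :=
  (MeromorphicOn.divisor (fun z => H z - w) (Metric.closedBall (0 : ℂ) |r|)).finiteSupport
    (isCompact_closedBall 0 |r|)

private lemma cmD_nonneg (hH : DifferentiableOn ℂ H (Metric.ball 0 1)) (hr0 : 0 < r)
    (hr1 : r < 1) (w u : ℂ) : 0 ≤ cmD H w r u :=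
  MeromorphicOn.AnalyticOnNhd.divisor_nonneg (analyticOnNhd_sub hH hr0 hr1 w) u

private lemma cmD_out (hr0 : 0 < r) {w u : ℂ} (hu : r < ‖u‖) : cmD H w r u = 0 := by
  refine Function.locallyFinsuppWithin.apply_eq_zero_of_notMem _ ?_
  rw [abs_of_pos hr0, Metric.mem_closedBall, dist_zero_right]
  exact not_le.2 hu

private lemma cmD_in (hH : DifferentiableOn ℂ H (Metric.ball 0 1)) (hr0 : 0 < r)
    (hr1 : r < 1) {w u : ℂ} (hu : ‖u‖ ≤ r) :
    cmD H w r u = (meromorphicOrderAt (fun z => H z - w) u).untop₀ := by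
  refine MeromorphicOn.divisor_apply (analyticOnNhd_sub hH hr0 hr1 w).meromorphicOn ?_
  rw [abs_of_pos hr0, Metric.mem_closedBall, dist_zero_right]
  exact hu

private lemma cmD_formula (hH : DifferentiableOn ℂ H (Metric.ball 0 1)) (h0 : H 0 = 0)
    (hr0 : 0 < r) (hr1 : r < 1) {w : ℂ} (hw : w ≠ 0) (S : Finset ℂ)
    (hS : Function.support (cmD H w r) ⊆ S) :
    circN H r w = ∑ u ∈ S, (cmD H w r u : ℝ) * Real.log (r * ‖u‖⁻¹) := by
  have hA := analyticOnNhd_sub hH hr0 hr1 w
  have h1 := AnalyticOnNhd.circleAverage_log_norm hr0.ne' hA (by simpa [h0] using hw)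
  have h2 : Real.circleAverage (fun z => lg (H z - w)) 0 r =
      ∑ᶠ u, MeromorphicOn.divisor (fun z => H z - w) (Metric.closedBall (0 : ℂ) |r|) u *
        Real.log (r * ‖(0 : ℂ) - u‖⁻¹) + lg w := by
    have : (fun z => lg (H z - w)) = fun z => Real.log ‖(fun z => H z - w) z‖ := rfl
    rw [this, h1]
    simp [lg, h0]
  unfold circN
  rw [if_neg hw, h2, add_sub_cancel_right]
  rw [finsum_eq_sum_of_support_subset (s := S)]
  · refine Finset.sum_congr rfl fun u _ => ?_
    rw [zero_sub, norm_neg]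
    rfl
  · intro u hu
    apply hS
    rw [Function.mem_support] at hu ⊢
    intro h
    apply hu
    have h' : MeromorphicOn.divisor (fun z => H z - w) (Metric.closedBall (0 : ℂ) |r|) u = 0 := h
    rw [h', Int.cast_zero, zero_mul]

/-- the order at a zero is at least one -/
private lemma cmD_pos (hH : DifferentiableOn ℂ H (Metric.ball 0 1)) (h0 : H 0 = 0)
    (hr0 : 0 < r) (hr1 : r < 1) {w u : ℂ} (hw : w ≠ 0) (hu : ‖u‖ ≤ r) (hu' : H u = w) :
    1 ≤ cmD H w r u := by
  have hA1 : AnalyticOnNhd ℂ (fun z => H z - w) (Metric.ball (0 : ℂ) 1) :=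
    (hH.sub_const w).analyticOnNhd Metric.isOpen_ball
  have hub : u ∈ Metric.ball (0 : ℂ) 1 := by
    rw [Metric.mem_ball, dist_zero_right]
    linarith
  have hne : cmD H w r u ≠ 0 := by
    rw [cmD_in hH hr0 hr1 hu, (hA1 u hub).meromorphicOrderAt_eq]
    have h1 : analyticOrderAt (fun z => H z - w) u ≠ 0 :=
      (hA1 u hub).analyticOrderAt_ne_zero.2 (by simp [hu'])
    have h2 : analyticOrderAt (fun z => H z - w) u ≠ ⊤ := by
      intro htop
      rw [analyticOrderAt_eq_top] at htop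
      have h3 := hA1.eqOn_zero_of_preconnected_of_eventuallyEq_zero
        (convex_ball (0 : ℂ) 1).isPreconnected hub htop
      have h4 := h3 (Metric.mem_ball_self one_pos)
      simp only [h0, zero_sub, Pi.zero_apply, neg_eq_zero] at h4
      exact hw h4
    obtain ⟨n, hn⟩ := ENat.ne_top_iff_exists.1 h2
    rw [← hn] at h1 ⊢
    have h5 : n ≠ 0 := by
      rintro rfl
      exact h1 rfl
    simpa using h5
  have := cmD_nonneg hH hr0 hr1 w u
  omega

theorem circN_mono (hH : DifferentiableOn ℂ H (Metric.ball 0 1)) (h0 : H 0 = 0)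
    (hr0 : 0 < r) (hrr : r < r') (hr1 : r' < 1) {w : ℂ} (hw : w ≠ 0) :
    circN H r w ≤ max 0 (circN H r' w - Real.log (r' / r)) := by
  have hr'0 : 0 < r' := hr0.trans hrr
  have hr1' : r < 1 := hrr.trans hr1
  by_cases hex : ∀ z ∈ Metric.closedBall (0 : ℂ) r, H z ≠ w
  · rw [circN_eq_zero hH h0 hr0 hr1' hex]
    exact le_max_left _ _
  push Not at hex
  obtain ⟨z₁, hz₁, hz₁w⟩ := hex
  rw [Metric.mem_closedBall, dist_zero_right] at hz₁
  refine le_trans ?_ (le_max_right _ _)
  classical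
  obtain ⟨S, hS⟩ : ∃ S : Finset ℂ, S = (cmD_fin H w r).toFinset ∪ (cmD_fin H w r').toFinset :=
    ⟨_, rfl⟩
  have hS1 : Function.support (cmD H w r) ⊆ S := by
    rw [hS]
    intro u hu
    simp only [Finset.coe_union, Set.Finite.coe_toFinset, Set.mem_union]
    exact Or.inl hu
  have hS2 : Function.support (cmD H w r') ⊆ S := by
    rw [hS]
    intro u hu
    simp only [Finset.coe_union, Set.Finite.coe_toFinset, Set.mem_union]
    exact Or.inr hu
  have hz1S : z₁ ∈ S := by
    apply hS1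
    have := cmD_pos hH h0 hr0 hr1' hw hz₁ hz₁w
    rw [Function.mem_support]
    intro h
    rw [h] at this
    omega
  rw [cmD_formula hH h0 hr0 hr1' hw S hS1, cmD_formula hH h0 hr'0 hr1 hw S hS2, le_sub_iff_add_le']
  have hl : 0 < Real.log (r' / r) := Real.log_pos ((one_lt_div hr0).2 hrr)
  have key : ∀ u ∈ S, (if u = z₁ then Real.log (r' / r) else 0) +
      (cmD H w r u : ℝ) * Real.log (r * ‖u‖⁻¹) ≤ (cmD H w r' u : ℝ) * Real.log (r' * ‖u‖⁻¹) := by
    intro u _
    by_cases hu : ‖u‖ ≤ r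
    · have e1 : cmD H w r' u = cmD H w r u := by
        rw [cmD_in hH hr0 hr1' hu, cmD_in hH hr'0 hr1 (hu.trans hrr.le)]
      rw [e1]
      have hnn := cmD_nonneg hH hr0 hr1' w u
      by_cases hu0 : u = 0
      · subst hu0
        have hz10 : (0 : ℂ) ≠ z₁ := by
          rintro rfl
          exact hw (hz₁w.symm.trans h0)
        rw [if_neg hz10]
        simp
      · have hupos : 0 < ‖u‖ := norm_pos_iff.2 hu0
        have e2 : Real.log (r' * ‖u‖⁻¹) = Real.log (r' / r) + Real.log (r * ‖u‖⁻¹) := by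
          rw [← Real.log_mul (by positivity) (by positivity)]
          congr 1
          field_simp
        rw [e2, mul_add]
        have h3 : (if u = z₁ then Real.log (r' / r) else 0) ≤
            (cmD H w r u : ℝ) * Real.log (r' / r) := by
          split_ifs with h
          · subst h
            have h4 : (1 : ℝ) ≤ (cmD H w r u : ℝ) := by
              exact_mod_cast cmD_pos hH h0 hr0 hr1' hw hz₁ hz₁w
            nlinarith
          · have h4 : (0 : ℝ) ≤ (cmD H w r u : ℝ) := by exact_mod_cast hnn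
            positivity
        linarith
    · push Not at hu
      rw [cmD_out hr0 hu, Int.cast_zero, zero_mul, add_zero, if_neg (by rintro rfl; linarith)]
      by_cases hu' : ‖u‖ ≤ r'
      · have hnn : (0 : ℝ) ≤ (cmD H w r' u : ℝ) := by
          exact_mod_cast cmD_nonneg hH hr'0 hr1 w u
        refine mul_nonneg hnn (Real.log_nonneg ?_)
        have hupos : 0 < ‖u‖ := hr0.trans hu
        rw [← div_eq_mul_inv, one_le_div hupos]
        exact hu'
      · push Not at hu'
        rw [cmD_out hr'0 hu', Int.cast_zero, zero_mul]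
  have hsum := Finset.sum_le_sum key
  rw [Finset.sum_add_distrib, Finset.sum_ite_eq' S z₁, if_pos hz1S] at hsum
  exact hsum

end MP4a1962
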