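import Mathlib

/-!
# Definitions for MP_4a1962_an (Baernstein star inequality for mean p-valent functions)

* `pt u v` is the point `u + i v`.
* `lg w = log ‖w‖`.
* `starB g m` is the star function of a nonnegative function `g` on the line, in layer cake form:
  it equals the supremum of `∫_E g` over the sets `E` of measure `m`.
* `dInt ρ F w` is the integral of `F` over the disc of radius `ρ` centred at `w`.
* `Nstar N w` is the star function of the restriction of `N` to the vertical line through `w`,
  at mass `2 * w.im`.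
* `N0`, `S0` are the extremal functions (strip `|Im w| < π`).
-/

set_option autoImplicit false

open MeasureTheory Set Filter Topology
open scoped Real ENNReal NNReal

namespace MP4a1962

noncomputable section

/-- the point `u + i v` -/
def pt (u v : ℝ) : ℂ := ⟨u, v⟩

@[simp] theorem pt_re (u v : ℝ) : (pt u v).re = u := rfl
@[simp] theorem pt_im (u v : ℝ) : (pt u v).im = v := rfl

theorem pt_eta (w : ℂ) : pt w.re w.im = w := rfl

theorem pt_add (a b c d : ℝ) : pt a b + pt c d = pt (a + c) (b + d) := rfl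

theorem pt_sub (a b c d : ℝ) : pt a b - pt c d = pt (a - c) (b - d) := rfl

theorem continuous_pt : Continuous (fun q : ℝ × ℝ => pt q.1 q.2) :=
  Complex.equivRealProdCLM.symm.continuous

theorem measurable_pt : Measurable (fun q : ℝ × ℝ => pt q.1 q.2) := continuous_pt.measurable

theorem measurable_pt_right (u : ℝ) : Measurable (fun v : ℝ => pt u v) :=
  measurable_pt.comp (measurable_const.prodMk measurable_id)

theorem continuous_pt_right (u : ℝ) : Continuous (fun v : ℝ => pt u v) :=
  continuous_pt.comp (continuous_const.prodMk continuous_id)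

/-- logarithmic kernel -/
def lg (w : ℂ) : ℝ := Real.log ‖w‖

@[fun_prop] theorem measurable_lg : Measurable lg := Real.measurable_log.comp measurable_norm

@[simp] theorem lg_zero : lg 0 = 0 := by simp [lg]

theorem lg_neg (w : ℂ) : lg (-w) = lg w := by simp [lg]

/-- star function of a nonnegative function on the line (layer cake form) -/
def starB (g : ℝ → ℝ) (m : ℝ) : ℝ :=
  ∫ t in Ioi (0 : ℝ), min (volume.real {v : ℝ | t < g v}) m

/-- a profile of mass at most `m` -/
structure Prof (k : ℝ → ℝ) (m : ℝ) : Prop where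
  meas : Measurable k
  nonneg : ∀ v, 0 ≤ k v
  le_one : ∀ v, k v ≤ 1
  int : Integrable k
  mass : ∫ v, k v ≤ m

/-- moving average of `k` (not normalised) -/
def Kav (k : ℝ → ℝ) (y v : ℝ) : ℝ := ∫ x in (v - y)..(v + y), k x

/-- integral over the disc of radius `ρ` centred at `w` -/
def dInt (ρ : ℝ) (F : ℂ → ℝ) (w : ℂ) : ℝ := ∫ ζ in Metric.ball (0 : ℂ) ρ, F (w + ζ)

/-- correction term of the disc mean of the logarithm -/
def Jcor (ρ : ℝ) (w : ℂ) : ℝ := ∫ ζ in Metric.ball (0 : ℂ) ρ, (lg (w + ζ) - lg w)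

/-- correction term integrated over a vertical line -/
def Pcor (ρ u : ℝ) : ℝ := ∫ v, Jcor ρ (pt u v)

/-- star function of `N` along vertical lines -/
def Nstar (N : ℂ → ℝ) (w : ℂ) : ℝ := starB (fun v => N (pt w.re v)) (2 * w.im)

/-- `N` is a logarithmic counting function: `N w = ∫ log|a - w| dμ(a) - log|w|` -/
structure PotData (μ : Measure ℂ) (N : ℂ → ℝ) (M : ℝ) : Prop where
  prob : IsProbabilityMeasure μ
  Mpos : 0 < M
  supp : ∀ᵐ a ∂μ, ‖a‖ ≤ M
  mean : ∫ a, a.re ∂μ = 0
  int : ∀ w, Integrable (fun a => lg (a - w)) μ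
  noatom : ∀ w, μ {w} = 0
  nonneg : ∀ w, 0 ≤ N w
  eq : ∀ w, w ≠ 0 → N w = (∫ a, lg (a - w) ∂μ) - lg w
  zero : ∀ w, M ≤ |w.re| → N w = 0
  meas : Measurable N

/-- Green function of the strip `|Im w| < π` with pole at `0` -/
def N0 (w : ℂ) : ℝ := lg (Complex.cosh (w / 4)) - lg (Complex.sinh (w / 4))

/-- star function of `N0` -/
def S0 (w : ℂ) : ℝ := ∫ v in (-w.im)..w.im, N0 (pt w.re v)

/-- real part of the extremal map `2 log ((1+z)/(1-z))` on the unit circle, `2 log |cot (θ/2)|` -/
def U0 (θ : ℝ) : ℝ := 2 * (Real.log |Real.cos (θ / 2)| - Real.log |Real.sin (θ / 2)|)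

/-- coefficients of `2 log ((1+z)/(1-z))` -/
def h0c (k : ℕ) : ℝ := if Odd k then 4 / (k : ℝ) else 0

/-- the normalised logarithm `h` of a circumferentially mean p-valent nonvanishing function:
analytic in the disc, `h 0 = 0`, vertical sections of the image have measure at most `2 π` -/
structure HCls (h : ℂ → ℂ) : Prop where
  diff : DifferentiableOn ℂ h (Metric.ball 0 1)
  zero : h 0 = 0
  sec : ∀ u : ℝ, volume {v : ℝ | ∃ z ∈ Metric.ball (0 : ℂ) 1, h z = pt u v} ≤ ENNReal.ofReal (2 * π)

/-- Taylor coefficients at `0` -/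
def tc (h : ℂ → ℂ) (k : ℕ) : ℂ := iteratedDeriv k h 0 / (k.factorial : ℂ)

end

end MP4a1962
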