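import Pool.Agent.Lib.MP_4a1962_an.DiscCart

/-!
# Disc: the disc integral in polar coordinates

`dInt_polar`: `Complex.integral_comp_polarCoord_symm` with the function
`indicator (ball 0 ρ) (F (w + ·))`; on `polarCoord.target = Ioi 0 ×ˢ Ioo (-π) π`;
`circleAverage F w r = (2π)⁻¹ ∫ θ in 0..2π, F (w + r e^{iθ})` (periodicity to pass from `(0, 2π)` to
`(-π, π)`), `Complex.polarCoord.symm (r, θ) = r (cos θ + i sin θ)`.
The two corollaries follow by integrating `2 π r c` over `(0, ρ)`; for the inequality version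
integrability of `r ↦ 2 π r circleAverage F w r` on `Ioo 0 ρ` is part of Fubini
(`Integrable.integral_prod_left`).
-/

set_option autoImplicit false

open MeasureTheory Set Filter Topology
open scoped Real ENNReal NNReal

namespace MP4a1962

/-- the integrand in polar coordinates -/
private noncomputable def pG (G : ℂ → ℝ) : ℝ × ℝ → ℝ :=
  fun p => p.1 • G (Complex.polarCoord.symm p)

private theorem pG_int {G : ℂ → ℝ} (hG : Integrable G) :
    IntegrableOn (pG G) (Ioi (0 : ℝ) ×ˢ Ioo (-π) π) (volume.prod volume) := by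
  have h0 : Integrable (fun q : ℝ × ℝ => G (Complex.measurableEquivRealProd.symm q)) :=
    ((Complex.volume_preserving_equiv_real_prod.symm).integrable_comp_emb
      (g := G) Complex.measurableEquivRealProd.symm.measurableEmbedding).mpr hG
  have h1 := integrableOn_image_iff_integrableOn_abs_det_fderiv_smul (volume : Measure (ℝ × ℝ))
    (s := polarCoord.target) (f := polarCoord.symm) (f' := fderivPolarCoordSymm)
    polarCoord.open_target.measurableSet
    (fun p _ => (hasFDerivAt_polarCoord_symm p).hasFDerivWithinAt) polarCoord.symm.injOn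
    (fun q : ℝ × ℝ => G (Complex.measurableEquivRealProd.symm q))
  have h2 := h1.mp h0.integrableOn
  refine h2.congr_fun ?_ polarCoord.open_target.measurableSet
  intro p hp
  have hp1 : 0 < p.1 := hp.1
  simp only [det_fderivPolarCoordSymm, abs_of_pos hp1]
  rfl

private theorem pG_inner {F : ℂ → ℝ} {w : ℂ} {ρ r : ℝ} (hr : 0 < r) :
    ∫ θ in Ioo (-π) π, pG ((Metric.ball (0 : ℂ) ρ).indicator (fun ζ => F (w + ζ))) (r, θ)
      = (Iio ρ).indicator (fun r => 2 * π * r * Real.circleAverage F w r) r := by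
  have hmem : ∀ θ : ℝ, Complex.polarCoord.symm (r, θ) ∈ Metric.ball (0 : ℂ) ρ ↔ r < ρ := by
    intro θ
    rw [Metric.mem_ball, dist_zero_right, Complex.norm_polarCoord_symm]
    simp only [abs_of_pos hr]
  by_cases hρ : r < ρ
  · rw [indicator_of_mem (show r ∈ Iio ρ from hρ)]
    have h1 : ∀ θ : ℝ, pG ((Metric.ball (0 : ℂ) ρ).indicator (fun ζ => F (w + ζ))) (r, θ)
        = r * F (circleMap w r θ) := by
      intro θ
      unfold pG
      rw [indicator_of_mem ((hmem θ).mpr hρ), smul_eq_mul, Complex.polarCoord_symm_apply]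
      unfold circleMap
      rw [Complex.exp_mul_I]
      push_cast
      rfl
    simp_rw [h1]
    rw [integral_const_mul, ← integral_Ioc_eq_integral_Ioo,
      ← intervalIntegral.integral_of_le (by linarith [Real.pi_pos]),
      Real.circleAverage_eq_integral_add (-π),
      intervalIntegral.integral_comp_add_right (fun θ ↦ F (circleMap w r θ))]
    have h2 : (0 : ℝ) + -π = -π := by ring
    have h3 : 2 * π + -π = π := by ring
    rw [h2, h3, smul_eq_mul]
    have := Real.pi_pos
    field_simp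
  · rw [indicator_of_notMem (show r ∉ Iio ρ from hρ)]
    have h1 : ∀ θ : ℝ, pG ((Metric.ball (0 : ℂ) ρ).indicator (fun ζ => F (w + ζ))) (r, θ)
        = 0 := by
      intro θ
      unfold pG
      rw [indicator_of_notMem (fun h => hρ ((hmem θ).mp h)), smul_zero]
    simp_rw [h1]
    simp

theorem dInt_polar {F : ℂ → ℝ} {w : ℂ} {ρ : ℝ} (hρ : 0 ≤ ρ)
    (hF : IntegrableOn (fun ζ => F (w + ζ)) (Metric.ball (0 : ℂ) ρ)) :
    dInt ρ F w = ∫ r in Ioo 0 ρ, 2 * π * r * Real.circleAverage F w r := by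
  have hG : Integrable ((Metric.ball (0 : ℂ) ρ).indicator (fun ζ => F (w + ζ))) :=
    hF.integrable_indicator measurableSet_ball
  have h1 : dInt ρ F w = ∫ ζ, (Metric.ball (0 : ℂ) ρ).indicator (fun ζ => F (w + ζ)) ζ := by
    unfold dInt
    rw [integral_indicator measurableSet_ball]
  rw [h1, ← Complex.integral_comp_polarCoord_symm]
  have h2 : ∫ p in polarCoord.target,
      p.1 • (Metric.ball (0 : ℂ) ρ).indicator (fun ζ => F (w + ζ)) (Complex.polarCoord.symm p)
      = ∫ r in Ioi (0 : ℝ), ∫ θ in Ioo (-π) π,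
        pG ((Metric.ball (0 : ℂ) ρ).indicator (fun ζ => F (w + ζ))) (r, θ) :=
    setIntegral_prod _ (pG_int hG)
  rw [h2, setIntegral_congr_fun measurableSet_Ioi (fun r hr => pG_inner hr),
    setIntegral_indicator measurableSet_Iio, Ioi_inter_Iio]

theorem dInt_polar_int {F : ℂ → ℝ} {w : ℂ} {ρ : ℝ} (hρ : 0 ≤ ρ)
    (hF : IntegrableOn (fun ζ => F (w + ζ)) (Metric.ball (0 : ℂ) ρ)) :
    IntegrableOn (fun r => 2 * π * r * Real.circleAverage F w r) (Ioo 0 ρ) := by
  have hG : Integrable ((Metric.ball (0 : ℂ) ρ).indicator (fun ζ => F (w + ζ))) :=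
    hF.integrable_indicator measurableSet_ball
  have h1 := pG_int hG
  rw [IntegrableOn, ← Measure.prod_restrict] at h1
  have h2 := h1.integral_prod_left
  have h3 : IntegrableOn (fun r => (Iio ρ).indicator
      (fun r => 2 * π * r * Real.circleAverage F w r) r) (Ioi (0 : ℝ)) := by
    refine IntegrableOn.congr_fun h2 ?_ measurableSet_Ioi
    intro r hr
    exact pG_inner hr
  have h4 : IntegrableOn (fun r => (Iio ρ).indicator
      (fun r => 2 * π * r * Real.circleAverage F w r) r) (Ioo 0 ρ) :=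
    h3.mono_set Ioo_subset_Ioi_self
  refine h4.congr_fun ?_ measurableSet_Ioo
  intro r hr
  exact indicator_of_mem (show r ∈ Iio ρ from hr.2) _

private theorem int_lin {ρ : ℝ} (hρ : 0 ≤ ρ) (c : ℝ) :
    ∫ r in Ioo 0 ρ, 2 * π * r * c = π * ρ ^ 2 * c := by
  rw [← integral_Ioc_eq_integral_Ioo, ← intervalIntegral.integral_of_le hρ]
  have h : (fun r : ℝ => 2 * π * r * c) = fun r => (2 * π * c) * r := by
    funext r; ring
  rw [h, intervalIntegral.integral_const_mul, integral_id]
  ring

private theorem int_lin_int {ρ : ℝ} (c : ℝ) :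
    IntegrableOn (fun r : ℝ => 2 * π * r * c) (Ioo 0 ρ) := by
  have h : Continuous (fun r : ℝ => 2 * π * r * c) := by fun_prop
  exact (h.integrableOn_Icc (a := 0) (b := ρ)).mono_set Ioo_subset_Icc_self

theorem dInt_eq_of_circle {F : ℂ → ℝ} {w : ℂ} {ρ c : ℝ} (hρ : 0 ≤ ρ)
    (hF : IntegrableOn (fun ζ => F (w + ζ)) (Metric.ball (0 : ℂ) ρ))
    (hc : ∀ r ∈ Ioo 0 ρ, Real.circleAverage F w r = c) :
    dInt ρ F w = π * ρ ^ 2 * c := by
  rw [dInt_polar hρ hF, ← int_lin hρ c]
  refine setIntegral_congr_fun measurableSet_Ioo ?_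
  intro r hr
  simp only [hc r hr]

theorem dInt_ge_of_circle {F : ℂ → ℝ} {w : ℂ} {ρ c : ℝ} (hρ : 0 ≤ ρ)
    (hF : IntegrableOn (fun ζ => F (w + ζ)) (Metric.ball (0 : ℂ) ρ))
    (hc : ∀ r ∈ Ioo 0 ρ, c ≤ Real.circleAverage F w r) :
    π * ρ ^ 2 * c ≤ dInt ρ F w := by
  rw [dInt_polar hρ hF, ← int_lin hρ c]
  refine setIntegral_mono_on (int_lin_int c) (dInt_polar_int hρ hF) measurableSet_Ioo ?_
  intro r hr
  have h0 : 0 ≤ 2 * π * r := by
    have := Real.pi_pos
    have := hr.1
    positivity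
  exact mul_le_mul_of_nonneg_left (hc r hr) h0

end MP4a1962
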