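import Pool.Agent.Lib.MP_4a1962_an.Defs

/-!
# DiscCart: the disc integral in cartesian coordinates

Fubini on `ℂ ≃ ℝ × ℝ` (`Complex.volume_preserving_equiv_real_prod`), the ball is
`{x² + τ² < ρ²}`: for `|x| < ρ` the section is `Ioo (-√(ρ²-x²)) (√(ρ²-x²))`, for `|x| ≥ ρ` it is empty.
-/

set_option autoImplicit false

open MeasureTheory Set Filter Topology
open scoped Real ENNReal NNReal

namespace MP4a1962

private theorem mem_ball_pt {ρ x τ : ℝ} (hρ : 0 ≤ ρ) :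
    pt x τ ∈ Metric.ball (0 : ℂ) ρ ↔ x ^ 2 + τ ^ 2 < ρ ^ 2 := by
  rw [Metric.mem_ball, dist_zero_right, ← sq_lt_sq₀ (norm_nonneg _) hρ, Complex.sq_norm,
    Complex.normSq_apply, pt_re, pt_im]
  constructor <;> intro h <;> nlinarith [h]

/-- the function extended by zero -/
private noncomputable def dG (ρ : ℝ) (F : ℂ → ℝ) (w : ℂ) : ℂ → ℝ :=
  (Metric.ball (0 : ℂ) ρ).indicator (fun ζ => F (w + ζ))

private theorem dG_int {F : ℂ → ℝ} {w : ℂ} {ρ : ℝ}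
    (hF : IntegrableOn (fun ζ => F (w + ζ)) (Metric.ball (0 : ℂ) ρ)) :
    Integrable (dG ρ F w) := hF.integrable_indicator measurableSet_ball

private theorem dG_int2 {F : ℂ → ℝ} {w : ℂ} {ρ : ℝ}
    (hF : IntegrableOn (fun ζ => F (w + ζ)) (Metric.ball (0 : ℂ) ρ)) :
    Integrable (fun q : ℝ × ℝ => dG ρ F w (pt q.1 q.2)) (volume.prod volume) := by
  have h := (Complex.volume_preserving_equiv_real_prod.symm).integrable_comp_emb
    (g := dG ρ F w) Complex.measurableEquivRealProd.symm.measurableEmbedding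
  exact h.mpr (dG_int hF)

private theorem dG_inner {F : ℂ → ℝ} {w : ℂ} {ρ : ℝ} (hρ : 0 ≤ ρ) (x : ℝ) :
    ∫ τ, dG ρ F w (pt x τ) = ∫ τ in (-√(ρ ^ 2 - x ^ 2))..√(ρ ^ 2 - x ^ 2),
      F (pt (w.re + x) (w.im + τ)) := by
  have h1 : (fun τ => dG ρ F w (pt x τ)) =
      (Ioo (-√(ρ ^ 2 - x ^ 2)) (√(ρ ^ 2 - x ^ 2))).indicator
        (fun τ => F (pt (w.re + x) (w.im + τ))) := by
    funext τ
    have h2 : pt x τ ∈ Metric.ball (0 : ℂ) ρ ↔
        τ ∈ Ioo (-√(ρ ^ 2 - x ^ 2)) (√(ρ ^ 2 - x ^ 2)) := by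
      rw [mem_ball_pt hρ, mem_Ioo, ← abs_lt, Real.lt_sqrt (abs_nonneg _), sq_abs]
      constructor <;> intro h <;> linarith
    unfold dG
    by_cases h3 : pt x τ ∈ Metric.ball (0 : ℂ) ρ
    · rw [indicator_of_mem h3, indicator_of_mem (h2.mp h3)]
      rfl
    · rw [indicator_of_notMem h3, indicator_of_notMem (fun h => h3 (h2.mpr h))]
  rw [h1, integral_indicator measurableSet_Ioo, ← integral_Ioc_eq_integral_Ioo,
    intervalIntegral.integral_of_le]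
  have := Real.sqrt_nonneg (ρ ^ 2 - x ^ 2)
  linarith

private theorem sqrt_out {ρ x : ℝ} (hρ : 0 ≤ ρ) (hx : x ∉ Ioo (-ρ) ρ) : √(ρ ^ 2 - x ^ 2) = 0 := by
  apply Real.sqrt_eq_zero_of_nonpos
  have h1 : ρ ≤ |x| := by
    by_contra h
    push Not at h
    exact hx (abs_lt.mp h)
  have h2 : ρ ^ 2 ≤ |x| ^ 2 := by
    have := abs_nonneg x
    nlinarith
  rw [sq_abs] at h2
  linarith

theorem dInt_iter {F : ℂ → ℝ} {w : ℂ} {ρ : ℝ} (hρ : 0 ≤ ρ)
    (hF : IntegrableOn (fun ζ => F (w + ζ)) (Metric.ball (0 : ℂ) ρ)) :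
    dInt ρ F w = ∫ x in (-ρ)..ρ, ∫ τ in (-√(ρ ^ 2 - x ^ 2))..√(ρ ^ 2 - x ^ 2),
      F (pt (w.re + x) (w.im + τ)) := by
  have h1 : dInt ρ F w = ∫ ζ, dG ρ F w ζ := by
    unfold dInt dG
    rw [integral_indicator measurableSet_ball]
  have h2 : ∫ ζ, dG ρ F w ζ = ∫ q : ℝ × ℝ, dG ρ F w (pt q.1 q.2) := by
    exact ((Complex.volume_preserving_equiv_real_prod.symm).integral_comp'
      (g := dG ρ F w)).symm
  have h3 : ∫ q : ℝ × ℝ, dG ρ F w (pt q.1 q.2) = ∫ x, ∫ τ, dG ρ F w (pt x τ) :=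
    integral_prod _ (dG_int2 hF)
  have h4 : (fun x => ∫ τ, dG ρ F w (pt x τ)) = (Ioo (-ρ) ρ).indicator
      (fun x => ∫ τ in (-√(ρ ^ 2 - x ^ 2))..√(ρ ^ 2 - x ^ 2), F (pt (w.re + x) (w.im + τ))) := by
    funext x
    rw [dG_inner hρ]
    by_cases hx : x ∈ Ioo (-ρ) ρ
    · rw [indicator_of_mem hx]
    · rw [indicator_of_notMem hx, sqrt_out hρ hx, neg_zero, intervalIntegral.integral_same]
  rw [h1, h2, h3, h4, integral_indicator measurableSet_Ioo, ← integral_Ioc_eq_integral_Ioo,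
    intervalIntegral.integral_of_le (by linarith)]

/-- the inner integrals form an integrable function of `x` -/
theorem dInt_iter_intervalIntegrable {F : ℂ → ℝ} {w : ℂ} {ρ : ℝ} (hρ : 0 ≤ ρ)
    (hF : IntegrableOn (fun ζ => F (w + ζ)) (Metric.ball (0 : ℂ) ρ)) :
    IntervalIntegrable (fun x => ∫ τ in (-√(ρ ^ 2 - x ^ 2))..√(ρ ^ 2 - x ^ 2),
      F (pt (w.re + x) (w.im + τ))) volume (-ρ) ρ := by
  have h1 : Integrable (fun x => ∫ τ, dG ρ F w (pt x τ)) := (dG_int2 hF).integral_prod_left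
  have h2 : (fun x => ∫ τ, dG ρ F w (pt x τ)) = (fun x =>
      ∫ τ in (-√(ρ ^ 2 - x ^ 2))..√(ρ ^ 2 - x ^ 2), F (pt (w.re + x) (w.im + τ))) := by
    funext x
    exact dG_inner hρ x
  rw [h2] at h1
  exact h1.intervalIntegrable

end MP4a1962
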