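import Pool.Agent.Lib.MP_4a1962_an.CGeo
import Pool.Agent.Lib.MP_4a1962_an.ESum

/-!
# EBound: bounds of the series `Ek`

Let `x = ‖ztr r θ‖ = X/√(1+X²) < 1`, `T = 1/(1-x²) = 1 + X²`, `x ≤ X`, `x² T² = X² T`.
`‖e k‖ x^k ≤ (k² ε + (17/5) k √ε 1_{k≥2}) x^k` (`e 1 = ε` real, `e 0 = 0`). Sum with `sum_sq`, `sum_lin`:
`≤ 16 ε x T³ + (17/5) 8 √ε x² T² ≤ 16 ε X T³ + 28 √ε X² T`.
Continuity: Weierstrass (`continuous_tsum`), `x ≤ ‖ztr r π‖ < 1` uniformly in `θ`.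
-/

set_option autoImplicit false

open MeasureTheory Set Filter Topology
open scoped Real ENNReal NNReal

namespace MP4a1962

private theorem le_of_sq_le_sq {a b : ℝ} (h : a ^ 2 ≤ b ^ 2) (hb : 0 ≤ b) : a ≤ b :=
  le_trans (le_abs_self a) (abs_le_of_sq_le_sq h hb)

theorem ztr_lt_one {r : ℝ} (hr0 : 0 < r) (hr1 : r < 1) (θ : ℝ) : ‖ztr r θ‖ < 1 := by
  have h := ztr_norm_sq hr0 hr1 θ
  have hX : 0 ≤ Xr r θ ^ 2 := sq_nonneg _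
  have h2 : ‖ztr r θ‖ ^ 2 < 1 := by
    rw [h, div_lt_one (by positivity)]
    linarith
  nlinarith [norm_nonneg (ztr r θ)]

private theorem inv_eq {r : ℝ} (hr0 : 0 < r) (hr1 : r < 1) (θ : ℝ) :
    1 / (1 - ‖ztr r θ‖ ^ 2) = 1 + Xr r θ ^ 2 := by
  have h := ztr_norm_sq hr0 hr1 θ
  have hX : 0 ≤ Xr r θ ^ 2 := sq_nonneg _
  have h1 : (0 : ℝ) < 1 + Xr r θ ^ 2 := by positivity
  rw [h]
  have : 1 - Xr r θ ^ 2 / (1 + Xr r θ ^ 2) = 1 / (1 + Xr r θ ^ 2) := by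
    field_simp
    ring
  rw [this, one_div_one_div]

private theorem ztr_le_X {r : ℝ} (hr0 : 0 < r) (hr1 : r < 1) (θ : ℝ) : ‖ztr r θ‖ ≤ Xr r θ := by
  have h := ztr_norm_sq hr0 hr1 θ
  have hX : 0 ≤ Xr r θ ^ 2 := sq_nonneg _
  have h1 : (0 : ℝ) < 1 + Xr r θ ^ 2 := by positivity
  have h2 : ‖ztr r θ‖ ^ 2 ≤ Xr r θ ^ 2 := by
    rw [h, div_le_iff₀ h1]
    nlinarith
  exact le_of_sq_le_sq h2 (Xr_nonneg hr0 hr1 θ)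

theorem re_sum_le {e : ℕ → ℂ} {ε : ℝ} (he : ESeq e ε) {r : ℝ} (hr0 : 0 < r) (hr1 : r < 1) (θ : ℝ) :
    Summable (fun k : ℕ => |(e k).re| * ‖ztr r θ‖ ^ k) ∧
    ∑' k : ℕ, |(e k).re| * ‖ztr r θ‖ ^ k ≤ 16 * ε * Xr r θ * (1 + Xr r θ ^ 2) ^ 3 := by
  have hx1 := ztr_lt_one hr0 hr1 θ
  have hx0 := norm_nonneg (ztr r θ)
  obtain ⟨hs, _, hle⟩ := sum_sq hx0 hx1
  have hk : ∀ k : ℕ, |(e k).re| * ‖ztr r θ‖ ^ k ≤ ε * ((k : ℝ) ^ 2 * ‖ztr r θ‖ ^ k) := by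
    intro k
    have hp : 0 ≤ ‖ztr r θ‖ ^ k := pow_nonneg hx0 k
    rcases Nat.eq_zero_or_pos k with h0 | h0
    · subst h0
      simp [he.e0]
    · have := he.re k h0
      calc |(e k).re| * ‖ztr r θ‖ ^ k ≤ ((k : ℝ) ^ 2 * ε) * ‖ztr r θ‖ ^ k :=
            mul_le_mul_of_nonneg_right this hp
        _ = ε * ((k : ℝ) ^ 2 * ‖ztr r θ‖ ^ k) := by ring
  have hsum : Summable (fun k : ℕ => |(e k).re| * ‖ztr r θ‖ ^ k) :=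
    Summable.of_nonneg_of_le (fun k => by positivity) hk (hs.mul_left ε)
  refine ⟨hsum, ?_⟩
  calc ∑' k : ℕ, |(e k).re| * ‖ztr r θ‖ ^ k
      ≤ ∑' k : ℕ, ε * ((k : ℝ) ^ 2 * ‖ztr r θ‖ ^ k) := hsum.tsum_le_tsum hk (hs.mul_left ε)
    _ = ε * ∑' k : ℕ, (k : ℝ) ^ 2 * ‖ztr r θ‖ ^ k := tsum_mul_left
    _ ≤ ε * (16 * ‖ztr r θ‖ * (1 / (1 - ‖ztr r θ‖ ^ 2)) ^ 3) :=
        mul_le_mul_of_nonneg_left hle he.nn
    _ = 16 * ε * ‖ztr r θ‖ * (1 + Xr r θ ^ 2) ^ 3 := by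
        rw [inv_eq hr0 hr1 θ]; ring
    _ ≤ 16 * ε * Xr r θ * (1 + Xr r θ ^ 2) ^ 3 := by
        have h1 := he.nn
        have h2 := ztr_le_X hr0 hr1 θ
        gcongr

theorem im_sum_le {e : ℕ → ℂ} {ε : ℝ} (he : ESeq e ε) {r : ℝ} (hr0 : 0 < r) (hr1 : r < 1) (θ : ℝ) :
    Summable (fun k : ℕ => |(e k).im| * ‖ztr r θ‖ ^ k) ∧
    ∑' k : ℕ, |(e k).im| * ‖ztr r θ‖ ^ k ≤ 28 * √ε * Xr r θ ^ 2 * (1 + Xr r θ ^ 2) := by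
  have hx1 := ztr_lt_one hr0 hr1 θ
  have hx0 := norm_nonneg (ztr r θ)
  obtain ⟨hs, hle⟩ := sum_lin hx0 hx1
  have hk : ∀ k : ℕ, |(e (k + 2)).im| * ‖ztr r θ‖ ^ (k + 2) ≤
      17 / 5 * √ε * (((k : ℝ) + 2) * ‖ztr r θ‖ ^ (k + 2)) := by
    intro k
    have hp : 0 ≤ ‖ztr r θ‖ ^ (k + 2) := pow_nonneg hx0 _
    have := he.im (k + 2) (by omega)
    push_cast at this
    calc |(e (k + 2)).im| * ‖ztr r θ‖ ^ (k + 2)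
        ≤ (17 / 5 * ((k : ℝ) + 2) * √ε) * ‖ztr r θ‖ ^ (k + 2) :=
          mul_le_mul_of_nonneg_right this hp
      _ = 17 / 5 * √ε * (((k : ℝ) + 2) * ‖ztr r θ‖ ^ (k + 2)) := by ring
  have hsum2 : Summable (fun k : ℕ => |(e (k + 2)).im| * ‖ztr r θ‖ ^ (k + 2)) :=
    Summable.of_nonneg_of_le (fun k => by positivity) hk (hs.mul_left _)
  have hsum : Summable (fun k : ℕ => |(e k).im| * ‖ztr r θ‖ ^ k) :=
    (summable_nat_add_iff 2).1 hsum2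
  refine ⟨hsum, ?_⟩
  have h01 : ∑' k : ℕ, |(e k).im| * ‖ztr r θ‖ ^ k =
      ∑' k : ℕ, |(e (k + 2)).im| * ‖ztr r θ‖ ^ (k + 2) := by
    rw [← hsum.sum_add_tsum_nat_add 2, Finset.sum_range_succ, Finset.sum_range_succ,
      Finset.sum_range_zero]
    simp [he.e0, he.e1]
  rw [h01]
  have hX2 : ‖ztr r θ‖ ^ 2 * (1 + Xr r θ ^ 2) ^ 2 = Xr r θ ^ 2 * (1 + Xr r θ ^ 2) := by
    rw [ztr_norm_sq hr0 hr1 θ]
    have h1 : (0 : ℝ) < 1 + Xr r θ ^ 2 := by positivity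
    field_simp
  calc ∑' k : ℕ, |(e (k + 2)).im| * ‖ztr r θ‖ ^ (k + 2)
      ≤ ∑' k : ℕ, 17 / 5 * √ε * (((k : ℝ) + 2) * ‖ztr r θ‖ ^ (k + 2)) :=
        hsum2.tsum_le_tsum hk (hs.mul_left _)
    _ = 17 / 5 * √ε * ∑' k : ℕ, ((k : ℝ) + 2) * ‖ztr r θ‖ ^ (k + 2) := tsum_mul_left
    _ ≤ 17 / 5 * √ε * (8 * ‖ztr r θ‖ ^ 2 * (1 / (1 - ‖ztr r θ‖ ^ 2)) ^ 2) :=
        mul_le_mul_of_nonneg_left hle (by positivity)
    _ = 136 / 5 * √ε * (‖ztr r θ‖ ^ 2 * (1 + Xr r θ ^ 2) ^ 2) := by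
        rw [inv_eq hr0 hr1 θ]; ring
    _ = 136 / 5 * √ε * (Xr r θ ^ 2 * (1 + Xr r θ ^ 2)) := by rw [hX2]
    _ ≤ 28 * √ε * (Xr r θ ^ 2 * (1 + Xr r θ ^ 2)) := by
        have h1 : 0 ≤ √ε := Real.sqrt_nonneg _
        gcongr
        norm_num
    _ = 28 * √ε * Xr r θ ^ 2 * (1 + Xr r θ ^ 2) := by ring

private theorem norm_term_le (e : ℕ → ℂ) (z : ℂ) (k : ℕ) :
    ‖e k * z ^ k‖ ≤ |(e k).re| * ‖z‖ ^ k + |(e k).im| * ‖z‖ ^ k := by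
  rw [norm_mul, norm_pow, ← add_mul]
  exact mul_le_mul_of_nonneg_right (Complex.norm_le_abs_re_add_abs_im _) (pow_nonneg (norm_nonneg _) _)

theorem Ek_summable {e : ℕ → ℂ} {ε : ℝ} (he : ESeq e ε) {r : ℝ} (hr0 : 0 < r) (hr1 : r < 1) (θ : ℝ) :
    Summable (fun k : ℕ => e k * ztr r θ ^ k) :=
  Summable.of_norm_bounded ((re_sum_le he hr0 hr1 θ).1.add (im_sum_le he hr0 hr1 θ).1)
    (fun k => norm_term_le e _ k)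

theorem Ek_norm_le {e : ℕ → ℂ} {ε : ℝ} (he : ESeq e ε) {r : ℝ} (hr0 : 0 < r) (hr1 : r < 1) (θ : ℝ) :
    ‖Ek e r θ‖ ≤ 16 * ε * Xr r θ * (1 + Xr r θ ^ 2) ^ 3 +
      28 * √ε * Xr r θ ^ 2 * (1 + Xr r θ ^ 2) := by
  obtain ⟨h1, h2⟩ := re_sum_le he hr0 hr1 θ
  obtain ⟨h3, h4⟩ := im_sum_le he hr0 hr1 θ
  have h5 : Summable (fun k : ℕ => ‖e k * ztr r θ ^ k‖) :=
    Summable.of_nonneg_of_le (fun k => norm_nonneg _) (fun k => norm_term_le e _ k) (h1.add h3)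
  calc ‖Ek e r θ‖ ≤ ∑' k : ℕ, ‖e k * ztr r θ ^ k‖ := norm_tsum_le_tsum_norm h5
    _ ≤ ∑' k : ℕ, (|(e k).re| * ‖ztr r θ‖ ^ k + |(e k).im| * ‖ztr r θ‖ ^ k) :=
        h5.tsum_le_tsum (fun k => norm_term_le e _ k) (h1.add h3)
    _ = ∑' k : ℕ, |(e k).re| * ‖ztr r θ‖ ^ k + ∑' k : ℕ, |(e k).im| * ‖ztr r θ‖ ^ k :=
        h1.tsum_add h3
    _ ≤ _ := add_le_add h2 h4

theorem continuous_Ek {e : ℕ → ℂ} {ε : ℝ} (he : ESeq e ε) {r : ℝ} (hr0 : 0 < r) (hr1 : r < 1) :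
    Continuous (Ek e r) := by
  have hle : ∀ θ : ℝ, ‖ztr r θ‖ ≤ ‖ztr r π‖ := by
    intro θ
    refine le_of_sq_le_sq ?_ (norm_nonneg _)
    rw [ztr_norm_sq hr0 hr1 θ, ztr_norm_sq hr0 hr1 π]
    have hX : Xr r θ ≤ Xr r π := by
      unfold Xr
      have h1 : Real.sin (π / 2) = 1 := Real.sin_pi_div_two
      rw [h1, abs_one]
      exact mul_le_mul_of_nonneg_left (Real.abs_sin_le_one _)
        (by have := kap_pos hr0 hr1; positivity)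
    have hX2 : Xr r θ ^ 2 ≤ Xr r π ^ 2 := by
      have := Xr_nonneg hr0 hr1 θ
      gcongr
    rw [div_le_div_iff₀ (by positivity) (by positivity)]
    nlinarith
  unfold Ek
  refine continuous_tsum (u := fun k => |(e k).re| * ‖ztr r π‖ ^ k + |(e k).im| * ‖ztr r π‖ ^ k)
    (fun k => continuous_const.mul ((continuous_ztr hr0 hr1).pow k))
    ((re_sum_le he hr0 hr1 π).1.add (im_sum_le he hr0 hr1 π).1) ?_
  intro k θ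
  refine (norm_term_le e _ k).trans ?_
  have := hle θ
  gcongr

end MP4a1962
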