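import Pool.Agent.Lib.MP_4a1962_an.StarThm

/-!
# Excess: from the star inequality to excess integrals

`∫ v, max 0 (N (pt u v) - L) ≤ ∫ v in (-π)..π, max 0 (N0 (pt u v) - L)` for `L > 0`.

Proof. Let `A = {v | L < N (pt u v)} ⊆ {0 < N}`, `volume A ≤ l < 2π`, `2 s = volume.real A`, `0 ≤ s ≤ π`.
`∫ max 0 (N - L) = ∫_A N - 2 s L ≤ Nstar N (pt u s) - 2 s L` by `Prof.integral_mul_le` with the profile
`indicator A 1` of mass `2 s`, `≤ S0 (pt u s) - 2 s L = ∫ v in (-s)..s, (N0 (pt u v) - L)
≤ ∫ v in (-π)..π, max 0 (N0 (pt u v) - L)` (`star_ineq`).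
-/

set_option autoImplicit false

open MeasureTheory Set Filter Topology
open scoped Real ENNReal NNReal

namespace MP4a1962

variable {μ : Measure ℂ} {N : ℂ → ℝ} {M : ℝ}

theorem excess_le (hD : PotData μ N M) {l : ℝ} (hl0 : 0 ≤ l) (hl : l < 2 * π)
    (hsec : ∀ u : ℝ, volume {v : ℝ | 0 < N (pt u v)} ≤ ENNReal.ofReal l) (u : ℝ)
    {L : ℝ} (hL : 0 < L) :
    ∫ v, max 0 (N (pt u v) - L) ≤ ∫ v in (-π)..π, max 0 (N0 (pt u v) - L) := by
  have hπ := Real.pi_pos
  have hgm : Measurable (fun v => N (pt u v)) := N_line_meas hD u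
  have hgi : Integrable (fun v => N (pt u v)) := N_line_int hD u
  obtain ⟨A, hA⟩ : ∃ A : Set ℝ, A = {v : ℝ | L < N (pt u v)} := ⟨_, rfl⟩
  have hAm : MeasurableSet A := by
    rw [hA]
    exact measurableSet_lt measurable_const hgm
  have hAle : volume A ≤ ENNReal.ofReal l := by
    refine (measure_mono ?_).trans (hsec u)
    rw [hA]
    intro v hv
    exact hL.trans hv
  have hAtop : volume A ≠ ∞ := (hAle.trans_lt ENNReal.ofReal_lt_top).ne
  have hAr : volume.real A ≤ l := ENNReal.toReal_le_of_le_ofReal hl0 hAle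
  obtain ⟨s, hs⟩ : ∃ s : ℝ, s = volume.real A / 2 := ⟨_, rfl⟩
  have hs0 : 0 ≤ s := by
    rw [hs]
    have := measureReal_nonneg (μ := volume) (s := A)
    linarith
  have hsπ : s ≤ π := by rw [hs]; linarith
  have h2s : volume.real A = 2 * s := by rw [hs]; ring
  -- the profile
  have hk : Prof (A.indicator fun _ => (1 : ℝ)) (2 * s) := by
    refine ⟨measurable_const.indicator hAm, fun v => ?_, fun v => ?_, ?_, ?_⟩
    · exact indicator_nonneg (fun _ _ => zero_le_one) v
    · exact indicator_le_self' (fun _ _ => zero_le_one) v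
    · rw [integrable_indicator_iff hAm]
      exact integrableOn_const hAtop
    · rw [integral_indicator hAm, setIntegral_const, smul_eq_mul, mul_one, h2s]
  have h1 := hk.integral_mul_le hgm (fun v => hD.nonneg (pt u v)) hgi
  have h2 := star_ineq hD hl0 hl hsec (w := pt u s) hs0 hsπ
  have h3 : Nstar N (pt u s) = starB (fun v => N (pt u v)) (2 * s) := rfl
  rw [h3] at h2
  have h4 : ∫ v, max 0 (N (pt u v) - L) =
      (∫ v, (A.indicator (fun _ => (1 : ℝ)) v) * N (pt u v)) - L * (2 * s) := by
    have e1 : ∫ v, max 0 (N (pt u v) - L) = ∫ v in A, (N (pt u v) - L) := by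
      rw [← integral_indicator hAm]
      refine integral_congr_ae (Eventually.of_forall fun v => ?_)
      simp only
      by_cases hv : v ∈ A
      · rw [indicator_of_mem hv]
        rw [hA] at hv
        exact max_eq_right (by have : L < N (pt u v) := hv; linarith)
      · rw [indicator_of_notMem hv]
        rw [hA] at hv
        exact max_eq_left (by have : ¬ L < N (pt u v) := hv; linarith)
    have e2 : ∫ v, (A.indicator (fun _ => (1 : ℝ)) v) * N (pt u v) = ∫ v in A, N (pt u v) := by
      rw [← integral_indicator hAm]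
      refine integral_congr_ae (Eventually.of_forall fun v => ?_)
      simp only
      by_cases hv : v ∈ A
      · rw [indicator_of_mem hv, indicator_of_mem hv, one_mul]
      · rw [indicator_of_notMem hv, indicator_of_notMem hv, zero_mul]
    rw [e1, e2, integral_sub hgi.integrableOn (integrableOn_const hAtop), setIntegral_const,
      smul_eq_mul, h2s]
    ring
  have hi1 : IntervalIntegrable (fun v => N0 (pt u v)) volume (-s) s :=
    N0_line_int u (by rw [abs_neg, abs_of_nonneg hs0]; linarith) s
      (by rw [abs_of_nonneg hs0]; linarith)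
  have hi2 : IntervalIntegrable (fun v => N0 (pt u v)) volume (-π) π :=
    N0_line_int u (by rw [abs_neg, abs_of_pos hπ]; linarith) π (by rw [abs_of_pos hπ]; linarith)
  have hmx : ∀ {a b : ℝ}, IntervalIntegrable (fun v => N0 (pt u v)) volume a b →
      IntervalIntegrable (fun v => max 0 (N0 (pt u v) - L)) volume a b := by
    intro a b h
    have h' : IntervalIntegrable (fun v => N0 (pt u v) - L) volume a b :=
      h.sub intervalIntegrable_const
    exact ⟨h'.1.pos_part.congr (Eventually.of_forall fun v => max_comm _ _),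
      h'.2.pos_part.congr (Eventually.of_forall fun v => max_comm _ _)⟩
  have h5 : S0 (pt u s) - L * (2 * s) = ∫ v in (-s)..s, (N0 (pt u v) - L) := by
    rw [intervalIntegral.integral_sub hi1 intervalIntegrable_const,
      intervalIntegral.integral_const, smul_eq_mul]
    have : S0 (pt u s) = ∫ v in (-s)..s, N0 (pt u v) := rfl
    rw [this]
    ring
  have h6 : ∫ v in (-s)..s, (N0 (pt u v) - L) ≤ ∫ v in (-s)..s, max 0 (N0 (pt u v) - L) :=
    intervalIntegral.integral_mono_on (by linarith) (hi1.sub intervalIntegrable_const) (hmx hi1)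
      fun v _ => le_max_right _ _
  have h7 : ∫ v in (-s)..s, max 0 (N0 (pt u v) - L) ≤ ∫ v in (-π)..π, max 0 (N0 (pt u v) - L) :=
    intervalIntegral.integral_mono_interval (by linarith) (by linarith) hsπ
      (Eventually.of_forall fun v => le_max_left _ _) (hmx hi2)
  rw [h4]
  linarith

end MP4a1962
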