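import Pool.Agent.Lib.MP_4a1962_an.CDefs2

/-!
# ExistsR: choice of the radius

`r = 2κ/(1 + √(1+4κ²))` solves `r = κ (1 - r²)`; it increases with `κ` and at `κ = 1/32` it is `> 1/33`
(`r ≥ 1/33` iff `κ ≥ kap (1/33) = 33/1088`, and `1/32 ≥ 33/1088`).
-/

set_option autoImplicit false

open MeasureTheory Set Filter Topology
open scoped Real ENNReal NNReal

namespace MP4a1962

theorem exists_r {κ : ℝ} (hκ : 1 / 32 ≤ κ) : ∃ r : ℝ, 1 / 33 ≤ r ∧ r < 1 ∧ kap r = κ := by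
  have hκ0 : 0 < κ := by linarith
  set s : ℝ := √(1 + 4 * κ ^ 2) with hs
  have hs2 : s ^ 2 = 1 + 4 * κ ^ 2 := Real.sq_sqrt (by positivity)
  have hs0 : 0 ≤ s := Real.sqrt_nonneg _
  have h1s : 0 < 1 + s := by linarith
  have hs1 : s ≤ 66 * κ - 1 := by
    refine Real.sqrt_le_iff.2 ⟨by linarith, ?_⟩
    nlinarith
  have hs3 : 2 * κ < s := by
    rw [hs]
    refine Real.lt_sqrt_of_sq_lt ?_
    nlinarith
  refine ⟨2 * κ / (1 + s), ?_, ?_, ?_⟩
  · rw [div_le_div_iff₀ (by norm_num) h1s]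
    linarith
  · rw [div_lt_one h1s]
    linarith
  · have e1 : 1 - (2 * κ / (1 + s)) ^ 2 = 2 / (1 + s) := by
      rw [div_pow]
      field_simp
      linear_combination hs2
    unfold kap
    rw [e1]
    field_simp

end MP4a1962
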