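import Pool.Agent.Lib.MP_4a1962_an.EBound
import Pool.Agent.Lib.MP_4a1962_an.CLow

/-!
# FirstOrd: the first order term

Let `Z = Z0 p r n > 0` (`c_low`). By `G0_neg`, `ztr_neg`: `I_k := ∫ G0 ztr^k` is real and `∫ G0 = Z`
(substitution `θ ↦ -θ`: the integral equals its conjugate). Swap sum and integral
(`intervalIntegral.hasSum_integral_of_dominated_convergence` or `integral_tsum`; all is dominated by
`Σ (|Re e k| + |Im e k|) ρ^k`, or use `re_sum_le`, `im_sum_le` and continuity):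
`∫ G0 Ek = Σ e_k I_k`, so `|Re ∫ G0 Ek| ≤ ∫ ‖G0‖ Σ |Re e_k| ‖ztr‖^k ≤ 16 ε ∫ ‖G0‖ X T³ ≤ 16 ε C/(kap p)`
(`norm_G0_le`, `(1+βX²)^{-p} ≤ (1+βX²)^{-p/2}`, `c_int 1 3`), `|Im ∫ G0 Ek| ≤ 28 √ε ∫ ‖G0‖ X² T
≤ 28 √ε C/(kap p^{3/2})` (`c_int 2 1`). With `1/(kap √p) ≤ Z/c`:
`‖Z - p ∫ G0 Ek‖ ≤ Z √((1 + a)² + b²) ≤ Z (1 + a + b²/2)`, `a = 16 (C/c) √p ε`, `b = 28 (C/c) √ε`.
-/

set_option autoImplicit false

open MeasureTheory Set Filter Topology
open scoped Real ENNReal NNReal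

namespace MP4a1962

/-- a function with `F (-θ) = conj (F θ)` has a real integral -/
private theorem fo_real {F : ℝ → ℂ} (hF : ∀ θ, F (-θ) = (starRingEnd ℂ) (F θ)) :
    ∫ θ in (-π)..π, F θ = ((∫ θ in (-π)..π, F θ).re : ℂ) := by
  have h1 : (starRingEnd ℂ) (∫ θ in (-π)..π, F θ) = ∫ θ in (-π)..π, F θ := by
    rw [← intervalIntegral.intervalIntegral_conj]
    have h2 : (∫ θ in (-π)..π, (starRingEnd ℂ) (F θ)) = ∫ θ in (-π)..π, F (-θ) :=
      intervalIntegral.integral_congr fun θ _ => (hF θ).symm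
    rw [h2, intervalIntegral.integral_comp_neg, neg_neg]
  exact (Complex.conj_eq_iff_re.1 h1).symm

theorem G0_integral {p r : ℝ} (hr0 : 0 < r) (hr1 : r < 1) (n : ℕ) :
    ∫ θ in (-π)..π, G0 p r n θ = (Z0 p r n : ℂ) :=
  fo_real fun θ => G0_neg p hr0 hr1 n θ

/-- real coefficients give a real integral -/
private theorem fo_real_Ek {p r : ℝ} (hr0 : 0 < r) (hr1 : r < 1) (n : ℕ) (c : ℕ → ℝ) :
    ∫ θ in (-π)..π, G0 p r n θ * Ek (fun k => (c k : ℂ)) r θ =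
      ((∫ θ in (-π)..π, G0 p r n θ * Ek (fun k => (c k : ℂ)) r θ).re : ℂ) := by
  refine fo_real fun θ => ?_
  rw [map_mul, G0_neg p hr0 hr1 n θ]
  congr 1
  unfold Ek
  rw [Complex.conj_tsum]
  refine tsum_congr fun k => ?_
  rw [map_mul, map_pow, Complex.conj_ofReal, ztr_neg hr0 hr1]

private theorem fo_eseq_re {e : ℕ → ℂ} {ε : ℝ} (he : ESeq e ε) :
    ESeq (fun k => ((e k).re : ℂ)) ε := by
  refine ⟨?_, ?_, he.nn, ?_, ?_⟩
  · simp [he.e0]
  · simp [he.e1]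
  · intro k hk
    simpa using he.re k hk
  · intro k hk
    simp only [Complex.ofReal_im, abs_zero]
    have := Real.sqrt_nonneg ε
    positivity

private theorem fo_summable_im {e : ℕ → ℂ} {ε : ℝ} (he : ESeq e ε) {r : ℝ} (hr0 : 0 < r)
    (hr1 : r < 1) (θ : ℝ) : Summable (fun k : ℕ => ((e k).im : ℂ) * ztr r θ ^ k) := by
  refine Summable.of_norm_bounded (im_sum_le he hr0 hr1 θ).1 fun k => ?_
  rw [norm_mul, norm_pow, Complex.norm_real, Real.norm_eq_abs]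

private theorem fo_split {e : ℕ → ℂ} {ε : ℝ} (he : ESeq e ε) {r : ℝ} (hr0 : 0 < r)
    (hr1 : r < 1) (θ : ℝ) :
    Ek e r θ = Ek (fun k => ((e k).re : ℂ)) r θ +
      Complex.I * Ek (fun k => ((e k).im : ℂ)) r θ := by
  have h1 := Ek_summable (fo_eseq_re he) hr0 hr1 θ
  have h2 := fo_summable_im he hr0 hr1 θ
  unfold Ek
  rw [← tsum_mul_left, ← h1.tsum_add (h2.mul_left _)]
  refine tsum_congr fun k => ?_
  conv_lhs => rw [← Complex.re_add_im (e k)]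
  ring

private theorem fo_norm_re {e : ℕ → ℂ} {ε : ℝ} (he : ESeq e ε) {r : ℝ} (hr0 : 0 < r)
    (hr1 : r < 1) (θ : ℝ) :
    ‖Ek (fun k => ((e k).re : ℂ)) r θ‖ ≤ 16 * ε * Xr r θ * (1 + Xr r θ ^ 2) ^ 3 := by
  obtain ⟨h1, h2⟩ := re_sum_le he hr0 hr1 θ
  have e1 : (fun k : ℕ => ‖((e k).re : ℂ) * ztr r θ ^ k‖) =
      fun k : ℕ => |(e k).re| * ‖ztr r θ‖ ^ k := by
    funext k
    rw [norm_mul, norm_pow, Complex.norm_real, Real.norm_eq_abs]
  have h3 : Summable (fun k : ℕ => ‖((e k).re : ℂ) * ztr r θ ^ k‖) := by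
    rw [e1]
    exact h1
  calc ‖Ek (fun k => ((e k).re : ℂ)) r θ‖ ≤ ∑' k : ℕ, ‖((e k).re : ℂ) * ztr r θ ^ k‖ :=
        norm_tsum_le_tsum_norm h3
    _ = ∑' k : ℕ, |(e k).re| * ‖ztr r θ‖ ^ k := by rw [e1]
    _ ≤ _ := h2

private theorem fo_norm_im {e : ℕ → ℂ} {ε : ℝ} (he : ESeq e ε) {r : ℝ} (hr0 : 0 < r)
    (hr1 : r < 1) (θ : ℝ) :
    ‖Ek (fun k => ((e k).im : ℂ)) r θ‖ ≤ 28 * √ε * Xr r θ ^ 2 * (1 + Xr r θ ^ 2) := by
  obtain ⟨h1, h2⟩ := im_sum_le he hr0 hr1 θ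
  have e1 : (fun k : ℕ => ‖((e k).im : ℂ) * ztr r θ ^ k‖) =
      fun k : ℕ => |(e k).im| * ‖ztr r θ‖ ^ k := by
    funext k
    rw [norm_mul, norm_pow, Complex.norm_real, Real.norm_eq_abs]
  have h3 : Summable (fun k : ℕ => ‖((e k).im : ℂ) * ztr r θ ^ k‖) := by
    rw [e1]
    exact h1
  calc ‖Ek (fun k => ((e k).im : ℂ)) r θ‖ ≤ ∑' k : ℕ, ‖((e k).im : ℂ) * ztr r θ ^ k‖ :=
        norm_tsum_le_tsum_norm h3
    _ = ∑' k : ℕ, |(e k).im| * ‖ztr r θ‖ ^ k := by rw [e1]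
    _ ≤ _ := h2

private theorem fo_cont_im {e : ℕ → ℂ} {ε : ℝ} (he : ESeq e ε) {r : ℝ} (hr0 : 0 < r)
    (hr1 : r < 1) : Continuous (Ek (fun k => ((e k).im : ℂ)) r) := by
  have h1 := continuous_Ek he hr0 hr1
  have h2 := continuous_Ek (fo_eseq_re he) hr0 hr1
  have e1 : Ek (fun k => ((e k).im : ℂ)) r =
      fun θ => -Complex.I * (Ek e r θ - Ek (fun k => ((e k).re : ℂ)) r θ) := by
    funext θ
    rw [fo_split he hr0 hr1 θ]
    have hI : Complex.I * Complex.I = -1 := Complex.I_mul_I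
    linear_combination (Ek (fun k => ((e k).im : ℂ)) r θ) * hI
  rw [e1]
  exact continuous_const.mul (h1.sub h2)

/-- bound of an integral against `G0` -/
private theorem fo_int_le {p r : ℝ} (hp : 1 ≤ p) (hr0 : 0 < r) (hr1 : r < 1) (n : ℕ)
    {F : ℝ → ℂ} (hF : Continuous F) {B : ℝ} (a m : ℕ)
    (hle : ∀ θ, ‖F θ‖ ≤ B * (Xr r θ ^ a * (1 + Xr r θ ^ 2) ^ m)) :
    ‖∫ θ in (-π)..π, G0 p r n θ * F θ‖ ≤ B *
      ∫ θ in (-π)..π, Xr r θ ^ a * (1 + Xr r θ ^ 2) ^ m *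
        (1 + bet r * Xr r θ ^ 2) ^ (-p / 2) := by
  have hπ := Real.pi_pos
  have hb : 4 ≤ bet r := bet_ge hr0 hr1
  have hcX := continuous_Xr r
  have hbase : ∀ θ, 1 ≤ 1 + bet r * Xr r θ ^ 2 := by
    intro θ
    have : 0 ≤ bet r * Xr r θ ^ 2 := by positivity
    linarith
  have hcr : Continuous fun θ => (1 + bet r * Xr r θ ^ 2) ^ (-p / 2) :=
    (continuous_const.add (continuous_const.mul (hcX.pow 2))).rpow_const
      fun θ => Or.inl (by have := hbase θ; positivity)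
  have hcm : Continuous fun θ => Xr r θ ^ a * (1 + Xr r θ ^ 2) ^ m *
        (1 + bet r * Xr r θ ^ 2) ^ (-p / 2) :=
    ((hcX.pow a).mul ((continuous_const.add (hcX.pow 2)).pow m)).mul hcr
  refine (intervalIntegral.norm_integral_le_integral_norm (by linarith)).trans ?_
  rw [← intervalIntegral.integral_const_mul]
  refine intervalIntegral.integral_mono_on (by linarith)
    (((continuous_G0 p hr0 hr1 n).mul hF).norm.intervalIntegrable _ _)
    ((continuous_const.mul hcm).intervalIntegrable _ _) fun θ _ => ?_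
  rw [norm_mul]
  have h1 := norm_G0_le (by linarith : 0 ≤ p) hr0 hr1 n θ
  have h2 : (1 + bet r * Xr r θ ^ 2) ^ (-p) ≤ (1 + bet r * Xr r θ ^ 2) ^ (-p / 2) :=
    Real.rpow_le_rpow_of_exponent_le (hbase θ) (by linarith)
  have hX := Xr_nonneg hr0 hr1 θ
  calc ‖G0 p r n θ‖ * ‖F θ‖
      ≤ (1 + bet r * Xr r θ ^ 2) ^ (-p / 2) * (B * (Xr r θ ^ a * (1 + Xr r θ ^ 2) ^ m)) :=
        mul_le_mul (h1.trans h2) (hle θ) (norm_nonneg _)
          (Real.rpow_nonneg (by have := hbase θ; linarith) _)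
    _ = B * (Xr r θ ^ a * (1 + Xr r θ ^ 2) ^ m * (1 + bet r * Xr r θ ^ 2) ^ (-p / 2)) := by ring

/-- the final real inequality -/
private theorem fo_final {Z J I a b : ℝ} (hZ : 0 < Z) (ha : 0 ≤ a)
    (hJ : |J| ≤ a * Z) (hI : |I| ≤ b * Z) :
    ‖(Z : ℂ) - ((J : ℂ) + Complex.I * I)‖ ≤ Z * (1 + a + b ^ 2 / 2) := by
  have hb : 0 ≤ b := by
    by_contra hcon
    rw [not_le] at hcon
    have := (abs_nonneg I).trans hI
    nlinarith
  refine le_trans (le_abs_self _) (abs_le_of_sq_le_sq ?_ (by positivity))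
  have e1 : ‖(Z : ℂ) - ((J : ℂ) + Complex.I * I)‖ ^ 2 = (Z - J) ^ 2 + I ^ 2 := by
    rw [← Complex.normSq_eq_norm_sq, Complex.normSq_apply]
    simp
    ring
  rw [e1]
  obtain ⟨hJ1, hJ2⟩ := abs_le.1 hJ
  have hI2 : I ^ 2 ≤ (b * Z) ^ 2 := by
    rw [← sq_abs I]
    exact pow_le_pow_left₀ (abs_nonneg _) hI 2
  have hZJ : (Z - J) ^ 2 ≤ (Z * (1 + a)) ^ 2 := by
    have h1 : |Z - J| ≤ Z * (1 + a) := by
      rw [abs_le]
      constructor <;> nlinarith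
    rw [← sq_abs (Z - J)]
    exact pow_le_pow_left₀ (abs_nonneg _) h1 2
  have h3 : (Z * (1 + a)) ^ 2 + (b * Z) ^ 2 ≤ (Z * (1 + a + b ^ 2 / 2)) ^ 2 := by
    have e2 : (Z * (1 + a + b ^ 2 / 2)) ^ 2 - ((Z * (1 + a)) ^ 2 + (b * Z) ^ 2) =
        Z ^ 2 * (a * b ^ 2 + b ^ 4 / 4) := by ring
    have h4 : 0 ≤ Z ^ 2 * (a * b ^ 2 + b ^ 4 / 4) := by positivity
    linarith
  linarith

theorem first_order : ∃ C P : ℝ, 0 < C ∧ 1 ≤ P ∧ ∀ (p r : ℝ) (n : ℕ) (e : ℕ → ℂ) (ε : ℝ),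
    P ≤ p → 1 / 33 ≤ r → r < 1 → (n : ℝ) = 4 * p * kap r → ESeq e ε → ε ≤ 1 →
    ‖∫ θ in (-π)..π, G0 p r n θ * (1 - p * Ek e r θ)‖ ≤ (1 + C * √p * ε) * Z0 p r n := by
  obtain ⟨C1, P1, hC1, hP1, hint1⟩ := c_int 1 3
  obtain ⟨C2, P2, hC2, hP2, hint2⟩ := c_int 2 1
  obtain ⟨c, P3, hc, hP3, hlow⟩ := c_low
  refine ⟨16 * (C1 / c) + 392 * (C2 / c) ^ 2, max P1 (max P2 P3), by positivity,
    hP1.trans (le_max_left _ _), ?_⟩
  intro p r n e ε hp hr33 hr1 hn he hε1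
  have hp1 : P1 ≤ p := (le_max_left _ _).trans hp
  have hp2 : P2 ≤ p := ((le_max_left _ _).trans (le_max_right _ _)).trans hp
  have hp3 : P3 ≤ p := ((le_max_right _ _).trans (le_max_right _ _)).trans hp
  have hpone : 1 ≤ p := hP1.trans hp1
  have hp0 : 0 < p := by linarith
  have hr0 : 0 < r := by linarith
  have hκ := kap_pos hr0 hr1
  have hε0 : 0 ≤ ε := he.nn
  set u : ℝ := √p with hu
  have hu0 : 0 < u := Real.sqrt_pos.2 hp0
  have hu2 : u ^ 2 = p := Real.sq_sqrt hp0.le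
  have hu1 : 1 ≤ u := by
    rw [hu]
    exact Real.one_le_sqrt.2 hpone
  have hZlow := hlow p r n hp3 hr33 hr1 hn
  rw [← hu] at hZlow
  set Z := Z0 p r n with hZ
  have hZ0 : 0 < Z := lt_of_lt_of_le (by positivity) hZlow
  have hi1 := hint1 p r hp1 hr33 hr1
  have hi2 := hint2 p r hp2 hr33 hr1
  rw [← hu] at hi1 hi2
  set R : ℝ := (∫ θ in (-π)..π, G0 p r n θ * Ek (fun k => ((e k).re : ℂ)) r θ).re with hR
  set I : ℝ := (∫ θ in (-π)..π, G0 p r n θ * Ek (fun k => ((e k).im : ℂ)) r θ).re with hI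
  have hcre := continuous_Ek (fo_eseq_re he) hr0 hr1
  have hcim := fo_cont_im he hr0 hr1
  have hcG := continuous_G0 p hr0 hr1 n
  have hRR : ∫ θ in (-π)..π, G0 p r n θ * Ek (fun k => ((e k).re : ℂ)) r θ = (R : ℂ) :=
    fo_real_Ek hr0 hr1 n fun k => (e k).re
  have hII : ∫ θ in (-π)..π, G0 p r n θ * Ek (fun k => ((e k).im : ℂ)) r θ = (I : ℂ) :=
    fo_real_Ek hr0 hr1 n fun k => (e k).im
  -- the integral
  have hmain : ∫ θ in (-π)..π, G0 p r n θ * (1 - p * Ek e r θ) =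
      (Z : ℂ) - (((p * R : ℝ) : ℂ) + Complex.I * ((p * I : ℝ) : ℂ)) := by
    have e1 : ∫ θ in (-π)..π, G0 p r n θ * (1 - p * Ek e r θ) =
        ∫ θ in (-π)..π, (G0 p r n θ -
          ((p : ℂ) * (G0 p r n θ * Ek (fun k => ((e k).re : ℂ)) r θ) +
          (Complex.I * p) * (G0 p r n θ * Ek (fun k => ((e k).im : ℂ)) r θ))) := by
      refine intervalIntegral.integral_congr fun θ _ => ?_
      rw [fo_split he hr0 hr1 θ]
      ring
    have i0 : IntervalIntegrable (G0 p r n) volume (-π) π := hcG.intervalIntegrable _ _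
    have i1 : IntervalIntegrable
        (fun θ => (p : ℂ) * (G0 p r n θ * Ek (fun k => ((e k).re : ℂ)) r θ)) volume (-π) π :=
      (continuous_const.mul (hcG.mul hcre)).intervalIntegrable _ _
    have i2 : IntervalIntegrable
        (fun θ => (Complex.I * p) * (G0 p r n θ * Ek (fun k => ((e k).im : ℂ)) r θ))
        volume (-π) π :=
      (continuous_const.mul (hcG.mul hcim)).intervalIntegrable _ _
    rw [e1, intervalIntegral.integral_sub i0 (i1.add i2), intervalIntegral.integral_add i1 i2,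
      intervalIntegral.integral_const_mul, intervalIntegral.integral_const_mul, hRR, hII,
      G0_integral hr0 hr1 n]
    push_cast
    ring
  -- bounds
  have hRb : |R| ≤ 16 * ε * (C1 / (kap r * u ^ 2)) := by
    have h1 := fo_int_le hpone hr0 hr1 n hcre (B := 16 * ε) 1 3 (by
      intro θ
      refine (fo_norm_re he hr0 hr1 θ).trans (le_of_eq ?_)
      rw [pow_one]
      ring)
    rw [hRR, Complex.norm_real, Real.norm_eq_abs] at h1
    exact h1.trans (mul_le_mul_of_nonneg_left hi1 (by positivity))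
  have hIb : |I| ≤ 28 * √ε * (C2 / (kap r * u ^ 3)) := by
    have h1 := fo_int_le hpone hr0 hr1 n hcim (B := 28 * √ε) 2 1 (by
      intro θ
      refine (fo_norm_im he hr0 hr1 θ).trans (le_of_eq ?_)
      rw [pow_one]
      ring)
    rw [hII, Complex.norm_real, Real.norm_eq_abs] at h1
    exact h1.trans (mul_le_mul_of_nonneg_left hi2 (by positivity))
  have hZc : 1 / (kap r * u) ≤ Z / c := by
    rw [div_le_div_iff₀ (by positivity) hc]
    rw [div_le_iff₀ (by positivity)] at hZlow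
    linarith
  have hJ : |p * R| ≤ (16 * (C1 / c) * u * ε) * Z := by
    rw [abs_mul, abs_of_pos hp0]
    calc p * |R| ≤ p * (16 * ε * (C1 / (kap r * u ^ 2))) := mul_le_mul_of_nonneg_left hRb hp0.le
      _ = 16 * ε * C1 * u * (1 / (kap r * u)) := by
          rw [← hu2]
          field_simp
      _ ≤ 16 * ε * C1 * u * (Z / c) := mul_le_mul_of_nonneg_left hZc (by positivity)
      _ = (16 * (C1 / c) * u * ε) * Z := by ring
  have hI' : |p * I| ≤ (28 * √ε * (C2 / c)) * Z := by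
    rw [abs_mul, abs_of_pos hp0]
    calc p * |I| ≤ p * (28 * √ε * (C2 / (kap r * u ^ 3))) :=
          mul_le_mul_of_nonneg_left hIb hp0.le
      _ = 28 * √ε * C2 * (1 / (kap r * u)) := by
          rw [← hu2]
          field_simp
      _ ≤ 28 * √ε * C2 * (Z / c) := mul_le_mul_of_nonneg_left hZc (by positivity)
      _ = (28 * √ε * (C2 / c)) * Z := by ring
  rw [hmain]
  refine (fo_final hZ0 (by positivity) hJ hI').trans ?_
  have e3 : (28 * √ε * (C2 / c)) ^ 2 / 2 = 392 * (C2 / c) ^ 2 * ε := by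
    have : √ε ^ 2 = ε := Real.sq_sqrt hε0
    calc (28 * √ε * (C2 / c)) ^ 2 / 2 = 392 * (C2 / c) ^ 2 * √ε ^ 2 := by ring
      _ = _ := by rw [this]
  rw [e3]
  have h5 : 392 * (C2 / c) ^ 2 * ε ≤ 392 * (C2 / c) ^ 2 * u * ε := by
    refine mul_le_mul_of_nonneg_right ?_ hε0
    exact le_mul_of_one_le_right (by positivity) hu1
  have h6 : 1 + 16 * (C1 / c) * u * ε + 392 * (C2 / c) ^ 2 * ε ≤
      1 + (16 * (C1 / c) + 392 * (C2 / c) ^ 2) * u * ε := by linarith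
  rw [mul_comm]
  exact mul_le_mul_of_nonneg_right h6 hZ0.le

end MP4a1962
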