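import Pool.Agent.Lib.MP_4a1962_an.HSec

/-!
# FtoH: from the mean p-valent function `f` to its normalised logarithm `h`

`f z = f 0 * exp (p h z)` on the disc, `h 0 = 0`. The ball is simply connected and `f` has no zero: there is
a continuous (hence analytic) `g` with `exp ∘ g = f` on the ball (`Complex.exists_continuousOn_eqOn_exp_comp`,
or a primitive of `f'/f`, Mathlib.Analysis.Complex.HasPrimitives); `h = (g - g 0) / p`. Sections: `sec_le`.
-/

set_option autoImplicit false

open MeasureTheory Set Filter Topology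
open scoped Real ENNReal NNReal

namespace MP4a1962

theorem exists_h {p : ℝ} (hp : 0 < p) {f : ℂ → ℂ} (hf : DifferentiableOn ℂ f (Metric.ball (0 : ℂ) 1))
    (hne : ∀ z ∈ Metric.ball (0 : ℂ) 1, f z ≠ 0)
    (hcirc : ∀ R : ℝ, 0 < R →
        ∫⁻ φ in Set.Ioc (0 : ℝ) (2 * Real.pi),
          ENat.toENNReal
            (Set.encard {z : ℂ | z ∈ Metric.ball (0 : ℂ) 1 ∧
              f z = (R : ℂ) * Complex.exp ((φ : ℂ) * Complex.I)})
          ≤ ENNReal.ofReal (2 * Real.pi * p)) :
    ∃ h : ℂ → ℂ, HCls h ∧ ∀ z ∈ Metric.ball (0 : ℂ) 1, f z = f 0 * Complex.exp (p * h z) := by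
  have hpc : (p : ℂ) ≠ 0 := by exact_mod_cast hp.ne'
  have h0mem : (0 : ℂ) ∈ Metric.ball (0 : ℂ) 1 := by simp
  have hdf : DifferentiableOn ℂ (deriv f) (Metric.ball (0 : ℂ) 1) :=
    hf.deriv Metric.isOpen_ball
  have hq : DifferentiableOn ℂ (fun z => deriv f z / f z) (Metric.ball (0 : ℂ) 1) :=
    hdf.div hf hne
  obtain ⟨g, hg0, hg⟩ := (hq.isExactOn_ball).with_val_at 0 0
  have hfd : ∀ z ∈ Metric.ball (0 : ℂ) 1, HasDerivAt f (deriv f z) z := fun z hz =>
    ((hf z hz).differentiableAt (Metric.isOpen_ball.mem_nhds hz)).hasDerivAt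
  have hF : ∀ z ∈ Metric.ball (0 : ℂ) 1,
      HasDerivAt (fun z => f z * Complex.exp (-g z)) 0 z := by
    intro z hz
    have h1 := (hfd z hz).mul ((hg z hz).neg.cexp)
    have h2 : deriv f z * Complex.exp (-g z) +
        f z * (Complex.exp (-g z) * -(deriv f z / f z)) = 0 := by
      have := hne z hz
      field_simp
      ring
    rw [← h2]
    exact h1
  have hconst : ∀ z ∈ Metric.ball (0 : ℂ) 1, f z * Complex.exp (-g z) = f 0 := by
    intro z hz
    have h1 := Metric.isOpen_ball.is_const_of_deriv_eq_zero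
      (convex_ball (0 : ℂ) 1).isPreconnected
      (f := fun z => f z * Complex.exp (-g z))
      (fun x hx => (hF x hx).differentiableAt.differentiableWithinAt)
      (fun x hx => (hF x hx).deriv) hz h0mem
    simp only [hg0, neg_zero, Complex.exp_zero, mul_one] at h1
    exact h1
  have hfh : ∀ z ∈ Metric.ball (0 : ℂ) 1, f z = f 0 * Complex.exp (p * (g z / p)) := by
    intro z hz
    rw [mul_div_cancel₀ _ hpc, ← hconst z hz, mul_assoc, ← Complex.exp_add, neg_add_cancel,
      Complex.exp_zero, mul_one]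
  have hgd : DifferentiableOn ℂ (fun z => g z / p) (Metric.ball (0 : ℂ) 1) := fun z hz =>
    ((hg z hz).differentiableAt.div_const _).differentiableWithinAt
  refine ⟨fun z => g z / p, ⟨hgd, by simp [hg0], ?_⟩, hfh⟩
  exact sec_le hp hgd (hne 0 h0mem) hfh hcirc

end MP4a1962
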