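import Pool.Agent.Lib.MP_4a1962_an.Defs

/-!
# HSec: vertical sections of the image of `h`

Fix `u`; `V = {v | ∃ z ∈ ball, h z = pt u v}` is measurable (`h '' ball` is a countable union of
compact sets). Write `f 0 = ‖f 0‖ e^{iα}`, `R = ‖f 0‖ e^{p u} > 0`. If `v ∈ V` with `h z = pt u v`, then
`f z = R e^{i(α + p v)}`. Let `V' = {α + p v | v ∈ V}`, `volume V' = p volume V`. Now
`volume V' = ∑_{k ∈ ℤ} volume (V' ∩ Ioc (2πk) (2π(k+1))) = ∫⁻ φ in Ioc 0 (2π), ∑_k 1_{V'} (φ + 2πk)` and for every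
`φ ∈ Ioc 0 (2π)` the sum is at most `encard {z ∈ ball | f z = R e^{iφ}}`: the `k` with
`φ + 2πk ∈ V'` give points `z_k` with `h z_k = pt u ((φ + 2πk - α)/p)`, distinct for distinct `k`, and
`f z_k = R e^{iφ}`. (The fundamental domain form: `MeasureTheory.IsAddFundamentalDomain` for
`AddSubgroup.zmultiples (2π)`, `isAddFundamentalDomain_Ioc`, or `lintegral_iUnion` by hand.)
So `p volume V ≤ 2 π p`.
-/

set_option autoImplicit false

open MeasureTheory Set Filter Topology
open scoped Real ENNReal NNReal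

namespace MP4a1962

/-- the vertical section of the image is a Borel set -/
theorem measurableSet_vsec {h : ℂ → ℂ}
    (hh : DifferentiableOn ℂ h (Metric.ball (0 : ℂ) 1)) (u : ℝ) :
    MeasurableSet {v : ℝ | ∃ z ∈ Metric.ball (0 : ℂ) 1, h z = pt u v} := by
  have hset : {v : ℝ | ∃ z ∈ Metric.ball (0 : ℂ) 1, h z = pt u v} =
      ⋃ n : ℕ, (fun v : ℝ => pt u v) ⁻¹' (h '' Metric.closedBall (0 : ℂ) (1 - 1 / ((n : ℝ) + 1))) := by
    ext v
    simp only [mem_ofPred_eq, mem_iUnion, mem_preimage, mem_image, Metric.mem_ball,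
      Metric.mem_closedBall, dist_zero_right]
    constructor
    · rintro ⟨z, hz, hzv⟩
      obtain ⟨n, hn⟩ := exists_nat_one_div_lt (sub_pos.2 hz)
      exact ⟨n, z, by linarith, hzv⟩
    · rintro ⟨n, z, hz, hzv⟩
      have : (0 : ℝ) < 1 / ((n : ℝ) + 1) := by positivity
      exact ⟨z, by linarith, hzv⟩
  rw [hset]
  refine MeasurableSet.iUnion fun n => ?_
  have hsub : Metric.closedBall (0 : ℂ) (1 - 1 / ((n : ℝ) + 1)) ⊆ Metric.ball (0 : ℂ) 1 := by
    have : (0 : ℝ) < 1 / ((n : ℝ) + 1) := by positivity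
    exact Metric.closedBall_subset_ball (by linarith)
  have hcpt : IsCompact (h '' Metric.closedBall (0 : ℂ) (1 - 1 / ((n : ℝ) + 1))) :=
    (isCompact_closedBall _ _).image_of_continuousOn (hh.continuousOn.mono hsub)
  exact (hcpt.isClosed.preimage (continuous_pt_right u)).measurableSet

theorem sec_le {p : ℝ} (hp : 0 < p) {f h : ℂ → ℂ}
    (hh : DifferentiableOn ℂ h (Metric.ball (0 : ℂ) 1)) (hf0 : f 0 ≠ 0)
    (hfh : ∀ z ∈ Metric.ball (0 : ℂ) 1, f z = f 0 * Complex.exp (p * h z))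
    (hcirc : ∀ R : ℝ, 0 < R →
        ∫⁻ φ in Set.Ioc (0 : ℝ) (2 * Real.pi),
          ENat.toENNReal
            (Set.encard {z : ℂ | z ∈ Metric.ball (0 : ℂ) 1 ∧
              f z = (R : ℂ) * Complex.exp ((φ : ℂ) * Complex.I)})
          ≤ ENNReal.ofReal (2 * Real.pi * p)) (u : ℝ) :
    volume {v : ℝ | ∃ z ∈ Metric.ball (0 : ℂ) 1, h z = pt u v} ≤ ENNReal.ofReal (2 * π) := by
  set V : Set ℝ := {v : ℝ | ∃ z ∈ Metric.ball (0 : ℂ) 1, h z = pt u v} with hV
  have hVm : MeasurableSet V := measurableSet_vsec hh u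
  set α : ℝ := Complex.arg (f 0) with hα
  set R : ℝ := ‖f 0‖ * Real.exp (p * u) with hR
  have hRpos : 0 < R := mul_pos (norm_pos_iff.2 hf0) (Real.exp_pos _)
  set V' : Set ℝ := (fun t : ℝ => t - α) ⁻¹' ((fun s : ℝ => p⁻¹ * s) ⁻¹' V) with hV'
  have hV'm : MeasurableSet V' :=
    (hVm.preimage (measurable_const_mul _)).preimage (measurable_sub_const _)
  have hvol : volume V' = ENNReal.ofReal p * volume V := by
    have hfun : (fun t : ℝ => t - α) = fun t => t + (-α) := by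
      ext t
      ring
    rw [hV', hfun, measure_preimage_add_right,
      Real.volume_preimage_mul_left (inv_ne_zero hp.ne'), inv_inv, abs_of_pos hp]
  -- the pointwise inequality
  have hpt : ∀ φ : ℝ, (∑' g : AddSubgroup.zmultiples (2 * π),
      V'.indicator (fun _ => (1 : ℝ≥0∞)) (g +ᵥ φ)) ≤
        ENat.toENNReal (Set.encard {z : ℂ | z ∈ Metric.ball (0 : ℂ) 1 ∧
              f z = (R : ℂ) * Complex.exp ((φ : ℂ) * Complex.I)}) := by
    intro φ
    have h1 : (∑' g : AddSubgroup.zmultiples (2 * π),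
        V'.indicator (fun _ => (1 : ℝ≥0∞)) (g +ᵥ φ)) =
        ((Set.encard {g : AddSubgroup.zmultiples (2 * π) | g +ᵥ φ ∈ V'} : ℕ∞) : ℝ≥0∞) := by
      rw [← ENNReal.tsum_set_one, tsum_subtype {g : AddSubgroup.zmultiples (2 * π) | g +ᵥ φ ∈ V'}
        (fun _ => (1 : ℝ≥0∞))]
      rfl
    rw [h1]
    refine ENat.toENNReal_le.2 ?_
    have hex : ∀ g : AddSubgroup.zmultiples (2 * π), ∃ z : ℂ, g +ᵥ φ ∈ V' →
        z ∈ Metric.ball (0 : ℂ) 1 ∧ h z = pt u (p⁻¹ * ((g : ℝ) + φ - α)) := by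
      intro g
      by_cases hg : g +ᵥ φ ∈ V'
      · obtain ⟨z, hz, hz'⟩ : ∃ z ∈ Metric.ball (0 : ℂ) 1,
            h z = pt u (p⁻¹ * ((g : ℝ) + φ - α)) := hg
        exact ⟨z, fun _ => ⟨hz, hz'⟩⟩
      · exact ⟨0, fun h => absurd h hg⟩
    choose Z hZ using hex
    refine Set.encard_le_encard_of_injOn (f := Z) ?_ ?_
    · intro g hg
      obtain ⟨hz, hz'⟩ := hZ g hg
      refine ⟨hz, ?_⟩
      rw [hfh _ hz, hz']
      obtain ⟨k, hk⟩ : ∃ k : ℤ, k • (2 * π) = (g : ℝ) := AddSubgroup.mem_zmultiples_iff.1 g.2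
      have hk' : (g : ℝ) = k * (2 * π) := by rw [← hk, zsmul_eq_mul]
      have hf0' : f 0 = (‖f 0‖ : ℂ) * Complex.exp (α * Complex.I) :=
        (Complex.norm_mul_exp_arg_mul_I (f 0)).symm
      have hpt' : pt u (p⁻¹ * ((g : ℝ) + φ - α)) =
          (u : ℂ) + ((p⁻¹ * ((g : ℝ) + φ - α) : ℝ) : ℂ) * Complex.I := by
        apply Complex.ext <;> simp
      have hp' : (p : ℂ) ≠ 0 := by exact_mod_cast hp.ne'
      rw [hpt', hR, hk']
      calc f 0 * Complex.exp (p * ((u : ℂ) +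
            ((p⁻¹ * ((k : ℝ) * (2 * π) + φ - α) : ℝ) : ℂ) * Complex.I))
          = (‖f 0‖ : ℂ) * Complex.exp (α * Complex.I) * Complex.exp (p * ((u : ℂ) +
            ((p⁻¹ * ((k : ℝ) * (2 * π) + φ - α) : ℝ) : ℂ) * Complex.I)) := by rw [← hf0']
        _ = (‖f 0‖ : ℂ) * (Complex.exp (p * u) * Complex.exp (φ * Complex.I)) := by
            rw [mul_assoc, ← Complex.exp_add, ← Complex.exp_add]
            congr 1
            rw [Complex.exp_eq_exp_iff_exists_int]
            refine ⟨k, ?_⟩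
            push_cast
            field_simp
            ring
        _ = _ := by
            push_cast
            ring
    · intro g hg g' hg' hgg
      have e1 := (hZ g hg).2
      have e2 := (hZ g' hg').2
      rw [hgg, e2] at e1
      have e3 := congrArg Complex.im e1
      simp only [pt_im] at e3
      have e4 := mul_left_cancel₀ (inv_ne_zero hp.ne') e3
      apply Subtype.ext
      linarith
  have hfd := isAddFundamentalDomain_Ioc Real.two_pi_pos (0 : ℝ)
  have key : volume V' ≤ ENNReal.ofReal (2 * Real.pi * p) := by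
    calc volume V' = ∫⁻ x, V'.indicator (fun _ => (1 : ℝ≥0∞)) x := by
          rw [lintegral_indicator_const hV'm, one_mul]
      _ = ∑' g : AddSubgroup.zmultiples (2 * π), ∫⁻ x in Ioc (0 : ℝ) (0 + 2 * π),
            V'.indicator (fun _ => (1 : ℝ≥0∞)) (g +ᵥ x) := hfd.lintegral_eq_tsum'' _
      _ = ∫⁻ x in Ioc (0 : ℝ) (0 + 2 * π), ∑' g : AddSubgroup.zmultiples (2 * π),
            V'.indicator (fun _ => (1 : ℝ≥0∞)) (g +ᵥ x) := by
          rw [lintegral_tsum]
          intro g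
          exact ((measurable_const.indicator hV'm).comp (measurable_const_vadd g)).aemeasurable
      _ ≤ ∫⁻ φ in Ioc (0 : ℝ) (0 + 2 * π), ENat.toENNReal
            (Set.encard {z : ℂ | z ∈ Metric.ball (0 : ℂ) 1 ∧
              f z = (R : ℂ) * Complex.exp ((φ : ℂ) * Complex.I)}) :=
          lintegral_mono fun φ => hpt φ
      _ ≤ ENNReal.ofReal (2 * Real.pi * p) := by
          rw [zero_add]
          exact hcirc R hRpos
  rw [hvol, mul_comm (2 * Real.pi) p, ENNReal.ofReal_mul hp.le] at key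
  exact (ENNReal.mul_le_mul_iff_right (by simpa using hp) ENNReal.ofReal_ne_top).1 key

end MP4a1962
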