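import Pool.Agent.Lib.MP_4a1962_an.Defs

/-!
# LineLog: the logarithm integrated over vertical lines

`∫ (lg (pt x' (v - b)) - lg (pt x (v - b))) dv = π (|x'| - |x|)`, absolutely convergent.

Proof. By translation invariance `b = 0`, by `lg (pt x v) = (1/2) log (x² + v²) = lg (pt |x| v)`
we may assume `x, x' ≥ 0`, and by antisymmetry `x ≤ x'`. For `v ≠ 0`,
`lg (pt x' v) - lg (pt x v) = ∫ t in x..x', t / (t² + v²)` (nonnegative integrand). Tonelli, and for
`t > 0`: `∫ v, t / (t² + v²) = π` (`integral_univ_inv_one_add_sq`, scaling). So the lintegral is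
`ofReal (π (x' - x))`. The integrand is nonnegative, so the integral of the absolute value is the
same.
-/

set_option autoImplicit false

open MeasureTheory Set Filter Topology
open scoped Real ENNReal NNReal

namespace MP4a1962

private lemma lg_pt_eq (x v : ℝ) : lg (pt x v) = Real.log (x ^ 2 + v ^ 2) / 2 := by
  unfold lg
  rw [Complex.norm_def, Complex.normSq_apply, pt_re, pt_im, ← sq, ← sq,
    Real.log_sqrt (add_nonneg (sq_nonneg x) (sq_nonneg v))]

private lemma lg_abs (x v : ℝ) : lg (pt |x| v) = lg (pt x v) := by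
  rw [lg_pt_eq, lg_pt_eq, sq_abs]

private lemma inner_int {t : ℝ} (ht : 0 < t) :
    ∫⁻ v : ℝ, ENNReal.ofReal (t / (t ^ 2 + v ^ 2)) = ENNReal.ofReal π := by
  have h1 : (fun v : ℝ => t / (t ^ 2 + v ^ 2)) = fun v : ℝ => t⁻¹ * (1 + (v / t) ^ 2)⁻¹ := by
    funext v
    have : t ≠ 0 := ht.ne'
    field_simp
  have h2 : Integrable (fun v : ℝ => t / (t ^ 2 + v ^ 2)) := by
    rw [h1]
    exact (integrable_inv_one_add_sq.comp_div ht.ne').const_mul _
  rw [← ofReal_integral_eq_lintegral_ofReal h2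
    (Eventually.of_forall fun v => by positivity)]
  congr 1
  rw [h1, integral_const_mul, Measure.integral_comp_div (fun v : ℝ => (1 + v ^ 2)⁻¹) t,
    integral_univ_inv_one_add_sq, abs_of_pos ht, smul_eq_mul]
  field_simp

private lemma ftc {x x' v : ℝ} (hx : 0 ≤ x) (h : x ≤ x') (hv : v ≠ 0) :
    ENNReal.ofReal (lg (pt x' v) - lg (pt x v)) =
      ∫⁻ t in Ioc x x', ENNReal.ofReal (t / (t ^ 2 + v ^ 2)) := by
  have hv2 : 0 < v ^ 2 := by positivity
  have hc : Continuous (fun t : ℝ => t / (t ^ 2 + v ^ 2)) :=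
    continuous_id.div (by fun_prop) (fun t => by positivity)
  have h1 : ∫ t in x..x', t / (t ^ 2 + v ^ 2) = lg (pt x' v) - lg (pt x v) := by
    rw [lg_pt_eq, lg_pt_eq]
    apply intervalIntegral.integral_eq_sub_of_hasDerivAt
      (f := fun t : ℝ => Real.log (t ^ 2 + v ^ 2) / 2)
    · intro t _
      have h2 : HasDerivAt (fun t : ℝ => t ^ 2 + v ^ 2) (2 * t) t := by
        simpa using (hasDerivAt_pow 2 t).add_const (v ^ 2)
      have h3 := (h2.log (by positivity)).div_const 2
      have h4 : 2 * t / (t ^ 2 + v ^ 2) / 2 = t / (t ^ 2 + v ^ 2) := by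
        field_simp
      rwa [h4] at h3
    · exact hc.intervalIntegrable _ _
  rw [← h1, intervalIntegral.integral_of_le h]
  refine ofReal_integral_eq_lintegral_ofReal ?_ ?_
  · exact (hc.integrableOn_Icc).mono_set Ioc_subset_Icc_self
  · filter_upwards [self_mem_ae_restrict measurableSet_Ioc] with t ht
    have : 0 < t := hx.trans_lt ht.1
    positivity

private lemma lint {x x' : ℝ} (hx : 0 ≤ x) (h : x ≤ x') :
    ∫⁻ v : ℝ, ENNReal.ofReal (lg (pt x' v) - lg (pt x v)) = ENNReal.ofReal (π * (x' - x)) := by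
  have h0 : ∀ᵐ v : ℝ, v ≠ 0 := by
    rw [ae_iff]
    simp
  rw [lintegral_congr_ae (h0.mono fun v hv => ftc hx h hv)]
  rw [lintegral_lintegral_swap]
  · rw [setLIntegral_congr_fun measurableSet_Ioc
      (fun t ht => inner_int (hx.trans_lt ht.1)), setLIntegral_const, Real.volume_Ioc,
      ← ENNReal.ofReal_mul Real.pi_pos.le]
  · have : Measurable (fun q : ℝ × ℝ => ENNReal.ofReal (q.2 / (q.2 ^ 2 + q.1 ^ 2))) := by
      fun_prop
    exact this.aemeasurable

private lemma nonneg_ae {x x' : ℝ} (hx : 0 ≤ x) (h : x ≤ x') :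
    0 ≤ᵐ[volume] fun v : ℝ => lg (pt x' v) - lg (pt x v) := by
  have h0 : ∀ᵐ v : ℝ, v ≠ 0 := by
    rw [ae_iff]
    simp
  filter_upwards [h0] with v hv
  have h1 : 0 < v ^ 2 := by positivity
  have h2 : Real.log (x ^ 2 + v ^ 2) ≤ Real.log (x' ^ 2 + v ^ 2) := by
    apply Real.log_le_log (by positivity)
    have := pow_le_pow_left₀ hx h 2
    linarith
  rw [lg_pt_eq, lg_pt_eq]
  change (0 : ℝ) ≤ _
  linarith

private lemma meas (x x' : ℝ) : Measurable (fun v : ℝ => lg (pt x' v) - lg (pt x v)) :=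
  (measurable_lg.comp (measurable_pt_right x')).sub (measurable_lg.comp (measurable_pt_right x))

private lemma int_le {x x' : ℝ} (hx : 0 ≤ x) (h : x ≤ x') :
    Integrable (fun v : ℝ => lg (pt x' v) - lg (pt x v)) ∧
      ∫ v : ℝ, (lg (pt x' v) - lg (pt x v)) = π * (x' - x) ∧
      ∫ v : ℝ, |lg (pt x' v) - lg (pt x v)| = π * (x' - x) := by
  have h1 : ∫ v : ℝ, (lg (pt x' v) - lg (pt x v)) = π * (x' - x) := by
    rw [integral_eq_lintegral_of_nonneg_ae (nonneg_ae hx h) (meas x x').aestronglyMeasurable,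
      lint hx h, ENNReal.toReal_ofReal]
    have := Real.pi_pos
    have : 0 ≤ x' - x := by linarith
    positivity
  refine ⟨⟨(meas x x').aestronglyMeasurable, ?_⟩, h1, ?_⟩
  · rw [hasFiniteIntegral_iff_ofReal (nonneg_ae hx h), lint hx h]
    exact ENNReal.ofReal_lt_top
  · rw [← h1]
    apply integral_congr_ae
    filter_upwards [nonneg_ae hx h] with v hv
    exact abs_of_nonneg hv

private lemma all0 (x x' : ℝ) :
    Integrable (fun v : ℝ => lg (pt x' v) - lg (pt x v)) ∧
      ∫ v : ℝ, (lg (pt x' v) - lg (pt x v)) = π * (|x'| - |x|) ∧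
      ∫ v : ℝ, |lg (pt x' v) - lg (pt x v)| = π * |(|x'| - |x|)| := by
  have e1 : ∀ v, lg (pt x v) = lg (pt |x| v) := fun v => (lg_abs x v).symm
  have e2 : ∀ v, lg (pt x' v) = lg (pt |x'| v) := fun v => (lg_abs x' v).symm
  simp only [e1, e2]
  rcases le_total |x| |x'| with h | h
  · obtain ⟨a1, a2, a3⟩ := int_le (abs_nonneg x) h
    refine ⟨a1, a2, ?_⟩
    rw [a3, abs_of_nonneg (sub_nonneg.mpr h)]
  · obtain ⟨a1, a2, a3⟩ := int_le (abs_nonneg x') h
    refine ⟨?_, ?_, ?_⟩
    · have := a1.neg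
      refine this.congr (Eventually.of_forall fun v => ?_)
      change -(lg (pt |x| v) - lg (pt |x'| v)) = _
      ring
    · have h5 : ∀ v, lg (pt |x'| v) - lg (pt |x| v) = -(lg (pt |x| v) - lg (pt |x'| v)) :=
        fun v => by ring
      simp only [h5]
      rw [integral_neg, a2]
      ring
    · simp only [abs_sub_comm (lg (pt |x'| _))]
      rw [a3, abs_of_nonpos (sub_nonpos.mpr h)]
      ring

theorem line_log_int (x x' b : ℝ) :
    Integrable (fun v : ℝ => lg (pt x' (v - b)) - lg (pt x (v - b))) :=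
  (all0 x x').1.comp_sub_right b

theorem line_log_integral (x x' b : ℝ) :
    ∫ v : ℝ, (lg (pt x' (v - b)) - lg (pt x (v - b))) = π * (|x'| - |x|) := by
  rw [integral_sub_right_eq_self (fun v : ℝ => lg (pt x' v) - lg (pt x v)) b]
  exact (all0 x x').2.1

theorem line_log_abs (x x' b : ℝ) :
    ∫ v : ℝ, |lg (pt x' (v - b)) - lg (pt x (v - b))| = π * |(|x'| - |x|)| := by
  rw [integral_sub_right_eq_self (fun v : ℝ => |lg (pt x' v) - lg (pt x v)|) b]
  exact (all0 x x').2.2

end MP4a1962
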