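import Pool.Agent.Lib.MP_4a1962_an.N0Basic
import Pool.Agent.Lib.MP_4a1962_an.LineLog

/-!
# S0Basic: continuity and monotonicity of `S0 w = ∫ v in (-w.im)..w.im, N0 (pt w.re v)`

* `S0_mono`: the integrand is nonnegative for `|v| ≤ π`.
* `S0_cont`: with `N0_decomp`, `S0 w = ∫ v in (-s)..s, R (pt u v) - ∫ v in (-s)..s, lg (pt u v)`.
  The first term is jointly continuous (`R` continuous on `|im| < 2 π`; e.g. substitute `v = s x`,
  `∫ x in (-1)..1, s * R (pt u (s x))`, `continuousOn` of parametric integrals, or replace `R` by a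
  continuous extension `R (pt u (max (-π) (min π v)))`). The second:
  `|∫_{-s}^{s} (lg (pt u v) - lg (pt u' v))| ≤ π | |u| - |u'| |` by `line_log_abs` (`b = 0`), and for
  fixed `u` the primitive is continuous in `s` (`lg_line_int`).
-/

set_option autoImplicit false

open MeasureTheory Set Filter Topology
open scoped Real ENNReal NNReal

namespace MP4a1962

theorem S0_bot {w : ℂ} (hw : w.im = 0) : S0 w = 0 := by
  unfold S0
  rw [hw, neg_zero, intervalIntegral.integral_same]

theorem S0_nonneg {w : ℂ} (h0 : 0 ≤ w.im) (h1 : w.im ≤ π) : 0 ≤ S0 w := by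
  unfold S0
  apply intervalIntegral.integral_nonneg (by linarith)
  intro v hv
  apply N0_nonneg
  rw [pt_im, abs_le]
  exact ⟨by linarith [hv.1], by linarith [hv.2]⟩

theorem S0_mono (u : ℝ) {s s' : ℝ} (h0 : 0 ≤ s) (hs : s ≤ s') (h1 : s' ≤ π) :
    S0 (pt u s) ≤ S0 (pt u s') := by
  have hπ := Real.pi_pos
  unfold S0
  simp only [pt_re, pt_im]
  apply intervalIntegral.integral_mono_interval (by linarith) (by linarith) hs
  · filter_upwards [self_mem_ae_restrict measurableSet_Ioc] with v hv
    apply N0_nonneg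
    rw [pt_im, abs_le]
    exact ⟨by linarith [hv.1], by linarith [hv.2]⟩
  · apply N0_line_int
    · rw [abs_neg, abs_of_nonneg (by linarith)]
      linarith
    · rw [abs_of_nonneg (by linarith)]
      linarith

theorem S0_neg_re (u s : ℝ) : S0 (pt (-u) s) = S0 (pt u s) := by
  unfold S0
  simp only [pt_re, pt_im, N0_neg_re]

private lemma lg_part (w0 : ℂ) :
    Tendsto (fun w : ℂ => ∫ v in (-w.im)..w.im, lg (pt w.re v)) (𝓝 w0)
      (𝓝 (∫ v in (-w0.im)..w0.im, lg (pt w0.re v))) := by
  have hprim : Continuous (fun s : ℝ => ∫ v in (-s)..s, lg (pt w0.re v)) := by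
    have h1 := intervalIntegral.continuous_primitive
      (fun a b => lg_line_int w0.re a b) (0 : ℝ)
    have h2 : (fun s : ℝ => ∫ v in (-s)..s, lg (pt w0.re v)) =
        fun s : ℝ => (∫ v in (0 : ℝ)..s, lg (pt w0.re v)) - ∫ v in (0 : ℝ)..(-s), lg (pt w0.re v) := by
      funext s
      rw [intervalIntegral.integral_interval_sub_left (lg_line_int _ _ _) (lg_line_int _ _ _)]
    rw [h2]
    exact h1.sub (h1.comp continuous_neg)
  have hA : Tendsto (fun w : ℂ => ∫ v in (-w.im)..w.im, lg (pt w0.re v)) (𝓝 w0)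
      (𝓝 (∫ v in (-w0.im)..w0.im, lg (pt w0.re v))) :=
    (hprim.comp Complex.continuous_im).tendsto w0
  have hB : Tendsto (fun w : ℂ => (∫ v in (-w.im)..w.im, lg (pt w.re v)) -
      ∫ v in (-w.im)..w.im, lg (pt w0.re v)) (𝓝 w0) (𝓝 0) := by
    have hbound : ∀ w : ℂ, ‖(∫ v in (-w.im)..w.im, lg (pt w.re v)) -
        ∫ v in (-w.im)..w.im, lg (pt w0.re v)‖ ≤ π * |(|w.re| - |w0.re|)| := by
      intro w
      rw [← intervalIntegral.integral_sub (lg_line_int _ _ _) (lg_line_int _ _ _)]
      have h1 := line_log_abs w0.re w.re 0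
      have h2 := line_log_int w0.re w.re 0
      simp only [sub_zero] at h1 h2
      rw [← h1]
      refine intervalIntegral.norm_integral_le_integral_norm_uIoc.trans ?_
      exact setIntegral_le_integral h2.norm (Eventually.of_forall fun v => norm_nonneg _)
    have hlim : Tendsto (fun w : ℂ => π * |(|w.re| - |w0.re|)|) (𝓝 w0) (𝓝 0) := by
      have hc : Continuous (fun w : ℂ => π * |(|w.re| - |w0.re|)|) := by fun_prop
      have := hc.tendsto w0
      simpa using this
    exact squeeze_zero_norm hbound hlim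
  have h3 := hB.add hA
  rw [zero_add] at h3
  refine h3.congr (fun w => ?_)
  ring

theorem S0_continuousOn : ContinuousOn S0 {w : ℂ | 0 ≤ w.im ∧ w.im ≤ π} := by
  obtain ⟨R, hR1, hR2, -⟩ := N0_decomp
  have hπ := Real.pi_pos
  let cl : ℝ → ℝ := fun v => max (-π) (min π v)
  have hcl : Continuous cl := continuous_const.max (continuous_const.min continuous_id)
  have hcl1 : ∀ v, |cl v| < 2 * π := by
    intro v
    have h1 : -π ≤ cl v := le_max_left _ _
    have h2 : cl v ≤ π := max_le (by linarith) (min_le_left _ _)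
    rw [abs_lt]
    exact ⟨by linarith, by linarith⟩
  have hcl2 : ∀ v, |v| ≤ π → cl v = v := by
    intro v hv
    rw [abs_le] at hv
    change max (-π) (min π v) = v
    rw [min_eq_right hv.2, max_eq_right hv.1]
  let f : ℂ → ℝ → ℝ := fun w v => R (pt w.re (cl v))
  have hf : Continuous (Function.uncurry f) := by
    have h1 : Continuous (fun q : ℂ × ℝ => pt q.1.re (cl q.2)) :=
      continuous_pt.comp ((Complex.continuous_re.comp continuous_fst).prodMk
        (hcl.comp continuous_snd))
    have h2 : ContinuousOn (fun q : ℂ × ℝ => R (pt q.1.re (cl q.2))) univ :=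
      hR1.comp h1.continuousOn (fun q _ => hcl1 q.2)
    exact continuousOn_univ.mp h2
  have hA : Continuous (fun w : ℂ => ∫ v in (-w.im)..w.im, f w v) := by
    have h1 : Continuous (fun w : ℂ => ∫ v in (0 : ℝ)..w.im, f w v) :=
      intervalIntegral.continuous_parametric_intervalIntegral_of_continuous hf
        Complex.continuous_im
    have h2 : Continuous (fun w : ℂ => ∫ v in (0 : ℝ)..(-w.im), f w v) :=
      intervalIntegral.continuous_parametric_intervalIntegral_of_continuous hf
        Complex.continuous_im.neg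
    have h3 : (fun w : ℂ => ∫ v in (-w.im)..w.im, f w v) =
        fun w : ℂ => (∫ v in (0 : ℝ)..w.im, f w v) - ∫ v in (0 : ℝ)..(-w.im), f w v := by
      funext w
      have h4 : ∀ a b, IntervalIntegrable (f w) volume a b := by
        intro a b
        apply Continuous.intervalIntegrable
        exact hf.comp (continuous_const.prodMk continuous_id)
      rw [intervalIntegral.integral_interval_sub_left (h4 _ _) (h4 _ _)]
    rw [h3]
    exact h1.sub h2
  have hB : Continuous (fun w : ℂ => ∫ v in (-w.im)..w.im, lg (pt w.re v)) :=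
    continuous_iff_continuousAt.mpr lg_part
  refine (hA.sub hB).continuousOn.congr ?_
  intro w hw
  obtain ⟨h0, h1⟩ := hw
  have h4 : IntervalIntegrable (f w) volume (-w.im) w.im := by
    apply Continuous.intervalIntegrable
    exact hf.comp (continuous_const.prodMk continuous_id)
  change S0 w = (∫ v in (-w.im)..w.im, f w v) - ∫ v in (-w.im)..w.im, lg (pt w.re v)
  rw [← intervalIntegral.integral_sub h4 (lg_line_int _ _ _)]
  unfold S0
  apply intervalIntegral.integral_congr_ae
  have hne : ∀ᵐ v : ℝ, v ≠ 0 := by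
    rw [ae_iff]
    simp
  filter_upwards [hne] with v hv hv'
  have h5 : |v| ≤ π := by
    rw [uIoc_of_le (by linarith)] at hv'
    rw [abs_le]
    exact ⟨by linarith [hv'.1], by linarith [hv'.2]⟩
  have h6 : pt w.re v ≠ 0 := by
    intro h
    exact hv (Complex.ext_iff.mp h).2
  rw [hR2 _ h6 (by rw [pt_im]; linarith)]
  change _ = R (pt w.re (cl v)) - _
  rw [hcl2 v h5]

end MP4a1962
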