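import Pool.Agent.Lib.MP_4a1962_an.S0Pi
import Pool.Agent.Lib.MP_4a1962_an.S0Basic

/-!
# IntervalIneq: the star inequality for intervals

`ULow U` : `U` continuous, `2π`-periodic, mean zero, and `∫_{-π}^{π} |U - u| ≤ 2π|u| + 2 S0 (pt u π)`.
Then for `0 < t < π` and every `φ`: `∫_{-t}^{t} U (φ + θ) dθ ≤ ∫_{-t}^{t} U0`.

Proof. For `t ≤ π/2` let `u = U0 t ≥ 0`:
`∫_{-t}^{t} (U (φ+θ) - u) dθ ≤ ∫_{-π}^{π} (U (φ+θ) - u)^+ dθ = (1/2) ∫_{-π}^{π} |U - u| + (1/2) ∫_{-π}^{π} (U - u)
≤ (1/2)(2π u + 2 S0 (pt u π)) - π u = S0 (pt u π)` (periodicity: the integrals over `(φ-π, φ+π)` and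
`(-π, π)` agree). Then `S0_pi`.
For `π/2 < t < π` let `t' = π - t`: `-U` is also `ULow` (`S0_neg_re`), and
`∫_{-t}^{t} U (φ+θ) dθ = - ∫_{-t'}^{t'} U (φ+π+θ) dθ ≤ ∫_{-t'}^{t'} U0 = ∫_{-t}^{t} U0`
(mean zero; `U0_anti`, `U0_even`, `U0_total`).
-/

set_option autoImplicit false

open MeasureTheory Set Filter Topology
open scoped Real ENNReal NNReal

namespace MP4a1962

/-- functions on the circle majorised by `U0` -/
structure ULow (U : ℝ → ℝ) : Prop where
  cont : Continuous U
  per : ∀ θ, U (θ + 2 * π) = U θ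
  mean : ∫ θ in (-π)..π, U θ = 0
  maj : ∀ u : ℝ, ∫ θ in (-π)..π, |U θ - u| ≤ 2 * π * |u| + 2 * S0 (pt u π)

theorem ULow.neg {U : ℝ → ℝ} (hU : ULow U) : ULow (fun θ => - U θ) := by
  refine ⟨hU.cont.neg, fun θ => by simp only [hU.per], ?_, fun u => ?_⟩
  · rw [intervalIntegral.integral_neg, hU.mean, neg_zero]
  · have h := hU.maj (-u)
    rw [abs_neg, S0_neg_re] at h
    have h2 : ∀ θ, |-U θ - u| = |U θ - -u| := fun θ => by
      rw [← abs_neg]
      congr 1
      ring
    simp only [h2]
    exact h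

private theorem period_shift {U : ℝ → ℝ} (hper : ∀ θ, U (θ + 2 * π) = U θ) (a b : ℝ) :
    ∫ θ in a..(a + 2 * π), U θ = ∫ θ in b..(b + 2 * π), U θ :=
  Function.Periodic.intervalIntegral_add_eq (f := U) (T := 2 * π) hper a b

private theorem low_case {U : ℝ → ℝ} (hU : ULow U) {t : ℝ} (h0 : 0 < t) (h1 : t ≤ π / 2) (φ : ℝ) :
    ∫ θ in (-t)..t, U (φ + θ) ≤ ∫ θ in (-t)..t, U0 θ := by
  have hpi := Real.pi_pos
  set u := U0 t with hu
  have hu0 : 0 ≤ u := U0_nonneg h0 h1
  have hS := S0_pi h0 h1
  rw [← hu] at hS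
  have hc := hU.cont
  set W : ℝ → ℝ := fun θ => max (U θ - u) 0 with hW
  have hWc : Continuous W := (hc.sub continuous_const).max continuous_const
  have hWper : ∀ θ, W (θ + 2 * π) = W θ := fun θ => by simp only [hW, hU.per]
  -- step 1
  have e1 : ∫ θ in (-t)..t, (U (φ + θ) - u) = (∫ θ in (-t)..t, U (φ + θ)) - 2 * t * u := by
    rw [intervalIntegral.integral_sub]
    · rw [intervalIntegral.integral_const]
      simp only [smul_eq_mul]
      ring
    · exact (hc.comp (continuous_const.add continuous_id)).intervalIntegrable _ _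
    · exact continuous_const.intervalIntegrable _ _
  have hWi : ∀ a b : ℝ, IntervalIntegrable (fun θ => W (φ + θ)) volume a b := fun a b =>
    (hWc.comp (continuous_const.add continuous_id)).intervalIntegrable _ _
  have e2 : ∫ θ in (-t)..t, (U (φ + θ) - u) ≤ ∫ θ in (-t)..t, W (φ + θ) := by
    refine intervalIntegral.integral_mono_on (by linarith) ?_ (hWi _ _) fun θ _ => le_max_left _ _
    exact ((hc.comp (continuous_const.add continuous_id)).sub
      continuous_const).intervalIntegrable _ _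
  have e3 : ∫ θ in (-t)..t, W (φ + θ) ≤ ∫ θ in (-π)..π, W (φ + θ) := by
    refine intervalIntegral.integral_mono_interval (by linarith) (by linarith) (by linarith) ?_
      (hWi _ _)
    exact Filter.Eventually.of_forall fun θ => le_max_right _ _
  have e4 : ∫ θ in (-π)..π, W (φ + θ) = ∫ θ in (-π)..π, W θ := by
    rw [intervalIntegral.integral_comp_add_left (fun x => W x) φ]
    have h1 := period_shift hWper (φ + -π) (-π)
    have h2 : φ + -π + 2 * π = φ + π := by ring
    have h3 : -π + 2 * π = π := by ring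
    rw [h2, h3] at h1
    exact h1
  have e5 : ∫ θ in (-π)..π, W θ
      = (1 / 2) * (∫ θ in (-π)..π, |U θ - u|) + (1 / 2) * (∫ θ in (-π)..π, (U θ - u)) := by
    rw [← intervalIntegral.integral_const_mul, ← intervalIntegral.integral_const_mul,
      ← intervalIntegral.integral_add]
    · refine intervalIntegral.integral_congr fun θ _ => ?_
      simp only [hW]
      rcases le_total 0 (U θ - u) with h | h
      · rw [max_eq_left h, abs_of_nonneg h]
        ring
      · rw [max_eq_right h, abs_of_nonpos h]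
        ring
    · exact (continuous_const.mul (hc.sub continuous_const).abs).intervalIntegrable _ _
    · exact (continuous_const.mul (hc.sub continuous_const)).intervalIntegrable _ _
  have e6 : ∫ θ in (-π)..π, (U θ - u) = - (2 * π * u) := by
    rw [intervalIntegral.integral_sub (hc.intervalIntegrable _ _)
      (continuous_const.intervalIntegrable _ _), hU.mean, intervalIntegral.integral_const]
    simp only [smul_eq_mul]
    ring
  have e7 := hU.maj u
  rw [abs_of_nonneg hu0] at e7
  nlinarith [e1, e2, e3, e4, e5, e6, e7, hS]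

theorem interval_ineq {U : ℝ → ℝ} (hU : ULow U) {t : ℝ} (h0 : 0 < t) (h1 : t < π) (φ : ℝ) :
    ∫ θ in (-t)..t, U (φ + θ) ≤ ∫ θ in (-t)..t, U0 θ := by
  rcases le_or_gt t (π / 2) with h2 | h2
  · exact low_case hU h0 h2 φ
  have hpi := Real.pi_pos
  set t' := π - t with ht'
  have h3 : 0 < t' := by linarith
  have h4 : t' ≤ π / 2 := by linarith
  have k := low_case hU.neg h3 h4 (φ + π)
  rw [intervalIntegral.integral_neg] at k
  have hc := hU.cont
  have hi : ∀ a b : ℝ, IntervalIntegrable U volume a b := fun a b => hc.intervalIntegrable _ _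
  -- the two arcs
  have a1 : ∫ θ in (-t)..t, U (φ + θ) = ∫ θ in (φ - t)..(φ + t), U θ := by
    rw [intervalIntegral.integral_comp_add_left (fun x => U x) φ]
    rfl
  have a2 : ∫ θ in (-t')..t', U (φ + π + θ) = ∫ θ in (φ + t)..(φ + 2 * π - t), U θ := by
    rw [intervalIntegral.integral_comp_add_left (fun x => U x) (φ + π)]
    congr 1 <;> (rw [ht']; ring)
  have a3 : (∫ θ in (φ - t)..(φ + t), U θ) + (∫ θ in (φ + t)..(φ + 2 * π - t), U θ) = 0 := by
    rw [intervalIntegral.integral_add_adjacent_intervals (hi _ _) (hi _ _)]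
    have h5 := period_shift hU.per (φ - t) (-π)
    have h6 : φ - t + 2 * π = φ + 2 * π - t := by ring
    have h7 : -π + 2 * π = π := by ring
    rw [h6, h7, hU.mean] at h5
    exact h5
  -- the integrals of `U0`
  have hev : ∀ s : ℝ, ∫ θ in (-s)..s, U0 θ = 2 * ∫ θ in (0 : ℝ)..s, U0 θ := by
    intro s
    have b1 : ∫ θ in (-s)..0, U0 θ = ∫ θ in (0 : ℝ)..s, U0 θ := by
      have := intervalIntegral.integral_comp_neg (a := 0) (b := s) (fun x => U0 x)
      simp only [neg_zero] at this
      rw [← this]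
      refine intervalIntegral.integral_congr fun θ _ => ?_
      exact U0_even θ
    rw [← intervalIntegral.integral_add_adjacent_intervals (U0_int (-s) 0) (U0_int 0 s), b1]
    ring
  have b2 : ∫ θ in t..π, U0 θ = - ∫ θ in (0 : ℝ)..t', U0 θ := by
    have := intervalIntegral.integral_comp_sub_left (a := t) (b := π) (fun x => U0 x) π
    rw [sub_self] at this
    rw [← ht'] at this
    rw [← this, ← intervalIntegral.integral_neg]
    refine intervalIntegral.integral_congr fun θ _ => ?_
    simp only [U0_anti, neg_neg]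
  have b3 : (∫ θ in (0 : ℝ)..t, U0 θ) + (∫ θ in t..π, U0 θ) = 0 := by
    rw [intervalIntegral.integral_add_adjacent_intervals (U0_int _ _) (U0_int _ _)]
    have := hev π
    rw [U0_total] at this
    linarith
  have b4 := hev t
  have b5 := hev t'
  rw [a1, b4]
  rw [a2, b5] at k
  linarith

end MP4a1962
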