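import Pool.Agent.Lib.MP_4a1962_an.Defs

/-!
# LogInt: local integrability of the logarithm

* `lg_locInt`: `lg` is locally integrable on the plane: `|lg ζ| ≤ ‖ζ‖⁻¹ + ‖ζ‖` for `ζ ≠ 0`
  and `‖ζ‖⁻¹` is integrable on balls (polar coordinates, `Complex.lintegral_comp_polarCoord_symm`),
  or by Fubini from the line.
* `lg_ball_bound`: `∫_{ball 0 ρ} |lg (b + ζ)| ≤ ∫_{ball 0 (ρ + B)} |lg|` for `‖b‖ ≤ B` (translation).
* `lg_line_int`: `lg (pt u v) = (1/2) log (u² + v²)`; for `u = 0` it is `log |v|`
  (`intervalIntegral.intervalIntegrable_log'`); for `u ≠ 0` continuous.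
-/

set_option autoImplicit false

open MeasureTheory Set Filter Topology
open scoped Real ENNReal NNReal

namespace MP4a1962

private theorem abs_lg_le (x y : ℝ) :
    |lg (pt x y)| ≤ (|Real.log x| + |Real.log y|) + (|x| + |y|) := by
  have h1 : |x| ≤ ‖pt x y‖ := Complex.abs_re_le_norm (pt x y)
  have h2 : ‖pt x y‖ ≤ |x| + |y| := Complex.norm_le_abs_re_add_abs_im (pt x y)
  have hx := abs_nonneg (Real.log x)
  have hy := abs_nonneg (Real.log y)
  by_cases hx0 : x = 0
  · subst hx0
    have h3 : lg (pt 0 y) = Real.log y := by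
      unfold lg
      have : ‖pt 0 y‖ = |y| := by
        apply le_antisymm
        · simpa using h2
        · exact Complex.abs_im_le_norm (pt 0 y)
      rw [this, Real.log_abs]
    rw [h3]
    have := abs_nonneg y
    simp only [Real.log_zero, abs_zero]
    linarith
  · have hxp : 0 < |x| := abs_pos.mpr hx0
    have h3 : Real.log |x| ≤ lg (pt x y) := Real.log_le_log hxp h1
    have h4 : lg (pt x y) ≤ ‖pt x y‖ - 1 := Real.log_le_sub_one_of_pos (lt_of_lt_of_le hxp h1)
    rw [Real.log_abs] at h3
    have h5 := neg_abs_le (Real.log x)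
    have h6 := abs_nonneg y
    rw [abs_le]
    constructor <;> linarith

private theorem log_int_Icc (R : ℝ) : IntegrableOn (fun x => |Real.log x|) (Icc (-R) R) := by
  by_cases hR : -R ≤ R
  · have h := (intervalIntegrable_iff_integrableOn_Icc_of_le hR).mp
      (intervalIntegral.intervalIntegrable_log' (a := -R) (b := R))
    exact h.abs
  · rw [Icc_eq_empty hR]
    exact integrableOn_empty

private theorem lg_ball0_int (R : ℝ) : IntegrableOn lg (Metric.ball (0 : ℂ) R) := by
  have h1 : Integrable (fun q : ℝ × ℝ => (|Real.log q.1| + |Real.log q.2|) + (|q.1| + |q.2|))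
      ((volume.restrict (Icc (-R) R)).prod (volume.restrict (Icc (-R) R))) := by
    have ha : IntegrableOn (fun x : ℝ => |x|) (Icc (-R) R) :=
      continuous_abs.integrableOn_Icc
    exact (((log_int_Icc R).comp_fst _).add ((log_int_Icc R).comp_snd _)).add
      ((ha.comp_fst _).add (ha.comp_snd _))
  have h2 : Integrable (fun q : ℝ × ℝ => lg (pt q.1 q.2))
      ((volume.restrict (Icc (-R) R)).prod (volume.restrict (Icc (-R) R))) := by
    refine h1.mono' (measurable_lg.comp measurable_pt).aestronglyMeasurable ?_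
    filter_upwards with q
    rw [Real.norm_eq_abs]
    exact abs_lg_le q.1 q.2
  rw [Measure.prod_restrict] at h2
  have h3 := (Complex.volume_preserving_equiv_real_prod.integrableOn_comp_preimage
    Complex.measurableEquivRealProd.measurableEmbedding
    (f := fun q : ℝ × ℝ => lg (pt q.1 q.2)) (s := Icc (-R) R ×ˢ Icc (-R) R)).mpr h2
  refine IntegrableOn.mono_set (f := lg) h3 ?_
  intro ζ hζ
  rw [Metric.mem_ball, dist_zero_right] at hζ
  have h4 := abs_le.mp ((Complex.abs_re_le_norm ζ).trans hζ.le)
  have h5 := abs_le.mp ((Complex.abs_im_le_norm ζ).trans hζ.le)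
  exact ⟨h4, h5⟩

theorem lg_locInt : LocallyIntegrable lg (volume : Measure ℂ) := by
  intro x
  refine ⟨Metric.ball 0 (‖x‖ + 1), ?_, lg_ball0_int _⟩
  apply Metric.isOpen_ball.mem_nhds
  rw [Metric.mem_ball, dist_zero_right]
  linarith

private theorem preim_ball (b : ℂ) (ρ : ℝ) :
    (fun ζ => b + ζ) ⁻¹' (Metric.ball b ρ) = Metric.ball (0 : ℂ) ρ := by
  ext ζ
  rw [mem_preimage, Metric.mem_ball, Metric.mem_ball, dist_zero_right, dist_eq_norm]
  simp

private theorem lg_ballb_int (b : ℂ) (ρ : ℝ) : IntegrableOn lg (Metric.ball b ρ) :=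
  (lg_locInt.integrableOn_isCompact (isCompact_closedBall b ρ)).mono_set Metric.ball_subset_closedBall

theorem lg_ball_int (b : ℂ) (ρ : ℝ) :
    IntegrableOn (fun ζ => lg (b + ζ)) (Metric.ball (0 : ℂ) ρ) := by
  have h := ((measurePreserving_add_left volume b).integrableOn_comp_preimage
    (measurableEmbedding_addLeft b) (f := lg) (s := Metric.ball b ρ)).mpr (lg_ballb_int b ρ)
  rw [preim_ball] at h
  exact h

theorem lg_ball_bound (B ρ : ℝ) : ∃ C : ℝ, ∀ b : ℂ, ‖b‖ ≤ B →
    ∫ ζ in Metric.ball (0 : ℂ) ρ, |lg (b + ζ)| ≤ C := by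
  refine ⟨∫ ζ in Metric.ball (0 : ℂ) (ρ + B), |lg ζ|, ?_⟩
  intro b hb
  have h1 := (measurePreserving_add_left volume b).setIntegral_preimage_emb
    (measurableEmbedding_addLeft b) (fun ζ => |lg ζ|) (Metric.ball b ρ)
  rw [preim_ball] at h1
  rw [h1]
  refine setIntegral_mono_set (lg_ball0_int _).abs ?_ ?_
  · filter_upwards with ζ
    exact abs_nonneg _
  · refine Filter.Eventually.of_forall ?_
    intro ζ hζ
    have hζ' : ζ ∈ Metric.ball b ρ := hζ
    rw [Metric.mem_ball, dist_eq_norm] at hζ'
    show ζ ∈ Metric.ball (0 : ℂ) (ρ + B)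
    rw [Metric.mem_ball, dist_zero_right]
    calc ‖ζ‖ = ‖(ζ - b) + b‖ := by rw [sub_add_cancel]
      _ ≤ ‖ζ - b‖ + ‖b‖ := norm_add_le _ _
      _ < ρ + B := by linarith

theorem lg_line_int (u a b : ℝ) : IntervalIntegrable (fun v => lg (pt u v)) volume a b := by
  by_cases hu : u = 0
  · subst hu
    have h : (fun v => lg (pt 0 v)) = Real.log := by
      funext v
      unfold lg
      have : ‖pt 0 v‖ = |v| := by
        apply le_antisymm
        · have := Complex.norm_le_abs_re_add_abs_im (pt 0 v)
          simpa using this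
        · exact Complex.abs_im_le_norm (pt 0 v)
      rw [this, Real.log_abs]
    rw [h]
    exact intervalIntegral.intervalIntegrable_log'
  · apply Continuous.intervalIntegrable
    unfold lg
    apply Continuous.log
    · exact (continuous_pt_right u).norm
    · intro v hv
      rw [norm_eq_zero] at hv
      apply hu
      have := congrArg Complex.re hv
      simpa using this

end MP4a1962
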