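import Pool.Agent.Lib.MP_4a1962_an.Disc
import Pool.Agent.Lib.MP_4a1962_an.LogInt

/-!
# LogDisc: disc means of the logarithm, the correction terms `Jcor`, `Pcor`

* circle averages: `circleAverage_log_norm_sub_const_eq_log_radius_add_posLog`:
  `circleAverage (log ‖· - a‖) c R = log R + log⁺ (R⁻¹ ‖c - a‖)`, which is `≥ log ‖c - a‖` for
  `c ≠ a`, with equality if `R ≤ ‖c - a‖`. Then `dInt_ge_of_circle`, `dInt_eq_of_circle` (`a = 0`).
* `Jcor_eq`: linearity (`volume (ball 0 ρ) = π ρ²`, `Complex.volume_ball`).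
* `Jcor_line`: `|Jcor ρ (pt u v)| ≤ C + π ρ² |lg (pt u v)|` for `|v| ≤ ρ` (`lg_ball_bound`), `Jcor = 0` for
  `|v| ≥ ρ`; `lg_line_int`. Measurability of `w ↦ Jcor ρ w`: `StronglyMeasurable.integral_prod_right`.
-/

set_option autoImplicit false

open MeasureTheory Set Filter Topology
open scoped Real ENNReal NNReal

namespace MP4a1962

private theorem circ_lg (b : ℂ) {r : ℝ} (hr : 0 < r) :
    Real.circleAverage lg b r = Real.log r + Real.posLog (r⁻¹ * ‖b‖) := by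
  have h := circleAverage_log_norm_sub_const_eq_log_radius_add_posLog (a := 0) (c := b) hr.ne'
  rw [sub_zero] at h
  rw [← h]
  congr 1
  funext z
  unfold lg
  rw [sub_zero]

theorem dInt_lg_ge {b : ℂ} (hb : b ≠ 0) {ρ : ℝ} (hρ : 0 < ρ) :
    π * ρ ^ 2 * lg b ≤ dInt ρ lg b := by
  refine dInt_ge_of_circle hρ.le (lg_ball_int b ρ) ?_
  intro r hr
  have hb' : 0 < ‖b‖ := norm_pos_iff.mpr hb
  rw [circ_lg b hr.1]
  have h1 : Real.log (r⁻¹ * ‖b‖) ≤ Real.posLog (r⁻¹ * ‖b‖) := le_max_right _ _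
  rw [Real.log_mul (inv_ne_zero hr.1.ne') hb'.ne', Real.log_inv] at h1
  unfold lg
  linarith

theorem dInt_lg_eq {b : ℂ} {ρ : ℝ} (hρ : 0 < ρ) (hb : ρ ≤ ‖b‖) :
    dInt ρ lg b = π * ρ ^ 2 * lg b := by
  refine dInt_eq_of_circle hρ.le (lg_ball_int b ρ) ?_
  intro r hr
  have hb' : 0 < ‖b‖ := lt_of_lt_of_le hρ hb
  rw [circ_lg b hr.1]
  have h1 : Real.posLog (r⁻¹ * ‖b‖) = Real.log (r⁻¹ * ‖b‖) := by
    apply Real.posLog_eq_log
    have h2 : 1 ≤ r⁻¹ * ‖b‖ := by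
      rw [inv_mul_eq_div, one_le_div hr.1]
      exact (hr.2.le).trans hb
    exact h2.trans (le_abs_self _)
  rw [h1, Real.log_mul (inv_ne_zero hr.1.ne') hb'.ne', Real.log_inv]
  unfold lg
  ring

private theorem vol_ball (ρ : ℝ) (hρ : 0 < ρ) : volume.real (Metric.ball (0 : ℂ) ρ) = π * ρ ^ 2 := by
  rw [measureReal_def, Complex.volume_ball, ENNReal.toReal_mul, ENNReal.toReal_pow,
    ENNReal.toReal_ofReal hρ.le, mul_comm]
  rfl

private theorem const_int (c : ℝ) (ρ : ℝ) :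
    IntegrableOn (fun _ : ℂ => c) (Metric.ball (0 : ℂ) ρ) := by
  apply integrableOn_const
  · exact measure_ball_lt_top.ne
  · exact enorm_ne_top

theorem Jcor_eq {ρ : ℝ} (hρ : 0 < ρ) (w : ℂ) : Jcor ρ w = dInt ρ lg w - π * ρ ^ 2 * lg w := by
  unfold Jcor dInt
  rw [integral_sub (lg_ball_int w ρ) (const_int _ ρ), setIntegral_const, vol_ball ρ hρ, smul_eq_mul]

theorem Jcor_nonneg {ρ : ℝ} (hρ : 0 < ρ) {w : ℂ} (hw : w ≠ 0) : 0 ≤ Jcor ρ w := by
  rw [Jcor_eq hρ]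
  linarith [dInt_lg_ge hw hρ]

theorem Jcor_zero {ρ : ℝ} (hρ : 0 < ρ) {w : ℂ} (hw : ρ ≤ ‖w‖) : Jcor ρ w = 0 := by
  rw [Jcor_eq hρ, dInt_lg_eq hρ hw, sub_self]

theorem measurable_Jcor (ρ : ℝ) : Measurable (Jcor ρ) := by
  have h1 : Measurable (fun q : ℂ × ℂ => lg (q.1 + q.2) - lg q.1) := by fun_prop
  exact (h1.stronglyMeasurable.integral_prod_right'
    (ν := volume.restrict (Metric.ball (0 : ℂ) ρ))).measurable

theorem Jcor_line {ρ : ℝ} (hρ : 0 < ρ) (u : ℝ) : Integrable (fun v => Jcor ρ (pt u v)) := by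
  obtain ⟨C, hC⟩ := lg_ball_bound (|u| + ρ) ρ
  have hmeas : Measurable (fun v => Jcor ρ (pt u v)) :=
    (measurable_Jcor ρ).comp (measurable_pt_right u)
  have h1 : IntegrableOn (fun v => Jcor ρ (pt u v)) (Icc (-ρ) ρ) := by
    have h2 : IntegrableOn (fun v => C + π * ρ ^ 2 * |lg (pt u v)|) (Icc (-ρ) ρ) := by
      have h3 := (intervalIntegrable_iff_integrableOn_Icc_of_le (by linarith : -ρ ≤ ρ)).mp
        (lg_line_int u (-ρ) ρ)
      have h4 : IntegrableOn (fun _ : ℝ => C) (Icc (-ρ) ρ) := continuous_const.integrableOn_Icc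
      exact h4.add (h3.abs.const_mul _)
    refine Integrable.mono' h2 hmeas.aestronglyMeasurable ?_
    rw [ae_restrict_iff' measurableSet_Icc]
    filter_upwards with v hv
    have hv' : |v| ≤ ρ := abs_le.mpr hv
    have hn : ‖pt u v‖ ≤ |u| + ρ := by
      have := Complex.norm_le_abs_re_add_abs_im (pt u v)
      simp only [pt_re, pt_im] at this
      linarith
    have h5 : |dInt ρ lg (pt u v)| ≤ C := (abs_integral_le_integral_abs).trans (hC _ hn)
    have hp : 0 ≤ π * ρ ^ 2 := by positivity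
    rw [Real.norm_eq_abs, Jcor_eq hρ]
    calc |dInt ρ lg (pt u v) - π * ρ ^ 2 * lg (pt u v)|
        ≤ |dInt ρ lg (pt u v)| + |π * ρ ^ 2 * lg (pt u v)| := abs_sub _ _
      _ = |dInt ρ lg (pt u v)| + π * ρ ^ 2 * |lg (pt u v)| := by rw [abs_mul, abs_of_nonneg hp]
      _ ≤ C + π * ρ ^ 2 * |lg (pt u v)| := by linarith
  refine (integrableOn_iff_integrable_of_support_subset ?_).mp h1
  intro v hv
  rw [Function.mem_support] at hv
  by_contra h
  apply hv
  apply Jcor_zero hρ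
  have h2 : ρ ≤ |v| := by
    by_contra h3
    push Not at h3
    exact h (abs_le.mp h3.le)
  exact h2.trans (Complex.abs_im_le_norm (pt u v))

end MP4a1962
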