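import Pool.Agent.Lib.MP_4a1962_an.DiscCart

/-!
# MaxPr: the maximum principle on the rectangle `[-M, M] × [0, π]`

Proof. Suppose `D w₁ > 0`. Put `ε = D w₁ / 32 > 0`, `E w = D w + ε (4 - w.im)²`. `E` is continuous on
the compact rectangle `Q` (closed and bounded in `ℂ`); let `w₀` be a maximum point, so
`E w₀ ≥ E w₁ ≥ D w₁ = 32 ε > 16 ε`. On the bottom and on the sides `E ≤ 0 + 16 ε`
(`0 ≤ im ≤ π < 4`, `Real.pi_lt_four`), so `w₀.im > 0` and `|w₀.re| < M`. If `w₀.im = π`, choose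
`s ∈ [s1, π)`, `s ≥ 0`: `E (pt u s) - E (pt u π) = D (pt u s) - D (pt u π) +
ε ((4 - s)² - (4 - π)²) > 0`, contradiction. So `0 < w₀.im < π`; let
`ρ = min (min w₀.im (π - w₀.im)) (M - |w₀.re|) > 0`; the ball of radius `ρ` around `w₀` lies in `Q`.
`dInt ρ E w₀ ≤ π ρ² E w₀` (maximum; `volume (ball 0 ρ) = π ρ²`, `Complex.volume_ball`). But
`dInt ρ E w₀ = dInt ρ D w₀ + ε ∫ ζ in ball, (4 - w₀.im - ζ.im)²`
`≥ π ρ² D w₀ + ε (π ρ² (4 - w₀.im)² + ∫ ζ in ball, ζ.im²)` (`∫ ζ in ball, ζ.im = 0` by the symmetry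
`ζ ↦ -ζ`) `> π ρ² E w₀` since `∫ ζ in ball, ζ.im² > 0`. Contradiction.
-/

set_option autoImplicit false

open MeasureTheory Set Filter Topology
open scoped Real ENNReal NNReal

namespace MP4a1962

private lemma vol_ball {ρ : ℝ} (hρ : 0 ≤ ρ) :
    volume.real (Metric.ball (0 : ℂ) ρ) = π * ρ ^ 2 := by
  rw [Measure.real, Complex.volume_ball, ENNReal.toReal_mul, ENNReal.toReal_pow,
    ENNReal.toReal_ofReal hρ, mul_comm]
  rfl

private lemma cont_int {f : ℂ → ℝ} (hf : Continuous f) (ρ : ℝ) :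
    IntegrableOn f (Metric.ball (0 : ℂ) ρ) :=
  (hf.continuousOn.integrableOn_compact (isCompact_closedBall 0 ρ)).mono_set
    Metric.ball_subset_closedBall

private lemma int_im (ρ : ℝ) : ∫ ζ in Metric.ball (0 : ℂ) ρ, ζ.im = 0 := by
  have h1 : ∫ ζ in Metric.ball (0 : ℂ) ρ, (-ζ).im = ∫ ζ in Metric.ball (0 : ℂ) ρ, ζ.im := by
    have h2 := (Measure.measurePreserving_neg (volume : Measure ℂ)).setIntegral_preimage_emb
      (MeasurableEquiv.neg ℂ).measurableEmbedding (fun ζ : ℂ => ζ.im) (Metric.ball (0 : ℂ) ρ)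
    have h3 : Neg.neg ⁻¹' (Metric.ball (0 : ℂ) ρ) = Metric.ball (0 : ℂ) ρ := by
      ext z
      simp
    rw [h3] at h2
    exact h2
  have h2 : ∫ ζ in Metric.ball (0 : ℂ) ρ, (-ζ).im = -∫ ζ in Metric.ball (0 : ℂ) ρ, ζ.im := by
    simp only [Complex.neg_im]
    rw [integral_neg]
  linarith

private lemma int_im_sq {ρ : ℝ} (hρ : 0 < ρ) : 0 < ∫ ζ in Metric.ball (0 : ℂ) ρ, ζ.im ^ 2 := by
  rw [setIntegral_pos_iff_support_of_nonneg_ae]
  · have hopen : IsOpen ({z : ℂ | 0 < z.im} ∩ Metric.ball (0 : ℂ) ρ) :=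
      (isOpen_lt continuous_const Complex.continuous_im).inter Metric.isOpen_ball
    have hne : ({z : ℂ | 0 < z.im} ∩ Metric.ball (0 : ℂ) ρ).Nonempty := by
      refine ⟨pt 0 (ρ / 2), ?_, ?_⟩
      · change 0 < ρ / 2
        linarith
      · rw [Metric.mem_ball, dist_zero_right]
        have : ‖pt 0 (ρ / 2)‖ ≤ |(0 : ℝ)| + |ρ / 2| := Complex.norm_le_abs_re_add_abs_im _
        rw [abs_zero, zero_add, abs_of_pos (by linarith)] at this
        linarith
    refine (hopen.measure_pos volume hne).trans_le (measure_mono ?_)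
    rintro z ⟨hz, hz'⟩
    exact ⟨ne_of_gt (pow_pos (show (0 : ℝ) < z.im from hz) 2), hz'⟩
  · exact Eventually.of_forall (fun z => sq_nonneg _)
  · exact cont_int (Complex.continuous_im.pow 2) ρ

theorem max_pr (D : ℂ → ℝ) {M s1 : ℝ} (hM : 0 < M) (hs0 : 0 ≤ s1) (hs1 : s1 < π)
    (hcont : ContinuousOn D {w : ℂ | |w.re| ≤ M ∧ 0 ≤ w.im ∧ w.im ≤ π})
    (hbot : ∀ w : ℂ, w.im = 0 → |w.re| ≤ M → D w ≤ 0)
    (hside : ∀ w : ℂ, |w.re| = M → 0 ≤ w.im → w.im ≤ π → D w ≤ 0)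
    (htop : ∀ u s : ℝ, |u| ≤ M → s1 ≤ s → s ≤ π → D (pt u π) ≤ D (pt u s))
    (hsub : ∀ (w : ℂ) (ρ : ℝ), 0 < ρ → |w.re| + ρ ≤ M → ρ ≤ w.im → w.im + ρ ≤ π →
      π * ρ ^ 2 * D w ≤ dInt ρ D w) :
    ∀ w : ℂ, |w.re| ≤ M → 0 ≤ w.im → w.im ≤ π → D w ≤ 0 := by
  intro w1 h1 h2 h3
  by_contra hpos
  push Not at hpos
  set ε : ℝ := D w1 / 32 with hε
  have hε0 : 0 < ε := by positivity
  set Q : Set ℂ := {w : ℂ | |w.re| ≤ M ∧ 0 ≤ w.im ∧ w.im ≤ π} with hQ
  have hQc : IsCompact Q := by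
    have h4 : Q = Icc (-M) M ×ℂ Icc 0 π := by
      ext w
      rw [Complex.mem_reProdIm, mem_Icc, mem_Icc, ← abs_le]
      exact Iff.rfl
    rw [h4]
    exact IsCompact.reProdIm isCompact_Icc isCompact_Icc
  let E : ℂ → ℝ := fun w => D w + ε * (4 - w.im) ^ 2
  have hEc : ContinuousOn E Q :=
    hcont.add (continuous_const.mul ((continuous_const.sub Complex.continuous_im).pow 2)).continuousOn
  obtain ⟨w0, hw0Q, hw0⟩ := hQc.exists_isMaxOn ⟨w1, h1, h2, h3⟩ hEc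
  have hmax : ∀ w ∈ Q, E w ≤ E w0 := fun w hw => hw0 hw
  obtain ⟨g1, g2, g3⟩ := hw0Q
  have hE1 : 32 * ε ≤ E w0 := by
    refine le_trans ?_ (hmax w1 ⟨h1, h2, h3⟩)
    change 32 * ε ≤ D w1 + ε * (4 - w1.im) ^ 2
    have : 0 ≤ ε * (4 - w1.im) ^ 2 := by positivity
    rw [hε] at this ⊢
    linarith
  have hπ4 := Real.pi_lt_four
  have hsq : (4 - w0.im) ^ 2 ≤ 16 := by nlinarith
  have hE0 : E w0 ≤ D w0 + 16 * ε := by
    change D w0 + ε * (4 - w0.im) ^ 2 ≤ D w0 + 16 * ε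
    nlinarith
  have hD0 : 0 < D w0 := by linarith
  have him0 : 0 < w0.im := by
    rcases g2.lt_or_eq with h | h
    · exact h
    · have := hbot w0 h.symm g1
      linarith
  have hre : |w0.re| < M := by
    rcases g1.lt_or_eq with h | h
    · exact h
    · have := hside w0 h g2 g3
      linarith
  have himπ : w0.im < π := by
    rcases g3.lt_or_eq with h | h
    · exact h
    · exfalso
      have h4 := hmax (pt w0.re s1) ⟨g1, hs0, hs1.le⟩
      have h5 := htop w0.re s1 g1 le_rfl hs1.le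
      have h6 : pt w0.re π = w0 := by rw [← h]; exact pt_eta w0
      rw [h6] at h5
      have h7 : E (pt w0.re s1) = D (pt w0.re s1) + ε * (4 - s1) ^ 2 := rfl
      have h8 : E w0 = D w0 + ε * (4 - π) ^ 2 := by rw [← h]
      rw [h7, h8] at h4
      have h9 : (4 - π) ^ 2 < (4 - s1) ^ 2 := by nlinarith
      nlinarith
  set ρ : ℝ := min (min w0.im (π - w0.im)) (M - |w0.re|) with hρdef
  have hρ : 0 < ρ := by
    rw [hρdef]
    exact lt_min (lt_min him0 (by linarith)) (by linarith)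
  have hρ1 : ρ ≤ w0.im := (min_le_left _ _).trans (min_le_left _ _)
  have hρ2 : ρ ≤ π - w0.im := (min_le_left _ _).trans (min_le_right _ _)
  have hρ3 : ρ ≤ M - |w0.re| := min_le_right _ _
  have hball : ∀ ζ ∈ Metric.closedBall (0 : ℂ) ρ, w0 + ζ ∈ Q := by
    intro ζ hζ
    rw [Metric.mem_closedBall, dist_zero_right] at hζ
    have a1 := (Complex.abs_re_le_norm ζ).trans hζ
    have a2 := (Complex.abs_im_le_norm ζ).trans hζ
    rw [abs_le] at a2
    refine ⟨?_, ?_, ?_⟩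
    · rw [Complex.add_re]
      have := abs_add_le w0.re ζ.re
      linarith
    · rw [Complex.add_im]
      linarith [a2.1]
    · rw [Complex.add_im]
      linarith [a2.2]
  have hDint : IntegrableOn (fun ζ => D (w0 + ζ)) (Metric.ball (0 : ℂ) ρ) := by
    have hc : ContinuousOn (fun ζ => D (w0 + ζ)) (Metric.closedBall (0 : ℂ) ρ) :=
      hcont.comp (continuous_const.add continuous_id).continuousOn hball
    exact (hc.integrableOn_compact (isCompact_closedBall 0 ρ)).mono_set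
      Metric.ball_subset_closedBall
  have hs := hsub w0 ρ hρ (by linarith) hρ1 (by linarith)
  set a : ℝ := 4 - w0.im with ha
  have hle : dInt ρ D w0 ≤
      ∫ ζ in Metric.ball (0 : ℂ) ρ, (E w0 - ε * (a ^ 2 - 2 * a * ζ.im + ζ.im ^ 2)) := by
    unfold dInt
    apply setIntegral_mono_on hDint _ measurableSet_ball
    · intro ζ hζ
      have h4 := hmax (w0 + ζ) (hball ζ (Metric.ball_subset_closedBall hζ))
      have h5 : E (w0 + ζ) = D (w0 + ζ) + ε * (a ^ 2 - 2 * a * ζ.im + ζ.im ^ 2) := by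
        change D (w0 + ζ) + ε * (4 - (w0 + ζ).im) ^ 2 = _
        rw [Complex.add_im, ha]
        ring
      rw [h5] at h4
      linarith
    · exact cont_int (by fun_prop) ρ
  have e0 : IntegrableOn (fun ζ : ℂ => ζ.im) (Metric.ball (0 : ℂ) ρ) :=
    cont_int Complex.continuous_im ρ
  have e2 : IntegrableOn (fun ζ : ℂ => ζ.im ^ 2) (Metric.ball (0 : ℂ) ρ) :=
    cont_int (Complex.continuous_im.pow 2) ρ
  have hcomp : ∫ ζ in Metric.ball (0 : ℂ) ρ, (E w0 - ε * (a ^ 2 - 2 * a * ζ.im + ζ.im ^ 2)) =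
      π * ρ ^ 2 * (E w0 - ε * a ^ 2) - ε * ∫ ζ in Metric.ball (0 : ℂ) ρ, ζ.im ^ 2 := by
    have h4 : (fun ζ : ℂ => E w0 - ε * (a ^ 2 - 2 * a * ζ.im + ζ.im ^ 2)) =
        fun ζ : ℂ => (E w0 - ε * a ^ 2) + ((2 * a * ε) * ζ.im - ε * ζ.im ^ 2) := by
      funext ζ
      ring
    rw [h4]
    generalize E w0 - ε * a ^ 2 = c0
    have e3 : IntegrableOn (fun ζ : ℂ => 2 * a * ε * ζ.im - ε * ζ.im ^ 2)
        (Metric.ball (0 : ℂ) ρ) := (e0.const_mul _).sub (e2.const_mul _)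
    rw [integral_add (cont_int continuous_const ρ) e3,
      integral_sub (e0.const_mul _) (e2.const_mul _), integral_const_mul, integral_const_mul,
      int_im, setIntegral_const, vol_ball hρ.le, smul_eq_mul]
    ring
  have hpos2 := int_im_sq hρ
  have hEw : E w0 = D w0 + ε * a ^ 2 := rfl
  rw [hcomp, hEw] at hle
  have h10 : π * ρ ^ 2 * (D w0 + ε * a ^ 2 - ε * a ^ 2) = π * ρ ^ 2 * D w0 := by ring
  rw [h10] at hle
  have h11 : 0 < ε * ∫ ζ in Metric.ball (0 : ℂ) ρ, ζ.im ^ 2 := mul_pos hε0 hpos2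
  linarith

end MP4a1962
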