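import Pool.Agent.Lib.MP_4a1962_an.LineLog

/-!
# NLine: the counting function `N` on vertical lines

Let `PotData μ N M`. Base line: `u₀ = -M`, where `N = 0`. For `v ≠ 0` and every `u`
`N (pt u v) = N (pt u v) - N (pt (-M) v)
 = ∫ a, (lg (a - pt u v) - lg (a - pt (-M) v)) ∂μ - (lg (pt u v) - lg (pt (-M) v))`
(`eq`, `int`, `pt (-M) v ≠ 0` since `M > 0`; `pt u v ≠ 0` for `v ≠ 0`), and
`a - pt u v = pt (a.re - u) (a.im - v)`, `lg (a - pt u v) = lg (pt (a.re - u) (v - a.im))`
(`lg (pt x (-y)) = lg (pt x y)`). Put `D u u' := ` the same with `u'` in place of `-M`.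
By `line_log_abs` (`b = a.im`): for each `a`, `∫ v, |lg (a - pt u v) - lg (a - pt u' v)| =
π ||a.re - u| - |a.re - u'|| ≤ π |u - u'|`, so the function of `(a, v)` is integrable for
`μ.prod volume` (`integrable_prod_iff`, joint measurability of `lg (a - pt u v)`), hence
`v ↦ ∫ a, (...) ∂μ` is integrable, giving `N_line_int` and `N_line_lip` (`π |u-u'|` twice), and
Fubini with `line_log_integral` gives (`|a.re + M| = a.re + M` for `μ`-a.e. `a`, `∫ a.re ∂μ = 0`)
`∫ v, N (pt u v) = π ∫ a, (|a.re - u| - |a.re + M|) ∂μ - π (|u| - M) = π (∫ |a.re - u| ∂μ - |u|)`.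
-/

set_option autoImplicit false

open MeasureTheory Set Filter Topology
open scoped Real ENNReal NNReal

namespace MP4a1962

variable {μ : Measure ℂ} {N : ℂ → ℝ} {M : ℝ}

/-- the kernel of the difference of `N` on two lines -/
private noncomputable def Gk (u u' : ℝ) (q : ℂ × ℝ) : ℝ :=
  lg (q.1 - pt u q.2) - lg (q.1 - pt u' q.2)

private lemma lg_flip (a : ℂ) (u v : ℝ) : lg (a - pt u v) = lg (pt (a.re - u) (v - a.im)) := by
  have h : ‖a - pt u v‖ = ‖pt (a.re - u) (v - a.im)‖ := by
    rw [Complex.norm_def, Complex.norm_def]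
    congr 1
    rw [Complex.normSq_apply, Complex.normSq_apply]
    simp only [Complex.sub_re, Complex.sub_im, pt_re, pt_im]
    ring
  unfold lg
  rw [h]

private lemma Gk_eq (u u' : ℝ) (a : ℂ) (v : ℝ) :
    Gk u u' (a, v) = lg (pt (a.re - u) (v - a.im)) - lg (pt (a.re - u') (v - a.im)) := by
  unfold Gk
  simp only
  rw [lg_flip, lg_flip]

private lemma measurable_Gk (u u' : ℝ) : Measurable (Gk u u') := by
  have h : ∀ u : ℝ, Measurable (fun q : ℂ × ℝ => lg (q.1 - pt u q.2)) := fun u =>
    measurable_lg.comp (measurable_fst.sub ((measurable_pt_right u).comp measurable_snd))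
  exact (h u).sub (h u')

private lemma abs_diff_le (x u u' : ℝ) : |(|x - u| - |x - u'|)| ≤ |u - u'| := by
  refine (abs_abs_sub_abs_le_abs_sub _ _).trans ?_
  have : x - u - (x - u') = -(u - u') := by ring
  rw [this, abs_neg]

private lemma Gk_int_norm (u u' : ℝ) (a : ℂ) :
    ∫ v, ‖Gk u u' (a, v)‖ = π * |(|a.re - u| - |a.re - u'|)| := by
  rw [← line_log_abs (a.re - u') (a.re - u) a.im]
  refine integral_congr_ae (Filter.Eventually.of_forall (fun v => ?_))
  simp only
  rw [Gk_eq, Real.norm_eq_abs]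

private lemma Gk_integrable (hD : PotData μ N M) (u u' : ℝ) :
    Integrable (Gk u u') (μ.prod volume) := by
  have := hD.prob
  rw [integrable_prod_iff (measurable_Gk u u').aestronglyMeasurable]
  constructor
  · refine Filter.Eventually.of_forall (fun a => ?_)
    simp only [Gk_eq]
    exact line_log_int _ _ _
  · simp only [Gk_int_norm]
    refine Integrable.of_bound (C := π * |u - u'|) ?_ ?_
    · exact (by fun_prop : Measurable
        (fun a : ℂ => π * |(|a.re - u| - |a.re - u'|)|)).aestronglyMeasurable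
    · refine Filter.Eventually.of_forall (fun a => ?_)
      rw [Real.norm_eq_abs, abs_mul, abs_of_pos Real.pi_pos, abs_abs]
      exact mul_le_mul_of_nonneg_left (abs_diff_le _ _ _) Real.pi_pos.le

private lemma pt_ne (u : ℝ) {v : ℝ} (hv : v ≠ 0) : pt u v ≠ 0 := fun h => by
  have := congrArg Complex.im h
  simp at this
  exact hv this

private lemma N_diff (hD : PotData μ N M) (u u' : ℝ) {v : ℝ} (hv : v ≠ 0) :
    N (pt u v) - N (pt u' v) = (∫ a, Gk u u' (a, v) ∂μ) -
      (lg (pt u (v - 0)) - lg (pt u' (v - 0))) := by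
  rw [hD.eq _ (pt_ne u hv), hD.eq _ (pt_ne u' hv), sub_zero]
  have h1 : ∫ a, Gk u u' (a, v) ∂μ = (∫ a, lg (a - pt u v) ∂μ) - ∫ a, lg (a - pt u' v) ∂μ := by
    exact integral_sub (hD.int (pt u v)) (hD.int (pt u' v))
  rw [h1]
  ring

private lemma ae_ne_zero : ∀ᵐ v : ℝ, v ≠ 0 := by
  rw [ae_iff]
  simp

private lemma N_diff_ae (hD : PotData μ N M) (u u' : ℝ) :
    (fun v => N (pt u v) - N (pt u' v)) =ᵐ[volume] fun v => (∫ a, Gk u u' (a, v) ∂μ) -
      (lg (pt u (v - 0)) - lg (pt u' (v - 0))) := by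
  filter_upwards [ae_ne_zero] with v hv
  exact N_diff hD u u' hv

private lemma inner_int (hD : PotData μ N M) (u u' : ℝ) :
    Integrable (fun v => ∫ a, Gk u u' (a, v) ∂μ) := by
  have := hD.prob
  exact (Gk_integrable hD u u').integral_prod_right

private lemma N_diff_int (hD : PotData μ N M) (u u' : ℝ) :
    Integrable (fun v => N (pt u v) - N (pt u' v)) :=
  ((inner_int hD u u').sub (line_log_int u' u 0)).congr (N_diff_ae hD u u').symm

private lemma N_base (hD : PotData μ N M) (v : ℝ) : N (pt (-M) v) = 0 :=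
  hD.zero _ (by rw [pt_re, abs_neg]; exact le_abs_self M)

theorem N_line_int (hD : PotData μ N M) (u : ℝ) : Integrable (fun v => N (pt u v)) := by
  have h := N_diff_int hD u (-M)
  refine h.congr (Filter.Eventually.of_forall (fun v => ?_))
  simp only
  rw [N_base hD, sub_zero]

theorem N_line_lip (hD : PotData μ N M) (u u' : ℝ) :
    ∫ v, |N (pt u v) - N (pt u' v)| ≤ 2 * π * |u - u'| := by
  have := hD.prob
  have h1 : ∫ v, |N (pt u v) - N (pt u' v)| ≤ ∫ v, (|∫ a, Gk u u' (a, v) ∂μ| +
      |lg (pt u (v - 0)) - lg (pt u' (v - 0))|) := by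
    refine integral_mono_ae (N_diff_int hD u u').abs
      ((inner_int hD u u').abs.add (line_log_int u' u 0).abs) ?_
    filter_upwards [N_diff_ae hD u u'] with v hv
    rw [hv]
    exact abs_sub _ _
  have h2 : ∫ v, |∫ a, Gk u u' (a, v) ∂μ| ≤ π * |u - u'| := by
    calc ∫ v, |∫ a, Gk u u' (a, v) ∂μ| ≤ ∫ v, ∫ a, ‖Gk u u' (a, v)‖ ∂μ := by
          refine integral_mono (inner_int hD u u').abs
            (Gk_integrable hD u u').norm.integral_prod_right (fun v => ?_)
          have := norm_integral_le_integral_norm (μ := μ) (fun a => Gk u u' (a, v))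
          rwa [Real.norm_eq_abs] at this
      _ = ∫ a, (∫ v, ‖Gk u u' (a, v)‖) ∂μ :=
          (integral_integral_swap (f := fun a v => ‖Gk u u' (a, v)‖)
            (Gk_integrable hD u u').norm).symm
      _ = ∫ a, π * |(|a.re - u| - |a.re - u'|)| ∂μ := by
          simp only [Gk_int_norm]
      _ ≤ ∫ a, π * |u - u'| ∂μ := by
          refine integral_mono_of_nonneg (Filter.Eventually.of_forall (fun a => ?_))
            (integrable_const _) (Filter.Eventually.of_forall (fun a => ?_))
          · positivity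
          · exact mul_le_mul_of_nonneg_left (abs_diff_le _ _ _) Real.pi_pos.le
      _ = π * |u - u'| := by simp
  have h3 : ∫ v, |lg (pt u (v - 0)) - lg (pt u' (v - 0))| ≤ π * |u - u'| := by
    rw [line_log_abs]
    exact mul_le_mul_of_nonneg_left (abs_abs_sub_abs_le_abs_sub _ _) Real.pi_pos.le
  have h4 : ∫ v, (|∫ a, Gk u u' (a, v) ∂μ| + |lg (pt u (v - 0)) - lg (pt u' (v - 0))|) =
      (∫ v, |∫ a, Gk u u' (a, v) ∂μ|) + ∫ v, |lg (pt u (v - 0)) - lg (pt u' (v - 0))| :=
    integral_add (inner_int hD u u').abs (line_log_int u' u 0).abs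
  rw [h4] at h1
  linarith

theorem N_line_integral (hD : PotData μ N M) (u : ℝ) :
    ∫ v, N (pt u v) = π * ((∫ a, |a.re - u| ∂μ) - |u|) := by
  have := hD.prob
  have hM := hD.Mpos
  have h1 : ∫ v, N (pt u v) = (∫ v, ∫ a, Gk u (-M) (a, v) ∂μ) -
      ∫ v, (lg (pt u (v - 0)) - lg (pt (-M) (v - 0))) := by
    rw [← integral_sub (inner_int hD u (-M)) (line_log_int (-M) u 0)]
    rw [← integral_congr_ae (N_diff_ae hD u (-M))]
    simp only [N_base hD, sub_zero]
  have h2 : ∫ v, ∫ a, Gk u (-M) (a, v) ∂μ = ∫ a, π * (|a.re - u| - |a.re - (-M)|) ∂μ := by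
    rw [← integral_integral_swap (f := fun a v => Gk u (-M) (a, v)) (Gk_integrable hD u (-M))]
    refine integral_congr_ae (Filter.Eventually.of_forall (fun a => ?_))
    simp only [Gk_eq]
    rw [line_log_integral]
  have hre : ∀ᵐ a ∂μ, |a.re| ≤ M := by
    filter_upwards [hD.supp] with a ha
    exact (Complex.abs_re_le_norm a).trans ha
  have hint1 : Integrable (fun a : ℂ => |a.re - u|) μ := by
    refine Integrable.of_bound (C := M + |u|) (by fun_prop) ?_
    filter_upwards [hre] with a ha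
    rw [Real.norm_eq_abs, abs_abs]
    exact (abs_sub _ _).trans (by linarith)
  have hint2 : Integrable (fun a : ℂ => a.re) μ := by
    refine Integrable.of_bound (C := M) (by fun_prop) ?_
    filter_upwards [hre] with a ha
    rw [Real.norm_eq_abs]
    exact ha
  have h3 : ∫ a, π * (|a.re - u| - |a.re - (-M)|) ∂μ = π * ((∫ a, |a.re - u| ∂μ) - M) := by
    rw [integral_const_mul]
    congr 1
    have h4 : ∫ a, (|a.re - u| - |a.re - (-M)|) ∂μ = ∫ a, (|a.re - u| - (a.re + M)) ∂μ := by
      refine integral_congr_ae ?_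
      filter_upwards [hre] with a ha
      have := abs_le.1 ha
      rw [sub_neg_eq_add, abs_of_nonneg (by linarith : 0 ≤ a.re + M)]
    have hint3 : Integrable (fun a : ℂ => a.re + M) μ := hint2.add (integrable_const M)
    have h5 : ∫ a, (a.re + M) ∂μ = M := by
      rw [integral_add hint2 (integrable_const M), hD.mean]
      simp
    rw [h4, integral_sub hint1 hint3, h5]
  rw [h1, h2, h3, line_log_integral, abs_neg, abs_of_pos hM]
  ring

theorem N_line_meas (hD : PotData μ N M) (u : ℝ) : Measurable (fun v => N (pt u v)) :=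
  hD.meas.comp (measurable_pt_right u)

end MP4a1962
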