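import Pool.Agent.Lib.MP_4a1962_an.NLine

/-!
# NPlane: `N` is integrable on the plane

`N ≥ 0`, `N = 0` for `|re| ≥ M`, and `∫ v, N (pt u v) = ∫ v, |N (pt u v) - N (pt (-M) v)| ≤
2 π |u + M| ≤ 4 π M` for `|u| ≤ M` by `N_line_lip`. Tonelli on `ℂ ≃ ℝ × ℝ`
(`Complex.volume_preserving_equiv_real_prod`, `integrable_prod_iff`).
-/

set_option autoImplicit false

open MeasureTheory Set Filter Topology
open scoped Real ENNReal NNReal

namespace MP4a1962

variable {μ : Measure ℂ} {N : ℂ → ℝ} {M : ℝ}

theorem N_line_le (hD : PotData μ N M) (u : ℝ) : ∫ v, N (pt u v) ≤ 4 * π * M := by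
  have hM := hD.Mpos
  have hpi := Real.pi_pos
  by_cases hu : M ≤ |u|
  · have h0 : ∀ v, N (pt u v) = 0 := fun v => hD.zero _ (by simpa using hu)
    simp only [h0, integral_zero]
    positivity
  · have h1 := N_line_lip hD u (-M)
    have h2 : ∀ v, |N (pt u v) - N (pt (-M) v)| = N (pt u v) := by
      intro v
      rw [hD.zero (pt (-M) v) (by simp [abs_of_pos hM]), sub_zero, abs_of_nonneg (hD.nonneg _)]
    simp only [h2] at h1
    refine h1.trans ?_
    push Not at hu
    rw [abs_lt] at hu
    have h3 : |u - -M| ≤ 2 * M := by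
      rw [abs_le]
      constructor <;> linarith [hu.1, hu.2]
    calc 2 * π * |u - -M| ≤ 2 * π * (2 * M) := by
          apply mul_le_mul_of_nonneg_left h3
          positivity
      _ = 4 * π * M := by ring

theorem N_integrable (hD : PotData μ N M) : Integrable N (volume : Measure ℂ) := by
  have hmeas : Measurable (fun q : ℝ × ℝ => N (pt q.1 q.2)) := hD.meas.comp measurable_pt
  have key : Integrable (fun q : ℝ × ℝ => N (pt q.1 q.2)) (volume.prod volume) := by
    rw [integrable_prod_iff hmeas.aestronglyMeasurable]
    refine ⟨Filter.Eventually.of_forall fun u => N_line_int hD u, ?_⟩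
    have hg : Integrable (Set.indicator (Icc (-M) M) (fun _ : ℝ => 4 * π * M)) := by
      apply IntegrableOn.integrable_indicator _ measurableSet_Icc
      exact integrableOn_const (by simp) (by finiteness)
    refine hg.mono' ?_ (Filter.Eventually.of_forall fun u => ?_)
    · exact (hmeas.stronglyMeasurable.norm.integral_prod_right).aestronglyMeasurable
    · have h1 : ∀ v, ‖N (pt u v)‖ = N (pt u v) := fun v => by
        rw [Real.norm_eq_abs, abs_of_nonneg (hD.nonneg _)]
      simp only [h1]
      rw [Real.norm_eq_abs, abs_of_nonneg (integral_nonneg fun v => hD.nonneg _)]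
      by_cases hu : u ∈ Icc (-M) M
      · rw [Set.indicator_of_mem hu]
        exact N_line_le hD u
      · rw [Set.indicator_of_notMem hu]
        have hu' : M ≤ |u| := by
          by_contra hlt
          push Not at hlt
          rw [abs_lt] at hlt
          exact hu ⟨hlt.1.le, hlt.2.le⟩
        have h0 : ∀ v, N (pt u v) = 0 := fun v => hD.zero _ (by simpa using hu')
        simp only [h0, integral_zero]
        exact le_refl _
  have h2 := (Complex.volume_preserving_equiv_real_prod.integrable_comp_emb
    Complex.measurableEquivRealProd.measurableEmbedding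
    (g := fun q : ℝ × ℝ => N (pt q.1 q.2))).2 key
  exact h2

end MP4a1962
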