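import Pool.Agent.Lib.MP_4a1962_an.StarLe
import Pool.Agent.Lib.MP_4a1962_an.Bathtub

/-!
# StarLip: the star function is 1-Lipschitz in `g` for the `L¹` norm

Proof: take `k` optimal for `g` (`exists_prof`): `starB g m = ∫ k g ≤ ∫ k g' + ∫ |g - g'| ≤
starB g' m + ∫ |g - g'|` by `Prof.integral_mul_le`; then exchange the roles.
-/

set_option autoImplicit false

open MeasureTheory Set Filter Topology
open scoped Real ENNReal NNReal

namespace MP4a1962

private theorem sl_one {g g' : ℝ → ℝ} (hg : Measurable g) (h0 : ∀ v, 0 ≤ g v) (hi : Integrable g)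
    (hg' : Measurable g') (h0' : ∀ v, 0 ≤ g' v) (hi' : Integrable g')
    {m : ℝ} (hm : 0 ≤ m) :
    starB g m ≤ starB g' m + ∫ v, |g v - g' v| := by
  obtain ⟨k, hk, hkg⟩ := exists_prof hg h0 hi hm
  have h1 := hk.integral_mul_le hg' h0' hi'
  have hd : Integrable (fun v => |g v - g' v|) := (hi.sub hi').abs
  have h2 : ∫ v, k v * g v ≤ ∫ v, (k v * g' v + |g v - g' v|) := by
    refine integral_mono (hk.mul_integrable hi)
      ((hk.mul_integrable hi').add hd) fun v => ?_
    have a1 : k v * (g v - g' v) ≤ |g v - g' v| := by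
      calc k v * (g v - g' v) ≤ k v * |g v - g' v| :=
            mul_le_mul_of_nonneg_left (le_abs_self _) (hk.nonneg v)
        _ ≤ |g v - g' v| := mul_le_of_le_one_left (abs_nonneg _) (hk.le_one v)
    simp only
    linarith
  rw [integral_add (hk.mul_integrable hi') hd] at h2
  rw [← hkg]
  linarith

theorem starB_lip {g g' : ℝ → ℝ} (hg : Measurable g) (h0 : ∀ v, 0 ≤ g v) (hi : Integrable g)
    (hg' : Measurable g') (h0' : ∀ v, 0 ≤ g' v) (hi' : Integrable g')
    {m : ℝ} (hm : 0 ≤ m) :
    |starB g m - starB g' m| ≤ ∫ v, |g v - g' v| := by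
  have h1 := sl_one hg h0 hi hg' h0' hi' hm
  have h2 := sl_one hg' h0' hi' hg h0 hi hm
  have h3 : ∫ v, |g' v - g v| = ∫ v, |g v - g' v| :=
    integral_congr_ae (Eventually.of_forall fun v => abs_sub_comm _ _)
  rw [h3] at h2
  rw [abs_le]
  constructor <;> linarith

end MP4a1962
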