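import Pool.Agent.Lib.MP_4a1962_an.NPlane
import Pool.Agent.Lib.MP_4a1962_an.StarBasic
import Pool.Agent.Lib.MP_4a1962_an.StarLip

/-!
# NstarCont: continuity and boundary values of `Nstar N`

`Nstar N w = starB (fun v => N (pt w.re v)) (2 * w.im)`.
Continuity on `{0 ≤ im}`: `|Nstar N w - Nstar N w₀| ≤ 2 π |w.re - w₀.re|
 + |starB g₀ (2 w.im) - starB g₀ (2 w₀.im)|`, `g₀ = N (pt w₀.re ·)`, by `starB_lip`, `N_line_lip`
and `starB_continuousOn`.
-/

set_option autoImplicit false

open MeasureTheory Set Filter Topology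
open scoped Real ENNReal NNReal

namespace MP4a1962

variable {μ : Measure ℂ} {N : ℂ → ℝ} {M : ℝ}

private lemma nstar_diff (hD : PotData μ N M) {w w₀ : ℂ} (hw : 0 ≤ w.im) :
    |Nstar N w - Nstar N w₀| ≤ 2 * π * |w.re - w₀.re| +
      |starB (fun v => N (pt w₀.re v)) (2 * w.im) - starB (fun v => N (pt w₀.re v)) (2 * w₀.im)| := by
  have h1 := starB_lip (N_line_meas hD w.re) (fun v => hD.nonneg (pt w.re v)) (N_line_int hD w.re)
    (N_line_meas hD w₀.re) (fun v => hD.nonneg (pt w₀.re v)) (N_line_int hD w₀.re)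
    (m := 2 * w.im) (by positivity)
  have h2 := h1.trans (N_line_lip hD w.re w₀.re)
  have h3 : Nstar N w - Nstar N w₀ =
      (starB (fun v => N (pt w.re v)) (2 * w.im) - starB (fun v => N (pt w₀.re v)) (2 * w.im)) +
      (starB (fun v => N (pt w₀.re v)) (2 * w.im) -
        starB (fun v => N (pt w₀.re v)) (2 * w₀.im)) := by
    unfold Nstar
    ring
  rw [h3]
  exact (abs_add_le _ _).trans (add_le_add h2 le_rfl)

theorem Nstar_continuousOn (hD : PotData μ N M) : ContinuousOn (Nstar N) {w : ℂ | 0 ≤ w.im} := by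
  intro w₀ hw₀
  have hc : ContinuousOn (fun w : ℂ => starB (fun v => N (pt w₀.re v)) (2 * w.im))
      {w : ℂ | 0 ≤ w.im} := by
    refine (starB_continuousOn (N_line_meas hD w₀.re) (fun v => hD.nonneg (pt w₀.re v))
      (N_line_int hD w₀.re)).comp (f := fun w : ℂ => 2 * w.im) ?_ ?_
    · exact (continuous_const.mul Complex.continuous_im).continuousOn
    · intro w hw
      have h : (0 : ℝ) ≤ w.im := hw
      exact mem_Ici.2 (by positivity)
  have h2 : Tendsto (fun w : ℂ => |starB (fun v => N (pt w₀.re v)) (2 * w.im) -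
      starB (fun v => N (pt w₀.re v)) (2 * w₀.im)|) (𝓝[{w : ℂ | 0 ≤ w.im}] w₀) (𝓝 0) := by
    have h3 := ((hc w₀ hw₀).tendsto.sub_const
      (starB (fun v => N (pt w₀.re v)) (2 * w₀.im))).abs
    rwa [sub_self, abs_zero] at h3
  have h1 : Tendsto (fun w : ℂ => 2 * π * |w.re - w₀.re|) (𝓝[{w : ℂ | 0 ≤ w.im}] w₀)
      (𝓝 0) := by
    have hcont : Continuous (fun w : ℂ => 2 * π * |w.re - w₀.re|) :=
      continuous_const.mul ((Complex.continuous_re.sub continuous_const).abs)
    have h3 := (hcont.tendsto w₀).mono_left (nhdsWithin_le_nhds (s := {w : ℂ | 0 ≤ w.im}))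
    rwa [sub_self, abs_zero, mul_zero] at h3
  have h3 := h1.add h2
  rw [add_zero] at h3
  unfold ContinuousWithinAt
  rw [tendsto_iff_norm_sub_tendsto_zero]
  refine squeeze_zero' (Eventually.of_forall fun w => norm_nonneg _) ?_ h3
  filter_upwards [self_mem_nhdsWithin] with w hw
  rw [Real.norm_eq_abs]
  exact nstar_diff hD hw

theorem Nstar_bot (N : ℂ → ℝ) {w : ℂ} (hw : w.im = 0) : Nstar N w = 0 := by
  unfold Nstar
  rw [hw, mul_zero]
  exact starB_zero _

theorem Nstar_side (hD : PotData μ N M) {w : ℂ} (hw : M ≤ |w.re|) (hi : 0 ≤ w.im) :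
    Nstar N w = 0 := by
  unfold Nstar
  have h : (fun v => N (pt w.re v)) = fun _ => (0 : ℝ) := by
    funext v
    exact hD.zero (pt w.re v) hw
  rw [h]
  exact starB_fun_zero (by positivity)

theorem Nstar_nonneg (N : ℂ → ℝ) {w : ℂ} (hi : 0 ≤ w.im) : 0 ≤ Nstar N w :=
  starB_nonneg _ (by positivity)

/-- the star function on a line is constant once the mass exceeds the measure of `{N > 0}` -/
theorem Nstar_eq_integral (hD : PotData μ N M) {w : ℂ} (hi : 0 ≤ w.im)
    (hv : volume {v : ℝ | 0 < N (pt w.re v)} ≤ ENNReal.ofReal (2 * w.im)) :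
    Nstar N w = ∫ v, N (pt w.re v) :=
  starB_eq_integral (N_line_meas hD w.re) (fun v => hD.nonneg (pt w.re v)) (N_line_int hD w.re)
    (by positivity) hv

end MP4a1962
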