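import Pool.Agent.Lib.MP_4a1962_an.Defs

/-!
# RecExp: coefficient recursion for `exp (p h)`

* `tc_exp_rec`: if `F = exp (p h)` on the disc, then `F' = p h' F`; compare Taylor coefficients
  (`iteratedDeriv` of a product, Leibniz rule; or power series / Cauchy product).
* `tc_const_mul`, `tc_congr`: routine (`Filter.EventuallyEq.iteratedDeriv_eq`).
* `tc_rot`: `tc (fun z => h (a z)) n = a^n tc h n`, `|a| = 1`.
-/

set_option autoImplicit false

open MeasureTheory Set Filter Topology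
open scoped Real ENNReal NNReal

namespace MP4a1962

theorem tc_congr {f g : ℂ → ℂ} (h : ∀ z ∈ Metric.ball (0 : ℂ) 1, f z = g z) (n : ℕ) :
    tc f n = tc g n := by
  unfold tc
  have h1 : f =ᶠ[𝓝 (0 : ℂ)] g := by
    filter_upwards [Metric.ball_mem_nhds (0 : ℂ) zero_lt_one] with z hz
    exact h z hz
  rw [h1.iteratedDeriv_eq n]

theorem tc_const_mul (a : ℂ) (f : ℂ → ℂ) (hf : DifferentiableOn ℂ f (Metric.ball (0 : ℂ) 1)) (n : ℕ) :
    tc (fun z => a * f z) n = a * tc f n := by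
  unfold tc
  rw [iteratedDeriv_const_mul_field, mul_div_assoc]

theorem tc_exp_rec {h : ℂ → ℂ} (hh : DifferentiableOn ℂ h (Metric.ball (0 : ℂ) 1)) (p : ℝ) (n : ℕ) :
    ((n : ℂ) + 1) * tc (fun z => Complex.exp (p * h z)) (n + 1) =
      p * ∑ k ∈ Finset.range (n + 1),
        ((k : ℂ) + 1) * tc h (k + 1) * tc (fun z => Complex.exp (p * h z)) (n - k) := by
  set F : ℂ → ℂ := fun z => Complex.exp (p * h z) with hF
  have hb : Metric.ball (0 : ℂ) 1 ∈ 𝓝 (0 : ℂ) := Metric.ball_mem_nhds _ zero_lt_one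
  have hFd : DifferentiableOn ℂ F (Metric.ball (0 : ℂ) 1) := (hh.const_mul _).cexp
  have hder : deriv F =ᶠ[𝓝 (0 : ℂ)] fun z => (p : ℂ) * (deriv h * F) z := by
    filter_upwards [hb] with z hz
    have hz' : HasDerivAt h (deriv h z) z :=
      ((hh z hz).differentiableAt (Metric.isOpen_ball.mem_nhds hz)).hasDerivAt
    have h1 := (hz'.const_mul (p : ℂ)).cexp.deriv
    rw [hF, h1]
    simp only [Pi.mul_apply]
    ring
  have hc1 : ContDiffAt ℂ n (deriv h) 0 :=
    ((hh.analyticAt hb).deriv).contDiffAt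
  have hc2 : ContDiffAt ℂ n F 0 := (hFd.analyticAt hb).contDiffAt
  have h1 : iteratedDeriv (n + 1) F 0 = (p : ℂ) * ∑ k ∈ Finset.range (n + 1),
      (n.choose k : ℂ) * iteratedDeriv k (deriv h) 0 * iteratedDeriv (n - k) F 0 := by
    rw [iteratedDeriv_succ', hder.iteratedDeriv_eq n, iteratedDeriv_const_mul_field,
      iteratedDeriv_mul hc1 hc2]
  unfold tc
  rw [h1]
  have hn1 : ((n : ℂ) + 1) ≠ 0 := by exact_mod_cast Nat.succ_ne_zero n
  have hnf : (n.factorial : ℂ) ≠ 0 := by exact_mod_cast Nat.factorial_ne_zero n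
  have h2 : (((n + 1).factorial : ℕ) : ℂ) = ((n : ℂ) + 1) * (n.factorial : ℂ) := by
    rw [Nat.factorial_succ]; push_cast; ring
  rw [h2, mul_div_assoc', mul_div_mul_left _ _ hn1, mul_div_assoc, Finset.sum_div]
  congr 1
  refine Finset.sum_congr rfl fun k hk => ?_
  have hkn : k ≤ n := by
    rw [Finset.mem_range] at hk; omega
  have h3 : ((k + 1).factorial : ℂ) = ((k : ℂ) + 1) * (k.factorial : ℂ) := by
    rw [Nat.factorial_succ]; push_cast; ring
  have hk1 : ((k : ℂ) + 1) ≠ 0 := by exact_mod_cast Nat.succ_ne_zero k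
  have hkf : (k.factorial : ℂ) ≠ 0 := by exact_mod_cast Nat.factorial_ne_zero k
  have hnkf : ((n - k).factorial : ℂ) ≠ 0 := by exact_mod_cast Nat.factorial_ne_zero (n - k)
  have h4 : (n.factorial : ℂ) = (n.choose k : ℂ) * (k.factorial : ℂ) * ((n - k).factorial : ℂ) := by
    exact_mod_cast (Nat.choose_mul_factorial_mul_factorial hkn).symm
  have hch : (n.choose k : ℂ) ≠ 0 := by
    exact_mod_cast (Nat.choose_pos hkn).ne'
  rw [← iteratedDeriv_succ', h3, h4]
  field_simp

end MP4a1962
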