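import Pool.Agent.Lib.MP_4a1962_an.SeqSmall
import Pool.Agent.Lib.MP_4a1962_an.TcLe
import Pool.Agent.Lib.MP_4a1962_an.FtoH
import Pool.Agent.Lib.MP_4a1962_an.RecExp
import Pool.Agent.Lib.MP_4a1962_an.RecH0

/-!
# PartB: assembly, `|a_n| ≤ |a_0| C_{n,p}` for `8 n ≤ p`

From `exists_h` get `h`; let `c k = e^{ikφ₀} tc h k` with `e^{iφ₀} tc h 1 = ‖tc h 1‖`, `δ = 4 - ‖tc h 1‖`;
`A n = e^{inφ₀} tc (exp (p h)) n`. `CSeq c δ` from `s_ineq`, `tc_le`; `ERec`, `CRec` from `tc_exp_rec`, `tc_h0`,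
`F0_eq`. `seq_big` / `seq_small`.
-/

set_option autoImplicit false

open MeasureTheory Set Filter Topology
open scoped Real ENNReal NNReal

namespace MP4a1962

private theorem pb_iter (f : ℂ → ℂ) (n : ℕ) :
    ‖iteratedDeriv n f 0‖ = (n.factorial : ℝ) * ‖tc f n‖ := by
  have hn : (n.factorial : ℝ) ≠ 0 := by exact_mod_cast n.factorial_ne_zero
  unfold tc
  rw [norm_div, Complex.norm_natCast]
  field_simp

theorem partB {p : ℝ} (hp : 0 < p) {f : ℂ → ℂ} (hf : DifferentiableOn ℂ f (Metric.ball (0 : ℂ) 1))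
    (hne : ∀ z ∈ Metric.ball (0 : ℂ) 1, f z ≠ 0)
    (hcirc : ∀ R : ℝ, 0 < R →
        ∫⁻ φ in Set.Ioc (0 : ℝ) (2 * Real.pi),
          ENat.toENNReal
            (Set.encard {z : ℂ | z ∈ Metric.ball (0 : ℂ) 1 ∧
              f z = (R : ℂ) * Complex.exp ((φ : ℂ) * Complex.I)})
          ≤ ENNReal.ofReal (2 * Real.pi * p)) {n : ℕ} (hn : 8 * (n : ℝ) ≤ p) :
    ‖iteratedDeriv n f 0‖ ≤
        ‖f 0‖ * ‖iteratedDeriv n (fun z : ℂ => ((1 + z) / (1 - z)) ^ ((2 * p : ℝ) : ℂ)) 0‖ := by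
  obtain ⟨h, hh, hfh⟩ := exists_h hp hf hne hcirc
  set F : ℂ → ℂ := fun z => Complex.exp (p * h z) with hF
  have hFd : DifferentiableOn ℂ F (Metric.ball (0 : ℂ) 1) :=
    (hh.diff.const_mul (p : ℂ)).cexp
  set φ0 : ℝ := -Complex.arg (tc h 1) with hφ0
  set E : ℂ := Complex.exp (φ0 * Complex.I) with hE
  have hEn : ‖E‖ = 1 := Complex.norm_exp_ofReal_mul_I φ0
  have hEk : ∀ k : ℕ, Complex.exp (k * φ0 * Complex.I) = E ^ k := by
    intro k
    rw [hE, ← Complex.exp_nat_mul]
    congr 1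
    ring
  have hE1 : E * tc h 1 = (‖tc h 1‖ : ℂ) := by
    conv_lhs => rw [← Complex.norm_mul_exp_arg_mul_I (tc h 1)]
    rw [hE, hφ0, mul_left_comm, ← Complex.exp_add]
    push_cast
    rw [show -(Complex.arg (tc h 1) : ℂ) * Complex.I + (Complex.arg (tc h 1) : ℂ) * Complex.I = 0 by
      ring, Complex.exp_zero, mul_one]
  have hc : CSeq (fun k => E ^ k * tc h k) (4 - ‖tc h 1‖) := by
    constructor
    · intro k hk
      simp only [norm_mul, norm_pow, hEn, one_pow, one_mul]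
      exact tc_le hh hk
    · simp only [pow_one]
      rw [hE1]
      push_cast
      ring
    · have := tc_le hh (k := 1) le_rfl
      linarith
    · have := norm_nonneg (tc h 1)
      linarith
    · intro k hk φ
      have h1 := s_ineq hh hk (φ + φ0)
      have e1 : Complex.exp (k * ((φ + φ0 : ℝ) : ℂ) * Complex.I) * tc h k =
          Complex.exp (k * φ * Complex.I) * (E ^ k * tc h k) := by
        rw [← hEk, ← mul_assoc, ← Complex.exp_add]
        congr 2
        push_cast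
        ring
      have e2 : Complex.exp (((φ + φ0 : ℝ) : ℂ) * Complex.I) * tc h 1 =
          Complex.exp (φ * Complex.I) * (E ^ 1 * tc h 1) := by
        rw [pow_one, hE, ← mul_assoc, ← Complex.exp_add]
        congr 2
        push_cast
        ring
      rw [e1, e2] at h1
      exact h1
  have hA : ERec p (fun k => E ^ k * tc h k) (fun k => E ^ k * tc F k) := by
    constructor
    · simp [tc, hF, hh.zero]
    · intro m
      have h1 := tc_exp_rec hh.diff p m
      have e1 : ((m : ℂ) + 1) * (E ^ (m + 1) * tc F (m + 1)) =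
          E ^ (m + 1) * (((m : ℂ) + 1) * tc F (m + 1)) := by ring
      rw [e1, h1, mul_left_comm, Finset.mul_sum]
      congr 1
      refine Finset.sum_congr rfl fun k hk => ?_
      have hk' : k ≤ m := by
        have := Finset.mem_range.1 hk
        omega
      have e2 : E ^ (m + 1) = E ^ (k + 1) * E ^ (m - k) := by
        rw [← pow_add]
        congr 1
        omega
      rw [e2]
      ring
  set h0 : ℂ → ℂ := fun z : ℂ => 2 * Complex.log ((1 + z) / (1 - z)) with hh0
  set F0 : ℂ → ℂ := fun z => Complex.exp (p * h0 z) with hF0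
  have hC : CRec p (fun k => (tc F0 k).re) := by
    constructor
    · simp [tc, hF0, hh0]
    · intro m
      have h1 := tc_exp_rec h0_diff p m
      have h2 := congrArg Complex.re h1
      have e1 : (((m : ℂ) + 1) * tc F0 (m + 1)).re = ((m : ℝ) + 1) * (tc F0 (m + 1)).re := by
        rw [show ((m : ℂ) + 1) = (((m : ℝ) + 1 : ℝ) : ℂ) by push_cast; ring, Complex.re_ofReal_mul]
      have e2 : ((p : ℂ) * ∑ k ∈ Finset.range (m + 1),
          ((k : ℂ) + 1) * tc h0 (k + 1) * tc F0 (m - k)).re =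
          p * ∑ k ∈ Finset.range (m + 1), ((k : ℝ) + 1) * h0c (k + 1) * (tc F0 (m - k)).re := by
        rw [Complex.re_ofReal_mul, Complex.re_sum]
        congr 1
        refine Finset.sum_congr rfl fun k _ => ?_
        rw [hh0, tc_h0 (k := k + 1) (by omega),
          show ((k : ℂ) + 1) * (h0c (k + 1) : ℂ) = (((k : ℝ) + 1) * h0c (k + 1) : ℝ) by
            push_cast; ring, Complex.re_ofReal_mul]
      rw [e1] at h2
      rw [h2]
      exact e2
  have key : ‖E ^ n * tc F n‖ ≤ (tc F0 n).re := by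
    rcases le_total (1 / 2) (4 - ‖tc h 1‖) with hd | hd
    · exact seq_big hp hc hA hC hd hn
    · exact seq_small hp hc hA hC hd hn
  rw [norm_mul, norm_pow, hEn, one_pow, one_mul] at key
  have e1 : tc f n = f 0 * tc F n := by
    rw [tc_congr hfh n, tc_const_mul (f 0) F hFd n]
  have e2 : tc (fun z : ℂ => ((1 + z) / (1 - z)) ^ ((2 * p : ℝ) : ℂ)) n = tc F0 n :=
    tc_congr (F0_eq p) n
  rw [pb_iter, pb_iter, e1, e2, norm_mul]
  have h3 : (tc F0 n).re ≤ ‖tc F0 n‖ := Complex.re_le_norm _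
  have hfac : (0 : ℝ) ≤ n.factorial := Nat.cast_nonneg _
  calc (n.factorial : ℝ) * (‖f 0‖ * ‖tc F n‖) = ‖f 0‖ * ((n.factorial : ℝ) * ‖tc F n‖) := by ring
    _ ≤ ‖f 0‖ * ((n.factorial : ℝ) * ‖tc F0 n‖) := by
        gcongr
        exact key.trans h3

end MP4a1962
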