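import Pool.Agent.Lib.MP_4a1962_an.Defs

/-!
# TcCircle: Taylor coefficients as circle integrals

`tc F n * r^n = (2π)⁻¹ ∫ θ in (-π)..π, F(r e^{iθ}) e^{-inθ}`: Cauchy formula for `iteratedDeriv`
(`DiffContOnCl.circleIntegral...`, `Complex.iteratedDeriv_eq...` or the power series
`hasFPowerSeriesOnBall` coefficient `cauchyPowerSeries`), `circleIntegral` unfolded, periodicity.
-/

set_option autoImplicit false

open MeasureTheory Set Filter Topology
open scoped Real ENNReal NNReal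

namespace MP4a1962

private theorem tcc_neg {h : ℂ → ℂ} (hh : DifferentiableOn ℂ h (Metric.ball 0 1)) {r : ℝ}
    (hr0 : 0 < r) (hr1 : r < 1) (k : ℕ) :
    ∫ θ in (0 : ℝ)..(2 * π), h (circleMap 0 r θ) * Complex.exp (-(k * θ * Complex.I)) =
      2 * π * (r : ℂ) ^ k * tc h k := by
  have hC := DifferentiableOn.circleIntegral_one_div_sub_center_pow_smul hr0 k
    (hh.mono (Metric.closedBall_subset_ball hr1))
  rw [circleIntegral] at hC
  have hr0' : (r : ℂ) ≠ 0 := by exact_mod_cast hr0.ne'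
  have e : ∀ θ : ℝ, deriv (circleMap 0 r) θ •
      ((1 / (circleMap 0 r θ - 0) ^ (k + 1)) • h (circleMap 0 r θ)) =
      (Complex.I * ((r : ℂ) ^ k)⁻¹) *
        (h (circleMap 0 r θ) * Complex.exp (-(k * θ * Complex.I))) := by
    intro θ
    have hcm : circleMap 0 r θ = (r : ℂ) * Complex.exp (θ * Complex.I) := by simp [circleMap]
    rw [deriv_circleMap, sub_zero, smul_eq_mul, smul_eq_mul, hcm]
    have h1 : Complex.exp (-(k * θ * Complex.I)) = (Complex.exp (θ * Complex.I) ^ k)⁻¹ := by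
      rw [← Complex.exp_nat_mul, ← Complex.exp_neg]
      congr 1
      ring
    have h2 : Complex.exp (θ * Complex.I) ≠ 0 := Complex.exp_ne_zero _
    rw [h1, mul_pow, pow_succ, pow_succ]
    field_simp
  simp_rw [e] at hC
  rw [intervalIntegral.integral_const_mul, smul_eq_mul] at hC
  have h3 : (Complex.I * ((r : ℂ) ^ k)⁻¹) ≠ 0 :=
    mul_ne_zero Complex.I_ne_zero (inv_ne_zero (pow_ne_zero _ hr0'))
  apply mul_left_cancel₀ h3
  rw [hC, tc]
  have h4 : (r : ℂ) ^ k ≠ 0 := pow_ne_zero _ hr0'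
  field_simp

theorem tc_circle {F : ℂ → ℂ} (hF : DifferentiableOn ℂ F (Metric.ball 0 1)) {r : ℝ} (hr0 : 0 < r)
    (hr1 : r < 1) (n : ℕ) :
    tc F n * (r : ℂ) ^ n = (2 * (π : ℂ))⁻¹ *
      ∫ θ in (-π)..π, F (circleMap 0 r θ) * Complex.exp (-(n * θ * Complex.I)) := by
  have hper : Function.Periodic
      (fun θ : ℝ => F (circleMap 0 r θ) * Complex.exp (-(n * θ * Complex.I))) (2 * π) := by
    intro θ
    simp only
    have e : -((n : ℂ) * ((θ + 2 * π : ℝ) : ℂ) * Complex.I) =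
        -((n : ℂ) * θ * Complex.I) + ((-(n : ℤ) : ℤ) : ℂ) * (2 * π * Complex.I) := by
      push_cast
      ring
    rw [periodic_circleMap 0 r θ, e, Complex.exp_add, Complex.exp_int_mul_two_pi_mul_I, mul_one]
  have h1 := hper.intervalIntegral_add_eq (-π) 0
  have e1 : -π + 2 * π = π := by ring
  rw [zero_add, e1] at h1
  rw [h1, tcc_neg hF hr0 hr1 n]
  have hπ : (π : ℂ) ≠ 0 := by exact_mod_cast Real.pi_ne_zero
  field_simp

end MP4a1962
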