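import Pool.Agent.Lib.MP_4a1962_an.CNear
import Pool.Agent.Lib.MP_4a1962_an.PartB
import Pool.Agent.Lib.MP_4a1962_an.ExistsR
import Pool.Agent.Lib.MP_4a1962_an.TcCircle

/-!
# PartC: the theorem for all `n` and all `p ≥ P`

Given `f`, `p ≥ P`, `n`. If `8 n ≤ p`: `partB`. Otherwise `κ = n/(4p) ≥ 1/32`, `r` from `exists_r`, `h` from
`exists_h`. Choose `φ` with `Re h(r e^{iθ})` maximal at `θ = φ` (continuity, compactness), replace `h` by its
rotation `g z = h (e^{iφ} z)` (`HCls.rot`; `|tc|` is invariant: `tc (exp (p g)) n = e^{inφ} tc (exp (p h)) n`, or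
directly by the substitution `θ ↦ θ + φ` in the circle integral). `tc_circle` for `exp (p h)` and for
`exp (p h0f)` with `c_near` and `G0_integral` give `‖tc (exp (p h)) n‖ ≤ ‖tc (exp (p h0f)) n‖`; then
`tc_const_mul`, `tc_congr`, `F0_eq` and `tc f n = iteratedDeriv n f 0 / n!`.
-/

set_option autoImplicit false

open MeasureTheory Set Filter Topology
open scoped Real ENNReal NNReal

namespace MP4a1962

private theorem pc_iter (f : ℂ → ℂ) (n : ℕ) :
    ‖iteratedDeriv n f 0‖ = (n.factorial : ℝ) * ‖tc f n‖ := by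
  have hn : (n.factorial : ℝ) ≠ 0 := by exact_mod_cast n.factorial_ne_zero
  unfold tc
  rw [norm_div, Complex.norm_natCast]
  field_simp

private theorem pc_circ (r θ φ : ℝ) :
    Complex.exp (φ * Complex.I) * circleMap 0 r θ = circleMap 0 r (θ + φ) := by
  simp only [circleMap, zero_add]
  rw [mul_left_comm, ← Complex.exp_add]
  congr 2
  push_cast
  ring

private theorem pc_mem {r : ℝ} (hr0 : 0 < r) (hr1 : r < 1) (θ : ℝ) :
    circleMap 0 r θ ∈ Metric.ball (0 : ℂ) 1 := by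
  rw [Metric.mem_ball, dist_zero_right, norm_circleMap_zero, abs_of_pos hr0]
  exact hr1

/-- a point of the circle where `Re h` is maximal -/
private theorem pc_max {h : ℂ → ℂ} (hh : HCls h) {r : ℝ} (hr0 : 0 < r) (hr1 : r < 1) :
    ∃ φ : ℝ, ∀ θ : ℝ, (h (circleMap 0 r θ)).re ≤ (h (circleMap 0 r φ)).re := by
  have hc : Continuous fun θ => (h (circleMap 0 r θ)).re :=
    Complex.continuous_re.comp
      (hh.diff.continuousOn.comp_continuous (continuous_circleMap 0 r) (pc_mem hr0 hr1))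
  obtain ⟨φ, _, hφ⟩ := isCompact_Icc.exists_isMaxOn
    (Set.nonempty_Icc.2 (by positivity : (0 : ℝ) ≤ 2 * π)) hc.continuousOn
  refine ⟨φ, fun θ => ?_⟩
  obtain ⟨y, hy, hyθ⟩ := (periodic_circleMap 0 r).exists_mem_Ico₀ Real.two_pi_pos θ
  rw [hyθ]
  exact hφ ⟨hy.1, hy.2.le⟩

/-- the Cauchy integral is invariant (in norm) under rotations -/
private theorem pc_rot {F : ℂ → ℂ} {r : ℝ} (n : ℕ) (φ : ℝ) :
    ‖∫ θ in (-π)..π, F (circleMap 0 r θ) * Complex.exp (-(n * θ * Complex.I))‖ =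
      ‖∫ θ in (-π)..π, F (circleMap 0 r (θ + φ)) * Complex.exp (-(n * θ * Complex.I))‖ := by
  set g : ℝ → ℂ := fun θ => F (circleMap 0 r θ) * Complex.exp (-(n * θ * Complex.I)) with hg
  have hper : Function.Periodic g (2 * π) := by
    intro θ
    rw [hg]
    simp only
    rw [periodic_circleMap 0 r θ]
    congr 1
    have e : -((n : ℂ) * ((θ + 2 * π : ℝ) : ℂ) * Complex.I) =
        -(n * θ * Complex.I) - n * (2 * π * Complex.I) := by
      push_cast
      ring
    rw [e, Complex.exp_sub, Complex.exp_nat_mul_two_pi_mul_I, div_one]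
  have h1 : (∫ θ in (-π)..π, g (θ + φ)) = ∫ θ in (-π)..π, g θ := by
    rw [intervalIntegral.integral_comp_add_right]
    have h2 := hper.intervalIntegral_add_eq (-π + φ) (-π)
    have e1 : -π + φ + 2 * π = π + φ := by ring
    have e2 : -π + 2 * π = π := by ring
    rw [e1, e2] at h2
    exact h2
  have h3 : (∫ θ in (-π)..π, F (circleMap 0 r (θ + φ)) * Complex.exp (-(n * θ * Complex.I))) =
      Complex.exp (n * φ * Complex.I) * ∫ θ in (-π)..π, g (θ + φ) := by
    rw [← intervalIntegral.integral_const_mul]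
    refine intervalIntegral.integral_congr fun θ _ => ?_
    rw [hg]
    simp only
    rw [mul_left_comm, ← Complex.exp_add]
    congr 2
    push_cast
    ring
  have h4 : ‖Complex.exp (n * φ * Complex.I)‖ = 1 := by
    have e : (n : ℂ) * φ * Complex.I = ((n * φ : ℝ) : ℂ) * Complex.I := by
      push_cast
      ring
    rw [e, Complex.norm_exp_ofReal_mul_I]
  rw [h3, norm_mul, h4, one_mul, h1]

private theorem pc_main {P : ℝ} (hP : 1 ≤ P)
    (hnear : ∀ (p r : ℝ) (n : ℕ) (h : ℂ → ℂ),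
    P ≤ p → 1 / 33 ≤ r → r < 1 → (n : ℝ) = 4 * p * kap r → HCls h →
    (∀ θ : ℝ, (h (circleMap 0 r θ)).re ≤ (h r).re) →
    ‖∫ θ in (-π)..π, Complex.exp (p * (h (circleMap 0 r θ) - Mr r) - n * θ * Complex.I)‖ ≤
      Z0 p r n) {p : ℝ} (hp : P ≤ p) {n : ℕ} (hn : p < 8 * (n : ℝ)) {h : ℂ → ℂ} (hh : HCls h) :
    ‖tc (fun z => Complex.exp (p * h z)) n‖ ≤
      ‖tc (fun z : ℂ => Complex.exp (p * (2 * Complex.log ((1 + z) / (1 - z))))) n‖ := by
  have hp0 : 0 < p := by linarith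
  obtain ⟨r, hr33, hr1, hκ⟩ := exists_r (κ := n / (4 * p)) (by
    rw [div_le_div_iff₀ (by norm_num) (by positivity)]
    linarith)
  have hr0 : 0 < r := by linarith
  have hnκ : (n : ℝ) = 4 * p * kap r := by
    rw [hκ]
    field_simp
  obtain ⟨φ, hφ⟩ := pc_max hh hr0 hr1
  have hg : HCls (fun z => h (Complex.exp (φ * Complex.I) * z)) := hh.rot φ
  have hF : DifferentiableOn ℂ (fun z => Complex.exp (p * h z)) (Metric.ball (0 : ℂ) 1) :=
    (hh.diff.const_mul (p : ℂ)).cexp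
  have hF0 : DifferentiableOn ℂ
      (fun z : ℂ => Complex.exp (p * (2 * Complex.log ((1 + z) / (1 - z)))))
      (Metric.ball (0 : ℂ) 1) := (h0_diff.const_mul (p : ℂ)).cexp
  have hc1 := tc_circle hF hr0 hr1 n
  have hc2 := tc_circle hF0 hr0 hr1 n
  have h1 := hnear p r n _ hp hr33 hr1 hnκ hg (fun θ => by
    rw [pc_circ]
    have e : Complex.exp (φ * Complex.I) * (r : ℂ) = circleMap 0 r φ := by
      simp only [circleMap, zero_add]
      ring
    rw [e]
    exact hφ _)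
  have hMe : ∀ (w : ℂ) (θ : ℝ), Complex.exp (p * w) * Complex.exp (-(n * θ * Complex.I)) =
      Complex.exp (p * Mr r) * Complex.exp (p * (w - Mr r) - n * θ * Complex.I) := by
    intro w θ
    rw [← Complex.exp_add, ← Complex.exp_add]
    congr 1
    ring
  have hnM : ‖Complex.exp ((p : ℂ) * Mr r)‖ = Real.exp (p * Mr r) := by
    rw [Complex.norm_exp]
    congr 1
    simp
  have hI1 : ‖∫ θ in (-π)..π, Complex.exp (p * h (circleMap 0 r θ)) *
      Complex.exp (-(n * θ * Complex.I))‖ ≤ Real.exp (p * Mr r) * Z0 p r n := by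
    have h2 := pc_rot (F := fun z => Complex.exp (p * h z)) (r := r) n φ
    rw [h2]
    have h3 : (∫ θ in (-π)..π, Complex.exp (p * h (circleMap 0 r (θ + φ))) *
        Complex.exp (-(n * θ * Complex.I))) = Complex.exp (p * Mr r) *
        ∫ θ in (-π)..π, Complex.exp (p * (h (Complex.exp (φ * Complex.I) * circleMap 0 r θ) -
          Mr r) - n * θ * Complex.I) := by
      rw [← intervalIntegral.integral_const_mul]
      refine intervalIntegral.integral_congr fun θ _ => ?_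
      rw [pc_circ, hMe]
    rw [h3, norm_mul, hnM]
    exact mul_le_mul_of_nonneg_left h1 (Real.exp_pos _).le
  have hI2 : (∫ θ in (-π)..π, Complex.exp (p * (2 * Complex.log ((1 + circleMap 0 r θ) /
      (1 - circleMap 0 r θ)))) * Complex.exp (-(n * θ * Complex.I))) =
      Complex.exp (p * Mr r) * (Z0 p r n : ℂ) := by
    rw [← G0_integral hr0 hr1, ← intervalIntegral.integral_const_mul]
    refine intervalIntegral.integral_congr fun θ _ => ?_
    rw [hMe]
    rfl
  rw [hI2] at hc2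
  have hn1 := congrArg norm hc1
  have hn2 := congrArg norm hc2
  rw [norm_mul, norm_mul] at hn1 hn2
  rw [norm_mul, hnM, Complex.norm_real, Real.norm_eq_abs] at hn2
  have hrn : 0 < ‖(r : ℂ) ^ n‖ := by
    rw [norm_pow, Complex.norm_real, Real.norm_eq_abs, abs_of_pos hr0]
    positivity
  have hfin : ‖tc (fun z => Complex.exp (p * h z)) n‖ * ‖(r : ℂ) ^ n‖ ≤
      ‖tc (fun z : ℂ => Complex.exp (p * (2 * Complex.log ((1 + z) / (1 - z))))) n‖ *
        ‖(r : ℂ) ^ n‖ := by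
    rw [hn1, hn2]
    refine mul_le_mul_of_nonneg_left (hI1.trans ?_) (norm_nonneg _)
    exact mul_le_mul_of_nonneg_left (le_abs_self _) (Real.exp_pos _).le
  exact le_of_mul_le_mul_right hfin hrn

theorem partC : ∃ P : ℝ, 1 ≤ P ∧ ∀ p : ℝ, P ≤ p →
    ∀ f : ℂ → ℂ, DifferentiableOn ℂ f (Metric.ball (0 : ℂ) 1) →
      (∀ z ∈ Metric.ball (0 : ℂ) 1, f z ≠ 0) →
      (∀ R : ℝ, 0 < R →
        ∫⁻ φ in Set.Ioc (0 : ℝ) (2 * Real.pi),
          ENat.toENNReal
            (Set.encard {z : ℂ | z ∈ Metric.ball (0 : ℂ) 1 ∧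
              f z = (R : ℂ) * Complex.exp ((φ : ℂ) * Complex.I)})
          ≤ ENNReal.ofReal (2 * Real.pi * p)) →
      ∀ n : ℕ, ‖iteratedDeriv n f 0‖ ≤
        ‖f 0‖ * ‖iteratedDeriv n (fun z : ℂ => ((1 + z) / (1 - z)) ^ ((2 * p : ℝ) : ℂ)) 0‖ := by
  obtain ⟨P, hP, hnear⟩ := c_near
  refine ⟨P, hP, ?_⟩
  intro p hp f hf hne hcirc n
  have hp0 : 0 < p := by linarith
  by_cases hn : 8 * (n : ℝ) ≤ p
  · exact partB hp0 hf hne hcirc hn
  rw [not_le] at hn
  obtain ⟨h, hh, hfh⟩ := exists_h hp0 hf hne hcirc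
  have hFd : DifferentiableOn ℂ (fun z => Complex.exp (p * h z)) (Metric.ball (0 : ℂ) 1) :=
    (hh.diff.const_mul (p : ℂ)).cexp
  have key := pc_main hP hnear hp hn hh
  have e1 : tc f n = f 0 * tc (fun z => Complex.exp (p * h z)) n := by
    rw [tc_congr hfh n, tc_const_mul (f 0) _ hFd n]
  have e2 : tc (fun z : ℂ => ((1 + z) / (1 - z)) ^ ((2 * p : ℝ) : ℂ)) n =
      tc (fun z : ℂ => Complex.exp (p * (2 * Complex.log ((1 + z) / (1 - z))))) n :=
    tc_congr (F0_eq p) n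
  rw [pc_iter, pc_iter, e1, e2, norm_mul]
  calc (n.factorial : ℝ) * (‖f 0‖ * ‖tc (fun z => Complex.exp (p * h z)) n‖)
      = ‖f 0‖ * ((n.factorial : ℝ) * ‖tc (fun z => Complex.exp (p * h z)) n‖) := by ring
    _ ≤ ‖f 0‖ * ((n.factorial : ℝ) *
        ‖tc (fun z : ℂ => Complex.exp (p * (2 * Complex.log ((1 + z) / (1 - z))))) n‖) := by
        gcongr

end MP4a1962
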