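import Pool.Agent.Lib.MP_4a1962_an.Defs

/-!
# PotA: the counting function of an analytic function on a circle (Jensen), first part

For `H` analytic in the unit disc, `H 0 = 0`, `0 < r < 1`: `μ = circMeas H r` is the law of `H (r e^{iθ})`,
`θ` uniform on `(0, 2π]`, and `N w = circN H r w = circleAverage (lg (H · - w)) 0 r - lg w` (`0` at `0`).
* `circMeas_integral`: `integral_map` (`θ ↦ H (circleMap 0 r θ)` is continuous), `integral_smul_measure`.
* `circN_eq_zero`: if `w` is not in `H '' closedBall 0 r` then `H - w` has no zero there and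
  `AnalyticOnNhd.circleAverage_log_norm_of_ne_zero` gives `circleAverage = lg (H 0 - w) = lg w`.
* `circN_pos`: contrapositive of `circN_eq_zero` (`closedBall 0 r ⊆ ball 0 1`).
* `circN_nonneg`: for `w ≠ 0`: `AnalyticOnNhd.circleAverage_log_norm` (Jensen): the divisor is `≥ 0`
  (`MeromorphicOn.AnalyticOnNhd.divisor_nonneg`) and `log (r ‖u‖⁻¹) ≥ 0` for `0 < ‖u‖ ≤ r`
  (outside the closed ball the divisor is `0`); `log ‖(H - w) 0‖ = lg w`.
-/

set_option autoImplicit false

open MeasureTheory Set Filter Topology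
open scoped Real ENNReal NNReal

namespace MP4a1962

/-- law of `H` on the circle of radius `r` -/
noncomputable def circMeas (H : ℂ → ℂ) (r : ℝ) : Measure ℂ :=
  Measure.map (fun θ : ℝ => H (circleMap 0 r θ))
    ((ENNReal.ofReal (2 * π))⁻¹ • volume.restrict (Ioc 0 (2 * π)))

open Classical in
/-- Jensen counting function -/
noncomputable def circN (H : ℂ → ℂ) (r : ℝ) (w : ℂ) : ℝ :=
  if w = 0 then 0 else Real.circleAverage (fun z => lg (H z - w)) 0 r - lg w

variable {H : ℂ → ℂ} {r : ℝ}

theorem continuous_circ (hH : DifferentiableOn ℂ H (Metric.ball 0 1)) (hr0 : 0 < r)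
    (hr1 : r < 1) : Continuous (fun θ : ℝ => H (circleMap 0 r θ)) := by
  refine hH.continuousOn.comp_continuous (continuous_circleMap 0 r) fun θ => ?_
  have h := circleMap_mem_closedBall (0 : ℂ) hr0.le θ
  exact Metric.closedBall_subset_ball hr1 h

theorem analyticOnNhd_sub (hH : DifferentiableOn ℂ H (Metric.ball 0 1)) (hr0 : 0 < r)
    (hr1 : r < 1) (w : ℂ) :
    AnalyticOnNhd ℂ (fun z => H z - w) (Metric.closedBall (0 : ℂ) |r|) := by
  have h1 : AnalyticOnNhd ℂ (fun z => H z - w) (Metric.ball (0 : ℂ) 1) :=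
    (hH.sub_const w).analyticOnNhd Metric.isOpen_ball
  exact h1.mono (Metric.closedBall_subset_ball (by rwa [abs_of_pos hr0]))

theorem circMeas_prob (hH : DifferentiableOn ℂ H (Metric.ball 0 1)) (hr0 : 0 < r)
    (hr1 : r < 1) : IsProbabilityMeasure (circMeas H r) := by
  have h1 : IsProbabilityMeasure
      ((ENNReal.ofReal (2 * π))⁻¹ • volume.restrict (Ioc (0 : ℝ) (2 * π))) := by
    constructor
    rw [Measure.smul_apply, Measure.restrict_apply_univ, Real.volume_Ioc, sub_zero, smul_eq_mul]
    exact ENNReal.inv_mul_cancel (by simpa using Real.pi_pos) ENNReal.ofReal_ne_top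
  exact Measure.isProbabilityMeasure_map (continuous_circ hH hr0 hr1).measurable.aemeasurable

theorem circMeas_integral (hH : DifferentiableOn ℂ H (Metric.ball 0 1)) (hr0 : 0 < r)
    (hr1 : r < 1) {f : ℂ → ℝ} (hf : Measurable f) :
    ∫ a, f a ∂(circMeas H r) = (2 * π)⁻¹ * ∫ θ in (0 : ℝ)..(2 * π), f (H (circleMap 0 r θ)) := by
  rw [circMeas, integral_map (continuous_circ hH hr0 hr1).measurable.aemeasurable
    hf.aestronglyMeasurable, integral_smul_measure, ENNReal.toReal_inv,
    ENNReal.toReal_ofReal Real.two_pi_pos.le, smul_eq_mul,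
    intervalIntegral.integral_of_le Real.two_pi_pos.le]

theorem circN_eq_zero (hH : DifferentiableOn ℂ H (Metric.ball 0 1)) (h0 : H 0 = 0)
    (hr0 : 0 < r) (hr1 : r < 1) {w : ℂ} (hw : ∀ z ∈ Metric.closedBall (0 : ℂ) r, H z ≠ w) :
    circN H r w = 0 := by
  unfold circN
  split_ifs with h
  · rfl
  · have h1 : Real.circleAverage (Real.log ‖(fun z => H z - w) ·‖) 0 r =
        Real.log ‖(fun z => H z - w) 0‖ := by
      refine AnalyticOnNhd.circleAverage_log_norm_of_ne_zero (analyticOnNhd_sub hH hr0 hr1 w) ?_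
      intro u hu
      rw [abs_of_pos hr0] at hu
      exact sub_ne_zero.2 (hw u hu)
    have h2 : Real.circleAverage (fun z => lg (H z - w)) 0 r = lg w := by
      have : (fun z => lg (H z - w)) = fun z => Real.log ‖(fun z => H z - w) z‖ := rfl
      rw [this, h1]
      simp [lg, h0]
    rw [h2, sub_self]

theorem circN_pos (hH : DifferentiableOn ℂ H (Metric.ball 0 1)) (h0 : H 0 = 0)
    (hr0 : 0 < r) (hr1 : r < 1) {w : ℂ} (hw : 0 < circN H r w) :
    ∃ z ∈ Metric.ball (0 : ℂ) 1, H z = w := by
  by_contra hcon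
  push Not at hcon
  have h := circN_eq_zero hH h0 hr0 hr1 (w := w)
    (fun z hz => hcon z (Metric.closedBall_subset_ball hr1 hz))
  exact hw.ne' h

theorem circN_nonneg (hH : DifferentiableOn ℂ H (Metric.ball 0 1)) (h0 : H 0 = 0)
    (hr0 : 0 < r) (hr1 : r < 1) (w : ℂ) : 0 ≤ circN H r w := by
  unfold circN
  split_ifs with h
  · exact le_rfl
  · have hA := analyticOnNhd_sub hH hr0 hr1 w
    have h1 := AnalyticOnNhd.circleAverage_log_norm hr0.ne' hA
      (by simpa [h0] using h)
    have h2 : Real.circleAverage (fun z => lg (H z - w)) 0 r =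
        ∑ᶠ u, MeromorphicOn.divisor (fun z => H z - w) (Metric.closedBall (0 : ℂ) |r|) u *
          Real.log (r * ‖(0 : ℂ) - u‖⁻¹) + lg w := by
      have : (fun z => lg (H z - w)) = fun z => Real.log ‖(fun z => H z - w) z‖ := rfl
      rw [this, h1]
      simp [lg, h0]
    rw [h2, add_sub_cancel_right]
    refine finsum_nonneg fun u => ?_
    by_cases hu : u ∈ Metric.closedBall (0 : ℂ) |r|
    · refine mul_nonneg (by exact_mod_cast MeromorphicOn.AnalyticOnNhd.divisor_nonneg hA u) ?_
      rcases eq_or_ne u 0 with rfl | hu0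
      · simp
      · apply Real.log_nonneg
        rw [zero_sub, norm_neg, ← div_eq_mul_inv, one_le_div (norm_pos_iff.2 hu0)]
        rw [abs_of_pos hr0, Metric.mem_closedBall, dist_zero_right] at hu
        exact hu
    · rw [Function.locallyFinsuppWithin.apply_eq_zero_of_notMem _ hu]
      simp

end MP4a1962
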