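import Pool.Agent.Lib.MP_4a1962_an.Defs

/-!
# RieszA: the one dimensional rearrangement inequality for a moving average

`Kav k y v = ∫_{v-y}^{v+y} k`, `k` a profile of mass `≤ 2 s`, `0 < y ≤ s`, `0 ≤ lam ≤ 2 y`. Then
`∫ (Kav k y v - lam)^+ dv ≤ (2 y - lam) (2 s - lam)`.

Proof. Let `F v = ∫ x in Iic v, k x`: monotone, 1-Lipschitz, `0 ≤ F ≤ 2 s`, continuous, and
`Kav k y v = F (v + y) - F (v - y)` (`intervalIntegral.integral_Iic_sub_Iic`). Then
`ofReal (Kav k y v - lam) = volume (Ioo (F (v - y)) (F (v + y) - lam))`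
`  = ∫⁻ a, indicator (Ioo (F (v-y)) (F (v+y) - lam)) 1 a`.
Tonelli: the integral is `∫⁻ a, volume V_a`, `V_a = {v | F (v - y) < a ∧ a < F (v + y) - lam}`.
`V_a` is empty unless `0 < a < 2 s - lam` (as `0 ≤ F ≤ 2 s`). For `v₁ ≤ v₂` in `V_a`:
`F (v₂ - y) < a < F (v₁ + y) - lam ≤ F (v₁ + y)`, so `v₂ - y < v₁ + y` by monotonicity and
`lam < F (v₁ + y) - F (v₂ - y) ≤ (v₁ + y) - (v₂ - y)` by the Lipschitz bound, i.e.
`v₂ - v₁ < 2 y - lam`. So `volume V_a ≤ ofReal (2 y - lam)` (`Real.volume_le_diam` and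
`Metric.ediam_le` / `EMetric.diam_le`). Integrate over `a ∈ Ioo 0 (2 s - lam)`.
-/

set_option autoImplicit false

open MeasureTheory Set Filter Topology
open scoped Real ENNReal NNReal

namespace MP4a1962

private theorem ra_ii {k : ℝ → ℝ} {m : ℝ} (hk : Prof k m) (a b : ℝ) :
    IntervalIntegrable k volume a b := hk.int.intervalIntegrable

private theorem ra_F_sub {k : ℝ → ℝ} {m : ℝ} (hk : Prof k m) (a b : ℝ) :
    (∫ x in Iic b, k x) - ∫ x in Iic a, k x = ∫ x in a..b, k x :=
  intervalIntegral.integral_Iic_sub_Iic hk.int.integrableOn hk.int.integrableOn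

private theorem ra_Kav {k : ℝ → ℝ} {m : ℝ} (hk : Prof k m) (y v : ℝ) :
    Kav k y v = (∫ x in Iic (v + y), k x) - ∫ x in Iic (v - y), k x :=
  (ra_F_sub hk _ _).symm

private theorem ra_F_cont {k : ℝ → ℝ} {m : ℝ} (hk : Prof k m) :
    Continuous (fun v : ℝ => ∫ x in Iic v, k x) := by
  have h1 : (fun v : ℝ => ∫ x in Iic v, k x) =
      fun v : ℝ => (∫ x in (0 : ℝ)..v, k x) + ∫ x in Iic (0 : ℝ), k x := by
    funext v
    rw [← ra_F_sub hk 0 v]
    ring
  rw [h1]
  exact (intervalIntegral.continuous_primitive (fun a b => ra_ii hk a b) 0).add continuous_const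

private theorem ra_F_mono {k : ℝ → ℝ} {m : ℝ} (hk : Prof k m) :
    Monotone (fun v : ℝ => ∫ x in Iic v, k x) := by
  intro a b hab
  have h1 := ra_F_sub hk a b
  have h2 : 0 ≤ ∫ x in a..b, k x := intervalIntegral.integral_nonneg hab fun x _ => hk.nonneg x
  simp only
  linarith

private theorem ra_F_lip {k : ℝ → ℝ} {m : ℝ} (hk : Prof k m) {a b : ℝ} (hab : a ≤ b) :
    (∫ x in Iic b, k x) - ∫ x in Iic a, k x ≤ b - a := by
  rw [ra_F_sub hk]
  have h := intervalIntegral.integral_mono_on hab (ra_ii hk a b)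
    (intervalIntegrable_const (c := (1 : ℝ))) (fun x _ => hk.le_one x)
  simpa using h

theorem continuous_Kav {k : ℝ → ℝ} {m : ℝ} (hk : Prof k m) (y : ℝ) : Continuous (Kav k y) := by
  have h1 : Kav k y = fun v => (∫ x in Iic (v + y), k x) - ∫ x in Iic (v - y), k x :=
    funext fun v => ra_Kav hk y v
  rw [h1]
  have hF := ra_F_cont hk
  exact (hF.comp (continuous_id.add continuous_const)).sub
    (hF.comp (continuous_id.sub continuous_const))

theorem Kav_nonneg {k : ℝ → ℝ} {m : ℝ} (hk : Prof k m) {y : ℝ} (hy : 0 ≤ y) (v : ℝ) :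
    0 ≤ Kav k y v :=
  intervalIntegral.integral_nonneg (by linarith) fun x _ => hk.nonneg x

theorem Kav_le {k : ℝ → ℝ} {m : ℝ} (hk : Prof k m) {y : ℝ} (hy : 0 ≤ y) (v : ℝ) :
    Kav k y v ≤ 2 * y := by
  rw [ra_Kav hk]
  have h := ra_F_lip hk (show v - y ≤ v + y by linarith)
  linarith

theorem riesz_A {k : ℝ → ℝ} {s y lam : ℝ} (hk : Prof k (2 * s)) (hy : 0 < y) (hys : y ≤ s)
    (hl : 0 ≤ lam) (hl2 : lam ≤ 2 * y) :
    ∫⁻ v, ENNReal.ofReal (Kav k y v - lam) ≤ ENNReal.ofReal ((2 * y - lam) * (2 * s - lam)) := by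
  set F : ℝ → ℝ := fun v => ∫ x in Iic v, k x with hF
  have hFc : Continuous F := ra_F_cont hk
  have hFm : Monotone F := ra_F_mono hk
  have hF0 : ∀ v, 0 ≤ F v := fun v => integral_nonneg hk.nonneg
  have hF1 : ∀ v, F v ≤ 2 * s := fun v =>
    (setIntegral_le_integral hk.int (Eventually.of_forall hk.nonneg)).trans hk.mass
  set S : Set (ℝ × ℝ) := {q | F (q.1 - y) < q.2 ∧ q.2 < F (q.1 + y) - lam} with hS
  have hSm : MeasurableSet S := by
    have h1 : IsOpen S := by
      have a1 : IsOpen {q : ℝ × ℝ | F (q.1 - y) < q.2} :=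
        isOpen_lt (hFc.comp (continuous_fst.sub continuous_const)) continuous_snd
      have a2 : IsOpen {q : ℝ × ℝ | q.2 < F (q.1 + y) - lam} :=
        isOpen_lt continuous_snd ((hFc.comp (continuous_fst.add continuous_const)).sub
          continuous_const)
      exact a1.inter a2
    exact h1.measurableSet
  have e1 : ∫⁻ v, ENNReal.ofReal (Kav k y v - lam) =
      (volume.prod volume : Measure (ℝ × ℝ)) S := by
    rw [Measure.prod_apply hSm]
    refine lintegral_congr fun v => ?_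
    have h1 : Prod.mk v ⁻¹' S = Ioo (F (v - y)) (F (v + y) - lam) := by
      ext a
      simp [hS]
    rw [h1, Real.volume_Ioo]
    congr 1
    rw [ra_Kav hk]
    simp only [hF]
    ring
  rw [e1, Measure.prod_apply_symm hSm]
  have hb : ∀ a : ℝ, volume ((fun v => (v, a)) ⁻¹' S) ≤
      (Ioo 0 (2 * s - lam)).indicator (fun _ => ENNReal.ofReal (2 * y - lam)) a := by
    intro a
    by_cases ha : a ∈ Ioo 0 (2 * s - lam)
    · rw [indicator_of_mem ha]
      refine (Real.volume_le_diam _).trans (Metric.ediam_le ?_)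
      have key : ∀ v₁ v₂ : ℝ, v₁ ≤ v₂ → (v₁, a) ∈ S → (v₂, a) ∈ S → v₂ - v₁ ≤ 2 * y - lam := by
        intro v₁ v₂ _ h1 h2
        have b1 : a < F (v₁ + y) - lam := h1.2
        have b2 : F (v₂ - y) < a := h2.1
        have b3 : v₂ - y ≤ v₁ + y := by
          by_contra hcon
          push Not at hcon
          have := hFm hcon.le
          linarith
        have b4 := ra_F_lip hk b3
        have b5 : F (v₁ + y) - F (v₂ - y) ≤ v₁ + y - (v₂ - y) := b4
        linarith
      intro v₁ h1 v₂ h2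
      rw [edist_dist, Real.dist_eq]
      refine ENNReal.ofReal_le_ofReal ?_
      rcases le_total v₁ v₂ with h | h
      · rw [abs_sub_comm, abs_of_nonneg (sub_nonneg.2 h)]
        exact key v₁ v₂ h h1 h2
      · rw [abs_of_nonneg (sub_nonneg.2 h)]
        exact key v₂ v₁ h h2 h1
    · rw [indicator_of_notMem ha]
      have h1 : (fun v => (v, a)) ⁻¹' S = ∅ := by
        ext v
        simp only [mem_preimage, mem_empty_iff_false, iff_false]
        intro hv
        have b1 : a < F (v + y) - lam := hv.2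
        have b2 : F (v - y) < a := hv.1
        exact ha ⟨(hF0 _).trans_lt b2, b1.trans_le (by linarith [hF1 (v + y)])⟩
      rw [h1, measure_empty]
  refine (lintegral_mono hb).trans ?_
  rw [lintegral_indicator measurableSet_Ioo, lintegral_const, Measure.restrict_apply_univ,
    Real.volume_Ioo, sub_zero, ← ENNReal.ofReal_mul (by linarith)]

end MP4a1962
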