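import Pool.Agent.Lib.MP_4a1962_an.RieszA

/-!
# RieszB: the moving average integrated over a set

`∫_A Kav k y ≤ ∫_{-y}^{y} min |A| (2 s + 2 τ) dτ` for `A` of finite measure, `k` a profile of mass
`≤ 2 s`, `0 < y ≤ s`.

Proof. Let `m = volume.real A`. For every `lam ∈ [0, 2 y]`:
`∫_A Kav ≤ lam m + ∫ (Kav - lam)^+ ≤ lam m + (2 y - lam) (2 s - lam)` by `riesz_A` (`Kav` is
continuous, `0 ≤ Kav ≤ 2 y`; `∫_A (Kav - lam) ≤ ∫_A (Kav - lam)^+`, compare with the lintegral).
Choose: if `m ≥ 2 s + 2 y`: `lam = 0`, bound `4 s y`, and the right side is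
`∫_{-y}^{y} (2 s + 2 τ) = 4 s y`. If `m ≤ 2 s - 2 y`: `lam = 2 y`, bound `2 y m`, right side `2 y m`.
Otherwise write `m = 2 s + 2 σ`, `|σ| ≤ y`, `lam = y - σ`: bound
`(y - σ)(2 s + 2 σ) + (y + σ)(2 s - y + σ)`, and the right side is
`∫_{-y}^{σ} (2 s + 2 τ) dτ + (y - σ)(2 s + 2 σ) = 2 s (σ + y) + σ^2 - y^2 + (y - σ)(2 s + 2 σ)`;
both are equal (`ring`).
-/

set_option autoImplicit false

open MeasureTheory Set Filter Topology
open scoped Real ENNReal NNReal

namespace MP4a1962

private theorem rB_lin (s a b : ℝ) :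
    ∫ τ in a..b, (2 * s + 2 * τ) = 2 * s * (b - a) + (b ^ 2 - a ^ 2) := by
  rw [intervalIntegral.integral_add intervalIntegrable_const
    (Continuous.intervalIntegrable (by fun_prop) _ _), intervalIntegral.integral_const,
    intervalIntegral.integral_const_mul, integral_id, smul_eq_mul]
  ring

private theorem rB_key {k : ℝ → ℝ} {s y lam : ℝ} (hk : Prof k (2 * s)) (hy : 0 < y) (hys : y ≤ s)
    (hl : 0 ≤ lam) (hl2 : lam ≤ 2 * y) {A : Set ℝ} (hA : MeasurableSet A)
    (hAf : volume A < ∞) :
    ∫ v in A, Kav k y v ≤ lam * volume.real A + (2 * y - lam) * (2 * s - lam) := by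
  have hfin : IsFiniteMeasure (volume.restrict A) := ⟨by
    rw [Measure.restrict_apply_univ]
    exact hAf⟩
  have hcont := continuous_Kav hk y
  have hint : IntegrableOn (Kav k y) A := by
    refine Measure.integrableOn_of_bounded (M := 2 * y) hAf.ne
      hcont.aestronglyMeasurable (Eventually.of_forall fun v => ?_)
    rw [Real.norm_eq_abs, abs_of_nonneg (Kav_nonneg hk hy.le v)]
    exact Kav_le hk hy.le v
  have hconst : IntegrableOn (fun _ : ℝ => lam) A := integrableOn_const hAf.ne
  have hsub : IntegrableOn (fun v => Kav k y v - lam) A := hint.sub hconst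
  have hmax : IntegrableOn (fun v => max (Kav k y v - lam) 0) A := hsub.pos_part
  have h1 : ∫ v in A, Kav k y v = (∫ v in A, (Kav k y v - lam)) + lam * volume.real A := by
    rw [integral_sub hint hconst, setIntegral_const, smul_eq_mul]
    ring
  have h2 : ∫ v in A, (Kav k y v - lam) ≤ ∫ v in A, max (Kav k y v - lam) 0 :=
    integral_mono hsub hmax fun v => le_max_left _ _
  have h3 : ∫ v in A, max (Kav k y v - lam) 0 =
      (∫⁻ v in A, ENNReal.ofReal (Kav k y v - lam)).toReal := by
    have h0 : 0 ≤ᵐ[volume.restrict A] fun v => max (Kav k y v - lam) 0 :=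
      Eventually.of_forall fun v => le_max_right _ _
    rw [integral_eq_lintegral_of_nonneg_ae h0 hmax.aestronglyMeasurable]
    congr 1
    refine lintegral_congr fun v => ?_
    rw [ENNReal.ofReal_max, ENNReal.ofReal_zero, max_eq_left zero_le]
  have h4 : (∫⁻ v in A, ENNReal.ofReal (Kav k y v - lam)) ≤
      ENNReal.ofReal ((2 * y - lam) * (2 * s - lam)) :=
    (setLIntegral_le_lintegral A _).trans (riesz_A hk hy hys hl hl2)
  have h5 : 0 ≤ (2 * y - lam) * (2 * s - lam) :=
    mul_nonneg (by linarith) (by linarith)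
  have h6 : (∫⁻ v in A, ENNReal.ofReal (Kav k y v - lam)).toReal ≤
      (2 * y - lam) * (2 * s - lam) := by
    have h7 := ENNReal.toReal_mono ENNReal.ofReal_ne_top h4
    rwa [ENNReal.toReal_ofReal h5] at h7
  rw [h1]
  rw [h3] at h2
  linarith

theorem riesz_B {k : ℝ → ℝ} {s y : ℝ} (hk : Prof k (2 * s)) (hy : 0 < y) (hys : y ≤ s)
    {A : Set ℝ} (hA : MeasurableSet A) (hAf : volume A < ∞) :
    ∫ v in A, Kav k y v ≤ ∫ τ in (-y)..y, min (volume.real A) (2 * s + 2 * τ) := by
  set m := volume.real A with hm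
  rcases le_or_gt (2 * s + 2 * y) m with h1 | h1
  · have h2 : ∫ τ in (-y)..y, min m (2 * s + 2 * τ) = ∫ τ in (-y)..y, (2 * s + 2 * τ) := by
      refine intervalIntegral.integral_congr fun τ hτ => ?_
      rw [uIcc_of_le (by linarith)] at hτ
      exact min_eq_right (by linarith [hτ.2])
    rw [h2, rB_lin]
    have h3 := rB_key hk hy hys le_rfl (by linarith) hA hAf
    nlinarith
  · rcases le_or_gt m (2 * s - 2 * y) with h4 | h4
    · have h2 : ∫ τ in (-y)..y, min m (2 * s + 2 * τ) = ∫ _τ in (-y)..y, m := by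
        refine intervalIntegral.integral_congr fun τ hτ => ?_
        rw [uIcc_of_le (by linarith)] at hτ
        exact min_eq_left (by linarith [hτ.1])
      rw [h2, intervalIntegral.integral_const, smul_eq_mul]
      have h3 := rB_key hk hy hys (by linarith : (0 : ℝ) ≤ 2 * y) le_rfl hA hAf
      rw [← hm] at h3
      nlinarith
    · set σ := (m - 2 * s) / 2 with hσ
      have hs1 : -y ≤ σ := by rw [hσ]; linarith
      have hs2 : σ ≤ y := by rw [hσ]; linarith
      have hmσ : m = 2 * s + 2 * σ := by rw [hσ]; ring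
      have hc : Continuous fun τ : ℝ => min m (2 * s + 2 * τ) := by fun_prop
      have h5 : ∫ τ in (-y)..σ, min m (2 * s + 2 * τ) = ∫ τ in (-y)..σ, (2 * s + 2 * τ) := by
        refine intervalIntegral.integral_congr fun τ hτ => ?_
        rw [uIcc_of_le hs1] at hτ
        exact min_eq_right (by linarith [hτ.2])
      have h6 : ∫ τ in σ..y, min m (2 * s + 2 * τ) = ∫ _τ in σ..y, m := by
        refine intervalIntegral.integral_congr fun τ hτ => ?_
        rw [uIcc_of_le hs2] at hτ
        exact min_eq_left (by linarith [hτ.1])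
      rw [← intervalIntegral.integral_add_adjacent_intervals (hc.intervalIntegrable (-y) σ)
        (hc.intervalIntegrable σ y), h5, h6, rB_lin, intervalIntegral.integral_const, smul_eq_mul]
      have h3 := rB_key (lam := y - σ) hk hy hys (by linarith) (by linarith) hA hAf
      rw [← hm] at h3
      nlinarith

end MP4a1962
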