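import Pool.Agent.Lib.MP_4a1962_an.RieszB
import Pool.Agent.Lib.MP_4a1962_an.StarBasic

/-!
# RieszC: the moving average against a function

Main statement `riesz_main`: for a profile `k` of mass `≤ 2 s`, `0 ≤ y ≤ s`, and `g ≥ 0` measurable
integrable, `∫ k v (∫_{-y}^{y} g (v + τ) dτ) dv ≤ ∫_{-y}^{y} starB g (2 s + 2 τ) dτ`.

Proof. The case `y = 0` is trivial (both sides `0`). Let `y > 0`.
(1) Fubini: `∫ k v ∫_{-y}^{y} g (v + τ) dτ dv = ∫ g v' Kav k y v' dv'`: substitute `v' = v + τ`;
`∫∫ k v g v' 1[|v' - v| ≤ y] dv dv'`; the integrand is integrable on the plane because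
`∫ k v ∫ g v' 1[..] dv' dv ≤ (∫ k)(∫ g)`.
(2) Layer cake with the finite kernel: `∫ Kav g = ∫ t in Ioi 0, (∫ v in {t < g}, Kav k y v) dt`
(Tonelli; `0 ≤ Kav ≤ 2 y`).
(3) `riesz_B` with `A = {t < g}` (finite measure for `t > 0`), then Fubini for
`∫ t in Ioi 0, ∫ τ in (-y)..y, min (volume.real {t < g}) (2 s + 2 τ)
  = ∫ τ in (-y)..y, starB g (2 s + 2 τ)` (integrand nonnegative and bounded by
`volume.real {t < g}`, which is integrable on `Ioi 0`: `distr_integrableOn`; `2 s + 2 τ ≥ 0`).
-/

set_option autoImplicit false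

open MeasureTheory Set Filter Topology
open scoped Real ENNReal NNReal

namespace MP4a1962

private theorem prod_int1 {k g : ℝ → ℝ} {m y : ℝ} (hk : Prof k m)
    (hg : Measurable g) (hi : Integrable g) :
    Integrable (Function.uncurry fun (v τ : ℝ) => k v * g (v + τ))
      (volume.prod (volume.restrict (Ioc (-y) y))) := by
  have hb : ∀ τ : ℝ, ∀ v, ‖k v * g (v + τ)‖ ≤ ‖g (v + τ)‖ := by
    intro τ v
    rw [norm_mul, Real.norm_of_nonneg (hk.nonneg v)]
    calc k v * ‖g (v + τ)‖ ≤ 1 * ‖g (v + τ)‖ :=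
          mul_le_mul_of_nonneg_right (hk.le_one v) (norm_nonneg _)
      _ = _ := one_mul _
  have hm : Measurable (Function.uncurry fun (v τ : ℝ) => k v * g (v + τ)) :=
    (hk.meas.comp measurable_fst).mul (hg.comp (measurable_fst.add measurable_snd))
  have hiτ : ∀ τ : ℝ, Integrable (fun v => g (v + τ)) := fun τ => hi.comp_add_right τ
  have hiτ2 : ∀ τ : ℝ, Integrable (fun v => k v * g (v + τ)) := fun τ =>
    (hiτ τ).mono (hk.meas.mul (hg.comp (measurable_id.add measurable_const))).aestronglyMeasurable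
      (Eventually.of_forall (hb τ))
  rw [integrable_prod_iff' hm.aestronglyMeasurable]
  refine ⟨Eventually.of_forall hiτ2, ?_⟩
  refine Integrable.mono' (g := fun _ => ∫ v, ‖g v‖) (integrable_const _) ?_ ?_
  · exact (hm.norm.stronglyMeasurable.integral_prod_left' (μ := volume)).aestronglyMeasurable
  · refine Eventually.of_forall fun τ => ?_
    rw [Real.norm_of_nonneg (integral_nonneg fun _ => norm_nonneg _)]
    calc ∫ v, ‖Function.uncurry (fun (v τ : ℝ) => k v * g (v + τ)) (v, τ)‖
        ≤ ∫ v, ‖g (v + τ)‖ := integral_mono (hiτ2 τ).norm (hiτ τ).norm (hb τ)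
      _ = ∫ v, ‖g v‖ := integral_add_right_eq_self (fun v => ‖g v‖) τ

private theorem prod_int2 {k g : ℝ → ℝ} {m y : ℝ} (hk : Prof k m)
    (hg : Measurable g) (hi : Integrable g) :
    Integrable (Function.uncurry fun (v τ : ℝ) => k (v - τ) * g v)
      (volume.prod (volume.restrict (Ioc (-y) y))) := by
  have hb : ∀ τ : ℝ, ∀ v, ‖k (v - τ) * g v‖ ≤ ‖g v‖ := by
    intro τ v
    rw [norm_mul, Real.norm_of_nonneg (hk.nonneg _)]
    calc k (v - τ) * ‖g v‖ ≤ 1 * ‖g v‖ :=
          mul_le_mul_of_nonneg_right (hk.le_one _) (norm_nonneg _)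
      _ = _ := one_mul _
  have hm : Measurable (Function.uncurry fun (v τ : ℝ) => k (v - τ) * g v) :=
    (hk.meas.comp (measurable_fst.sub measurable_snd)).mul (hg.comp measurable_fst)
  have hiτ2 : ∀ τ : ℝ, Integrable (fun v => k (v - τ) * g v) := fun τ =>
    hi.mono ((hk.meas.comp (measurable_id.sub measurable_const)).mul hg).aestronglyMeasurable
      (Eventually.of_forall (hb τ))
  rw [integrable_prod_iff' hm.aestronglyMeasurable]
  refine ⟨Eventually.of_forall hiτ2, ?_⟩
  refine Integrable.mono' (g := fun _ => ∫ v, ‖g v‖) (integrable_const _) ?_ ?_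
  · exact (hm.norm.stronglyMeasurable.integral_prod_left' (μ := volume)).aestronglyMeasurable
  · refine Eventually.of_forall fun τ => ?_
    rw [Real.norm_of_nonneg (integral_nonneg fun _ => norm_nonneg _)]
    exact integral_mono (hiτ2 τ).norm hi.norm (hb τ)

private theorem Kav_eq_sub (k : ℝ → ℝ) (y v : ℝ) : Kav k y v = ∫ τ in (-y)..y, k (v - τ) := by
  have := intervalIntegral.integral_comp_sub_left (a := -y) (b := y) (fun x => k x) v
  rw [this, sub_neg_eq_add]
  rfl

theorem riesz_fubini {k g : ℝ → ℝ} {m y : ℝ} (hk : Prof k m) (hy : 0 ≤ y)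
    (hg : Measurable g) (h0 : ∀ v, 0 ≤ g v) (hi : Integrable g) :
    ∫ v, k v * (∫ τ in (-y)..y, g (v + τ)) = ∫ v, Kav k y v * g v := by
  have hyy : -y ≤ y := by linarith
  have e1 : ∫ v, k v * (∫ τ in (-y)..y, g (v + τ))
      = ∫ v, ∫ τ in Ioc (-y) y, k v * g (v + τ) := by
    refine integral_congr_ae (Eventually.of_forall fun v => ?_)
    simp only [intervalIntegral.integral_of_le hyy]
    rw [integral_const_mul]
  have e2 : ∫ v, Kav k y v * g v = ∫ v, ∫ τ in Ioc (-y) y, k (v - τ) * g v := by
    refine integral_congr_ae (Eventually.of_forall fun v => ?_)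
    simp only [Kav_eq_sub, intervalIntegral.integral_of_le hyy]
    rw [integral_mul_const]
  rw [e1, e2, integral_integral_swap (prod_int1 hk hg hi), integral_integral_swap
    (prod_int2 hk hg hi)]
  refine integral_congr_ae (Eventually.of_forall fun τ => ?_)
  have := integral_sub_right_eq_self (μ := volume) (fun v => k v * g (v + τ)) τ
  simp only [sub_add_cancel] at this
  exact this.symm

theorem riesz_main {k g : ℝ → ℝ} {s y : ℝ} (hk : Prof k (2 * s)) (hy : 0 ≤ y) (hys : y ≤ s)
    (hg : Measurable g) (h0 : ∀ v, 0 ≤ g v) (hi : Integrable g) :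
    ∫ v, k v * (∫ τ in (-y)..y, g (v + τ)) ≤ ∫ τ in (-y)..y, starB g (2 * s + 2 * τ) := by
  rcases hy.eq_or_lt with rfl | hy0
  · simp
  have hyy : -y ≤ y := by linarith
  rw [riesz_fubini hk hy hg h0 hi]
  set dm : ℝ → ℝ := fun t => volume.real {v : ℝ | t < g v} with hdm
  have hset : MeasurableSet {q : ℝ × ℝ | q.2 < g q.1} :=
    measurableSet_lt measurable_snd (hg.comp measurable_fst)
  have hdmm : Measurable dm := by
    have := measurable_measure_prodMk_right (μ := (volume : Measure ℝ)) hset
    exact this.ennreal_toReal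
  have hKm : Measurable (Kav k y) := (continuous_Kav hk y).measurable
  have hKb : ∀ v, ‖Kav k y v‖ ≤ 2 * y := fun v => by
    rw [Real.norm_of_nonneg (Kav_nonneg hk hy v)]
    exact Kav_le hk hy v
  -- layer cake
  let f : ℝ → ℝ → ℝ := fun v t => Kav k y v * ({q : ℝ × ℝ | q.2 < g q.1}.indicator 1 (v, t))
  have hfm : Measurable (Function.uncurry f) :=
    (hKm.comp measurable_fst).mul (measurable_one.indicator hset)
  have hfv : ∀ v t, f v t = (Iio (g v)).indicator (fun _ => Kav k y v) t := by
    intro v t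
    simp only [f, Set.indicator, mem_setOf_eq, mem_Iio, Pi.one_apply]
    split_ifs <;> simp
  have hvol : ∀ v, (volume.restrict (Ioi (0 : ℝ))) (Iio (g v)) = ENNReal.ofReal (g v) := by
    intro v
    rw [Measure.restrict_apply measurableSet_Iio, Set.inter_comm, Ioi_inter_Iio, Real.volume_Ioo,
      sub_zero]
  have hfint : ∀ v, Integrable (f v) (volume.restrict (Ioi (0 : ℝ))) := by
    intro v
    have : f v = (Iio (g v)).indicator (fun _ => Kav k y v) := funext (hfv v)
    rw [this, integrable_indicator_iff measurableSet_Iio]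
    refine integrableOn_const ?_
    rw [hvol]
    exact ENNReal.ofReal_ne_top
  have hfval : ∀ v, ∫ t in Ioi (0 : ℝ), f v t = Kav k y v * g v := by
    intro v
    have : f v = (Iio (g v)).indicator (fun _ => Kav k y v) := funext (hfv v)
    rw [this, integral_indicator measurableSet_Iio, setIntegral_const]
    rw [measureReal_def, hvol, ENNReal.toReal_ofReal (h0 v), smul_eq_mul, mul_comm]
  have hf0 : ∀ v t, 0 ≤ f v t := by
    intro v t
    rw [hfv]
    exact Set.indicator_nonneg (fun _ _ => Kav_nonneg hk hy v) _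
  have hKg : Integrable (fun v => Kav k y v * g v) := by
    refine Integrable.mono' (g := fun v => 2 * y * g v) (hi.const_mul _)
      (hKm.mul hg).aestronglyMeasurable (Eventually.of_forall fun v => ?_)
    rw [norm_mul, Real.norm_of_nonneg (h0 v)]
    exact mul_le_mul_of_nonneg_right (hKb v) (h0 v)
  have hfI : Integrable (Function.uncurry f) (volume.prod (volume.restrict (Ioi (0 : ℝ)))) := by
    rw [integrable_prod_iff hfm.aestronglyMeasurable]
    refine ⟨Eventually.of_forall hfint, ?_⟩
    refine hKg.congr (Eventually.of_forall fun v => ?_)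
    simp only [← hfval]
    refine integral_congr_ae (Eventually.of_forall fun t => ?_)
    exact (Real.norm_of_nonneg (hf0 v t)).symm
  have e1 : ∫ v, Kav k y v * g v = ∫ t in Ioi (0 : ℝ), ∫ v, f v t := by
    rw [← integral_integral_swap hfI]
    exact integral_congr_ae (Eventually.of_forall fun v => (hfval v).symm)
  have e2 : ∀ t, ∫ v, f v t = ∫ v in {v : ℝ | t < g v}, Kav k y v := by
    intro t
    rw [← integral_indicator (measurableSet_lt measurable_const hg)]
    refine integral_congr_ae (Eventually.of_forall fun v => ?_)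
    simp only [f, Set.indicator, mem_setOf_eq, Pi.one_apply]
    split_ifs <;> simp
  -- the right side
  let F : ℝ → ℝ → ℝ := fun t τ => min (dm t) (2 * s + 2 * τ)
  have hFm : Measurable (Function.uncurry F) :=
    (hdmm.comp measurable_fst).min ((measurable_snd.const_mul 2).const_add (2 * s))
  have hF0 : ∀ t, ∀ τ ∈ Ioc (-y) y, 0 ≤ F t τ := by
    intro t τ hτ
    refine le_min measureReal_nonneg ?_
    have := hτ.1
    linarith
  have hFb : ∀ t, ∀ τ ∈ Ioc (-y) y, ‖F t τ‖ ≤ dm t := by
    intro t τ hτ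
    rw [Real.norm_of_nonneg (hF0 t τ hτ)]
    exact min_le_left _ _
  have hdI : IntegrableOn dm (Ioi (0 : ℝ)) := distr_integrableOn hg h0 hi
  have hFI : Integrable (Function.uncurry F)
      ((volume.restrict (Ioi (0 : ℝ))).prod (volume.restrict (Ioc (-y) y))) := by
    have hD : Integrable (fun q : ℝ × ℝ => dm q.1)
        ((volume.restrict (Ioi (0 : ℝ))).prod (volume.restrict (Ioc (-y) y))) := by
      have := Integrable.mul_prod (μ := volume.restrict (Ioi (0 : ℝ)))
        (ν := volume.restrict (Ioc (-y) y)) (f := dm) (g := fun _ => (1 : ℝ)) hdI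
        (integrable_const _)
      simpa using this
    refine Integrable.mono' hD hFm.aestronglyMeasurable ?_
    have hae : ∀ᵐ q ∂((volume.restrict (Ioi (0 : ℝ))).prod (volume.restrict (Ioc (-y) y))),
        q ∈ Ioi (0 : ℝ) ×ˢ Ioc (-y) y := by
      rw [Measure.prod_restrict]
      exact ae_restrict_mem (measurableSet_Ioi.prod measurableSet_Ioc)
    filter_upwards [hae] with q hq
    exact hFb q.1 q.2 hq.2
  have e3 : ∫ τ in (-y)..y, starB g (2 * s + 2 * τ)
      = ∫ t in Ioi (0 : ℝ), ∫ τ in (-y)..y, F t τ := by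
    simp only [intervalIntegral.integral_of_le hyy]
    rw [integral_integral_swap hFI]
    rfl
  rw [e1, e3]
  have i1 : IntegrableOn (fun t => ∫ v, f v t) (Ioi (0 : ℝ)) := hfI.integral_prod_right
  have i2 : IntegrableOn (fun t => ∫ τ in (-y)..y, F t τ) (Ioi (0 : ℝ)) := by
    simp only [intervalIntegral.integral_of_le hyy]
    exact hFI.integral_prod_left
  refine setIntegral_mono_on i1 i2 measurableSet_Ioi fun t ht => ?_
  rw [e2]
  exact riesz_B hk hy0 hys (measurableSet_lt measurable_const hg) (meas_gt_lt_top h0 hi ht)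

end MP4a1962
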