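import Pool.Agent.Lib.MP_4a1962_an.S0Basic

/-!
# S0Disc: disc mean identity for `S0`

`π ρ² S0 w = dInt ρ S0 w + Pcor ρ w.re` for `0 < ρ ≤ w.im`, `w.im + ρ ≤ π`.

Proof. Let `u = w.re`, `s = w.im`. Integrate `N0_disc` at `pt u v` over `v ∈ [-s, s]` (`v ≠ 0` a.e.;
`|v| + ρ ≤ s + ρ ≤ π < 2 π`): `π ρ² S0 w = ∫ v in (-s)..s, dInt ρ N0 (pt u v) + ∫ v in (-s)..s, Jcor ρ (pt u v)`.
The last integral is `Pcor ρ u` since `Jcor ρ (pt u v) = 0` for `|v| ≥ s ≥ ρ` (`Jcor_zero`).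
Fubini for the first: `∫ ζ in ball 0 ρ, G ζ`, `G ζ = ∫ v in (-s + ζ.im)..(s + ζ.im), N0 (pt (u + ζ.re) v)`
(integrability on `Icc (-s) s × ball`: `N0 = R - lg`, `R` bounded on compact sets, `lg_ball_bound`).
`G ζ + G (conj ζ) = S0 (w + ζ) + S0 (w + conj ζ)` because, with `τ = ζ.im`,
`∫_{-s+τ}^{s+τ} + ∫_{-s-τ}^{s-τ} = ∫_{-s-τ}^{s+τ} + ∫_{-s+τ}^{s-τ}` (interval additivity). The ball is
invariant under conjugation (measure preserving), so `∫ G = ∫ S0 (w + ·)` over the ball.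
-/

set_option autoImplicit false

open MeasureTheory Set Filter Topology
open scoped Real ENNReal NNReal

namespace MP4a1962

private lemma ball_strip {w ζ : ℂ} {ρ : ℝ} (hw : ρ ≤ w.im) (hw2 : w.im + ρ ≤ π)
    (hζ : ζ ∈ Metric.closedBall (0 : ℂ) ρ) : 0 ≤ (w + ζ).im ∧ (w + ζ).im ≤ π := by
  rw [Metric.mem_closedBall, dist_zero_right] at hζ
  have h1 := abs_le.mp ((Complex.abs_im_le_norm ζ).trans hζ)
  rw [Complex.add_im]
  exact ⟨by linarith [h1.1], by linarith [h1.2]⟩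

theorem S0_ball_int {w : ℂ} {ρ : ℝ} (hρ : 0 < ρ) (hw : ρ ≤ w.im) (hw2 : w.im + ρ ≤ π) :
    IntegrableOn (fun ζ => S0 (w + ζ)) (Metric.ball (0 : ℂ) ρ) := by
  have _ := hρ
  have hc : ContinuousOn (fun ζ => S0 (w + ζ)) (Metric.closedBall (0 : ℂ) ρ) :=
    S0_continuousOn.comp (continuous_const.add continuous_id).continuousOn
      (fun ζ hζ => ball_strip hw hw2 hζ)
  exact (hc.integrableOn_compact (isCompact_closedBall 0 ρ)).mono_set
    Metric.ball_subset_closedBall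

private lemma ae_ne0 : ∀ᵐ v : ℝ, v ≠ 0 := by
  rw [ae_iff]
  simp

private lemma pt_ne0 (u : ℝ) {v : ℝ} (hv : v ≠ 0) : pt u v ≠ 0 := fun h => by
  have := congrArg Complex.im h
  simp at this
  exact hv this

private lemma mean_ae {w : ℂ} {ρ : ℝ} (hρ : 0 < ρ) (hw : ρ ≤ w.im) (hw2 : w.im + ρ ≤ π) :
    ∀ᵐ v ∂(volume.restrict (Ioc (-w.im) w.im)),
      π * ρ ^ 2 * N0 (pt w.re v) = dInt ρ N0 (pt w.re v) + Jcor ρ (pt w.re v) := by
  filter_upwards [ae_restrict_of_ae ae_ne0, self_mem_ae_restrict measurableSet_Ioc] with v hv hv'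
  apply N0_disc (pt_ne0 _ hv) hρ
  have h1 : |v| ≤ w.im := abs_le.mpr ⟨hv'.1.le, hv'.2⟩
  rw [pt_im]
  linarith [Real.pi_pos]

private lemma N0_Ioc_int {w : ℂ} {ρ : ℝ} (hρ : 0 < ρ) (hw : ρ ≤ w.im) (hw2 : w.im + ρ ≤ π) :
    IntegrableOn (fun v => N0 (pt w.re v)) (Ioc (-w.im) w.im) := by
  have hπ := Real.pi_pos
  have h := N0_line_int w.re (s := -w.im) (by rw [abs_neg, abs_of_nonneg (by linarith)]; linarith)
    w.im (by rw [abs_of_nonneg (by linarith)]; linarith)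
  exact (intervalIntegrable_iff_integrableOn_Ioc_of_le (by linarith)).mp h

private lemma dInt_Ioc_int {w : ℂ} {ρ : ℝ} (hρ : 0 < ρ) (hw : ρ ≤ w.im) (hw2 : w.im + ρ ≤ π) :
    IntegrableOn (fun v => dInt ρ N0 (pt w.re v)) (Ioc (-w.im) w.im) := by
  have h1 : IntegrableOn (fun v => π * ρ ^ 2 * N0 (pt w.re v) - Jcor ρ (pt w.re v))
      (Ioc (-w.im) w.im) :=
    ((N0_Ioc_int hρ hw hw2).const_mul _).sub (Jcor_line hρ w.re).integrableOn
  refine Integrable.congr h1 ?_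
  filter_upwards [mean_ae hρ hw hw2] with v hv
  rw [hv]
  ring

private lemma prod_int {w : ℂ} {ρ : ℝ} (hρ : 0 < ρ) (hw : ρ ≤ w.im) (hw2 : w.im + ρ ≤ π) :
    Integrable (fun q : ℝ × ℂ => N0 (pt w.re q.1 + q.2))
      ((volume.restrict (Ioc (-w.im) w.im)).prod (volume.restrict (Metric.ball (0 : ℂ) ρ))) := by
  have hmeas : Measurable (fun q : ℝ × ℂ => N0 (pt w.re q.1 + q.2)) :=
    measurable_N0.comp (((measurable_pt_right w.re).comp measurable_fst).add measurable_snd)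
  rw [integrable_prod_iff hmeas.aestronglyMeasurable]
  constructor
  · filter_upwards [self_mem_ae_restrict measurableSet_Ioc] with v hv
    apply N0_ball_int hρ
    have h1 : |v| ≤ w.im := abs_le.mpr ⟨hv.1.le, hv.2⟩
    rw [pt_im]
    linarith [Real.pi_pos]
  · refine Integrable.congr (dInt_Ioc_int hρ hw hw2) ?_
    filter_upwards [self_mem_ae_restrict measurableSet_Ioc] with v hv
    have h1 : |v| ≤ w.im := abs_le.mpr ⟨hv.1.le, hv.2⟩
    unfold dInt
    refine setIntegral_congr_fun measurableSet_ball ?_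
    intro ζ hζ
    have hζ' : ‖ζ‖ < ρ := by
      have h2 : ζ ∈ Metric.ball (0 : ℂ) ρ := hζ
      rwa [Metric.mem_ball, dist_zero_right] at h2
    have h3 : |(pt w.re v + ζ).im| ≤ π := by
      rw [Complex.add_im, pt_im]
      have h4 := abs_add_le v ζ.im
      have h5 := (Complex.abs_im_le_norm ζ).trans hζ'.le
      linarith
    simp only
    rw [Real.norm_eq_abs, abs_of_nonneg (N0_nonneg h3)]

/-- the part of `S0 (w + ζ)` not seen by the translate -/
private noncomputable def Hh (w ζ : ℂ) : ℝ :=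
  ∫ v in (-w.im - ζ.im)..(-w.im + ζ.im), N0 (pt (w.re + ζ.re) v)

private lemma Hh_conj (w ζ : ℂ) : Hh w (Complex.conjLIE ζ) = - Hh w ζ := by
  unfold Hh
  have h1 : (Complex.conjLIE ζ).re = ζ.re := rfl
  have h2 : (Complex.conjLIE ζ).im = -ζ.im := rfl
  rw [h1, h2, intervalIntegral.integral_symm, sub_neg_eq_add, ← sub_eq_add_neg]

private lemma Hh_integral (w : ℂ) (ρ : ℝ) : ∫ ζ in Metric.ball (0 : ℂ) ρ, Hh w ζ = 0 := by
  have h1 := (LinearIsometryEquiv.measurePreserving Complex.conjLIE).setIntegral_preimage_emb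
    Complex.conjLIE.toHomeomorph.measurableEmbedding (fun ζ => Hh w ζ) (Metric.ball (0 : ℂ) ρ)
  have h2 : (Complex.conjLIE : ℂ → ℂ) ⁻¹' (Metric.ball (0 : ℂ) ρ) = Metric.ball (0 : ℂ) ρ := by
    ext ζ
    rw [mem_preimage, Metric.mem_ball, Metric.mem_ball, dist_zero_right, dist_zero_right,
      LinearIsometryEquiv.norm_map]
  rw [h2] at h1
  simp only [Hh_conj] at h1
  rw [integral_neg] at h1
  linarith

private lemma G_eq {w : ℂ} {ρ : ℝ} (hρ : 0 < ρ) (hw : ρ ≤ w.im) (hw2 : w.im + ρ ≤ π) {ζ : ℂ}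
    (hζ : ζ ∈ Metric.ball (0 : ℂ) ρ) :
    ∫ v in Ioc (-w.im) w.im, N0 (pt w.re v + ζ) = S0 (w + ζ) - Hh w ζ := by
  have hπ := Real.pi_pos
  rw [Metric.mem_ball, dist_zero_right] at hζ
  have h1 := abs_le.mp ((Complex.abs_im_le_norm ζ).trans hζ.le)
  have hi : ∀ a b : ℝ, |a| ≤ π → |b| ≤ π →
      IntervalIntegrable (fun v => N0 (pt (w.re + ζ.re) v)) volume a b :=
    fun a b ha hb => N0_line_int _ (by linarith) _ (by linarith)
  have e1 : ∀ v : ℝ, pt w.re v + ζ = pt (w.re + ζ.re) (v + ζ.im) := fun v => rfl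
  have e2 : ∫ v in Ioc (-w.im) w.im, N0 (pt w.re v + ζ) =
      ∫ v in (-w.im + ζ.im)..(w.im + ζ.im), N0 (pt (w.re + ζ.re) v) := by
    rw [← intervalIntegral.integral_of_le (by linarith)]
    simp only [e1]
    rw [intervalIntegral.integral_comp_add_right (fun v => N0 (pt (w.re + ζ.re) v))]
  have e3 : S0 (w + ζ) = ∫ v in (-w.im - ζ.im)..(w.im + ζ.im), N0 (pt (w.re + ζ.re) v) := by
    unfold S0
    rw [Complex.add_im, Complex.add_re, neg_add, ← sub_eq_add_neg]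
  rw [e2, e3]
  unfold Hh
  have e4 := intervalIntegral.integral_add_adjacent_intervals
    (hi (-w.im - ζ.im) (-w.im + ζ.im) (abs_le.mpr ⟨by linarith, by linarith⟩)
      (abs_le.mpr ⟨by linarith, by linarith⟩))
    (hi (-w.im + ζ.im) (w.im + ζ.im) (abs_le.mpr ⟨by linarith, by linarith⟩)
      (abs_le.mpr ⟨by linarith, by linarith⟩))
  linarith

theorem S0_disc {w : ℂ} {ρ : ℝ} (hρ : 0 < ρ) (hw : ρ ≤ w.im) (hw2 : w.im + ρ ≤ π) :
    π * ρ ^ 2 * S0 w = dInt ρ S0 w + Pcor ρ w.re := by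
  have hs : -w.im ≤ w.im := by linarith
  have h1 : π * ρ ^ 2 * S0 w = (∫ v in Ioc (-w.im) w.im, dInt ρ N0 (pt w.re v)) +
      ∫ v in Ioc (-w.im) w.im, Jcor ρ (pt w.re v) := by
    unfold S0
    rw [intervalIntegral.integral_of_le hs, ← integral_const_mul,
      ← integral_add (dInt_Ioc_int hρ hw hw2) (Jcor_line hρ w.re).integrableOn]
    exact integral_congr_ae (mean_ae hρ hw hw2)
  have h2 : ∫ v in Ioc (-w.im) w.im, Jcor ρ (pt w.re v) = Pcor ρ w.re := by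
    unfold Pcor
    apply setIntegral_eq_integral_of_forall_compl_eq_zero
    intro v hv
    apply Jcor_zero hρ
    have h3 : ρ ≤ |v| := by
      by_contra h3
      push Not at h3
      have h4 := abs_lt.mp h3
      exact hv ⟨by linarith [h4.1], by linarith [h4.2]⟩
    exact h3.trans (Complex.abs_im_le_norm (pt w.re v))
  have h3 : ∫ v in Ioc (-w.im) w.im, dInt ρ N0 (pt w.re v) =
      ∫ ζ in Metric.ball (0 : ℂ) ρ, ∫ v in Ioc (-w.im) w.im, N0 (pt w.re v + ζ) := by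
    unfold dInt
    exact integral_integral_swap (f := fun v ζ => N0 (pt w.re v + ζ)) (prod_int hρ hw hw2)
  have hG : IntegrableOn (fun ζ => ∫ v in Ioc (-w.im) w.im, N0 (pt w.re v + ζ))
      (Metric.ball (0 : ℂ) ρ) := (prod_int hρ hw hw2).integral_prod_right
  have h4 : ∫ ζ in Metric.ball (0 : ℂ) ρ, Hh w ζ = dInt ρ S0 w -
      ∫ ζ in Metric.ball (0 : ℂ) ρ, ∫ v in Ioc (-w.im) w.im, N0 (pt w.re v + ζ) := by
    unfold dInt
    rw [← integral_sub (S0_ball_int hρ hw hw2) hG]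
    refine setIntegral_congr_fun measurableSet_ball ?_
    intro ζ hζ
    simp only
    rw [G_eq hρ hw hw2 hζ]
    ring
  rw [Hh_integral] at h4
  rw [h1, h2, h3]
  linarith

end MP4a1962
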