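import Pool.Agent.Lib.MP_4a1962_an.Defs

/-!
# U0Basic: elementary properties of `U0 θ = 2 (log |cos (θ/2)| - log |sin (θ/2)|)`

Integrability: `intervalIntegrable_log_sin`-type lemmas of Mathlib (search `log_sin`, `log ∘ sin`), or
`MeromorphicOn.intervalIntegrable_log_norm` (log of the norm of a meromorphic / analytic function on an
interval is interval integrable), or `log |sin x| ≥ log (2x/π)`.
`U0_total`: from `U0_even`, `U0_anti` (substitution `θ ↦ π - θ` on `(0, π)`).
-/

set_option autoImplicit false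

open MeasureTheory Set Filter Topology
open scoped Real ENNReal NNReal

namespace MP4a1962

theorem U0_even (θ : ℝ) : U0 (-θ) = U0 θ := by
  unfold U0
  rw [neg_div, Real.cos_neg, Real.sin_neg, abs_neg]

theorem U0_anti (θ : ℝ) : U0 (π - θ) = - U0 θ := by
  unfold U0
  have h : (π - θ) / 2 = π / 2 - θ / 2 := by ring
  rw [h, Real.cos_pi_div_two_sub, Real.sin_pi_div_two_sub]
  ring

theorem measurable_U0 : Measurable U0 := by
  have hc : Measurable fun θ : ℝ => Real.log |Real.cos (θ / 2)| :=
    Real.measurable_log.comp ((Real.measurable_cos.comp (measurable_id.div_const 2)).abs)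
  have hs : Measurable fun θ : ℝ => Real.log |Real.sin (θ / 2)| :=
    Real.measurable_log.comp ((Real.measurable_sin.comp (measurable_id.div_const 2)).abs)
  exact (hc.sub hs).const_mul 2

theorem U0_int (a b : ℝ) : IntervalIntegrable U0 volume a b := by
  have hs : IntervalIntegrable (fun θ : ℝ => Real.log |Real.sin (θ / 2)|) volume a b := by
    have h1 : IntervalIntegrable (Real.log ∘ Real.sin) volume (a / 2) (b / 2) :=
      intervalIntegrable_log_sin
    have h2 := h1.comp_mul_left (c := (1 / 2 : ℝ))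
    have e1 : a / 2 / (1 / 2) = a := by ring
    have e2 : b / 2 / (1 / 2) = b := by ring
    rw [e1, e2] at h2
    refine h2.congr fun θ _ => ?_
    change Real.log (Real.sin (1 / 2 * θ)) = Real.log |Real.sin (θ / 2)|
    rw [Real.log_abs, one_div_mul_eq_div]
  have hc : IntervalIntegrable (fun θ : ℝ => Real.log |Real.cos (θ / 2)|) volume a b := by
    have h1 : IntervalIntegrable (Real.log ∘ Real.cos) volume (a / 2) (b / 2) :=
      intervalIntegrable_log_cos
    have h2 := h1.comp_mul_left (c := (1 / 2 : ℝ))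
    have e1 : a / 2 / (1 / 2) = a := by ring
    have e2 : b / 2 / (1 / 2) = b := by ring
    rw [e1, e2] at h2
    refine h2.congr fun θ _ => ?_
    change Real.log (Real.cos (1 / 2 * θ)) = Real.log |Real.cos (θ / 2)|
    rw [Real.log_abs, one_div_mul_eq_div]
  exact (hc.sub hs).const_mul 2

theorem U0_nonneg {t : ℝ} (h0 : 0 < t) (h1 : t ≤ π / 2) : 0 ≤ U0 t := by
  have hpi := Real.pi_pos
  have hs : 0 < Real.sin (t / 2) := Real.sin_pos_of_pos_of_lt_pi (by linarith) (by linarith)
  have hle : Real.sin (t / 2) ≤ Real.cos (t / 2) := by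
    rw [← Real.cos_pi_div_two_sub (t / 2)]
    exact Real.cos_le_cos_of_nonneg_of_le_pi (by linarith) (by linarith) (by linarith)
  unfold U0
  rw [abs_of_pos hs, abs_of_pos (hs.trans_le hle)]
  have := Real.log_le_log hs hle
  linarith

/-- `U0 t > x` iff `t < 2 arctan (exp (-x/2))`, for `t` in `(0, π)` -/
theorem U0_gt_iff {t : ℝ} (h0 : 0 < t) (h1 : t < π) (x : ℝ) :
    x < U0 t ↔ t < 2 * Real.arctan (Real.exp (-x / 2)) := by
  have hpi := Real.pi_pos
  have hs : 0 < Real.sin (t / 2) := Real.sin_pos_of_pos_of_lt_pi (by linarith) (by linarith)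
  have hc : 0 < Real.cos (t / 2) := Real.cos_pos_of_mem_Ioo ⟨by linarith, by linarith⟩
  have ht : 0 < Real.tan (t / 2) := by
    rw [Real.tan_eq_sin_div_cos]
    exact div_pos hs hc
  have hU : U0 t = -2 * Real.log (Real.tan (t / 2)) := by
    unfold U0
    rw [abs_of_pos hs, abs_of_pos hc, Real.tan_eq_sin_div_cos, Real.log_div hs.ne' hc.ne']
    ring
  have h2 : x < U0 t ↔ Real.log (Real.tan (t / 2)) < -x / 2 := by
    rw [hU]
    constructor
    · intro h
      linarith
    · intro h
      linarith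
  have h3 : Real.log (Real.tan (t / 2)) < -x / 2 ↔ Real.tan (t / 2) < Real.exp (-x / 2) :=
    Real.log_lt_iff_lt_exp ht
  have h4 : Real.tan (t / 2) < Real.exp (-x / 2) ↔ t / 2 < Real.arctan (Real.exp (-x / 2)) := by
    have h5 : Real.arctan (Real.tan (t / 2)) = t / 2 :=
      Real.arctan_tan (by linarith) (by linarith)
    constructor
    · intro h
      rw [← h5]
      exact Real.arctan_strictMono h
    · intro h
      rw [← h5] at h
      exact Real.arctan_strictMono.lt_iff_lt.1 h
  rw [h2, h3, h4]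
  constructor
  · intro h
    linarith
  · intro h
    linarith

theorem U0_total : ∫ θ in (-π)..π, U0 θ = 0 := by
  have h1 : ∫ θ in (0 : ℝ)..π, U0 θ = 0 := by
    have h2 : ∫ θ in (0 : ℝ)..π, U0 (π - θ) = ∫ θ in (0 : ℝ)..π, U0 θ := by
      rw [intervalIntegral.integral_comp_sub_left (fun θ => U0 θ) π, sub_self, sub_zero]
    have h3 : ∫ θ in (0 : ℝ)..π, U0 (π - θ) = -∫ θ in (0 : ℝ)..π, U0 θ := by
      rw [← intervalIntegral.integral_neg]
      exact intervalIntegral.integral_congr fun θ _ => U0_anti θ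
    linarith
  have h4 : ∫ θ in (-π)..(0 : ℝ), U0 θ = 0 := by
    have h5 : ∫ θ in (0 : ℝ)..π, U0 (-θ) = ∫ θ in (-π)..(0 : ℝ), U0 θ := by
      rw [intervalIntegral.integral_comp_neg (fun θ => U0 θ), neg_zero]
    have h6 : ∫ θ in (0 : ℝ)..π, U0 (-θ) = ∫ θ in (0 : ℝ)..π, U0 θ :=
      intervalIntegral.integral_congr fun θ _ => U0_even θ
    rw [← h5, h6, h1]
  rw [← intervalIntegral.integral_add_adjacent_intervals (U0_int (-π) 0) (U0_int 0 π), h1, h4,
    add_zero]

end MP4a1962
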