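import Pool.Agent.Lib.MP_4a1962_an.N0Basic
import Pool.Agent.Lib.MP_4a1962_an.U0Basic
import Pool.Agent.Lib.MP_4a1962_an.S0Basic

/-!
# S0Pi: evaluation of `S0 (pt u π)`

`S0_pi`: for `0 < t ≤ π/2`: `S0 (pt (U0 t) π) = (∫ θ in (-t)..t, U0 θ) - 2 t U0 t`.
Proof. For `x ≥ 0` put `T x = 2 arctan (e^{-x/2})` (the inverse function of `U0`),
`Φ x = S0 (pt x π)`, `Ψ x = ∫_{-T x}^{T x} U0 - 2 (T x) x`. Both are continuous on `[0, ∞)`, equal at
`x = 0` (substitution `θ = v / 2`), and both have the derivative `- 2 T x` for `x > 0`: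
`Ψ' = 2 U0 (T x) T' - 2 T' x - 2 T`, and (differentiation under the integral)
`Φ' = - ∫_{-π}^{π} (1/2) sinh (x/2) cos (v/2) / (sinh² (x/2) + sin² (v/2)) dv
= - 2 arctan (1 / sinh (x/2)) = - 4 arctan (e^{-x/2})`.
-/

set_option autoImplicit false

open MeasureTheory Set Filter Topology
open scoped Real ENNReal NNReal

namespace MP4a1962

/-- `sinh² (x/4) + cos² (v/4)` -/
private noncomputable def qc (x v : ℝ) : ℝ := Real.sinh (x / 4) ^ 2 + Real.cos (v / 4) ^ 2

/-- `sinh² (x/4) + sin² (v/4)` -/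
private noncomputable def qs (x v : ℝ) : ℝ := Real.sinh (x / 4) ^ 2 + Real.sin (v / 4) ^ 2

private lemma lg_eq (w : ℂ) : lg w = Real.log (Complex.normSq w) / 2 := by
  unfold lg
  rw [Complex.norm_def, Real.log_sqrt (Complex.normSq_nonneg w)]

private lemma pt_div (x v : ℝ) :
    pt x v / 4 = ((x / 4 : ℝ) : ℂ) + ((v / 4 : ℝ) : ℂ) * Complex.I := by
  apply Complex.ext <;> simp [pt]

private lemma N0_eq (x v : ℝ) : N0 (pt x v) = (Real.log (qc x v) - Real.log (qs x v)) / 2 := by
  unfold N0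
  rw [lg_eq, lg_eq, pt_div, Complex.cosh_add, Complex.sinh_add, Complex.cosh_mul_I,
    Complex.sinh_mul_I, ← Complex.ofReal_cosh, ← Complex.ofReal_sinh, ← Complex.ofReal_cos,
    ← Complex.ofReal_sin]
  have h1 : Complex.normSq ((Real.cosh (x / 4) : ℂ) * (Real.cos (v / 4) : ℂ) +
      (Real.sinh (x / 4) : ℂ) * ((Real.sin (v / 4) : ℂ) * Complex.I)) = qc x v := by
    rw [Complex.normSq_apply]
    simp only [Complex.add_re, Complex.mul_re, Complex.ofReal_re, Complex.ofReal_im,
      Complex.add_im, Complex.mul_im, Complex.I_re, Complex.I_im]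
    unfold qc
    have h2 := Real.cosh_sq (x / 4)
    have h3 := Real.sin_sq_add_cos_sq (v / 4)
    linear_combination Real.cos (v / 4) ^ 2 * h2 + Real.sinh (x / 4) ^ 2 * h3
  have h1' : Complex.normSq ((Real.sinh (x / 4) : ℂ) * (Real.cos (v / 4) : ℂ) +
      (Real.cosh (x / 4) : ℂ) * ((Real.sin (v / 4) : ℂ) * Complex.I)) = qs x v := by
    rw [Complex.normSq_apply]
    simp only [Complex.add_re, Complex.mul_re, Complex.ofReal_re, Complex.ofReal_im,
      Complex.add_im, Complex.mul_im, Complex.I_re, Complex.I_im]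
    unfold qs
    have h2 := Real.cosh_sq (x / 4)
    have h3 := Real.sin_sq_add_cos_sq (v / 4)
    linear_combination Real.sin (v / 4) ^ 2 * h2 + Real.sinh (x / 4) ^ 2 * h3
  rw [h1, h1']
  ring

private lemma sinh4_pos {x : ℝ} (hx : 0 < x) : 0 < Real.sinh (x / 4) :=
  Real.sinh_pos_iff.2 (by linarith)

private lemma qc_pos {x : ℝ} (hx : 0 < x) (v : ℝ) : 0 < qc x v := by
  unfold qc
  have := sinh4_pos hx
  positivity

private lemma qs_pos {x : ℝ} (hx : 0 < x) (v : ℝ) : 0 < qs x v := by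
  unfold qs
  have := sinh4_pos hx
  positivity

/-- the `x`-derivative of `N0 (pt x v)` -/
private noncomputable def dN (x v : ℝ) : ℝ :=
  -(Real.sinh (x / 2) * Real.cos (v / 2) / 2 / (Real.sinh (x / 2) ^ 2 + Real.sin (v / 2) ^ 2))

private lemma dN_eq {x : ℝ} (hx : 0 < x) (v : ℝ) :
    dN x v = (2 * Real.sinh (x / 4) * (Real.cosh (x / 4) * (1 / 4)) / qc x v -
      2 * Real.sinh (x / 4) * (Real.cosh (x / 4) * (1 / 4)) / qs x v) / 2 := by
  have h1 : Real.sinh (x / 2) = 2 * Real.sinh (x / 4) * Real.cosh (x / 4) := by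
    rw [← Real.sinh_two_mul]; congr 1; ring
  have h2 : Real.cos (v / 2) = Real.cos (v / 4) ^ 2 - Real.sin (v / 4) ^ 2 := by
    rw [← Real.cos_two_mul']; congr 1; ring
  have h3 : Real.sin (v / 2) = 2 * Real.sin (v / 4) * Real.cos (v / 4) := by
    rw [← Real.sin_two_mul]; congr 1; ring
  have hc := qc_pos hx v
  have hs := qs_pos hx v
  have h4 := Real.cosh_sq (x / 4)
  have h5 := Real.sin_sq_add_cos_sq (v / 4)
  have h6 : Real.sinh (x / 2) ^ 2 + Real.sin (v / 2) ^ 2 = 4 * (qc x v * qs x v) := by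
    rw [h1, h3]
    unfold qc qs
    have : (2 * Real.sinh (x / 4) * Real.cosh (x / 4)) ^ 2 =
      4 * Real.sinh (x / 4) ^ 2 * Real.cosh (x / 4) ^ 2 := by ring
    rw [this, h4]
    have h7 : Real.sin (v / 4) ^ 2 = 1 - Real.cos (v / 4) ^ 2 := by linarith
    have : (2 * Real.sin (v / 4) * Real.cos (v / 4)) ^ 2 =
      4 * Real.sin (v / 4) ^ 2 * Real.cos (v / 4) ^ 2 := by ring
    rw [this, h7]
    ring
  unfold dN
  rw [h6, h1, h2]
  rw [div_sub_div _ _ hc.ne' hs.ne', ← neg_div, div_div, div_eq_div_iff (by positivity)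
    (by positivity)]
  have h8 : qs x v - qc x v = Real.sin (v / 4) ^ 2 - Real.cos (v / 4) ^ 2 := by
    unfold qs qc; ring
  have h9 : 2 * Real.sinh (x / 4) * (Real.cosh (x / 4) * (1 / 4)) * qs x v -
      qc x v * (2 * Real.sinh (x / 4) * (Real.cosh (x / 4) * (1 / 4))) =
      2 * Real.sinh (x / 4) * (Real.cosh (x / 4) * (1 / 4)) *
        (Real.sin (v / 4) ^ 2 - Real.cos (v / 4) ^ 2) := by
    rw [← h8]; ring
  rw [h9]
  ring

private lemma hasDerivAt_N0 {x : ℝ} (hx : 0 < x) (v : ℝ) :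
    HasDerivAt (fun y => N0 (pt y v)) (dN x v) x := by
  have h0 : (fun y => N0 (pt y v)) = fun y => (Real.log (qc y v) - Real.log (qs y v)) / 2 := by
    funext y
    exact N0_eq y v
  rw [h0, dN_eq hx]
  have h1 : HasDerivAt (fun y : ℝ => Real.sinh (y / 4)) (Real.cosh (x / 4) * (1 / 4)) x :=
    ((hasDerivAt_id' x).div_const 4).sinh
  have h2 : HasDerivAt (fun y : ℝ => Real.sinh (y / 4) ^ 2)
      (2 * Real.sinh (x / 4) * (Real.cosh (x / 4) * (1 / 4))) x := by
    have := h1.fun_pow 2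
    simpa using this
  have h3 : HasDerivAt (fun y => qc y v)
      (2 * Real.sinh (x / 4) * (Real.cosh (x / 4) * (1 / 4))) x := h2.add_const _
  have h4 : HasDerivAt (fun y => qs y v)
      (2 * Real.sinh (x / 4) * (Real.cosh (x / 4) * (1 / 4))) x := h2.add_const _
  exact ((h3.log (qc_pos hx v).ne').sub (h4.log (qs_pos hx v).ne')).div_const 2

private lemma continuous_N0v {x : ℝ} (hx : 0 < x) : Continuous (fun v => N0 (pt x v)) := by
  have h0 : (fun v => N0 (pt x v)) = fun v => (Real.log (qc x v) - Real.log (qs x v)) / 2 := by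
    funext v
    exact N0_eq x v
  rw [h0]
  have h1 : Continuous (fun v => qc x v) := by unfold qc; fun_prop
  have h2 : Continuous (fun v => qs x v) := by unfold qs; fun_prop
  exact ((h1.log (fun v => (qc_pos hx v).ne')).sub (h2.log (fun v => (qs_pos hx v).ne'))).div_const 2

private lemma sinh2_pos {x : ℝ} (hx : 0 < x) : 0 < Real.sinh (x / 2) :=
  Real.sinh_pos_iff.2 (by linarith)

private lemma continuous_dN {x : ℝ} (hx : 0 < x) : Continuous (fun v => dN x v) := by
  unfold dN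
  have := sinh2_pos hx
  have h : ∀ v, Real.sinh (x / 2) ^ 2 + Real.sin (v / 2) ^ 2 ≠ 0 := by
    intro v
    positivity
  fun_prop (disch := exact h _)

private lemma dN_bound {x : ℝ} (hx : 0 < x) (v : ℝ) : ‖dN x v‖ ≤ 1 / (2 * Real.sinh (x / 2)) := by
  have hs := sinh2_pos hx
  unfold dN
  rw [norm_neg, norm_div, norm_div, norm_mul, Real.norm_of_nonneg hs.le,
    Real.norm_of_nonneg (by positivity : 0 ≤ Real.sinh (x / 2) ^ 2 + Real.sin (v / 2) ^ 2),
    Real.norm_eq_abs, Real.norm_eq_abs, abs_of_pos (by norm_num : (0 : ℝ) < 2)]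
  rw [div_le_div_iff₀ (by positivity) (by positivity)]
  have h1 : |Real.cos (v / 2)| ≤ 1 := Real.abs_cos_le_one _
  have h2 : 0 ≤ Real.sin (v / 2) ^ 2 := sq_nonneg _
  have h3 : Real.sinh (x / 2) * |Real.cos (v / 2)| / 2 * (2 * Real.sinh (x / 2)) ≤
      Real.sinh (x / 2) ^ 2 := by
    calc Real.sinh (x / 2) * |Real.cos (v / 2)| / 2 * (2 * Real.sinh (x / 2))
        = Real.sinh (x / 2) ^ 2 * |Real.cos (v / 2)| := by ring
      _ ≤ Real.sinh (x / 2) ^ 2 * 1 := by gcongr
      _ = _ := mul_one _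
  linarith

/-- the inverse function of `U0` -/
private noncomputable def TT (x : ℝ) : ℝ := 2 * Real.arctan (Real.exp (-x / 2))

private lemma two_mul_TT {x : ℝ} (hx : 0 < x) :
    TT x = Real.arctan (1 / Real.sinh (x / 2)) := by
  unfold TT
  have h1 : Real.exp (-x / 2) < 1 := Real.exp_lt_one_iff.2 (by linarith)
  have h0 : 0 < Real.exp (-x / 2) := Real.exp_pos _
  rw [Real.two_mul_arctan (by linarith) h1]
  congr 1
  have hs := sinh2_pos hx
  have h2 : Real.exp (x / 2) * Real.exp (-x / 2) = 1 := by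
    rw [← Real.exp_add]; ring_nf; exact Real.exp_zero
  have h3 : Real.sinh (x / 2) = (Real.exp (x / 2) - Real.exp (-x / 2)) / 2 := by
    rw [Real.sinh_eq]; ring_nf
  have h4 : 0 < 1 - Real.exp (-x / 2) ^ 2 := by nlinarith
  rw [div_eq_div_iff h4.ne' hs.ne', h3]
  linear_combination h2

private lemma integral_dN {x : ℝ} (hx : 0 < x) : ∫ v in (-π)..π, dN x v = - 2 * TT x := by
  have hs := sinh2_pos hx
  have h1 : ∀ v ∈ uIcc (-π) π, HasDerivAt
      (fun v => -Real.arctan (Real.sin (v / 2) / Real.sinh (x / 2))) (dN x v) v := by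
    intro v _
    have h2 : HasDerivAt (fun v : ℝ => Real.sin (v / 2)) (Real.cos (v / 2) * (1 / 2)) v :=
      ((hasDerivAt_id' v).div_const 2).sin
    have h3 := ((h2.div_const (Real.sinh (x / 2))).arctan).neg
    refine h3.congr_deriv ?_
    unfold dN
    have h4 : 0 < Real.sinh (x / 2) ^ 2 + Real.sin (v / 2) ^ 2 := by positivity
    have h5 : 0 < 1 + (Real.sin (v / 2) / Real.sinh (x / 2)) ^ 2 := by positivity
    rw [neg_inj]
    field_simp
  rw [intervalIntegral.integral_eq_sub_of_hasDerivAt h1 ((continuous_dN hx).intervalIntegrable _ _)]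
  have h2 : Real.sin (π / 2) = 1 := Real.sin_pi_div_two
  have h3 : Real.sin (-π / 2) = -1 := by rw [neg_div, Real.sin_neg, h2]
  rw [h2, h3, neg_div, Real.arctan_neg, two_mul_TT hx]
  ring

private lemma hasDerivAt_Phi {x : ℝ} (hx : 0 < x) :
    HasDerivAt (fun y => ∫ v in (-π)..π, N0 (pt y v)) (-2 * TT x) x := by
  rw [← integral_dN hx]
  have hx2 : 0 < x / 2 := by linarith
  have hs4 : 0 < Real.sinh (x / 2 / 2) := sinh2_pos hx2
  refine (intervalIntegral.hasDerivAt_integral_of_dominated_loc_of_deriv_le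
    (F := fun y v => N0 (pt y v)) (F' := fun y v => dN y v)
    (s := Ioi (x / 2)) (bound := fun _ => 1 / (2 * Real.sinh (x / 2 / 2)))
    (Ioi_mem_nhds (by linarith)) ?_ ?_ ?_ ?_ ?_ ?_).2
  · filter_upwards [Ioi_mem_nhds hx] with y hy
    exact (continuous_N0v hy).aestronglyMeasurable
  · exact (continuous_N0v hx).intervalIntegrable _ _
  · exact (continuous_dN hx).aestronglyMeasurable
  · refine Filter.Eventually.of_forall (fun v _ y hy => ?_)
    have hy0 : 0 < y := hx2.trans hy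
    refine (dN_bound hy0 v).trans ?_
    have h1 : Real.sinh (x / 2 / 2) ≤ Real.sinh (y / 2) :=
      Real.sinh_le_sinh.2 (by have : x / 2 < y := hy; linarith)
    gcongr
  · exact intervalIntegrable_const
  · refine Filter.Eventually.of_forall (fun v _ y hy => ?_)
    exact hasDerivAt_N0 (hx2.trans hy) v

private lemma TT_pos (x : ℝ) : 0 < TT x := by
  unfold TT
  have := Real.arctan_pos.2 (Real.exp_pos (-x / 2))
  linarith

private lemma TT_lt (x : ℝ) : TT x < π := by
  unfold TT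
  have := Real.arctan_lt_pi_div_two (Real.exp (-x / 2))
  linarith

private lemma continuous_TT : Continuous TT := by
  unfold TT
  fun_prop

private lemma U0_TT (x : ℝ) : U0 (TT x) = x := by
  unfold U0 TT
  have h1 : 2 * Real.arctan (Real.exp (-x / 2)) / 2 = Real.arctan (Real.exp (-x / 2)) := by ring
  rw [h1]
  set y := Real.exp (-x / 2) with hy
  have hy0 : 0 < y := Real.exp_pos _
  have hc : 0 < Real.cos (Real.arctan y) := Real.cos_arctan_pos y
  have hs : Real.sin (Real.arctan y) = y * Real.cos (Real.arctan y) := by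
    have := Real.tan_mul_cos hc.ne'
    rw [Real.tan_arctan] at this
    exact this.symm
  rw [hs, abs_of_pos hc, abs_of_pos (mul_pos hy0 hc), Real.log_mul hy0.ne' hc.ne', hy,
    Real.log_exp]
  ring

private lemma TT_U0 {t : ℝ} (h0 : 0 < t) (h1 : t < π) : TT (U0 t) = t := by
  unfold TT
  have hc : 0 < Real.cos (t / 2) := Real.cos_pos_of_mem_Ioo ⟨by linarith, by linarith⟩
  have hs : 0 < Real.sin (t / 2) := Real.sin_pos_of_pos_of_lt_pi (by linarith) (by linarith)
  have h2 : Real.exp (-U0 t / 2) = Real.tan (t / 2) := by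
    unfold U0
    rw [abs_of_pos hc, abs_of_pos hs]
    have : -(2 * (Real.log (Real.cos (t / 2)) - Real.log (Real.sin (t / 2)))) / 2 =
      Real.log (Real.sin (t / 2)) - Real.log (Real.cos (t / 2)) := by ring
    rw [this, Real.exp_sub, Real.exp_log hs, Real.exp_log hc, Real.tan_eq_sin_div_cos]
  rw [h2, Real.arctan_tan (by linarith) (by linarith)]
  ring

private lemma U0_continuousAt {s : ℝ} (h0 : 0 < s) (h1 : s < π) : ContinuousAt U0 s := by
  have hc : 0 < Real.cos (s / 2) := Real.cos_pos_of_mem_Ioo ⟨by linarith, by linarith⟩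
  have hs : 0 < Real.sin (s / 2) := Real.sin_pos_of_pos_of_lt_pi (by linarith) (by linarith)
  unfold U0
  refine ContinuousAt.mul continuousAt_const (ContinuousAt.sub ?_ ?_)
  · exact ContinuousAt.log (by fun_prop) (abs_ne_zero.2 hc.ne')
  · exact ContinuousAt.log (by fun_prop) (abs_ne_zero.2 hs.ne')

private lemma sym_int (s : ℝ) : ∫ θ in (-s)..s, U0 θ = 2 * ∫ θ in (0 : ℝ)..s, U0 θ := by
  have h1 : ∫ θ in (-s)..0, U0 θ = ∫ θ in (0 : ℝ)..s, U0 θ := by
    have h2 := intervalIntegral.integral_comp_neg (a := 0) (b := s) U0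
    rw [neg_zero] at h2
    rw [← h2]
    refine intervalIntegral.integral_congr (fun θ _ => ?_)
    exact U0_even θ
  rw [← intervalIntegral.integral_add_adjacent_intervals (U0_int (-s) 0) (U0_int 0 s), h1]
  ring

private lemma hasDerivAt_Psi (x : ℝ) :
    HasDerivAt (fun y => 2 * (∫ θ in (0 : ℝ)..(TT y), U0 θ) - 2 * TT y * y) (-2 * TT x) x := by
  have hT : ∃ T' : ℝ, HasDerivAt TT T' x := by
    have h1 : HasDerivAt (fun y : ℝ => Real.exp (-y / 2)) (Real.exp (-x / 2) * (-1 / 2)) x := by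
      have := (((hasDerivAt_id x).neg).div_const 2).exp
      exact this
    exact ⟨_, (h1.arctan).const_mul 2⟩
  obtain ⟨T', hT⟩ := hT
  have h2 : HasDerivAt (fun s => ∫ θ in (0 : ℝ)..s, U0 θ) (U0 (TT x)) (TT x) :=
    intervalIntegral.integral_hasDerivAt_right (U0_int _ _)
      (measurable_U0.stronglyMeasurable.stronglyMeasurableAtFilter)
      (U0_continuousAt (TT_pos x) (TT_lt x))
  have h3 := ((h2.comp x hT).const_mul 2).sub ((hT.const_mul 2).mul (hasDerivAt_id' x))
  refine h3.congr_deriv ?_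
  rw [U0_TT]
  ring

private lemma Phi_eq_Psi {x : ℝ} (hx : 0 ≤ x) :
    S0 (pt x π) = 2 * (∫ θ in (0 : ℝ)..(TT x), U0 θ) - 2 * TT x * x := by
  have hS : ∀ y : ℝ, S0 (pt y π) = ∫ v in (-π)..π, N0 (pt y v) := fun y => rfl
  -- value at `0`
  have h0 : S0 (pt 0 π) = 2 * (∫ θ in (0 : ℝ)..(TT 0), U0 θ) - 2 * TT 0 * 0 := by
    rw [hS]
    have h1 : ∀ v : ℝ, N0 (pt 0 v) = U0 (v / 2) / 2 := by
      intro v
      rw [N0_eq]
      unfold qc qs U0
      rw [zero_div, Real.sinh_zero]
      have e1 : v / 2 / 2 = v / 4 := by ring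
      rw [e1]
      have e2 : (0 : ℝ) ^ 2 + Real.cos (v / 4) ^ 2 = Real.cos (v / 4) ^ 2 := by ring
      have e3 : (0 : ℝ) ^ 2 + Real.sin (v / 4) ^ 2 = Real.sin (v / 4) ^ 2 := by ring
      rw [e2, e3, Real.log_pow, Real.log_pow, Real.log_abs, Real.log_abs]
      push_cast
      ring
    have h2 : TT 0 = π / 2 := by
      unfold TT
      rw [neg_zero, zero_div, Real.exp_zero, Real.arctan_one]
      ring
    rw [mul_zero, sub_zero, h2]
    have h3 : ∫ v in (-π)..π, N0 (pt 0 v) = ∫ v in (-π)..π, U0 (v / 2) / 2 :=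
      intervalIntegral.integral_congr (fun v _ => h1 v)
    rw [h3, intervalIntegral.integral_div,
      intervalIntegral.integral_comp_div (fun θ => U0 θ) (two_ne_zero : (2 : ℝ) ≠ 0)]
    rw [neg_div, sym_int, smul_eq_mul]
    ring
  rcases hx.eq_or_lt with h | hx
  · rw [← h]; exact h0
  -- the difference has derivative `0`
  set D : ℝ → ℝ := fun y => S0 (pt y π) -
    (2 * (∫ θ in (0 : ℝ)..(TT y), U0 θ) - 2 * TT y * y) with hD
  have hcont : ContinuousOn D (Icc 0 x) := by
    refine ContinuousOn.sub ?_ ?_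
    · refine S0_continuousOn.comp ?_ ?_
      · exact (continuous_pt.comp (continuous_id.prodMk continuous_const)).continuousOn
      · intro y _
        exact ⟨Real.pi_pos.le, le_rfl⟩
    · exact fun y _ => (hasDerivAt_Psi y).continuousAt.continuousWithinAt
  have hder : ∀ y ∈ Ico 0 x, HasDerivWithinAt D 0 (Ici y) y ∨ y = 0 := by
    intro y hy
    rcases hy.1.eq_or_lt with h | h
    · exact Or.inr h.symm
    · left
      have h1 := (hasDerivAt_Phi h).sub (hasDerivAt_Psi y)
      rw [sub_self] at h1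
      exact h1.hasDerivWithinAt
  have hconst : D x = D 0 := by
    have hmono : ∀ ε : ℝ, 0 < ε → ε ≤ x → D x = D ε := by
      intro ε hε hεx
      refine constant_of_has_deriv_right_zero (f := D) (a := ε) (b := x)
        (hcont.mono (Icc_subset_Icc hε.le le_rfl)) ?_ x ⟨hεx, le_rfl⟩
      intro y hy
      rcases hder y ⟨hε.le.trans hy.1, hy.2⟩ with h | h
      · exact h
      · exact absurd (h ▸ hy.1) (not_le.2 hε)
    have h1 : Tendsto D (𝓝[>] 0) (𝓝 (D 0)) := by
      have h2 := hcont 0 ⟨le_rfl, hx.le⟩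
      refine h2.mono_left ?_
      refine nhdsWithin_le_iff.2 ?_
      filter_upwards [Ioo_mem_nhdsGT hx] with y hy
      exact ⟨hy.1.le, hy.2.le⟩
    have h2 : Tendsto D (𝓝[>] 0) (𝓝 (D x)) := by
      refine tendsto_const_nhds.congr' ?_
      filter_upwards [Ioo_mem_nhdsGT hx] with y hy
      exact hmono y hy.1 hy.2.le
    exact tendsto_nhds_unique h2 h1
  have h5 : D 0 = 0 := by
    rw [hD]
    simp only
    rw [h0, sub_self]
  rw [h5] at hconst
  rw [hD] at hconst
  exact sub_eq_zero.1 hconst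

theorem S0_pi {t : ℝ} (h0 : 0 < t) (h1 : t ≤ π / 2) :
    S0 (pt (U0 t) π) = (∫ θ in (-t)..t, U0 θ) - 2 * t * U0 t := by
  rw [Phi_eq_Psi (U0_nonneg h0 h1), TT_U0 h0 (by linarith [Real.pi_pos]), sym_int]

end MP4a1962
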