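import Pool.Agent.Lib.MP_4a1962_an.TestIneq
import Pool.Agent.Lib.MP_4a1962_an.AppIneq
import Pool.Agent.Lib.MP_4a1962_an.CircF

/-!
# SIneq: the coefficient inequalities for `HCls`

* `HCls.uLow`: for `0 < r < 1`, `U θ = Re h(r e^{iθ})` is `ULow` (`app_ineq`, `circle_mean`).
* `s_ineq`: `test_ineq` with `a = k²`, `σ = ±1`, `circle_fourier` (for `k` and for `1`), then `r → 1`:
  `k² Re (e^{iφ} c₁) ± Re (e^{ikφ} c_k) ≤ 4 k² ± h0c k`.
-/

set_option autoImplicit false

open MeasureTheory Set Filter Topology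
open scoped Real ENNReal NNReal

namespace MP4a1962

private theorem circ_cont {h : ℂ → ℂ} (hh : DifferentiableOn ℂ h (Metric.ball 0 1)) {r : ℝ}
    (hr0 : 0 < r) (hr1 : r < 1) : Continuous (fun θ : ℝ => (h (circleMap 0 r θ)).re) := by
  have h1 : ContinuousOn h (Metric.closedBall 0 r) :=
    (hh.mono (Metric.closedBall_subset_ball hr1)).continuousOn
  exact Complex.continuous_re.comp (h1.comp_continuous (continuous_circleMap 0 r)
    (fun θ => circleMap_mem_closedBall 0 hr0.le θ))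

theorem HCls.uLow {h : ℂ → ℂ} (hh : HCls h) {r : ℝ} (hr0 : 0 < r) (hr1 : r < 1) :
    ULow (fun θ => (h (circleMap 0 r θ)).re) := by
  refine ⟨circ_cont hh.diff hr0 hr1, fun θ => ?_, ?_, fun u => app_ineq hh hr0 hr1 u⟩
  · rw [periodic_circleMap 0 r θ]
  · have := circle_mean hh.diff hr0 hr1
    rw [hh.zero] at this
    simpa using this

/-- the inequality on the circle of radius `r` -/
private theorem r_ineq {h : ℂ → ℂ} (hh : HCls h) {k : ℕ} (hk : 1 ≤ k) (φ : ℝ) {σ : ℝ}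
    (hσ : |σ| ≤ 1) {r : ℝ} (hr0 : 0 < r) (hr1 : r < 1) :
    (k : ℝ) ^ 2 * (r * (Complex.exp (φ * Complex.I) * tc h 1).re) +
      σ * (r ^ k * (Complex.exp (k * φ * Complex.I) * tc h k).re) ≤
      4 * (k : ℝ) ^ 2 + σ * h0c k := by
  have hk0 : (0 : ℝ) ≤ (k : ℝ) ^ 2 := by positivity
  have ht := test_ineq (hh.uLow hr0 hr1) hk (a := (k : ℝ) ^ 2) (σ := σ)
    (by nlinarith [abs_nonneg σ]) φ
  have hc1 := circle_fourier hh.diff hr0 hr1 (le_refl 1) φ
  have hck := circle_fourier hh.diff hr0 hr1 hk φ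
  simp only [Nat.cast_one, one_mul, pow_one] at hc1
  have hcont : Continuous (fun θ : ℝ => (h (circleMap 0 r (φ + θ))).re) :=
    (circ_cont hh.diff hr0 hr1).comp (by fun_prop)
  have e : ∀ θ : ℝ, (h (circleMap 0 r (φ + θ))).re *
      ((k : ℝ) ^ 2 * Real.cos θ + σ * Real.cos (k * θ)) =
      (k : ℝ) ^ 2 * ((h (circleMap 0 r (φ + θ))).re * Real.cos θ) +
        σ * ((h (circleMap 0 r (φ + θ))).re * Real.cos (k * θ)) := by
    intro θ
    ring
  simp_rw [e] at ht
  rw [intervalIntegral.integral_add, intervalIntegral.integral_const_mul,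
    intervalIntegral.integral_const_mul, hc1, hck] at ht
  · have hπ : 0 < π := Real.pi_pos
    have ht' : π * ((k : ℝ) ^ 2 * (r * (Complex.exp (φ * Complex.I) * tc h 1).re) +
      σ * (r ^ k * (Complex.exp (k * φ * Complex.I) * tc h k).re)) ≤
      π * (4 * (k : ℝ) ^ 2 + σ * h0c k) := by
      refine le_trans (le_of_eq ?_) ht
      ring
    exact le_of_mul_le_mul_left ht' hπ
  · apply Continuous.intervalIntegrable
    exact continuous_const.mul (hcont.mul (by fun_prop))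
  · apply Continuous.intervalIntegrable
    exact continuous_const.mul (hcont.mul (by fun_prop))

private theorem one_ineq {h : ℂ → ℂ} (hh : HCls h) {k : ℕ} (hk : 1 ≤ k) (φ : ℝ) {σ : ℝ}
    (hσ : |σ| ≤ 1) :
    (k : ℝ) ^ 2 * (Complex.exp (φ * Complex.I) * tc h 1).re +
      σ * (Complex.exp (k * φ * Complex.I) * tc h k).re ≤
      4 * (k : ℝ) ^ 2 + σ * h0c k := by
  have hlim : Tendsto (fun r : ℝ => (k : ℝ) ^ 2 * (r * (Complex.exp (φ * Complex.I) * tc h 1).re) +
      σ * (r ^ k * (Complex.exp (k * φ * Complex.I) * tc h k).re)) (𝓝[<] 1)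
      (𝓝 ((k : ℝ) ^ 2 * (1 * (Complex.exp (φ * Complex.I) * tc h 1).re) +
      σ * (1 ^ k * (Complex.exp (k * φ * Complex.I) * tc h k).re))) := by
    apply tendsto_nhdsWithin_of_tendsto_nhds
    apply Continuous.tendsto
    fun_prop
  rw [one_mul, one_pow, one_mul] at hlim
  refine le_of_tendsto hlim ?_
  have h1 : ∀ᶠ r : ℝ in 𝓝[<] 1, 0 < r :=
    nhdsWithin_le_nhds (lt_mem_nhds (by norm_num : (0 : ℝ) < 1))
  filter_upwards [h1, self_mem_nhdsWithin] with r hr0 hr1
  exact r_ineq hh hk φ hσ hr0 hr1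

theorem s_ineq {h : ℂ → ℂ} (hh : HCls h) {k : ℕ} (hk : 1 ≤ k) (φ : ℝ) :
    |h0c k - (Complex.exp (k * φ * Complex.I) * tc h k).re| ≤
      (k : ℝ) ^ 2 * (4 - (Complex.exp (φ * Complex.I) * tc h 1).re) := by
  have h1 := one_ineq hh hk φ (σ := 1) (by simp)
  have h2 := one_ineq hh hk φ (σ := -1) (by simp)
  rw [abs_le]
  constructor <;> linarith

end MP4a1962
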