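import Pool.Agent.Lib.MP_4a1962_an.CircMono
import Pool.Agent.Lib.MP_4a1962_an.Excess
import Pool.Agent.Lib.MP_4a1962_an.CircH0
import Pool.Agent.Lib.MP_4a1962_an.PotH
import Pool.Agent.Lib.MP_4a1962_an.AppIneq
import Pool.Agent.Lib.MP_4a1962_an.CircF

/-!
# SameR: same radius majorisation

`∫_{-π}^{π} |Re h(r e^{iθ}) - u| ≤ ∫_{-π}^{π} |Re h0f(r e^{iθ}) - u|` for `h` in `HCls`, `0 < r < 1`.

Proof. If `h = 0` on the disc, use that `Re h0f` has mean zero (`∫ |U - u| ≥ |∫ (U - u)| = 2π|u|`).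
Otherwise for `0 < c < 1` let `H = c h` (as in AppIneq), `r < r' < 1`, `L = log (r'/r)`. By `circN_mono`,
`excess_le` and `N_line_integral` (PotData of `H` at the radius `r`, `circMeas_integral`):
`(1/2) ∫_0^{2π} |c Re h(r e^{iθ}) - u| - π |u| = ∫ v, circN H r (pt u v) ≤ ∫ v, max 0 (circN H r' (pt u v) - L)
≤ ∫ v in (-π)..π, max 0 (N0 (pt u v) - L)`. Let `r' → 1` (`max 0 (· - L)` is 1-Lipschitz in `L`, interval of
length `2π`): the bound holds with `L = - log r`. By `circN_h0f`, `circN_h0f_zero` the right side is then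
`∫ v, circN h0f r (pt u v) = (1/2) ∫_0^{2π} |Re h0f(r e^{iθ}) - u| - π |u|` (PotData of `h0f` at radius `r`,
`potData_circ`, `h0_diff`). Finally `c → 1`, and `(0, 2π)` is replaced by `(-π, π)` by periodicity.
-/

set_option autoImplicit false

open MeasureTheory Set Filter Topology
open scoped Real ENNReal NNReal

namespace MP4a1962

private theorem sr_mem {r : ℝ} (hr0 : 0 < r) (hr1 : r < 1) (θ : ℝ) :
    circleMap 0 r θ ∈ Metric.ball (0 : ℂ) 1 := by
  rw [mem_ball_zero_iff, norm_circleMap_zero, abs_of_pos hr0]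
  exact hr1

private theorem sr_h0_diff : DifferentiableOn ℂ h0f (Metric.ball 0 1) := h0_diff

private theorem sr_h0_zero : h0f 0 = 0 := by simp [h0f]

private theorem sr_h0_ne : ∃ z ∈ Metric.ball (0 : ℂ) 1, h0f z ≠ 0 := by
  refine ⟨1 / 2, ?_, ?_⟩
  · rw [Metric.mem_ball, dist_zero_right]
    norm_num
  · unfold h0f
    have e : ((1 : ℂ) + 1 / 2) / (1 - 1 / 2) = ((3 : ℝ) : ℂ) := by norm_num
    rw [e, ← Complex.ofReal_log (by norm_num)]
    have h3 : Real.log 3 ≠ 0 := (Real.log_pos (by norm_num)).ne'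
    exact mul_ne_zero two_ne_zero (by exact_mod_cast h3)

private theorem sr_sec {h : ℂ → ℂ} (hh : HCls h) {c : ℝ} (hc0 : 0 < c) (u : ℝ) :
    volume {v : ℝ | ∃ z ∈ Metric.ball (0 : ℂ) 1, (c : ℂ) * h z = pt u v} ≤
      ENNReal.ofReal (2 * π * c) := by
  have h1 : {v : ℝ | ∃ z ∈ Metric.ball (0 : ℂ) 1, (c : ℂ) * h z = pt u v} ⊆
      (fun v : ℝ => c⁻¹ * v) ⁻¹' {v : ℝ | ∃ z ∈ Metric.ball (0 : ℂ) 1, h z = pt (c⁻¹ * u) v} := by
    rintro v ⟨z, hz, hzv⟩
    refine ⟨z, hz, ?_⟩
    have hre : c * (h z).re = u := by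
      have := congrArg Complex.re hzv
      simpa using this
    have him : c * (h z).im = v := by
      have := congrArg Complex.im hzv
      simpa using this
    apply Complex.ext
    · rw [pt_re, ← hre]
      field_simp
    · rw [pt_im, ← him]
      field_simp
  refine (measure_mono h1).trans ?_
  rw [Real.volume_preimage_mul_left (inv_ne_zero hc0.ne'), inv_inv, abs_of_pos hc0]
  refine (mul_le_mul_right (hh.sec _) _).trans ?_
  rw [← ENNReal.ofReal_mul hc0.le]
  apply ENNReal.ofReal_le_ofReal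
  linarith

/-- the integral of the counting function on a vertical line -/
private theorem sr_line {H : ℂ → ℂ} (hH : DifferentiableOn ℂ H (Metric.ball 0 1)) (h0 : H 0 = 0)
    (hne : ∃ z ∈ Metric.ball (0 : ℂ) 1, H z ≠ 0) {r : ℝ} (hr0 : 0 < r) (hr1 : r < 1) (u : ℝ) :
    ∫ v, circN H r (pt u v) =
      (1 / 2) * (∫ θ in (0 : ℝ)..(2 * π), |(H (circleMap 0 r θ)).re - u|) - π * |u| := by
  obtain ⟨M, hM⟩ := potData_circ hH h0 hne hr0 hr1
  rw [N_line_integral hM u, circMeas_integral hH hr0 hr1 (f := fun a => |a.re - u|) (by fun_prop)]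
  set J := ∫ θ in (0 : ℝ)..(2 * π), |(H (circleMap 0 r θ)).re - u| with hJ
  have hπ := Real.pi_pos
  field_simp

private theorem sr_step {h : ℂ → ℂ} (hh : HCls h) (hne : ∃ z ∈ Metric.ball (0 : ℂ) 1, h z ≠ 0)
    {r r' : ℝ} (hr0 : 0 < r) (hrr : r < r') (hr1 : r' < 1) (u : ℝ) {c : ℝ} (hc0 : 0 < c)
    (hc1 : c < 1) :
    (1 / 2) * (∫ θ in (0 : ℝ)..(2 * π), |c * (h (circleMap 0 r θ)).re - u|) - π * |u| ≤
      ∫ v in (-π)..π, max 0 (N0 (pt u v) - Real.log (r' / r)) := by
  have hr1' : r < 1 := hrr.trans hr1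
  have hr0' : 0 < r' := hr0.trans hrr
  obtain ⟨H, hHd⟩ : ∃ H : ℂ → ℂ, H = fun z => (c : ℂ) * h z := ⟨_, rfl⟩
  have hH : DifferentiableOn ℂ H (Metric.ball 0 1) := by
    rw [hHd]
    exact hh.diff.const_mul _
  have hH0 : H 0 = 0 := by rw [hHd]; simp [hh.zero]
  have hHne : ∃ z ∈ Metric.ball (0 : ℂ) 1, H z ≠ 0 := by
    obtain ⟨z, hz, hz0⟩ := hne
    refine ⟨z, hz, ?_⟩
    rw [hHd]
    exact mul_ne_zero (by exact_mod_cast hc0.ne') hz0
  obtain ⟨M, hM⟩ := potData_circ hH hH0 hHne hr0 hr1'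
  obtain ⟨M', hM'⟩ := potData_circ hH hH0 hHne hr0' hr1
  have hπ := Real.pi_pos
  have hl0 : 0 ≤ 2 * π * c := by positivity
  have hl : 2 * π * c < 2 * π := by nlinarith
  have hL : 0 < Real.log (r' / r) := Real.log_pos ((one_lt_div hr0).2 hrr)
  have hsec : ∀ u' : ℝ, volume {v : ℝ | 0 < circN H r' (pt u' v)} ≤
      ENNReal.ofReal (2 * π * c) := by
    intro u'
    refine (measure_mono ?_).trans (sr_sec hh hc0 u')
    intro v hv
    have h1 := circN_pos hH hH0 hr0' hr1 hv
    rw [hHd] at h1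
    exact h1
  have h1 := sr_line hH hH0 hHne hr0 hr1' u
  have h2 : ∀ θ : ℝ, |(H (circleMap 0 r θ)).re - u| =
      |c * (h (circleMap 0 r θ)).re - u| := by
    intro θ
    rw [hHd]
    simp only
    rw [Complex.re_ofReal_mul]
  simp only [h2] at h1
  have h3 : ∫ v, circN H r (pt u v) ≤
      ∫ v, max 0 (circN H r' (pt u v) - Real.log (r' / r)) := by
    refine integral_mono_ae (N_line_int hM u) ?_ ?_
    · refine Integrable.mono' (N_line_int hM' u) ?_ ?_
      · exact (measurable_const.max ((N_line_meas hM' u).sub measurable_const)).aestronglyMeasurable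
      · refine Eventually.of_forall fun v => ?_
        rw [Real.norm_eq_abs, abs_of_nonneg (le_max_left _ _)]
        exact max_le (hM'.nonneg _) (by linarith)
    · have hae : ∀ᵐ v : ℝ, v ∈ ({0} : Set ℝ)ᶜ := compl_mem_ae_iff.2 (measure_singleton (0 : ℝ))
      filter_upwards [hae] with v hv
      refine circN_mono hH hH0 hr0 hrr hr1 fun h0 => hv ?_
      rw [mem_singleton_iff]
      simpa using congrArg Complex.im h0
  have h4 := excess_le hM' hl0 hl hsec u hL
  linarith

private theorem sr_maxint (u L : ℝ) :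
    IntervalIntegrable (fun v => max 0 (N0 (pt u v) - L)) volume (-π) π := by
  have hπ := Real.pi_pos
  have hi2 : IntervalIntegrable (fun v => N0 (pt u v)) volume (-π) π :=
    N0_line_int u (by rw [abs_neg, abs_of_pos hπ]; linarith) π (by rw [abs_of_pos hπ]; linarith)
  have h' : IntervalIntegrable (fun v => N0 (pt u v) - L) volume (-π) π :=
    hi2.sub intervalIntegrable_const
  exact ⟨h'.1.pos_part.congr (Eventually.of_forall fun v => max_comm _ _),
    h'.2.pos_part.congr (Eventually.of_forall fun v => max_comm _ _)⟩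

private theorem sr_lip (u : ℝ) {L L0 : ℝ} (hL : L ≤ L0) :
    ∫ v in (-π)..π, max 0 (N0 (pt u v) - L) ≤
      (∫ v in (-π)..π, max 0 (N0 (pt u v) - L0)) + 2 * π * (L0 - L) := by
  have hπ := Real.pi_pos
  have h1 : ∫ v in (-π)..π, max 0 (N0 (pt u v) - L) ≤
      ∫ v in (-π)..π, (max 0 (N0 (pt u v) - L0) + (L0 - L)) := by
    refine intervalIntegral.integral_mono_on (by linarith) (sr_maxint u L)
      ((sr_maxint u L0).add intervalIntegrable_const) fun v _ => ?_
    refine max_le ?_ ?_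
    · linarith [le_max_left 0 (N0 (pt u v) - L0)]
    · linarith [le_max_right 0 (N0 (pt u v) - L0)]
  rw [intervalIntegral.integral_add (sr_maxint u L0) intervalIntegrable_const,
    intervalIntegral.integral_const, smul_eq_mul] at h1
  linarith

private theorem sr_h0 {r : ℝ} (hr0 : 0 < r) (hr1 : r < 1) (u : ℝ) :
    ∫ v in (-π)..π, max 0 (N0 (pt u v) - (-Real.log r)) = ∫ v, circN h0f r (pt u v) := by
  have hπ := Real.pi_pos
  rw [intervalIntegral.integral_of_le (by linarith), ← integral_indicator measurableSet_Ioc]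
  apply integral_congr_ae
  have hae : ∀ᵐ v : ℝ, v ∈ ({π} : Set ℝ)ᶜ := compl_mem_ae_iff.2 (measure_singleton π)
  filter_upwards [hae] with v hv
  rw [mem_compl_iff, mem_singleton_iff] at hv
  by_cases hv' : v ∈ Ioc (-π) π
  · rw [indicator_of_mem hv', circN_h0f hr0 hr1 (w := pt u v), sub_neg_eq_add]
    rw [pt_im, abs_lt]
    exact ⟨hv'.1, lt_of_le_of_ne hv'.2 hv⟩
  · rw [indicator_of_notMem hv', circN_h0f_zero hr0 hr1 (w := pt u v)]
    rw [pt_im]
    by_contra hcon
    push Not at hcon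
    rw [abs_lt] at hcon
    exact hv' ⟨hcon.1, hcon.2.le⟩

private theorem sr_c {h : ℂ → ℂ} (hh : HCls h) (hne : ∃ z ∈ Metric.ball (0 : ℂ) 1, h z ≠ 0)
    {r : ℝ} (hr0 : 0 < r) (hr1 : r < 1) (u : ℝ) {c : ℝ} (hc0 : 0 < c) (hc1 : c < 1) :
    ∫ θ in (0 : ℝ)..(2 * π), |c * (h (circleMap 0 r θ)).re - u| ≤
      ∫ θ in (0 : ℝ)..(2 * π), |(h0f (circleMap 0 r θ)).re - u| := by
  have hπ := Real.pi_pos
  have e0 := sr_line sr_h0_diff sr_h0_zero sr_h0_ne hr0 hr1 u
  rw [← sr_h0 hr0 hr1 u] at e0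
  have key : (1 / 2) * (∫ θ in (0 : ℝ)..(2 * π), |c * (h (circleMap 0 r θ)).re - u|) - π * |u| ≤
      ∫ v in (-π)..π, max 0 (N0 (pt u v) - (-Real.log r)) := by
    refine le_of_forall_pos_le_add fun ε hε => ?_
    obtain ⟨η, hη⟩ : ∃ η : ℝ, η = ε / (2 * π) := ⟨_, rfl⟩
    have hη0 : 0 < η := by rw [hη]; positivity
    have hηε : 2 * π * η = ε := by rw [hη]; field_simp
    obtain ⟨r', hr'⟩ : ∃ r' : ℝ, r' = max ((1 + r) / 2) (Real.exp (-η)) := ⟨_, rfl⟩
    have hrr : r < r' := by
      rw [hr']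
      exact lt_of_lt_of_le (by linarith) (le_max_left _ _)
    have hr1' : r' < 1 := by
      rw [hr']
      exact max_lt (by linarith) (by rw [Real.exp_lt_one_iff]; linarith)
    have hr0' : 0 < r' := hr0.trans hrr
    have hlog : -η ≤ Real.log r' := by
      rw [Real.le_log_iff_exp_le hr0', hr']
      exact le_max_right _ _
    have hlog0 : Real.log r' < 0 := Real.log_neg hr0' hr1'
    have h1 := sr_step hh hne hr0 hrr hr1' u hc0 hc1
    have h2 : Real.log (r' / r) = Real.log r' - Real.log r :=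
      Real.log_div hr0'.ne' hr0.ne'
    have h3 := sr_lip u (L := Real.log (r' / r)) (L0 := -Real.log r) (by rw [h2]; linarith)
    have h4 : 2 * π * (-Real.log r - Real.log (r' / r)) ≤ ε := by
      rw [← hηε, h2]
      apply mul_le_mul_of_nonneg_left _ (by positivity)
      linarith
    linarith
  rw [e0] at key
  linarith

theorem same_r {h : ℂ → ℂ} (hh : HCls h) {r : ℝ} (hr0 : 0 < r) (hr1 : r < 1) (u : ℝ) :
    ∫ θ in (-π)..π, |(h (circleMap 0 r θ)).re - u| ≤
      ∫ θ in (-π)..π, |(h0f (circleMap 0 r θ)).re - u| := by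
  have hπ := Real.pi_pos
  have hc0 : Continuous (fun θ : ℝ => (h0f (circleMap 0 r θ)).re) := by
    refine Complex.continuous_re.comp ?_
    exact sr_h0_diff.continuousOn.comp_continuous (continuous_circleMap 0 r) (sr_mem hr0 hr1)
  by_cases hne : ∃ z ∈ Metric.ball (0 : ℂ) 1, h z ≠ 0
  · have hcont : Continuous (fun θ : ℝ => (h (circleMap 0 r θ)).re) := by
      refine Complex.continuous_re.comp ?_
      exact hh.diff.continuousOn.comp_continuous (continuous_circleMap 0 r) (sr_mem hr0 hr1)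
    have hshift : ∀ g : ℂ → ℂ, ∫ θ in (-π)..π, |(g (circleMap 0 r θ)).re - u| =
        ∫ θ in (0 : ℝ)..(2 * π), |(g (circleMap 0 r θ)).re - u| := by
      intro g
      have hper : Function.Periodic (fun θ : ℝ => |(g (circleMap 0 r θ)).re - u|) (2 * π) := by
        intro θ
        simp only
        rw [periodic_circleMap 0 r θ]
      have := hper.intervalIntegral_add_eq (-π) 0
      rw [zero_add] at this
      rw [← this]
      congr 1
      ring
    rw [hshift h, hshift h0f]
    obtain ⟨B, hB⟩ := (isCompact_closedBall (0 : ℂ) r).exists_bound_of_continuousOn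
      (hh.diff.continuousOn.mono (Metric.closedBall_subset_ball hr1))
    have hB' : ∀ θ : ℝ, |(h (circleMap 0 r θ)).re| ≤ B := fun θ =>
      (Complex.abs_re_le_norm _).trans (hB _ (circleMap_mem_closedBall 0 hr0.le θ))
    have hB0 : 0 ≤ B := (abs_nonneg _).trans (hB' 0)
    refine le_of_forall_pos_le_add fun ε hε => ?_
    set η := min (1 / 2) (ε / (2 * π * B + 1)) with hη
    have hη0 : 0 < η := lt_min (by norm_num) (by positivity)
    have hη1 : η ≤ 1 / 2 := min_le_left _ _
    have hη2 : η * (2 * π * B) ≤ ε := by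
      have h5 : η ≤ ε / (2 * π * B + 1) := min_le_right _ _
      rw [le_div_iff₀ (by positivity)] at h5
      nlinarith
    have h1 := sr_c hh hne hr0 hr1 u (c := 1 - η) (by linarith) (by linarith)
    have h2 : ∫ θ in (0 : ℝ)..(2 * π), |(h (circleMap 0 r θ)).re - u| ≤
        ∫ θ in (0 : ℝ)..(2 * π), (|(1 - η) * (h (circleMap 0 r θ)).re - u| + η * B) := by
      refine intervalIntegral.integral_mono_on (by positivity)
        (Continuous.intervalIntegrable (by fun_prop) _ _)
        (Continuous.intervalIntegrable (by fun_prop) _ _) fun θ _ => ?_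
      have h3 : (h (circleMap 0 r θ)).re - u =
          ((1 - η) * (h (circleMap 0 r θ)).re - u) + η * (h (circleMap 0 r θ)).re := by ring
      rw [h3]
      refine (abs_add_le _ _).trans ?_
      rw [abs_mul, abs_of_pos hη0]
      linarith [mul_le_mul_of_nonneg_left (hB' θ) hη0.le]
    rw [intervalIntegral.integral_add (Continuous.intervalIntegrable (by fun_prop) _ _)
      (Continuous.intervalIntegrable (by fun_prop) _ _), intervalIntegral.integral_const,
      sub_zero, smul_eq_mul] at h2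
    have h4 : 2 * π * (η * B) = η * (2 * π * B) := by ring
    linarith
  · push Not at hne
    have h1 : ∀ θ : ℝ, |(h (circleMap 0 r θ)).re - u| = |u| := by
      intro θ
      rw [hne _ (sr_mem hr0 hr1 θ)]
      simp
    simp only [h1]
    rw [intervalIntegral.integral_const, smul_eq_mul]
    have h2 := circle_mean sr_h0_diff hr0 hr1
    rw [sr_h0_zero, Complex.zero_re, mul_zero] at h2
    have h3 : ∫ θ in (-π)..π, ((h0f (circleMap 0 r θ)).re - u) = -(2 * π * u) := by
      rw [intervalIntegral.integral_sub (hc0.intervalIntegrable _ _) intervalIntegrable_const, h2,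
        intervalIntegral.integral_const, smul_eq_mul]
      ring
    have h4 := intervalIntegral.abs_integral_le_integral_abs
      (f := fun θ => (h0f (circleMap 0 r θ)).re - u) (μ := volume)
      (by linarith : -π ≤ π)
    rw [h3, abs_neg, abs_mul, abs_of_pos Real.two_pi_pos] at h4
    linarith

end MP4a1962
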