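import Pool.Agent.Lib.MP_4a1962_an.EBound

/-!
# SecPt: pointwise bound of the exponential in the near region

Let `X = Xr r θ`, `T = 1 + X²`, `β = bet r ≥ 4`, `p ε ≤ A`, `√ε T² ≤ 1/50`, `√ε ≤ 1/100`.
Claim: `p (16 ε X T³ + 28 √ε X² T) ≤ 128 A + (p/2) log (1 + β X²)`.
If `X ≤ 1`: `T ≤ 2`, `16 p ε X T³ ≤ 128 A`, `28 p √ε X² T ≤ 56 p √ε X² ≤ 0.56 p X² ≤ (p/2) log (1 + 4 X²)`
(`log (1+x) ≥ 2x/(2+x)`).
If `X ≥ 1`: `16 ε X T³ ≤ 16 ε T⁴ ≤ 16/2500`, `28 √ε X² T ≤ 28 √ε T² ≤ 0.56`; the sum is `≤ 0.57 ≤ (1/2) log 5`.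
-/

set_option autoImplicit false

open MeasureTheory Set Filter Topology
open scoped Real ENNReal NNReal

namespace MP4a1962

theorem exp_rem (w : ℂ) : ‖Complex.exp (-w) - 1 + w‖ ≤ ‖w‖ ^ 2 * Real.exp ‖w‖ := by
  have h := Complex.norm_exp_sub_sum_le_norm_mul_exp (-w) 2
  have e : Complex.exp (-w) - 1 + w =
      Complex.exp (-w) - ∑ m ∈ Finset.range 2, (-w) ^ m / (m.factorial : ℂ) := by
    simp [Finset.sum_range_succ]
    ring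
  rw [e]
  rwa [norm_neg] at h

private theorem key {ε p A X b : ℝ} (hε : 0 ≤ ε) (hp : 0 < p) (hA : p * ε ≤ A)
    (h100 : √ε ≤ 1 / 100) (hX : 0 ≤ X) (hb : 4 ≤ b) (hT : √ε * (1 + X ^ 2) ^ 2 ≤ 1 / 50) :
    p * (16 * ε * X * (1 + X ^ 2) ^ 3 + 28 * √ε * X ^ 2 * (1 + X ^ 2)) ≤
      128 * A + p / 2 * Real.log (1 + b * X ^ 2) := by
  have hs0 : 0 ≤ √ε := Real.sqrt_nonneg _
  have hss : √ε * √ε = ε := Real.mul_self_sqrt hε
  have hX2 : 0 ≤ X ^ 2 := sq_nonneg _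
  rcases le_or_gt X 1 with h1 | h1
  · have hT2 : 1 + X ^ 2 ≤ 2 := by nlinarith
    have hT3 : (1 + X ^ 2) ^ 3 ≤ 8 := by
      calc (1 + X ^ 2) ^ 3 ≤ 2 ^ 3 := pow_le_pow_left₀ (by positivity) hT2 3
        _ = 8 := by norm_num
    have e1 : 16 * ε * X * (1 + X ^ 2) ^ 3 ≤ 128 * ε := by
      have : X * (1 + X ^ 2) ^ 3 ≤ 1 * 8 :=
        mul_le_mul h1 hT3 (by positivity) (by norm_num)
      calc 16 * ε * X * (1 + X ^ 2) ^ 3 = 16 * ε * (X * (1 + X ^ 2) ^ 3) := by ring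
        _ ≤ 16 * ε * (1 * 8) := mul_le_mul_of_nonneg_left this (by positivity)
        _ = 128 * ε := by ring
    have e2 : 28 * √ε * X ^ 2 * (1 + X ^ 2) ≤ 14 / 25 * X ^ 2 := by
      have : √ε * (1 + X ^ 2) ≤ 1 / 100 * 2 :=
        mul_le_mul h100 hT2 (by positivity) (by norm_num)
      calc 28 * √ε * X ^ 2 * (1 + X ^ 2) = 28 * X ^ 2 * (√ε * (1 + X ^ 2)) := by ring
        _ ≤ 28 * X ^ 2 * (1 / 100 * 2) := mul_le_mul_of_nonneg_left this (by positivity)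
        _ = 14 / 25 * X ^ 2 := by ring
    have e3 : 4 / 3 * X ^ 2 ≤ Real.log (1 + b * X ^ 2) := by
      have h4 : 2 * (4 * X ^ 2) / (4 * X ^ 2 + 2) ≤ Real.log (1 + 4 * X ^ 2) :=
        Real.le_log_one_add_of_nonneg (by positivity)
      have h5 : Real.log (1 + 4 * X ^ 2) ≤ Real.log (1 + b * X ^ 2) := by
        apply Real.log_le_log (by positivity)
        nlinarith
      have h6 : 4 / 3 * X ^ 2 ≤ 2 * (4 * X ^ 2) / (4 * X ^ 2 + 2) := by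
        rw [le_div_iff₀ (by positivity)]
        nlinarith
      linarith
    have e4 : 16 * ε * X * (1 + X ^ 2) ^ 3 + 28 * √ε * X ^ 2 * (1 + X ^ 2) ≤
        128 * ε + 1 / 2 * Real.log (1 + b * X ^ 2) := by
      have : 14 / 25 * X ^ 2 ≤ 1 / 2 * (4 / 3 * X ^ 2) := by nlinarith
      linarith
    calc _ ≤ p * (128 * ε + 1 / 2 * Real.log (1 + b * X ^ 2)) :=
          mul_le_mul_of_nonneg_left e4 hp.le
      _ = 128 * (p * ε) + p / 2 * Real.log (1 + b * X ^ 2) := by ring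
      _ ≤ _ := by linarith
  · have hXT : X ≤ 1 + X ^ 2 := by nlinarith
    have hT1 : 1 ≤ 1 + X ^ 2 := by linarith
    have e1 : 16 * ε * X * (1 + X ^ 2) ^ 3 ≤ 16 / 2500 := by
      have h2 : X * (1 + X ^ 2) ^ 3 ≤ (1 + X ^ 2) * (1 + X ^ 2) ^ 3 :=
        mul_le_mul_of_nonneg_right hXT (by positivity)
      have h3 : (√ε * (1 + X ^ 2) ^ 2) ^ 2 ≤ (1 / 50) ^ 2 :=
        pow_le_pow_left₀ (by positivity) hT 2
      have h4 : (√ε * (1 + X ^ 2) ^ 2) ^ 2 = ε * ((1 + X ^ 2) * (1 + X ^ 2) ^ 3) := by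
        calc (√ε * (1 + X ^ 2) ^ 2) ^ 2 = (√ε * √ε) * ((1 + X ^ 2) * (1 + X ^ 2) ^ 3) := by ring
          _ = _ := by rw [hss]
      calc 16 * ε * X * (1 + X ^ 2) ^ 3 = 16 * (ε * (X * (1 + X ^ 2) ^ 3)) := by ring
        _ ≤ 16 * (ε * ((1 + X ^ 2) * (1 + X ^ 2) ^ 3)) := by
            have := mul_le_mul_of_nonneg_left h2 hε
            linarith
        _ = 16 * (√ε * (1 + X ^ 2) ^ 2) ^ 2 := by rw [h4]
        _ ≤ 16 * (1 / 50) ^ 2 := by linarith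
        _ = 16 / 2500 := by norm_num
    have e2 : 28 * √ε * X ^ 2 * (1 + X ^ 2) ≤ 14 / 25 := by
      have h2 : X ^ 2 * (1 + X ^ 2) ≤ (1 + X ^ 2) ^ 2 := by nlinarith
      calc 28 * √ε * X ^ 2 * (1 + X ^ 2) = 28 * √ε * (X ^ 2 * (1 + X ^ 2)) := by ring
        _ ≤ 28 * √ε * (1 + X ^ 2) ^ 2 := mul_le_mul_of_nonneg_left h2 (by positivity)
        _ = 28 * (√ε * (1 + X ^ 2) ^ 2) := by ring
        _ ≤ 28 * (1 / 50) := by linarith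
        _ = 14 / 25 := by norm_num
    have e3 : 4 / 3 ≤ Real.log (1 + b * X ^ 2) := by
      have h4 : 2 * (4 : ℝ) / (4 + 2) ≤ Real.log (1 + 4) :=
        Real.le_log_one_add_of_nonneg (by norm_num)
      have h5 : Real.log (1 + 4) ≤ Real.log (1 + b * X ^ 2) := by
        apply Real.log_le_log (by norm_num)
        nlinarith
      norm_num at h4
      have : Real.log (1 + 4) = Real.log 5 := by norm_num
      linarith
    have hA0 : 0 ≤ A := le_trans (by positivity) hA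
    calc _ ≤ p * (1 / 2 * Real.log (1 + b * X ^ 2)) :=
          mul_le_mul_of_nonneg_left (by linarith) hp.le
      _ = p / 2 * Real.log (1 + b * X ^ 2) := by ring
      _ ≤ _ := by linarith

theorem sec_pt {e : ℕ → ℂ} {ε p r A : ℝ} (he : ESeq e ε) (hp : 0 < p) (hr0 : 0 < r) (hr1 : r < 1)
    (hA : p * ε ≤ A) (h100 : √ε ≤ 1 / 100) (n : ℕ) (θ : ℝ) (hT : √ε * (1 + Xr r θ ^ 2) ^ 2 ≤ 1 / 50) :
    ‖G0 p r n θ‖ * ‖Complex.exp (-(p * Ek e r θ)) - 1 + p * Ek e r θ‖ ≤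
      Real.exp (128 * A) * p ^ 2 * (512 * ε ^ 2 * Xr r θ ^ 2 * (1 + Xr r θ ^ 2) ^ 6 +
        1568 * ε * Xr r θ ^ 4 * (1 + Xr r θ ^ 2) ^ 2) * (1 + bet r * Xr r θ ^ 2) ^ (-p / 2) := by
  have hX := Xr_nonneg hr0 hr1 θ
  have hb := bet_ge hr0 hr1
  have hE := Ek_norm_le he hr0 hr1 θ
  have hk := key he.nn hp hA h100 hX hb hT
  have hs0 : 0 ≤ √ε := Real.sqrt_nonneg _
  have hss : √ε * √ε = ε := Real.mul_self_sqrt he.nn
  set X := Xr r θ with hXd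
  set a : ℝ := 16 * ε * X * (1 + X ^ 2) ^ 3 with ha
  set b : ℝ := 28 * √ε * X ^ 2 * (1 + X ^ 2) with hbd
  have hbase : 0 < 1 + bet r * X ^ 2 := by positivity
  have hnorm : ‖(p : ℂ) * Ek e r θ‖ = p * ‖Ek e r θ‖ := by
    rw [norm_mul, Complex.norm_real, Real.norm_eq_abs, abs_of_pos hp]
  have hpE : p * ‖Ek e r θ‖ ≤ p * (a + b) := mul_le_mul_of_nonneg_left hE hp.le
  have hpE0 : 0 ≤ p * ‖Ek e r θ‖ := mul_nonneg hp.le (norm_nonneg _)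
  have h1 := exp_rem ((p : ℂ) * Ek e r θ)
  rw [hnorm] at h1
  have h2 : (p * ‖Ek e r θ‖) ^ 2 ≤ p ^ 2 * (512 * ε ^ 2 * X ^ 2 * (1 + X ^ 2) ^ 6 +
      1568 * ε * X ^ 4 * (1 + X ^ 2) ^ 2) := by
    calc (p * ‖Ek e r θ‖) ^ 2 ≤ (p * (a + b)) ^ 2 := pow_le_pow_left₀ hpE0 hpE 2
      _ = p ^ 2 * (a + b) ^ 2 := by ring
      _ ≤ p ^ 2 * (2 * a ^ 2 + 2 * b ^ 2) := by
          apply mul_le_mul_of_nonneg_left _ (sq_nonneg p)
          nlinarith [sq_nonneg (a - b)]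
      _ = p ^ 2 * (512 * ε ^ 2 * X ^ 2 * (1 + X ^ 2) ^ 6 +
          1568 * (√ε * √ε) * X ^ 4 * (1 + X ^ 2) ^ 2) := by rw [ha, hbd]; ring
      _ = _ := by rw [hss]
  have h3 : Real.exp (p * ‖Ek e r θ‖) ≤ Real.exp (128 * A) * (1 + bet r * X ^ 2) ^ (p / 2) := by
    rw [Real.rpow_def_of_pos hbase, ← Real.exp_add]
    apply Real.exp_le_exp.2
    calc p * ‖Ek e r θ‖ ≤ p * (a + b) := hpE
      _ ≤ 128 * A + p / 2 * Real.log (1 + bet r * X ^ 2) := hk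
      _ = 128 * A + Real.log (1 + bet r * X ^ 2) * (p / 2) := by ring
  have h4 := norm_G0_le hp.le hr0 hr1 n θ
  have h5 : (1 + bet r * X ^ 2) ^ (-p) * (1 + bet r * X ^ 2) ^ (p / 2) =
      (1 + bet r * X ^ 2) ^ (-p / 2) := by
    rw [← Real.rpow_add hbase]
    congr 1
    ring
  have hQ : 0 ≤ p ^ 2 * (512 * ε ^ 2 * X ^ 2 * (1 + X ^ 2) ^ 6 +
      1568 * ε * X ^ 4 * (1 + X ^ 2) ^ 2) := by
    have := he.nn
    positivity
  calc ‖G0 p r n θ‖ * ‖Complex.exp (-(p * Ek e r θ)) - 1 + p * Ek e r θ‖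
      ≤ (1 + bet r * X ^ 2) ^ (-p) * ((p ^ 2 * (512 * ε ^ 2 * X ^ 2 * (1 + X ^ 2) ^ 6 +
        1568 * ε * X ^ 4 * (1 + X ^ 2) ^ 2)) *
        (Real.exp (128 * A) * (1 + bet r * X ^ 2) ^ (p / 2))) := by
        refine mul_le_mul h4 (h1.trans ?_) (norm_nonneg _) (Real.rpow_nonneg hbase.le _)
        exact mul_le_mul h2 h3 (Real.exp_pos _).le hQ
    _ = Real.exp (128 * A) * p ^ 2 * (512 * ε ^ 2 * X ^ 2 * (1 + X ^ 2) ^ 6 +
        1568 * ε * X ^ 4 * (1 + X ^ 2) ^ 2) *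
        ((1 + bet r * X ^ 2) ^ (-p) * (1 + bet r * X ^ 2) ^ (p / 2)) := by ring
    _ = _ := by rw [h5]

end MP4a1962
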