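import Pool.Agent.Lib.MP_4a1962_an.SeqIm

/-!
# SeqBig: the case `δ ≥ 1/2` of the coefficient comparison (n ≤ p/8)

`ERec p c A`: `A 0 = 1`, `(n+1) A (n+1) = p Σ_{k ≤ n} (k+1) c (k+1) A (n-k)`.
`CRec p C`: the same real recursion for `h0c`.

Claim: if `δ ≥ 1/2`, `8 n ≤ p`, then `‖A n‖ ≤ C n`.
Proof. Strong induction. By `CRec.ge`, `C i ≤ C (i + 1) / 32` for `8 (i + 1) ≤ p`, so for `8 (m + 1) ≤ p`:
`(m+1) ‖A (m+1)‖ ≤ p (7/2 C m + 4 Σ_{k=1}^{m} (k+1) C (m-k)) ≤ p C m (7/2 + 4 Σ_{k≥1} (k+1) 32^{-k})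
≤ p C m (7/2 + 4 Σ_{k≥1} 16^{-k}) ≤ 4 p C m ≤ (m+1) C (m+1)`.
-/

set_option autoImplicit false

open MeasureTheory Set Filter Topology
open scoped Real ENNReal NNReal

namespace MP4a1962

/-- recursion of the coefficients of `exp (p h)` -/
structure ERec (p : ℝ) (c A : ℕ → ℂ) : Prop where
  zero : A 0 = 1
  succ : ∀ n : ℕ, ((n : ℂ) + 1) * A (n + 1) =
    p * ∑ k ∈ Finset.range (n + 1), ((k : ℂ) + 1) * c (k + 1) * A (n - k)

/-- recursion of the extremal coefficients -/
structure CRec (p : ℝ) (C : ℕ → ℝ) : Prop where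
  zero : C 0 = 1
  succ : ∀ n : ℕ, ((n : ℝ) + 1) * C (n + 1) =
    p * ∑ k ∈ Finset.range (n + 1), ((k : ℝ) + 1) * h0c (k + 1) * C (n - k)

private theorem h0c_nn (k : ℕ) : 0 ≤ h0c k := by
  unfold h0c
  split_ifs <;> positivity

private theorem h0c_one : h0c 1 = 4 := by
  unfold h0c
  rw [if_pos (by decide)]
  norm_num

private theorem crec_aux {p : ℝ} (hp : 0 < p) {C : ℕ → ℝ} (hC : CRec p C) (n : ℕ)
    (h : ∀ k ≤ n, 0 ≤ C k) : 4 * p * C n ≤ ((n : ℝ) + 1) * C (n + 1) := by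
  rw [hC.succ n, Finset.sum_range_succ']
  have h1 : 0 ≤ ∑ k ∈ Finset.range n, (((k + 1 : ℕ) : ℝ) + 1) * h0c (k + 1 + 1) * C (n - (k + 1)) :=
    Finset.sum_nonneg fun k _ => mul_nonneg (mul_nonneg (by positivity) (h0c_nn _)) (h _ (by omega))
  have h2 : ((0 : ℕ) : ℝ) = 0 := Nat.cast_zero
  rw [h2, zero_add, zero_add, h0c_one, Nat.sub_zero]
  nlinarith

theorem CRec.pos {p : ℝ} (hp : 0 < p) {C : ℕ → ℝ} (hC : CRec p C) (n : ℕ) : 0 < C n := by
  induction n using Nat.strong_induction_on with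
  | _ n ih =>
    rcases n with _ | n
    · rw [hC.zero]; exact one_pos
    · have h := crec_aux hp hC n (fun k hk => (ih k (by omega)).le)
      have h1 := ih n (by omega)
      have h2 : 0 < 4 * p * C n := by positivity
      have h3 : 0 < ((n : ℝ) + 1) * C (n + 1) := lt_of_lt_of_le h2 h
      exact (pos_iff_pos_of_mul_pos h3).1 (by positivity)

theorem CRec.ge {p : ℝ} (hp : 0 < p) {C : ℕ → ℝ} (hC : CRec p C) (n : ℕ) :
    4 * p * C n ≤ ((n : ℝ) + 1) * C (n + 1) :=
  crec_aux hp hC n fun k _ => (hC.pos hp k).le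

private theorem ratio {p : ℝ} (hp : 0 < p) {C : ℕ → ℝ} (hC : CRec p C) (m : ℕ)
    (hm : 8 * ((m : ℝ) + 1) ≤ p) (k : ℕ) (hk : k ≤ m) : C (m - k) ≤ (1 / 32) ^ k * C m := by
  induction k with
  | zero => simp
  | succ k ih =>
    have ih' := ih (by omega)
    obtain ⟨i, hi⟩ : ∃ i, m - k = i + 1 := ⟨m - k - 1, by omega⟩
    have hi' : m - (k + 1) = i := by omega
    rw [hi']
    rw [hi] at ih'
    have hge := hC.ge hp i
    have him : (i : ℝ) + 1 ≤ m := by
      have : i + 1 ≤ m := by omega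
      exact_mod_cast this
    have hC1 := hC.pos hp (i + 1)
    have h1 : ((i : ℝ) + 1) * C (i + 1) ≤ p / 8 * C (i + 1) :=
      mul_le_mul_of_nonneg_right (by linarith) hC1.le
    have h2 : C i ≤ 1 / 32 * C (i + 1) := by
      have h3 : p * (4 * C i) ≤ p * (1 / 8 * C (i + 1)) := by
        calc p * (4 * C i) = 4 * p * C i := by ring
          _ ≤ p / 8 * C (i + 1) := hge.trans h1
          _ = p * (1 / 8 * C (i + 1)) := by ring
      have h4 := le_of_mul_le_mul_left h3 hp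
      linarith
    rw [pow_succ]
    nlinarith

theorem seq_big {p δ : ℝ} (hp : 0 < p) {c A : ℕ → ℂ} {C : ℕ → ℝ} (hc : CSeq c δ) (hA : ERec p c A)
    (hC : CRec p C) (hδ : 1 / 2 ≤ δ) {n : ℕ} (hn : 8 * (n : ℝ) ≤ p) : ‖A n‖ ≤ C n := by
  induction n using Nat.strong_induction_on with
  | _ n ih =>
    rcases n with _ | m
    · rw [hA.zero, hC.zero, norm_one]
    have hn' : 8 * ((m : ℝ) + 1) ≤ p := by
      push_cast at hn
      exact hn
    have ih' : ∀ k ≤ m, ‖A (m - k)‖ ≤ (1 / 32) ^ k * C m := by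
      intro k hk
      refine (ih (m - k) (by omega) ?_).trans (ratio hp hC m hn' k hk)
      have : ((m - k : ℕ) : ℝ) ≤ m := by exact_mod_cast Nat.sub_le m k
      linarith
    have hCm := hC.pos hp m
    have hc1 : ‖c 1‖ ≤ 7 / 2 := by
      rw [hc.c1, Complex.norm_real, Real.norm_eq_abs, abs_of_nonneg (by linarith [hc.d4])]
      linarith
    have hterm : ∀ k ∈ Finset.range m, ‖(((k + 1 : ℕ) : ℂ) + 1) * c (k + 1 + 1) * A (m - (k + 1))‖ ≤
        (1 / 4 * (1 / 16) ^ k) * C m := by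
      intro k hk
      rw [Finset.mem_range] at hk
      rw [norm_mul, norm_mul]
      have e1 : ‖(((k + 1 : ℕ) : ℂ) + 1)‖ = (k : ℝ) + 2 := by
        have : (((k + 1 : ℕ) : ℂ) + 1) = ((((k : ℝ) + 2 : ℝ)) : ℂ) := by push_cast; ring
        rw [this, Complex.norm_real, Real.norm_eq_abs, abs_of_nonneg (by positivity)]
      have e2 := hc.le4 (k + 1 + 1) (by omega)
      have e3 := ih' (k + 1) (by omega)
      have e4 : (k : ℝ) + 2 ≤ 2 * 2 ^ k := by
        have : k + 2 ≤ 2 * 2 ^ k := by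
          have := Nat.lt_two_pow_self (n := k + 1)
          rw [pow_succ] at this
          omega
        exact_mod_cast this
      rw [e1]
      calc ((k : ℝ) + 2) * ‖c (k + 1 + 1)‖ * ‖A (m - (k + 1))‖
          ≤ (2 * 2 ^ k) * 4 * ((1 / 32) ^ (k + 1) * C m) := by
            refine mul_le_mul (mul_le_mul e4 e2 (norm_nonneg _) (by positivity)) e3
              (norm_nonneg _) (by positivity)
        _ = (1 / 4 * (1 / 16) ^ k) * C m := by
            have : (1 / 16 : ℝ) ^ k = 2 ^ k * (1 / 32) ^ k := by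
              rw [← mul_pow]; norm_num
            rw [this, pow_succ]; ring
    have hkey : ‖∑ k ∈ Finset.range (m + 1), ((k : ℂ) + 1) * c (k + 1) * A (m - k)‖ ≤ 4 * C m := by
      rw [Finset.sum_range_succ']
      refine (norm_add_le _ _).trans ?_
      have a1 : ‖∑ k ∈ Finset.range m, (((k + 1 : ℕ) : ℂ) + 1) * c (k + 1 + 1) * A (m - (k + 1))‖ ≤
          4 / 15 * C m := by
        refine (norm_sum_le _ _).trans ((Finset.sum_le_sum hterm).trans ?_)
        rw [← Finset.sum_mul, ← Finset.mul_sum]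
        refine mul_le_mul_of_nonneg_right ?_ hCm.le
        have g := (summable_geometric_of_lt_one (r := (1 / 16 : ℝ)) (by norm_num)
          (by norm_num)).sum_le_tsum (Finset.range m) (fun i _ => by positivity)
        rw [tsum_geometric_of_lt_one (by norm_num) (by norm_num)] at g
        norm_num at g ⊢
        linarith
      have a2 : ‖(((0 : ℕ) : ℂ) + 1) * c (0 + 1) * A (m - 0)‖ ≤ 7 / 2 * C m := by
        rw [Nat.cast_zero, zero_add, one_mul, norm_mul, zero_add]
        have := ih' 0 (by omega)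
        rw [pow_zero, one_mul] at this
        exact mul_le_mul hc1 this (norm_nonneg _) (by norm_num)
      refine (add_le_add a1 a2).trans ?_
      linarith
    have h1 : ((m : ℝ) + 1) * ‖A (m + 1)‖ ≤ ((m : ℝ) + 1) * C (m + 1) := by
      have e1 : ‖((m : ℂ) + 1) * A (m + 1)‖ = ((m : ℝ) + 1) * ‖A (m + 1)‖ := by
        rw [norm_mul]
        congr 1
        have : ((m : ℂ) + 1) = (((m : ℝ) + 1 : ℝ) : ℂ) := by push_cast; ring
        rw [this, Complex.norm_real, Real.norm_eq_abs, abs_of_nonneg (by positivity)]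
      rw [← e1, hA.succ m, norm_mul, Complex.norm_real, Real.norm_eq_abs, abs_of_pos hp]
      calc p * ‖∑ k ∈ Finset.range (m + 1), ((k : ℂ) + 1) * c (k + 1) * A (m - k)‖
          ≤ p * (4 * C m) := mul_le_mul_of_nonneg_left hkey hp.le
        _ = 4 * p * C m := by ring
        _ ≤ ((m : ℝ) + 1) * C (m + 1) := hC.ge hp m
    exact le_of_mul_le_mul_left h1 (by positivity)

end MP4a1962
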