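import Pool.Agent.Lib.MP_4a1962_an.Defs

/-!
# SeqProd: products of perturbed ratios

Induction on `m`, with `b = 5/512`, `θ = 5/128`:
`Re (P q) - P0 q0 = (Re P - P0) Re q + P0 (Re q - q0) - Im P Im q`,
`Im (P q) = Im P Re q + Re P Im q`. For `m ≥ 1`:
`θ/60 · 12^{-(m-1)} + 32^{-m}/64 + b² 12^{-(m-1)} ≤ 12^{-m}/60` because
`12 θ/60 + (12/32)^m/64 + 12 b² ≤ 0.00782 + 0.00586 + 0.00115 ≤ 1/60`, and
`θ b 12^{-(m-1)} + θ^m b ≤ b 12^{-m}` because `12 θ + (12 θ)^m ≤ 0.9375 ≤ 1`.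
-/

set_option autoImplicit false

open MeasureTheory Set Filter Topology
open scoped Real ENNReal NNReal

namespace MP4a1962

private theorem seq_prod_aux {δ : ℝ} (hδ0 : 0 ≤ δ) {q : ℕ → ℂ} {q0 : ℕ → ℝ} (m : ℕ)
    (h1 : ∀ i < m + 1, ‖q i‖ ≤ 5 / 128) (h2 : ∀ i < m + 1, 0 ≤ q0 i ∧ q0 i ≤ 1 / 32)
    (h3 : ∀ i < m + 1, |(q i).im| ≤ 5 / 512 * √δ)
    (h4 : ∀ i < m + 1, |(q i).re - q0 i| ≤ δ / 64) :
    ‖∏ i ∈ Finset.range (m + 1), q i‖ ≤ (5 / 128) ^ (m + 1) ∧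
    0 ≤ ∏ i ∈ Finset.range (m + 1), q0 i ∧
    ∏ i ∈ Finset.range (m + 1), q0 i ≤ (1 / 32) ^ (m + 1) ∧
    |(∏ i ∈ Finset.range (m + 1), q i).im| ≤ 5 / 512 * √δ * (1 / 12) ^ m ∧
    |(∏ i ∈ Finset.range (m + 1), q i).re - ∏ i ∈ Finset.range (m + 1), q0 i| ≤
      δ / 60 * (1 / 12) ^ m := by
  induction m with
  | zero =>
    simp only [zero_add, Finset.prod_range_one, pow_one, pow_zero, mul_one]
    refine ⟨h1 0 (by norm_num), (h2 0 (by norm_num)).1, (h2 0 (by norm_num)).2,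
      h3 0 (by norm_num), (h4 0 (by norm_num)).trans (by linarith)⟩
  | succ m ih =>
    obtain ⟨i1, i2, i3, i4, i5⟩ := ih (fun i hi => h1 i (by omega)) (fun i hi => h2 i (by omega))
      (fun i hi => h3 i (by omega)) (fun i hi => h4 i (by omega))
    rw [Finset.prod_range_succ _ (m + 1), Finset.prod_range_succ _ (m + 1)]
    set P := ∏ i ∈ Finset.range (m + 1), q i with hP
    set P0 := ∏ i ∈ Finset.range (m + 1), q0 i with hP0
    have j1 := h1 (m + 1) (by omega)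
    obtain ⟨j2, j2'⟩ := h2 (m + 1) (by omega)
    have j3 := h3 (m + 1) (by omega)
    have j4 := h4 (m + 1) (by omega)
    set Q := q (m + 1) with hQ
    set Q0 := q0 (m + 1) with hQ0
    have hs : √δ * √δ = δ := Real.mul_self_sqrt hδ0
    have hs0 : 0 ≤ √δ := Real.sqrt_nonneg _
    set s := √δ with hsd
    have hA0 : (0 : ℝ) ≤ (1 / 12) ^ m := by positivity
    have hθA : (5 / 128 : ℝ) ^ m ≤ (1 / 12) ^ m := pow_le_pow_left₀ (by norm_num) (by norm_num) m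
    have h32A : (1 / 32 : ℝ) ^ m ≤ (1 / 12) ^ m := pow_le_pow_left₀ (by norm_num) (by norm_num) m
    set A : ℝ := (1 / 12) ^ m with hA
    have hPn : ‖P‖ ≤ 5 / 128 * A := by
      refine i1.trans ?_
      rw [pow_succ]
      nlinarith
    have hP0A : P0 ≤ 1 / 32 * A := by
      refine i3.trans ?_
      rw [pow_succ]
      nlinarith
    have hQre : |Q.re| ≤ 5 / 128 := (Complex.abs_re_le_norm Q).trans j1
    have hPre : |P.re| ≤ 5 / 128 * A := (Complex.abs_re_le_norm P).trans hPn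
    refine ⟨?_, mul_nonneg i2 j2, ?_, ?_, ?_⟩
    · rw [norm_mul, pow_succ _ (m + 1)]
      exact mul_le_mul i1 j1 (norm_nonneg _) (by positivity)
    · rw [pow_succ _ (m + 1)]
      exact mul_le_mul i3 j2' j2 (by positivity)
    · rw [Complex.mul_im, pow_succ _ m, ← hA]
      calc |P.re * Q.im + P.im * Q.re| ≤ |P.re| * |Q.im| + |P.im| * |Q.re| := by
            refine (abs_add_le _ _).trans ?_
            rw [abs_mul, abs_mul]
        _ ≤ 5 / 128 * A * (5 / 512 * s) + 5 / 512 * s * A * (5 / 128) := by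
            refine add_le_add (mul_le_mul hPre j3 (abs_nonneg _) (by positivity))
              (mul_le_mul i4 hQre (abs_nonneg _) (by positivity))
        _ ≤ 5 / 512 * s * (A * (1 / 12)) := by
            have : 0 ≤ s * A := mul_nonneg hs0 hA0
            nlinarith
    · rw [Complex.mul_re, pow_succ _ m, ← hA]
      have hid : P.re * Q.re - P.im * Q.im - P0 * Q0
          = (P.re - P0) * Q.re + P0 * (Q.re - Q0) - P.im * Q.im := by ring
      rw [hid]
      calc |(P.re - P0) * Q.re + P0 * (Q.re - Q0) - P.im * Q.im|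
          ≤ |P.re - P0| * |Q.re| + P0 * |Q.re - Q0| + |P.im| * |Q.im| := by
            refine (abs_sub _ _).trans (add_le_add ((abs_add_le _ _).trans ?_) ?_)
            · rw [abs_mul, abs_mul, abs_of_nonneg i2]
            · rw [abs_mul]
        _ ≤ δ / 60 * A * (5 / 128) + 1 / 32 * A * (δ / 64) + 5 / 512 * s * A * (5 / 512 * s) := by
            refine add_le_add (add_le_add (mul_le_mul i5 hQre (abs_nonneg _) (by positivity))
              (mul_le_mul hP0A j4 (abs_nonneg _) (by positivity)))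
              (mul_le_mul i4 j3 (abs_nonneg _) (by positivity))
        _ = (5 / 7680 + 1 / 2048 + 25 / 262144) * (δ * A) := by
            have : 5 / 512 * s * A * (5 / 512 * s) = 25 / 262144 * (s * s) * A := by ring
            rw [this, hs]; ring
        _ ≤ δ / 60 * (A * (1 / 12)) := by
            have : 0 ≤ δ * A := mul_nonneg hδ0 hA0
            nlinarith

theorem seq_prod {δ : ℝ} (hδ0 : 0 ≤ δ) {q : ℕ → ℂ} {q0 : ℕ → ℝ} {m : ℕ} (hm : 1 ≤ m)
    (h1 : ∀ i < m, ‖q i‖ ≤ 5 / 128) (h2 : ∀ i < m, 0 ≤ q0 i ∧ q0 i ≤ 1 / 32)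
    (h3 : ∀ i < m, |(q i).im| ≤ 5 / 512 * √δ) (h4 : ∀ i < m, |(q i).re - q0 i| ≤ δ / 64) :
    ‖∏ i ∈ Finset.range m, q i‖ ≤ (5 / 128) ^ m ∧
    0 ≤ ∏ i ∈ Finset.range m, q0 i ∧
    ∏ i ∈ Finset.range m, q0 i ≤ (1 / 32) ^ m ∧
    |(∏ i ∈ Finset.range m, q i).im| ≤ 5 / 512 * √δ * (1 / 12) ^ (m - 1) ∧
    |(∏ i ∈ Finset.range m, q i).re - ∏ i ∈ Finset.range m, q0 i| ≤ δ / 60 * (1 / 12) ^ (m - 1) := by
  obtain ⟨m', rfl⟩ : ∃ m', m = m' + 1 := ⟨m - 1, by omega⟩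
  exact seq_prod_aux hδ0 m' h1 h2 h3 h4

end MP4a1962
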