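import Pool.Agent.Lib.MP_4a1962_an.SeqIm

/-!
# SeqStep: one step of the comparison of the coefficient ratios

With `c k = h0c k + r k + i (i_k)`, `|r k| ≤ k² δ`, `|i_k| ≤ (17/5) k √δ` (`CSeq.re_le`, `CSeq.im_le`),
`c 1 = 4 - δ`, `k h0c k = 4` for odd `k` and `0` for even `k`; `θ = 5/128`, `b = 5/512`:
`Re s - s0 = -δ + Σ_{k≥2} k (h0c k (Re P_k - P0_k) + r k Re P_k - i_k Im P_k)`, and the sum is at most
`δ (Σ_{k≥3} 4 · 12^{-(k-2)}/60 + Σ_{k≥2} k³ θ^{k-1} + (17/5) b Σ_{k≥2} k² 12^{-(k-2)})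
   ≤ δ (0.0061 + 0.361 + 0.164) < (3/5) δ`
(`k³ θ^{k-1} ≤ 8 θ (27 θ/8)^{k-2}`, `k² 12^{-(k-2)} ≤ 4 (9/48)^{k-2}`, geometric sums), and
`|Im s| ≤ Σ_{k≥2} k (|i_k| |Re P_k| + |Re (c k)| |Im P_k|) ≤ Σ_{k≥2} k ((17/5) k √δ θ^{k-1} + 4 b √δ 12^{-(k-2)})
  ≤ √δ (0.583 + 0.0893) < (4/5) √δ` (`k² θ^{k-1} ≤ 4 θ (9 θ/4)^{k-2}`, `k 12^{-(k-2)} ≤ 2 (1/8)^{k-2}`).
`s0 ≥ 4` because the term `k = 1` is `4` and the others are `≥ 0`.
-/

set_option autoImplicit false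

open MeasureTheory Set Filter Topology
open scoped Real ENNReal NNReal

namespace MP4a1962

private theorem geo_le {x : ℝ} (hx : 0 ≤ x) (hx1 : x < 1) (j : ℕ) :
    ∑ k ∈ Finset.Icc 2 j, x ^ (k - 2) ≤ (1 - x)⁻¹ := by
  have h1 : ∑ k ∈ Finset.Icc 2 j, x ^ (k - 2) = ∑ i ∈ Finset.range (j + 1 - 2), x ^ i := by
    rw [← Finset.Ico_add_one_right_eq_Icc, Finset.sum_Ico_eq_sum_range]
    refine Finset.sum_congr rfl fun i _ => ?_
    congr 1
    omega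
  rw [h1]
  have h := (summable_geometric_of_lt_one hx hx1).sum_le_tsum (Finset.range (j + 1 - 2))
    (fun i _ => pow_nonneg hx i)
  rwa [tsum_geometric_of_lt_one hx hx1] at h

private theorem lin_le (i : ℕ) : ((i : ℝ) + 2) ≤ 2 * (3 / 2) ^ i := by
  induction i with
  | zero => norm_num
  | succ i ih =>
    rw [pow_succ]
    push_cast
    have : (0 : ℝ) ≤ i := Nat.cast_nonneg i
    nlinarith

private theorem sq_le' (i : ℕ) : ((i : ℝ) + 2) ^ 2 ≤ 4 * (9 / 4) ^ i := by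
  have h := pow_le_pow_left₀ (by positivity) (lin_le i) 2
  refine h.trans (le_of_eq ?_)
  rw [mul_pow, ← pow_mul, mul_comm i 2, pow_mul]
  norm_num

private theorem cube_le' (i : ℕ) : ((i : ℝ) + 2) ^ 3 ≤ 8 * (27 / 8) ^ i := by
  have h := pow_le_pow_left₀ (by positivity) (lin_le i) 3
  refine h.trans (le_of_eq ?_)
  rw [mul_pow, ← pow_mul, mul_comm i 3, pow_mul]
  norm_num

private theorem h0c_nonneg (k : ℕ) : 0 ≤ h0c k := by
  unfold h0c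
  split_ifs <;> positivity

private theorem mul_h0c_le (k : ℕ) : (k : ℝ) * h0c k ≤ 4 := by
  unfold h0c
  split_ifs with h
  · have hk : (k : ℝ) ≠ 0 := by
      rintro h0
      rw [Nat.cast_eq_zero] at h0
      subst h0
      exact absurd h (by decide)
    rw [mul_div_cancel₀ _ hk]
  · norm_num

private theorem term_re {c : ℕ → ℂ} {δ : ℝ} (hc : CSeq c δ) (k : ℕ) (hk : 2 ≤ k) {P : ℂ} {P0 : ℝ}
    (h1 : ‖P‖ ≤ (5 / 128) ^ (k - 1))
    (h3 : |P.im| ≤ 5 / 512 * √δ * (1 / 12) ^ (k - 2))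
    (h4 : |P.re - P0| ≤ δ / 60 * (1 / 12) ^ (k - 2)) :
    |((k : ℂ) * c k * P).re - (k : ℝ) * h0c k * P0| ≤
      δ * (1 / 15 * (1 / 12) ^ (k - 2) + 5 / 16 * (135 / 1024) ^ (k - 2)
        + 17 / 128 * (3 / 16) ^ (k - 2)) := by
  obtain ⟨i, rfl⟩ : ∃ i, k = i + 2 := ⟨k - 2, by omega⟩
  have hδ := hc.d0
  have hs : √δ * √δ = δ := Real.mul_self_sqrt hδ
  have hs0 : 0 ≤ √δ := Real.sqrt_nonneg _
  have hr := hc.re_le (k := i + 2) (by omega)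
  have hi := hc.im_le (k := i + 2) (by omega)
  have e1 : i + 2 - 1 = i + 1 := by omega
  have e2 : i + 2 - 2 = i := by omega
  rw [e1] at h1
  rw [e2] at h3 h4 ⊢
  have hPre : |P.re| ≤ (5 / 128) ^ (i + 1) := (Complex.abs_re_le_norm P).trans h1
  set r := (c (i + 2)).re - h0c (i + 2) with hrd
  have hk0 : (0 : ℝ) ≤ ((i + 2 : ℕ) : ℝ) := Nat.cast_nonneg _
  have hid : (((i + 2 : ℕ) : ℂ) * c (i + 2) * P).re - ((i + 2 : ℕ) : ℝ) * h0c (i + 2) * P0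
      = ((i + 2 : ℕ) : ℝ) * h0c (i + 2) * (P.re - P0) + ((i + 2 : ℕ) : ℝ) * (r * P.re)
        - ((i + 2 : ℕ) : ℝ) * ((c (i + 2)).im * P.im) := by
    rw [hrd]
    simp only [Complex.mul_re, Complex.mul_im, Complex.natCast_re, Complex.natCast_im]
    ring
  rw [hid]
  have hh := mul_h0c_le (i + 2)
  have hh0 : 0 ≤ ((i + 2 : ℕ) : ℝ) * h0c (i + 2) := mul_nonneg hk0 (h0c_nonneg _)
  have t1 : |((i + 2 : ℕ) : ℝ) * h0c (i + 2) * (P.re - P0)| ≤ δ * (1 / 15 * (1 / 12) ^ i) := by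
    rw [abs_mul, abs_of_nonneg hh0]
    calc ((i + 2 : ℕ) : ℝ) * h0c (i + 2) * |P.re - P0| ≤ 4 * (δ / 60 * (1 / 12) ^ i) :=
          mul_le_mul hh h4 (abs_nonneg _) (by norm_num)
      _ = δ * (1 / 15 * (1 / 12) ^ i) := by ring
  have t2 : |((i + 2 : ℕ) : ℝ) * (r * P.re)| ≤ δ * (5 / 16 * (135 / 1024) ^ i) := by
    rw [abs_mul, abs_mul, abs_of_nonneg hk0]
    calc ((i + 2 : ℕ) : ℝ) * (|r| * |P.re|)
        ≤ ((i + 2 : ℕ) : ℝ) * ((((i + 2 : ℕ) : ℝ) ^ 2 * δ) * (5 / 128) ^ (i + 1)) :=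
          mul_le_mul_of_nonneg_left (mul_le_mul hr hPre (abs_nonneg _) (by positivity)) hk0
      _ = δ * (5 / 128) * ((((i : ℝ) + 2) ^ 3) * (5 / 128) ^ i) := by push_cast; ring
      _ ≤ δ * (5 / 128) * ((8 * (27 / 8) ^ i) * (5 / 128) ^ i) := by
          refine mul_le_mul_of_nonneg_left ?_ (by positivity)
          exact mul_le_mul_of_nonneg_right (cube_le' i) (by positivity)
      _ = δ * (5 / 16 * (135 / 1024) ^ i) := by
          have : (135 / 1024 : ℝ) ^ i = (27 / 8) ^ i * (5 / 128) ^ i := by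
            rw [← mul_pow]; norm_num
          rw [this]; ring
  have t3 : |((i + 2 : ℕ) : ℝ) * ((c (i + 2)).im * P.im)| ≤ δ * (17 / 128 * (3 / 16) ^ i) := by
    rw [abs_mul, abs_mul, abs_of_nonneg hk0]
    calc ((i + 2 : ℕ) : ℝ) * (|(c (i + 2)).im| * |P.im|)
        ≤ ((i + 2 : ℕ) : ℝ) * ((17 / 5 * ((i + 2 : ℕ) : ℝ) * √δ) *
            (5 / 512 * √δ * (1 / 12) ^ i)) :=
          mul_le_mul_of_nonneg_left (mul_le_mul hi h3 (abs_nonneg _) (by positivity)) hk0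
      _ = (√δ * √δ) * (17 / 512) * ((((i : ℝ) + 2) ^ 2) * (1 / 12) ^ i) := by push_cast; ring
      _ ≤ (√δ * √δ) * (17 / 512) * ((4 * (9 / 4) ^ i) * (1 / 12) ^ i) := by
          refine mul_le_mul_of_nonneg_left ?_ (by positivity)
          exact mul_le_mul_of_nonneg_right (sq_le' i) (by positivity)
      _ = δ * (17 / 128 * (3 / 16) ^ i) := by
          have : (3 / 16 : ℝ) ^ i = (9 / 4) ^ i * (1 / 12) ^ i := by
            rw [← mul_pow]; norm_num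
          rw [this, hs]; ring
  refine (abs_sub _ _).trans ?_
  refine (add_le_add ((abs_add_le _ _).trans (add_le_add t1 t2)) t3).trans (le_of_eq ?_)
  ring

private theorem term_im {c : ℕ → ℂ} {δ : ℝ} (hc : CSeq c δ) (k : ℕ) (hk : 2 ≤ k) {P : ℂ}
    (h1 : ‖P‖ ≤ (5 / 128) ^ (k - 1))
    (h3 : |P.im| ≤ 5 / 512 * √δ * (1 / 12) ^ (k - 2)) :
    |((k : ℂ) * c k * P).im| ≤
      √δ * (5 / 64 * (1 / 8) ^ (k - 2) + 17 / 32 * (45 / 512) ^ (k - 2)) := by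
  obtain ⟨i, rfl⟩ : ∃ i, k = i + 2 := ⟨k - 2, by omega⟩
  have hs0 : 0 ≤ √δ := Real.sqrt_nonneg _
  have hi := hc.im_le (k := i + 2) (by omega)
  have h4 := hc.le4 (i + 2) (by omega)
  have e1 : i + 2 - 1 = i + 1 := by omega
  have e2 : i + 2 - 2 = i := by omega
  rw [e1] at h1
  rw [e2] at h3 ⊢
  have hPre : |P.re| ≤ (5 / 128) ^ (i + 1) := (Complex.abs_re_le_norm P).trans h1
  have hcre : |(c (i + 2)).re| ≤ 4 := (Complex.abs_re_le_norm _).trans h4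
  have hk0 : (0 : ℝ) ≤ ((i + 2 : ℕ) : ℝ) := Nat.cast_nonneg _
  have hid : (((i + 2 : ℕ) : ℂ) * c (i + 2) * P).im
      = ((i + 2 : ℕ) : ℝ) * ((c (i + 2)).re * P.im) + ((i + 2 : ℕ) : ℝ) * ((c (i + 2)).im * P.re) := by
    simp only [Complex.mul_re, Complex.mul_im, Complex.natCast_re, Complex.natCast_im]
    ring
  rw [hid]
  have t1 : |((i + 2 : ℕ) : ℝ) * ((c (i + 2)).re * P.im)| ≤ √δ * (5 / 64 * (1 / 8) ^ i) := by
    rw [abs_mul, abs_mul, abs_of_nonneg hk0]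
    calc ((i + 2 : ℕ) : ℝ) * (|(c (i + 2)).re| * |P.im|)
        ≤ ((i + 2 : ℕ) : ℝ) * (4 * (5 / 512 * √δ * (1 / 12) ^ i)) :=
          mul_le_mul_of_nonneg_left (mul_le_mul hcre h3 (abs_nonneg _) (by norm_num)) hk0
      _ = √δ * (5 / 128) * ((((i : ℝ) + 2)) * (1 / 12) ^ i) := by push_cast; ring
      _ ≤ √δ * (5 / 128) * ((2 * (3 / 2) ^ i) * (1 / 12) ^ i) := by
          refine mul_le_mul_of_nonneg_left ?_ (by positivity)
          exact mul_le_mul_of_nonneg_right (lin_le i) (by positivity)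
      _ = √δ * (5 / 64 * (1 / 8) ^ i) := by
          have : (1 / 8 : ℝ) ^ i = (3 / 2) ^ i * (1 / 12) ^ i := by
            rw [← mul_pow]; norm_num
          rw [this]; ring
  have t2 : |((i + 2 : ℕ) : ℝ) * ((c (i + 2)).im * P.re)| ≤ √δ * (17 / 32 * (45 / 512) ^ i) := by
    rw [abs_mul, abs_mul, abs_of_nonneg hk0]
    calc ((i + 2 : ℕ) : ℝ) * (|(c (i + 2)).im| * |P.re|)
        ≤ ((i + 2 : ℕ) : ℝ) * ((17 / 5 * ((i + 2 : ℕ) : ℝ) * √δ) * (5 / 128) ^ (i + 1)) :=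
          mul_le_mul_of_nonneg_left (mul_le_mul hi hPre (abs_nonneg _) (by positivity)) hk0
      _ = √δ * (17 / 128) * ((((i : ℝ) + 2) ^ 2) * (5 / 128) ^ i) := by push_cast; ring
      _ ≤ √δ * (17 / 128) * ((4 * (9 / 4) ^ i) * (5 / 128) ^ i) := by
          refine mul_le_mul_of_nonneg_left ?_ (by positivity)
          exact mul_le_mul_of_nonneg_right (sq_le' i) (by positivity)
      _ = √δ * (17 / 32 * (45 / 512) ^ i) := by
          have : (45 / 512 : ℝ) ^ i = (9 / 4) ^ i * (5 / 128) ^ i := by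
            rw [← mul_pow]; norm_num
          rw [this]; ring
  refine ((abs_add_le _ _).trans (add_le_add t1 t2)).trans (le_of_eq ?_)
  ring

theorem seq_step {c : ℕ → ℂ} {δ : ℝ} (hc : CSeq c δ) (hδ : δ ≤ 1 / 2) {j : ℕ} (hj : 1 ≤ j)
    {P : ℕ → ℂ} {P0 : ℕ → ℝ} (hP1 : P 1 = 1) (hP01 : P0 1 = 1)
    (h1 : ∀ k, 2 ≤ k → k ≤ j → ‖P k‖ ≤ (5 / 128) ^ (k - 1))
    (h2 : ∀ k, 2 ≤ k → k ≤ j → 0 ≤ P0 k)
    (h3 : ∀ k, 2 ≤ k → k ≤ j → |(P k).im| ≤ 5 / 512 * √δ * (1 / 12) ^ (k - 2))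
    (h4 : ∀ k, 2 ≤ k → k ≤ j → |(P k).re - P0 k| ≤ δ / 60 * (1 / 12) ^ (k - 2)) :
    4 ≤ (∑ k ∈ Finset.Icc 1 j, (k : ℝ) * h0c k * P0 k) ∧
    (∑ k ∈ Finset.Icc 1 j, (k : ℝ) * h0c k * P0 k) - 8 / 5 * δ ≤
      (∑ k ∈ Finset.Icc 1 j, (k : ℂ) * c k * P k).re ∧
    (∑ k ∈ Finset.Icc 1 j, (k : ℂ) * c k * P k).re ≤
      (∑ k ∈ Finset.Icc 1 j, (k : ℝ) * h0c k * P0 k) - 2 / 5 * δ ∧
    |(∑ k ∈ Finset.Icc 1 j, (k : ℂ) * c k * P k).im| ≤ 4 / 5 * √δ := by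
  have hδ0 := hc.d0
  have hs0 : 0 ≤ √δ := Real.sqrt_nonneg _
  have hsplit : Finset.Icc 1 j = insert 1 (Finset.Icc 2 j) := by
    ext k
    simp only [Finset.mem_Icc, Finset.mem_insert]
    omega
  have hnot : 1 ∉ Finset.Icc 2 j := by simp
  have hh1 : h0c 1 = 4 := by
    unfold h0c
    rw [if_pos (by decide)]
    norm_num
  rw [hsplit, Finset.sum_insert hnot, Finset.sum_insert hnot, hP1, hP01, hh1, hc.c1]
  set S0 := ∑ k ∈ Finset.Icc 2 j, (k : ℝ) * h0c k * P0 k with hS0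
  set S := ∑ k ∈ Finset.Icc 2 j, (k : ℂ) * c k * P k with hS
  have hS0n : 0 ≤ S0 := by
    refine Finset.sum_nonneg fun k hk => ?_
    rw [Finset.mem_Icc] at hk
    exact mul_nonneg (mul_nonneg (Nat.cast_nonneg _) (h0c_nonneg _)) (h2 k hk.1 hk.2)
  have hre : |S.re - S0| ≤ 3 / 5 * δ := by
    rw [hS, hS0, Complex.re_sum, ← Finset.sum_sub_distrib]
    refine (Finset.abs_sum_le_sum_abs _ _).trans ?_
    refine (Finset.sum_le_sum fun k hk => ?_ : _ ≤ ∑ k ∈ Finset.Icc 2 j,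
      δ * (1 / 15 * (1 / 12) ^ (k - 2) + 5 / 16 * (135 / 1024) ^ (k - 2)
        + 17 / 128 * (3 / 16) ^ (k - 2))).trans ?_
    · rw [Finset.mem_Icc] at hk
      exact term_re hc k hk.1 (h1 k hk.1 hk.2) (h3 k hk.1 hk.2) (h4 k hk.1 hk.2)
    · rw [← Finset.mul_sum, Finset.sum_add_distrib, Finset.sum_add_distrib, ← Finset.mul_sum,
        ← Finset.mul_sum, ← Finset.mul_sum, mul_comm]
      refine mul_le_mul_of_nonneg_right ?_ hδ0
      have g1 := geo_le (x := 1 / 12) (by norm_num) (by norm_num) j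
      have g2 := geo_le (x := 135 / 1024) (by norm_num) (by norm_num) j
      have g3 := geo_le (x := 3 / 16) (by norm_num) (by norm_num) j
      norm_num at g1 g2 g3 ⊢
      linarith
  have him : |S.im| ≤ 4 / 5 * √δ := by
    rw [hS, Complex.im_sum]
    refine (Finset.abs_sum_le_sum_abs _ _).trans ?_
    refine (Finset.sum_le_sum fun k hk => ?_ : _ ≤ ∑ k ∈ Finset.Icc 2 j,
      √δ * (5 / 64 * (1 / 8) ^ (k - 2) + 17 / 32 * (45 / 512) ^ (k - 2))).trans ?_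
    · rw [Finset.mem_Icc] at hk
      exact term_im hc k hk.1 (h1 k hk.1 hk.2) (h3 k hk.1 hk.2)
    · rw [← Finset.mul_sum, Finset.sum_add_distrib, ← Finset.mul_sum,
        ← Finset.mul_sum, mul_comm]
      refine mul_le_mul_of_nonneg_right ?_ hs0
      have g1 := geo_le (x := 1 / 8) (by norm_num) (by norm_num) j
      have g2 := geo_le (x := 45 / 512) (by norm_num) (by norm_num) j
      norm_num at g1 g2 ⊢
      linarith
  have e1 : (((1 : ℕ) : ℂ) * ((4 - δ : ℝ) : ℂ) * 1 + S).re = 4 - δ + S.re := by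
    simp
  have e2 : (((1 : ℕ) : ℂ) * ((4 - δ : ℝ) : ℂ) * 1 + S).im = S.im := by
    simp
  rw [e1, e2]
  rw [abs_le] at hre
  push_cast
  refine ⟨by linarith, by linarith [hre.1], by linarith [hre.2], him⟩

end MP4a1962
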