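import Pool.Agent.Lib.MP_4a1962_an.SeqBig
import Pool.Agent.Lib.MP_4a1962_an.SeqProd
import Pool.Agent.Lib.MP_4a1962_an.SeqStep

/-!
# SeqSmall: the case `δ ≤ 1/2` of the coefficient comparison (n ≤ p/8)

(The product estimates are `seq_prod` in SeqProd, the estimate of one step is `seq_step` in SeqStep; what
remains is the strong induction: definition of `s`, `q`, the bounds of `q i` from (I), (II), the recursion in
the form `s j = Σ_{k=1}^{j} k c_k Π_k`, `Π_k = ∏ i in range (k-1), q (j-1-i)`, and the conclusion.)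

Notation: for `j ≥ 1`, `s j = j A j / (p A (j-1))`, `s0 j = j C j / (p C (j-1))`, `q j = A (j-1) / A j =
j / (p s j)`, `q0 j = C (j-1) / C j`. Recursions (`1 ≤ j`):
`s j = Σ_{k=1}^{j} k c_k Π_k`, `Π_k = Π_{i=1}^{k-1} q (j-i)`, the same for `s0` with `h0c`, `q0`
(`k h0c k = 4` for odd `k`), so `s0 j ≥ 4`.

Induction claim for all `1 ≤ j ≤ n` (`8 n ≤ p`, `δ ≤ 1/2`):
 (I) `s0 j - (8/5) δ ≤ Re (s j) ≤ s0 j - (2/5) δ`, (II) `|Im (s j)| ≤ (4/5) √δ`.
So `Re (s j) ≥ 4 - 4/5 = 16/5`, `A j ≠ 0`.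
Given (I), (II) for `i < j`, with `δ ≤ 1/2`, `i/p ≤ 1/8`:
 * `‖q i‖ ≤ θ := 5/128`, `0 < q0 i ≤ 1/32`;
 * `|Im (q i)| ≤ b √δ`, `b = 5/512`  (`|Im (1/s)| = |Im s|/|s|²`, `|s|² ≥ 10.24`);
 * `|Re (q i) - q0 i| ≤ δ/64`  (`Re (1/s) - 1/s0 = (Re s (s0 - Re s) - (Im s)²) / (|s|² s0)`, the two terms
   have opposite signs, `Re s (8/5) δ/(|s|² 4) ≤ δ/8`, `(16/25) δ/(10.24 · 4) ≤ δ/8`).
 Products of `m ≥ 1` consecutive `q`: `P`, `P0`:
 * `‖P‖ ≤ θ^m`, `0 ≤ P0 ≤ 32^{-m}`, `|Im P| ≤ b √δ 12^{-(m-1)}`, `|Re P - P0| ≤ (δ/60) 12^{-(m-1)}` by induction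
   on `m` (`Re (P q) - P0 q0 = (Re P - P0) Re q + P0 (Re q - q0) - Im P Im q`,
   `Im (P q) = Im P Re q + Re P Im q`; `12 θ/60 + (12/32)^m/64 + 12 b² ≤ 1/60`, `12 θ + (12 θ)^m ≤ 1`).
 Then, with `c k = h0c k + r k + i (i_k)`, `|r k| ≤ k² δ`, `|i_k| ≤ (17/5) k √δ` (`CSeq.re_le`, `CSeq.im_le`),
 `Re (s j) - s0 j = -δ + Σ_{k≥2} k (h0c k (Re Π_k - Π0_k) + r k Re Π_k - i_k Im Π_k)`, and the sum is at most
 `δ (Σ_{k≥3} 4 · 12^{-(k-2)}/60 + Σ_{k≥2} k³ θ^{k-1} + (17/5) b Σ_{k≥2} k² 12^{-(k-2)})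
   ≤ δ (0.0061 + 0.361 + 0.164) < (3/5) δ`
 (`k³ θ^{k-1} ≤ 8 θ (27 θ/8)^{k-2}`, `k² 12^{-(k-2)} ≤ 4 (9/48)^{k-2}`), and
 `|Im (s j)| ≤ Σ_{k≥2} k ((17/5) k √δ θ^{k-1} + 4 b √δ 12^{-(k-2)}) ≤ √δ (0.583 + 0.0893) < (4/5) √δ`
 (`k² θ^{k-1} ≤ 4 θ (9 θ/4)^{k-2}`, `k 12^{-(k-2)} ≤ 2 (1/8)^{k-2}`; `|Re (c k)| ≤ 4`).
Conclusion: `|s j|² ≤ (s0 j - (2/5) δ)² + (16/25) δ ≤ (s0 j)²` because `(4/5) δ s0 j ≥ (16/5) δ ≥
(16/25) δ + (4/25) δ²`. Hence `‖A j‖ / ‖A (j-1)‖ ≤ C j / C (j-1)` for all `j ≤ n`, and `‖A n‖ ≤ C n`.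
-/

set_option autoImplicit false

open MeasureTheory Set Filter Topology
open scoped Real ENNReal NNReal

namespace MP4a1962

private theorem q_bounds {t s0 δ : ℝ} {s : ℂ} (ht0 : 0 ≤ t) (ht : t ≤ 1 / 8) (hδ0 : 0 ≤ δ)
    (hδ : δ ≤ 1 / 2) (h4 : 4 ≤ s0) (hl : s0 - 8 / 5 * δ ≤ s.re) (hu : s.re ≤ s0 - 2 / 5 * δ)
    (him : |s.im| ≤ 4 / 5 * √δ) :
    ‖(t : ℂ) / s‖ ≤ 5 / 128 ∧ (0 ≤ t / s0 ∧ t / s0 ≤ 1 / 32) ∧
    |((t : ℂ) / s).im| ≤ 5 / 512 * √δ ∧ |((t : ℂ) / s).re - t / s0| ≤ δ / 64 := by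
  have hs : √δ * √δ = δ := Real.mul_self_sqrt hδ0
  have hs0 : 0 ≤ √δ := Real.sqrt_nonneg _
  have hre : 16 / 5 ≤ s.re := by linarith
  have hs0pos : 0 < s0 := by linarith
  have hN : s.re * s.re + s.im * s.im = Complex.normSq s := by
    rw [Complex.normSq_apply]
  have hNlow : 256 / 25 ≤ Complex.normSq s := by
    rw [← hN]; nlinarith [mul_self_nonneg s.im]
  have hNpos : 0 < Complex.normSq s := by linarith
  have him2 : s.im * s.im ≤ 16 / 25 * δ := by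
    have h := mul_self_le_mul_self (abs_nonneg s.im) him
    rw [abs_mul_abs_self] at h
    calc s.im * s.im ≤ 4 / 5 * √δ * (4 / 5 * √δ) := h
      _ = 16 / 25 * (√δ * √δ) := by ring
      _ = 16 / 25 * δ := by rw [hs]
  refine ⟨?_, ⟨by positivity, ?_⟩, ?_, ?_⟩
  · rw [norm_div, Complex.norm_real, Real.norm_eq_abs, abs_of_nonneg ht0]
    have h1 : 16 / 5 ≤ ‖s‖ := hre.trans (Complex.re_le_norm s)
    rw [div_le_iff₀ (by linarith)]
    nlinarith
  · rw [div_le_iff₀ hs0pos]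
    linarith
  · have e : ((t : ℂ) / s).im = -(t * s.im) / Complex.normSq s := by
      rw [Complex.div_im]
      simp
      ring
    rw [e, abs_div, abs_neg, abs_mul, abs_of_nonneg ht0, abs_of_pos hNpos, div_le_iff₀ hNpos]
    calc t * |s.im| ≤ 1 / 8 * (4 / 5 * √δ) := mul_le_mul ht him (abs_nonneg _) (by norm_num)
      _ = 5 / 512 * √δ * (256 / 25) := by ring
      _ ≤ 5 / 512 * √δ * Complex.normSq s := mul_le_mul_of_nonneg_left hNlow (by positivity)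
  · have e : ((t : ℂ) / s).re - t / s0 =
        t * (s.re * (s0 - s.re) - s.im * s.im) / (Complex.normSq s * s0) := by
      rw [Complex.div_re]
      simp only [Complex.ofReal_re, Complex.ofReal_im, zero_mul, zero_div, add_zero]
      field_simp
      rw [← hN]
      ring
    rw [e, abs_div, abs_of_pos (mul_pos hNpos hs0pos), div_le_iff₀ (mul_pos hNpos hs0pos), abs_mul,
      abs_of_nonneg ht0]
    have hX0 : 0 ≤ s.re * (s0 - s.re) := mul_nonneg (by linarith) (by linarith)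
    have hX1 : s.re * (s0 - s.re) ≤ δ / 8 * (Complex.normSq s * s0) := by
      have a1 : s.re * (s0 - s.re) ≤ s.re * (8 / 5 * δ) :=
        mul_le_mul_of_nonneg_left (by linarith) (by linarith)
      have a2 : s.re * (64 / 5) ≤ Complex.normSq s * s0 := by
        have a3 : s.re * (16 / 5) ≤ Complex.normSq s := by
          rw [← hN]; nlinarith [mul_self_nonneg s.im]
        calc s.re * (64 / 5) = s.re * (16 / 5) * 4 := by ring
          _ ≤ Complex.normSq s * s0 := mul_le_mul a3 h4 (by norm_num) hNpos.le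
      nlinarith
    have hY0 : 0 ≤ s.im * s.im := mul_self_nonneg _
    have hY1 : s.im * s.im ≤ δ / 8 * (Complex.normSq s * s0) := by
      have a2 : (1024 / 25 : ℝ) ≤ Complex.normSq s * s0 := by
        calc (1024 / 25 : ℝ) = 256 / 25 * 4 := by norm_num
          _ ≤ Complex.normSq s * s0 := mul_le_mul hNlow h4 (by norm_num) hNpos.le
      nlinarith
    have hXY : |s.re * (s0 - s.re) - s.im * s.im| ≤ δ / 8 * (Complex.normSq s * s0) := by
      rw [abs_le]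
      constructor <;> linarith
    calc t * |s.re * (s0 - s.re) - s.im * s.im|
        ≤ 1 / 8 * (δ / 8 * (Complex.normSq s * s0)) :=
          mul_le_mul ht hXY (abs_nonneg _) (by norm_num)
      _ = δ / 64 * (Complex.normSq s * s0) := by ring

private theorem tele {K : Type*} [Field K] (A : ℕ → K) (j : ℕ) (hA : ∀ i < j, A i ≠ 0) (m : ℕ)
    (hm : m + 1 ≤ j) :
    ∏ i ∈ Finset.range m, A (j - 1 - i - 1) / A (j - 1 - i) = A (j - (m + 1)) / A (j - 1) := by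
  induction m with
  | zero =>
    rw [Finset.prod_range_zero, zero_add, div_self (hA _ (by omega))]
  | succ m ih =>
    rw [Finset.prod_range_succ, ih (by omega)]
    have e1 : j - 1 - m - 1 = j - (m + 1 + 1) := by omega
    have e2 : j - 1 - m = j - (m + 1) := by omega
    rw [e1, e2, mul_comm, div_mul_div_cancel₀ (hA _ (by omega))]

/-- the estimate of the ratio with index `j` -/
private def Est (p δ : ℝ) (A : ℕ → ℂ) (C : ℕ → ℝ) (j : ℕ) : Prop :=
  4 ≤ (j : ℝ) * C j / (p * C (j - 1)) ∧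
  (j : ℝ) * C j / (p * C (j - 1)) - 8 / 5 * δ ≤ ((j : ℂ) * A j / (p * A (j - 1))).re ∧
  ((j : ℂ) * A j / (p * A (j - 1))).re ≤ (j : ℝ) * C j / (p * C (j - 1)) - 2 / 5 * δ ∧
  |((j : ℂ) * A j / (p * A (j - 1))).im| ≤ 4 / 5 * √δ

private theorem est_step {p δ : ℝ} (hp : 0 < p) {c A : ℕ → ℂ} {C : ℕ → ℝ} (hc : CSeq c δ)
    (hA : ERec p c A) (hC : CRec p C) (hδ : δ ≤ 1 / 2) {j : ℕ} (hj1 : 1 ≤ j)
    (hj : 8 * (j : ℝ) ≤ p) (hne : ∀ i < j, A i ≠ 0)
    (hE : ∀ i, 1 ≤ i → i < j → Est p δ A C i) : Est p δ A C j := by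
  have hδ0 := hc.d0
  have hpC : (p : ℂ) ≠ 0 := Complex.ofReal_ne_zero.2 hp.ne'
  -- bounds of the ratios
  have hq : ∀ i, 1 ≤ i → i < j → ‖A (i - 1) / A i‖ ≤ 5 / 128 ∧
      (0 ≤ C (i - 1) / C i ∧ C (i - 1) / C i ≤ 1 / 32) ∧
      |(A (i - 1) / A i).im| ≤ 5 / 512 * √δ ∧
      |(A (i - 1) / A i).re - C (i - 1) / C i| ≤ δ / 64 := by
    intro i hi1 hij
    obtain ⟨h4, hl, hu, him⟩ := hE i hi1 hij
    have hi0 : (0 : ℝ) < i := by exact_mod_cast hi1
    have ht : (i : ℝ) / p ≤ 1 / 8 := by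
      rw [div_le_iff₀ hp]
      have : (i : ℝ) ≤ j := by exact_mod_cast hij.le
      linarith
    have h := q_bounds (t := (i : ℝ) / p) (by positivity) ht hδ0 hδ h4 hl hu him
    have hiC : (i : ℂ) ≠ 0 := by exact_mod_cast hi0.ne'
    have e1 : (((i : ℝ) / p : ℝ) : ℂ) / ((i : ℂ) * A i / (p * A (i - 1))) = A (i - 1) / A i := by
      have h1 := hne i hij
      have h2 := hne (i - 1) (by omega)
      push_cast
      field_simp
    have e2 : (i : ℝ) / p / ((i : ℝ) * C i / (p * C (i - 1))) = C (i - 1) / C i := by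
      have h1 := (hC.pos hp i).ne'
      have h2 := (hC.pos hp (i - 1)).ne'
      field_simp
    rw [e1, e2] at h
    exact h
  -- the products
  have hprod : ∀ k, 2 ≤ k → k ≤ j → ‖A (j - k) / A (j - 1)‖ ≤ (5 / 128) ^ (k - 1) ∧
      0 ≤ C (j - k) / C (j - 1) ∧
      |(A (j - k) / A (j - 1)).im| ≤ 5 / 512 * √δ * (1 / 12) ^ (k - 2) ∧
      |(A (j - k) / A (j - 1)).re - C (j - k) / C (j - 1)| ≤ δ / 60 * (1 / 12) ^ (k - 2) := by
    intro k hk2 hkj
    obtain ⟨m, rfl⟩ : ∃ m, k = m + 1 := ⟨k - 1, by omega⟩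
    have hidx : ∀ i < m, 1 ≤ j - 1 - i ∧ j - 1 - i < j := fun i hi => by omega
    have h := seq_prod (m := m) hδ0 (q := fun i => A (j - 1 - i - 1) / A (j - 1 - i))
      (q0 := fun i => C (j - 1 - i - 1) / C (j - 1 - i)) (by omega)
      (fun i hi => (hq _ (hidx i hi).1 (hidx i hi).2).1)
      (fun i hi => (hq _ (hidx i hi).1 (hidx i hi).2).2.1)
      (fun i hi => (hq _ (hidx i hi).1 (hidx i hi).2).2.2.1)
      (fun i hi => (hq _ (hidx i hi).1 (hidx i hi).2).2.2.2)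
    rw [tele A j hne m hkj, tele C j (fun i _ => (hC.pos hp i).ne') m hkj] at h
    have e1 : m + 1 - 1 = m := by omega
    have e2 : m + 1 - 2 = m - 1 := by omega
    rw [e1, e2]
    exact ⟨h.1, h.2.1, h.2.2.2.1, h.2.2.2.2⟩
  have hst := seq_step (P := fun k => A (j - k) / A (j - 1)) (P0 := fun k => C (j - k) / C (j - 1))
    hc hδ hj1 (div_self (hne _ (by omega))) (div_self (hC.pos hp _).ne')
    (fun k h1 h2 => (hprod k h1 h2).1) (fun k h1 h2 => (hprod k h1 h2).2.1)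
    (fun k h1 h2 => (hprod k h1 h2).2.2.1) (fun k h1 h2 => (hprod k h1 h2).2.2.2)
  -- identification of the sums
  obtain ⟨m, rfl⟩ : ∃ m, j = m + 1 := ⟨j - 1, by omega⟩
  have hAm : A m ≠ 0 := hne m (by omega)
  have hCm : C m ≠ 0 := (hC.pos hp m).ne'
  have s1 : (∑ k ∈ Finset.Icc 1 (m + 1), (k : ℂ) * c k * (A (m + 1 - k) / A (m + 1 - 1)))
      = ((m + 1 : ℕ) : ℂ) * A (m + 1) / (p * A (m + 1 - 1)) := by
    have e0 : m + 1 - 1 = m := by omega
    rw [e0]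
    have hrec := hA.succ m
    have e1 : ((m + 1 : ℕ) : ℂ) * A (m + 1) = ((m : ℂ) + 1) * A (m + 1) := by push_cast; ring
    rw [e1, hrec, mul_div_mul_left _ _ hpC, Finset.sum_div, ← Finset.Ico_add_one_right_eq_Icc,
      Finset.sum_Ico_eq_sum_range]
    have e2 : m + 1 + 1 - 1 = m + 1 := by omega
    rw [e2]
    refine Finset.sum_congr rfl fun k hk => ?_
    have e3 : m + 1 - (1 + k) = m - k := by omega
    rw [e3, add_comm 1 k]
    push_cast
    ring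
  have s2 : (∑ k ∈ Finset.Icc 1 (m + 1), (k : ℝ) * h0c k * (C (m + 1 - k) / C (m + 1 - 1)))
      = ((m + 1 : ℕ) : ℝ) * C (m + 1) / (p * C (m + 1 - 1)) := by
    have e0 : m + 1 - 1 = m := by omega
    rw [e0]
    have hrec := hC.succ m
    have e1 : ((m + 1 : ℕ) : ℝ) * C (m + 1) = ((m : ℝ) + 1) * C (m + 1) := by push_cast; ring
    rw [e1, hrec, mul_div_mul_left _ _ hp.ne', Finset.sum_div, ← Finset.Ico_add_one_right_eq_Icc,
      Finset.sum_Ico_eq_sum_range]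
    have e2 : m + 1 + 1 - 1 = m + 1 := by omega
    rw [e2]
    refine Finset.sum_congr rfl fun k hk => ?_
    have e3 : m + 1 - (1 + k) = m - k := by omega
    rw [e3, add_comm 1 k]
    push_cast
    ring
  rw [s1, s2] at hst
  exact hst

theorem seq_small {p δ : ℝ} (hp : 0 < p) {c A : ℕ → ℂ} {C : ℕ → ℝ} (hc : CSeq c δ) (hA : ERec p c A)
    (hC : CRec p C) (hδ : δ ≤ 1 / 2) {n : ℕ} (hn : 8 * (n : ℝ) ≤ p) : ‖A n‖ ≤ C n := by
  have hδ0 := hc.d0
  have key : ∀ j : ℕ, 8 * (j : ℝ) ≤ p → A j ≠ 0 ∧ ‖A j‖ ≤ C j ∧ (1 ≤ j → Est p δ A C j) := by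
    intro j
    induction j using Nat.strong_induction_on with
    | _ j ih =>
      intro hj
      have hlt : ∀ i < j, 8 * (i : ℝ) ≤ p := fun i hi => by
        have : (i : ℝ) ≤ j := by exact_mod_cast hi.le
        linarith
      rcases Nat.eq_zero_or_pos j with rfl | hj1
      · refine ⟨?_, ?_, fun h => absurd h (by norm_num)⟩
        · rw [hA.zero]; exact one_ne_zero
        · rw [hA.zero, hC.zero, norm_one]
      have hE : Est p δ A C j := est_step hp hc hA hC hδ hj1 hj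
        (fun i hi => (ih i hi (hlt i hi)).1) (fun i hi1 hij => (ih i hij (hlt i hij)).2.2 hi1)
      obtain ⟨h4, hl, hu, him⟩ := hE
      have hAj1 : A (j - 1) ≠ 0 := (ih (j - 1) (by omega) (hlt _ (by omega))).1
      have hAC : ‖A (j - 1)‖ ≤ C (j - 1) := (ih (j - 1) (by omega) (hlt _ (by omega))).2.1
      have hCj1 := hC.pos hp (j - 1)
      have hCj := hC.pos hp j
      have hj0 : (0 : ℝ) < j := by exact_mod_cast hj1
      set s : ℂ := (j : ℂ) * A j / (p * A (j - 1)) with hs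
      set s0 : ℝ := (j : ℝ) * C j / (p * C (j - 1)) with hs0
      have hAj : A j ≠ 0 := by
        intro h0
        rw [hs, h0, mul_zero, zero_div, Complex.zero_re] at hl
        linarith
      have hnorm : ‖s‖ ≤ s0 := by
        have hsq : √δ * √δ = δ := Real.mul_self_sqrt hδ0
        have him2 : s.im * s.im ≤ 16 / 25 * δ := by
          have h := mul_self_le_mul_self (abs_nonneg s.im) him
          rw [abs_mul_abs_self] at h
          calc s.im * s.im ≤ 4 / 5 * √δ * (4 / 5 * √δ) := h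
            _ = 16 / 25 * (√δ * √δ) := by ring
            _ = 16 / 25 * δ := by rw [hsq]
        have hre2 : s.re * s.re ≤ (s0 - 2 / 5 * δ) * (s0 - 2 / 5 * δ) :=
          mul_self_le_mul_self (by linarith) hu
        have h2 : ‖s‖ * ‖s‖ ≤ s0 * s0 := by
          rw [Complex.norm_mul_self_eq_normSq, Complex.normSq_apply]
          nlinarith
        exact nonneg_le_nonneg_of_sq_le_sq (by linarith) h2
      refine ⟨hAj, ?_, fun _ => ⟨h4, hl, hu, him⟩⟩
      have hpA : 0 < ‖A (j - 1)‖ := norm_pos_iff.2 hAj1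
      have e1 : ‖s‖ = (j : ℝ) * ‖A j‖ / (p * ‖A (j - 1)‖) := by
        rw [hs, norm_div, norm_mul, norm_mul, Complex.norm_natCast, Complex.norm_real,
          Real.norm_eq_abs, abs_of_pos hp]
      rw [e1, hs0, div_le_div_iff₀ (by positivity) (by positivity)] at hnorm
      have h3 : (j : ℝ) * p * (C (j - 1) * ‖A j‖) ≤ (j : ℝ) * p * (C (j - 1) * C j) := by
        calc (j : ℝ) * p * (C (j - 1) * ‖A j‖) = (j : ℝ) * ‖A j‖ * (p * C (j - 1)) := by ring
          _ ≤ (j : ℝ) * C j * (p * ‖A (j - 1)‖) := hnorm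
          _ ≤ (j : ℝ) * C j * (p * C (j - 1)) := by
            refine mul_le_mul_of_nonneg_left ?_ (by positivity)
            exact mul_le_mul_of_nonneg_left hAC hp.le
          _ = (j : ℝ) * p * (C (j - 1) * C j) := by ring
      have h5 := le_of_mul_le_mul_left h3 (by positivity)
      exact le_of_mul_le_mul_left h5 hCj1
  exact (key n hn).2.1

end MP4a1962
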