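import Pool.Agent.Lib.MP_4a1962_an.Defs
import Pool.Agent.Lib.MP_4a1962_an.StarBasic

/-!
# StarLe: `∫ k g ≤ starB g m` for every profile `k` of mass at most `m`, and the Lipschitz bound

Proof of `Prof.integral_mul_le`: write `g v = ∫ t in Ioi 0, 1_{t < g v} dt`; by Tonelli
`∫ k g = ∫ t in Ioi 0, (∫ v in {t < g}, k v) dt`, and for `t > 0` the inner integral is at most
`volume.real {t < g}` (as `k ≤ 1`; finite measure) and at most `∫ k ≤ m`.
(For the Tonelli step one may apply the layer cake formula
`lintegral_eq_lintegral_meas_lt` to `g` with the measure `volume.withDensity (ofReal ∘ k)`,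
or `MeasureTheory.lintegral_lintegral_swap`.)
Integrability of `k * g` is `Prof.mul_integrable` (bounded times integrable).
The integrability on `Ioi 0` of `t ↦ min (volume.real {t < g}) m` can be taken from StarBasic
(import it if useful: `starB_integrableOn`).
-/

set_option autoImplicit false

open MeasureTheory Set Filter Topology
open scoped Real ENNReal NNReal

namespace MP4a1962

variable {g : ℝ → ℝ}

theorem Prof.mul_integrable {k : ℝ → ℝ} {m : ℝ} (hk : Prof k m) (hi : Integrable g) :
    Integrable (fun v => k v * g v) := by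
  refine hi.norm.mono' (hk.meas.aestronglyMeasurable.mul hi.aestronglyMeasurable)
    (Eventually.of_forall fun v => ?_)
  rw [norm_mul]
  refine mul_le_of_le_one_left (norm_nonneg _) ?_
  rw [Real.norm_eq_abs, abs_of_nonneg (hk.nonneg v)]
  exact hk.le_one v

theorem Prof.mass_nonneg {k : ℝ → ℝ} {m : ℝ} (hk : Prof k m) : 0 ≤ m :=
  (integral_nonneg hk.nonneg).trans hk.mass

theorem Prof.integral_mul_le {k : ℝ → ℝ} {m : ℝ} (hk : Prof k m) (hg : Measurable g)
    (h0 : ∀ v, 0 ≤ g v) (hi : Integrable g) :
    ∫ v, k v * g v ≤ starB g m := by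
  have hm := hk.mass_nonneg
  set μ : Measure ℝ := volume.withDensity (fun v => ENNReal.ofReal (k v)) with hμ
  have hkm : Measurable (fun v => ENNReal.ofReal (k v)) := hk.meas.ennreal_ofReal
  -- the left side
  have e1 : ENNReal.ofReal (∫ v, k v * g v) = ∫⁻ t in Ioi (0 : ℝ), μ {v | t < g v} := by
    rw [ofReal_integral_eq_lintegral_ofReal (hk.mul_integrable hi)
      (Eventually.of_forall fun v => mul_nonneg (hk.nonneg v) (h0 v))]
    have h1 : ∀ v, ENNReal.ofReal (k v * g v) =
        ENNReal.ofReal (k v) * ENNReal.ofReal (g v) := fun v =>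
      ENNReal.ofReal_mul (hk.nonneg v)
    simp_rw [h1]
    have h2 := lintegral_withDensity_eq_lintegral_mul volume hkm
      (hg.ennreal_ofReal : Measurable fun v => ENNReal.ofReal (g v))
    simp only [Pi.mul_apply] at h2
    rw [← h2, ← hμ]
    exact lintegral_eq_lintegral_meas_lt μ (Eventually.of_forall h0) hg.aemeasurable
  -- the right side
  have e2 : ENNReal.ofReal (starB g m) =
      ∫⁻ t in Ioi (0 : ℝ), ENNReal.ofReal (min (volume.real {v : ℝ | t < g v}) m) := by
    unfold starB
    exact ofReal_integral_eq_lintegral_ofReal (starB_integrableOn hg h0 hi hm)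
      (Eventually.of_forall fun t => le_min measureReal_nonneg hm)
  have e3 : (∫⁻ t in Ioi (0 : ℝ), μ {v | t < g v}) ≤
      ∫⁻ t in Ioi (0 : ℝ), ENNReal.ofReal (min (volume.real {v : ℝ | t < g v}) m) := by
    refine setLIntegral_mono' measurableSet_Ioi fun t ht => ?_
    have ht0 : 0 < t := ht
    have hfin := (meas_gt_lt_top h0 hi ht0).ne
    have hms : MeasurableSet {v | t < g v} := measurableSet_lt measurable_const hg
    have hμs : μ {v | t < g v} = ∫⁻ v in {v | t < g v}, ENNReal.ofReal (k v) := by
      rw [hμ, withDensity_apply _ hms]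
    have b1 : μ {v | t < g v} ≤ volume {v | t < g v} := by
      rw [hμs]
      calc (∫⁻ v in {v | t < g v}, ENNReal.ofReal (k v)) ≤ ∫⁻ v in {v | t < g v}, 1 := by
            refine lintegral_mono fun v => ?_
            rw [← ENNReal.ofReal_one]
            exact ENNReal.ofReal_le_ofReal (hk.le_one v)
        _ = volume {v | t < g v} := by simp
    have b2 : μ {v | t < g v} ≤ ENNReal.ofReal m := by
      rw [hμs]
      calc (∫⁻ v in {v | t < g v}, ENNReal.ofReal (k v)) ≤ ∫⁻ v, ENNReal.ofReal (k v) :=
            setLIntegral_le_lintegral _ _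
        _ = ENNReal.ofReal (∫ v, k v) :=
            (ofReal_integral_eq_lintegral_ofReal hk.int (Eventually.of_forall hk.nonneg)).symm
        _ ≤ ENNReal.ofReal m := ENNReal.ofReal_le_ofReal hk.mass
    have b3 : ENNReal.ofReal (min (volume.real {v : ℝ | t < g v}) m) =
        min (volume {v : ℝ | t < g v}) (ENNReal.ofReal m) := by
      rw [ENNReal.ofReal_min, ofReal_measureReal hfin]
    rw [b3]
    exact le_min b1 b2
  rw [← e1, ← e2] at e3
  exact (ENNReal.ofReal_le_ofReal_iff (starB_nonneg g hm)).1 e3

end MP4a1962
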