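import Pool.Agent.Lib.MP_4a1962_an.NstarCont
import Pool.Agent.Lib.MP_4a1962_an.RieszC
import Pool.Agent.Lib.MP_4a1962_an.DiscCart

/-!
# StarMean: disc means of `N` along a line against a profile

For a profile `k` of mass `≤ 2 s`, `0 < ρ ≤ s`:
`∫ v, k v * dInt ρ N (pt u v) ≤ dInt ρ (Nstar N) (pt u s)`.

Proof. By Fubini (the function `(v, ζ) ↦ k v * N (pt u v + ζ)` is integrable on
`volume × volume.restrict (ball 0 ρ)`: it is nonnegative and `∫ v, k v N (pt (u + x) (v + τ)) ≤
∫ v, N (pt (u + x) v) ≤ 4 π M` for each `ζ = x + i τ`, `N_line_le`), and in iterated form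
(`dInt_iter` for each `v`, or Fubini on the triple product) the left side is
`∫ x in (-ρ)..ρ, (∫ v, k v * (∫ τ in (-y x)..(y x), N (pt (u + x) (v + τ))))`, `y x = √(ρ² - x²)`,
`0 ≤ y x ≤ ρ ≤ s`. By `riesz_main` with `g = N (pt (u + x) ·)` the inner expression is at most
`∫ τ in (-y)..y, starB g (2 s + 2 τ) = ∫ τ in (-y)..y, Nstar N (pt (u + x) (s + τ))`, and
`dInt_iter` for `F = Nstar N`, `w = pt u s` (continuous on `{im ≥ 0}`, so integrable on the ball,
whose closure lies in `{im ≥ 0}` since `ρ ≤ s`) finishes.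
Easiest organisation: swap first `v` with `ζ`: the left side is `∫ ζ in ball, G ζ` with
`G ζ = ∫ v, k v * N (pt (u + ζ.re) (v + ζ.im))`, i.e. `dInt ρ G 0`; then `dInt_iter` for `G`; then
swap `τ` and `v` for fixed `x`.
-/

set_option autoImplicit false

open MeasureTheory Set Filter Topology
open scoped Real ENNReal NNReal

namespace MP4a1962

variable {μ : Measure ℂ} {N : ℂ → ℝ} {M : ℝ}

theorem Nstar_ball_int (hD : PotData μ N M) {w : ℂ} {ρ : ℝ} (hρ : 0 < ρ) (hw : ρ ≤ w.im) :
    IntegrableOn (fun ζ => Nstar N (w + ζ)) (Metric.ball (0 : ℂ) ρ) := by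
  have h1 : ContinuousOn (fun ζ => Nstar N (w + ζ)) (Metric.closedBall (0 : ℂ) ρ) := by
    refine (Nstar_continuousOn hD).comp (by fun_prop) ?_
    intro ζ hζ
    have h2 : ‖ζ‖ ≤ ρ := by simpa using hζ
    have h3 := (abs_le.1 ((Complex.abs_im_le_norm ζ).trans h2)).1
    have h4 : 0 ≤ (w + ζ).im := by
      rw [Complex.add_im]
      linarith
    exact h4
  have _ := hρ
  exact (h1.integrableOn_compact (isCompact_closedBall _ _)).mono_set Metric.ball_subset_closedBall

private lemma dInt_meas (hD : PotData μ N M) (u ρ : ℝ) :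
    StronglyMeasurable (fun v : ℝ => dInt ρ N (pt u v)) := by
  have h1 : Measurable (fun q : ℝ × ℂ => N (pt u q.1 + q.2)) :=
    hD.meas.comp (((measurable_pt_right u).comp measurable_fst).add measurable_snd)
  exact h1.stronglyMeasurable.integral_prod_right'
    (ν := volume.restrict (Metric.ball (0 : ℂ) ρ))

private lemma N_shift_int (hD : PotData μ N M) (w : ℂ) :
    Integrable (fun ζ => N (w + ζ)) := (N_integrable hD).comp_add_left w

private lemma dInt_bound (hD : PotData μ N M) (w : ℂ) (ρ : ℝ) :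
    ‖dInt ρ N w‖ ≤ ∫ ζ, N ζ := by
  have h0 : 0 ≤ dInt ρ N w := integral_nonneg (fun ζ => hD.nonneg _)
  rw [Real.norm_of_nonneg h0, ← integral_add_left_eq_self N w]
  exact setIntegral_le_integral (N_shift_int hD w)
    (Filter.Eventually.of_forall (fun ζ => hD.nonneg _))

theorem star_mean_int (hD : PotData μ N M) {k : ℝ → ℝ} {m : ℝ} (hk : Prof k m) (u : ℝ)
    {ρ : ℝ} (hρ : 0 < ρ) : Integrable (fun v => k v * dInt ρ N (pt u v)) := by
  have _ := hρ
  exact hk.int.mul_bdd (dInt_meas hD u ρ).aestronglyMeasurable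
    (Filter.Eventually.of_forall (fun v => dInt_bound hD (pt u v) ρ))

/-- the average of `N` along a line against the profile -/
private noncomputable def Gav (N : ℂ → ℝ) (k : ℝ → ℝ) (u : ℝ) (ζ : ℂ) : ℝ :=
  ∫ v, k v * N (pt u v + ζ)

private lemma joint_int (hD : PotData μ N M) {k : ℝ → ℝ} {m : ℝ} (hk : Prof k m) (u : ℝ)
    {ρ : ℝ} (hρ : 0 < ρ) :
    Integrable (fun q : ℝ × ℂ => k q.1 * N (pt u q.1 + q.2))
      ((volume : Measure ℝ).prod (volume.restrict (Metric.ball (0 : ℂ) ρ))) := by
  have hmeas : Measurable (fun q : ℝ × ℂ => k q.1 * N (pt u q.1 + q.2)) :=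
    (hk.meas.comp measurable_fst).mul
      (hD.meas.comp (((measurable_pt_right u).comp measurable_fst).add measurable_snd))
  rw [integrable_prod_iff hmeas.aestronglyMeasurable]
  constructor
  · refine Filter.Eventually.of_forall (fun v => ?_)
    exact ((N_shift_int hD (pt u v)).integrableOn).const_mul (k v)
  · refine (star_mean_int hD hk u hρ).congr (Filter.Eventually.of_forall (fun v => ?_))
    simp only
    unfold dInt
    rw [← integral_const_mul]
    refine integral_congr_ae (Filter.Eventually.of_forall (fun ζ => ?_))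
    simp only
    rw [Real.norm_of_nonneg (mul_nonneg (hk.nonneg v) (hD.nonneg _))]

private lemma Gav_int (hD : PotData μ N M) {k : ℝ → ℝ} {m : ℝ} (hk : Prof k m) (u : ℝ)
    {ρ : ℝ} (hρ : 0 < ρ) : IntegrableOn (Gav N k u) (Metric.ball (0 : ℂ) ρ) :=
  (joint_int hD hk u hρ).integral_prod_right

private lemma lhs_eq (hD : PotData μ N M) {k : ℝ → ℝ} {m : ℝ} (hk : Prof k m) (u : ℝ)
    {ρ : ℝ} (hρ : 0 < ρ) :
    ∫ v, k v * dInt ρ N (pt u v) = dInt ρ (Gav N k u) 0 := by
  have h1 : ∫ v, k v * dInt ρ N (pt u v) =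
      ∫ v, ∫ ζ in Metric.ball (0 : ℂ) ρ, k v * N (pt u v + ζ) := by
    refine integral_congr_ae (Filter.Eventually.of_forall (fun v => ?_))
    simp only
    unfold dInt
    rw [← integral_const_mul]
  rw [h1, integral_integral_swap (f := fun (v : ℝ) (ζ : ℂ) => k v * N (pt u v + ζ))
    (joint_int hD hk u hρ)]
  unfold dInt Gav
  simp only [zero_add]

private lemma line_joint {g k : ℝ → ℝ} {m y : ℝ} (hk : Prof k m) (hg : Measurable g)
    (h0 : ∀ v, 0 ≤ g v) (hi : Integrable g) :
    Integrable (Function.uncurry (fun τ v : ℝ => k v * g (v + τ)))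
      ((volume.restrict (Set.uIoc (-y) y)).prod volume) := by
  have hmeas : Measurable (Function.uncurry (fun τ v : ℝ => k v * g (v + τ))) :=
    (hk.meas.comp measurable_snd).mul (hg.comp (measurable_snd.add measurable_fst))
  rw [integrable_prod_iff hmeas.aestronglyMeasurable]
  have hnn : ∀ τ v, 0 ≤ k v * g (v + τ) := fun τ v => mul_nonneg (hk.nonneg v) (h0 _)
  have hle : ∀ τ v, k v * g (v + τ) ≤ g (v + τ) := fun τ v =>
    mul_le_of_le_one_left (h0 _) (hk.le_one v)
  have hint : ∀ τ, Integrable (fun v => k v * g (v + τ)) := by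
    intro τ
    refine (hi.comp_add_right τ).bdd_mul (c := 1) hk.meas.aestronglyMeasurable
      (Filter.Eventually.of_forall (fun v => ?_))
    rw [Real.norm_of_nonneg (hk.nonneg v)]
    exact hk.le_one v
  have hfin : IsFiniteMeasure ((volume : Measure ℝ).restrict (Set.uIoc (-y) y)) := by
    unfold Set.uIoc
    infer_instance
  constructor
  · exact Filter.Eventually.of_forall (fun τ => hint τ)
  · refine Integrable.of_bound (C := ∫ v, g v) ?_ ?_
    · exact (hmeas.norm.stronglyMeasurable.integral_prod_right').aestronglyMeasurable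
    · refine Filter.Eventually.of_forall (fun τ => ?_)
      rw [Real.norm_of_nonneg (integral_nonneg (fun v => norm_nonneg _)),
        ← integral_add_right_eq_self g τ]
      refine integral_mono (hint τ).norm (hi.comp_add_right τ) (fun v => ?_)
      simp only [Function.uncurry_apply_pair]
      rw [Real.norm_of_nonneg (hnn τ v)]
      exact hle τ v

theorem star_mean (hD : PotData μ N M) {k : ℝ → ℝ} {s : ℝ} (hk : Prof k (2 * s)) (u : ℝ)
    {ρ : ℝ} (hρ : 0 < ρ) (hρs : ρ ≤ s) :
    ∫ v, k v * dInt ρ N (pt u v) ≤ dInt ρ (Nstar N) (pt u s) := by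
  have hG : IntegrableOn (fun ζ => Gav N k u (0 + ζ)) (Metric.ball (0 : ℂ) ρ) := by
    simp only [zero_add]
    exact Gav_int hD hk u hρ
  have hS : IntegrableOn (fun ζ => Nstar N (pt u s + ζ)) (Metric.ball (0 : ℂ) ρ) :=
    Nstar_ball_int hD hρ (by rw [pt_im]; exact hρs)
  rw [lhs_eq hD hk u hρ, dInt_iter hρ.le hG, dInt_iter hρ.le hS]
  refine intervalIntegral.integral_mono_on (by linarith)
    (dInt_iter_intervalIntegrable hρ.le hG) (dInt_iter_intervalIntegrable hρ.le hS) ?_
  intro x _
  set y := √(ρ ^ 2 - x ^ 2) with hy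
  have hy0 : 0 ≤ y := Real.sqrt_nonneg _
  have hyρ : y ≤ ρ := by
    rw [hy]
    refine Real.sqrt_le_iff.2 ⟨hρ.le, ?_⟩
    nlinarith [sq_nonneg x]
  have hgm : Measurable (fun v => N (pt (u + x) v)) := N_line_meas hD _
  have hg0 : ∀ v, 0 ≤ N (pt (u + x) v) := fun v => hD.nonneg _
  have hgi : Integrable (fun v => N (pt (u + x) v)) := N_line_int hD _
  have h1 := riesz_main hk hy0 (hyρ.trans hρs) hgm hg0 hgi
  have h2 : ∫ τ in (-y)..y, Gav N k u (pt ((0 : ℂ).re + x) ((0 : ℂ).im + τ)) =
      ∫ v, k v * (∫ τ in (-y)..y, N (pt (u + x) (v + τ))) := by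
    have h3 := intervalIntegral_integral_swap (μ := volume)
      (line_joint (y := y) hk hgm hg0 hgi)
    have h4 : ∀ τ, Gav N k u (pt ((0 : ℂ).re + x) ((0 : ℂ).im + τ)) =
        ∫ v, k v * N (pt (u + x) (v + τ)) := by
      intro τ
      unfold Gav
      refine integral_congr_ae (Filter.Eventually.of_forall (fun v => ?_))
      simp only [Complex.zero_re, Complex.zero_im, zero_add]
      rw [pt_add]
    simp only [h4]
    rw [h3]
    refine integral_congr_ae (Filter.Eventually.of_forall (fun v => ?_))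
    simp only
    rw [intervalIntegral.integral_const_mul]
  rw [h2]
  refine h1.trans (le_of_eq ?_)
  refine intervalIntegral.integral_congr (fun τ _ => ?_)
  simp only [pt_re, pt_im]
  unfold Nstar
  simp only [pt_re, pt_im]
  congr 1
  ring

end MP4a1962
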