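import Pool.Agent.Lib.MP_4a1962_an.LogDisc

/-!
# SubMean: disc sub-mean inequality for `N`

`π ρ² N w ≤ dInt ρ N w + Jcor ρ w` for `w ≠ 0`, `ρ > 0`.

Proof. Let `U w = ∫ a, lg (a - w) ∂μ`. For a.e. `ζ` (all `ζ ≠ -w`): `N (w + ζ) = U (w + ζ) - lg (w + ζ)`.
Fubini on `ball 0 ρ × μ` (integrability: `lg_ball_bound` with `‖a - w‖ ≤ M + ‖w‖` for μ-a.e. `a`;
`lg (a - (w + ζ)) = lg ((a - w) - ζ) = lg (-(a - w) + ζ)`), so `ζ ↦ U (w + ζ)` is integrable on the
ball and `dInt ρ U w = ∫ a, dInt ρ lg (w - a) ∂μ ≥ ∫ a, π ρ² lg (w - a) ∂μ = π ρ² U w` by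
`dInt_lg_ge` for `a ≠ w` (`μ {w} = 0` by `noatom`). With `Jcor_eq`:
`dInt ρ N w + Jcor ρ w = dInt ρ U w - dInt ρ lg w + dInt ρ lg w - π ρ² lg w ≥ π ρ² (U w - lg w)`.
-/

set_option autoImplicit false

open MeasureTheory Set Filter Topology
open scoped Real ENNReal NNReal

namespace MP4a1962

variable {μ : Measure ℂ} {N : ℂ → ℝ} {M : ℝ}

private lemma sm_lg (a w ζ : ℂ) : lg (a - (w + ζ)) = lg ((w - a) + ζ) := by
  rw [← lg_neg]
  congr 1
  ring

private lemma sm_meas (w : ℂ) : Measurable (fun q : ℂ × ℂ => lg (q.2 - (w + q.1))) :=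
  measurable_lg.comp (measurable_snd.sub (measurable_const.add measurable_fst))

private lemma sm_int (hD : PotData μ N M) (w : ℂ) (ρ : ℝ) :
    Integrable (fun q : ℂ × ℂ => lg (q.2 - (w + q.1)))
      ((volume.restrict (Metric.ball (0 : ℂ) ρ)).prod μ) := by
  have := hD.prob
  rw [integrable_prod_iff' (sm_meas w).aestronglyMeasurable]
  constructor
  · refine Eventually.of_forall fun a => ?_
    have h := lg_ball_int (w - a) ρ
    refine h.congr (Eventually.of_forall fun ζ => ?_)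
    exact (sm_lg a w ζ).symm
  · obtain ⟨C, hC⟩ := lg_ball_bound (M + ‖w‖) ρ
    refine Integrable.of_bound (C := C) ?_ ?_
    · exact ((sm_meas w).norm.stronglyMeasurable.integral_prod_left').aestronglyMeasurable
    · filter_upwards [hD.supp] with a ha
      have h1 : ‖w - a‖ ≤ M + ‖w‖ := by
        have := norm_sub_le w a
        linarith
      have h2 := hC (w - a) h1
      have h3 : ∫ x in Metric.ball (0 : ℂ) ρ, ‖lg (a - (w + x))‖ =
          ∫ ζ in Metric.ball (0 : ℂ) ρ, |lg ((w - a) + ζ)| := by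
        refine integral_congr_ae (Eventually.of_forall fun ζ => ?_)
        simp only [sm_lg, Real.norm_eq_abs]
      have h4 : 0 ≤ ∫ x in Metric.ball (0 : ℂ) ρ, ‖lg (a - (w + x))‖ :=
        integral_nonneg fun x => norm_nonneg _
      rw [Real.norm_eq_abs, abs_of_nonneg h4, h3]
      exact h2

theorem N_submean (hD : PotData μ N M) {w : ℂ} (hw : w ≠ 0) {ρ : ℝ} (hρ : 0 < ρ) :
    π * ρ ^ 2 * N w ≤ dInt ρ N w + Jcor ρ w := by
  have := hD.prob
  have hint := sm_int hD w ρ
  have hUint : IntegrableOn (fun ζ => ∫ a, lg (a - (w + ζ)) ∂μ) (Metric.ball (0 : ℂ) ρ) :=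
    hint.integral_prod_left
  have hdint : Integrable (fun a => dInt ρ lg (w - a)) μ := by
    have h := hint.integral_prod_right
    refine h.congr (Eventually.of_forall fun a => ?_)
    unfold dInt
    refine integral_congr_ae (Eventually.of_forall fun ζ => ?_)
    exact sm_lg a w ζ
  have hswap : ∫ ζ in Metric.ball (0 : ℂ) ρ, (∫ a, lg (a - (w + ζ)) ∂μ) =
      ∫ a, dInt ρ lg (w - a) ∂μ := by
    rw [integral_integral_swap hint]
    refine integral_congr_ae (Eventually.of_forall fun a => ?_)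
    unfold dInt
    refine integral_congr_ae (Eventually.of_forall fun ζ => ?_)
    exact sm_lg a w ζ
  have hge : π * ρ ^ 2 * ∫ a, lg (a - w) ∂μ ≤ ∫ a, dInt ρ lg (w - a) ∂μ := by
    rw [← integral_const_mul]
    refine integral_mono_ae ((hD.int w).const_mul _) hdint ?_
    have hne : ∀ᵐ a ∂μ, a ≠ w := by
      rw [ae_iff]
      simp only [not_not, ne_eq]
      exact hD.noatom w
    filter_upwards [hne] with a ha
    have h1 := dInt_lg_ge (sub_ne_zero.2 (Ne.symm ha) : w - a ≠ 0) hρ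
    have h2 : lg (a - w) = lg (w - a) := by
      rw [← lg_neg, neg_sub]
    rw [h2]
    exact h1
  have hN : dInt ρ N w = (∫ ζ in Metric.ball (0 : ℂ) ρ, (∫ a, lg (a - (w + ζ)) ∂μ)) -
      dInt ρ lg w := by
    unfold dInt
    rw [← integral_sub hUint (lg_ball_int w ρ)]
    refine integral_congr_ae ?_
    have hne : ∀ᵐ ζ ∂(volume.restrict (Metric.ball (0 : ℂ) ρ)), ζ ≠ -w := by
      refine ae_restrict_of_ae ?_
      rw [ae_iff]
      simp only [not_not, ne_eq]
      exact measure_singleton _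
    filter_upwards [hne] with ζ hζ
    have h1 : w + ζ ≠ 0 := by
      intro h
      apply hζ
      rw [add_comm] at h
      exact eq_neg_of_add_eq_zero_left h
    exact hD.eq (w + ζ) h1
  rw [hN, Jcor_eq hρ, hswap, hD.eq w hw]
  have : π * ρ ^ 2 * ((∫ a, lg (a - w) ∂μ) - lg w) =
      π * ρ ^ 2 * (∫ a, lg (a - w) ∂μ) - π * ρ ^ 2 * lg w := by ring
  rw [this]
  linarith

end MP4a1962
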