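import Pool.Agent.Lib.MP_4a1962_an.StarMean
import Pool.Agent.Lib.MP_4a1962_an.SubMean

/-!
# StarSub: disc sub-mean inequality for the star function

`π ρ² Nstar N w ≤ dInt ρ (Nstar N) w + Pcor ρ w.re` for `0 < ρ ≤ w.im`.

Proof. Let `g = N (pt w.re ·)`, `k` an optimal profile of mass `≤ 2 w.im` (`exists_prof`):
`Nstar N w = ∫ k g`. For a.e. `v` (`v ≠ 0`, so `pt w.re v ≠ 0`) `N_submean` gives
`π ρ² g v ≤ dInt ρ N (pt w.re v) + Jcor ρ (pt w.re v)`; multiply by `k v ∈ [0,1]`, use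
`0 ≤ Jcor ρ (pt w.re v)` and integrate (`star_mean_int`, `Jcor_line`), then `star_mean`.
-/

set_option autoImplicit false

open MeasureTheory Set Filter Topology
open scoped Real ENNReal NNReal

namespace MP4a1962

variable {μ : Measure ℂ} {N : ℂ → ℝ} {M : ℝ}

theorem Nstar_submean (hD : PotData μ N M) {w : ℂ} {ρ : ℝ} (hρ : 0 < ρ) (hw : ρ ≤ w.im) :
    π * ρ ^ 2 * Nstar N w ≤ dInt ρ (Nstar N) w + Pcor ρ w.re := by
  have him : 0 ≤ w.im := hρ.le.trans hw
  obtain ⟨k, hk, hkg⟩ := exists_prof (g := fun v => N (pt w.re v)) (N_line_meas hD w.re)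
    (fun v => hD.nonneg (pt w.re v)) (N_line_int hD w.re) (m := 2 * w.im) (by positivity)
  have hN : Nstar N w = ∫ v, k v * N (pt w.re v) := hkg.symm
  have hint := star_mean_int hD hk w.re hρ
  have hJ := Jcor_line hρ w.re
  have hne : ∀ᵐ v : ℝ, v ≠ 0 := by
    simp [ae_iff, measure_singleton]
  have h1 : π * ρ ^ 2 * Nstar N w ≤
      ∫ v, (k v * dInt ρ N (pt w.re v) + Jcor ρ (pt w.re v)) := by
    rw [hN, ← integral_const_mul]
    refine integral_mono_ae ((hk.mul_integrable (N_line_int hD w.re)).const_mul _)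
      (hint.add hJ) ?_
    filter_upwards [hne] with v hv
    have hpt : pt w.re v ≠ 0 := by
      intro h
      have := congrArg Complex.im h
      rw [pt_im, Complex.zero_im] at this
      exact hv this
    have h2 := N_submean hD hpt hρ
    have h3 := Jcor_nonneg hρ hpt
    have h4 := mul_le_mul_of_nonneg_left h2 (hk.nonneg v)
    have h5 : k v * Jcor ρ (pt w.re v) ≤ 1 * Jcor ρ (pt w.re v) :=
      mul_le_mul_of_nonneg_right (hk.le_one v) h3
    calc π * ρ ^ 2 * (k v * N (pt w.re v)) = k v * (π * ρ ^ 2 * N (pt w.re v)) := by ring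
      _ ≤ k v * (dInt ρ N (pt w.re v) + Jcor ρ (pt w.re v)) := h4
      _ ≤ k v * dInt ρ N (pt w.re v) + Jcor ρ (pt w.re v) := by linarith
  refine h1.trans ?_
  rw [integral_add hint hJ]
  have h6 := star_mean hD hk w.re hρ hw
  rw [pt_eta] at h6
  exact add_le_add h6 le_rfl

end MP4a1962
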