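import Pool.Agent.Lib.MP_4a1962_an.StarSub
import Pool.Agent.Lib.MP_4a1962_an.S0Disc
import Pool.Agent.Lib.MP_4a1962_an.MaxPr

/-!
# StarThm: the star inequality `Nstar N ≤ S0` (Baernstein)

Apply `max_pr` to `D = Nstar N - S0`, `s1 = ℓ / 2`:
continuity `Nstar_continuousOn`, `S0_continuousOn`; bottom `Nstar_bot`, `S0_bot`; sides `Nstar_side`,
`S0_nonneg`; top: for `ℓ/2 ≤ s ≤ π`, `Nstar N (pt u π) = ∫ N (pt u ·) = Nstar N (pt u s)`
(`Nstar_eq_integral`) and `S0 (pt u s) ≤ S0 (pt u π)`; sub-mean: `Nstar_submean` minus `S0_disc`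
(integrability on the ball: `Nstar_ball_int`, `S0_ball_int`). For `|w.re| > M`: `Nstar N w = 0 ≤ S0 w`.
-/

set_option autoImplicit false

open MeasureTheory Set Filter Topology
open scoped Real ENNReal NNReal

namespace MP4a1962

variable {μ : Measure ℂ} {N : ℂ → ℝ} {M : ℝ}

theorem star_ineq (hD : PotData μ N M) {l : ℝ} (hl0 : 0 ≤ l) (hl : l < 2 * π)
    (hsec : ∀ u : ℝ, volume {v : ℝ | 0 < N (pt u v)} ≤ ENNReal.ofReal l)
    {w : ℂ} (h0 : 0 ≤ w.im) (h1 : w.im ≤ π) : Nstar N w ≤ S0 w := by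
  have hπ := Real.pi_pos
  have hmain := max_pr (fun w => Nstar N w - S0 w) hD.Mpos (s1 := l / 2) (by linarith)
    (by linarith)
    (ContinuousOn.sub ((Nstar_continuousOn hD).mono fun w hw => hw.2.1)
      (S0_continuousOn.mono fun w hw => hw.2))
    (fun w hw _ => by
      rw [Nstar_bot N hw, S0_bot hw, sub_zero])
    (fun w hw hi0 hi1 => by
      rw [Nstar_side hD hw.ge hi0]
      have := S0_nonneg hi0 hi1
      linarith)
    (fun u s _ hs hs1 => by
      have hs0 : 0 ≤ s := by linarith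
      have e1 : Nstar N (pt u π) = ∫ v, N (pt u v) := by
        refine Nstar_eq_integral hD (w := pt u π) hπ.le ?_
        exact (hsec u).trans (ENNReal.ofReal_le_ofReal (by rw [pt_im]; linarith))
      have e2 : Nstar N (pt u s) = ∫ v, N (pt u v) := by
        refine Nstar_eq_integral hD (w := pt u s) hs0 ?_
        exact (hsec u).trans (ENNReal.ofReal_le_ofReal (by rw [pt_im]; linarith))
      have e3 := S0_mono u hs0 hs1 le_rfl
      rw [e1, e2]
      linarith)
    (fun w ρ hρ _ hi hi2 => by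
      have e1 := Nstar_submean hD hρ hi
      have e2 := S0_disc hρ hi hi2
      have e3 : dInt ρ (fun w => Nstar N w - S0 w) w = dInt ρ (Nstar N) w - dInt ρ S0 w := by
        unfold dInt
        exact integral_sub (Nstar_ball_int hD hρ hi) (S0_ball_int hρ hi hi2)
      rw [e3]
      have e4 : π * ρ ^ 2 * (Nstar N w - S0 w) = π * ρ ^ 2 * Nstar N w - π * ρ ^ 2 * S0 w := by
        ring
      rw [e4]
      linarith)
  rcases le_or_gt |w.re| M with h | h
  · have := hmain w h h0 h1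
    linarith
  · rw [Nstar_side hD h.le h0]
    exact S0_nonneg h0 h1

theorem star_ineq_top (hD : PotData μ N M) {l : ℝ} (hl0 : 0 ≤ l) (hl : l < 2 * π)
    (hsec : ∀ u : ℝ, volume {v : ℝ | 0 < N (pt u v)} ≤ ENNReal.ofReal l) (u : ℝ) :
    π * ((∫ a, |a.re - u| ∂μ) - |u|) ≤ S0 (pt u π) := by
  have hπ := Real.pi_pos
  have h := star_ineq hD hl0 hl hsec (w := pt u π) hπ.le le_rfl
  have e1 : Nstar N (pt u π) = ∫ v, N (pt u v) := by
    refine Nstar_eq_integral hD (w := pt u π) hπ.le ?_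
    exact (hsec u).trans (ENNReal.ofReal_le_ofReal (by rw [pt_im]; linarith))
  rw [e1, N_line_integral hD u] at h
  exact h

end MP4a1962
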