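import Pool.Agent.Lib.MP_4a1962_an.U0Basic

/-!
# U0Fourier: Fourier coefficients of `U0`

`∫_{-π}^{π} U0 θ cos (k θ) dθ = π h0c k` for `k ≥ 1` (`h0c k = 4/k` for odd `k`, `0` for even `k`).

Proof. `U0` is even and `U0 (π - θ) = -U0 θ`, `cos (k (π - θ)) = (-1)^k cos (k θ)`: for even `k` the
integral vanishes. For odd `k` integrate by parts on `(ε, π - ε)`:
`2 ∫_0^π U0 cos kθ = -(2/k) ∫_0^π U0' sin kθ = (4/k) ∫_0^π sin kθ / sin θ dθ = 4π/k`, where
`U0' θ = -2 / sin θ`; boundary terms `U0(ε) sin(kε) → 0`. The last integral: `sin kθ = sin θ (1 + 2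
Σ_{j=1}^{(k-1)/2} cos (2jθ))` for odd `k`, or induction `sin((k+2)θ) - sin(kθ) = 2 cos((k+1)θ) sin θ`.
-/

set_option autoImplicit false

open MeasureTheory Set Filter Topology
open scoped Real ENNReal NNReal

namespace MP4a1962

/-- the Dirichlet type kernel `sin (k θ) / sin θ` -/
private noncomputable def Dk : ℕ → ℝ → ℝ
  | 0, _ => 0
  | 1, _ => 1
  | (k + 2), θ => Dk k θ + 2 * Real.cos ((k + 1 : ℕ) * θ)

private theorem Dk_cont : ∀ k : ℕ, Continuous (Dk k)
  | 0 => by
    have : Dk 0 = fun _ => 0 := by funext θ; rfl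
    rw [this]
    exact continuous_const
  | 1 => by
    have : Dk 1 = fun _ => 1 := by funext θ; rfl
    rw [this]
    exact continuous_const
  | (k + 2) => by
    have : Dk (k + 2) = fun θ => Dk k θ + 2 * Real.cos ((k + 1 : ℕ) * θ) := by funext θ; rfl
    rw [this]
    have := Dk_cont k
    fun_prop

private theorem Dk_mul_sin (θ : ℝ) : ∀ k : ℕ, Dk k θ * Real.sin θ = Real.sin (k * θ)
  | 0 => by
    have : Dk 0 θ = 0 := rfl
    simp [this]
  | 1 => by
    have : Dk 1 θ = 1 := rfl
    simp [this]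
  | (k + 2) => by
    have : Dk (k + 2) θ = Dk k θ + 2 * Real.cos ((k + 1 : ℕ) * θ) := rfl
    rw [this, add_mul, Dk_mul_sin θ k]
    have e1 : ((k + 2 : ℕ) : ℝ) * θ = (k + 1 : ℕ) * θ + θ := by push_cast; ring
    have e2 : (k : ℝ) * θ = (k + 1 : ℕ) * θ - θ := by push_cast; ring
    rw [e1, e2, Real.sin_add, Real.sin_sub]
    ring

private theorem Dk_int : ∀ k : ℕ, ∫ θ in (0 : ℝ)..π, Dk k θ = if Odd k then π else 0
  | 0 => by
    have : Dk 0 = fun _ => 0 := by funext θ; rfl
    rw [this]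
    simp
  | 1 => by
    have : Dk 1 = fun _ => 1 := by funext θ; rfl
    rw [this]
    simp
  | (k + 2) => by
    have : Dk (k + 2) = fun θ => Dk k θ + 2 * Real.cos ((k + 1 : ℕ) * θ) := by funext θ; rfl
    rw [this, intervalIntegral.integral_add ((Dk_cont k).intervalIntegrable _ _)
      (by apply Continuous.intervalIntegrable; fun_prop), Dk_int k,
      intervalIntegral.integral_const_mul]
    have hne : ((k + 1 : ℕ) : ℝ) ≠ 0 := by positivity
    have h0 : ∫ θ in (0 : ℝ)..π, Real.cos ((k + 1 : ℕ) * θ) = 0 := by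
      rw [intervalIntegral.integral_comp_mul_left (fun x => Real.cos x) hne, integral_cos,
        Real.sin_nat_mul_pi, mul_zero, Real.sin_zero]
      simp
    rw [h0, mul_zero, add_zero]
    have : Odd (k + 2) ↔ Odd k := by
      rw [Nat.odd_add]
      simp
    simp only [this]

/-- the primitive (continuous everywhere) -/
private noncomputable def FF (k : ℕ) (θ : ℝ) : ℝ :=
  (4 / k) * Dk k θ * ((Real.cos (θ / 2) * Real.log (Real.cos (θ / 2))) * Real.sin (θ / 2) -
    (Real.sin (θ / 2) * Real.log (Real.sin (θ / 2))) * Real.cos (θ / 2))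

private theorem FF_cont (k : ℕ) : Continuous (FF k) := by
  have h1 := Dk_cont k
  have h2 : Continuous fun θ : ℝ => Real.cos (θ / 2) * Real.log (Real.cos (θ / 2)) :=
    Real.continuous_mul_log.comp (by fun_prop)
  have h3 : Continuous fun θ : ℝ => Real.sin (θ / 2) * Real.log (Real.sin (θ / 2)) :=
    Real.continuous_mul_log.comp (by fun_prop)
  unfold FF
  exact (continuous_const.mul h1).mul ((h2.mul (by fun_prop)).sub (h3.mul (by fun_prop)))

private theorem FF_eq {k : ℕ} (θ : ℝ) : FF k θ = U0 θ * (Real.sin (k * θ) / k) := by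
  have h1 := Dk_mul_sin θ k
  have h2 : Real.sin θ = 2 * Real.sin (θ / 2) * Real.cos (θ / 2) := by
    rw [← Real.sin_two_mul]
    congr 1
    ring
  rw [← h1, h2]
  unfold FF U0
  rw [Real.log_abs, Real.log_abs]
  ring

private theorem U0_deriv {θ : ℝ} (h0 : 0 < θ) (h1 : θ < π) :
    HasDerivAt U0 (-2 / Real.sin θ) θ := by
  have hs : 0 < Real.sin (θ / 2) := Real.sin_pos_of_pos_of_lt_pi (by linarith) (by linarith)
  have hc : 0 < Real.cos (θ / 2) := Real.cos_pos_of_mem_Ioo ⟨by linarith, by linarith⟩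
  have hU : U0 = fun θ => 2 * (Real.log (Real.cos (θ / 2)) - Real.log (Real.sin (θ / 2))) := by
    funext x
    unfold U0
    rw [Real.log_abs, Real.log_abs]
  have hd : HasDerivAt (fun x : ℝ => x / 2) (1 / 2) θ := by
    simpa using (hasDerivAt_id θ).div_const 2
  have d1 : HasDerivAt (fun x : ℝ => Real.cos (x / 2)) (-Real.sin (θ / 2) * (1 / 2)) θ := by
    have := (Real.hasDerivAt_cos (θ / 2)).comp θ hd
    exact this
  have d2 : HasDerivAt (fun x : ℝ => Real.sin (x / 2)) (Real.cos (θ / 2) * (1 / 2)) θ := by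
    have := (Real.hasDerivAt_sin (θ / 2)).comp θ hd
    exact this
  have d3 := ((d1.log hc.ne').sub (d2.log hs.ne')).const_mul 2
  rw [hU]
  have h2 : Real.sin θ = 2 * Real.sin (θ / 2) * Real.cos (θ / 2) := by
    rw [← Real.sin_two_mul]
    congr 1
    ring
  have e : -2 / Real.sin θ = 2 * (-Real.sin (θ / 2) * (1 / 2) / Real.cos (θ / 2) -
      Real.cos (θ / 2) * (1 / 2) / Real.sin (θ / 2)) := by
    rw [h2]
    have h3 := Real.sin_sq_add_cos_sq (θ / 2)
    field_simp
    nlinarith
  rw [e]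
  exact d3

private theorem half {k : ℕ} (hk : 1 ≤ k) :
    ∫ θ in (0 : ℝ)..π, U0 θ * Real.cos (k * θ) = (2 / k) * if Odd k then π else 0 := by
  have hk0 : (0 : ℝ) < k := by exact_mod_cast hk
  have hi1 : IntervalIntegrable (fun θ => U0 θ * Real.cos (k * θ)) volume 0 π :=
    (U0_int 0 π).mul_continuousOn (by fun_prop)
  have hi2 : IntervalIntegrable (fun θ => (2 / k) * Dk k θ) volume 0 π :=
    (continuous_const.mul (Dk_cont k)).intervalIntegrable _ _
  have hmain := intervalIntegral.integral_eq_sub_of_hasDerivAt_of_le (a := 0) (b := π)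
    (f := FF k) (f' := fun θ => U0 θ * Real.cos (k * θ) - (2 / k) * Dk k θ) Real.pi_pos.le
    (FF_cont k).continuousOn (by
      intro θ hθ
      have hs : 0 < Real.sin θ := Real.sin_pos_of_pos_of_lt_pi hθ.1 hθ.2
      have hfun : FF k = fun θ => U0 θ * (Real.sin (k * θ) / k) := by
        funext x
        exact FF_eq x
      rw [hfun]
      have hd : HasDerivAt (fun x : ℝ => (k : ℝ) * x) (k : ℝ) θ := by
        simpa using (hasDerivAt_id θ).const_mul (k : ℝ)
      have d1 : HasDerivAt (fun x : ℝ => Real.sin (k * x) / k)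
          (Real.cos (k * θ) * k / k) θ :=
        (((Real.hasDerivAt_sin (k * θ)).comp θ hd)).div_const _
      have d2 := (U0_deriv hθ.1 hθ.2).mul d1
      have e : -2 / Real.sin θ * (Real.sin (k * θ) / k) + U0 θ * (Real.cos (k * θ) * k / k) =
          U0 θ * Real.cos (k * θ) - (2 / k) * Dk k θ := by
        rw [← Dk_mul_sin θ k]
        field_simp
        ring
      rw [← e]
      exact d2) (hi1.sub hi2)
  have hF0 : FF k 0 = 0 := by
    rw [FF_eq]
    simp
  have hFπ : FF k π = 0 := by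
    rw [FF_eq, Real.sin_nat_mul_pi]
    simp
  rw [hF0, hFπ, sub_zero, intervalIntegral.integral_sub hi1 hi2,
    intervalIntegral.integral_const_mul, Dk_int] at hmain
  linarith

theorem U0_cos {k : ℕ} (hk : 1 ≤ k) : ∫ θ in (-π)..π, U0 θ * Real.cos (k * θ) = π * h0c k := by
  have hi1 : ∀ a b : ℝ, IntervalIntegrable (fun θ => U0 θ * Real.cos (k * θ)) volume a b :=
    fun a b => (U0_int a b).mul_continuousOn (by fun_prop)
  rw [← intervalIntegral.integral_add_adjacent_intervals (hi1 (-π) 0) (hi1 0 π)]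
  have e : ∫ θ in (-π)..0, U0 θ * Real.cos (k * θ) = ∫ θ in (0 : ℝ)..π, U0 θ * Real.cos (k * θ) := by
    have h := intervalIntegral.integral_comp_neg (a := 0) (b := π)
      (fun θ => U0 θ * Real.cos (k * θ))
    rw [neg_zero] at h
    rw [← h]
    congr 1
    funext θ
    rw [U0_even, mul_neg, Real.cos_neg]
  rw [e, half hk, h0c]
  split_ifs
  · ring
  · ring

end MP4a1962
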