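import Pool.Agent.Lib.MP_4a1962_an.IntervalIneq
import Pool.Agent.Lib.MP_4a1962_an.U0Fourier

/-!
# TestIneq: test functions that are symmetric decreasing

For `T θ = a cos θ + σ cos (k θ)` with `|σ| k² ≤ a` (`k ≥ 1`), `-T' θ = a sin θ + σ k sin (k θ) ≥ 0` on
`[0, π]` because `|sin k θ| ≤ k sin θ` there. For any `V` (continuous or `V = U0`), with
`A_V t = ∫_{-t}^{t} V (φ + θ) dθ`, integration by parts (Fubini:
`T θ = T π + ∫_{|θ|}^{π} (-T' t) dt`) gives
`∫_{-π}^{π} V (φ+θ) T θ dθ = T π ∫ V + ∫_0^π (-T' t) A_V t dt`. Apply it to `U` and to `U0` (`φ = 0`), both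
with mean zero, and `interval_ineq`. Then `U0_cos` (with `k = 1`: `h0c 1 = 4`).
-/

set_option autoImplicit false

open MeasureTheory Set Filter Topology
open scoped Real ENNReal NNReal

namespace MP4a1962

private theorem sym_eq {W : ℝ → ℝ} (hi : IntervalIntegrable W volume (-π) π) {t : ℝ}
    (h0 : 0 ≤ t) (h1 : t ≤ π) :
    ∫ θ in (-t)..t, W θ = (∫ θ in (0 : ℝ)..t, W θ) - ∫ θ in (0 : ℝ)..(-t), W θ := by
  have hsub1 : IntervalIntegrable W volume (-t) 0 :=
    hi.mono_set (by
      rw [uIcc_of_le (by linarith), uIcc_of_le (by linarith)]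
      exact Icc_subset_Icc (by linarith) (by linarith))
  have hsub2 : IntervalIntegrable W volume 0 t :=
    hi.mono_set (by
      rw [uIcc_of_le (by linarith), uIcc_of_le (by linarith)]
      exact Icc_subset_Icc (by linarith) (by linarith))
  rw [← intervalIntegral.integral_add_adjacent_intervals hsub1 hsub2,
    intervalIntegral.integral_symm (-t) 0]
  ring

private theorem sym_cont {W : ℝ → ℝ} (hi : IntervalIntegrable W volume (-π) π) :
    ContinuousOn (fun t => ∫ θ in (-t)..t, W θ) (Icc 0 π) := by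
  have hπ := Real.pi_pos
  have h1 : ContinuousOn (fun t => ∫ θ in (0 : ℝ)..t, W θ) (uIcc (-π) π) :=
    intervalIntegral.continuousOn_primitive_interval' hi (by
      rw [uIcc_of_le (by linarith)]
      exact ⟨by linarith, by linarith⟩)
  rw [uIcc_of_le (by linarith)] at h1
  have h2 : ContinuousOn (fun t => (∫ θ in (0 : ℝ)..t, W θ) - ∫ θ in (0 : ℝ)..(-t), W θ)
      (Icc 0 π) := by
    refine (h1.mono (Icc_subset_Icc (by linarith) le_rfl)).sub ?_
    refine h1.comp (continuous_neg.continuousOn) ?_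
    intro t ht
    exact ⟨by simpa using ht.2, by linarith [ht.1]⟩
  exact h2.congr fun t ht => sym_eq hi ht.1 ht.2

private theorem sym_deriv {W : ℝ → ℝ} (hm : Measurable W)
    (hi : IntervalIntegrable W volume (-π) π) {t : ℝ} (h0 : 0 < t) (h1 : t < π)
    (hc : ContinuousAt W t) (hc' : ContinuousAt W (-t)) :
    HasDerivAt (fun t => ∫ θ in (-t)..t, W θ) (W t + W (-t)) t := by
  have hsub : ∀ s ∈ Icc (-π) π, IntervalIntegrable W volume 0 s := by
    intro s hs
    refine hi.mono_set ?_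
    rw [uIcc_of_le (a := -π) (b := π) (by linarith [Real.pi_pos])]
    exact uIcc_subset_Icc ⟨by linarith [Real.pi_pos], by linarith [Real.pi_pos]⟩ hs
  have d1 : HasDerivAt (fun u => ∫ θ in (0 : ℝ)..u, W θ) (W t) t :=
    intervalIntegral.integral_hasDerivAt_right (hsub t ⟨by linarith, h1.le⟩)
      hm.stronglyMeasurable.stronglyMeasurableAtFilter hc
  have d2 : HasDerivAt (fun u => ∫ θ in (0 : ℝ)..u, W θ) (W (-t)) (-t) :=
    intervalIntegral.integral_hasDerivAt_right (hsub (-t) ⟨by linarith, by linarith⟩)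
      hm.stronglyMeasurable.stronglyMeasurableAtFilter hc'
  have d3 : HasDerivAt (fun u => ∫ θ in (0 : ℝ)..(-u), W θ) (W (-t) * (-1)) t :=
    HasDerivAt.comp t d2 (hasDerivAt_neg t)
  have d4 := d1.sub d3
  have e : W t - W (-t) * (-1) = W t + W (-t) := by ring
  rw [e] at d4
  refine d4.congr_of_eventuallyEq ?_
  filter_upwards [Ioo_mem_nhds h0 h1] with s hs
  exact sym_eq hi hs.1.le hs.2.le

private theorem parts {V T T' : ℝ → ℝ} (hm : Measurable V)
    (hi : IntervalIntegrable V volume (-π) π)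
    (hc : ∀ t ∈ Ioo (0 : ℝ) π, ContinuousAt V t ∧ ContinuousAt V (-t))
    (hT : ∀ t, HasDerivAt T (T' t) t) (hT' : Continuous T') (heven : ∀ t, T (-t) = T t) :
    ∫ θ in (-π)..π, V θ * T θ = T π * (∫ θ in (-π)..π, V θ) +
      ∫ t in (0 : ℝ)..π, (-T' t) * ∫ θ in (-t)..t, V θ := by
  have hTc : Continuous T := continuous_iff_continuousAt.2 fun t => (hT t).continuousAt
  have hi2 : IntervalIntegrable (fun θ => V θ * T θ) volume (-π) π :=
    hi.mul_continuousOn hTc.continuousOn
  have hA := sym_cont hi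
  have hB := sym_cont hi2
  have hG : ContinuousOn (fun t => (∫ θ in (-t)..t, V θ * T θ) - T t * ∫ θ in (-t)..t, V θ)
      (Icc 0 π) := hB.sub (hTc.continuousOn.mul hA)
  have hder : ∀ t ∈ Ioo (0 : ℝ) π,
      HasDerivAt (fun t => (∫ θ in (-t)..t, V θ * T θ) - T t * ∫ θ in (-t)..t, V θ)
        ((-T' t) * ∫ θ in (-t)..t, V θ) t := by
    intro t ht
    obtain ⟨c1, c2⟩ := hc t ht
    have dB := sym_deriv (hm.mul hTc.measurable) hi2 ht.1 ht.2 (c1.mul hTc.continuousAt)
      (c2.mul hTc.continuousAt)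
    have dA := sym_deriv hm hi ht.1 ht.2 c1 c2
    have d := dB.sub ((hT t).mul dA)
    have e : V t * T t + V (-t) * T (-t) -
        (T' t * (∫ θ in (-t)..t, V θ) + T t * (V t + V (-t))) =
        (-T' t) * ∫ θ in (-t)..t, V θ := by
      rw [heven]
      ring
    rw [← e]
    exact d
  have hint : IntervalIntegrable (fun t => (-T' t) * ∫ θ in (-t)..t, V θ) volume 0 π := by
    apply ContinuousOn.intervalIntegrable
    rw [uIcc_of_le Real.pi_pos.le]
    exact hT'.neg.continuousOn.mul hA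
  have h := intervalIntegral.integral_eq_sub_of_hasDerivAt_of_le Real.pi_pos.le hG hder hint
  rw [h]
  simp

private theorem shiftR {G : ℝ → ℝ} (hG : Function.Periodic G (2 * π)) (φ : ℝ) :
    ∫ θ in (-π)..π, G (φ + θ) = ∫ θ in (-π)..π, G θ := by
  rw [intervalIntegral.integral_comp_add_left G φ]
  have h := hG.intervalIntegral_add_eq (φ + -π) (-π)
  have e1 : φ + -π + 2 * π = φ + π := by ring
  have e2 : -π + 2 * π = π := by ring
  rw [e1, e2] at h
  exact h

private theorem abs_sin_mul_le (k : ℕ) (t : ℝ) : |Real.sin (k * t)| ≤ k * |Real.sin t| := by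
  induction k with
  | zero => simp
  | succ k ih =>
    have e : ((k + 1 : ℕ) : ℝ) * t = k * t + t := by push_cast; ring
    rw [e, Real.sin_add]
    have h1 := abs_add_le (Real.sin (k * t) * Real.cos t) (Real.cos (k * t) * Real.sin t)
    rw [abs_mul, abs_mul] at h1
    have h2 := Real.abs_cos_le_one t
    have h3 := Real.abs_cos_le_one (k * t)
    have h4 : |Real.sin (k * t)| * |Real.cos t| ≤ |Real.sin (k * t)| * 1 :=
      mul_le_mul_of_nonneg_left h2 (abs_nonneg _)
    have h5 : |Real.cos (k * t)| * |Real.sin t| ≤ 1 * |Real.sin t| :=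
      mul_le_mul_of_nonneg_right h3 (abs_nonneg _)
    push_cast
    linarith

private theorem U0_contAt {t : ℝ} (h0 : 0 < |t|) (h1 : |t| < π) : ContinuousAt U0 t := by
  obtain ⟨h2, h3⟩ := abs_lt.1 h1
  have hs : Real.sin (t / 2) ≠ 0 := by
    rcases lt_or_gt_of_ne (abs_pos.1 h0) with h | h
    · exact (Real.sin_neg_of_neg_of_neg_pi_lt (by linarith) (by linarith)).ne
    · exact (Real.sin_pos_of_pos_of_lt_pi (by linarith) (by linarith)).ne'
  have hc : Real.cos (t / 2) ≠ 0 :=
    (Real.cos_pos_of_mem_Ioo ⟨by linarith, by linarith⟩).ne'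
  unfold U0
  refine ContinuousAt.mul continuousAt_const (ContinuousAt.sub ?_ ?_)
  · exact ContinuousAt.log (by fun_prop) (abs_ne_zero.2 hc)
  · exact ContinuousAt.log (by fun_prop) (abs_ne_zero.2 hs)

theorem test_ineq {U : ℝ → ℝ} (hU : ULow U) {k : ℕ} (hk : 1 ≤ k) {a σ : ℝ}
    (hσ : |σ| * (k : ℝ) ^ 2 ≤ a) (φ : ℝ) :
    ∫ θ in (-π)..π, U (φ + θ) * (a * Real.cos θ + σ * Real.cos (k * θ)) ≤
      π * (4 * a + σ * h0c k) := by
  set T : ℝ → ℝ := fun θ => a * Real.cos θ + σ * Real.cos (k * θ) with hTdef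
  set T' : ℝ → ℝ := fun θ => a * (-Real.sin θ) + σ * (-Real.sin (k * θ) * k) with hT'def
  have hT : ∀ t, HasDerivAt T (T' t) t := by
    intro t
    have hd : HasDerivAt (fun x : ℝ => (k : ℝ) * x) (k : ℝ) t := by
      simpa using (hasDerivAt_id t).const_mul (k : ℝ)
    have d1 : HasDerivAt (fun x : ℝ => Real.cos (k * x)) (-Real.sin (k * t) * k) t :=
      (Real.hasDerivAt_cos (k * t)).comp t hd
    exact ((Real.hasDerivAt_cos t).const_mul a).add (d1.const_mul σ)
  have hT' : Continuous T' := by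
    rw [hT'def]
    fun_prop
  have heven : ∀ t, T (-t) = T t := by
    intro t
    simp only [hTdef, Real.cos_neg, mul_neg]
  have hVc : Continuous (fun θ => U (φ + θ)) := hU.cont.comp (by fun_prop)
  have p1 := parts (V := fun θ => U (φ + θ)) hVc.measurable (hVc.intervalIntegrable _ _)
    (fun t _ => ⟨hVc.continuousAt, hVc.continuousAt⟩) hT hT' heven
  have p2 := parts (V := U0) measurable_U0 (U0_int (-π) π)
    (fun t ht => ⟨U0_contAt (by rw [abs_of_pos ht.1]; exact ht.1)
      (by rw [abs_of_pos ht.1]; exact ht.2),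
      U0_contAt (by rw [abs_neg, abs_of_pos ht.1]; exact ht.1)
      (by rw [abs_neg, abs_of_pos ht.1]; exact ht.2)⟩) hT hT' heven
  have hmeanU : ∫ θ in (-π)..π, U (φ + θ) = 0 := by
    rw [shiftR (G := U) (fun θ => hU.per θ) φ]
    exact hU.mean
  rw [hmeanU, mul_zero, zero_add] at p1
  rw [U0_total, mul_zero, zero_add] at p2
  have hle : ∫ t in (0 : ℝ)..π, (-T' t) * ∫ θ in (-t)..t, U (φ + θ) ≤
      ∫ t in (0 : ℝ)..π, (-T' t) * ∫ θ in (-t)..t, U0 θ := by
    apply intervalIntegral.integral_mono_on_of_le_Ioo Real.pi_pos.le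
    · apply ContinuousOn.intervalIntegrable
      rw [uIcc_of_le Real.pi_pos.le]
      exact hT'.neg.continuousOn.mul (sym_cont (hVc.intervalIntegrable _ _))
    · apply ContinuousOn.intervalIntegrable
      rw [uIcc_of_le Real.pi_pos.le]
      exact hT'.neg.continuousOn.mul (sym_cont (U0_int (-π) π))
    · intro t ht
      refine mul_le_mul_of_nonneg_left (interval_ineq hU ht.1 ht.2 φ) ?_
      have hs : 0 ≤ Real.sin t := (Real.sin_pos_of_pos_of_lt_pi ht.1 ht.2).le
      have h1 := abs_sin_mul_le k t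
      rw [abs_of_nonneg hs] at h1
      have hk0 : (0 : ℝ) ≤ k := by positivity
      have h2 : |σ * (k * Real.sin (k * t))| ≤ |σ| * (k : ℝ) ^ 2 * Real.sin t := by
        rw [abs_mul, abs_mul, abs_of_nonneg hk0]
        have : |σ| * (k * |Real.sin (k * t)|) ≤ |σ| * (k * (k * Real.sin t)) := by
          gcongr
        refine this.trans (le_of_eq ?_)
        ring
      have h3 : |σ| * (k : ℝ) ^ 2 * Real.sin t ≤ a * Real.sin t :=
        mul_le_mul_of_nonneg_right hσ hs
      have h4 := neg_abs_le (σ * (k * Real.sin (k * t)))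
      have e : -T' t = a * Real.sin t + σ * (k * Real.sin (k * t)) := by
        simp only [hT'def]
        ring
      rw [e]
      linarith
  rw [p1]
  refine hle.trans ?_
  rw [← p2]
  have e : ∀ θ : ℝ, U0 θ * T θ = a * (U0 θ * Real.cos θ) + σ * (U0 θ * Real.cos (k * θ)) := by
    intro θ
    simp only [hTdef]
    ring
  simp_rw [e]
  have i1 : IntervalIntegrable (fun θ => U0 θ * Real.cos θ) volume (-π) π :=
    (U0_int (-π) π).mul_continuousOn (by fun_prop)
  have i2 : IntervalIntegrable (fun θ => U0 θ * Real.cos (k * θ)) volume (-π) π :=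
    (U0_int (-π) π).mul_continuousOn (by fun_prop)
  have c1 := U0_cos (le_refl 1)
  simp only [Nat.cast_one, one_mul] at c1
  rw [intervalIntegral.integral_add (i1.const_mul a) (i2.const_mul σ),
    intervalIntegral.integral_const_mul, intervalIntegral.integral_const_mul, c1, U0_cos hk]
  have h4 : h0c 1 = 4 := by
    simp [h0c]
  rw [h4]
  exact le_of_eq (by ring)

end MP4a1962
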